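import Pool.Agent.T2H70.SR.Defs

set_option autoImplicit false

/-!
# Package A1: closure properties of `IsRat` and extraction of coefficients
-/

namespace Pool.Agent.T2H70.SR

open Finset
open scoped BigOperators

theorem IsRat.const (c : ℚ) : IsRat (fun _ => c) :=
  ⟨Polynomial.C c, 1, fun p _ _ => by simp⟩

theorem IsRat.id : IsRat (fun p => (p : ℚ)) :=
  ⟨Polynomial.X, 1, fun p _ _ => by simp⟩

theorem IsRat.congr {f g : ℕ → ℚ} (hf : IsRat f) (h : ∀ p : ℕ, p.Prime → 5 ≤ p → f p = g p) :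
    IsRat g := by
  obtain ⟨u, v, huv⟩ := hf
  exact ⟨u, v, fun p hp h5 => by rw [← h p hp h5]; exact huv p hp h5⟩

theorem IsRat.add {f g : ℕ → ℚ} (hf : IsRat f) (hg : IsRat g) : IsRat (fun p => f p + g p) := by
  obtain ⟨u, v, huv⟩ := hf
  obtain ⟨u', v', huv'⟩ := hg
  refine ⟨u * v' + u' * v, v * v', fun p hp h5 => ?_⟩
  obtain ⟨h1, h2⟩ := huv p hp h5
  obtain ⟨h3, h4⟩ := huv' p hp h5
  refine ⟨by rw [Polynomial.eval_mul]; exact mul_ne_zero h1 h3, ?_⟩
  rw [Polynomial.eval_mul, Polynomial.eval_add, Polynomial.eval_mul, Polynomial.eval_mul, ← h2, ← h4]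
  ring

theorem IsRat.mul {f g : ℕ → ℚ} (hf : IsRat f) (hg : IsRat g) : IsRat (fun p => f p * g p) := by
  obtain ⟨u, v, huv⟩ := hf
  obtain ⟨u', v', huv'⟩ := hg
  refine ⟨u * u', v * v', fun p hp h5 => ?_⟩
  obtain ⟨h1, h2⟩ := huv p hp h5
  obtain ⟨h3, h4⟩ := huv' p hp h5
  refine ⟨by rw [Polynomial.eval_mul]; exact mul_ne_zero h1 h3, ?_⟩
  rw [Polynomial.eval_mul, Polynomial.eval_mul, ← h2, ← h4]
  ring

theorem IsRat.sub {f g : ℕ → ℚ} (hf : IsRat f) (hg : IsRat g) : IsRat (fun p => f p - g p) := by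
  refine (hf.add ((IsRat.const (-1)).mul hg)).congr fun p _ _ => ?_
  ring

theorem IsRat.pow {f : ℕ → ℚ} (hf : IsRat f) (k : ℕ) : IsRat (fun p => f p ^ k) := by
  induction k with
  | zero => exact (IsRat.const 1).congr fun p _ _ => by simp
  | succ k ih => exact (ih.mul hf).congr fun p _ _ => by rw [pow_succ]

theorem IsRat.sum {ι : Type} (s : Finset ι) {f : ι → ℕ → ℚ} (hf : ∀ i ∈ s, IsRat (f i)) :
    IsRat (fun p => ∑ i ∈ s, f i p) := by
  classical
  induction s using Finset.induction_on with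
  | empty => exact (IsRat.const 0).congr fun p _ _ => by simp
  | insert a s ha ih =>
    refine ((hf a (Finset.mem_insert_self a s)).add
      (ih fun i hi => hf i (Finset.mem_insert_of_mem hi))).congr fun p _ _ => ?_
    rw [Finset.sum_insert ha]

theorem IsRat.prod {ι : Type} (s : Finset ι) {f : ι → ℕ → ℚ} (hf : ∀ i ∈ s, IsRat (f i)) :
    IsRat (fun p => ∏ i ∈ s, f i p) := by
  classical
  induction s using Finset.induction_on with
  | empty => exact (IsRat.const 1).congr fun p _ _ => by simp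
  | insert a s ha ih =>
    refine ((hf a (Finset.mem_insert_self a s)).mul
      (ih fun i hi => hf i (Finset.mem_insert_of_mem hi))).congr fun p _ _ => ?_
    rw [Finset.prod_insert ha]

/-- If `g p ≠ 0` at all primes `≥ 5` then the numerator of `g` does not vanish there. -/
theorem IsRat.div {f g : ℕ → ℚ} (hf : IsRat f) (hg : IsRat g)
    (h0 : ∀ p : ℕ, p.Prime → 5 ≤ p → g p ≠ 0) : IsRat (fun p => f p / g p) := by
  obtain ⟨u, v, huv⟩ := hf
  obtain ⟨u', v', huv'⟩ := hg
  refine ⟨u * v', v * u', fun p hp h5 => ?_⟩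
  obtain ⟨h1, h2⟩ := huv p hp h5
  obtain ⟨h3, h4⟩ := huv' p hp h5
  have h6 := h0 p hp h5
  have h7 : u'.eval (p : ℚ) ≠ 0 := by
    rw [← h4]
    exact mul_ne_zero h6 h3
  refine ⟨by rw [Polynomial.eval_mul]; exact mul_ne_zero h1 h7, ?_⟩
  rw [Polynomial.eval_mul, Polynomial.eval_mul, ← h2, ← h4]
  field_simp

theorem IsRat.poly {f : ℕ → ℚ} (hf : IsRat f) (q : Polynomial ℚ) :
    IsRat (fun p => q.eval (f p)) := by
  refine (IsRat.sum (range (q.natDegree + 1))
    (f := fun i p => q.coeff i * f p ^ i) fun i _ => (IsRat.const _).mul (hf.pow i)).congr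
    fun p _ _ => ?_
  rw [Polynomial.eval_eq_sum_range]

/-- `choose a j = a (a-1) ... (a-j+1) / j!` in `ℚ`. -/
theorem IsRat.choose {a : ℕ → ℕ} (ha : IsRat (fun p => (a p : ℚ))) (j : ℕ) :
    IsRat (fun p => ((a p).choose j : ℚ)) := by
  have hj : (j.factorial : ℚ) ≠ 0 := by exact_mod_cast j.factorial_ne_zero
  refine ((ha.poly (descPochhammer ℚ j)).mul (IsRat.const ((j.factorial : ℚ)⁻¹))).congr
    fun p _ _ => ?_
  rw [descPochhammer_eval_eq_descFactorial, Nat.descFactorial_eq_factorial_mul_choose]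
  push_cast
  field_simp

namespace PA1

lemma pascal (K n : ℕ) (c : ℕ → ℚ) :
    ∑ a ∈ range K, ((n + 1).choose a : ℚ) * c a =
      ∑ a ∈ range K, (n.choose a : ℚ) * (c a + if a + 1 < K then c (a + 1) else 0) := by
  rcases K with _ | m
  · simp
  have h1 : ∑ a ∈ range (m + 1), (n.choose a : ℚ) * (if a + 1 < m + 1 then c (a + 1) else 0) =
      ∑ a ∈ range m, (n.choose a : ℚ) * c (a + 1) := by
    rw [Finset.sum_range_succ]
    simp only [lt_self_iff_false, if_false, mul_zero, add_zero]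
    refine Finset.sum_congr rfl fun a ha => ?_
    rw [Finset.mem_range] at ha
    rw [if_pos (by omega)]
  simp only [mul_add, Finset.sum_add_distrib]
  rw [h1, Finset.sum_range_succ', Finset.sum_range_succ' (fun a => (n.choose a : ℚ) * c a)]
  simp only [Nat.choose_zero_right]
  have h2 : ∑ a ∈ range m, ((n + 1).choose (a + 1) : ℚ) * c (a + 1) =
      ∑ a ∈ range m, (n.choose a : ℚ) * c (a + 1) +
      ∑ a ∈ range m, (n.choose (a + 1) : ℚ) * c (a + 1) := by
    rw [← Finset.sum_add_distrib]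
    refine Finset.sum_congr rfl fun a _ => ?_
    rw [Nat.choose_succ_succ]
    push_cast
    ring
  rw [h2]
  ring

lemma step (K n : ℕ) (c : ℕ → ℚ) (x y z : ℚ) :
    ∑ a ∈ range K, ((n + 1).choose a : ℚ) * (z * x) * c a -
      y * ∑ a ∈ range K, (n.choose a : ℚ) * z * c a =
      ∑ a ∈ range K, (n.choose a : ℚ) * z *
        ((x - y) * c a + x * if a + 1 < K then c (a + 1) else 0) := by
  have h1 : ∑ a ∈ range K, ((n + 1).choose a : ℚ) * (z * x) * c a =
      z * x * ∑ a ∈ range K, ((n + 1).choose a : ℚ) * c a := by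
    rw [Finset.mul_sum]
    exact Finset.sum_congr rfl fun a _ => by ring
  rw [h1, pascal, Finset.mul_sum, Finset.mul_sum, ← Finset.sum_sub_distrib]
  exact Finset.sum_congr rfl fun a _ => by ring

theorem aux (I : ℕ) : ∀ (T : ℕ) (K : ℕ → ℕ), ∑ i ∈ range I, K i = T →
    ∀ (n0 : ℕ) (h : ℕ → ℕ → ℚ) (c : ℕ → ℕ → ℕ → ℚ), (∀ n, n0 ≤ n → IsRat (h n)) →
    (∀ n, n0 ≤ n → ∀ p : ℕ, p.Prime → 5 ≤ p →
      h n p = ∑ i ∈ range I, ∑ a ∈ range (K i), (n.choose a : ℚ) * (p : ℚ) ^ (i * n) * c a i p) →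
    ∀ i < I, ∀ a < K i, IsRat (c a i) := by
  intro T
  induction T with
  | zero =>
    intro K hK n0 h c hr hc i hi a ha
    have h1 := (Finset.sum_eq_zero_iff.1 hK) i (Finset.mem_range.2 hi)
    omega
  | succ T ih =>
    intro K hK n0 h c hr hc
    obtain ⟨i0, hi0, hKi0⟩ : ∃ i0 < I, 0 < K i0 := by
      by_contra hcon
      push Not at hcon
      have : ∑ i ∈ range I, K i = 0 := Finset.sum_eq_zero fun i hi => by
        have := hcon i (Finset.mem_range.1 hi)
        omega
      omega
    -- the new data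
    obtain ⟨K', hK'⟩ : ∃ K' : ℕ → ℕ, K' = Function.update K i0 (K i0 - 1) := ⟨_, rfl⟩
    have hK'0 : K' i0 = K i0 - 1 := by rw [hK']; simp
    have hK'1 : ∀ i, i ≠ i0 → K' i = K i := fun i hi => by rw [hK']; simp [hi]
    have hsum : ∑ i ∈ range I, K' i = T := by
      rw [← Finset.add_sum_erase (range I) _ (Finset.mem_range.2 hi0)] at hK ⊢
      have : ∑ x ∈ (range I).erase i0, K' x = ∑ x ∈ (range I).erase i0, K x :=
        Finset.sum_congr rfl fun i hi => hK'1 i (Finset.ne_of_mem_erase hi)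
      rw [this, hK'0]
      omega
    obtain ⟨c', hc'⟩ : ∃ c' : ℕ → ℕ → ℕ → ℚ, c' = fun (a i p : ℕ) => if i = i0 then
      (p : ℚ) ^ i0 * c (a + 1) i0 p else ((p : ℚ) ^ i - (p : ℚ) ^ i0) * c a i p +
        (p : ℚ) ^ i * (if a + 1 < K i then c (a + 1) i p else 0) := ⟨_, rfl⟩
    have hrec := ih K' hsum n0 (fun n p => h (n + 1) p - (p : ℚ) ^ i0 * h n p) c'
      (fun n hn => (hr (n + 1) (by omega)).sub ((IsRat.id.pow i0).mul (hr n hn)))
      (fun n hn p hp h5 => by
        rw [hc (n + 1) (by omega) p hp h5, hc n hn p hp h5, Finset.mul_sum,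
          ← Finset.sum_sub_distrib]
        refine Finset.sum_congr rfl fun i hi => ?_
        have h1 := step (K i) n (fun a => c a i p) ((p : ℚ) ^ i) ((p : ℚ) ^ i0) ((p : ℚ) ^ (i * n))
        have h2 : (p : ℚ) ^ (i * (n + 1)) = (p : ℚ) ^ (i * n) * (p : ℚ) ^ i := by
          rw [mul_add, mul_one, pow_add]
        rw [h2]
        refine h1.trans ?_
        by_cases hii : i = i0
        · subst hii
          rw [hK'0]
          obtain ⟨m, hm⟩ : ∃ m, K i = m + 1 := ⟨K i - 1, by omega⟩
          rw [hm, Finset.sum_range_succ]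
          simp only [sub_self, zero_mul, zero_add, lt_self_iff_false, if_false, mul_zero, add_zero,
            Nat.add_sub_cancel]
          refine Finset.sum_congr rfl fun a ha => ?_
          rw [Finset.mem_range] at ha
          rw [if_pos (by omega), hc']
          simp only [if_true]
        · rw [hK'1 i hii]
          refine Finset.sum_congr rfl fun a ha => ?_
          rw [hc']
          simp only [hii, if_false])
    have hp0 : ∀ p : ℕ, p.Prime → 5 ≤ p → (p : ℚ) ≠ 0 := fun p hp _ => by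
      exact_mod_cast hp.ne_zero
    -- coefficients for `i ≠ i0`
    have hne : ∀ i < I, i ≠ i0 → ∀ m a, m + a = K i → a < K i → IsRat (c a i) := by
      intro i hi hii m
      induction m with
      | zero => intro a ha1 ha2; omega
      | succ m ihm =>
        intro a ha1 ha2
        have h1 : IsRat (fun p => if a + 1 < K i then c (a + 1) i p else 0) := by
          by_cases h2 : a + 1 < K i
          · exact (ihm (a + 1) (by omega) h2).congr fun p _ _ => by rw [if_pos h2]
          · exact (IsRat.const 0).congr fun p _ _ => by rw [if_neg h2]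
        have h3 := hrec i hi a (by rw [hK'1 i hii]; exact ha2)
        have hdne : ∀ p : ℕ, p.Prime → 5 ≤ p → (p : ℚ) ^ i - (p : ℚ) ^ i0 ≠ 0 := by
          intro p hp h5 h6
          have h7 : (p : ℚ) ^ i = (p : ℚ) ^ i0 := sub_eq_zero.1 h6
          have h8 : p ^ i = p ^ i0 := by exact_mod_cast h7
          exact hii (Nat.pow_right_injective hp.two_le h8)
        refine ((h3.sub ((IsRat.id.pow i).mul h1)).div ((IsRat.id.pow i).sub (IsRat.id.pow i0))
          hdne).congr fun p hp h5 => ?_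
        have h9 := hdne p hp h5
        rw [hc']
        simp only [hii, if_false]
        field_simp
        ring
    have hi0' : ∀ a, a + 1 < K i0 → IsRat (c (a + 1) i0) := by
      intro a ha
      have h3 := hrec i0 hi0 a (by rw [hK'0]; omega)
      refine (h3.div (IsRat.id.pow i0) fun p hp h5 => pow_ne_zero _ (hp0 p hp h5)).congr
        fun p hp h5 => ?_
      have := hp0 p hp h5
      rw [hc']
      simp only [if_true]
      field_simp
    have hzero : IsRat (c 0 i0) := by
      have h1 : IsRat (fun p => ∑ i ∈ (range I).erase i0, ∑ a ∈ range (K i),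
          (n0.choose a : ℚ) * (p : ℚ) ^ (i * n0) * c a i p) := by
        refine IsRat.sum _ fun i hi => IsRat.sum _ fun a ha => ?_
        rw [Finset.mem_erase, Finset.mem_range] at hi
        rw [Finset.mem_range] at ha
        exact ((IsRat.const _).mul (IsRat.id.pow _)).mul
          (hne i hi.2 hi.1 (K i - a) a (by omega) ha)
      have h2 : IsRat (fun p => ∑ a ∈ range (K i0 - 1),
          (n0.choose (a + 1) : ℚ) * (p : ℚ) ^ (i0 * n0) * c (a + 1) i0 p) := by
        refine IsRat.sum _ fun a ha => ?_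
        rw [Finset.mem_range] at ha
        exact ((IsRat.const _).mul (IsRat.id.pow _)).mul (hi0' a (by omega))
      refine ((((hr n0 le_rfl).sub h1).sub h2).div (IsRat.id.pow (i0 * n0))
        fun p hp h5 => pow_ne_zero _ (hp0 p hp h5)).congr fun p hp h5 => ?_
      have h3 := hc n0 le_rfl p hp h5
      rw [← Finset.add_sum_erase (range I) _ (Finset.mem_range.2 hi0)] at h3
      obtain ⟨m, hm⟩ : ∃ m, K i0 = m + 1 := ⟨K i0 - 1, by omega⟩
      rw [hm, Finset.sum_range_succ'] at h3
      rw [hm, Nat.add_sub_cancel, h3]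
      have h4 := hp0 p hp h5
      have h5 : (p : ℚ) ^ (i0 * n0) ≠ 0 := pow_ne_zero _ h4
      simp only [Nat.choose_zero_right, Nat.cast_one, one_mul]
      rw [div_eq_iff h5]
      ring
    intro i hi a ha
    by_cases hii : i = i0
    · subst hii
      rcases a with _ | a
      · exact hzero
      · exact hi0' a ha
    · exact hne i hi hii (K i - a) a (by omega) ha

end PA1

/-- **Extraction.** A sequence (in `n`) of rational functions which is a combination of
`choose n a * p^(i n)` (`a < K`, `i < I`) with coefficients `c a i` depending only on `p` has rational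
coefficients. -/
theorem extract (K I n0 : ℕ) (h : ℕ → ℕ → ℚ) (c : ℕ → ℕ → ℕ → ℚ)
    (hr : ∀ n, n0 ≤ n → IsRat (h n))
    (hc : ∀ n, n0 ≤ n → ∀ p : ℕ, p.Prime → 5 ≤ p →
      h n p = ∑ a ∈ range K, ∑ i ∈ range I, (n.choose a : ℚ) * (p : ℚ) ^ (i * n) * c a i p) :
    ∀ a < K, ∀ i < I, IsRat (c a i) := by
  intro a ha i hi
  refine PA1.aux I _ (fun _ => K) rfl n0 h c hr (fun n hn p hp h5 => ?_) i hi a ha
  rw [hc n hn p hp h5, Finset.sum_comm]

end Pool.Agent.T2H70.SR
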