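import Pool.Agent.T2H70.SR.Defs

set_option autoImplicit false

/-!
# Package A2: irreducible subrings and the lattices `Γ`

`L ↦ Γ = {γ : p γ ∈ L}` is a bijection from the irreducible subrings of index `p^(n-1+E)` onto `Gam p (Fin n) E`,
with inverse `Γ ↦ ℤ_p 1 + p Γ`.
-/

namespace Pool.Agent.T2H70.SR

open Finset
open scoped BigOperators

namespace PA2

variable {p : ℕ} [Fact p.Prime] {n : ℕ}

lemma smul_mem {ι : Type} {H : AddSubgroup (ι → ℤ_[p])} {e : ℕ} (h : H.index = p ^ e) (z : ℤ_[p])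
    {x : ι → ℤ_[p]} (hx : x ∈ H) : z • x ∈ H := by
  obtain ⟨z', hz'⟩ := Ideal.mem_span_singleton.1 (PadicInt.appr_spec e z)
  have h1 : z • x = (z.appr e) • x + (p ^ e) • (z' • x) := by
    have h2 : z = (z.appr e : ℤ_[p]) + (p : ℤ_[p]) ^ e * z' := by rw [← hz']; ring
    funext i
    simp only [Pi.smul_apply, Pi.add_apply, smul_eq_mul]
    simp only [nsmul_eq_mul]
    push_cast
    conv_lhs => rw [h2]
    ring
  rw [h1]
  refine H.add_mem (H.nsmul_mem hx _) ?_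
  rw [← h]
  exact H.nsmul_index_mem _

/-- multiplication by `p` -/
noncomputable def mp (p : ℕ) [Fact p.Prime] (n : ℕ) : (Fin n → ℤ_[p]) →+ (Fin n → ℤ_[p]) :=
  nsmulAddMonoidHom p

/-- reduction mod `p` -/
noncomputable def rd (p : ℕ) [Fact p.Prime] (n : ℕ) : (Fin n → ℤ_[p]) →+ (Fin n → ZMod p) where
  toFun x i := PadicInt.toZMod (x i)
  map_zero' := by funext i; simp
  map_add' x y := by funext i; simp

lemma mp_apply (x : Fin n → ℤ_[p]) : mp p n x = p • x := rfl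

lemma rd_apply (x : Fin n → ℤ_[p]) (i : Fin n) : rd p n x i = PadicInt.toZMod (x i) := rfl

lemma toZ_iff (z : ℤ_[p]) : PadicInt.toZMod z = 0 ↔ (p : ℤ_[p]) ∣ z := by
  rw [← RingHom.mem_ker, PadicInt.ker_toZMod, PadicInt.maximalIdeal_eq_span_p,
    Ideal.mem_span_singleton]

lemma ker_rd : (rd p n).ker = (mp p n).range := by
  ext x
  rw [AddMonoidHom.mem_ker, AddMonoidHom.mem_range]
  constructor
  · intro h
    have h1 : ∀ i, ∃ c, x i = (p : ℤ_[p]) * c := fun i => by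
      have h2 := congrFun h i
      rw [rd_apply, Pi.zero_apply, toZ_iff] at h2
      exact h2
    choose c hc using h1
    refine ⟨c, ?_⟩
    funext i
    rw [mp_apply, Pi.smul_apply, nsmul_eq_mul, hc i]
  · rintro ⟨c, rfl⟩
    funext i
    rw [rd_apply, mp_apply, Pi.zero_apply, Pi.smul_apply, nsmul_eq_mul, toZ_iff]
    exact dvd_mul_right _ _

lemma rd_surj : Function.Surjective (rd p n) := by
  intro y
  have h1 : ∀ i, ∃ c : ℤ_[p], PadicInt.toZMod c = y i := fun i =>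
    ZMod.ringHom_surjective (PadicInt.toZMod (p := p)) (y i)
  choose c hc using h1
  exact ⟨c, funext hc⟩

lemma index_range : (mp p n).range.index = p ^ n := by
  rw [← ker_rd, AddSubgroup.index_ker, AddMonoidHom.range_eq_top.2 rd_surj]
  simp

/-- all entries congruent mod `p` -/
def Cg (L : AddSubgroup (Fin n → ℤ_[p])) : Prop := ∀ x ∈ L, ∀ i j, (p : ℤ_[p]) ∣ x i - x j

lemma rel_index (hn : 1 ≤ n) (L : AddSubgroup (Fin n → ℤ_[p])) (h1 : (1 : Fin n → ℤ_[p]) ∈ L)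
    (hL : Cg L) : (mp p n).range.relIndex L = p := by
  rw [← ker_rd, AddSubgroup.relIndex_ker]
  have h2 : ((L.map (rd p n) : AddSubgroup (Fin n → ZMod p)) : Set (Fin n → ZMod p)) =
      Set.range (fun (c : ZMod p) (_ : Fin n) => c) := by
    ext y
    simp only [AddSubgroup.coe_map, Set.mem_image, SetLike.mem_coe, Set.mem_range]
    constructor
    · rintro ⟨x, hx, rfl⟩
      refine ⟨PadicInt.toZMod (x ⟨0, hn⟩), ?_⟩
      funext i
      rw [rd_apply, ← sub_eq_zero, ← map_sub, toZ_iff]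
      exact hL x hx _ _
    · rintro ⟨c, rfl⟩
      refine ⟨c.val • (1 : Fin n → ℤ_[p]), L.nsmul_mem h1 _, ?_⟩
      funext i
      rw [rd_apply, Pi.smul_apply, Pi.one_apply, map_nsmul, map_one, nsmul_eq_mul, mul_one,
        ZMod.natCast_zmod_val]
  have h3 : Nat.card ↥(L.map (rd p n)) =
      (((L.map (rd p n) : AddSubgroup (Fin n → ZMod p)) : Set (Fin n → ZMod p))).ncard := by
    rw [← Nat.card_coe_set_eq]
    rfl
  rw [h3, h2, ← Set.image_univ, Set.ncard_image_of_injective]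
  · rw [Set.ncard_univ, Nat.card_zmod]
  · intro a b hab
    exact congrFun hab ⟨0, hn⟩

lemma key (hn : 1 ≤ n) (L : AddSubgroup (Fin n → ℤ_[p])) (h1 : (1 : Fin n → ℤ_[p]) ∈ L)
    (hL : Cg L) : p * L.index = (L.comap (mp p n)).index * p ^ n := by
  have h2 := AddSubgroup.relIndex_mul_index (H := L ⊓ (mp p n).range) (K := L) inf_le_left
  have h3 := AddSubgroup.relIndex_mul_index (H := L ⊓ (mp p n).range) (K := (mp p n).range)
    inf_le_right
  rw [AddSubgroup.inf_relIndex_left, rel_index hn L h1 hL] at h2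
  rw [AddSubgroup.inf_relIndex_right, index_range] at h3
  rw [h2, ← h3, AddSubgroup.index_comap]

/-- the subring `ℤ_p 1 + p Γ` -/
def mk (Γ : AddSubgroup (Fin n → ℤ_[p])) (hs : ∀ (z : ℤ_[p]), ∀ x ∈ Γ, z • x ∈ Γ)
    (hm : ∀ a ∈ Γ, ∀ b ∈ Γ, p • (a * b) ∈ Γ) : Subring (Fin n → ℤ_[p]) where
  carrier := {x | ∃ z : ℤ_[p], ∃ γ ∈ Γ, x = (fun _ => z) + p • γ}
  mul_mem' := by
    rintro a b ⟨z, γ, hγ, rfl⟩ ⟨z', γ', hγ', rfl⟩
    refine ⟨z * z', z • γ' + z' • γ + p • (γ * γ'), Γ.add_mem (Γ.add_mem (hs _ _ hγ') (hs _ _ hγ))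
      (hm _ hγ _ hγ'), ?_⟩
    funext i
    simp only [Pi.mul_apply, Pi.add_apply, Pi.smul_apply, smul_eq_mul]
    simp only [nsmul_eq_mul]
    ring
  one_mem' := ⟨1, 0, Γ.zero_mem, by funext i; simp⟩
  add_mem' := by
    rintro a b ⟨z, γ, hγ, rfl⟩ ⟨z', γ', hγ', rfl⟩
    refine ⟨z + z', γ + γ', Γ.add_mem hγ hγ', ?_⟩
    funext i
    simp only [Pi.add_apply, Pi.smul_apply]
    simp only [nsmul_eq_mul]
    ring
  zero_mem' := ⟨0, 0, Γ.zero_mem, by funext i; simp⟩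
  neg_mem' := by
    rintro a ⟨z, γ, hγ, rfl⟩
    refine ⟨-z, -γ, Γ.neg_mem hγ, ?_⟩
    funext i
    simp only [Pi.add_apply, Pi.neg_apply, Pi.smul_apply]
    simp only [nsmul_eq_mul]
    ring

lemma mem_mk (Γ : AddSubgroup (Fin n → ℤ_[p])) (hs : ∀ (z : ℤ_[p]), ∀ x ∈ Γ, z • x ∈ Γ)
    (hm : ∀ a ∈ Γ, ∀ b ∈ Γ, p • (a * b) ∈ Γ) (x : Fin n → ℤ_[p]) :
    x ∈ mk Γ hs hm ↔ ∃ z : ℤ_[p], ∃ γ ∈ Γ, x = (fun _ => z) + p • γ := Iff.rfl

lemma mem_iff (hn : 1 ≤ n) (L : AddSubgroup (Fin n → ℤ_[p])) (h1 : (1 : Fin n → ℤ_[p]) ∈ L)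
    (hL : Cg L) {e : ℕ} (he : L.index = p ^ e) (x : Fin n → ℤ_[p]) :
    x ∈ L ↔ ∃ z : ℤ_[p], ∃ γ ∈ L.comap (mp p n), x = (fun _ => z) + p • γ := by
  have hz : ∀ z : ℤ_[p], (fun _ : Fin n => z) ∈ L := fun z => by
    have h2 := smul_mem he z h1
    have h3 : z • (1 : Fin n → ℤ_[p]) = fun _ => z := by funext i; simp
    rwa [h3] at h2
  constructor
  · intro hx
    have h2 : ∀ i, ∃ c, x i - x ⟨0, hn⟩ = (p : ℤ_[p]) * c := fun i => hL x hx i _
    choose c hc using h2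
    have h3 : x = (fun _ => x ⟨0, hn⟩) + p • c := by
      funext i
      rw [Pi.add_apply, Pi.smul_apply, nsmul_eq_mul, ← hc i]
      ring
    refine ⟨x ⟨0, hn⟩, c, ?_, h3⟩
    rw [AddSubgroup.mem_comap, mp_apply]
    have h4 : p • c = x - fun _ => x ⟨0, hn⟩ := by
      rw [eq_sub_iff_add_eq, add_comm]; exact h3.symm
    rw [h4]
    exact L.sub_mem hx (hz _)
  · rintro ⟨z, γ, hγ, rfl⟩
    exact L.add_mem (hz z) hγ

end PA2

open PA2 in
theorem card_Irr (p : ℕ) [Fact p.Prime] (n E : ℕ) (hn : 1 ≤ n) :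
    (Irr p n (n - 1 + E)).ncard = (Gam p (Fin n) E).ncard := by
  have hp : p.Prime := Fact.out
  refine Set.ncard_congr (fun L _ => L.toAddSubgroup.comap (mp p n)) ?_ ?_ ?_
  · rintro L ⟨hL1, hL2⟩
    have h1 : (1 : Fin n → ℤ_[p]) ∈ L.toAddSubgroup := L.one_mem
    refine ⟨?_, ?_, ?_⟩
    · rw [AddSubgroup.mem_comap, mp_apply]
      exact L.toAddSubgroup.nsmul_mem h1 _
    · intro a ha b hb
      rw [AddSubgroup.mem_comap, mp_apply] at ha hb ⊢
      have h2 : p • p • (a * b) = (p • a) * (p • b) := by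
        funext i
        simp only [Pi.mul_apply, Pi.smul_apply]
        simp only [nsmul_eq_mul]
        ring
      rw [h2]
      exact L.mul_mem ha hb
    · have h2 := key hn L.toAddSubgroup h1 hL2
      rw [hL1] at h2
      have h3 : p * p ^ (n - 1 + E) = p ^ E * p ^ n := by
        rw [← pow_succ', ← pow_add]
        congr 1
        omega
      rw [h3] at h2
      exact (Nat.eq_of_mul_eq_mul_right (pow_pos hp.pos n) h2).symm
  · rintro L L' ⟨hL1, hL2⟩ ⟨hL1', hL2'⟩ hLL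
    ext x
    have h1 := mem_iff hn L.toAddSubgroup L.one_mem hL2 hL1 x
    have h2 := mem_iff hn L'.toAddSubgroup L'.one_mem hL2' hL1' x
    rw [hLL, ← h2] at h1
    exact h1
  · rintro Γ ⟨hΓ1, hΓ2, hΓ3⟩
    have hs : ∀ (z : ℤ_[p]), ∀ x ∈ Γ, z • x ∈ Γ := fun z x hx => smul_mem hΓ3 z hx
    have hcg : Cg (mk Γ hs hΓ2).toAddSubgroup := by
      rintro x ⟨z, γ, hγ, rfl⟩ i j
      refine ⟨γ i - γ j, ?_⟩
      simp only [Pi.add_apply, Pi.smul_apply]
      simp only [nsmul_eq_mul]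
      ring
    have hcomap : (mk Γ hs hΓ2).toAddSubgroup.comap (mp p n) = Γ := by
      ext γ
      rw [AddSubgroup.mem_comap, mp_apply]
      constructor
      · rintro ⟨z, γ', hγ', h⟩
        have h1 : ∀ i, (p : ℤ_[p]) * (γ i - γ' i) = z := fun i => by
          have := congrFun h i
          simp only [Pi.add_apply, Pi.smul_apply] at this
          simp only [nsmul_eq_mul] at this
          rw [mul_sub, this]
          ring
        have hpz : (p : ℤ_[p]) ≠ 0 := by exact_mod_cast hp.ne_zero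
        have h2 : γ = (γ ⟨0, hn⟩ - γ' ⟨0, hn⟩) • (1 : Fin n → ℤ_[p]) + γ' := by
          funext i
          have h3 : γ i - γ' i = γ ⟨0, hn⟩ - γ' ⟨0, hn⟩ :=
            mul_left_cancel₀ hpz ((h1 i).trans (h1 _).symm)
          simp only [Pi.add_apply, Pi.smul_apply, Pi.one_apply, smul_eq_mul, mul_one]
          rw [← h3]
          ring
        rw [h2]
        exact Γ.add_mem (hs _ _ hΓ1) hγ'
      · intro hγ
        exact ⟨0, γ, hγ, by funext i; simp⟩
    refine ⟨mk Γ hs hΓ2, ⟨?_, hcg⟩, hcomap⟩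
    have h2 := key hn (mk Γ hs hΓ2).toAddSubgroup (mk Γ hs hΓ2).one_mem hcg
    rw [hcomap, hΓ3] at h2
    have h3 : p * p ^ (n - 1 + E) = p ^ E * p ^ n := by
      rw [← pow_succ', ← pow_add]
      congr 1
      omega
    rw [← h3] at h2
    exact Nat.eq_of_mul_eq_mul_left hp.pos h2

end Pool.Agent.T2H70.SR
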