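import Pool.Agent.T2H70.SR.Defs

set_option autoImplicit false

/-!
# Package A3: at most `2E` coordinates are not flat

Let `Γ ∈ Gam p (Fin n) E`, `S = {i : p e_i ∉ Γ}`. Claim: `|S| ≤ 2E`.

Proof. `Γ` contains `p^E R^n` (Lagrange), so it is a `ℤ_p`-submodule (`R = ℤ_p`). Choose `J ⊆ Fin n` with `|J| ≤ E` and
`Γ + R^J = R^n` (start with `Γ`; as long as the module is not everything some `e_i` is outside, add `ℤ_p e_i`: the index drops at
least by the factor `p`). For `i ∉ J` write `e_i = ∑_{j ∈ J} a i j e_j + γ_i` with `γ_i ∈ Γ`, i.e.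
`γ_i = e_i - ∑ a i j e_j`. For `i ≠ i'` outside `J`: `p γ_i γ_i' = p ∑_j a i j a i' j e_j ∈ Γ`; and
`p γ_i² = p e_i + p ∑_j (a i j)² e_j ∈ Γ`. So if `i ∈ S \ J` then `x_i := p ∑_j (a i j)² e_j ∉ Γ`.
If `|S \ J| > |J|`, the vectors `v_i = (a i j)_j ∈ ℤ_p^J` (`i ∈ S \ J`) satisfy a nontrivial linear relation
`∑ c_i v_i = 0`, `c_i ∈ ℤ_p`; dividing by a power of `p` some `c_i₀` is a unit. Multiply coordinatewise by `v_i₀`:
`∑_i c_i (p ∑_j a i j a i₀ j e_j) = 0`; the terms `i ≠ i₀` are in `Γ`, so `c_i₀ x_i₀ ∈ Γ`, so `x_i₀ ∈ Γ`, contradiction.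
Hence `|S| ≤ |J| + |J| ≤ 2E`.
-/

namespace Pool.Agent.T2H70.SR

open Finset
open scoped BigOperators

namespace A3

variable {p : ℕ} [Fact p.Prime]

/-- a subgroup of finite `p`-power index is closed under multiplication by `p`-adic integers -/
theorem smul_mem_of_index {ι : Type} (Γ : AddSubgroup (ι → ℤ_[p])) {E : ℕ} (h : Γ.index = p ^ E)
    (z : ℤ_[p]) (x : ι → ℤ_[p]) (hx : x ∈ Γ) : z • x ∈ Γ := by
  have h1 := PadicInt.appr_spec E z
  rw [Ideal.mem_span_singleton] at h1
  obtain ⟨w, hw⟩ := h1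
  have h2 : z • x = (z.appr E) • x + (p ^ E) • (w • x) := by
    have h3 : z = (z.appr E : ℤ_[p]) + (p : ℤ_[p]) ^ E * w := by
      rw [← hw]; ring
    conv_lhs => rw [h3]
    rw [add_smul, mul_smul, Nat.cast_smul_eq_nsmul]
    congr 1
    rw [← Nat.cast_smul_eq_nsmul ℤ_[p] (p ^ E)]
    push_cast
    rfl
  rw [h2]
  refine Γ.add_mem (Γ.nsmul_mem hx _) ?_
  rw [← h]
  exact Γ.nsmul_index_mem _

/-- `Γ` as a submodule -/
def toSub {ι : Type} (Γ : AddSubgroup (ι → ℤ_[p])) {E : ℕ} (h : Γ.index = p ^ E) :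
    Submodule ℤ_[p] (ι → ℤ_[p]) :=
  { Γ.toAddSubmonoid with
    smul_mem' := fun z x hx => smul_mem_of_index Γ h z x hx }

theorem mem_toSub {ι : Type} (Γ : AddSubgroup (ι → ℤ_[p])) {E : ℕ} (h : Γ.index = p ^ E)
    (x : ι → ℤ_[p]) : x ∈ toSub Γ h ↔ x ∈ Γ := Iff.rfl

theorem toSub_toAddSubgroup {ι : Type} (Γ : AddSubgroup (ι → ℤ_[p])) {E : ℕ}
    (h : Γ.index = p ^ E) : (toSub Γ h).toAddSubgroup = Γ := by
  ext x; exact Iff.rfl

/-- the functions supported on `J` -/
def supp (n : ℕ) (J : Finset (Fin n)) : Submodule ℤ_[p] (Fin n → ℤ_[p]) where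
  carrier := {f | ∀ k, k ∉ J → f k = 0}
  zero_mem' := fun _ _ => rfl
  add_mem' := by
    intro a b ha hb k hk
    simp [ha k hk, hb k hk]
  smul_mem' := by
    intro c a ha k hk
    simp [ha k hk]

theorem mem_supp (n : ℕ) (J : Finset (Fin n)) (f : Fin n → ℤ_[p]) :
    f ∈ supp n J ↔ ∀ k, k ∉ J → f k = 0 := Iff.rfl

open Classical in
theorem exists_J (n : ℕ) : ∀ E : ℕ, ∀ M : Submodule ℤ_[p] (Fin n → ℤ_[p]),
    M.toAddSubgroup.index = p ^ E → ∃ J : Finset (Fin n), J.card ≤ E ∧ M ⊔ supp n J = ⊤ := by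
  intro E
  induction E using Nat.strong_induction_on with
  | _ E ih =>
    intro M hM
    by_cases htop : M = ⊤
    · exact ⟨∅, by simp, by rw [htop]; simp⟩
    · have hex : ∃ i : Fin n, (Pi.single i (1 : ℤ_[p]) : Fin n → ℤ_[p]) ∉ M := by
        by_contra hcon
        push Not at hcon
        apply htop
        rw [eq_top_iff]
        intro f _
        rw [pi_eq_sum_univ f]
        refine Submodule.sum_mem _ fun i _ => ?_
        refine M.smul_mem _ ?_
        have := hcon i
        convert this using 1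
        ext j
        rw [Pi.single_apply]
        by_cases hij : i = j
        · rw [if_pos hij, if_pos hij.symm]
        · rw [if_neg hij, if_neg (fun h => hij h.symm)]
      obtain ⟨i, hi⟩ := hex
      set M' : Submodule ℤ_[p] (Fin n → ℤ_[p]) := M ⊔ supp n {i} with hM'
      have hle : M ≤ M' := le_sup_left
      have hiM' : (Pi.single i (1 : ℤ_[p]) : Fin n → ℤ_[p]) ∈ M' := by
        refine (le_sup_right : supp n {i} ≤ M') ?_
        rw [mem_supp]
        intro k hk
        rw [Finset.mem_singleton] at hk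
        exact Pi.single_eq_of_ne hk _
      have hlt : M.toAddSubgroup < M'.toAddSubgroup := by
        refine lt_of_le_of_ne ?_ ?_
        · intro x hx; exact hle hx
        · intro heq
          apply hi
          have : (Pi.single i (1 : ℤ_[p]) : Fin n → ℤ_[p]) ∈ M'.toAddSubgroup := hiM'
          rw [← heq] at this
          exact this
      have hfin : M.toAddSubgroup.FiniteIndex := ⟨by
        rw [hM]; exact pow_ne_zero _ (Fact.out : p.Prime).ne_zero⟩
      have hdvd : M'.toAddSubgroup.index ∣ p ^ E := by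
        rw [← hM]; exact AddSubgroup.index_dvd_of_le hlt.le
      obtain ⟨E', hE', hE''⟩ := (Nat.dvd_prime_pow (Fact.out : p.Prime)).1 hdvd
      have hlt2 : M'.toAddSubgroup.index < M.toAddSubgroup.index :=
        AddSubgroup.index_strictAnti hlt
      rw [hE'', hM] at hlt2
      have hEE : E' < E := (Nat.pow_lt_pow_iff_right (Fact.out : p.Prime).one_lt).1 hlt2
      obtain ⟨J, hJ, hJ2⟩ := ih E' hEE M' hE''
      refine ⟨insert i J, ?_, ?_⟩
      · have := Finset.card_insert_le i J
        omega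
      · rw [eq_top_iff, ← hJ2, hM', sup_assoc]
        refine sup_le_sup le_rfl (sup_le ?_ ?_)
        · intro f hf k hk
          refine hf k ?_
          intro hki
          apply hk
          rw [Finset.mem_singleton] at hki
          rw [hki]; exact Finset.mem_insert_self _ _
        · intro f hf k hk
          exact hf k (fun h => hk (Finset.mem_insert_of_mem h))

theorem exists_dvd_all {ι : Type} [DecidableEq ι] (c : ι → ℤ_[p]) (s : Finset ι) :
    s.Nonempty → ∃ i ∈ s, ∀ j ∈ s, c i ∣ c j := by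
  induction s using Finset.induction_on with
  | empty => intro h; exact absurd h (by simp)
  | insert a s ha ih =>
    intro _
    by_cases hs : s.Nonempty
    · obtain ⟨i, hi, hi2⟩ := ih hs
      rcases ValuationRing.dvd_total (c a) (c i) with h | h
      · refine ⟨a, Finset.mem_insert_self _ _, ?_⟩
        intro j hj
        rcases Finset.mem_insert.1 hj with h1 | h1
        · rw [h1]
        · exact h.trans (hi2 j h1)
      · refine ⟨i, Finset.mem_insert_of_mem hi, ?_⟩
        intro j hj
        rcases Finset.mem_insert.1 hj with h1 | h1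
        · rw [h1]; exact h
        · exact hi2 j h1
    · rw [Finset.not_nonempty_iff_eq_empty] at hs
      subst hs
      refine ⟨a, by simp, ?_⟩
      intro j hj
      simp at hj
      rw [hj]

/-- a linear relation with one coefficient equal to `1` -/
theorem exists_relation {ι : Type} [Fintype ι] {n : ℕ} (J : Finset (Fin n))
    (v : ι → Fin n → ℤ_[p]) (hv : ∀ i, v i ∈ supp n J) (hcard : J.card < Fintype.card ι) :
    ∃ (d : ι → ℤ_[p]) (i0 : ι), d i0 = 1 ∧ ∑ i, d i • v i = 0 := by
  classical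
  let w : ι → (J → ℤ_[p]) := fun i j => v i j
  have hw : ¬ LinearIndependent ℤ_[p] w := by
    intro hli
    have := hli.fintype_card_le_finrank
    rw [Module.finrank_pi, Fintype.card_coe] at this
    omega
  rw [Fintype.not_linearIndependent_iff] at hw
  obtain ⟨c, hc, i1, hi1⟩ := hw
  obtain ⟨i0, _, hi0⟩ := exists_dvd_all c (Finset.univ : Finset ι) ⟨i1, Finset.mem_univ _⟩
  have hc0 : c i0 ≠ 0 := by
    intro h
    apply hi1
    have := hi0 i1 (Finset.mem_univ _)
    rw [h] at this
    exact zero_dvd_iff.1 this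
  choose d hd using fun j => hi0 j (Finset.mem_univ _)
  refine ⟨d, i0, ?_, ?_⟩
  · have := hd i0
    have h2 : c i0 * d i0 = c i0 * 1 := by rw [mul_one]; exact this.symm
    exact mul_left_cancel₀ hc0 h2
  · funext k
    by_cases hk : k ∈ J
    · have h1 := congrFun hc ⟨k, hk⟩
      simp only [Finset.sum_apply, Pi.smul_apply, Pi.zero_apply, smul_eq_mul] at h1 ⊢
      have h2 : c i0 * ∑ i, d i * v i k = 0 := by
        rw [Finset.mul_sum, ← h1]
        refine Finset.sum_congr rfl fun i _ => ?_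
        rw [hd i]
        ring
      rcases mul_eq_zero.1 h2 with h3 | h3
      · exact absurd h3 hc0
      · exact h3
    · simp only [Finset.sum_apply, Pi.smul_apply, Pi.zero_apply, smul_eq_mul]
      refine Finset.sum_eq_zero fun i _ => ?_
      rw [hv i k hk, mul_zero]

end A3

open A3 in
open Classical in
theorem card_notflat (p : ℕ) [Fact p.Prime] (n E : ℕ) (Γ : AddSubgroup (Fin n → ℤ_[p]))
    (hΓ : Γ ∈ Gam p (Fin n) E) :
    ((univ : Finset (Fin n)).filter
      (fun i => p • (Pi.single i (1 : ℤ_[p]) : Fin n → ℤ_[p]) ∉ Γ)).card ≤ 2 * E := by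
  obtain ⟨h1, hmul, hidx⟩ := hΓ
  obtain ⟨J, hJ, hJtop⟩ := exists_J n E (toSub Γ hidx) (by rw [toSub_toAddSubgroup]; exact hidx)
  -- the vectors
  have hdec : ∀ i : Fin n, ∃ v : Fin n → ℤ_[p], v ∈ supp n J ∧
      (Pi.single i (1 : ℤ_[p]) : Fin n → ℤ_[p]) - v ∈ Γ := by
    intro i
    have : (Pi.single i (1 : ℤ_[p]) : Fin n → ℤ_[p]) ∈ toSub Γ hidx ⊔ supp n J := by
      rw [hJtop]; exact Submodule.mem_top
    obtain ⟨m, hm, s, hs, hms⟩ := Submodule.mem_sup.1 this
    refine ⟨s, hs, ?_⟩
    rw [← hms, add_sub_cancel_right]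
    exact hm
  choose v hv hvΓ using hdec
  have hoff : ∀ i i' : Fin n, i ∉ J → i' ∉ J → i ≠ i' → p • (v i * v i') ∈ Γ := by
    intro i i' hi hi' hne
    have := hmul _ (hvΓ i) _ (hvΓ i')
    convert this using 2
    funext k
    simp only [Pi.mul_apply, Pi.sub_apply, Pi.single_apply]
    by_cases hk : k = i
    · have hk' : k ≠ i' := by rw [hk]; exact hne
      rw [if_pos hk, if_neg hk', hv i' k (by rw [hk]; exact hi)]
      ring
    · by_cases hk' : k = i'
      · rw [if_neg hk, if_pos hk', hv i k (by rw [hk']; exact hi')]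
        ring
      · rw [if_neg hk, if_neg hk']
        ring
  have hdiag : ∀ i : Fin n, i ∉ J → p • (v i * v i) ∈ Γ →
      p • (Pi.single i (1 : ℤ_[p]) : Fin n → ℤ_[p]) ∈ Γ := by
    intro i hi hii
    have := hmul _ (hvΓ i) _ (hvΓ i)
    have h3 := Γ.sub_mem this hii
    convert h3 using 1
    rw [← smul_sub]
    congr 1
    funext k
    simp only [Pi.mul_apply, Pi.sub_apply, Pi.single_apply]
    by_cases hk : k = i
    · rw [if_pos hk, hv i k (by rw [hk]; exact hi)]
      ring
    · rw [if_neg hk]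
      ring
  set S : Finset (Fin n) := (univ : Finset (Fin n)).filter
      (fun i => p • (Pi.single i (1 : ℤ_[p]) : Fin n → ℤ_[p]) ∉ Γ) with hS
  have hkey : (S \ J).card ≤ J.card := by
    by_contra hcon
    push Not at hcon
    obtain ⟨d, i0, hd, hsum⟩ := exists_relation (ι := (S \ J : Finset (Fin n))) J (fun i => v i)
      (fun i => hv i) (by rw [Fintype.card_coe]; exact hcon)
    have hi0 := Finset.mem_sdiff.1 i0.2
    have hprod : ∑ i : (S \ J : Finset (Fin n)), d i • (p • (v i * v i0)) = 0 := by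
      have h4 : (∑ i : (S \ J : Finset (Fin n)), d i • v i) * (p • v i0) = 0 := by
        rw [hsum, zero_mul]
      rw [← h4, Finset.sum_mul]
      refine Finset.sum_congr rfl fun i _ => ?_
      funext k
      simp only [Pi.smul_apply, Pi.mul_apply, smul_eq_mul, nsmul_eq_mul]
      ring
    rw [← Finset.add_sum_erase _ _ (Finset.mem_univ i0), hd, one_smul] at hprod
    have h5 : p • (v i0 * v i0) ∈ Γ := by
      have h6 : p • (v (i0 : Fin n) * v i0) =
          -(∑ i ∈ (Finset.univ : Finset (S \ J : Finset (Fin n))).erase i0,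
            d i • (p • (v i * v i0))) := by
        rw [eq_neg_iff_add_eq_zero]; exact hprod
      rw [h6]
      refine Γ.neg_mem (Γ.sum_mem fun i hi => ?_)
      refine smul_mem_of_index Γ hidx _ _ ?_
      have hi' := Finset.mem_sdiff.1 i.2
      refine hoff _ _ hi'.2 hi0.2 ?_
      intro heq
      exact (Finset.mem_erase.1 hi).1 (Subtype.ext heq)
    have h7 := hdiag i0 hi0.2 h5
    exact (Finset.mem_filter.1 hi0.1).2 h7
  have hle : S.card ≤ (S \ J).card + J.card := by
    have := Finset.card_le_card (show S ⊆ (S \ J) ∪ J from by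
      intro x hx
      by_cases hxJ : x ∈ J
      · exact Finset.mem_union_right _ hxJ
      · exact Finset.mem_union_left _ (Finset.mem_sdiff.2 ⟨hx, hxJ⟩))
    exact this.trans (Finset.card_union_le _ _)
  omega

end Pool.Agent.T2H70.SR
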