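import Pool.Agent.T2H70.SR.A3

set_option autoImplicit false

/-!
# Package A4: finiteness and inclusion-exclusion

Finiteness: every `Γ` of index `p^E` contains `p^E R^ι`, and `R^ι / p^E R^ι` is finite.

For `Γ ∈ Gam p (Fin n) E` let `S(Γ) = {i : p e_i ∉ Γ}`, `|S(Γ)| ≤ 2E` by `card_notflat`. For `J ⊆ Fin n` with `|J| = j` the
number of `Γ` with `S(Γ) ⊆ J` is `(GamF p j (n-j) E).ncard` (reindex `Fin n ≃ Fin j ⊕ Fin (n-j)` such that `J` goes to the
left summand). So the number of `Γ` with `S(Γ) = S`, `|S| = k`, is `∑_{j ≤ k} (-1)^(k-j) choose k j (GamF p j (n-j) E).ncard`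
(Moebius inversion on subsets), and summing over all `S` with `|S| ≤ 2E` gives the identity.
(The hypothesis `2 * E ≤ n` is for convenience only.)

The second theorem is the inverse relation, in the form needed: for a fixed prime and `n`, if
`e k = ∑_{j ≤ k} (-1)^(k-j) choose k j G j` then `G k = ∑_{j ≤ k} choose k j e j` (binomial inversion).
-/

namespace Pool.Agent.T2H70.SR

open Finset
open scoped BigOperators

theorem Gam_finite (p : ℕ) [Fact p.Prime] (ι : Type) [Finite ι] (E : ℕ) : (Gam p ι E).Finite := by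
  have hne : NeZero (p ^ E) := ⟨pow_ne_zero _ (Fact.out : p.Prime).ne_zero⟩
  let φ : (ι → ℤ_[p]) → (ι → ZMod (p ^ E)) := fun f i => PadicInt.toZModPow E (f i)
  have hinj : Set.InjOn (fun Γ : AddSubgroup (ι → ℤ_[p]) => φ '' (Γ : Set (ι → ℤ_[p])))
      (Gam p ι E) := by
    have key : ∀ Γ ∈ Gam p ι E, ∀ Δ ∈ Gam p ι E,
        φ '' (Γ : Set (ι → ℤ_[p])) = φ '' (Δ : Set (ι → ℤ_[p])) → Γ ≤ Δ := by
      intro Γ _ Δ hΔ h x hx
      have h1 : φ x ∈ φ '' (Δ : Set (ι → ℤ_[p])) := by
        rw [← h]; exact ⟨x, hx, rfl⟩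
      obtain ⟨y, hy, hyx⟩ := h1
      have h2 : ∀ i, ∃ w : ℤ_[p], x i - y i = (p : ℤ_[p]) ^ E * w := by
        intro i
        have h3 : PadicInt.toZModPow E (x i - y i) = 0 := by
          rw [map_sub, sub_eq_zero]
          exact (congrFun hyx i).symm
        have h4 : x i - y i ∈ RingHom.ker (PadicInt.toZModPow (p := p) E) := h3
        rw [PadicInt.ker_toZModPow, Ideal.mem_span_singleton] at h4
        obtain ⟨w, hw⟩ := h4
        exact ⟨w, hw⟩
      choose w hw using h2
      have h5 : x = y + (p ^ E) • w := by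
        funext i
        rw [Pi.add_apply, Pi.smul_apply, nsmul_eq_mul]
        push_cast
        rw [← hw i]; ring
      rw [h5]
      refine Δ.add_mem hy ?_
      rw [← hΔ.2.2]
      exact Δ.nsmul_index_mem _
    intro Γ hΓ Δ hΔ h
    exact le_antisymm (key Γ hΓ Δ hΔ h) (key Δ hΔ Γ hΓ h.symm)
  exact Set.Finite.of_finite_image (Set.toFinite _) hinj

namespace A4

variable {p : ℕ} [Fact p.Prime]

/-- reindexing -/
def reix {ι κ : Type} (e : ι ≃ κ) : (ι → ℤ_[p]) ≃+* (κ → ℤ_[p]) where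
  toFun f := f ∘ e.symm
  invFun f := f ∘ e
  left_inv f := by funext i; simp
  right_inv f := by funext i; simp
  map_mul' _ _ := rfl
  map_add' _ _ := rfl

theorem reix_symm_apply {ι κ : Type} (e : ι ≃ κ) (f : κ → ℤ_[p]) :
    (reix e).symm f = f ∘ e := rfl

theorem reix_apply {ι κ : Type} (e : ι ≃ κ) (f : ι → ℤ_[p]) :
    reix e f = f ∘ e.symm := rfl

/-- the image of a subgroup -/
noncomputable def mp {ι κ : Type} (e : ι ≃ κ) (Γ : AddSubgroup (ι → ℤ_[p])) : AddSubgroup (κ → ℤ_[p]) :=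
  Γ.map ((reix (p := p) e).toAddEquiv).toAddMonoidHom

theorem mem_mp {ι κ : Type} (e : ι ≃ κ) (Γ : AddSubgroup (ι → ℤ_[p])) (f : κ → ℤ_[p]) :
    f ∈ mp e Γ ↔ f ∘ e ∈ Γ := by
  unfold mp
  exact AddSubgroup.mem_map_equiv (f := (reix (p := p) e).toAddEquiv)

theorem mp_mp {ι κ : Type} (e : ι ≃ κ) (Γ : AddSubgroup (ι → ℤ_[p])) : mp e.symm (mp e Γ) = Γ := by
  ext f
  rw [mem_mp, mem_mp]
  have : (f ∘ ⇑e.symm) ∘ ⇑e = f := by funext i; simp
  rw [this]

theorem mp_mp' {ι κ : Type} (e : ι ≃ κ) (Γ : AddSubgroup (κ → ℤ_[p])) : mp e (mp e.symm Γ) = Γ := by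
  ext f
  rw [mem_mp, mem_mp]
  have : (f ∘ ⇑e) ∘ ⇑e.symm = f := by funext i; simp
  rw [this]

theorem mp_index {ι κ : Type} (e : ι ≃ κ) (Γ : AddSubgroup (ι → ℤ_[p])) :
    (mp e Γ).index = Γ.index := by
  unfold mp
  exact AddSubgroup.index_map_equiv Γ (reix (p := p) e).toAddEquiv

theorem mp_Gam {ι κ : Type} (e : ι ≃ κ) {E : ℕ} (Γ : AddSubgroup (ι → ℤ_[p]))
    (h : Γ ∈ Gam p ι E) : mp e Γ ∈ Gam p κ E := by
  obtain ⟨h1, h2, h3⟩ := h
  refine ⟨?_, ?_, ?_⟩
  · rw [mem_mp]; exact h1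
  · intro a ha b hb
    rw [mem_mp] at *
    exact h2 _ ha _ hb
  · rw [mp_index]; exact h3

open Classical in
/-- the set of coordinates that are not flat -/
noncomputable def nf {n : ℕ} (Γ : AddSubgroup (Fin n → ℤ_[p])) : Finset (Fin n) :=
  (univ : Finset (Fin n)).filter (fun i => p • (Pi.single i (1 : ℤ_[p]) : Fin n → ℤ_[p]) ∉ Γ)

theorem mem_nf {n : ℕ} (Γ : AddSubgroup (Fin n → ℤ_[p])) (i : Fin n) :
    i ∈ nf Γ ↔ p • (Pi.single i (1 : ℤ_[p]) : Fin n → ℤ_[p]) ∉ Γ := by
  unfold nf; simp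

theorem ncard_sub (n E : ℕ) (J : Finset (Fin n)) :
    {Γ | Γ ∈ Gam p (Fin n) E ∧ nf Γ ⊆ J}.ncard = (GamF p J.card (n - J.card) E).ncard := by
  classical
  have eJ : {i : Fin n // i ∈ J} ≃ Fin J.card :=
    Fintype.equivFinOfCardEq (by rw [Fintype.card_coe])
  have eJc : {i : Fin n // ¬ i ∈ J} ≃ Fin (n - J.card) :=
    Fintype.equivFinOfCardEq (by
      rw [Fintype.card_subtype_compl, Fintype.card_coe, Fintype.card_fin])
  let e : Fin n ≃ Fin J.card ⊕ Fin (n - J.card) :=
    (Equiv.sumCompl (fun i => i ∈ J)).symm.trans (Equiv.sumCongr eJ eJc)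
  have he : ∀ i : Fin (n - J.card), e.symm (Sum.inr i) ∉ J := by
    intro i
    have : e.symm (Sum.inr i) = (eJc.symm i : Fin n) := by
      simp [e, Equiv.sumCompl]
    rw [this]
    exact (eJc.symm i).2
  have he' : ∀ k : Fin n, k ∉ J → ∃ i, e.symm (Sum.inr i) = k := by
    intro k hk
    refine ⟨eJc ⟨k, hk⟩, ?_⟩
    simp [e, Equiv.sumCompl]
  have hsingle : ∀ i : Fin (n - J.card),
      (p • (Pi.single (Sum.inr i) (1 : ℤ_[p]) : Fin J.card ⊕ Fin (n - J.card) → ℤ_[p])) ∘ e =
        p • (Pi.single (e.symm (Sum.inr i)) (1 : ℤ_[p]) : Fin n → ℤ_[p]) := by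
    intro i
    funext k
    simp only [Function.comp, Pi.smul_apply, Pi.single_apply]
    congr 1
    by_cases hk : e k = Sum.inr i
    · rw [if_pos hk, if_pos (by rw [← hk]; simp)]
    · rw [if_neg hk, if_neg (by intro h; apply hk; rw [h]; simp)]
  have himg : GamF p J.card (n - J.card) E = mp e '' {Γ | Γ ∈ Gam p (Fin n) E ∧ nf Γ ⊆ J} := by
    ext Δ
    constructor
    · rintro ⟨h1, h2⟩
      refine ⟨mp e.symm Δ, ⟨mp_Gam e.symm Δ h1, ?_⟩, mp_mp' e Δ⟩
      intro k hk
      by_contra hkJ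
      rw [mem_nf] at hk
      apply hk
      obtain ⟨i, hi⟩ := he' k hkJ
      rw [mem_mp]
      have h3 := h2 i
      convert h3 using 1
      have h4 := hsingle i
      rw [hi] at h4
      rw [← h4]
      funext x
      simp
    · rintro ⟨Γ, ⟨h1, h2⟩, rfl⟩
      refine ⟨mp_Gam e Γ h1, ?_⟩
      intro i
      rw [mem_mp, hsingle]
      by_contra hcon
      exact he i (h2 ((mem_nf Γ _).2 hcon))
  rw [himg, Set.ncard_image_of_injective]
  intro Γ Δ h
  have := congrArg (mp e.symm) h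
  rwa [mp_mp, mp_mp] at this

theorem moebius {α : Type} [DecidableEq α] (A S : Finset α) :
    ∑ J ∈ S.powerset, (-1 : ℚ) ^ (S.card - J.card) * (if A ⊆ J then 1 else 0) =
      if A = S then 1 else 0 := by
  have h1 : ∑ J ∈ S.powerset, (-1 : ℚ) ^ (S.card - J.card) * (if A ⊆ J then 1 else 0) =
      ∑ D ∈ S.powerset, (-1 : ℚ) ^ D.card * (if A ⊆ S \ D then 1 else 0) := by
    refine Finset.sum_bij' (fun J _ => S \ J) (fun D _ => S \ D) ?_ ?_ ?_ ?_ ?_
    · intro J _; rw [Finset.mem_powerset]; exact Finset.sdiff_subset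
    · intro J _; rw [Finset.mem_powerset]; exact Finset.sdiff_subset
    · intro J hJ; rw [Finset.mem_powerset] at hJ
      exact Finset.sdiff_sdiff_eq_self hJ
    · intro J hJ; rw [Finset.mem_powerset] at hJ
      exact Finset.sdiff_sdiff_eq_self hJ
    · intro J hJ; rw [Finset.mem_powerset] at hJ
      rw [Finset.sdiff_sdiff_eq_self hJ, Finset.card_sdiff_of_subset hJ]
  rw [h1]
  by_cases hA : A ⊆ S
  · have h2 : ∑ D ∈ S.powerset, (-1 : ℚ) ^ D.card * (if A ⊆ S \ D then 1 else 0) =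
        ∑ D ∈ (S \ A).powerset, (-1 : ℚ) ^ D.card := by
      rw [← Finset.sum_filter_add_sum_filter_not S.powerset (fun D => A ⊆ S \ D)]
      have h3 : ∑ D ∈ S.powerset with ¬ A ⊆ S \ D,
          (-1 : ℚ) ^ D.card * (if A ⊆ S \ D then 1 else 0) = 0 := by
        refine Finset.sum_eq_zero fun D hD => ?_
        rw [if_neg (Finset.mem_filter.1 hD).2, mul_zero]
      rw [h3, add_zero]
      refine Finset.sum_congr ?_ ?_
      · ext D
        rw [Finset.mem_filter, Finset.mem_powerset, Finset.mem_powerset]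
        constructor
        · rintro ⟨h4, h5⟩ x hx
          rw [Finset.mem_sdiff]
          refine ⟨h4 hx, fun hxA => ?_⟩
          exact (Finset.mem_sdiff.1 (h5 hxA)).2 hx
        · intro h4
          refine ⟨h4.trans Finset.sdiff_subset, ?_⟩
          intro x hx
          rw [Finset.mem_sdiff]
          exact ⟨hA hx, fun hxD => (Finset.mem_sdiff.1 (h4 hxD)).2 hx⟩
      · intro D hD
        have h6 : A ⊆ S \ D := by
          intro x hx
          rw [Finset.mem_sdiff]
          exact ⟨hA hx, fun hxD => (Finset.mem_sdiff.1 ((Finset.mem_powerset.1 hD) hxD)).2 hx⟩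
        rw [if_pos h6, mul_one]
    rw [h2]
    have h7 := Finset.sum_powerset_neg_one_pow_card (x := S \ A)
    have h8 : (∑ D ∈ (S \ A).powerset, (-1 : ℚ) ^ D.card) =
        ((∑ D ∈ (S \ A).powerset, (-1 : ℤ) ^ D.card : ℤ) : ℚ) := by push_cast; rfl
    rw [h8, h7]
    by_cases hAS : A = S
    · rw [if_pos hAS, hAS]; simp
    · rw [if_neg hAS, if_neg]
      · simp
      · intro h9
        apply hAS
        rw [Finset.sdiff_eq_empty_iff_subset] at h9
        exact Finset.Subset.antisymm hA h9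
  · rw [if_neg (by rintro rfl; exact hA (Finset.Subset.refl _))]
    refine Finset.sum_eq_zero fun D _ => ?_
    rw [if_neg, mul_zero]
    intro h; exact hA (h.trans Finset.sdiff_subset)

end A4

open A4 in
theorem incl_excl (p : ℕ) [Fact p.Prime] (n E : ℕ) (hn : 2 * E ≤ n) :
    ((Gam p (Fin n) E).ncard : ℚ) = ∑ k ∈ range (2 * E + 1), (n.choose k : ℚ) *
      ∑ j ∈ range (k + 1), (-1) ^ (k - j) * (k.choose j : ℚ) * ((GamF p j (n - j) E).ncard : ℚ) := by
  classical
  have hfin := Gam_finite p (Fin n) E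
  set T : Finset (AddSubgroup (Fin n → ℤ_[p])) := hfin.toFinset with hT
  have hTmem : ∀ Γ, Γ ∈ T ↔ Γ ∈ Gam p (Fin n) E := fun Γ => by rw [hT, Set.Finite.mem_toFinset]
  have hcount : ∀ J : Finset (Fin n), ((GamF p J.card (n - J.card) E).ncard : ℚ) =
      ∑ Γ ∈ T, (if nf Γ ⊆ J then 1 else 0) := by
    intro J
    rw [← ncard_sub, Finset.sum_boole]
    congr 1
    rw [← Set.ncard_coe_finset]
    congr 1
    ext Γ
    simp [hTmem]
  have hstep : ∀ k, (n.choose k : ℚ) *
      ∑ j ∈ range (k + 1), (-1) ^ (k - j) * (k.choose j : ℚ) * ((GamF p j (n - j) E).ncard : ℚ) =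
      ∑ S ∈ powersetCard k (univ : Finset (Fin n)), ∑ Γ ∈ T, (if nf Γ = S then 1 else 0) := by
    intro k
    have h1 : ∀ S ∈ powersetCard k (univ : Finset (Fin n)),
        ∑ Γ ∈ T, (if nf Γ = S then (1 : ℚ) else 0) =
        ∑ j ∈ range (k + 1), (-1) ^ (k - j) * (k.choose j : ℚ) *
          ((GamF p j (n - j) E).ncard : ℚ) := by
      intro S hS
      have hSc : S.card = k := (Finset.mem_powersetCard.1 hS).2
      calc ∑ Γ ∈ T, (if nf Γ = S then (1 : ℚ) else 0)
          = ∑ Γ ∈ T, ∑ J ∈ S.powerset, (-1 : ℚ) ^ (S.card - J.card) *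
              (if nf Γ ⊆ J then 1 else 0) := by
            refine Finset.sum_congr rfl fun Γ _ => ?_
            rw [moebius]
        _ = ∑ J ∈ S.powerset, (-1 : ℚ) ^ (S.card - J.card) *
              ((GamF p J.card (n - J.card) E).ncard : ℚ) := by
            rw [Finset.sum_comm]
            refine Finset.sum_congr rfl fun J _ => ?_
            rw [hcount, Finset.mul_sum]
        _ = _ := by
            rw [Finset.sum_powerset_apply_card
              (fun j => (-1 : ℚ) ^ (S.card - j) * ((GamF p j (n - j) E).ncard : ℚ)), hSc]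
            refine Finset.sum_congr rfl fun j _ => ?_
            rw [nsmul_eq_mul]; ring
    rw [Finset.sum_congr rfl h1, Finset.sum_const, Finset.card_powersetCard, Finset.card_univ,
      Fintype.card_fin, nsmul_eq_mul]
  rw [Finset.sum_congr rfl (fun k _ => hstep k)]
  have hfinal : ∀ Γ ∈ T, ∑ k ∈ range (2 * E + 1),
      ∑ S ∈ powersetCard k (univ : Finset (Fin n)), (if nf Γ = S then (1 : ℚ) else 0) = 1 := by
    intro Γ hΓ
    have hle : (nf Γ).card ≤ 2 * E := card_notflat p n E Γ ((hTmem Γ).1 hΓ)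
    rw [Finset.sum_eq_single (nf Γ).card]
    · rw [Finset.sum_ite_eq, if_pos]
      rw [Finset.mem_powersetCard]
      exact ⟨Finset.subset_univ _, rfl⟩
    · intro k _ hk
      rw [Finset.sum_ite_eq, if_neg]
      rw [Finset.mem_powersetCard]
      rintro ⟨_, h⟩
      exact hk h.symm
    · intro h
      exfalso; apply h
      rw [Finset.mem_range]; omega
  have hswap : ∑ k ∈ range (2 * E + 1), ∑ S ∈ powersetCard k (univ : Finset (Fin n)),
      ∑ Γ ∈ T, (if nf Γ = S then (1 : ℚ) else 0) =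
      ∑ Γ ∈ T, ∑ k ∈ range (2 * E + 1),
      ∑ S ∈ powersetCard k (univ : Finset (Fin n)), (if nf Γ = S then (1 : ℚ) else 0) := by
    rw [Finset.sum_comm]
    refine Finset.sum_congr rfl fun k _ => ?_
    rw [Finset.sum_comm]
  have hcardT : ((Gam p (Fin n) E).ncard : ℚ) = (T.card : ℚ) := by
    rw [← Set.ncard_coe_finset, hT, Set.Finite.coe_toFinset]
  rw [hcardT]
  have : ∑ k ∈ range (2 * E + 1), ∑ S ∈ powersetCard k (univ : Finset (Fin n)),
      ∑ Γ ∈ T, (if nf Γ = S then (1 : ℚ) else 0) = (T.card : ℚ) := by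
    calc _ = ∑ k ∈ range (2 * E + 1), ∑ Γ ∈ T,
        ∑ S ∈ powersetCard k (univ : Finset (Fin n)), (if nf Γ = S then (1 : ℚ) else 0) := by
          refine Finset.sum_congr rfl fun k _ => ?_
          rw [Finset.sum_comm]
      _ = ∑ Γ ∈ T, ∑ k ∈ range (2 * E + 1),
        ∑ S ∈ powersetCard k (univ : Finset (Fin n)), (if nf Γ = S then (1 : ℚ) else 0) := by
          rw [Finset.sum_comm]
      _ = ∑ Γ ∈ T, 1 := Finset.sum_congr rfl hfinal
      _ = _ := by simp
  exact this.symm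

theorem binom_inv (G e : ℕ → ℚ) (K : ℕ)
    (h : ∀ k ≤ K, e k = ∑ j ∈ range (k + 1), (-1) ^ (k - j) * (k.choose j : ℚ) * G j) :
    ∀ k ≤ K, G k = ∑ j ∈ range (k + 1), (k.choose j : ℚ) * e j := by
  intro k hk
  have h1 : ∑ j ∈ range (k + 1), (k.choose j : ℚ) * e j =
      ∑ j ∈ range (k + 1), (k.choose j : ℚ) *
        ∑ i ∈ range (k + 1), (-1) ^ (j - i) * (j.choose i : ℚ) * G i := by
    refine Finset.sum_congr rfl fun j hj => ?_
    have hj' : j ≤ k := Nat.lt_succ_iff.1 (Finset.mem_range.1 hj)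
    rw [h j (hj'.trans hk)]
    congr 1
    refine Finset.sum_subset (Finset.range_mono (by omega)) ?_
    intro i _ hi
    rw [Finset.mem_range, not_lt] at hi
    rw [Nat.choose_eq_zero_of_lt (by omega)]
    simp
  rw [h1]
  simp only [Finset.mul_sum]
  rw [Finset.sum_comm]
  have h2 : ∀ i ∈ range (k + 1), ∑ j ∈ range (k + 1),
      (k.choose j : ℚ) * ((-1) ^ (j - i) * (j.choose i : ℚ) * G i) = if i = k then G i else 0 := by
    intro i hi
    have hi' : i ≤ k := Nat.lt_succ_iff.1 (Finset.mem_range.1 hi)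
    have h3 : ∑ j ∈ range (k + 1), (k.choose j : ℚ) * ((-1) ^ (j - i) * (j.choose i : ℚ) * G i) =
        ∑ l ∈ range (k - i + 1), (-1 : ℚ) ^ l * ((k - i).choose l : ℚ) * ((k.choose i : ℚ) * G i) := by
      have h4 : ∑ j ∈ range (k + 1), (k.choose j : ℚ) * ((-1) ^ (j - i) * (j.choose i : ℚ) * G i) =
          ∑ j ∈ Finset.Ico i (k + 1),
            (k.choose j : ℚ) * ((-1) ^ (j - i) * (j.choose i : ℚ) * G i) := by
        symm
        refine Finset.sum_subset ?_ ?_
        · intro j hj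
          rw [Finset.mem_Ico] at hj
          rw [Finset.mem_range]; omega
        · intro j _ hj
          rw [Finset.mem_Ico] at hj
          have : j < i := by
            by_contra hcon
            apply hj
            refine ⟨by omega, ?_⟩
            rename_i hjr
            exact Finset.mem_range.1 hjr
          rw [Nat.choose_eq_zero_of_lt this]; simp
      rw [h4, Finset.sum_Ico_eq_sum_range]
      have h5 : k + 1 - i = k - i + 1 := by omega
      rw [h5]
      refine Finset.sum_congr rfl fun l hl => ?_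
      have hl' : l ≤ k - i := Nat.lt_succ_iff.1 (Finset.mem_range.1 hl)
      have h6 : k.choose (i + l) * (i + l).choose i = k.choose i * (k - i).choose (i + l - i) :=
        Nat.choose_mul (by omega)
      have h7 : i + l - i = l := by omega
      rw [h7] at h6 ⊢
      have h8 : (k.choose (i + l) : ℚ) * ((i + l).choose i : ℚ) =
          (k.choose i : ℚ) * ((k - i).choose l : ℚ) := by exact_mod_cast h6
      linear_combination ((-1) ^ l * G i) * h8
    rw [h3, ← Finset.sum_mul]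
    have h9 := Int.alternating_sum_range_choose (n := k - i)
    have h10 : (∑ l ∈ range (k - i + 1), (-1 : ℚ) ^ l * ((k - i).choose l : ℚ)) =
        ((∑ l ∈ range (k - i + 1), ((-1) ^ l * ((k - i).choose l : ℤ)) : ℤ) : ℚ) := by
      push_cast; rfl
    rw [h10, h9]
    by_cases hik : i = k
    · subst hik; simp
    · rw [if_neg hik, if_neg (by omega)]; simp
  rw [Finset.sum_congr rfl h2]
  simp

end Pool.Agent.T2H70.SR
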