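import Pool.Agent.T2H70.SR.Defs
import Pool.Agent.Helper46.E.Count

set_option autoImplicit false

/-!
# Package A5b: number of subspaces of codimension `δ`

Known count (also in the start library, e.g. grep `gaussBinom` in `Pool/Agent/H699/RM`, `Pool/Agent/Helper46/E/Count`):
the number of subspaces of codimension `δ` of `𝔽_p^m` is `∏_{i<δ} (p^(m-i) - 1)/(p^(i+1) - 1)`; for `m < δ` the product vanishes
because of the factor `i = m`.
The second statement: the number of those that contain a fixed nonzero vector is the number of subspaces of codimension `δ` in the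
quotient by this vector, of dimension `m - 1`.
-/

namespace Pool.Agent.T2H70.SR

open Finset
open scoped BigOperators

/-- `∏_{i<k} (p^(i+1) - 1)` -/
def A5_qf (p k : ℕ) : ℚ := ∏ i ∈ range k, ((p : ℚ) ^ (i + 1) - 1)

theorem A5_ne (p : ℕ) (hp : p.Prime) (k : ℕ) : (p : ℚ) ^ (k + 1) - 1 ≠ 0 := by
  have h1 : (1 : ℚ) < p := by exact_mod_cast hp.one_lt
  have h2 : (1 : ℚ) < (p : ℚ) ^ (k + 1) := one_lt_pow₀ h1 (by omega)
  linarith

theorem A5_qf_ne (p : ℕ) (hp : p.Prime) (k : ℕ) : A5_qf p k ≠ 0 := by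
  unfold A5_qf
  rw [Finset.prod_ne_zero_iff]
  intro i _
  exact A5_ne p hp i

theorem A5_prod (p : ℕ) (k m : ℕ) (hk : k ≤ m) :
    (∏ i ∈ range k, ((p : ℚ) ^ (m - i) - 1)) * A5_qf p (m - k) = A5_qf p m := by
  induction k with
  | zero => simp
  | succ k ih =>
    rw [Finset.prod_range_succ, ← ih (by omega)]
    have : m - k = (m - (k + 1)) + 1 := by omega
    rw [this, A5_qf, A5_qf, Finset.prod_range_succ _ (m - (k + 1))]
    ring

theorem A5_gb (p : ℕ) (hp : p.Prime) (m δ : ℕ) (h : δ ≤ m) :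
    gb p m δ * (A5_qf p δ * A5_qf p (m - δ)) = A5_qf p m := by
  rw [← A5_prod p δ m h, gb, Finset.prod_div_distrib]
  have h1 : ∏ i ∈ range δ, ((p : ℚ) ^ m / (p : ℚ) ^ i - 1) =
      ∏ i ∈ range δ, ((p : ℚ) ^ (m - i) - 1) := by
    apply Finset.prod_congr rfl
    intro i hi
    rw [mem_range] at hi
    have hp0 : (p : ℚ) ≠ 0 := by exact_mod_cast hp.ne_zero
    rw [pow_sub₀ _ hp0 (by omega : i ≤ m), div_eq_mul_inv]
  rw [h1]
  have h2 : ∏ i ∈ range δ, ((p : ℚ) ^ (i + 1) - 1) = A5_qf p δ := rfl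
  rw [h2]
  have h3 := A5_qf_ne p hp δ
  field_simp

theorem A5_gb_zero (p : ℕ) (hp : p.Prime) (m δ : ℕ) (h : m < δ) : gb p m δ = 0 := by
  rw [gb]
  apply Finset.prod_eq_zero (mem_range.2 h)
  have hp0 : (p : ℚ) ≠ 0 := by exact_mod_cast hp.ne_zero
  rw [div_self (pow_ne_zero _ hp0)]
  simp

theorem A5_gen (p : ℕ) [Fact p.Prime] (V : Type) [AddCommGroup V] [Module (ZMod p) V] [Finite V]
    (m δ : ℕ) (hm : Module.finrank (ZMod p) V = m) :
    (Nat.card {X : Submodule (ZMod p) V // Module.finrank (ZMod p) X + δ = m} : ℚ) =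
      gb p m δ := by
  have hp : p.Prime := Fact.out
  by_cases h : δ ≤ m
  · have h1 := Helper46.E.nd_mul (F := ZMod p) (V := V) (m - δ) (by omega)
    rw [ZMod.card, hm] at h1
    have h2 : Nat.card {X : Submodule (ZMod p) V // Module.finrank (ZMod p) X + δ = m} =
        Helper46.E.nd (ZMod p) V (m - δ) := by
      unfold Helper46.E.nd
      apply Nat.card_congr
      apply Equiv.subtypeEquivRight
      intro X
      omega
    rw [h2]
    have h3 : ∀ a b : ℕ, a ≤ b → ((∏ i ∈ range a, (p ^ b - p ^ i) : ℕ) : ℚ) =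
        (∏ i ∈ range a, (p : ℚ) ^ i) * ∏ i ∈ range a, ((p : ℚ) ^ (b - i) - 1) := by
      intro a b hab
      rw [← Finset.prod_mul_distrib, Nat.cast_prod]
      apply Finset.prod_congr rfl
      intro i hi
      rw [mem_range] at hi
      rw [Nat.cast_sub (Nat.pow_le_pow_right hp.pos (by omega)), mul_sub, ← pow_add,
        show i + (b - i) = b by omega]
      push_cast
      ring
    have h4 : (Helper46.E.nd (ZMod p) V (m - δ) : ℚ) *
        ((∏ i ∈ range (m - δ), (p ^ (m - δ) - p ^ i) : ℕ) : ℚ) =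
        ((∏ i ∈ range (m - δ), (p ^ m - p ^ i) : ℕ) : ℚ) := by exact_mod_cast h1
    rw [h3 (m - δ) (m - δ) le_rfl, h3 (m - δ) m (by omega)] at h4
    have hp0 : (p : ℚ) ≠ 0 := by exact_mod_cast hp.ne_zero
    have h5 : (∏ i ∈ range (m - δ), (p : ℚ) ^ i) ≠ 0 := by
      rw [Finset.prod_ne_zero_iff]
      intro i _
      exact pow_ne_zero _ hp0
    have h6 := A5_prod p (m - δ) (m - δ) le_rfl
    have h7 := A5_prod p (m - δ) m (by omega)
    have h8 := A5_gb p hp m δ h
    have h9 := A5_qf_ne p hp δ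
    have h10 := A5_qf_ne p hp (m - δ)
    rw [Nat.sub_self] at h6
    have h11 : A5_qf p 0 = 1 := by simp [A5_qf]
    rw [h11, mul_one] at h6
    rw [h6] at h4
    rw [show m - (m - δ) = δ by omega] at h7
    have h12 : (Helper46.E.nd (ZMod p) V (m - δ) : ℚ) * A5_qf p (m - δ) =
        ∏ i ∈ range (m - δ), ((p : ℚ) ^ (m - i) - 1) := by
      apply mul_left_cancel₀ h5
      rw [← h4]
      ring
    rw [← h12, ← h8] at h7
    have h13 : A5_qf p δ * A5_qf p (m - δ) ≠ 0 := mul_ne_zero h9 h10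
    apply mul_right_cancel₀ h13
    rw [← h7]
    ring
  · rw [A5_gb_zero p hp m δ (by omega)]
    have : IsEmpty {X : Submodule (ZMod p) V // Module.finrank (ZMod p) X + δ = m} :=
      ⟨fun X => by have := X.2; omega⟩
    rw [Nat.card_of_isEmpty]
    simp

theorem card_codim (p : ℕ) [Fact p.Prime] (m δ : ℕ) :
    (Nat.card {X : Submodule (ZMod p) (Fin m → ZMod p) //
      Module.finrank (ZMod p) X + δ = m} : ℚ) = gb p m δ :=
  A5_gen p (Fin m → ZMod p) m δ (by simp)

theorem card_codim_one (p : ℕ) [Fact p.Prime] (m δ : ℕ) (hm : 1 ≤ m) :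
    (Nat.card {X : Submodule (ZMod p) (Fin m → ZMod p) //
      Module.finrank (ZMod p) X + δ = m ∧ (1 : Fin m → ZMod p) ∈ X} : ℚ) = gb p (m - 1) δ := by
  set W : Submodule (ZMod p) (Fin m → ZMod p) := Submodule.span (ZMod p) {1} with hW
  have h1 : (1 : Fin m → ZMod p) ≠ 0 := by
    intro h
    have := congrFun h ⟨0, by omega⟩
    simp at this
  have h2 : Module.finrank (ZMod p) W = 1 := finrank_span_singleton h1
  have h3 : Module.finrank (ZMod p) ((Fin m → ZMod p) ⧸ W) = m - 1 := by
    have := Submodule.finrank_quotient_add_finrank W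
    rw [h2, Module.finrank_fin_fun] at this
    omega
  rw [← A5_gen p ((Fin m → ZMod p) ⧸ W) (m - 1) δ h3]
  congr 1
  have key : ∀ Y : Submodule (ZMod p) ((Fin m → ZMod p) ⧸ W),
      Module.finrank (ZMod p) (Y.comap W.mkQ) = Module.finrank (ZMod p) Y + 1 := by
    intro Y
    have h4 := LinearMap.finrank_range_add_finrank_ker (W.mkQ.domRestrict (Y.comap W.mkQ))
    have h5 : LinearMap.range (W.mkQ.domRestrict (Y.comap W.mkQ)) = Y := by
      rw [LinearMap.range_domRestrict]
      exact Submodule.map_comap_eq_of_surjective W.mkQ_surjective Y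
    have h6 : Module.finrank (ZMod p) (LinearMap.ker (W.mkQ.domRestrict (Y.comap W.mkQ))) = 1 := by
      rw [← h2]
      have hle : W ≤ Y.comap W.mkQ := by
        intro x hx
        rw [Submodule.mem_comap, Submodule.mkQ_apply, (Submodule.Quotient.mk_eq_zero W).2 hx]
        exact Y.zero_mem
      have h7 : LinearMap.ker (W.mkQ.domRestrict (Y.comap W.mkQ)) =
          W.comap (Y.comap W.mkQ).subtype := by
        ext x
        simp
      rw [h7]
      exact (Submodule.comapSubtypeEquivOfLe hle).finrank_eq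
    rw [h5, h6] at h4
    exact h4.symm
  symm
  apply Nat.card_congr
  refine Equiv.ofBijective (fun Y => ⟨Y.1.comap W.mkQ, by rw [key]; have := Y.2; omega, ?_⟩) ⟨?_, ?_⟩
  · rw [Submodule.mem_comap, Submodule.mkQ_apply, (Submodule.Quotient.mk_eq_zero W).2]
    · exact Y.1.zero_mem
    · exact Submodule.subset_span rfl
  · intro Y Z h
    have h4 := congrArg Subtype.val h
    apply Subtype.ext
    exact Submodule.comap_injective_of_surjective W.mkQ_surjective h4
  · rintro ⟨X, hX, h1X⟩
    have hle : W ≤ X := by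
      rw [hW, Submodule.span_singleton_le_iff_mem]
      exact h1X
    have h4 : (X.map W.mkQ).comap W.mkQ = X := by
      rw [Submodule.comap_map_mkQ]
      exact sup_eq_right.2 hle
    refine ⟨⟨X.map W.mkQ, ?_⟩, ?_⟩
    · have := key (X.map W.mkQ)
      rw [h4] at this
      omega
    · apply Subtype.ext
      exact h4

end Pool.Agent.T2H70.SR
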