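import Pool.Agent.T2H70.SR.A4
import Pool.Agent.T2H70.SR.A5

set_option autoImplicit false

/-!
# Package A5a: the structure of `Γ` with flat coordinates

`R = ℤ_p`. Let `Γ ∈ GamF p j m E`, `j ≥ 1`. It is a `ℤ_p`-submodule (it contains `p^E R^(j+m)`) and contains `0 × p R^m`.
Put `Γc = pr₁ Γ ⊆ R^j` and `X = (Γ ∩ (0 × R^m)) mod p ⊆ 𝔽_p^m` (note `Γ ∩ (0 × R^m) = 0 × X~`, `X~` the preimage of `X`, since
it contains `0 × p R^m`). Then `Γ = {(γ, y) : γ ∈ Γc, y mod (p, X) = φ γ}` for a unique additive `φ : Γc → 𝔽_p^m / X`.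
Conversely given `Γc` of finite index, `X` and `φ`, the set `Γ` so defined satisfies `1 ∈ Γ` iff `1 ∈ Γc` and `φ 1 = 1 mod X`;
and `p Γ Γ ⊆ Γ` iff for all `γ γ' ∈ Γc`: `p γ γ' ∈ Γc` and `φ (p γ γ') = 0`, because
`p (γ,y)(γ',y') = (p γ γ', p y y')` and `0 × p R^m ⊆ Γ`. So the `Γ`'s correspond to: `δ ≤ E`, `Γc ∈ Gam p (Fin j) (E - δ)`,
`X` of codimension `δ` (`[R^(j+m) : Γ] = [R^j : Γc] [R^m : X~] = p^(u + δ)`), and homomorphisms
`φ : Γc / sq Γc → 𝔽_p^m / X` with `φ 1 = 1`. Now `Γc / sq Γc` is an `𝔽_p`-vector space of order `qn Γc`, and `1` is not zero in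
it (`sq Γc ⊆ p R^j`, `j ≥ 1`), so the number of `φ` is `(qn Γc / p)^δ`.

For `j = 0`: `Γ = X~` with `1 ∈ X`, codimension `E`.
-/

namespace Pool.Agent.T2H70.SR

open Finset
open scoped BigOperators

namespace A5aAux

variable {p : ℕ} [hp : Fact p.Prime]

/-! ### closure under `ℤ_p` -/

theorem smul_mem {ι : Type} (Γ : AddSubgroup (ι → ℤ_[p])) (E : ℕ) (h : Γ.index = p ^ E)
    (z : ℤ_[p]) {x : ι → ℤ_[p]} (hx : x ∈ Γ) : z • x ∈ Γ := by
  have h1 := PadicInt.appr_spec E z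
  rw [Ideal.mem_span_singleton] at h1
  obtain ⟨w, hw⟩ := h1
  have h2 : z • x = (PadicInt.appr z E) • x + (p ^ E) • (w • x) := by
    have h3 : z = (PadicInt.appr z E : ℤ_[p]) + (p : ℤ_[p]) ^ E * w := by rw [← hw]; ring
    funext i
    rw [Pi.add_apply, Pi.smul_apply, Pi.smul_apply, Pi.smul_apply, Pi.smul_apply, nsmul_eq_mul,
      nsmul_eq_mul, smul_eq_mul, smul_eq_mul]
    push_cast
    calc z * x i = ((PadicInt.appr z E : ℤ_[p]) + (p : ℤ_[p]) ^ E * w) * x i := by rw [← h3]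
      _ = _ := by ring
  rw [h2]
  refine Γ.add_mem (Γ.nsmul_mem hx _) ?_
  rw [← h]
  exact Γ.nsmul_index_mem _

/-! ### counting linear maps -/

theorem card_lin {V W : Type*} [AddCommGroup V] [AddCommGroup W] [Module (ZMod p) V]
    [Module (ZMod p) W] (v0 : V) (hv : v0 ≠ 0) (w0 : W) :
    Nat.card {f : V →ₗ[ZMod p] W // f v0 = w0} * Nat.card W = Nat.card (V →ₗ[ZMod p] W) := by
  classical
  obtain ⟨g, hg⟩ : ∃ g : Module.Dual (ZMod p) V, g v0 ≠ 0 := by
    by_contra hcon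
    push Not at hcon
    exact hv ((Module.forall_dual_apply_eq_zero_iff (ZMod p) v0).1 hcon)
  let ev : (V →ₗ[ZMod p] W) →+ W :=
    { toFun := fun f => f v0
      map_zero' := rfl
      map_add' := fun _ _ => rfl }
  let lift' : W → (V →ₗ[ZMod p] W) := fun w => ((g v0)⁻¹ • g).smulRight w
  have hl : ∀ w, lift' w v0 = w := by
    intro w
    simp only [lift', LinearMap.smulRight_apply, LinearMap.smul_apply, smul_eq_mul]
    rw [inv_mul_cancel₀ hg, one_smul]
  have hsurj : Function.Surjective ev := fun w => ⟨lift' w, hl w⟩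
  have e : {f : V →ₗ[ZMod p] W // f v0 = w0} ≃ ev.ker :=
    { toFun := fun f => ⟨f.1 - lift' w0, by
        rw [AddMonoidHom.mem_ker]
        change (f.1 - lift' w0) v0 = 0
        rw [LinearMap.sub_apply, hl, f.2, sub_self]⟩
      invFun := fun f => ⟨f.1 + lift' w0, by
        have := f.2
        rw [AddMonoidHom.mem_ker] at this
        change f.1 v0 = 0 at this
        rw [LinearMap.add_apply, this, hl, zero_add]⟩
      left_inv := fun f => by simp
      right_inv := fun f => by simp }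
  rw [Nat.card_congr e]
  have h1 := AddSubgroup.card_mul_index ev.ker
  rw [AddSubgroup.index_ker] at h1
  have h2 : Nat.card ev.range = Nat.card W := by
    rw [AddMonoidHom.range_eq_top.2 hsurj]
    exact Nat.card_congr AddSubgroup.topEquiv.toEquiv
  rw [h2] at h1
  exact h1

theorem card_lin' {V W : Type*} [AddCommGroup V] [AddCommGroup W] [Module (ZMod p) V]
    [Module (ZMod p) W] [Module.Finite (ZMod p) V] [Module.Finite (ZMod p) W]
    (v0 : V) (hv : v0 ≠ 0) (w0 : W) (δ : ℕ) (hδ : Module.finrank (ZMod p) W = δ) :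
    (Nat.card {f : V →ₗ[ZMod p] W // f v0 = w0} : ℚ) = ((Nat.card V : ℚ) / p) ^ δ := by
  have h1 := card_lin (p := p) v0 hv w0
  have hW : Nat.card W = p ^ δ := by
    rw [Module.natCard_eq_pow_finrank (K := ZMod p), Nat.card_zmod, hδ]
  have hV : Nat.card V = p ^ Module.finrank (ZMod p) V := by
    rw [Module.natCard_eq_pow_finrank (K := ZMod p), Nat.card_zmod]
  have hH : Nat.card (V →ₗ[ZMod p] W) = p ^ (Module.finrank (ZMod p) V * δ) := by
    rw [Module.natCard_eq_pow_finrank (K := ZMod p), Nat.card_zmod,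
      Module.finrank_linearMap (ZMod p) (ZMod p) V W, hδ]
  rw [hW, hH] at h1
  have hp0 : (p : ℚ) ≠ 0 := by exact_mod_cast hp.out.ne_zero
  have h2 : (Nat.card {f : V →ₗ[ZMod p] W // f v0 = w0} : ℚ) * (p : ℚ) ^ δ =
      (p : ℚ) ^ (Module.finrank (ZMod p) V * δ) := by exact_mod_cast h1
  rw [hV, div_pow]
  rw [eq_div_iff (pow_ne_zero _ hp0), h2]
  push_cast
  rw [pow_mul]

/-! ### counting the homomorphisms -/

theorem gam_one {ι : Type} {u : ℕ} {Γ : AddSubgroup (ι → ℤ_[p])} (h : Γ ∈ Gam p ι u) :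
    (1 : ι → ℤ_[p]) ∈ Γ := h.1

theorem sq_le {ι : Type} {u : ℕ} {Γ : AddSubgroup (ι → ℤ_[p])} (h : Γ ∈ Gam p ι u) :
    sq Γ ≤ Γ := by
  unfold sq
  rw [AddSubgroup.closure_le]
  rintro x ⟨a, ha, b, hb, rfl⟩
  exact h.2.1 a ha b hb

theorem mem_sq {ι : Type} {Γ : AddSubgroup (ι → ℤ_[p])} {a b : ι → ℤ_[p]} (ha : a ∈ Γ)
    (hb : b ∈ Γ) : p • (a * b) ∈ sq Γ :=
  AddSubgroup.subset_closure ⟨a, ha, b, hb, rfl⟩

theorem one_notMem_sq {j : ℕ} (hj : 1 ≤ j) (Γ : AddSubgroup (Fin j → ℤ_[p])) :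
    (1 : Fin j → ℤ_[p]) ∉ sq Γ := by
  intro h
  have h1 : ∀ x ∈ sq Γ, (p : ℤ_[p]) ∣ x ⟨0, hj⟩ := by
    intro x hx
    unfold sq at hx
    induction hx using AddSubgroup.closure_induction with
    | mem x hx =>
      obtain ⟨a, _, b, _, rfl⟩ := hx
      rw [Pi.smul_apply, nsmul_eq_mul]
      exact dvd_mul_right _ _
    | zero => exact dvd_zero _
    | add x y _ _ h1 h2 => exact dvd_add h1 h2
    | neg x _ h1 => exact (dvd_neg).2 h1
  have h2 := h1 1 h
  rw [Pi.one_apply] at h2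
  exact PadicInt.prime_p.not_isUnit (isUnit_of_dvd_one h2)

/-- `sq Γ` has finite index in `Γ` -/
theorem finite_quot {j : ℕ} {u : ℕ} {Γ : AddSubgroup (Fin j → ℤ_[p])}
    (h : Γ ∈ Gam p (Fin j) u) : Finite (Γ ⧸ (sq Γ).addSubgroupOf Γ) := by
  classical
  let f : (Fin j → ℤ_[p]) →+ (Fin j → ZMod (p ^ (u + 1))) :=
    { toFun := fun x i => PadicInt.toZModPow (u + 1) (x i)
      map_zero' := by funext i; simp
      map_add' := fun x y => by funext i; simp }
  have hker : f.ker ≤ sq Γ := by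
    intro x hx
    rw [AddMonoidHom.mem_ker] at hx
    have h1 : ∀ i, ∃ y : ℤ_[p], x i = (p : ℤ_[p]) ^ (u + 1) * y := by
      intro i
      have h2 : PadicInt.toZModPow (u + 1) (x i) = 0 := congrFun hx i
      have h3 : x i ∈ RingHom.ker (PadicInt.toZModPow (p := p) (u + 1)) := h2
      rw [PadicInt.ker_toZModPow, Ideal.mem_span_singleton] at h3
      exact h3
    choose y hy using h1
    have h4 : x = p • ((1 : Fin j → ℤ_[p]) * (p ^ u • y)) := by
      funext i
      rw [Pi.smul_apply, Pi.mul_apply, Pi.one_apply, Pi.smul_apply, one_mul, nsmul_eq_mul,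
        nsmul_eq_mul, hy i]
      push_cast
      ring
    rw [h4]
    refine mem_sq h.1 ?_
    rw [← h.2.2]
    exact Γ.nsmul_index_mem _
  have hfin : Finite (Fin j → ZMod (p ^ (u + 1))) := by
    have : NeZero (p ^ (u + 1)) := ⟨pow_ne_zero _ hp.out.ne_zero⟩
    infer_instance
  have h5 : f.ker.FiniteIndex := AddSubgroup.finiteIndex_ker f
  have h6 : (sq Γ).FiniteIndex := AddSubgroup.finiteIndex_of_le hker
  have h7 : ((sq Γ).addSubgroupOf Γ).FiniteIndex := inferInstance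
  exact AddSubgroup.finite_quotient_of_finiteIndex

/-- the homomorphisms `φ : Γ → W` with `φ 1 = w` that vanish on `sq Γ` -/
def Phi {j : ℕ} (Γ : AddSubgroup (Fin j → ℤ_[p])) (W : Type*) [AddCommGroup W] (w : W) :
    Set (Γ →+ W) :=
  {φ | (∀ h : (1 : Fin j → ℤ_[p]) ∈ Γ, φ ⟨1, h⟩ = w) ∧
    ∀ a ∈ Γ, ∀ b ∈ Γ, ∀ h : p • (a * b) ∈ Γ, φ ⟨p • (a * b), h⟩ = 0}

theorem card_Phi {j : ℕ} (hj : 1 ≤ j) {u : ℕ} {Γ : AddSubgroup (Fin j → ℤ_[p])}
    (h : Γ ∈ Gam p (Fin j) u) (W : Type*) [AddCommGroup W] [Module (ZMod p) W]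
    [Module.Finite (ZMod p) W] (w : W) (δ : ℕ) (hδ : Module.finrank (ZMod p) W = δ) :
    (Nat.card (Phi Γ W w) : ℚ) = ((qn Γ : ℚ) / p) ^ δ := by
  classical
  have hV0 : ∀ x : Γ ⧸ (sq Γ).addSubgroupOf Γ, p • x = 0 := by
    intro x
    obtain ⟨a, rfl⟩ := QuotientAddGroup.mk_surjective x
    rw [← QuotientAddGroup.mk_nsmul, QuotientAddGroup.eq_zero_iff, AddSubgroup.mem_addSubgroupOf]
    have := mem_sq h.1 a.2
    rw [one_mul] at this
    exact this
  let iM : Module (ZMod p) (Γ ⧸ (sq Γ).addSubgroupOf Γ) := AddCommGroup.zmodModule hV0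
  have := finite_quot h
  have iF : Module.Finite (ZMod p) (Γ ⧸ (sq Γ).addSubgroupOf Γ) := Module.Finite.of_finite
  have hv : ((⟨1, h.1⟩ : Γ) : Γ ⧸ (sq Γ).addSubgroupOf Γ) ≠ 0 := by
    intro h0
    rw [QuotientAddGroup.eq_zero_iff, AddSubgroup.mem_addSubgroupOf] at h0
    exact one_notMem_sq hj Γ h0
  have key := @card_lin' p hp (Γ ⧸ (sq Γ).addSubgroupOf Γ) W _ _ iM _ iF _
    ((⟨1, h.1⟩ : Γ) : Γ ⧸ (sq Γ).addSubgroupOf Γ) hv w δ hδ
  have hq : Nat.card (Γ ⧸ (sq Γ).addSubgroupOf Γ) = qn Γ := rfl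
  rw [hq] at key
  rw [← key]
  congr 1
  refine Nat.card_congr ?_
  symm
  refine
    { toFun := fun f => ⟨f.1.toAddMonoidHom.comp (QuotientAddGroup.mk' _), ?_, ?_⟩
      invFun := fun φ => ⟨(QuotientAddGroup.lift _ φ.1 ?_).toZModLinearMap p, ?_⟩
      left_inv := ?_
      right_inv := ?_ }
  · intro _
    exact f.2
  · intro a ha b hb hab
    have : ((⟨p • (a * b), hab⟩ : Γ) : Γ ⧸ (sq Γ).addSubgroupOf Γ) = 0 := by
      rw [QuotientAddGroup.eq_zero_iff, AddSubgroup.mem_addSubgroupOf]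
      exact mem_sq ha hb
    change f.1.toAddMonoidHom
      ((⟨p • (a * b), hab⟩ : Γ) : Γ ⧸ (sq Γ).addSubgroupOf Γ) = 0
    rw [this]
    exact map_zero f.1.toAddMonoidHom
  · -- sq Γ ≤ ker φ
    have h1 : ∀ x ∈ sq Γ, ∀ hx : x ∈ Γ, φ.1 ⟨x, hx⟩ = 0 := by
      intro x hx
      unfold sq at hx
      induction hx using AddSubgroup.closure_induction with
      | mem x hx =>
        obtain ⟨a, ha, b, hb, rfl⟩ := hx
        intro hx
        exact φ.2.2 a ha b hb hx
      | zero => intro hx; exact map_zero φ.1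
      | add x y hx hy h1 h2 =>
        intro hxy
        have hx' : x ∈ Γ := sq_le h hx
        have hy' : y ∈ Γ := sq_le h hy
        have : (⟨x + y, hxy⟩ : Γ) = ⟨x, hx'⟩ + ⟨y, hy'⟩ := rfl
        rw [this, map_add, h1 hx', h2 hy', add_zero]
      | neg x hx h1 =>
        intro hx'
        have hx'' : x ∈ Γ := sq_le h hx
        have : (⟨-x, hx'⟩ : Γ) = -⟨x, hx''⟩ := rfl
        rw [this, map_neg, h1 hx'', neg_zero]
    intro x hx
    rw [AddSubgroup.mem_addSubgroupOf] at hx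
    rw [AddMonoidHom.mem_ker]
    exact h1 x.1 hx x.2
  · exact φ.2.1 h.1
  · intro f
    apply Subtype.ext
    apply LinearMap.ext
    intro x
    obtain ⟨a, rfl⟩ := QuotientAddGroup.mk_surjective x
    rfl
  · intro φ
    apply Subtype.ext
    apply AddMonoidHom.ext
    intro x
    rfl

/-! ### subgroups of `ℤ_p^j × 𝔽_p^m` -/

/-- the image of the condition on `Γ` -/
def GG (p : ℕ) [Fact p.Prime] (j m : ℕ) :
    Set (AddSubgroup ((Fin j → ℤ_[p]) × (Fin m → ZMod p))) :=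
  {G | (1 : (Fin j → ℤ_[p]) × (Fin m → ZMod p)) ∈ G ∧
    ∀ a ∈ G, ∀ b ∈ G, ((p • (a.1 * b.1), 0) : (Fin j → ℤ_[p]) × (Fin m → ZMod p)) ∈ G}

/-- the subgroup given by `φ` -/
def gphi {j m : ℕ} (Γ : AddSubgroup (Fin j → ℤ_[p])) (X : Submodule (ZMod p) (Fin m → ZMod p))
    (φ : Γ →+ (Fin m → ZMod p) ⧸ X) : AddSubgroup ((Fin j → ℤ_[p]) × (Fin m → ZMod p)) where
  carrier := {x | ∃ h : x.1 ∈ Γ, φ ⟨x.1, h⟩ = Submodule.Quotient.mk x.2}
  zero_mem' := ⟨Γ.zero_mem, map_zero φ⟩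
  add_mem' := by
    rintro x y ⟨hx, hx'⟩ ⟨hy, hy'⟩
    refine ⟨Γ.add_mem hx hy, ?_⟩
    have : (⟨(x + y).1, Γ.add_mem hx hy⟩ : Γ) = ⟨x.1, hx⟩ + ⟨y.1, hy⟩ := rfl
    rw [this, map_add, hx', hy']
    rfl
  neg_mem' := by
    rintro x ⟨hx, hx'⟩
    refine ⟨Γ.neg_mem hx, ?_⟩
    have : (⟨(-x).1, Γ.neg_mem hx⟩ : Γ) = -⟨x.1, hx⟩ := rfl
    rw [this, map_neg, hx']
    rfl

theorem mem_gphi {j m : ℕ} {Γ : AddSubgroup (Fin j → ℤ_[p])}
    {X : Submodule (ZMod p) (Fin m → ZMod p)} {φ : Γ →+ (Fin m → ZMod p) ⧸ X}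
    {x : (Fin j → ℤ_[p]) × (Fin m → ZMod p)} :
    x ∈ gphi Γ X φ ↔ ∃ h : x.1 ∈ Γ, φ ⟨x.1, h⟩ = Submodule.Quotient.mk x.2 := Iff.rfl

theorem gphi_inj {j m : ℕ} (Γ : AddSubgroup (Fin j → ℤ_[p]))
    (X : Submodule (ZMod p) (Fin m → ZMod p)) : Function.Injective (gphi Γ X) := by
  intro φ ψ h
  apply AddMonoidHom.ext
  rintro ⟨a, ha⟩
  obtain ⟨k, hk⟩ := Submodule.Quotient.mk_surjective X (φ ⟨a, ha⟩)
  have h1 : (a, k) ∈ gphi Γ X φ := ⟨ha, hk.symm⟩
  rw [h] at h1
  obtain ⟨_, h2⟩ := h1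
  rw [← hk, ← h2]

theorem fiber_eq {j m : ℕ} {u : ℕ} {Γ : AddSubgroup (Fin j → ℤ_[p])}
    (h : Γ ∈ Gam p (Fin j) u) (X : Submodule (ZMod p) (Fin m → ZMod p)) :
    {G : AddSubgroup ((Fin j → ℤ_[p]) × (Fin m → ZMod p)) | G ∈ GG p j m ∧
      G.map (AddMonoidHom.fst _ _) = Γ ∧ G.comap (AddMonoidHom.inr _ _) = X.toAddSubgroup} =
    gphi Γ X '' Phi Γ ((Fin m → ZMod p) ⧸ X) (Submodule.Quotient.mk 1) := by
  classical
  ext G
  constructor
  · rintro ⟨⟨h1, h2⟩, h3, h4⟩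
    have memΓ : ∀ x ∈ G, x.1 ∈ Γ := by
      intro x hx
      rw [← h3]
      exact ⟨x, hx, rfl⟩
    have memX : ∀ k : Fin m → ZMod p, ((0, k) : (Fin j → ℤ_[p]) × (Fin m → ZMod p)) ∈ G ↔ k ∈ X := by
      intro k
      have : k ∈ G.comap (AddMonoidHom.inr (Fin j → ℤ_[p]) (Fin m → ZMod p)) ↔
        k ∈ X.toAddSubgroup := by rw [h4]
      exact this
    let g1 : G →+ Γ :=
      { toFun := fun x => ⟨x.1.1, memΓ x.1 x.2⟩
        map_zero' := rfl
        map_add' := fun _ _ => rfl }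
    let g2 : G →+ (Fin m → ZMod p) ⧸ X :=
      { toFun := fun x => Submodule.Quotient.mk x.1.2
        map_zero' := rfl
        map_add' := fun _ _ => rfl }
    have hs : Function.Surjective g1 := by
      rintro ⟨a, ha⟩
      have ha' := ha
      rw [← h3] at ha'
      obtain ⟨x, hx, hxa⟩ := ha'
      exact ⟨⟨x, hx⟩, Subtype.ext hxa⟩
    have hker : g1.ker ≤ g2.ker := by
      intro x hx
      rw [AddMonoidHom.mem_ker] at hx ⊢
      have h5 : x.1.1 = 0 := congrArg Subtype.val hx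
      change (Submodule.Quotient.mk x.1.2 : (Fin m → ZMod p) ⧸ X) = 0
      rw [Submodule.Quotient.mk_eq_zero, ← memX]
      have : ((0, x.1.2) : (Fin j → ℤ_[p]) × (Fin m → ZMod p)) = x.1 := Prod.ext h5.symm rfl
      rw [this]
      exact x.2
    let φ : Γ →+ (Fin m → ZMod p) ⧸ X := AddMonoidHom.liftOfSurjective g1 hs ⟨g2, hker⟩
    have hφ : ∀ x : G, φ (g1 x) = g2 x := fun x =>
      AddMonoidHom.liftOfRightInverse_comp_apply g1 _ _ ⟨g2, hker⟩ x
    have hφ' : ∀ x (hx : x ∈ G), φ ⟨x.1, memΓ x hx⟩ = Submodule.Quotient.mk x.2 :=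
      fun x hx => hφ ⟨x, hx⟩
    refine ⟨φ, ⟨?_, ?_⟩, ?_⟩
    · intro h6
      exact hφ' 1 h1
    · intro a ha b hb hab
      have ha' := ha
      have hb' := hb
      rw [← h3] at ha' hb'
      obtain ⟨x, hx, hxa⟩ := ha'
      obtain ⟨y, hy, hyb⟩ := hb'
      have h7 := h2 x hx y hy
      have h8 := hφ' _ h7
      have hxa' : x.1 = a := hxa
      have hyb' : y.1 = b := hyb
      have h9 : (⟨p • (a * b), hab⟩ : Γ) = ⟨p • (x.1 * y.1), memΓ _ h7⟩ := by
        apply Subtype.ext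
        change p • (a * b) = p • (x.1 * y.1)
        rw [hxa', hyb']
      rw [h9]
      exact h8
    · ext x
      rw [mem_gphi]
      constructor
      · rintro ⟨hx, hx'⟩
        have ha' := hx
        rw [← h3] at ha'
        obtain ⟨y, hy, hya⟩ := ha'
        have hya' : y.1 = x.1 := hya
        have h8 := hφ' _ hy
        have h9 : (⟨y.1, memΓ y hy⟩ : Γ) = ⟨x.1, hx⟩ := Subtype.ext hya'
        rw [h9, hx'] at h8
        rw [Submodule.Quotient.eq, ← memX] at h8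
        have h10 : x = (0, x.2 - y.2) + y := by
          ext1
          · rw [Prod.fst_add, hya', zero_add]
          · rw [Prod.snd_add, sub_add_cancel]
        rw [h10]
        exact G.add_mem h8 hy
      · intro hx
        exact ⟨memΓ x hx, hφ' x hx⟩
  · rintro ⟨φ, ⟨h1, h2⟩, rfl⟩
    refine ⟨⟨⟨h.1, h1 h.1⟩, ?_⟩, ?_, ?_⟩
    · rintro a ⟨ha, _⟩ b ⟨hb, _⟩
      exact ⟨h.2.1 _ ha _ hb, h2 _ ha _ hb _⟩
    · ext a
      constructor
      · rintro ⟨x, ⟨hx, _⟩, rfl⟩
        exact hx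
      · intro ha
        obtain ⟨k, hk⟩ := Submodule.Quotient.mk_surjective X (φ ⟨a, ha⟩)
        exact ⟨(a, k), ⟨ha, hk.symm⟩, rfl⟩
    · ext k
      constructor
      · rintro ⟨hx, hx'⟩
        have h3 : φ ⟨0, Γ.zero_mem⟩ = 0 := map_zero φ
        have h4 : (Submodule.Quotient.mk k : (Fin m → ZMod p) ⧸ X) = 0 := by
          rw [← h3]
          exact hx'.symm
        exact (Submodule.Quotient.mk_eq_zero X).1 h4
      · intro hk
        refine ⟨Γ.zero_mem, ?_⟩
        have h3 : φ ⟨0, Γ.zero_mem⟩ = 0 := map_zero φ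
        have h4 : (Submodule.Quotient.mk k : (Fin m → ZMod p) ⧸ X) = 0 :=
          (Submodule.Quotient.mk_eq_zero X).2 hk
        exact h3.trans h4.symm

theorem card_fiber {j m : ℕ} (hj : 1 ≤ j) {u : ℕ} {Γ : AddSubgroup (Fin j → ℤ_[p])}
    (h : Γ ∈ Gam p (Fin j) u) (X : Submodule (ZMod p) (Fin m → ZMod p)) (δ : ℕ)
    (hδ : Module.finrank (ZMod p) X + δ = m) :
    (({G : AddSubgroup ((Fin j → ℤ_[p]) × (Fin m → ZMod p)) | G ∈ GG p j m ∧
      G.map (AddMonoidHom.fst _ _) = Γ ∧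
        G.comap (AddMonoidHom.inr _ _) = X.toAddSubgroup} : Set _).ncard : ℚ) =
      ((qn Γ : ℚ) / p) ^ δ := by
  rw [fiber_eq h X, Set.ncard_image_of_injective _ (gphi_inj Γ X)]
  refine card_Phi hj h _ _ δ ?_
  have h1 := Submodule.finrank_quotient_add_finrank X
  rw [Module.finrank_fin_fun] at h1
  omega

theorem index_eq {j m : ℕ} (G : AddSubgroup ((Fin j → ℤ_[p]) × (Fin m → ZMod p))) :
    G.index = (G.map (AddMonoidHom.fst _ _)).index * (G.comap (AddMonoidHom.inr _ _)).index := by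
  have h1 : (G.map (AddMonoidHom.fst (Fin j → ℤ_[p]) (Fin m → ZMod p))).index =
      (G ⊔ (AddMonoidHom.fst (Fin j → ℤ_[p]) (Fin m → ZMod p)).ker).index := by
    rw [← AddSubgroup.comap_map_eq, AddSubgroup.index_comap_of_surjective]
    intro a
    exact ⟨(a, 0), rfl⟩
  have h2 : (G.comap (AddMonoidHom.inr (Fin j → ℤ_[p]) (Fin m → ZMod p))).index =
      G.relIndex (AddMonoidHom.fst (Fin j → ℤ_[p]) (Fin m → ZMod p)).ker := by
    rw [AddSubgroup.index_comap]
    congr 1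
    ext x
    constructor
    · rintro ⟨k, rfl⟩
      rfl
    · intro hx
      have hx' : x.1 = 0 := hx
      exact ⟨x.2, Prod.ext hx'.symm rfl⟩
  rw [h1, h2]
  have h3 := AddSubgroup.relIndex_mul_index
    (le_sup_left : G ≤ G ⊔ (AddMonoidHom.fst (Fin j → ℤ_[p]) (Fin m → ZMod p)).ker)
  rw [← h3, mul_comm]
  congr 1
  rw [AddSubgroup.relIndex_sup_left]

theorem index_sub {m : ℕ} (X : Submodule (ZMod p) (Fin m → ZMod p)) (δ : ℕ)
    (hδ : Module.finrank (ZMod p) X + δ = m) : X.toAddSubgroup.index = p ^ δ := by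
  have h1 := Submodule.finrank_quotient_add_finrank X
  rw [Module.finrank_fin_fun] at h1
  have h2 : Module.finrank (ZMod p) ((Fin m → ZMod p) ⧸ X) = δ := by omega
  have h3 : X.toAddSubgroup.index = Nat.card ((Fin m → ZMod p) ⧸ X) := rfl
  rw [h3, Module.natCard_eq_pow_finrank (K := ZMod p), Nat.card_zmod, h2]

/-- the projection -/
noncomputable def pr (p : ℕ) [Fact p.Prime] (j m : ℕ) :
    (Fin j ⊕ Fin m → ℤ_[p]) →+ (Fin j → ℤ_[p]) × (Fin m → ZMod p) where
  toFun x := (fun i => x (Sum.inl i), fun i => PadicInt.toZMod (x (Sum.inr i)))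
  map_zero' := by
    ext i
    · rfl
    · exact map_zero _
  map_add' x y := by
    ext i
    · rfl
    · exact map_add _ _ _

theorem toZMod_natCast_p : PadicInt.toZMod (p := p) (p : ℤ_[p]) = 0 := by
  rw [map_natCast]
  exact CharP.cast_eq_zero (ZMod p) p

theorem toZMod_eq_zero {z : ℤ_[p]} (h : PadicInt.toZMod z = 0) : ∃ y, z = (p : ℤ_[p]) * y := by
  have h1 : z ∈ RingHom.ker (PadicInt.toZMod (p := p)) := h
  rw [PadicInt.ker_toZMod, PadicInt.maximalIdeal_eq_span_p, Ideal.mem_span_singleton] at h1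
  exact h1

theorem toZMod_surj : Function.Surjective (PadicInt.toZMod (p := p)) :=
  ZMod.ringHom_surjective _

theorem pr_surj (p : ℕ) [Fact p.Prime] (j m : ℕ) : Function.Surjective (pr p j m) := by
  rintro ⟨a, k⟩
  choose y hy using fun i => toZMod_surj (p := p) (k i)
  exact ⟨Sum.elim a y, Prod.ext rfl (funext hy)⟩

theorem ker_pr_le {j m E : ℕ} {Γ : AddSubgroup (Fin j ⊕ Fin m → ℤ_[p])}
    (hΓ : Γ ∈ GamF p j m E) : (pr p j m).ker ≤ Γ := by
  classical
  intro x hx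
  rw [AddMonoidHom.mem_ker] at hx
  have h1 : ∀ i, x (Sum.inl i) = 0 := fun i => congrFun (congrArg Prod.fst hx) i
  have h2 : ∀ i, ∃ y, x (Sum.inr i) = (p : ℤ_[p]) * y :=
    fun i => toZMod_eq_zero (congrFun (congrArg Prod.snd hx) i)
  choose y hy using h2
  have h3 : x = ∑ i : Fin m, y i • (p • (Pi.single (Sum.inr i) (1 : ℤ_[p]) :
      Fin j ⊕ Fin m → ℤ_[p])) := by
    funext i
    rw [Finset.sum_apply]
    cases i with
    | inl i =>
      rw [h1 i]
      symm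
      apply Finset.sum_eq_zero
      intro k _
      rw [Pi.smul_apply, Pi.smul_apply, Pi.single_eq_of_ne (by simp)]
      simp
    | inr i =>
      rw [hy i, Finset.sum_eq_single i]
      · rw [Pi.smul_apply, Pi.smul_apply, Pi.single_eq_same, nsmul_eq_mul, smul_eq_mul, mul_one,
          mul_comm]
      · intro k _ hk
        rw [Pi.smul_apply, Pi.smul_apply, Pi.single_eq_of_ne]
        · simp
        · intro h
          exact hk (Sum.inr_injective h).symm
      · intro h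
        exact absurd (Finset.mem_univ i) h
  rw [h3]
  refine Γ.sum_mem fun i _ => ?_
  exact smul_mem Γ E hΓ.1.2.2 _ (hΓ.2 i)

theorem GamF_eq (p : ℕ) [Fact p.Prime] (j m E : ℕ) :
    GamF p j m E = (fun G => AddSubgroup.comap (pr p j m) G) ''
      {G | G ∈ GG p j m ∧ G.index = p ^ E} := by
  classical
  ext Γ
  constructor
  · intro hΓ
    have hk := ker_pr_le hΓ
    have hc : (Γ.map (pr p j m)).comap (pr p j m) = Γ := by
      rw [AddSubgroup.comap_map_eq]
      exact sup_eq_left.2 hk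
    refine ⟨Γ.map (pr p j m), ⟨⟨⟨1, hΓ.1.1, ?_⟩, ?_⟩, ?_⟩, hc⟩
    · refine Prod.ext rfl ?_
      funext i
      exact map_one _
    · rintro a ⟨x, hx, rfl⟩ b ⟨y, hy, rfl⟩
      refine ⟨p • (x * y), hΓ.1.2.1 x hx y hy, ?_⟩
      refine Prod.ext rfl ?_
      funext i
      change PadicInt.toZMod ((p • (x * y)) (Sum.inr i)) = 0
      rw [Pi.smul_apply, nsmul_eq_mul, map_mul, toZMod_natCast_p, zero_mul]
    · rw [← AddSubgroup.index_comap_of_surjective _ (pr_surj p j m), hc]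
      exact hΓ.1.2.2
  · rintro ⟨G, ⟨⟨h1, h2⟩, h3⟩, rfl⟩
    refine ⟨⟨?_, ?_, ?_⟩, ?_⟩
    · rw [AddSubgroup.mem_comap]
      have : pr p j m 1 = 1 := by
        refine Prod.ext rfl ?_
        funext i
        exact map_one _
      rw [this]
      exact h1
    · intro a ha b hb
      rw [AddSubgroup.mem_comap] at ha hb ⊢
      have := h2 _ ha _ hb
      have h4 : pr p j m (p • (a * b)) = (p • ((pr p j m a).1 * (pr p j m b).1), 0) := by
        refine Prod.ext rfl ?_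
        funext i
        change PadicInt.toZMod ((p • (a * b)) (Sum.inr i)) = 0
        rw [Pi.smul_apply, nsmul_eq_mul, map_mul, toZMod_natCast_p, zero_mul]
      rw [h4]
      exact this
    · rw [AddSubgroup.index_comap_of_surjective _ (pr_surj p j m)]
      exact h3
    · intro i
      rw [AddSubgroup.mem_comap]
      have h4 : pr p j m (p • (Pi.single (Sum.inr i) (1 : ℤ_[p]) : Fin j ⊕ Fin m → ℤ_[p])) = 0 := by
        refine Prod.ext ?_ ?_
        · funext k
          change (p • (Pi.single (Sum.inr i) (1 : ℤ_[p]) : Fin j ⊕ Fin m → ℤ_[p])) (Sum.inl k) = 0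
          rw [Pi.smul_apply, Pi.single_eq_of_ne (by simp)]
          simp
        · funext k
          change PadicInt.toZMod ((p • (Pi.single (Sum.inr i) (1 : ℤ_[p]) :
            Fin j ⊕ Fin m → ℤ_[p])) (Sum.inr k)) = 0
          rw [Pi.smul_apply, nsmul_eq_mul, map_mul, toZMod_natCast_p, zero_mul]
      rw [h4]
      exact G.zero_mem

theorem ncard_GamF (p : ℕ) [Fact p.Prime] (j m E : ℕ) :
    (GamF p j m E).ncard = {G | G ∈ GG p j m ∧ G.index = p ^ E}.ncard := by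
  rw [GamF_eq, Set.ncard_image_of_injective _ (AddSubgroup.comap_injective (pr_surj p j m))]

theorem finite_GG (p : ℕ) [Fact p.Prime] (j m E : ℕ) :
    {G | G ∈ GG p j m ∧ G.index = p ^ E}.Finite := by
  have h1 : (GamF p j m E).Finite :=
    (Gam_finite p (Fin j ⊕ Fin m) E).subset fun Γ h => h.1
  rw [GamF_eq] at h1
  exact Set.Finite.of_finite_image h1 (AddSubgroup.comap_injective (pr_surj p j m)).injOn

/-- subspaces of codimension `δ` -/
def XS (p : ℕ) [Fact p.Prime] (m δ : ℕ) : Set (Submodule (ZMod p) (Fin m → ZMod p)) :=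
  {X | Module.finrank (ZMod p) X + δ = m}

theorem finite_sub (p : ℕ) [hp : Fact p.Prime] (m : ℕ) :
    Finite (Submodule (ZMod p) (Fin m → ZMod p)) := by
  have : NeZero p := ⟨hp.out.ne_zero⟩
  exact Finite.of_injective (fun X => (X : Set (Fin m → ZMod p))) SetLike.coe_injective

/-- an additive subgroup of `𝔽_p^m` as a subspace -/
def toSub {m : ℕ} (Y : AddSubgroup (Fin m → ZMod p)) : Submodule (ZMod p) (Fin m → ZMod p) :=
  AddSubgroup.toZModSubmodule p Y

theorem toSub_to {m : ℕ} (Y : AddSubgroup (Fin m → ZMod p)) : (toSub Y).toAddSubgroup = Y := rfl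

theorem codim_ex {m : ℕ} (X : Submodule (ZMod p) (Fin m → ZMod p)) :
    Module.finrank (ZMod p) X + (m - Module.finrank (ZMod p) X) = m := by
  have h1 := Submodule.finrank_le X
  rw [Module.finrank_fin_fun] at h1
  omega

theorem index_toSub {m : ℕ} (Y : AddSubgroup (Fin m → ZMod p)) :
    Y.index = p ^ (m - Module.finrank (ZMod p) (toSub Y)) := by
  have h := index_sub (toSub Y) _ (codim_ex (toSub Y))
  rw [toSub_to] at h
  exact h

end A5aAux

open A5aAux

theorem card_GamF (p : ℕ) [Fact p.Prime] (j m E : ℕ) (hj : 1 ≤ j) :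
    ((GamF p j m E).ncard : ℚ) = ∑ δ ∈ range (E + 1), gb p m δ * Hs p j (E - δ) δ := by
  classical
  have hp := Fact.out (p := p.Prime)
  have hfs := finite_sub p m
  rw [ncard_GamF, Set.ncard_eq_toFinset_card _ (finite_GG p j m E)]
  set S := (finite_GG p j m E).toFinset with hS
  let f1 : AddSubgroup ((Fin j → ℤ_[p]) × (Fin m → ZMod p)) → ℕ := fun G =>
    m - Module.finrank (ZMod p) (toSub (G.comap (AddMonoidHom.inr _ _)))
  have hidx : ∀ G : AddSubgroup ((Fin j → ℤ_[p]) × (Fin m → ZMod p)),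
      G.index = (G.map (AddMonoidHom.fst _ _)).index * p ^ (f1 G) := by
    intro G
    rw [index_eq G, index_toSub]
  have hmem : ∀ G, G ∈ S ↔ G ∈ GG p j m ∧ G.index = p ^ E := by
    intro G
    rw [hS, Set.Finite.mem_toFinset]
    rfl
  have hle : ∀ G ∈ S, f1 G ≤ E := by
    intro G hG
    rw [hmem] at hG
    have h1 := hidx G
    rw [hG.2] at h1
    exact (Nat.pow_dvd_pow_iff_le_right hp.one_lt).1 ⟨_, by rw [h1, mul_comm]⟩
  have hmaps : Set.MapsTo f1 (S : Set _) (range (E + 1) : Set ℕ) := by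
    intro G hG
    have := hle G hG
    simp only [coe_range, Set.mem_Iio]
    omega
  rw [Finset.card_eq_sum_card_fiberwise hmaps]
  push_cast
  refine Finset.sum_congr rfl fun δ hδ => ?_
  rw [Finset.mem_range] at hδ
  let f2 : AddSubgroup ((Fin j → ℤ_[p]) × (Fin m → ZMod p)) →
      AddSubgroup (Fin j → ℤ_[p]) × Submodule (ZMod p) (Fin m → ZMod p) := fun G =>
    (G.map (AddMonoidHom.fst _ _), toSub (G.comap (AddMonoidHom.inr _ _)))
  have hfG := Gam_finite p (Fin j) (E - δ)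
  have hfX : (XS p m δ).Finite := Set.toFinite _
  have hmaps2 : Set.MapsTo f2 ((S.filter fun G => f1 G = δ : Finset _) : Set _)
      ((hfG.toFinset ×ˢ hfX.toFinset : Finset _) : Set _) := by
    intro G hG
    rw [Finset.mem_coe, Finset.mem_filter] at hG
    have h0 := hidx G
    have h1 := (hmem G).1 hG.1
    rw [h1.2, hG.2] at h0
    rw [Finset.mem_coe, Finset.mem_product, Set.Finite.mem_toFinset, Set.Finite.mem_toFinset]
    refine ⟨⟨⟨1, h1.1.1, rfl⟩, ?_, ?_⟩, ?_⟩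
    · rintro _ ⟨x, hx, rfl⟩ _ ⟨y, hy, rfl⟩
      exact ⟨_, h1.1.2 x hx y hy, rfl⟩
    · have h2 : p ^ E = p ^ (E - δ) * p ^ δ := by
        rw [← pow_add, Nat.sub_add_cancel (by omega)]
      rw [h2] at h0
      exact (Nat.eq_of_mul_eq_mul_right (pow_pos hp.pos δ) h0).symm
    · change Module.finrank (ZMod p) (toSub (G.comap (AddMonoidHom.inr _ _))) + δ = m
      have := codim_ex (toSub (G.comap (AddMonoidHom.inr (Fin j → ℤ_[p]) (Fin m → ZMod p))))
      have h3 : f1 G = δ := hG.2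
      change m - Module.finrank (ZMod p) (toSub (G.comap (AddMonoidHom.inr _ _))) = δ at h3
      omega
  rw [Finset.card_eq_sum_card_fiberwise hmaps2]
  push_cast
  rw [Finset.sum_product]
  have hX : ((hfX.toFinset.card : ℕ) : ℚ) = gb p m δ := by
    rw [← card_codim p m δ, ← Set.ncard_eq_toFinset_card _ hfX]
    rfl
  have hH : Hs p j (E - δ) δ = ∑ Γ ∈ hfG.toFinset, ((qn Γ : ℚ) / p) ^ δ :=
    finsum_mem_eq_finite_toFinset_sum _ hfG
  rw [hH, Finset.mul_sum]
  refine Finset.sum_congr rfl fun Γ hΓ => ?_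
  rw [Set.Finite.mem_toFinset] at hΓ
  rw [← hX, ← nsmul_eq_mul, ← Finset.sum_const]
  refine Finset.sum_congr rfl fun X hX' => ?_
  rw [Set.Finite.mem_toFinset] at hX'
  rw [← card_fiber hj hΓ X δ hX', ← Set.ncard_coe_finset]
  congr 2
  ext G
  rw [Finset.mem_coe, Finset.mem_filter, Finset.mem_filter, hmem]
  constructor
  · rintro ⟨⟨⟨h1, h2⟩, h3⟩, h4⟩
    have h5 : G.map (AddMonoidHom.fst _ _) = Γ := congrArg Prod.fst h4
    have h6 : toSub (G.comap (AddMonoidHom.inr _ _)) = X := congrArg Prod.snd h4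
    refine ⟨h1, h5, ?_⟩
    rw [← h6]
    rfl
  · rintro ⟨h1, h2, h3⟩
    have h6 : toSub (G.comap (AddMonoidHom.inr _ _)) = X := by
      rw [h3]
      rfl
    have h7 : f1 G = δ := by
      change m - Module.finrank (ZMod p) (toSub (G.comap (AddMonoidHom.inr _ _))) = δ
      rw [h6]
      have h8 : Module.finrank (ZMod p) X + δ = m := hX'
      omega
    refine ⟨⟨⟨h1, ?_⟩, h7⟩, ?_⟩
    · rw [hidx G, h2, h7, hΓ.2.2, ← pow_add, Nat.sub_add_cancel (by omega)]
    · exact Prod.ext h2 h6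

theorem card_GamF_zero (p : ℕ) [Fact p.Prime] (m E : ℕ) (hm : 1 ≤ m) :
    ((GamF p 0 m E).ncard : ℚ) = gb p (m - 1) E := by
  classical
  have hp := Fact.out (p := p.Prime)
  rw [← card_codim_one p m E hm, ncard_GamF, ← Nat.card_coe_set_eq]
  congr 1
  have hall : ∀ x y : Fin 0 → ℤ_[p], x = y := fun x y => funext fun i => i.elim0
  refine Nat.card_congr
    { toFun := fun G => ⟨toSub (G.1.comap (AddMonoidHom.inr _ _)), ?_, ?_⟩
      invFun := fun X => ⟨X.1.toAddSubgroup.comap (AddMonoidHom.snd _ _), ⟨?_, ?_⟩, ?_⟩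
      left_inv := ?_
      right_inv := ?_ }
  · have h1 := index_eq G.1
    have h2 := codim_ex (toSub (G.1.comap (AddMonoidHom.inr (Fin 0 → ℤ_[p]) (Fin m → ZMod p))))
    have h4 : (G.1.map (AddMonoidHom.fst _ _)).index = 1 := by
      rw [AddSubgroup.index_eq_one, eq_top_iff]
      intro x _
      rw [hall x 0]
      exact AddSubgroup.zero_mem _
    rw [h4, one_mul, index_toSub, G.2.2] at h1
    have h5 := Nat.pow_right_injective hp.two_le h1
    omega
  · have h1 := G.2.1.1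
    have : ((0, 1) : (Fin 0 → ℤ_[p]) × (Fin m → ZMod p)) = 1 := Prod.ext (hall _ _) rfl
    rw [← this] at h1
    exact h1
  · exact X.2.2
  · intro a _ b _
    exact X.1.zero_mem
  · rw [AddSubgroup.index_comap_of_surjective]
    · exact index_sub X.1 _ X.2.1
    · intro k
      exact ⟨(0, k), rfl⟩
  · intro G
    apply Subtype.ext
    ext x
    have : ((0, x.2) : (Fin 0 → ℤ_[p]) × (Fin m → ZMod p)) = x := Prod.ext (hall _ _) rfl
    constructor
    · intro h
      rw [← this]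
      exact h
    · intro h
      rw [← this] at h
      exact h
  · intro X
    apply Subtype.ext
    ext x
    exact Iff.rfl

end Pool.Agent.T2H70.SR
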