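import Pool.Agent.T2H70.SR.A1
import Pool.Agent.T2H70.SR.A4
import Pool.Agent.T2H70.SR.A5a

set_option autoImplicit false

/-!
# Package A6: the sums `Hs` are rational if all counts of irreducible subrings are

Fix `E ≥ 5`. For `n ≥ 2E + 1` and a prime `p ≥ 5`, `incl_excl`, `card_GamF`, `card_GamF_zero` write `#Gam(n, E)` as a combination of
`choose n k * p^(i n)`; `extract` shows that the coefficients are rational, binomial inversion and descending induction on `δ`
give the claim.
-/

namespace Pool.Agent.T2H70.SR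

open Finset
open scoped BigOperators

/-- coefficients of the Gaussian binomial coefficient as a polynomial in `p^m` -/
noncomputable def bb : ℕ → ℕ → ℕ → ℚ
  | 0, i, _ => if i = 0 then 1 else 0
  | δ + 1, i, p => ((if i = 0 then 0 else bb δ (i - 1) p / (p : ℚ) ^ δ) - bb δ i p) /
      ((p : ℚ) ^ (δ + 1) - 1)

theorem pow_ne {p : ℕ} (hp : p.Prime) (δ : ℕ) : (p : ℚ) ^ (δ + 1) - 1 ≠ 0 := by
  have h2 : (2 : ℚ) ≤ p := by exact_mod_cast hp.two_le
  have : (1 : ℚ) < (p : ℚ) ^ (δ + 1) := one_lt_pow₀ (by linarith) (by omega)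
  linarith

theorem bb_rat (δ : ℕ) : ∀ i, IsRat (bb δ i) := by
  induction δ with
  | zero =>
    intro i
    exact (IsRat.const (if i = 0 then 1 else 0)).congr (by intro p _ _; rfl)
  | succ δ ih =>
    intro i
    have h1 : IsRat (fun p : ℕ => ((if i = 0 then 0 else bb δ (i - 1) p / (p : ℚ) ^ δ) - bb δ i p) /
      ((p : ℚ) ^ (δ + 1) - 1)) := by
      refine IsRat.div (IsRat.sub ?_ (ih i)) ((IsRat.id.pow (δ + 1)).sub (IsRat.const 1)) ?_
      · by_cases hi : i = 0
        · simp only [hi, if_true]
          exact IsRat.const 0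
        · simp only [hi, if_false]
          refine IsRat.div (ih _) (IsRat.id.pow δ) ?_
          intro p hp _
          have : (p : ℚ) ≠ 0 := by exact_mod_cast hp.ne_zero
          positivity
      · intro p hp _
        exact pow_ne hp δ
    exact h1.congr (by intro p _ _; rfl)

theorem bb_big (δ : ℕ) : ∀ i p, δ < i → bb δ i p = 0 := by
  induction δ with
  | zero =>
    intro i p hi
    simp [bb, show i ≠ 0 by omega]
  | succ δ ih =>
    intro i p hi
    have h0 : i ≠ 0 := by omega
    simp only [bb, h0, if_false]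
    rw [ih (i - 1) p (by omega), ih i p (by omega)]
    simp

theorem bb_top {p : ℕ} (hp : p.Prime) (δ : ℕ) : bb δ δ p ≠ 0 := by
  induction δ with
  | zero => simp [bb]
  | succ δ ih =>
    have h0 : (p : ℚ) ≠ 0 := by exact_mod_cast hp.ne_zero
    simp only [bb, Nat.add_eq_zero_iff, one_ne_zero, and_false, if_false, Nat.add_sub_cancel]
    rw [bb_big δ (δ + 1) p (by omega), sub_zero]
    exact div_ne_zero (div_ne_zero ih (by positivity)) (pow_ne hp δ)

theorem gb_eq (p m δ D : ℕ) (hD : δ ≤ D) :
    gb p m δ = ∑ i ∈ range (D + 1), bb δ i p * ((p : ℚ) ^ m) ^ i := by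
  induction δ generalizing D with
  | zero =>
    unfold gb
    rw [Finset.sum_eq_single 0]
    · simp [bb]
    · intro i _ hi
      simp [bb, hi]
    · intro h
      simp at h
  | succ δ ih =>
    obtain ⟨D, rfl⟩ : ∃ D', D = D' + 1 := ⟨D - 1, by omega⟩
    have e : gb p m (δ + 1) = gb p m δ * (((p : ℚ) ^ m / (p : ℚ) ^ δ - 1) / ((p : ℚ) ^ (δ + 1) - 1)) := by
      unfold gb
      rw [Finset.prod_range_succ]
    rw [e]
    have h1 : ∑ i ∈ range (D + 1 + 1), bb (δ + 1) i p * ((p : ℚ) ^ m) ^ i =
        ((∑ i ∈ range (D + 1 + 1), (if i = 0 then 0 else bb δ (i - 1) p / (p : ℚ) ^ δ) *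
          ((p : ℚ) ^ m) ^ i) - ∑ i ∈ range (D + 1 + 1), bb δ i p * ((p : ℚ) ^ m) ^ i) /
          ((p : ℚ) ^ (δ + 1) - 1) := by
      rw [← Finset.sum_sub_distrib, Finset.sum_div]
      apply Finset.sum_congr rfl
      intro i _
      simp only [bb]
      ring
    rw [h1, ← ih (D + 1) (by omega), Finset.sum_range_succ' _ (D + 1)]
    have h2 : ∑ i ∈ range (D + 1), (if i + 1 = 0 then 0 else bb δ (i + 1 - 1) p / (p : ℚ) ^ δ) *
          ((p : ℚ) ^ m) ^ (i + 1) = gb p m δ * ((p : ℚ) ^ m / (p : ℚ) ^ δ) := by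
      rw [ih D (by omega), Finset.sum_mul]
      apply Finset.sum_congr rfl
      intro i _
      simp only [Nat.add_eq_zero_iff, one_ne_zero, and_false, if_false, Nat.add_sub_cancel]
      ring
    rw [h2]
    simp only [if_true, zero_mul, add_zero]
    ring

/-- the coefficients of `p^(i n)` in `#GamF(j, n-j, E)` -/
noncomputable def cf (E j i p : ℕ) : ℚ :=
  if j = 0 then bb E i p / (p : ℚ) ^ i
  else (∑ δ ∈ range (E + 1), bb δ i p * cHs j (E - δ) δ p) / (p : ℚ) ^ (j * i)

theorem pow_sub_eq {p : ℕ} (hp : p.Prime) {n j : ℕ} (h : j ≤ n) (i : ℕ) :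
    ((p : ℚ) ^ (n - j)) ^ i = (p : ℚ) ^ (i * n) / (p : ℚ) ^ (j * i) := by
  have h0 : (p : ℚ) ≠ 0 := by exact_mod_cast hp.ne_zero
  rw [eq_div_iff (by positivity), ← pow_mul, ← pow_add]
  congr 1
  obtain ⟨k, rfl⟩ : ∃ k, n = j + k := ⟨n - j, by omega⟩
  rw [show j + k - j = k by omega]
  ring

theorem GamF_exp (E : ℕ) (p : ℕ) [hp : Fact p.Prime] (j n : ℕ) (hn : j < n) :
    ((GamF p j (n - j) E).ncard : ℚ) = ∑ i ∈ range (E + 1), (p : ℚ) ^ (i * n) * cf E j i p := by
  rcases Nat.eq_zero_or_pos j with rfl | hj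
  · rw [card_GamF_zero p (n - 0) E (by omega), gb_eq p _ E E le_rfl]
    apply Finset.sum_congr rfl
    intro i _
    rw [show n - 0 - 1 = n - 1 by omega, pow_sub_eq hp.out (by omega)]
    simp only [cf, if_true, one_mul]
    ring
  · rw [card_GamF p j (n - j) E hj]
    have h1 : ∀ δ ∈ range (E + 1), gb p (n - j) δ * Hs p j (E - δ) δ =
        ∑ i ∈ range (E + 1), (p : ℚ) ^ (i * n) / (p : ℚ) ^ (j * i) *
          (bb δ i p * cHs j (E - δ) δ p) := by
      intro δ hδ
      rw [gb_eq p _ δ E (by simp at hδ; omega), Finset.sum_mul]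
      apply Finset.sum_congr rfl
      intro i _
      rw [pow_sub_eq hp.out (by omega)]
      unfold cHs
      rw [lift_apply]
      ring
    rw [Finset.sum_congr rfl h1, Finset.sum_comm]
    apply Finset.sum_congr rfl
    intro i _
    rw [← Finset.mul_sum]
    simp only [cf, show j ≠ 0 by omega, if_false]
    ring

theorem isRat_Hs (E : ℕ) (hE : 5 ≤ E) (h : ∀ n, 1 ≤ n → IsRat (cGam n E)) :
    ∀ δ ≤ E, IsRat (cHs 10 (E - δ) δ) := by
  -- the coefficients
  have h1 : ∀ k < 2 * E + 1, ∀ i < E + 1,
      IsRat (fun p => ∑ j ∈ range (k + 1), (-1) ^ (k - j) * (k.choose j : ℚ) * cf E j i p) := by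
    apply extract (2 * E + 1) (E + 1) (2 * E + 1) (fun n p => cGam n E p)
      (fun k i p => ∑ j ∈ range (k + 1), (-1) ^ (k - j) * (k.choose j : ℚ) * cf E j i p)
    · intro n hn
      exact h n (by omega)
    · intro n hn p hp _
      have : Fact p.Prime := ⟨hp⟩
      have e : cGam n E p = ((Gam p (Fin n) E).ncard : ℚ) := lift_apply _ p
      rw [e, incl_excl p n E (by omega)]
      apply Finset.sum_congr rfl
      intro k hk
      rw [mem_range] at hk
      have e2 : ∑ j ∈ range (k + 1), (-1) ^ (k - j) * (k.choose j : ℚ) *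
          ((GamF p j (n - j) E).ncard : ℚ) = ∑ i ∈ range (E + 1), (p : ℚ) ^ (i * n) *
            ∑ j ∈ range (k + 1), (-1) ^ (k - j) * (k.choose j : ℚ) * cf E j i p := by
        have e3 : ∀ j ∈ range (k + 1), (-1 : ℚ) ^ (k - j) * (k.choose j : ℚ) *
          ((GamF p j (n - j) E).ncard : ℚ) = ∑ i ∈ range (E + 1), (p : ℚ) ^ (i * n) *
            ((-1) ^ (k - j) * (k.choose j : ℚ) * cf E j i p) := by
          intro j hj
          rw [mem_range] at hj
          rw [GamF_exp E p j n (by omega), Finset.mul_sum]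
          apply Finset.sum_congr rfl
          intro i _
          ring
        rw [Finset.sum_congr rfl e3, Finset.sum_comm]
        apply Finset.sum_congr rfl
        intro i _
        rw [Finset.mul_sum]
      rw [e2, Finset.mul_sum]
      apply Finset.sum_congr rfl
      intro i _
      ring
  have h2 : ∀ i < E + 1, IsRat (cf E 10 i) := by
    intro i hi
    have h3 : IsRat (fun p => ∑ j ∈ range (10 + 1), ((10 : ℕ).choose j : ℚ) *
        ∑ l ∈ range (j + 1), (-1) ^ (j - l) * (j.choose l : ℚ) * cf E l i p) := by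
      apply IsRat.sum
      intro j hj
      rw [mem_range] at hj
      exact (IsRat.const _).mul (h1 j (by omega) i hi)
    refine h3.congr ?_
    intro p _ _
    exact (binom_inv (fun j => cf E j i p)
      (fun k => ∑ l ∈ range (k + 1), (-1) ^ (k - l) * (k.choose l : ℚ) * cf E l i p) 10
      (fun k _ => rfl) 10 le_rfl).symm
  -- descending induction
  have h4 : ∀ s, ∀ δ, δ ≤ E → E ≤ δ + s → IsRat (cHs 10 (E - δ) δ) := by
    intro s
    induction s with
    | zero =>
      intro δ h5 h6
      have h7 : δ = E := by omega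
      subst h7
      have h8 := ((h2 δ (by omega)).mul (IsRat.id.pow (10 * δ))).div (bb_rat δ δ)
        (fun p hp _ => bb_top hp δ)
      refine h8.congr ?_
      intro p hp _
      have h0 : (p : ℚ) ≠ 0 := by exact_mod_cast hp.ne_zero
      rw [div_eq_iff (bb_top hp δ)]
      simp only [cf, show (10 : ℕ) ≠ 0 by norm_num, if_false]
      rw [div_mul_cancel₀ _ (by positivity), Finset.sum_range_succ, Finset.sum_eq_zero]
      · ring
      · intro i hi
        rw [mem_range] at hi
        rw [bb_big i δ p hi]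
        ring
    | succ s ih =>
      intro δ h5 h6
      have h8 := (((h2 δ (by omega)).mul (IsRat.id.pow (10 * δ))).sub
        (IsRat.sum ((range (E + 1)).filter (fun i => δ < i))
          (f := fun i p => bb i δ p * cHs 10 (E - i) i p) (by
            intro i hi
            simp only [mem_filter, mem_range] at hi
            exact (bb_rat i δ).mul (ih i (by omega) (by omega))))).div (bb_rat δ δ)
        (fun p hp _ => bb_top hp δ)
      refine h8.congr ?_
      intro p hp _
      have h0 : (p : ℚ) ≠ 0 := by exact_mod_cast hp.ne_zero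
      rw [div_eq_iff (bb_top hp δ)]
      simp only [cf, show (10 : ℕ) ≠ 0 by norm_num, if_false]
      rw [div_mul_cancel₀ _ (by positivity)]
      have h9 : ∑ i ∈ range (E + 1), bb i δ p * cHs 10 (E - i) i p =
          cHs 10 (E - δ) δ p * bb δ δ p +
            ∑ i ∈ (range (E + 1)).filter (fun i => δ < i), bb i δ p * cHs 10 (E - i) i p := by
        rw [Finset.sum_filter]
        have h10 : ∀ i ∈ range (E + 1), bb i δ p * cHs 10 (E - i) i p =
            (if i = δ then cHs 10 (E - δ) δ p * bb δ δ p else 0) +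
              if δ < i then bb i δ p * cHs 10 (E - i) i p else 0 := by
          intro i _
          rcases lt_trichotomy i δ with h | h | h
          · rw [bb_big i δ p h]
            simp [show i ≠ δ by omega, show ¬ δ < i by omega]
          · subst h
            simp
            ring
          · simp [show i ≠ δ by omega, h]
        rw [Finset.sum_congr rfl h10, Finset.sum_add_distrib]
        congr 1
        rw [Finset.sum_ite_eq' (range (E + 1)) δ]
        simp [show δ < E + 1 by omega]
      rw [h9]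
      ring
  intro δ hδ
  exact h4 (E - δ) δ hδ (by omega)

end Pool.Agent.T2H70.SR
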