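import Pool.Agent.T2H70.SR.A1
import Pool.Agent.T2H70.SR.A4

set_option autoImplicit false

/-!
# Package A7: embedding dimension three (Vandermonde)

For `Γ ∈ Gam p (Fin 10) 11`: `p Γ ⊆ sq Γ ⊆ Γ` (as `1 ∈ Γ`, resp. `p ΓΓ ⊆ Γ`), `Γ ≅ ℤ_p^10`, so `qn Γ = [Γ : sq Γ] ∈ {p^0, ..., p^10}`
(it divides `[Γ : pΓ] = p^10`; this index can be computed by `[R^10 : pΓ] = [R^10 : Γ] p^10`).
So `Hs p 10 11 δ = ∑_{ε ≤ 10} a_ε (p^(ε-1))^δ` where `a_ε` is the number of `Γ` with `qn Γ = p^ε`.
With the eleven values `δ = 0, ..., 10` and the Vandermonde matrix of the eleven distinct numbers `p^(ε-1)` (elimination one at a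
time) the number `a_3` is rational.
-/

namespace Pool.Agent.T2H70.SR

open Finset
open scoped BigOperators

/-- elimination: power sums with distinct nodes determine the weights rationally -/
theorem A7_vander (s : Finset ℕ) : ∀ (F : ℕ → ℕ → ℚ) (a : ℕ → ℕ → ℚ), (∀ δ, IsRat (F δ)) →
    (∀ δ p : ℕ, p.Prime → 5 ≤ p → F δ p = ∑ ε ∈ s, a ε p * ((p : ℚ) ^ ε / p) ^ δ) →
    ∀ ε ∈ s, IsRat (a ε) := by
  induction s using Finset.induction_on with
  | empty => intro F a _ _ ε hε; simp at hε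
  | insert e s he ih =>
    intro F a hF h
    have hx : ∀ ε, IsRat (fun p => (p : ℚ) ^ ε / p) := by
      intro ε
      refine IsRat.div (IsRat.id.pow ε) IsRat.id ?_
      intro p hp _
      exact_mod_cast hp.ne_zero
    have h1 : ∀ ε ∈ s, IsRat (fun p => a ε p * ((p : ℚ) ^ ε / p - (p : ℚ) ^ e / p)) := by
      apply ih (fun δ p => F (δ + 1) p - (p : ℚ) ^ e / p * F δ p)
      · intro δ
        exact (hF (δ + 1)).sub ((hx e).mul (hF δ))
      · intro δ p hp h5
        rw [h (δ + 1) p hp h5, h δ p hp h5, Finset.sum_insert he, Finset.sum_insert he, mul_add,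
          Finset.mul_sum]
        have : ∀ u v w z : ℚ, u = w → (u + v) - (w + z) = v - z := by
          intro u v w z huw; rw [huw]; ring
        rw [this _ _ _ _ (by ring), ← Finset.sum_sub_distrib]
        apply Finset.sum_congr rfl
        intro ε _
        ring
    have h2 : ∀ ε ∈ s, IsRat (a ε) := by
      intro ε hε
      refine (IsRat.div (h1 ε hε) ((hx ε).sub (hx e)) ?_).congr ?_
      · intro p hp h5
        have hp0 : (p : ℚ) ≠ 0 := by exact_mod_cast hp.ne_zero
        have hne : (p : ℚ) ^ ε ≠ (p : ℚ) ^ e := by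
          intro heq
          have h3 : p ^ ε = p ^ e := by exact_mod_cast heq
          have := Nat.pow_right_injective hp.two_le h3
          exact he (this ▸ hε)
        intro h0
        apply hne
        rw [← sub_div, div_eq_zero_iff] at h0
        rcases h0 with h0 | h0
        · exact sub_eq_zero.1 h0
        · exact absurd h0 hp0
      · intro p hp h5
        have hp0 : (p : ℚ) ≠ 0 := by exact_mod_cast hp.ne_zero
        have hne : (p : ℚ) ^ ε ≠ (p : ℚ) ^ e := by
          intro heq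
          have h3 : p ^ ε = p ^ e := by exact_mod_cast heq
          have := Nat.pow_right_injective hp.two_le h3
          exact he (this ▸ hε)
        have h0 : (p : ℚ) ^ ε / p - (p : ℚ) ^ e / p ≠ 0 := by
          intro h0
          apply hne
          rw [← sub_div, div_eq_zero_iff] at h0
          rcases h0 with h0 | h0
          · exact sub_eq_zero.1 h0
          · exact absurd h0 hp0
        field_simp
    intro ε hε
    rw [Finset.mem_insert] at hε
    rcases hε with rfl | hε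
    · refine ((hF 0).sub (IsRat.sum s h2)).congr ?_
      intro p hp h5
      rw [h 0 p hp h5, Finset.sum_insert he]
      simp
    · exact h2 ε hε

/-- the index of `p R^n` divides `p^n` -/
theorem A7_index_range (p : ℕ) [Fact p.Prime] (n : ℕ) :
    (AddMonoidHom.range (nsmulAddMonoidHom (α := Fin n → ℤ_[p]) p)).index ∣ p ^ n := by
  classical
  set f : (Fin n → ℤ_[p]) →+ (Fin n → ZMod p) :=
    { toFun := fun x i => PadicInt.toZMod (x i)
      map_zero' := by ext i; simp
      map_add' := by intro x y; ext i; simp } with hf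
  have hker : f.ker = AddMonoidHom.range (nsmulAddMonoidHom (α := Fin n → ℤ_[p]) p) := by
    ext x
    rw [AddMonoidHom.mem_ker, AddMonoidHom.mem_range]
    constructor
    · intro hx
      have h1 : ∀ i, ∃ y : ℤ_[p], x i = p * y := by
        intro i
        have h2 : PadicInt.toZMod (x i) = 0 := by
          have := congrFun hx i
          simpa [hf] using this
        have h3 : x i ∈ RingHom.ker (PadicInt.toZMod (p := p)) := by
          rw [RingHom.mem_ker]; exact h2
        rw [PadicInt.ker_toZMod, PadicInt.maximalIdeal_eq_span_p,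
          Ideal.mem_span_singleton] at h3
        exact h3
      choose y hy using h1
      refine ⟨y, ?_⟩
      ext i
      simp only [nsmulAddMonoidHom_apply, Pi.smul_apply]
      rw [hy i, nsmul_eq_mul]
    · rintro ⟨y, rfl⟩
      ext i
      simp [hf]
  rw [← hker, AddSubgroup.index_ker]
  have h1 : Nat.card f.range ∣ Nat.card (Fin n → ZMod p) := AddSubgroup.card_addSubgroup_dvd_card _
  have h2 : Nat.card (Fin n → ZMod p) = p ^ n := by
    rw [Nat.card_eq_fintype_card, Fintype.card_fun, ZMod.card, Fintype.card_fin]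
  rw [← h2]
  exact h1

theorem A7_qn (p : ℕ) [Fact p.Prime] (n E : ℕ) (Γ : AddSubgroup (Fin n → ℤ_[p]))
    (h : Γ ∈ Gam p (Fin n) E) : ∃ ε ∈ range (n + 1), qn Γ = p ^ ε := by
  obtain ⟨h1, h2, h3⟩ := h
  have hp : p.Prime := Fact.out
  set f := nsmulAddMonoidHom (α := Fin n → ℤ_[p]) p with hf
  have hinj : Function.Injective f := by
    intro x y hxy
    ext i
    have := congrFun hxy i
    simp only [hf, nsmulAddMonoidHom_apply, Pi.smul_apply, nsmul_eq_mul] at this
    have hp0 : (p : ℤ_[p]) ≠ 0 := by exact_mod_cast hp.ne_zero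
    rw [mul_left_cancel₀ hp0 this]
  have hle : Γ.map f ≤ Γ := by
    rintro _ ⟨x, hx, rfl⟩
    exact Γ.nsmul_mem hx p
  have hle2 : Γ.map f ≤ sq Γ := by
    rintro _ ⟨x, hx, rfl⟩
    apply AddSubgroup.subset_closure
    exact ⟨x, hx, 1, h1, by simp [hf]⟩
  have e1 : (Γ.map f).relIndex Γ * Γ.index = (Γ.map f).index := AddSubgroup.relIndex_mul_index hle
  have e2 : (Γ.map f).index = Γ.index * f.range.index := AddSubgroup.index_map_of_injective _ hinj
  have h0 : Γ.index ≠ 0 := by rw [h3]; exact pow_ne_zero _ hp.ne_zero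
  have e3 : (Γ.map f).relIndex Γ = f.range.index := by
    rw [e2, mul_comm] at e1
    exact Nat.eq_of_mul_eq_mul_left (Nat.pos_of_ne_zero h0) e1
  have e4 : qn Γ ∣ p ^ n := by
    refine dvd_trans ?_ (A7_index_range p n)
    rw [← hf, ← e3]
    unfold qn
    exact AddSubgroup.relIndex_dvd_of_le_left _ hle2
  obtain ⟨ε, hε, h4⟩ := (Nat.dvd_prime_pow hp).1 e4
  exact ⟨ε, by rw [mem_range]; omega, h4⟩

theorem isRat_E3 (h : ∀ δ, IsRat (cHs 10 11 δ)) : IsRat cE3 := by
  set a : ℕ → ℕ → ℚ := fun ε => lift fun p _ => (({Γ | Γ ∈ Gam p (Fin 10) 11 ∧ qn Γ = p ^ ε} :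
    Set (AddSubgroup (Fin 10 → ℤ_[p]))).ncard : ℚ) with ha
  refine A7_vander (range 11) (fun δ => cHs 10 11 δ) a h ?_ 3 (by simp)
  intro δ p hp h5
  have : Fact p.Prime := ⟨hp⟩
  have e1 : cHs 10 11 δ p = Hs p 10 11 δ := lift_apply _ p
  have e2 : ∀ ε, a ε p = (({Γ | Γ ∈ Gam p (Fin 10) 11 ∧ qn Γ = p ^ ε} :
    Set (AddSubgroup (Fin 10 → ℤ_[p]))).ncard : ℚ) := fun ε => lift_apply _ p
  classical
  have hfin := Gam_finite p (Fin 10) 11
  rw [e1, Hs, finsum_mem_eq_finite_toFinset_sum _ hfin]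
  have hmaps : ∀ Γ ∈ hfin.toFinset, Nat.log p (qn Γ) ∈ range 11 := by
    intro Γ hΓ
    rw [Set.Finite.mem_toFinset] at hΓ
    obtain ⟨ε, hε, h1⟩ := A7_qn p 10 11 Γ hΓ
    rw [h1, Nat.log_pow hp.one_lt]
    exact hε
  rw [← Finset.sum_fiberwise_of_maps_to hmaps]
  apply Finset.sum_congr rfl
  intro ε hε
  rw [e2]
  have e3 : ∀ Γ ∈ hfin.toFinset.filter (fun Γ => Nat.log p (qn Γ) = ε),
      ((qn Γ : ℚ) / p) ^ δ = ((p : ℚ) ^ ε / p) ^ δ := by
    intro Γ hΓ
    rw [Finset.mem_filter, Set.Finite.mem_toFinset] at hΓ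
    obtain ⟨ε', _, h1⟩ := A7_qn p 10 11 Γ hΓ.1
    have h2 := hΓ.2
    rw [h1, Nat.log_pow hp.one_lt] at h2
    rw [h1, h2]
    push_cast
    rfl
  rw [Finset.sum_congr rfl e3, Finset.sum_const, nsmul_eq_mul]
  congr 1
  have e4 : ({Γ | Γ ∈ Gam p (Fin 10) 11 ∧ qn Γ = p ^ ε} : Set (AddSubgroup (Fin 10 → ℤ_[p]))) =
      ((hfin.toFinset.filter (fun Γ => Nat.log p (qn Γ) = ε) :
        Finset (AddSubgroup (Fin 10 → ℤ_[p]))) : Set (AddSubgroup (Fin 10 → ℤ_[p]))) := by
    ext Γ
    rw [Finset.mem_coe, Finset.mem_filter, Set.Finite.mem_toFinset, Set.mem_setOf_eq]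
    constructor
    · rintro ⟨h1, h2⟩
      exact ⟨h1, by rw [h2, Nat.log_pow hp.one_lt]⟩
    · rintro ⟨h1, h2⟩
      refine ⟨h1, ?_⟩
      obtain ⟨ε', _, h3⟩ := A7_qn p 10 11 Γ h1
      rw [h3, Nat.log_pow hp.one_lt] at h2
      rw [h3, h2]
  rw [e4, Set.ncard_coe_finset]

end Pool.Agent.T2H70.SR
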