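import Pool.Agent.T2H70.SR.Defs

set_option autoImplicit false

/-!
# Package A8: `Γ ⊆ ℤ_p^10` of index `p^11` and embedding dimension 3

`R = ℤ_p`. Claim: `(p^3 - p)(p^3 - p^2) * #{Γ} = p^8 * N10 p`.

(a) Let `Γ` be such a lattice, `W ⊆ 𝔽_p^10` its reduction, `Γ² =` the span of all products `ab` (so `sq Γ = p Γ²`).
`[R^10 : pΓ²] = [R^10 : Γ][Γ : pΓ²] = p^14`, so `[R^10 : Γ²] = p^4`. `Γ ∩ pR^10 ⊇ pΓ²`, so `dim W ≤ 3`. The reduction of `Γ²` is
`W·W`, of dimension `≤ 6` (`W` contains `1`; `1, x, y, x², xy, y²`), so its codimension is `≥ 4`; as `[R^10:Γ²] = p^4` we get equality,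
`pR^10 ⊆ Γ²`, `dim W·W = 6`, `dim W = 3`, and `Γ ∩ pR^10 = pΓ²` (same index), where `Γ² = {x : x mod p ∈ W·W}`.
`Γ` is generated by lifts `1, x', y'` of a basis `1, x, y` of `W` and `pΓ²`; so `Γ²` is generated by the six monomials in `x', y'` of
degree `≤ 2` and `pΓ³`; as the six monomials are independent mod `p`, `Γ² ∩ pR = pΓ³` and so `Γ³ = R^10`, i.e. `W·W·W = 𝔽_p^10`.
(b) Conversely let `W ∋ 1`, `dim W = 3`, `W·W·W = 𝔽_p^10` (so the ten monomials of degree `≤ 3` in `x, y` are a basis of `𝔽_p^10` and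
`dim W·W = 6`). Let `M = {z ∈ R^10 : z mod p ∈ W·W}`. The lattices of (a) with reduction `W` are exactly the lattices `Γ` with
`Γ mod p = W`, `Γ ∩ pR^10 = pM`, `1 ∈ Γ`; there are `p^8` of them (`x', y'` are determined modulo `pM`, and
`pR^10 / pM ≅ 𝔽_p^10 / W·W` has `p^4` elements). [They satisfy `pΓ² ⊆ pM ⊆ Γ`; `Γ² ⊇ Γ·pM`, which contains modulo `p²` all of
`pR^10` because `W·(W·W) = 𝔽_p^10`, so `Γ² ⊇ pR^10` by Nakayama and `Γ² = M`; index and embedding dimension follow.]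
(c) The number of ordered pairs `(x, y)` with `1, x, y` a basis of `W` is `(p³-p)(p³-p²)`, and
pairs `(x,y)` of vectors in `𝔽_p^10` = 10-tuples of points of `𝔽_p²`; the ten monomials are independent iff no nonzero cubic vanishes
at the ten points.

It may be convenient to count directly the triples `(Γ, x, y)` with `x, y ∈ 𝔽_p^10`, `W = ⟨1, x, y⟩`.
-/

namespace Pool.Agent.T2H70.SR

open Finset
open scoped BigOperators

namespace A8

variable {p : ℕ} [Fact p.Prime]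

/-- reduction mod p -/
noncomputable def red (p : ℕ) [Fact p.Prime] : (Fin 10 → ℤ_[p]) →+* (Fin 10 → ZMod p) :=
  RingHom.pi fun i => (PadicInt.toZMod).comp (Pi.evalRingHom (fun _ => ℤ_[p]) i)

theorem red_apply (z : Fin 10 → ℤ_[p]) (i : Fin 10) : red p z i = PadicInt.toZMod (z i) := rfl

theorem red_surj : Function.Surjective (red p) := by
  intro v
  choose f hf using fun i => ZMod.ringHom_surjective (PadicInt.toZMod (p := p)) (v i)
  exact ⟨f, funext hf⟩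

theorem red_eq_zero (z : Fin 10 → ℤ_[p]) :
    red p z = 0 ↔ ∃ w, z = (p : Fin 10 → ℤ_[p]) * w := by
  constructor
  · intro h
    have h1 : ∀ i, ∃ w : ℤ_[p], z i = p * w := by
      intro i
      have h2 : PadicInt.toZMod (z i) = 0 := congrFun h i
      rw [← RingHom.mem_ker, PadicInt.ker_toZMod, PadicInt.maximalIdeal_eq_span_p,
        Ideal.mem_span_singleton] at h2
      exact h2
    choose w hw using h1
    exact ⟨w, funext fun i => by rw [hw i]; simp⟩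
  · rintro ⟨w, rfl⟩
    ext i
    rw [red_apply]
    simp

/-- multiplication by `p` -/
noncomputable def mp (p : ℕ) [Fact p.Prime] : (Fin 10 → ℤ_[p]) →+ (Fin 10 → ℤ_[p]) :=
  AddMonoidHom.mulLeft (p : Fin 10 → ℤ_[p])

theorem mp_apply (z : Fin 10 → ℤ_[p]) : mp p z = (p : Fin 10 → ℤ_[p]) * z := rfl

theorem mp_inj : Function.Injective (mp p) := by
  intro a b h
  funext i
  have h1 := congrFun h i
  rw [mp_apply, mp_apply] at h1
  have hp : (p : ℤ_[p]) ≠ 0 := by exact_mod_cast (Fact.out : p.Prime).ne_zero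
  simpa [hp] using h1

/-- the additive reduction map -/
noncomputable def rd (p : ℕ) [Fact p.Prime] : (Fin 10 → ℤ_[p]) →+ (Fin 10 → ZMod p) :=
  (red p).toAddMonoidHom

theorem rd_apply (z : Fin 10 → ℤ_[p]) : rd p z = red p z := rfl

theorem rd_surj : Function.Surjective (rd p) := red_surj

theorem mem_ker (z : Fin 10 → ℤ_[p]) :
    z ∈ (rd p).ker ↔ ∃ w, z = mp p w := by
  rw [AddMonoidHom.mem_ker, rd_apply, red_eq_zero]
  rfl

theorem range_mp : (mp p).range = (rd p).ker := by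
  ext z
  rw [mem_ker, AddMonoidHom.mem_range]
  exact ⟨fun ⟨w, h⟩ => ⟨w, h.symm⟩, fun ⟨w, h⟩ => ⟨w, h.symm⟩⟩

theorem card_FF : Nat.card (Fin 10 → ZMod p) = p ^ 10 := by
  rw [Nat.card_pi]; simp

theorem index_ker : (rd p).ker.index = p ^ 10 := by
  rw [AddSubgroup.index_ker, AddMonoidHom.range_eq_top.2 rd_surj]
  rw [AddSubgroup.card_top, card_FF]

theorem index_mp (N : AddSubgroup (Fin 10 → ℤ_[p])) :
    (N.map (mp p)).index = N.index * p ^ 10 := by
  rw [AddSubgroup.index_map_of_injective _ mp_inj, range_mp, index_ker]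

theorem rel_ker (Γ : AddSubgroup (Fin 10 → ℤ_[p])) :
    (rd p).ker.relIndex Γ = Nat.card (Γ.map (rd p)) := AddSubgroup.relIndex_ker _ _

/-! ### evaluations -/

/-- linear polynomials -/
def e3 (P : (Fin 10 → ZMod p) × (Fin 10 → ZMod p)) : (Fin 3 → ZMod p) →+ (Fin 10 → ZMod p) where
  toFun l := fun i => l 0 * P.1 i + l 1 * P.2 i + l 2
  map_zero' := by funext i; simp
  map_add' l m := by funext i; simp; ring

/-- quadratic polynomials -/
def e6 (P : (Fin 10 → ZMod p) × (Fin 10 → ZMod p)) : (Fin 6 → ZMod p) →+ (Fin 10 → ZMod p) where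
  toFun q := fun i => qd q (P.1 i, P.2 i)
  map_zero' := by funext i; simp [qd]
  map_add' l m := by funext i; simp [qd]; ring

/-- cubic polynomials -/
def e10 (P : (Fin 10 → ZMod p) × (Fin 10 → ZMod p)) : Co p →+ (Fin 10 → ZMod p) where
  toFun c := fun i => cub c (P.1 i, P.2 i)
  map_zero' := by funext i; simp [cub, form]
  map_add' l m := by funext i; simp [cub, form]; ring

variable (P : (Fin 10 → ZMod p) × (Fin 10 → ZMod p))

theorem e3_apply (l : Fin 3 → ZMod p) (i : Fin 10) :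
    e3 P l i = l 0 * P.1 i + l 1 * P.2 i + l 2 := rfl

theorem e6_apply (q : Fin 6 → ZMod p) (i : Fin 10) :
    e6 P q i = q 0 * P.1 i ^ 2 + q 1 * P.1 i * P.2 i + q 2 * P.2 i ^ 2 + q 3 * P.1 i
      + q 4 * P.2 i + q 5 := rfl

theorem e10_apply (c : Co p) (i : Fin 10) :
    e10 P c i = c 0 * P.1 i ^ 3 + c 1 * P.1 i ^ 2 * P.2 i + c 2 * P.1 i ^ 2
      + c 3 * P.1 i * P.2 i ^ 2 + c 4 * P.1 i * P.2 i + c 5 * P.1 i + c 6 * P.2 i ^ 3
      + c 7 * P.2 i ^ 2 + c 8 * P.2 i + c 9 := by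
  show cub c (P.1 i, P.2 i) = _
  simp [cub, form]

/-- padding -/
def pd3 (l : Fin 3 → ZMod p) : Fin 6 → ZMod p := ![0, 0, 0, l 0, l 1, l 2]

/-- padding -/
def pd6 (q : Fin 6 → ZMod p) : Co p := ![0, 0, q 0, 0, q 1, q 3, 0, q 2, q 4, q 5]

theorem e6_pd3 (l : Fin 3 → ZMod p) : e6 P (pd3 l) = e3 P l := by
  funext i
  rw [e6_apply, e3_apply]
  simp [pd3]

theorem e10_pd6 (q : Fin 6 → ZMod p) : e10 P (pd6 q) = e6 P q := by
  funext i
  rw [e10_apply, e6_apply]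
  simp [pd6]
  ring

theorem e3_mul_e3 (l m : Fin 3 → ZMod p) : e3 P l * e3 P m =
    e6 P ![l 0 * m 0, l 0 * m 1 + l 1 * m 0, l 1 * m 1, l 0 * m 2 + l 2 * m 0,
      l 1 * m 2 + l 2 * m 1, l 2 * m 2] := by
  funext i
  rw [Pi.mul_apply, e3_apply, e3_apply, e6_apply]
  simp
  ring

theorem e3_mul_e6 (l : Fin 3 → ZMod p) (q : Fin 6 → ZMod p) : e3 P l * e6 P q =
    e10 P ![l 0 * q 0, l 0 * q 1 + l 1 * q 0, l 0 * q 3 + l 2 * q 0, l 0 * q 2 + l 1 * q 1,
      l 0 * q 4 + l 1 * q 3 + l 2 * q 1, l 0 * q 5 + l 2 * q 3, l 1 * q 2,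
      l 1 * q 4 + l 2 * q 2, l 1 * q 5 + l 2 * q 4, l 2 * q 5] := by
  funext i
  rw [Pi.mul_apply, e3_apply, e6_apply, e10_apply]
  simp
  ring

theorem inj6_of (h : Function.Injective (e10 P)) : Function.Injective (e6 P) := by
  intro q r hqr
  have h1 : pd6 q = pd6 r := h (by rw [e10_pd6, e10_pd6, hqr])
  funext i
  fin_cases i
  · exact congrFun h1 2
  · exact congrFun h1 4
  · exact congrFun h1 7
  · exact congrFun h1 5
  · exact congrFun h1 8
  · exact congrFun h1 9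

theorem inj3_of (h : Function.Injective (e6 P)) : Function.Injective (e3 P) := by
  intro q r hqr
  have h1 : pd3 q = pd3 r := h (by rw [e6_pd3, e6_pd3, hqr])
  funext i
  fin_cases i
  · exact congrFun h1 3
  · exact congrFun h1 4
  · exact congrFun h1 5

theorem card_range {k : ℕ} (f : (Fin k → ZMod p) →+ (Fin 10 → ZMod p))
    (h : Function.Injective f) : Nat.card f.range = p ^ k := by
  have h1 : Nat.card f.range = Nat.card (Fin k → ZMod p) :=
    (Nat.card_congr (AddMonoidHom.ofInjective h).toEquiv).symm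
  rw [h1, Nat.card_pi]
  simp

theorem card_range_le {k : ℕ} (f : (Fin k → ZMod p) →+ (Fin 10 → ZMod p)) :
    Nat.card f.range ≤ p ^ k := by
  have h1 : Nat.card f.range ≤ Nat.card (Fin k → ZMod p) :=
    Nat.card_le_card_of_surjective f.rangeRestrict f.rangeRestrict_surjective
  refine h1.trans (le_of_eq ?_)
  rw [Nat.card_pi]
  simp

theorem inj_of_card {k : ℕ} (f : (Fin k → ZMod p) →+ (Fin 10 → ZMod p))
    (h : p ^ k ≤ Nat.card f.range) : Function.Injective f := by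
  have h1 : Nat.card (Fin k → ZMod p) = Nat.card f.range := by
    apply le_antisymm
    · refine le_trans (le_of_eq ?_) h
      rw [Nat.card_pi]
      simp
    · exact Nat.card_le_card_of_surjective f.rangeRestrict f.rangeRestrict_surjective
  have h2 : Function.Bijective f.rangeRestrict :=
    (Nat.bijective_iff_surjective_and_card _).2 ⟨f.rangeRestrict_surjective, h1⟩
  intro a b hab
  exact h2.1 (Subtype.ext hab)

theorem eq_of_index {G : Type} [AddCommGroup G] {H K : AddSubgroup G} (h : H ≤ K)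
    (hi : H.index = K.index) (h0 : K.index ≠ 0) : H = K := by
  apply le_antisymm h
  rw [← AddSubgroup.relIndex_eq_one]
  have h1 := AddSubgroup.relIndex_mul_index h
  rw [hi] at h1
  exact Nat.eq_of_mul_eq_mul_right (Nat.pos_of_ne_zero h0) (by rw [h1, one_mul])

/-! ### the square -/

/-- the span of the products -/
noncomputable def sq1 (Γ : AddSubgroup (Fin 10 → ℤ_[p])) : AddSubgroup (Fin 10 → ℤ_[p]) :=
  AddSubgroup.closure {x | ∃ a ∈ Γ, ∃ b ∈ Γ, x = a * b}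

theorem sq_eq (Γ : AddSubgroup (Fin 10 → ℤ_[p])) : sq Γ = (sq1 Γ).map (mp p) := by
  rw [sq, sq1, AddMonoidHom.map_closure]
  congr 1
  ext x
  constructor
  · rintro ⟨a, ha, b, hb, rfl⟩
    exact ⟨a * b, ⟨a, ha, b, hb, rfl⟩, by rw [mp_apply, nsmul_eq_mul]⟩
  · rintro ⟨_, ⟨a, ha, b, hb, rfl⟩, rfl⟩
    exact ⟨a, ha, b, hb, by rw [mp_apply, nsmul_eq_mul]⟩

theorem sq_le {Γ : AddSubgroup (Fin 10 → ℤ_[p])}
    (hm : ∀ a ∈ Γ, ∀ b ∈ Γ, p • (a * b) ∈ Γ) : sq Γ ≤ Γ := by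
  rw [sq, AddSubgroup.closure_le]
  rintro _ ⟨a, ha, b, hb, rfl⟩
  exact hm a ha b hb

theorem sq_le_ker (Γ : AddSubgroup (Fin 10 → ℤ_[p])) : sq Γ ≤ (rd p).ker := by
  rw [sq_eq, ← range_mp]
  rintro _ ⟨w, -, rfl⟩
  exact ⟨w, rfl⟩

/-- the preimage of the span of the quadratic monomials -/
noncomputable def MM (P : (Fin 10 → ZMod p) × (Fin 10 → ZMod p)) :
    AddSubgroup (Fin 10 → ℤ_[p]) := (e6 P).range.comap (rd p)

theorem sq1_le {Γ : AddSubgroup (Fin 10 → ℤ_[p])} (hW : Γ.map (rd p) = (e3 P).range) :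
    sq1 Γ ≤ MM P := by
  rw [sq1, AddSubgroup.closure_le]
  rintro _ ⟨a, ha, b, hb, rfl⟩
  have h1 : rd p a ∈ (e3 P).range := by rw [← hW]; exact ⟨a, ha, rfl⟩
  have h2 : rd p b ∈ (e3 P).range := by rw [← hW]; exact ⟨b, hb, rfl⟩
  obtain ⟨l, hl⟩ := h1
  obtain ⟨m, hm⟩ := h2
  show rd p (a * b) ∈ (e6 P).range
  rw [rd_apply, map_mul, ← rd_apply, ← rd_apply, ← hl, ← hm, e3_mul_e3]
  exact ⟨_, rfl⟩


/-! ### part (a) -/

theorem range_e6_le : (e6 P).range ≤ (e10 P).range := by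
  rintro _ ⟨q, rfl⟩
  exact ⟨pd6 q, e10_pd6 P q⟩

theorem range_e3_le : (e3 P).range ≤ (e6 P).range := by
  rintro _ ⟨q, rfl⟩
  exact ⟨pd3 q, e6_pd3 P q⟩

theorem index_of_card {H : AddSubgroup (Fin 10 → ZMod p)} {k l : ℕ} (hk : Nat.card H = p ^ k)
    (hkl : k + l = 10) : H.index = p ^ l := by
  have h1 := AddSubgroup.card_mul_index H
  have h2 : p ^ 10 = p ^ k * p ^ l := by rw [← pow_add, hkl]
  rw [hk, card_FF, h2] at h1
  exact Nat.eq_of_mul_eq_mul_left (pow_pos (Fact.out : p.Prime).pos k) h1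

theorem index_MM (h : Function.Injective (e6 P)) : (MM P).index = p ^ 4 := by
  rw [MM, AddSubgroup.index_comap_of_surjective _ rd_surj]
  exact index_of_card (card_range _ h) rfl

/-- the standard structure -/
def Good (P : (Fin 10 → ZMod p) × (Fin 10 → ZMod p)) (Γ : AddSubgroup (Fin 10 → ℤ_[p])) : Prop :=
  (1 : Fin 10 → ℤ_[p]) ∈ Γ ∧ Γ.map (rd p) = (e3 P).range ∧ Γ ⊓ (rd p).ker = (MM P).map (mp p)

section partA

variable {Γ : AddSubgroup (Fin 10 → ℤ_[p])}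

theorem index_sq1 (hm : ∀ a ∈ Γ, ∀ b ∈ Γ, p • (a * b) ∈ Γ) (hi : Γ.index = p ^ 11)
    (hq : qn Γ = p ^ 3) : (sq1 Γ).index = p ^ 4 := by
  have h1 := AddSubgroup.relIndex_mul_index (sq_le hm)
  rw [sq_eq, index_mp, ← sq_eq] at h1
  have h2 : (sq Γ).relIndex Γ = p ^ 3 := hq
  rw [h2, hi, ← pow_add] at h1
  have h3 : p ^ 4 * p ^ 10 = (sq1 Γ).index * p ^ 10 := by rw [← pow_add, ← h1]
  exact (Nat.eq_of_mul_eq_mul_right (pow_pos (Fact.out : p.Prime).pos 10) h3).symm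

theorem card_dvd (hq : qn Γ = p ^ 3) : Nat.card (Γ.map (rd p)) ∣ p ^ 3 := by
  rw [← rel_ker, ← hq]
  exact AddSubgroup.relIndex_dvd_of_le_left _ (sq_le_ker Γ)

theorem inj6 (hm : ∀ a ∈ Γ, ∀ b ∈ Γ, p • (a * b) ∈ Γ) (hi : Γ.index = p ^ 11)
    (hq : qn Γ = p ^ 3) (hW : Γ.map (rd p) = (e3 P).range) : Function.Injective (e6 P) := by
  apply inj_of_card
  have hle : (sq1 Γ).map (rd p) ≤ (e6 P).range := by
    rintro _ ⟨w, hw, rfl⟩
    exact sq1_le P hW hw
  have h1 := AddSubgroup.index_map_dvd (sq1 Γ) (f := rd p) rd_surj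
  rw [index_sq1 hm hi hq] at h1
  have h2 := AddSubgroup.card_mul_index ((sq1 Γ).map (rd p))
  rw [card_FF] at h2
  have hp : 0 < p := (Fact.out : p.Prime).pos
  have h3 : ((sq1 Γ).map (rd p)).index ≤ p ^ 4 := Nat.le_of_dvd (pow_pos hp 4) h1
  have h4 : Nat.card ((sq1 Γ).map (rd p)) ≤ Nat.card (e6 P).range :=
    AddSubgroup.card_le_of_le hle
  by_contra hlt
  push Not at hlt
  have h5 : p ^ 10 < p ^ 10 := by
    calc p ^ 10 = Nat.card ((sq1 Γ).map (rd p)) * ((sq1 Γ).map (rd p)).index := h2.symm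
      _ ≤ Nat.card ((sq1 Γ).map (rd p)) * p ^ 4 := Nat.mul_le_mul_left _ h3
      _ < p ^ 6 * p ^ 4 := Nat.mul_lt_mul_of_pos_right (h4.trans_lt hlt) (pow_pos hp 4)
      _ = p ^ 10 := by rw [← pow_add]
  exact lt_irrefl _ h5

theorem sq1_eq (hm : ∀ a ∈ Γ, ∀ b ∈ Γ, p • (a * b) ∈ Γ) (hi : Γ.index = p ^ 11)
    (hq : qn Γ = p ^ 3) (hW : Γ.map (rd p) = (e3 P).range) : sq1 Γ = MM P := by
  have hp : 0 < p := (Fact.out : p.Prime).pos
  have h1 := index_MM P (inj6 P hm hi hq hW)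
  apply eq_of_index (sq1_le P hW)
  · rw [index_sq1 hm hi hq, h1]
  · rw [h1]; exact (pow_pos hp 4).ne'

theorem good_of (h1 : (1 : Fin 10 → ℤ_[p]) ∈ Γ) (hm : ∀ a ∈ Γ, ∀ b ∈ Γ, p • (a * b) ∈ Γ)
    (hi : Γ.index = p ^ 11)
    (hq : qn Γ = p ^ 3) (hW : Γ.map (rd p) = (e3 P).range) : Good P Γ := by
  refine ⟨h1, hW, ?_⟩
  have hp : 0 < p := (Fact.out : p.Prime).pos
  rw [← sq1_eq P hm hi hq hW, ← sq_eq]
  symm
  have hle : sq Γ ≤ Γ ⊓ (rd p).ker := le_inf (sq_le hm) (sq_le_ker Γ)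
  have h3 := AddSubgroup.relIndex_mul_index (inf_le_left : Γ ⊓ (rd p).ker ≤ Γ)
  rw [inf_comm, AddSubgroup.inf_relIndex_right, rel_ker, hW,
    card_range _ (inj3_of P (inj6 P hm hi hq hW)), hi] at h3
  apply eq_of_index hle
  · rw [inf_comm, ← h3, ← AddSubgroup.relIndex_mul_index (sq_le hm), hi]
    congr 1
  · rw [inf_comm, ← h3]
    positivity

end partA

/-- evaluation of a linear polynomial with integer coefficients -/
noncomputable def z3 (x y : Fin 10 → ℤ_[p]) (l : Fin 3 → ℤ) : Fin 10 → ℤ_[p] := l 0 * x + l 1 * y + l 2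

/-- evaluation of a quadratic polynomial with integer coefficients -/
noncomputable def z6 (x y : Fin 10 → ℤ_[p]) (q : Fin 6 → ℤ) : Fin 10 → ℤ_[p] :=
  q 0 * x ^ 2 + q 1 * x * y + q 2 * y ^ 2 + q 3 * x + q 4 * y + q 5

theorem rd_z3 {x y : Fin 10 → ℤ_[p]} (hx : rd p x = P.1) (hy : rd p y = P.2) (l : Fin 3 → ℤ) :
    rd p (z3 x y l) = e3 P (fun i => (l i : ZMod p)) := by
  rw [rd_apply] at *
  rw [z3, map_add, map_add, map_mul, map_mul, hx, hy, map_intCast, map_intCast, map_intCast]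
  funext i
  rw [e3_apply]
  simp

theorem rd_z6 {x y : Fin 10 → ℤ_[p]} (hx : rd p x = P.1) (hy : rd p y = P.2) (q : Fin 6 → ℤ) :
    rd p (z6 x y q) = e6 P (fun i => (q i : ZMod p)) := by
  rw [rd_apply] at *
  simp only [z6, map_add, map_mul, map_pow, hx, hy, map_intCast]
  funext i
  rw [e6_apply]
  simp

theorem lift_coeff {k : ℕ} (l : Fin k → ZMod p) : ∃ m : Fin k → ℤ, (fun i => (m i : ZMod p)) = l := by
  choose m hm using fun i => ZMod.intCast_surjective (l i)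
  exact ⟨m, funext hm⟩

theorem int_mul_mem {Γ : AddSubgroup (Fin 10 → ℤ_[p])} {x : Fin 10 → ℤ_[p]} (hx : x ∈ Γ) (n : ℤ) :
    (n : Fin 10 → ℤ_[p]) * x ∈ Γ := by
  rw [← zsmul_eq_mul]
  exact zsmul_mem hx n

theorem z3_mem {Γ : AddSubgroup (Fin 10 → ℤ_[p])} (h1 : (1 : Fin 10 → ℤ_[p]) ∈ Γ)
    {x y : Fin 10 → ℤ_[p]} (hx : x ∈ Γ) (hy : y ∈ Γ) (l : Fin 3 → ℤ) : z3 x y l ∈ Γ := by
  refine add_mem (add_mem (int_mul_mem hx _) (int_mul_mem hy _)) ?_
  have := int_mul_mem h1 (l 2)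
  rwa [mul_one] at this

theorem mem_sq1 {Γ : AddSubgroup (Fin 10 → ℤ_[p])} {a b : Fin 10 → ℤ_[p]} (ha : a ∈ Γ)
    (hb : b ∈ Γ) : a * b ∈ sq1 Γ := AddSubgroup.subset_closure ⟨a, ha, b, hb, rfl⟩

theorem le_sq1 {Γ : AddSubgroup (Fin 10 → ℤ_[p])} (h1 : (1 : Fin 10 → ℤ_[p]) ∈ Γ) : Γ ≤ sq1 Γ := by
  intro a ha
  have := mem_sq1 ha h1
  rwa [mul_one] at this

theorem z6_mem {Γ : AddSubgroup (Fin 10 → ℤ_[p])} (h1 : (1 : Fin 10 → ℤ_[p]) ∈ Γ)
    {x y : Fin 10 → ℤ_[p]} (hx : x ∈ Γ) (hy : y ∈ Γ) (q : Fin 6 → ℤ) : z6 x y q ∈ sq1 Γ := by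
  have e : z6 x y q = (q 0 : Fin 10 → ℤ_[p]) * (x * x) + (q 1 : Fin 10 → ℤ_[p]) * (x * y)
      + (q 2 : Fin 10 → ℤ_[p]) * (y * y) + (q 3 : Fin 10 → ℤ_[p]) * (x * 1)
      + (q 4 : Fin 10 → ℤ_[p]) * (y * 1) + (q 5 : Fin 10 → ℤ_[p]) * (1 * 1) := by
    rw [z6]; ring
  rw [e]
  exact add_mem (add_mem (add_mem (add_mem (add_mem
    (int_mul_mem (mem_sq1 hx hx) _) (int_mul_mem (mem_sq1 hx hy) _))
    (int_mul_mem (mem_sq1 hy hy) _)) (int_mul_mem (mem_sq1 hx h1) _))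
    (int_mul_mem (mem_sq1 hy h1) _)) (int_mul_mem (mem_sq1 h1 h1) _)

/-- decomposition of an element of a good lattice -/
theorem good_dec {Γ : AddSubgroup (Fin 10 → ℤ_[p])} (hG : Good P Γ) {x y : Fin 10 → ℤ_[p]}
    (hx : x ∈ Γ) (hy : y ∈ Γ) (hx1 : rd p x = P.1) (hy1 : rd p y = P.2)
    {a : Fin 10 → ℤ_[p]} (ha : a ∈ Γ) : ∃ (l : Fin 3 → ℤ) (g : Fin 10 → ℤ_[p]),
      g ∈ MM P ∧ a = z3 x y l + mp p g := by
  have h1 : rd p a ∈ (e3 P).range := by rw [← hG.2.1]; exact ⟨a, ha, rfl⟩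
  obtain ⟨l, hl⟩ := h1
  obtain ⟨m, hm⟩ := lift_coeff l
  have h2 : a - z3 x y m ∈ Γ ⊓ (rd p).ker := by
    refine AddSubgroup.mem_inf.2 ⟨sub_mem ha (z3_mem hG.1 hx hy m), ?_⟩
    rw [AddMonoidHom.mem_ker, map_sub, rd_z3 P hx1 hy1, hm, hl, sub_self]
  rw [hG.2.2] at h2
  obtain ⟨g, hg, hg2⟩ := h2
  exact ⟨m, g, hg, by rw [hg2]; ring⟩

theorem z3_mul_z3 (x y : Fin 10 → ℤ_[p]) (l m : Fin 3 → ℤ) : z3 x y l * z3 x y m =
    z6 x y ![l 0 * m 0, l 0 * m 1 + l 1 * m 0, l 1 * m 1, l 0 * m 2 + l 2 * m 0,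
      l 1 * m 2 + l 2 * m 1, l 2 * m 2] := by
  rw [z3, z3, z6]
  simp
  ring

theorem z6_add (x y : Fin 10 → ℤ_[p]) (l m : Fin 6 → ℤ) :
    z6 x y (l + m) = z6 x y l + z6 x y m := by
  simp only [z6, Pi.add_apply, Int.cast_add]
  ring

theorem z6_neg (x y : Fin 10 → ℤ_[p]) (l : Fin 6 → ℤ) :
    z6 x y (-l) = - z6 x y l := by
  simp only [z6, Pi.neg_apply, Int.cast_neg]
  ring

theorem z6_zero (x y : Fin 10 → ℤ_[p]) :
    z6 x y 0 = 0 := by
  simp only [z6, Pi.zero_apply, Int.cast_zero]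
  ring

theorem z6_mul (x y : Fin 10 → ℤ_[p]) (l : Fin 6 → ℤ) :
    z6 x y (fun i => (p : ℤ) * l i) = mp p (z6 x y l) := by
  simp only [z6, Int.cast_mul, mp_apply, Int.cast_natCast]
  ring

theorem exists_lifts {Γ : AddSubgroup (Fin 10 → ℤ_[p])} (hW : Γ.map (rd p) = (e3 P).range) :
    ∃ x y, x ∈ Γ ∧ y ∈ Γ ∧ rd p x = P.1 ∧ rd p y = P.2 := by
  have h1 : P.1 ∈ Γ.map (rd p) := by
    rw [hW]
    exact ⟨![1, 0, 0], by funext i; rw [e3_apply]; simp⟩
  have h2 : P.2 ∈ Γ.map (rd p) := by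
    rw [hW]
    exact ⟨![0, 1, 0], by funext i; rw [e3_apply]; simp⟩
  obtain ⟨x, hx, hx1⟩ := h1
  obtain ⟨y, hy, hy1⟩ := h2
  exact ⟨x, y, hx, hy, hx1, hy1⟩

theorem surj_of {Γ : AddSubgroup (Fin 10 → ℤ_[p])} (h1 : (1 : Fin 10 → ℤ_[p]) ∈ Γ)
    (hm : ∀ a ∈ Γ, ∀ b ∈ Γ, p • (a * b) ∈ Γ) (hi : Γ.index = p ^ 11)
    (hq : qn Γ = p ^ 3) (hW : Γ.map (rd p) = (e3 P).range) : Function.Surjective (e10 P) := by
  have hG := good_of P h1 hm hi hq hW
  have hS := sq1_eq P hm hi hq hW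
  obtain ⟨x, y, hx, hy, hx1, hy1⟩ := exists_lifts P hW
  have key : ∀ t ∈ sq1 Γ, ∃ (q : Fin 6 → ℤ) (h : Fin 10 → ℤ_[p]),
      rd p h ∈ (e10 P).range ∧ t = z6 x y q + mp p h := by
    intro t ht
    induction ht using AddSubgroup.closure_induction with
    | mem t ht =>
      obtain ⟨a, ha, b, hb, rfl⟩ := ht
      obtain ⟨l, g, hg, rfl⟩ := good_dec P hG hx hy hx1 hy1 ha
      obtain ⟨m, g', hg', rfl⟩ := good_dec P hG hx hy hx1 hy1 hb
      refine ⟨![l 0 * m 0, l 0 * m 1 + l 1 * m 0, l 1 * m 1, l 0 * m 2 + l 2 * m 0,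
        l 1 * m 2 + l 2 * m 1, l 2 * m 2],
        z3 x y l * g' + z3 x y m * g + mp p (g * g'), ?_, ?_⟩
      rotate_left
      · rw [add_mul, mul_add, mul_add, z3_mul_z3]
        simp only [map_add, mp_apply]
        ring
      · rw [map_add, map_add]
        have k1 : rd p (mp p (g * g')) = 0 := by
          rw [← AddMonoidHom.mem_ker, mem_ker]; exact ⟨_, rfl⟩
        rw [k1, add_zero]
        obtain ⟨q1, hq1⟩ := hg
        obtain ⟨q2, hq2⟩ := hg'
        refine add_mem ?_ ?_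
        · rw [rd_apply, map_mul, ← rd_apply, ← rd_apply, rd_z3 P hx1 hy1, ← hq2, e3_mul_e6]
          exact ⟨_, rfl⟩
        · rw [rd_apply, map_mul, ← rd_apply, ← rd_apply, rd_z3 P hx1 hy1, ← hq1, e3_mul_e6]
          exact ⟨_, rfl⟩
    | zero => exact ⟨0, 0, by rw [map_zero]; exact zero_mem _, by rw [z6_zero, map_zero, add_zero]⟩
    | add a b _ _ iha ihb =>
      obtain ⟨q, h, hh, rfl⟩ := iha
      obtain ⟨q', h', hh', rfl⟩ := ihb
      exact ⟨q + q', h + h', by rw [map_add]; exact add_mem hh hh', by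
        rw [z6_add, map_add]; ring⟩
    | neg a _ iha =>
      obtain ⟨q, h, hh, rfl⟩ := iha
      exact ⟨-q, -h, by rw [map_neg]; exact neg_mem hh, by
        rw [z6_neg, map_neg]; ring⟩
  intro v
  obtain ⟨z, hz⟩ := rd_surj (p := p) v
  have h2 : mp p z ∈ sq1 Γ := by
    rw [hS]
    show rd p (mp p z) ∈ (e6 P).range
    have k1 : rd p (mp p z) = 0 := by
      rw [← AddMonoidHom.mem_ker, mem_ker]; exact ⟨_, rfl⟩
    rw [k1]
    exact zero_mem _
  obtain ⟨q, h, ⟨c, hc⟩, hzq⟩ := key _ h2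
  have h3 : e6 P (fun i => (q i : ZMod p)) = 0 := by
    rw [← rd_z6 P hx1 hy1]
    have e : z6 x y q = mp p (z - h) := by rw [map_sub, hzq]; ring
    rw [e, ← AddMonoidHom.mem_ker, mem_ker]
    exact ⟨_, rfl⟩
  have h4 : (fun i => (q i : ZMod p)) = 0 := inj6 P hm hi hq hW (by rw [h3, map_zero])
  have h5 : ∀ i, ∃ r : ℤ, q i = p * r := by
    intro i
    have := congrFun h4 i
    exact (ZMod.intCast_zmod_eq_zero_iff_dvd _ _).1 this
  choose r hr using h5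
  have h6 : z6 x y q = mp p (z6 x y r) := by
    rw [← z6_mul]
    congr 1
    funext i
    exact hr i
  rw [h6, ← map_add] at hzq
  have h7 := mp_inj hzq
  refine ⟨pd6 (fun i => (r i : ZMod p)) + c, ?_⟩
  rw [map_add, e10_pd6, hc, ← rd_z6 P hx1 hy1, ← map_add, ← h7, hz]

theorem inj_of_surj (h : Function.Surjective (e10 P)) : Function.Injective (e10 P) :=
  Finite.injective_iff_surjective.2 h

theorem surj_of_inj (h : Function.Injective (e10 P)) : Function.Surjective (e10 P) :=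
  Finite.injective_iff_surjective.1 h


/-! ### part (b) -/

section partB

variable {Γ : AddSubgroup (Fin 10 → ℤ_[p])}

theorem ker_le_MM : (rd p).ker ≤ MM P := by
  intro z hz
  show rd p z ∈ (e6 P).range
  rw [AddMonoidHom.mem_ker.1 hz]
  exact zero_mem _

theorem rel_good (hI : Function.Injective (e10 P)) (hG : Good P Γ) :
    (Γ ⊓ (rd p).ker).relIndex Γ = p ^ 3 := by
  rw [inf_comm, AddSubgroup.inf_relIndex_right, rel_ker, hG.2.1,
    card_range _ (inj3_of P (inj6_of P hI))]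

theorem index_good (hI : Function.Injective (e10 P)) (hG : Good P Γ) : Γ.index = p ^ 11 := by
  have h3 := AddSubgroup.relIndex_mul_index (inf_le_left : Γ ⊓ (rd p).ker ≤ Γ)
  rw [rel_good P hI hG, hG.2.2, index_mp, index_MM P (inj6_of P hI)] at h3
  have h4 : p ^ 3 * Γ.index = p ^ 3 * p ^ 11 := by rw [h3, ← pow_add, ← pow_add]
  exact Nat.eq_of_mul_eq_mul_left (pow_pos (Fact.out : p.Prime).pos 3) h4

theorem mp_mem_of (hG : Good P Γ) {g : Fin 10 → ℤ_[p]} (hg : g ∈ MM P) : mp p g ∈ Γ := by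
  have h : mp p g ∈ Γ ⊓ (rd p).ker := by
    rw [hG.2.2]
    exact ⟨g, hg, rfl⟩
  exact (AddSubgroup.mem_inf.1 h).1

theorem z6_MM {x y : Fin 10 → ℤ_[p]} (hx : rd p x = P.1) (hy : rd p y = P.2) (q : Fin 6 → ℤ) :
    z6 x y q ∈ MM P := by
  show rd p (z6 x y q) ∈ (e6 P).range
  rw [rd_z6 P hx hy]
  exact ⟨_, rfl⟩

theorem z3_MM {x y : Fin 10 → ℤ_[p]} (hx : rd p x = P.1) (hy : rd p y = P.2) (q : Fin 3 → ℤ) :
    z3 x y q ∈ MM P := by
  show rd p (z3 x y q) ∈ (e6 P).range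
  rw [rd_z3 P hx hy]
  exact range_e3_le P ⟨_, rfl⟩

theorem mp_mem_sq1 (hI : Function.Injective (e10 P)) (hG : Good P Γ) (w : Fin 10 → ℤ_[p]) :
    mp p w ∈ sq1 Γ := by
  obtain ⟨x, y, hx, hy, hx1, hy1⟩ := exists_lifts P hG.2.1
  obtain ⟨c, hc⟩ := surj_of_inj P hI (rd p w)
  obtain ⟨m0, hm0⟩ := lift_coeff ![c 2, c 4, c 7, c 5, c 8, c 9]
  obtain ⟨m1, hm1⟩ := lift_coeff ![c 0, c 1, c 3, 0, 0, 0]
  obtain ⟨m2, hm2⟩ := lift_coeff ![0, 0, c 6, 0, 0, 0]
  have h1 : w - (z6 x y m0 + x * z6 x y m1 + y * z6 x y m2) ∈ (rd p).ker := by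
    rw [AddMonoidHom.mem_ker, map_sub, map_add, map_add]
    have e1 : rd p (x * z6 x y m1) = rd p x * rd p (z6 x y m1) := map_mul (red p) _ _
    have e2 : rd p (y * z6 x y m2) = rd p y * rd p (z6 x y m2) := map_mul (red p) _ _
    rw [e1, e2, rd_z6 P hx1 hy1, rd_z6 P hx1 hy1, rd_z6 P hx1 hy1, hm0, hm1, hm2, hx1, hy1, ← hc]
    funext i
    simp only [Pi.sub_apply, Pi.add_apply, Pi.mul_apply, e10_apply, e6_apply, Pi.zero_apply]
    simp
    ring
  obtain ⟨w1, hw1⟩ := (mem_ker _).1 h1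
  have h2 : mp p w = 1 * mp p (z6 x y m0) + x * mp p (z6 x y m1) + y * mp p (z6 x y m2)
      + mp p (mp p w1) * 1 := by
    rw [← hw1]
    simp only [mp_apply]
    ring
  rw [h2]
  have h3 : mp p w1 ∈ MM P := ker_le_MM P ((mem_ker _).2 ⟨w1, rfl⟩)
  exact add_mem (add_mem (add_mem (mem_sq1 hG.1 (mp_mem_of P hG (z6_MM P hx1 hy1 _)))
    (mem_sq1 hx (mp_mem_of P hG (z6_MM P hx1 hy1 _))))
    (mem_sq1 hy (mp_mem_of P hG (z6_MM P hx1 hy1 _)))) (mem_sq1 (mp_mem_of P hG h3) hG.1)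

theorem sq1_good (hI : Function.Injective (e10 P)) (hG : Good P Γ) : sq1 Γ = MM P := by
  apply le_antisymm (sq1_le P hG.2.1)
  intro z hz
  obtain ⟨x, y, hx, hy, hx1, hy1⟩ := exists_lifts P hG.2.1
  obtain ⟨q, hq⟩ := hz
  obtain ⟨m, hm⟩ := lift_coeff q
  have h1 : z - z6 x y m ∈ (rd p).ker := by
    rw [AddMonoidHom.mem_ker, map_sub, rd_z6 P hx1 hy1, hm, ← hq, sub_self]
  obtain ⟨w, hw⟩ := (mem_ker _).1 h1
  have h2 : z = z6 x y m + mp p w := by rw [← hw]; ring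
  rw [h2]
  exact add_mem (z6_mem hG.1 hx hy m) (mp_mem_sq1 P hI hG w)

theorem mem_of_good (hI : Function.Injective (e10 P)) (hG : Good P Γ) :
    Γ ∈ Gam p (Fin 10) 11 ∧ qn Γ = p ^ 3 := by
  have h1 : sq Γ = Γ ⊓ (rd p).ker := by rw [sq_eq, sq1_good P hI hG, hG.2.2]
  refine ⟨⟨hG.1, fun a ha b hb => ?_, index_good P hI hG⟩, ?_⟩
  · have h2 : p • (a * b) ∈ sq Γ := AddSubgroup.subset_closure ⟨a, ha, b, hb, rfl⟩
    rw [h1] at h2
    exact (AddSubgroup.mem_inf.1 h2).1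
  · rw [qn, h1, rel_good P hI hG]

end partB

/-! ### counting the good lattices -/

theorem z3_add (x y : Fin 10 → ℤ_[p]) (l m : Fin 3 → ℤ) :
    z3 x y (l + m) = z3 x y l + z3 x y m := by
  simp only [z3, Pi.add_apply, Int.cast_add]
  ring

theorem z3_neg (x y : Fin 10 → ℤ_[p]) (l : Fin 3 → ℤ) :
    z3 x y (-l) = - z3 x y l := by
  simp only [z3, Pi.neg_apply, Int.cast_neg]
  ring

theorem z3_zero (x y : Fin 10 → ℤ_[p]) :
    z3 x y 0 = 0 := by
  simp only [z3, Pi.zero_apply, Int.cast_zero]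
  ring

theorem z3_mul (x y : Fin 10 → ℤ_[p]) (l : Fin 3 → ℤ) :
    z3 x y (fun i => (p : ℤ) * l i) = mp p (z3 x y l) := by
  simp only [z3, Int.cast_mul, mp_apply, Int.cast_natCast]
  ring

/-- the lattice generated by `1, x, y` and `p M` -/
noncomputable def mkG (P : (Fin 10 → ZMod p) × (Fin 10 → ZMod p)) (x y : Fin 10 → ℤ_[p]) :
    AddSubgroup (Fin 10 → ℤ_[p]) where
  carrier := {z | ∃ (l : Fin 3 → ℤ) (g : Fin 10 → ℤ_[p]), g ∈ MM P ∧ z = z3 x y l + mp p g}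
  zero_mem' := ⟨0, 0, zero_mem _, by rw [z3_zero, map_zero, add_zero]⟩
  add_mem' := by
    rintro _ _ ⟨l, g, hg, rfl⟩ ⟨m, g', hg', rfl⟩
    exact ⟨l + m, g + g', add_mem hg hg', by rw [z3_add, map_add]; ring⟩
  neg_mem' := by
    rintro _ ⟨l, g, hg, rfl⟩
    exact ⟨-l, -g, neg_mem hg, by rw [z3_neg, map_neg]; ring⟩

theorem rd_mp (w : Fin 10 → ℤ_[p]) : rd p (mp p w) = 0 := by
  rw [← AddMonoidHom.mem_ker, mem_ker]; exact ⟨_, rfl⟩

theorem good_mkG (hI : Function.Injective (e10 P)) {x y : Fin 10 → ℤ_[p]}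
    (hx1 : rd p x = P.1) (hy1 : rd p y = P.2) : Good P (mkG P x y) := by
  refine ⟨⟨![0, 0, 1], 0, zero_mem _, ?_⟩, ?_, ?_⟩
  · simp [z3]
  · apply le_antisymm
    · rintro _ ⟨z, ⟨l, g, hg, rfl⟩, rfl⟩
      rw [map_add, rd_mp, add_zero, rd_z3 P hx1 hy1]
      exact ⟨_, rfl⟩
    · rintro _ ⟨l, rfl⟩
      obtain ⟨m, hm⟩ := lift_coeff l
      refine ⟨z3 x y m, ⟨m, 0, zero_mem _, by rw [map_zero, add_zero]⟩, ?_⟩
      rw [rd_z3 P hx1 hy1, hm]
  · apply le_antisymm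
    · intro z hz
      obtain ⟨⟨l, g, hg, rfl⟩, hz2⟩ := AddSubgroup.mem_inf.1 hz
      rw [AddMonoidHom.mem_ker, map_add, rd_mp, add_zero, rd_z3 P hx1 hy1] at hz2
      have h4 : (fun i => (l i : ZMod p)) = 0 :=
        inj3_of P (inj6_of P hI) (by rw [hz2, map_zero])
      have h5 : ∀ i, ∃ r : ℤ, l i = p * r := by
        intro i
        have := congrFun h4 i
        exact (ZMod.intCast_zmod_eq_zero_iff_dvd _ _).1 this
      choose r hr using h5
      have h6 : z3 x y l = mp p (z3 x y r) := by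
        rw [← z3_mul]
        congr 1
        funext i
        exact hr i
      exact ⟨z3 x y r + g, add_mem (z3_MM P hx1 hy1 _) hg, by rw [map_add, h6]⟩
    · rintro _ ⟨g, hg, rfl⟩
      exact AddSubgroup.mem_inf.2 ⟨⟨0, g, hg, by rw [z3_zero, zero_add]⟩,
        AddMonoidHom.mem_ker.2 (rd_mp _)⟩

theorem eq_mkG {Γ : AddSubgroup (Fin 10 → ℤ_[p])} (hG : Good P Γ) {x y : Fin 10 → ℤ_[p]}
    (hx : x ∈ Γ) (hy : y ∈ Γ) (hx1 : rd p x = P.1) (hy1 : rd p y = P.2) : mkG P x y = Γ := by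
  apply le_antisymm
  · rintro _ ⟨l, g, hg, rfl⟩
    exact add_mem (z3_mem hG.1 hx hy l) (mp_mem_of P hG hg)
  · intro a ha
    exact good_dec P hG hx hy hx1 hy1 ha

theorem mem_mkG_left (x y : Fin 10 → ℤ_[p]) : x ∈ mkG P x y :=
  ⟨![1, 0, 0], 0, zero_mem _, by simp [z3]⟩

theorem mem_mkG_right (x y : Fin 10 → ℤ_[p]) : y ∈ mkG P x y :=
  ⟨![0, 1, 0], 0, zero_mem _, by simp [z3]⟩

theorem diff_mem {Γ : AddSubgroup (Fin 10 → ℤ_[p])} (hG : Good P Γ) {s u v : Fin 10 → ℤ_[p]}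
    (hx : s + mp p u ∈ Γ) (hy : s + mp p v ∈ Γ) : u - v ∈ MM P := by
  have h1 : mp p (u - v) ∈ Γ ⊓ (rd p).ker := by
    refine AddSubgroup.mem_inf.2 ⟨?_, AddMonoidHom.mem_ker.2 (rd_mp _)⟩
    have := sub_mem hx hy
    rwa [add_sub_add_left_eq_sub, ← map_sub] at this
  rw [hG.2.2] at h1
  obtain ⟨w, hw, hw2⟩ := h1
  rwa [← mp_inj hw2]

theorem card_good (hI : Function.Injective (e10 P)) :
    Nat.card {Γ : AddSubgroup (Fin 10 → ℤ_[p]) // Good P Γ} = p ^ 8 := by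
  obtain ⟨s, hs⟩ := rd_surj P.1
  obtain ⟨t, ht⟩ := rd_surj P.2
  have hs' : ∀ u, rd p (s + mp p u) = P.1 := fun u => by rw [map_add, rd_mp, add_zero, hs]
  have ht' : ∀ u, rd p (t + mp p u) = P.2 := fun u => by rw [map_add, rd_mp, add_zero, ht]
  let Q := (Fin 10 → ℤ_[p]) ⧸ MM P
  let F : Q × Q → {Γ : AddSubgroup (Fin 10 → ℤ_[p]) // Good P Γ} := fun q =>
    ⟨mkG P (s + mp p q.1.out) (t + mp p q.2.out), good_mkG P hI (hs' _) (ht' _)⟩
  have hout : ∀ (a b : Q), a.out - b.out ∈ MM P → a = b := by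
    intro a b hab
    rw [← Quotient.out_eq a, ← Quotient.out_eq b]
    refine (QuotientAddGroup.eq).2 ?_
    have := neg_mem hab
    rwa [neg_sub, sub_eq_neg_add] at this
  have hinj : Function.Injective F := by
    rintro ⟨a, b⟩ ⟨c, d⟩ h
    have h1 : mkG P (s + mp p a.out) (t + mp p b.out) = mkG P (s + mp p c.out) (t + mp p d.out) :=
      congrArg Subtype.val h
    have hG := good_mkG P hI (hs' c.out) (ht' d.out)
    have h2 := mem_mkG_left P (s + mp p a.out) (t + mp p b.out)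
    have h3 := mem_mkG_right P (s + mp p a.out) (t + mp p b.out)
    rw [h1] at h2 h3
    have h4 := diff_mem P hG h2 (mem_mkG_left P _ _)
    have h5 := diff_mem P hG h3 (mem_mkG_right P _ _)
    rw [hout _ _ h4, hout _ _ h5]
  have hsurj : Function.Surjective F := by
    rintro ⟨Γ, hG⟩
    obtain ⟨x, y, hx, hy, hx1, hy1⟩ := exists_lifts P hG.2.1
    have h1 : x - s ∈ (rd p).ker := by rw [AddMonoidHom.mem_ker, map_sub, hx1, hs, sub_self]
    have h2 : y - t ∈ (rd p).ker := by rw [AddMonoidHom.mem_ker, map_sub, hy1, ht, sub_self]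
    obtain ⟨u, hu⟩ := (mem_ker _).1 h1
    obtain ⟨v, hv⟩ := (mem_ker _).1 h2
    have hout2 : ∀ u : Fin 10 → ℤ_[p], (QuotientAddGroup.mk u : Q).out - u ∈ MM P := by
      intro u
      have h3 : (QuotientAddGroup.mk u : Q) = QuotientAddGroup.mk (QuotientAddGroup.mk u : Q).out :=
        (Quotient.out_eq _).symm
      have h4 := (QuotientAddGroup.eq).1 h3
      rwa [neg_add_eq_sub] at h4
    refine ⟨(QuotientAddGroup.mk u, QuotientAddGroup.mk v), Subtype.ext ?_⟩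
    refine eq_mkG P hG ?_ ?_ (hs' _) (ht' _)
    · have e : s + mp p (QuotientAddGroup.mk u : Q).out
          = x + mp p ((QuotientAddGroup.mk u : Q).out - u) := by
        rw [map_sub, ← hu]; ring
      show s + mp p (QuotientAddGroup.mk u : Q).out ∈ Γ
      rw [e]
      exact add_mem hx (mp_mem_of P hG (hout2 u))
    · have e : t + mp p (QuotientAddGroup.mk v : Q).out
          = y + mp p ((QuotientAddGroup.mk v : Q).out - v) := by
        rw [map_sub, ← hv]; ring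
      show t + mp p (QuotientAddGroup.mk v : Q).out ∈ Γ
      rw [e]
      exact add_mem hy (mp_mem_of P hG (hout2 v))
  rw [← Nat.card_congr (Equiv.ofBijective F ⟨hinj, hsurj⟩), Nat.card_prod]
  have h6 : Nat.card Q = p ^ 4 := index_MM P (inj6_of P hI)
  rw [h6, ← pow_add]


/-! ### counting bases -/

/-- constants -/
def e1 (p : ℕ) [Fact p.Prime] : (Fin 1 → ZMod p) →+ (Fin 10 → ZMod p) where
  toFun l := fun _ => l 0
  map_zero' := by funext i; simp
  map_add' l m := by funext i; simp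

/-- `a + b x` -/
def e2 (x : Fin 10 → ZMod p) : (Fin 2 → ZMod p) →+ (Fin 10 → ZMod p) where
  toFun l := fun i => l 0 * x i + l 1
  map_zero' := by funext i; simp
  map_add' l m := by funext i; simp; ring

theorem inj1 : Function.Injective (e1 p) := by
  intro l m h
  funext i
  fin_cases i
  exact congrFun h 0

theorem inj2 {x : Fin 10 → ZMod p} (hx : x ∉ (e1 p).range) : Function.Injective (e2 x) := by
  rw [injective_iff_map_eq_zero]
  intro l hl
  have h0 : l 0 = 0 := by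
    by_contra hne
    apply hx
    refine ⟨fun _ => - (l 1) / l 0, ?_⟩
    funext i
    have h1 : l 0 * x i + l 1 = 0 := congrFun hl i
    show - (l 1) / l 0 = x i
    field_simp
    linear_combination -h1
  have h1 : l 1 = 0 := by
    have h1 : l 0 * x 0 + l 1 = 0 := congrFun hl 0
    rw [h0, zero_mul, zero_add] at h1
    exact h1
  funext i
  fin_cases i
  · exact h0
  · exact h1

theorem inj3 {x y : Fin 10 → ZMod p} (hx : x ∉ (e1 p).range) (hy : y ∉ (e2 x).range) :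
    Function.Injective (e3 (x, y)) := by
  rw [injective_iff_map_eq_zero]
  intro l hl
  have h0 : l 1 = 0 := by
    by_contra hne
    apply hy
    refine ⟨![- (l 0) / l 1, - (l 2) / l 1], ?_⟩
    funext i
    have h1 : l 0 * x i + l 1 * y i + l 2 = 0 := congrFun hl i
    show - (l 0) / l 1 * x i + - (l 2) / l 1 = y i
    field_simp
    linear_combination -h1
  have h1 : e2 x ![l 0, l 2] = 0 := by
    funext i
    have h1 : l 0 * x i + l 1 * y i + l 2 = 0 := congrFun hl i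
    show l 0 * x i + l 2 = 0
    rw [h0, zero_mul, add_zero] at h1
    exact h1
  have h2 : ![l 0, l 2] = 0 := inj2 hx (by rw [h1, map_zero])
  funext i
  fin_cases i
  · exact congrFun h2 0
  · exact h0
  · exact congrFun h2 1

theorem e3_le {W : AddSubgroup (Fin 10 → ZMod p)} (h1 : (1 : Fin 10 → ZMod p) ∈ W)
    {x y : Fin 10 → ZMod p} (hx : x ∈ W) (hy : y ∈ W) : (e3 (x, y)).range ≤ W := by
  rintro _ ⟨l, rfl⟩
  have e : e3 (x, y) l = (l 0).val • x + (l 1).val • y + (l 2).val • (1 : Fin 10 → ZMod p) := by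
    funext i
    rw [e3_apply]
    simp only [Pi.add_apply, Pi.smul_apply, Pi.one_apply]
    simp only [nsmul_eq_mul, ZMod.natCast_zmod_val, mul_one]
  rw [e]
  exact add_mem (add_mem (nsmul_mem hx _) (nsmul_mem hy _)) (nsmul_mem h1 _)

theorem e1_le_e2 (x : Fin 10 → ZMod p) : (e1 p).range ≤ (e2 x).range := by
  rintro _ ⟨l, rfl⟩
  refine ⟨![0, l 0], ?_⟩
  funext i
  show (0 : ZMod p) * x i + l 0 = l 0
  ring

theorem e2_le_e3 (x y : Fin 10 → ZMod p) : (e2 x).range ≤ (e3 (x, y)).range := by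
  rintro _ ⟨l, rfl⟩
  refine ⟨![l 0, 0, l 1], ?_⟩
  funext i
  show l 0 * x i + (0 : ZMod p) * y i + l 1 = l 0 * x i + l 1
  ring

theorem range_iff {W : AddSubgroup (Fin 10 → ZMod p)} (h1 : (1 : Fin 10 → ZMod p) ∈ W)
    (hW : Nat.card W = p ^ 3) (x y : Fin 10 → ZMod p) :
    (e3 (x, y)).range = W ↔ x ∈ W ∧ x ∉ (e1 p).range ∧ y ∈ W ∧ y ∉ (e2 x).range := by
  constructor
  · intro h
    have hinj : Function.Injective (e3 (x, y)) := inj_of_card _ (by rw [h, hW])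
    refine ⟨?_, ?_, ?_, ?_⟩
    · rw [← h]
      exact ⟨![1, 0, 0], by funext i; rw [e3_apply]; simp⟩
    · rintro ⟨l, hl⟩
      have h2 : e3 (x, y) ![1, 0, - l 0] = 0 := by
        funext i
        have h3 : l 0 = x i := congrFun hl i
        rw [e3_apply]
        simp [h3]
      have h4 := congrFun (hinj (by rw [h2, map_zero]) : ![1, 0, - l 0] = 0) 0
      simp at h4
    · rw [← h]
      exact ⟨![0, 1, 0], by funext i; rw [e3_apply]; simp⟩
    · rintro ⟨l, hl⟩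
      have h2 : e3 (x, y) ![- l 0, 1, - l 1] = 0 := by
        funext i
        have h3 : l 0 * x i + l 1 = y i := congrFun hl i
        rw [e3_apply]
        simp [← h3]
      have h4 := congrFun (hinj (by rw [h2, map_zero]) : ![- l 0, 1, - l 1] = 0) 1
      simp at h4
  · rintro ⟨hx, hx1, hy, hy1⟩
    refine AddSubgroup.eq_of_le_of_card_ge (e3_le h1 hx hy) ?_
    rw [hW, card_range _ (inj3 hx1 hy1)]

theorem exists_basis {W : AddSubgroup (Fin 10 → ZMod p)} (h1 : (1 : Fin 10 → ZMod p) ∈ W)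
    (hW : Nat.card W ∣ p ^ 3) : ∃ P, (e3 P).range = W := by
  by_contra hne
  push Not at hne
  have h2 : ∀ x y, x ∈ W → y ∈ W → ∃ w ∈ W, w ∉ (e3 (x, y)).range := by
    intro x y hx hy
    by_contra hcon
    push Not at hcon
    exact hne (x, y) (le_antisymm (e3_le h1 hx hy) hcon)
  obtain ⟨x, hx, hx1⟩ := h2 0 0 (zero_mem _) (zero_mem _)
  have hx2 : x ∉ (e1 p).range := fun h => hx1 (e2_le_e3 _ _ (e1_le_e2 _ h))
  obtain ⟨y, hy, hy1⟩ := h2 x 0 hx (zero_mem _)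
  have hy2 : y ∉ (e2 x).range := fun h => hy1 (e2_le_e3 _ _ h)
  have hc := card_range _ (inj3 hx2 hy2)
  have hle := e3_le h1 hx hy
  refine hne (x, y) (AddSubgroup.eq_of_le_of_card_ge hle ?_)
  rw [hc]
  exact Nat.le_of_dvd (pow_pos (Fact.out : p.Prime).pos 3) hW

theorem one_mem_e1 : (1 : Fin 10 → ZMod p) ∈ (e1 p).range := ⟨fun _ => 1, rfl⟩

theorem card_diff {H K : AddSubgroup (Fin 10 → ZMod p)} (hHK : H ≤ K)
    [DecidablePred fun x => x ∈ K ∧ x ∉ H] :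
    (univ.filter (fun x => x ∈ K ∧ x ∉ H)).card = Nat.card K - Nat.card H := by
  classical
  have hcard : ∀ H : AddSubgroup (Fin 10 → ZMod p),
      (univ.filter (fun x => x ∈ H)).card = Nat.card H := by
    intro H
    rw [Nat.card_eq_fintype_card, ← Fintype.card_subtype]
  have e : univ.filter (fun x => x ∈ K ∧ x ∉ H)
      = univ.filter (fun x => x ∈ K) \ univ.filter (fun x => x ∈ H) := by
    ext x; simp
  rw [e, Finset.card_sdiff_of_subset, hcard, hcard]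
  intro x hx
  simp only [mem_filter, mem_univ, true_and] at hx ⊢
  exact hHK hx

theorem card_bases {W : AddSubgroup (Fin 10 → ZMod p)} (h1 : (1 : Fin 10 → ZMod p) ∈ W)
    (hW : Nat.card W = p ^ 3)
    [DecidablePred fun P : (Fin 10 → ZMod p) × (Fin 10 → ZMod p) => (e3 P).range = W] :
    (univ.filter (fun P : (Fin 10 → ZMod p) × (Fin 10 → ZMod p) => (e3 P).range = W)).card
      = (p ^ 3 - p) * (p ^ 3 - p ^ 2) := by
  classical
  have e : (univ.filter (fun P : (Fin 10 → ZMod p) × (Fin 10 → ZMod p) => (e3 P).range = W))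
      = ((univ.filter (fun x => x ∈ W ∧ x ∉ (e1 p).range)).sigma
          (fun x => univ.filter (fun y => y ∈ W ∧ y ∉ (e2 x).range))).map
          (Equiv.sigmaEquivProd _ _).toEmbedding := by
    ext ⟨x, y⟩
    simp only [mem_filter, mem_univ, true_and, mem_map_equiv, mem_sigma]
    rw [range_iff h1 hW]
    simp [Equiv.sigmaEquivProd, and_assoc]
  rw [e, card_map, card_sigma]
  have hle1 : (e1 p).range ≤ W := by
    rintro _ ⟨l, rfl⟩
    exact e3_le h1 (zero_mem W) (zero_mem W) (e2_le_e3 _ _ (e1_le_e2 0 ⟨l, rfl⟩))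
  have h3 : ∀ x ∈ univ.filter (fun x => x ∈ W ∧ x ∉ (e1 p).range),
      (univ.filter (fun y => y ∈ W ∧ y ∉ (e2 x).range)).card = p ^ 3 - p ^ 2 := by
    intro x hx
    simp only [mem_filter, mem_univ, true_and] at hx
    rw [card_diff, hW, card_range _ (inj2 hx.2)]
    exact (e2_le_e3 x 0).trans (e3_le h1 hx.1 (zero_mem _))
  rw [Finset.sum_congr rfl h3, sum_const, card_diff hle1, hW, card_range _ inj1, pow_one,
    smul_eq_mul]

/-! ### the count -/

theorem N10_card [DecidablePred fun P : (Fin 10 → ZMod p) × (Fin 10 → ZMod p) =>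
    Function.Injective (e10 P)] : N10 p =
    (univ.filter (fun P : (Fin 10 → ZMod p) × (Fin 10 → ZMod p) =>
      Function.Injective (e10 P))).card := by
  classical
  rw [← Fintype.card_subtype, ← Nat.card_eq_fintype_card, N10]
  refine Nat.card_congr ((Equiv.arrowProdEquivProdArrow _ _ _).subtypeEquiv ?_)
  intro P
  rw [injective_iff_map_eq_zero]
  constructor
  · intro h c hc
    exact h c (fun i => congrFun hc i)
  · intro h c hc
    exact h c (funext hc)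

theorem main :
    (({Γ | Γ ∈ Gam p (Fin 10) 11 ∧ qn Γ = p ^ 3} :
        Set (AddSubgroup (Fin 10 → ℤ_[p]))).ncard) * ((p ^ 3 - p) * (p ^ 3 - p ^ 2))
      = N10 p * p ^ 8 := by
  classical
  have hp : 0 < p := (Fact.out : p.Prime).pos
  set S : Set (AddSubgroup (Fin 10 → ℤ_[p])) :=
    {Γ | Γ ∈ Gam p (Fin 10) 11 ∧ qn Γ = p ^ 3} with hS
  -- the structure of the elements of `S`
  have hst : ∀ Γ ∈ S, ∀ P, Γ.map (rd p) = (e3 P).range → Good P Γ ∧ Function.Injective (e10 P) := by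
    rintro Γ ⟨⟨h1, hm, hi⟩, hq⟩ P hW
    exact ⟨good_of P h1 hm hi hq hW, inj_of_surj P (surj_of P h1 hm hi hq hW)⟩
  have hone : ∀ Γ ∈ S, (1 : Fin 10 → ZMod p) ∈ Γ.map (rd p) := by
    rintro Γ ⟨⟨h1, hm, hi⟩, hq⟩
    exact AddSubgroup.mem_map.2 ⟨1, h1, map_one (red p)⟩
  have hex : ∀ Γ ∈ S, ∃ P, Γ.map (rd p) = (e3 P).range := by
    rintro Γ hΓ
    obtain ⟨P, hP⟩ := exists_basis (p := p) (hone Γ hΓ) (card_dvd hΓ.2)
    exact ⟨P, hP.symm⟩
  have hgood : ∀ P : (Fin 10 → ZMod p) × (Fin 10 → ZMod p),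
      Function.Injective (e10 P) → {Γ | Good P Γ}.Finite ∧
      {Γ | Good P Γ}.ncard = p ^ 8 := by
    intro P hP
    have h1 := card_good P hP
    have h2 : Finite {Γ : AddSubgroup (Fin 10 → ℤ_[p]) // Good P Γ} :=
      Nat.finite_of_card_ne_zero (by rw [h1]; positivity)
    exact ⟨h2, h1⟩
  have hfin : S.Finite := by
    have h1 : S ⊆ ⋃ P : {P : (Fin 10 → ZMod p) × (Fin 10 → ZMod p) //
        Function.Injective (e10 P)}, {Γ | Good P.1 Γ} := by
      intro Γ hΓ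
      obtain ⟨P, hP⟩ := hex Γ hΓ
      obtain ⟨hG, hI⟩ := hst Γ hΓ P hP
      exact Set.mem_iUnion.2 ⟨⟨P, hI⟩, hG⟩
    exact (Set.finite_iUnion (fun P : {P : (Fin 10 → ZMod p) × (Fin 10 → ZMod p) //
        Function.Injective (e10 P)} => (hgood P.1 P.2).1)).subset h1
  have hcount := Finset.card_mul_eq_card_mul
    (fun (P : (Fin 10 → ZMod p) × (Fin 10 → ZMod p)) (Γ : AddSubgroup (Fin 10 → ℤ_[p])) =>
      (e3 P).range = Γ.map (rd p))
    (s := univ.filter (fun P : (Fin 10 → ZMod p) × (Fin 10 → ZMod p) =>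
      Function.Injective (e10 P))) (t := hfin.toFinset) (m := p ^ 8)
    (n := (p ^ 3 - p) * (p ^ 3 - p ^ 2)) ?_ ?_
  · rw [Set.ncard_eq_toFinset_card _ hfin, N10_card, hcount]
  · intro P hP
    simp only [mem_filter, mem_univ, true_and] at hP
    rw [← (hgood P hP).2, ← Set.ncard_coe_finset]
    congr 1
    ext Γ
    rw [Finset.mem_coe, Finset.mem_bipartiteAbove, Set.Finite.mem_toFinset]
    constructor
    · rintro ⟨h1, h2⟩
      exact (hst Γ h1 P h2.symm).1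
    · intro h1
      exact ⟨mem_of_good P hP h1, h1.2.1.symm⟩
  · intro Γ hΓ
    rw [Set.Finite.mem_toFinset] at hΓ
    obtain ⟨P, hP⟩ := hex Γ hΓ
    have hI := (hst Γ hΓ P hP).2
    have hc : Nat.card (Γ.map (rd p)) = p ^ 3 := by
      rw [hP, card_range _ (inj3_of P (inj6_of P hI))]
    rw [← card_bases (hone Γ hΓ) hc]
    congr 1
    ext P'
    simp only [Finset.mem_bipartiteBelow, mem_filter, mem_univ, true_and]
    constructor
    · exact fun h => h.2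
    · exact fun h => ⟨(hst Γ hΓ P' h.symm).2, h⟩

end A8

theorem card_E3 (p : ℕ) [Fact p.Prime] :
    ((p : ℚ) ^ 3 - p) * ((p : ℚ) ^ 3 - (p : ℚ) ^ 2) *
      (({Γ | Γ ∈ Gam p (Fin 10) 11 ∧ qn Γ = p ^ 3} :
        Set (AddSubgroup (Fin 10 → ℤ_[p]))).ncard : ℚ) = (p : ℚ) ^ 8 * (N10 p : ℚ) := by
  have h := A8.main (p := p)
  have hp : 1 ≤ p := (Fact.out : p.Prime).one_le
  have h1 : p ≤ p ^ 3 := Nat.le_self_pow (by norm_num) p
  have h2 : p ^ 2 ≤ p ^ 3 := Nat.pow_le_pow_right hp (by norm_num)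
  have h3 := congrArg (fun n : ℕ => (n : ℚ)) h
  push_cast [Nat.cast_sub h1, Nat.cast_sub h2] at h3
  linear_combination h3

end Pool.Agent.T2H70.SR
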