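import Pool.Agent.T2H70.SR.Defs

set_option autoImplicit false

/-!
# Package B1: from ordered tuples to sets

If two of the ten points coincide then nine linear conditions on ten coefficients have a nonzero solution, so `N10` counts
injective tuples; an injective tuple is a set of ten points with an ordering.
-/

namespace Pool.Agent.T2H70.SR

open Finset
open scoped BigOperators

namespace B1

variable {p : ℕ} [Fact p.Prime]

/-- the values of a cubic at ten points -/
def evl (P : Fin 10 → ZMod p × ZMod p) : Co p →ₗ[ZMod p] (Fin 10 → ZMod p) where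
  toFun c k := cub c (P k)
  map_add' c c' := by
    funext k
    simp only [cub, form, Pi.add_apply]
    ring
  map_smul' r c := by
    funext k
    simp only [cub, form, Pi.smul_apply, smul_eq_mul, RingHom.id_apply]
    ring

lemma inj_of_good {P : Fin 10 → ZMod p × ZMod p}
    (h : ∀ c : Co p, (∀ i, cub c (P i) = 0) → c = 0) : Function.Injective P := by
  have h1 : Function.Injective (evl P) := by
    rw [injective_iff_map_eq_zero]
    intro c hc
    exact h c fun i => congrFun hc i
  have h2 : Function.Surjective (evl P) := LinearMap.injective_iff_surjective.1 h1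
  intro i j hij
  by_contra hne
  obtain ⟨c, hc⟩ := h2 (Pi.single i 1)
  have h3 : (evl P) c i = 1 := by rw [hc, Pi.single_eq_same]
  have h4 : (evl P) c j = 0 := by rw [hc, Pi.single_eq_of_ne (Ne.symm hne)]
  have h5 : (evl P) c i = (evl P) c j := by
    show cub c (P i) = cub c (P j)
    rw [hij]
  rw [h3, h4] at h5
  exact one_ne_zero h5

/-- the set is on no cubic -/
def Good (T : Finset (ZMod p × ZMod p)) : Prop := ∀ c : Co p, (∀ P ∈ T, cub c P = 0) → c = 0

/-- orderings of a set -/
def toTup (x : Σ T : {T : Finset (ZMod p × ZMod p) // T.card = 10 ∧ Good T}, (Fin 10 ≃ T.1)) :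
    {P : Fin 10 → ZMod p × ZMod p // ∀ c : Co p, (∀ i, cub c (P i) = 0) → c = 0} :=
  ⟨fun i => (x.2 i : ZMod p × ZMod p), fun c hc => x.1.2.2 c fun P hP => by
    have h := hc (x.2.symm ⟨P, hP⟩)
    beta_reduce at h
    rwa [Equiv.apply_symm_apply] at h⟩

lemma toTup_bij : Function.Bijective (toTup (p := p)) := by
  classical
  constructor
  · rintro ⟨⟨T, hT⟩, e⟩ ⟨⟨T', hT'⟩, e'⟩ h
    have h1 : ∀ i, (e i : ZMod p × ZMod p) = e' i := fun i => congrFun (congrArg Subtype.val h) i
    have h2 : T = T' := by
      ext x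
      constructor
      · intro hx
        have h3 := h1 (e.symm ⟨x, hx⟩)
        rw [Equiv.apply_symm_apply] at h3
        have h4 : x = (e' (e.symm ⟨x, hx⟩) : ZMod p × ZMod p) := h3
        rw [h4]
        exact (e' _).2
      · intro hx
        have h3 := h1 (e'.symm ⟨x, hx⟩)
        rw [Equiv.apply_symm_apply] at h3
        have h4 : (e (e'.symm ⟨x, hx⟩) : ZMod p × ZMod p) = x := h3
        rw [← h4]
        exact (e _).2
    subst h2
    have h3 : e = e' := Equiv.ext fun i => Subtype.ext (h1 i)
    rw [h3]
  · rintro ⟨P, hP⟩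
    have hinj := inj_of_good hP
    have hmem : ∀ i, P i ∈ univ.image P := fun i => mem_image_of_mem _ (mem_univ _)
    have hcard : (univ.image P).card = 10 := by
      rw [card_image_of_injective _ hinj, card_univ, Fintype.card_fin]
    have hgood : Good (univ.image P) := fun c hc => hP c fun i => hc _ (hmem i)
    have hbij : Function.Bijective (fun i => (⟨P i, hmem i⟩ : {x // x ∈ univ.image P})) := by
      constructor
      · intro i j hij
        exact hinj (congrArg Subtype.val hij)
      · rintro ⟨x, hx⟩
        obtain ⟨i, -, hi⟩ := mem_image.1 hx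
        exact ⟨i, Subtype.ext hi⟩
    exact ⟨⟨⟨univ.image P, hcard, hgood⟩, Equiv.ofBijective _ hbij⟩, Subtype.ext rfl⟩

end B1

theorem N10_eq (p : ℕ) [Fact p.Prime] :
    (N10 p : ℚ) = (Nat.factorial 10 : ℚ) * (((p ^ 2).choose 10 : ℚ) -
      (Nat.card {T : Finset (ZMod p × ZMod p) // T.card = 10 ∧
        ∃ c : Co p, c ≠ 0 ∧ ∀ P ∈ T, cub c P = 0} : ℚ)) := by
  classical
  have h1 : N10 p = Nat.card {T : Finset (ZMod p × ZMod p) // T.card = 10 ∧ B1.Good T} *
      Nat.factorial 10 := by
    unfold N10
    rw [← Nat.card_congr (Equiv.ofBijective _ (B1.toTup_bij (p := p))), Nat.card_sigma]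
    have h2 : ∀ T : {T : Finset (ZMod p × ZMod p) // T.card = 10 ∧ B1.Good T},
        Nat.card (Fin 10 ≃ T.1) = Nat.factorial 10 := by
      intro T
      have e : Fin 10 ≃ T.1 := Fintype.equivOfCardEq (by rw [Fintype.card_fin, Fintype.card_coe, T.2.1])
      rw [Nat.card_eq_fintype_card, Fintype.card_equiv e, Fintype.card_fin]
    rw [sum_congr rfl fun T _ => h2 T, sum_const, card_univ, Nat.card_eq_fintype_card, smul_eq_mul]
  have h3 : Nat.card {T : Finset (ZMod p × ZMod p) // T.card = 10 ∧ B1.Good T} +
      Nat.card {T : Finset (ZMod p × ZMod p) // T.card = 10 ∧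
        ∃ c : Co p, c ≠ 0 ∧ ∀ P ∈ T, cub c P = 0} = (p ^ 2).choose 10 := by
    have h4 : Fintype.card {T : Finset (ZMod p × ZMod p) // T.card = 10} = (p ^ 2).choose 10 := by
      rw [Fintype.card_finset_len, Fintype.card_prod, ZMod.card, pow_two]
    rw [← h4, Nat.card_eq_fintype_card, Nat.card_eq_fintype_card, Fintype.card_subtype,
      Fintype.card_subtype, Fintype.card_subtype]
    rw [← Finset.card_filter_add_card_filter_not (s := univ.filter
      (fun T : Finset (ZMod p × ZMod p) => T.card = 10)) (fun T => B1.Good T)]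
    rw [filter_filter, filter_filter]
    congr 2
    refine filter_congr fun T _ => and_congr_right fun _ => ?_
    unfold B1.Good
    push Not
    constructor
    · rintro ⟨c, hc, h⟩
      exact ⟨c, h, hc⟩
    · rintro ⟨c, h, hc⟩
      exact ⟨c, hc, h⟩
  rw [h1, ← h3]
  push_cast
  ring

end Pool.Agent.T2H70.SR
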