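import Pool.Agent.T2H70.SR.Defs
import Pool.Agent.H371R3.GQ.A1
import Pool.Agent.Chud.PD1

set_option autoImplicit false

/-!
# Package B2: cubics through ten points (Bezout)

If `c` has no rational line, `c' ≠ 0` and ten distinct points lie on both cubics, then `c' = λ c` with `λ ≠ 0`: the ternary cubic
form of `c` is irreducible over `ZMod p` (a reducible cubic form has a linear factor, i.e. a rational line), so if the two forms have a
common factor then `c` divides `c'`, and otherwise Bezout gives at most 9 common points. Bezout for two relatively prime forms over any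
field is in the start library: `Pool.Agent.H371R3.GQ.bezout` in `Pool/Agent/H371R3/GQ/A1.lean`
(points `v i : Fin 3 → k` pairwise linearly independent; here `v = ![x, y, 1]`). Copy that file (and its imports) from
`outputs/live` to your working tree.

Consequence (second theorem): a set of ten points on some nonzero cubic is either on a cubic with a rational line (`RedT`) or on a cubic
`c` without rational line, which is then unique up to the `p - 1` scalars, and the two cases exclude each other; summing over `c`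
the number of 10-subsets of its affine points counts each such set `p - 1` times. The `c` without rational line are split into those with
a rational singular point and those without (`Ns`).
-/

namespace Pool.Agent.T2H70.SR

open Finset
open scoped BigOperators

namespace B2

open MvPolynomial

variable {p : ℕ}

/-- the cubic form as a polynomial -/
noncomputable def Fc (c : Co p) : MvPolynomial (Fin 3) (ZMod p) :=
  C (c 0) * (X 0 * X 0 * X 0) + C (c 1) * (X 0 * X 0 * X 1) + C (c 2) * (X 0 * X 0 * X 2)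
    + C (c 3) * (X 0 * X 1 * X 1) + C (c 4) * (X 0 * X 1 * X 2) + C (c 5) * (X 0 * X 2 * X 2)
    + C (c 6) * (X 1 * X 1 * X 1) + C (c 7) * (X 1 * X 1 * X 2) + C (c 8) * (X 1 * X 2 * X 2)
    + C (c 9) * (X 2 * X 2 * X 2)

theorem eval_Fc (c : Co p) (v : Fin 3 → ZMod p) : eval v (Fc c) = form c v := by
  simp only [Fc, form, map_add, map_mul, eval_C, eval_X]
  ring

theorem term_hom (a : ZMod p) (i j k : Fin 3) :
    (C a * (X i * X j * X k) : MvPolynomial (Fin 3) (ZMod p)).IsHomogeneous 3 := by
  have h := (isHomogeneous_C (Fin 3) a).mul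
    (((isHomogeneous_X (ZMod p) i).mul (isHomogeneous_X (ZMod p) j)).mul
      (isHomogeneous_X (ZMod p) k))
  simpa using h

theorem Fc_hom (c : Co p) : (Fc c).IsHomogeneous 3 := by
  unfold Fc
  exact ((((((((((term_hom _ _ _ _).add (term_hom _ _ _ _)).add (term_hom _ _ _ _)).add
    (term_hom _ _ _ _)).add (term_hom _ _ _ _)).add (term_hom _ _ _ _)).add
    (term_hom _ _ _ _)).add (term_hom _ _ _ _)).add (term_hom _ _ _ _)).add (term_hom _ _ _ _))

theorem cast_ne [Fact p.Prime] (hp : 5 ≤ p) : (2 : ZMod p) ≠ 0 ∧ (3 : ZMod p) ≠ 0 := by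
  have hpp : p.Prime := Fact.out
  constructor
  · intro h
    have h1 : ((2 : ℕ) : ZMod p) = 0 := by exact_mod_cast h
    rw [ZMod.natCast_eq_zero_iff] at h1
    have := Nat.le_of_dvd (by norm_num) h1
    omega
  · intro h
    have h1 : ((3 : ℕ) : ZMod p) = 0 := by exact_mod_cast h
    rw [ZMod.natCast_eq_zero_iff] at h1
    have := Nat.le_of_dvd (by norm_num) h1
    omega

/-- a binary cubic form vanishing everywhere is zero -/
theorem bin_zero [Fact p.Prime] (hp : 5 ≤ p) (a b c d : ZMod p)
    (h : ∀ x y : ZMod p, a * x ^ 3 + b * x ^ 2 * y + c * x * y ^ 2 + d * y ^ 3 = 0) :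
    a = 0 ∧ b = 0 ∧ c = 0 ∧ d = 0 := by
  obtain ⟨h2, h3⟩ := cast_ne hp
  have ha : a = 0 := by have := h 1 0; simpa using this
  have hd : d = 0 := by have := h 0 1; simpa using this
  subst ha; subst hd
  have e1 := h 1 1
  have e2 := h 1 (-1)
  have e3 := h 1 2
  have hc : (2 : ZMod p) * c = 0 := by linear_combination e1 + e2
  have hc' : c = 0 := by
    rcases mul_eq_zero.1 hc with h | h
    · exact absurd h h2
    · exact h
  subst hc'
  have hb : b = 0 := by linear_combination e1
  exact ⟨rfl, hb, rfl, rfl⟩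

theorem form_zero [Fact p.Prime] (hp : 5 ≤ p) (c : Co p) (h : ∀ v, form c v = 0) : c = 0 := by
  have h1 := bin_zero hp (c 0) (c 1) (c 3) (c 6) (fun x y => by
    have := h ![x, y, 0]
    simp [form] at this
    linear_combination this)
  have h2 := bin_zero hp (c 0) (c 2) (c 5) (c 9) (fun x y => by
    have := h ![x, 0, y]
    simp [form] at this
    linear_combination this)
  have h3 := bin_zero hp (c 6) (c 7) (c 8) (c 9) (fun x y => by
    have := h ![0, x, y]
    simp [form] at this
    linear_combination this)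
  obtain ⟨e0, e1, e3, e6⟩ := h1
  obtain ⟨_, e2, e5, e9⟩ := h2
  obtain ⟨_, e7, e8, _⟩ := h3
  have e4 : c 4 = 0 := by
    have := h ![1, 1, 1]
    simp [form, e0, e1, e2, e3, e5, e6, e7, e8, e9] at this
    exact this
  funext i
  fin_cases i <;> simp [e0, e1, e2, e3, e4, e5, e6, e7, e8, e9]

theorem Fc_ne_zero [Fact p.Prime] (hp : 5 ≤ p) {c : Co p} (hc : c ≠ 0) : Fc c ≠ 0 := by
  intro h
  apply hc
  apply form_zero hp
  intro v
  rw [← eval_Fc, h, map_zero]

theorem lin_of_deg_one [Fact p.Prime] {D : MvPolynomial (Fin 3) (ZMod p)} (hD : D.IsHomogeneous 1)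
    (hD0 : D ≠ 0) : ∃ l : Fin 3 → ZMod p, l ≠ 0 ∧ ∀ v, eval v D = dot3 l v := by
  have h1 : D ∈ homogeneousSubmodule (Fin 3) (ZMod p) 1 := hD
  rw [homogeneousSubmodule_one_eq_span_X, Submodule.mem_span_range_iff_exists_fun] at h1
  obtain ⟨l, hl⟩ := h1
  refine ⟨l, ?_, ?_⟩
  · rintro rfl
    apply hD0
    rw [← hl]; simp
  · intro v
    rw [← hl, Fin.sum_univ_three]
    simp [dot3, smul_eval]

theorem not_hasLine_ne_zero {c : Co p} [Fact p.Prime] (hc : ¬ HasLine c) : c ≠ 0 := by
  rintro rfl
  apply hc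
  refine ⟨fun _ => 1, ?_, ?_⟩
  · intro h
    exact one_ne_zero (congrFun h 0)
  · intro v _
    simp [form]

theorem hasLine_of_factor {c : Co p} [Fact p.Prime] (hp : 5 ≤ p) (hc0 : c ≠ 0)
    {D : MvPolynomial (Fin 3) (ZMod p)} (hD : D ∣ Fc c) (hdeg : D.totalDegree = 1) :
    HasLine c := by
  have hhom := Chud.homog_of_dvd (Fc_hom c) (Fc_ne_zero hp hc0) hD
  rw [hdeg] at hhom
  have hD0 : D ≠ 0 := by
    rintro rfl
    simp at hdeg
  obtain ⟨l, hl, hl2⟩ := lin_of_deg_one hhom hD0
  refine ⟨l, hl, ?_⟩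
  intro v hv
  obtain ⟨Q, hQ⟩ := hD
  rw [← eval_Fc, hQ, map_mul, hl2, hv, zero_mul]

theorem pt_indep [Fact p.Prime] (P P' : ZMod p × ZMod p) (h : P ≠ P') :
    LinearIndependent (ZMod p) ![(![P.1, P.2, 1] : Fin 3 → ZMod p), ![P'.1, P'.2, 1]] := by
  rw [LinearIndependent.pair_iff]
  intro s t hst
  have h0 := congrFun hst 0
  have h1 := congrFun hst 1
  have h2 := congrFun hst 2
  simp at h0 h1 h2
  have ht : t = -s := by linear_combination h2
  subst ht
  by_cases hs : s = 0
  · subst hs; simp
  · exfalso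
    apply h
    have e0 : s * (P.1 - P'.1) = 0 := by linear_combination h0
    have e1 : s * (P.2 - P'.2) = 0 := by linear_combination h1
    rcases mul_eq_zero.1 e0 with h3 | h3
    · exact absurd h3 hs
    · rcases mul_eq_zero.1 e1 with h4 | h4
      · exact absurd h4 hs
      · exact Prod.ext (sub_eq_zero.1 h3) (sub_eq_zero.1 h4)

end B2

open B2 MvPolynomial in
theorem bezout10 (p : ℕ) [Fact p.Prime] (hp : 5 ≤ p) (T : Finset (ZMod p × ZMod p))
    (hT : T.card = 10) (c c' : Co p) (hc : ¬ HasLine c) (hc' : c' ≠ 0)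
    (h : ∀ P ∈ T, cub c P = 0) (h' : ∀ P ∈ T, cub c' P = 0) :
    ∃ l : ZMod p, l ≠ 0 ∧ c' = l • c := by
  have hc0 : c ≠ 0 := not_hasLine_ne_zero hc
  have hF0 := Fc_ne_zero hp hc0
  have hG0 := Fc_ne_zero hp hc'
  by_cases hcop : IsRelPrime (Fc c) (Fc c')
  · exfalso
    have hb := Pool.Agent.H371R3.GQ.bezout (k := ZMod p) (ι := T)
      (fun P => (![(P : ZMod p × ZMod p).1, (P : ZMod p × ZMod p).2, 1] : Fin 3 → ZMod p))
      (fun i j hij => pt_indep _ _ (fun h => hij (Subtype.ext h)))
      (fun i hi => by have := congrFun hi 2; simp at this)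
      (Fc_hom c) (Fc_hom c') hG0 hcop
      (fun i => by rw [eval_Fc]; exact h i i.2)
      (fun i => by rw [eval_Fc]; exact h' i i.2)
    rw [Fintype.card_coe, hT] at hb
    omega
  · unfold IsRelPrime at hcop
    push Not at hcop
    obtain ⟨D, hDF, hDG, hDu⟩ := hcop
    have hD0 : D ≠ 0 := by
      rintro rfl
      exact hF0 (zero_dvd_iff.1 hDF)
    obtain ⟨Q, hQ⟩ := hDF
    have hQ0 : Q ≠ 0 := by
      rintro rfl
      rw [mul_zero] at hQ; exact hF0 hQ
    have hdeg : D.totalDegree + Q.totalDegree = 3 := by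
      rw [← totalDegree_mul_of_isDomain hD0 hQ0, ← hQ]
      exact (Fc_hom c).totalDegree hF0
    have hDdeg : D.totalDegree ≠ 0 := by
      intro h0
      apply hDu
      rw [totalDegree_eq_zero_iff_eq_C] at h0
      rw [h0]
      apply IsUnit.map
      rw [isUnit_iff_ne_zero]
      intro h1
      rw [h1, map_zero] at h0
      exact hD0 h0
    have h1 : D.totalDegree ≠ 1 := by
      intro h1
      exact hc (hasLine_of_factor hp hc0 ⟨Q, hQ⟩ h1)
    have h2 : Q.totalDegree ≠ 1 := by
      intro h1
      exact hc (hasLine_of_factor hp hc0 ⟨D, by rw [hQ, mul_comm]⟩ h1)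
    have h3 : Q.totalDegree = 0 := by omega
    have h4 : D.totalDegree = 3 := by omega
    rw [totalDegree_eq_zero_iff_eq_C] at h3
    set q := coeff 0 Q with hq
    have hq0 : q ≠ 0 := by
      intro h0
      rw [h0, map_zero] at h3
      exact hQ0 h3
    obtain ⟨R, hR⟩ := hDG
    have hR0 : R ≠ 0 := by
      rintro rfl
      rw [mul_zero] at hR; exact hG0 hR
    have hdegR : D.totalDegree + R.totalDegree = 3 := by
      rw [← totalDegree_mul_of_isDomain hD0 hR0, ← hR]
      exact (Fc_hom c').totalDegree hG0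
    have h5 : R.totalDegree = 0 := by omega
    rw [totalDegree_eq_zero_iff_eq_C] at h5
    set r := coeff 0 R with hr
    have hr0 : r ≠ 0 := by
      intro h0
      rw [h0, map_zero] at h5
      exact hR0 h5
    refine ⟨r / q, div_ne_zero hr0 hq0, ?_⟩
    have h6 : c' - (r / q) • c = 0 := by
      apply form_zero hp
      intro v
      have e1 : form c v = eval v D * q := by rw [← eval_Fc, hQ, h3, map_mul, eval_C]
      have e2 : form c' v = eval v D * r := by rw [← eval_Fc, hR, h5, map_mul, eval_C]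
      have e3 : form (c' - (r / q) • c) v = form c' v - (r / q) * form c v := by
        simp only [form, Pi.sub_apply, Pi.smul_apply, smul_eq_mul]
        ring
      rw [e3, e1, e2]
      field_simp
      ring
    exact sub_eq_zero.1 h6

namespace B2

variable {p : ℕ} [Fact p.Prime]

theorem form_smul (l : ZMod p) (c : Co p) (v : Fin 3 → ZMod p) :
    form (l • c) v = l * form c v := by
  simp only [form, Pi.smul_apply, smul_eq_mul]
  ring

theorem hasLine_smul {l : ZMod p} {c : Co p} (h : HasLine c) : HasLine (l • c) := by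
  obtain ⟨m, hm, hm2⟩ := h
  exact ⟨m, hm, fun v hv => by rw [form_smul, hm2 v hv, mul_zero]⟩

theorem hasLine_smul_iff {l : ZMod p} (hl : l ≠ 0) {c : Co p} : HasLine (l • c) ↔ HasLine c := by
  constructor
  · intro h
    have := hasLine_smul (l := l⁻¹) h
    rwa [smul_smul, inv_mul_cancel₀ hl, one_smul] at this
  · exact hasLine_smul

open Classical in
theorem count_c (hp : 5 ≤ p) (T : Finset (ZMod p × ZMod p)) (hT : T.card = 10) :
    ((univ : Finset (Co p)).filter (fun c => ¬ HasLine c ∧ ∀ P ∈ T, cub c P = 0)).card =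
      if (∃ c : Co p, c ≠ 0 ∧ ∀ P ∈ T, cub c P = 0) ∧ ¬ RedT T then p - 1 else 0 := by
  split_ifs with h
  · obtain ⟨⟨c, hc, hcT⟩, hred⟩ := h
    have hcl : ¬ HasLine c := fun hl => hred ⟨c, hc, hl, hcT⟩
    have himg : (univ : Finset (Co p)).filter (fun c => ¬ HasLine c ∧ ∀ P ∈ T, cub c P = 0) =
        ((univ : Finset (ZMod p)).erase 0).image (fun l => l • c) := by
      ext c'
      simp only [Finset.mem_filter, Finset.mem_univ, true_and, Finset.mem_image, Finset.mem_erase,
        and_true]
      constructor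
      · rintro ⟨h1, h2⟩
        obtain ⟨l, hl, hl2⟩ := bezout10 p hp T hT c c' hcl (not_hasLine_ne_zero h1) hcT h2
        exact ⟨l, hl, hl2.symm⟩
      · rintro ⟨l, hl, rfl⟩
        refine ⟨fun h => hcl ((hasLine_smul_iff hl).1 h), fun P hP => ?_⟩
        unfold cub
        rw [form_smul]
        have := hcT P hP
        unfold cub at this
        rw [this, mul_zero]
    rw [himg, Finset.card_image_of_injective, Finset.card_erase_of_mem (Finset.mem_univ _),
      Finset.card_univ, ZMod.card]
    intro l l' hll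
    exact smul_left_injective _ hc hll
  · rw [Finset.card_eq_zero, Finset.filter_eq_empty_iff]
    intro c _ ⟨h1, h2⟩
    apply h
    refine ⟨⟨c, not_hasLine_ne_zero h1, h2⟩, ?_⟩
    rintro ⟨c', hc', hl', hT'⟩
    obtain ⟨l, hl, hl2⟩ := bezout10 p hp T hT c c' h1 hc' h2 hT'
    rw [hl2] at hl'
    exact h1 ((hasLine_smul_iff hl).1 hl')

end B2

open B2 in
open Classical in
theorem card_cubT (p : ℕ) [Fact p.Prime] (hp : 5 ≤ p) :
    (Nat.card {T : Finset (ZMod p × ZMod p) // T.card = 10 ∧
        ∃ c : Co p, c ≠ 0 ∧ ∀ P ∈ T, cub c P = 0} : ℚ) =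
      (Nat.card {T : Finset (ZMod p × ZMod p) // T.card = 10 ∧ RedT T} : ℚ)
      + (∑ c : Co p, if ¬ HasLine c ∧ (∃ v, Sing c v) then
          ((Nat.card {P : ZMod p × ZMod p // cub c P = 0}).choose 10 : ℚ) else 0) / ((p : ℚ) - 1)
      + (∑ c : Co p, if Ns c then
          ((Nat.card {P : ZMod p × ZMod p // cub c P = 0}).choose 10 : ℚ) else 0) / ((p : ℚ) - 1) := by
  have hp1 : ((p : ℚ) - 1) ≠ 0 := by
    have : (5 : ℚ) ≤ p := by exact_mod_cast hp
    intro h
    linarith
  -- split of the sum over c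
  have hsplit : (∑ c : Co p, if ¬ HasLine c ∧ (∃ v, Sing c v) then
          ((Nat.card {P : ZMod p × ZMod p // cub c P = 0}).choose 10 : ℚ) else 0)
      + (∑ c : Co p, if Ns c then
          ((Nat.card {P : ZMod p × ZMod p // cub c P = 0}).choose 10 : ℚ) else 0) =
      ∑ c : Co p, if ¬ HasLine c then
          ((Nat.card {P : ZMod p × ZMod p // cub c P = 0}).choose 10 : ℚ) else 0 := by
    rw [← Finset.sum_add_distrib]
    refine Finset.sum_congr rfl fun c _ => ?_
    by_cases h1 : HasLine c
    · rw [if_neg (fun h => h.1 h1), if_neg (fun h => h.1 h1), if_neg (fun h => h h1), add_zero]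
    · by_cases h2 : ∃ v, Sing c v
      · rw [if_pos ⟨h1, h2⟩, if_neg (fun h : Ns c => by
          obtain ⟨v, hv⟩ := h2; exact h.2 v hv), if_pos h1, add_zero]
      · push Not at h2
        rw [if_neg (fun h => by obtain ⟨v, hv⟩ := h.2; exact h2 v hv), if_pos ⟨h1, h2⟩,
          if_pos h1, zero_add]
  -- the double count
  set U : Finset (Finset (ZMod p × ZMod p)) :=
    (univ : Finset (Finset (ZMod p × ZMod p))).filter (fun T => T.card = 10) with hU
  have hdouble : (∑ c : Co p, if ¬ HasLine c then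
          ((Nat.card {P : ZMod p × ZMod p // cub c P = 0}).choose 10 : ℚ) else 0) =
      ∑ T ∈ U, (((univ : Finset (Co p)).filter
        (fun c => ¬ HasLine c ∧ ∀ P ∈ T, cub c P = 0)).card : ℚ) := by
    have h1 : ∀ T ∈ U, (((univ : Finset (Co p)).filter
        (fun c => ¬ HasLine c ∧ ∀ P ∈ T, cub c P = 0)).card : ℚ) =
        ∑ c : Co p, if (¬ HasLine c ∧ ∀ P ∈ T, cub c P = 0) then (1 : ℚ) else 0 := by
      intro T _
      rw [Finset.sum_boole]
    rw [Finset.sum_congr rfl h1, Finset.sum_comm]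
    refine Finset.sum_congr rfl fun c _ => ?_
    by_cases hl : HasLine c
    · rw [if_neg (fun h => h hl)]
      symm
      refine Finset.sum_eq_zero fun T _ => ?_
      rw [if_neg (fun h => h.1 hl)]
    · rw [if_pos hl]
      have h2 : ∀ T ∈ U, (if (¬ HasLine c ∧ ∀ P ∈ T, cub c P = 0) then (1 : ℚ) else 0) =
          if (∀ P ∈ T, cub c P = 0) then (1 : ℚ) else 0 := by
        intro T _
        by_cases h3 : ∀ P ∈ T, cub c P = 0
        · rw [if_pos ⟨hl, h3⟩, if_pos h3]
        · rw [if_neg (fun h => h3 h.2), if_neg h3]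
      rw [Finset.sum_congr rfl h2, Finset.sum_boole]
      have h4 : U.filter (fun T => ∀ P ∈ T, cub c P = 0) =
          powersetCard 10 ((univ : Finset (ZMod p × ZMod p)).filter (fun P => cub c P = 0)) := by
        ext T
        simp only [hU, Finset.mem_filter, Finset.mem_univ, true_and, Finset.mem_powersetCard]
        constructor
        · rintro ⟨h5, h6⟩
          exact ⟨fun P hP => by simp [h6 P hP], h5⟩
        · rintro ⟨h5, h6⟩
          exact ⟨h6, fun P hP => by simpa using h5 hP⟩
      rw [h4, Finset.card_powersetCard]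
      congr 2
      rw [Nat.card_eq_fintype_card, Fintype.card_subtype]
  have hcount : (∑ T ∈ U, (((univ : Finset (Co p)).filter
        (fun c => ¬ HasLine c ∧ ∀ P ∈ T, cub c P = 0)).card : ℚ)) =
      ((p : ℚ) - 1) * ((U.filter (fun T => (∃ c : Co p, c ≠ 0 ∧ ∀ P ∈ T, cub c P = 0) ∧
        ¬ RedT T)).card : ℚ) := by
    have h1 : ∀ T ∈ U, (((univ : Finset (Co p)).filter
        (fun c => ¬ HasLine c ∧ ∀ P ∈ T, cub c P = 0)).card : ℚ) =
        ((p : ℚ) - 1) * (if ((∃ c : Co p, c ≠ 0 ∧ ∀ P ∈ T, cub c P = 0) ∧ ¬ RedT T)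
          then (1 : ℚ) else 0) := by
      intro T hTU
      have hT : T.card = 10 := by simpa [hU] using hTU
      have h2 := count_c hp T hT
      rw [h2]
      split_ifs
      · rw [Nat.cast_sub (by omega), mul_one]; simp
      · simp
    rw [Finset.sum_congr rfl h1, ← Finset.mul_sum, Finset.sum_boole]
  have hA : (Nat.card {T : Finset (ZMod p × ZMod p) // T.card = 10 ∧
        ∃ c : Co p, c ≠ 0 ∧ ∀ P ∈ T, cub c P = 0} : ℚ) =
      ((U.filter (fun T => (∃ c : Co p, c ≠ 0 ∧ ∀ P ∈ T, cub c P = 0))).card : ℚ) := by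
    rw [Nat.card_eq_fintype_card, Fintype.card_subtype]
    congr 2
    ext T
    simp [hU]
  have hB : (Nat.card {T : Finset (ZMod p × ZMod p) // T.card = 10 ∧ RedT T} : ℚ) =
      ((U.filter (fun T => RedT T)).card : ℚ) := by
    rw [Nat.card_eq_fintype_card, Fintype.card_subtype]
    congr 2
    ext T
    simp [hU]
  have hC : ((U.filter (fun T => (∃ c : Co p, c ≠ 0 ∧ ∀ P ∈ T, cub c P = 0))).card : ℚ) =
      ((U.filter (fun T => RedT T)).card : ℚ) +
      ((U.filter (fun T => (∃ c : Co p, c ≠ 0 ∧ ∀ P ∈ T, cub c P = 0) ∧ ¬ RedT T)).card : ℚ) := by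
    rw [← Nat.cast_add, ← Finset.card_union_of_disjoint]
    · congr 2
      ext T
      simp only [Finset.mem_union, Finset.mem_filter]
      constructor
      · rintro ⟨h1, h2⟩
        by_cases h3 : RedT T
        · exact Or.inl ⟨h1, h3⟩
        · exact Or.inr ⟨h1, h2, h3⟩
      · rintro (⟨h1, h2⟩ | ⟨h1, h2, _⟩)
        · obtain ⟨c, hc, _, hcT⟩ := h2
          exact ⟨h1, c, hc, hcT⟩
        · exact ⟨h1, h2⟩
    · rw [Finset.disjoint_left]
      intro T h1 h2
      exact (Finset.mem_filter.1 h2).2.2 (Finset.mem_filter.1 h1).2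
  rw [hA, hB, hC, add_assoc, ← add_div, hsplit, hdouble, hcount]
  field_simp

end Pool.Agent.T2H70.SR
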