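import Pool.Agent.T2H70.SR.Defs

set_option autoImplicit false

/-!
# Package B3: classification of ten points on a cubic with a rational line

`T` has ten points. (`→`) If `T` lies on a cubic `c ≠ 0` containing a rational line `l`, then `form c = l * q` with a nonzero quadratic form
`q` (for `p ≥ 5` a cubic form vanishing at all rational points of a line is divisible by its equation; after a linear
change of coordinates, or directly). If `l` is the line at infinity then `T ⊆ V(q)`, `q` of degree `≤ 2`; take any affine line for `l`.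
So `T ⊆ l ∪ V(q)`. If `Nsc q`: the points off `V(q)` are on `l`, and if not `R1 T` there are at most 4 of them: `R2`.
If not `Nsc q` (degenerate conic): `V(q)` is contained in the union of two affine lines, or is at most one point
[a degenerate quadratic form in three variables over `ZMod p`, `p` odd, is after a linear change of coordinates `α x² + β y²`:
product of two linear forms if `-αβ` is a square, otherwise only the zero `[0:0:1]`], so `T` lies on three affine lines, hence
`R1` or `R3` (a single point or the line at infinity can be replaced by any affine line through it).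
(`←`) `R1`: five points on a line, the other at most five points are on a conic `q ≠ 0` (6 coefficients): product. `R2`, `R3`: product.
`R2` and `R3` exclude each other: suppose `T` is on three lines, each containing at most 4 points of `T`, and at least 6 points of `T` on a
nonsingular conic `q`, the rest on a line `m`. A line contains at most two points of `q`, so `|T ∩ V(q)| = 6`, exactly two on each of
the three lines, and 4 points are on `m`. If `m` is one of the three lines it contains `4 + 2` points of `T`, contradiction; otherwise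
`m` meets the union of the three lines in at most 3 points, contradiction.
-/

namespace Pool.Agent.T2H70.SR

open Finset
open scoped BigOperators

section
variable {p : ℕ} [Fact p.Prime]

lemma b3_two (hp : 5 ≤ p) : (2 : ZMod p) ≠ 0 := by
  have h : ((2 : ℕ) : ZMod p) ≠ 0 := by
    rw [Ne, ZMod.natCast_eq_zero_iff]
    intro h
    have := Nat.le_of_dvd (by norm_num) h
    omega
  exact_mod_cast h

/-- a binary cubic form that vanishes everywhere is zero -/
lemma b3_bin (hp : 5 ≤ p) (k0 k1 k2 k3 : ZMod p)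
    (h : ∀ x z : ZMod p, k0 * x ^ 3 + k1 * x ^ 2 * z + k2 * x * z ^ 2 + k3 * z ^ 3 = 0) :
    k0 = 0 ∧ k1 = 0 ∧ k2 = 0 ∧ k3 = 0 := by
  have h1 := h 1 0
  have h2 := h 0 1
  have h3 := h 1 1
  have h4 := h 1 (-1)
  have e0 : k0 = 0 := by linear_combination h1
  have e3 : k3 = 0 := by linear_combination h2
  have e2 : 2 * k2 = 0 := by linear_combination h3 + h4 - 2 * h1
  have e2' : k2 = 0 := (mul_eq_zero.1 e2).resolve_left (b3_two hp)
  have e1 : k1 = 0 := by linear_combination h3 - h1 - h2 - e2'
  exact ⟨e0, e1, e2', e3⟩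

lemma b3_fact (hp : 5 ≤ p) (c : Co p) (hc : c ≠ 0) (l : Fin 3 → ZMod p) (hl : l ≠ 0)
    (h : ∀ v, dot3 l v = 0 → form c v = 0) :
    ∃ q : Fin 6 → ZMod p, q ≠ 0 ∧ ∃ a b e : ZMod p, (a, b) ≠ (0, 0) ∧
      ∀ P : ZMod p × ZMod p, cub c P = 0 → a * P.1 + b * P.2 = e ∨ qd q P = 0 := by
  by_cases h1 : l 1 = 0
  · by_cases h0 : l 0 = 0
    · -- line at infinity
      have h2 : l 2 ≠ 0 := by
        intro h2
        apply hl
        funext i
        fin_cases i
        · exact h0
        · exact h1
        · exact h2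
      obtain ⟨e0, e1, e3, e6⟩ := b3_bin hp (c 0) (c 1) (c 3) (c 6) (by
        intro x y
        have := h ![x, y, 0] (by simp [dot3, h0, h1])
        simp only [form, Matrix.cons_val] at this
        linear_combination this)
      refine ⟨![c 2, c 4, c 7, c 5, c 8, c 9], ?_, 1, 0, 0, by simp, ?_⟩
      · intro hq
        apply hc
        funext i
        have g : ∀ j, (![c 2, c 4, c 7, c 5, c 8, c 9] : Fin 6 → ZMod p) j = 0 := fun j => by
          rw [hq]; rfl
        fin_cases i
        · exact e0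
        · exact e1
        · exact g 0
        · exact e3
        · exact g 1
        · exact g 3
        · exact e6
        · exact g 2
        · exact g 4
        · exact g 5
      · intro P hP
        right
        simp only [cub, form, Matrix.cons_val] at hP
        simp only [qd, Matrix.cons_val]
        rw [e0, e1, e3, e6] at hP
        linear_combination hP
    · -- l = (l0, 0, l2)
      obtain ⟨γ, hγ⟩ : ∃ γ, l 2 = -γ * l 0 := ⟨-(l 2 / l 0), by field_simp⟩
      obtain ⟨e6, e7, e8, e9⟩ := b3_bin hp (c 6) (c 3 * γ + c 7) (c 1 * γ ^ 2 + c 4 * γ + c 8)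
        (c 0 * γ ^ 3 + c 2 * γ ^ 2 + c 5 * γ + c 9) (by
        intro y z
        have := h ![γ * z, y, z] (by simp [dot3, h1, hγ]; ring)
        simp only [form, Matrix.cons_val] at this
        linear_combination this)
      refine ⟨![c 0, c 1, c 3, c 2 + c 0 * γ, c 4 + c 1 * γ, c 5 + c 2 * γ + c 0 * γ ^ 2], ?_,
        1, 0, γ, by simp, ?_⟩
      · intro hq
        apply hc
        have g : ∀ j, (![c 0, c 1, c 3, c 2 + c 0 * γ, c 4 + c 1 * γ,
            c 5 + c 2 * γ + c 0 * γ ^ 2] : Fin 6 → ZMod p) j = 0 := fun j => by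
          rw [hq]; rfl
        have g0 : c 0 = 0 := g 0
        have g1 : c 1 = 0 := g 1
        have g3 : c 3 = 0 := g 2
        have g2 : c 2 = 0 := by
          have : c 2 + c 0 * γ = 0 := g 3
          rw [g0] at this; linear_combination this
        have g4 : c 4 = 0 := by
          have : c 4 + c 1 * γ = 0 := g 4
          rw [g1] at this; linear_combination this
        have g5 : c 5 = 0 := by
          have : c 5 + c 2 * γ + c 0 * γ ^ 2 = 0 := g 5
          rw [g0, g2] at this; linear_combination this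
        rw [g3] at e7
        rw [g1, g4] at e8
        rw [g0, g2, g5] at e9
        funext i
        fin_cases i
        · exact g0
        · exact g1
        · exact g2
        · exact g3
        · exact g4
        · exact g5
        · exact e6
        · show c 7 = 0; linear_combination e7
        · show c 8 = 0; linear_combination e8
        · show c 9 = 0; linear_combination e9
      · intro P hP
        have e : cub c P = (P.1 - γ) * qd ![c 0, c 1, c 3, c 2 + c 0 * γ, c 4 + c 1 * γ,
            c 5 + c 2 * γ + c 0 * γ ^ 2] P := by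
          simp only [cub, form, qd, Matrix.cons_val]
          linear_combination P.2 ^ 3 * e6 + P.2 ^ 2 * e7 + P.2 * e8 + e9
        rw [hP] at e
        rcases mul_eq_zero.1 e.symm with h3 | h3
        · left; linear_combination h3
        · right; exact h3
  · -- l 1 ≠ 0
    obtain ⟨α, hα⟩ : ∃ α, l 0 = -α * l 1 := ⟨-(l 0 / l 1), by field_simp⟩
    obtain ⟨γ, hγ⟩ : ∃ γ, l 2 = -γ * l 1 := ⟨-(l 2 / l 1), by field_simp⟩
    obtain ⟨e0, e2, e5, e9⟩ := b3_bin hp (c 0 + c 1 * α + c 3 * α ^ 2 + c 6 * α ^ 3)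
      (c 1 * γ + c 2 + 2 * c 3 * α * γ + c 4 * α + 3 * c 6 * α ^ 2 * γ + c 7 * α ^ 2)
      (c 3 * γ ^ 2 + c 4 * γ + c 5 + 3 * c 6 * α * γ ^ 2 + 2 * c 7 * α * γ + c 8 * α)
      (c 6 * γ ^ 3 + c 7 * γ ^ 2 + c 8 * γ + c 9) (by
      intro x z
      have := h ![x, α * x + γ * z, z] (by simp [dot3, hα, hγ]; ring)
      simp only [form, Matrix.cons_val] at this
      linear_combination this)
    refine ⟨![c 1 + c 3 * α + c 6 * α ^ 2, c 3 + c 6 * α, c 6,
      c 4 + c 3 * γ + c 7 * α + 2 * c 6 * α * γ, c 7 + c 6 * γ, c 8 + c 7 * γ + c 6 * γ ^ 2], ?_,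
      -α, 1, γ, by simp, ?_⟩
    · intro hq
      apply hc
      have g : ∀ j, (![c 1 + c 3 * α + c 6 * α ^ 2, c 3 + c 6 * α, c 6,
        c 4 + c 3 * γ + c 7 * α + 2 * c 6 * α * γ, c 7 + c 6 * γ, c 8 + c 7 * γ + c 6 * γ ^ 2]
          : Fin 6 → ZMod p) j = 0 := fun j => by
        rw [hq]; rfl
      have g6 : c 6 = 0 := g 2
      have g3 : c 3 = 0 := by
        have : c 3 + c 6 * α = 0 := g 1
        rw [g6] at this; linear_combination this
      have g7 : c 7 = 0 := by
        have : c 7 + c 6 * γ = 0 := g 4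
        rw [g6] at this; linear_combination this
      have g1 : c 1 = 0 := by
        have : c 1 + c 3 * α + c 6 * α ^ 2 = 0 := g 0
        rw [g6, g3] at this; linear_combination this
      have g4 : c 4 = 0 := by
        have : c 4 + c 3 * γ + c 7 * α + 2 * c 6 * α * γ = 0 := g 3
        rw [g6, g3, g7] at this; linear_combination this
      have g8 : c 8 = 0 := by
        have : c 8 + c 7 * γ + c 6 * γ ^ 2 = 0 := g 5
        rw [g6, g7] at this; linear_combination this
      rw [g1, g3, g6] at e0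
      rw [g1, g3, g4, g6, g7] at e2
      rw [g3, g4, g6, g7, g8] at e5
      rw [g6, g7, g8] at e9
      funext i
      fin_cases i
      · show c 0 = 0; linear_combination e0
      · exact g1
      · show c 2 = 0; linear_combination e2
      · exact g3
      · exact g4
      · show c 5 = 0; linear_combination e5
      · exact g6
      · exact g7
      · exact g8
      · show c 9 = 0; linear_combination e9
    · intro P hP
      have e : cub c P = (P.2 - α * P.1 - γ) * qd ![c 1 + c 3 * α + c 6 * α ^ 2, c 3 + c 6 * α, c 6,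
        c 4 + c 3 * γ + c 7 * α + 2 * c 6 * α * γ, c 7 + c 6 * γ, c 8 + c 7 * γ + c 6 * γ ^ 2] P := by
        simp only [cub, form, qd, Matrix.cons_val]
        linear_combination P.1 ^ 3 * e0 + P.1 ^ 2 * e2 + P.1 * e5 + e9
      rw [hP] at e
      rcases mul_eq_zero.1 e.symm with h3 | h3
      · left; linear_combination h3
      · right; exact h3

/-- a degenerate conic is contained in two lines, case `q 0 ≠ 0` -/
lemma b3_deg0 (hp : 5 ≤ p) (q : Fin 6 → ZMod p) (h0 : q 0 ≠ 0)
    (hd : 4 * q 0 * q 2 * q 5 + q 1 * q 3 * q 4 - q 0 * q 4 ^ 2 - q 2 * q 3 ^ 2 - q 5 * q 1 ^ 2 = 0) :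
    ∃ a b c a' b' c' : ZMod p, (a, b) ≠ (0, 0) ∧ (a', b') ≠ (0, 0) ∧
      ∀ P, qd q P = 0 → a * P.1 + b * P.2 = c ∨ a' * P.1 + b' * P.2 = c' := by
  have h2 := b3_two hp
  have h20 : 2 * q 0 ≠ 0 := mul_ne_zero h2 h0
  have hne : ∀ t : ZMod p, (2 * q 0, t) ≠ (0, 0) := fun t h => h20 (Prod.ext_iff.1 h).1
  by_cases hA : q 1 ^ 2 - 4 * q 0 * q 2 = 0
  · -- then B = 0
    have hB : 2 * q 1 * q 3 - 4 * q 0 * q 4 = 0 := by
      have : (2 * q 1 * q 3 - 4 * q 0 * q 4) ^ 2 = 0 := by
        linear_combination (-16 * q 0) * hd + 4 * (q 3 ^ 2 - 4 * q 0 * q 5) * hA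
      exact pow_eq_zero_iff (two_ne_zero) |>.1 this
    by_cases hC : ∃ s, q 3 ^ 2 - 4 * q 0 * q 5 = s ^ 2
    · obtain ⟨s, hs⟩ := hC
      refine ⟨2 * q 0, q 1, s - q 3, 2 * q 0, q 1, -s - q 3, hne _, hne _, fun P hP => ?_⟩
      have e : (2 * q 0 * P.1 + q 1 * P.2 - (s - q 3)) * (2 * q 0 * P.1 + q 1 * P.2 - (-s - q 3)) = 0 := by
        unfold qd at hP
        linear_combination 4 * q 0 * hP + P.2 ^ 2 * hA + P.2 * hB + hs
      rcases mul_eq_zero.1 e with h | h
      · left; linear_combination h
      · right; linear_combination h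
    · refine ⟨2 * q 0, q 1, 0, 2 * q 0, q 1, 0, hne _, hne _, fun P hP => ?_⟩
      exfalso
      apply hC
      refine ⟨2 * q 0 * P.1 + q 1 * P.2 + q 3, ?_⟩
      unfold qd at hP
      linear_combination -4 * q 0 * hP - P.2 ^ 2 * hA - P.2 * hB
  · -- A ≠ 0
    by_cases hS : ∃ s, q 1 ^ 2 - 4 * q 0 * q 2 = s ^ 2
    · obtain ⟨s, hs⟩ := hS
      have hs0 : s ≠ 0 := by
        intro h; apply hA; rw [hs, h]; ring
      -- w = y + B/(2A)
      obtain ⟨w, hw⟩ : ∃ w, 2 * q 1 * q 3 - 4 * q 0 * q 4 = 2 * s ^ 2 * w :=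
        ⟨(2 * q 1 * q 3 - 4 * q 0 * q 4) / (2 * s ^ 2), by field_simp⟩
      have hC : q 3 ^ 2 - 4 * q 0 * q 5 = s ^ 2 * w ^ 2 := by
        have e1 : 4 * s ^ 2 * (q 3 ^ 2 - 4 * q 0 * q 5 - s ^ 2 * w ^ 2) = 0 := by
          linear_combination (16 * q 0) * hd - 4 * (q 3 ^ 2 - 4 * q 0 * q 5) * hs
            + (2 * q 1 * q 3 - 4 * q 0 * q 4 + 2 * s ^ 2 * w) * hw
        have e2 : 4 * s ^ 2 ≠ 0 := by
          have : (4 : ZMod p) = 2 * 2 := by norm_num
          rw [this]
          exact mul_ne_zero (mul_ne_zero h2 h2) (pow_ne_zero 2 hs0)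
        have e3 := (mul_eq_zero.1 e1).resolve_left e2
        linear_combination e3
      refine ⟨2 * q 0, q 1 - s, s * w - q 3, 2 * q 0, q 1 + s, - s * w - q 3, hne _, hne _,
        fun P hP => ?_⟩
      have e : (2 * q 0 * P.1 + (q 1 - s) * P.2 - (s * w - q 3)) *
          (2 * q 0 * P.1 + (q 1 + s) * P.2 - (-s * w - q 3)) = 0 := by
        unfold qd at hP
        linear_combination 4 * q 0 * hP + P.2 ^ 2 * hs + P.2 * hw + hC
      rcases mul_eq_zero.1 e with h | h
      · left; linear_combination h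
      · right; linear_combination h
    · refine ⟨2 * q 0, q 1, - q 3, 2 * q 0, q 1, - q 3, hne _, hne _, fun P hP => ?_⟩
      left
      -- u² = A w²
      obtain ⟨w, hw⟩ : ∃ w, 2 * q 1 * q 3 - 4 * q 0 * q 4 = 2 * (q 1 ^ 2 - 4 * q 0 * q 2) * w :=
        ⟨(2 * q 1 * q 3 - 4 * q 0 * q 4) / (2 * (q 1 ^ 2 - 4 * q 0 * q 2)), by field_simp⟩
      have hC : q 3 ^ 2 - 4 * q 0 * q 5 = (q 1 ^ 2 - 4 * q 0 * q 2) * w ^ 2 := by
        have e1 : 4 * (q 1 ^ 2 - 4 * q 0 * q 2) *
            (q 3 ^ 2 - 4 * q 0 * q 5 - (q 1 ^ 2 - 4 * q 0 * q 2) * w ^ 2) = 0 := by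
          linear_combination (16 * q 0) * hd
            + (2 * q 1 * q 3 - 4 * q 0 * q 4 + 2 * (q 1 ^ 2 - 4 * q 0 * q 2) * w) * hw
        have e2 : 4 * (q 1 ^ 2 - 4 * q 0 * q 2) ≠ 0 := by
          have h4 : (4 : ZMod p) ≠ 0 := by
            have : (4 : ZMod p) = 2 * 2 := by norm_num
            rw [this]
            exact mul_ne_zero h2 h2
          exact mul_ne_zero h4 hA
        have e3 := (mul_eq_zero.1 e1).resolve_left e2
        linear_combination e3
      have e : (2 * q 0 * P.1 + q 1 * P.2 + q 3) ^ 2 =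
          (q 1 ^ 2 - 4 * q 0 * q 2) * (P.2 + w) ^ 2 := by
        unfold qd at hP
        linear_combination 4 * q 0 * hP + P.2 * hw + hC
      by_cases hz : P.2 + w = 0
      · rw [hz] at e
        have : 2 * q 0 * P.1 + q 1 * P.2 + q 3 = 0 := by
          apply pow_eq_zero_iff (two_ne_zero) |>.1
          rw [e]; ring
        linear_combination this
      · exfalso
        apply hS
        refine ⟨(2 * q 0 * P.1 + q 1 * P.2 + q 3) / (P.2 + w), ?_⟩
        rw [div_pow, e]
        field_simp

lemma b3_deg (hp : 5 ≤ p) (q : Fin 6 → ZMod p) (hq : q ≠ 0) (hn : ¬ Nsc q) :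
    ∃ a b c a' b' c' : ZMod p, (a, b) ≠ (0, 0) ∧ (a', b') ≠ (0, 0) ∧
      ∀ P, qd q P = 0 → a * P.1 + b * P.2 = c ∨ a' * P.1 + b' * P.2 = c' := by
  have hd := not_not.1 hn
  by_cases h0 : q 0 = 0
  · by_cases h2 : q 2 = 0
    · rw [h0, h2] at hd
      by_cases h1 : q 1 = 0
      · by_cases h3 : (q 3, q 4) = (0, 0)
        · have e3 : q 3 = 0 := (Prod.ext_iff.1 h3).1
          have e4 : q 4 = 0 := (Prod.ext_iff.1 h3).2
          refine ⟨1, 0, 0, 1, 0, 0, by simp, by simp, fun P hP => ?_⟩
          exfalso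
          apply hq
          simp only [qd, h0, h1, h2, e3, e4] at hP
          have e5 : q 5 = 0 := by linear_combination hP
          funext i
          fin_cases i
          · exact h0
          · exact h1
          · exact h2
          · exact e3
          · exact e4
          · exact e5
        · refine ⟨q 3, q 4, - q 5, q 3, q 4, - q 5, h3, h3, fun P hP => ?_⟩
          left
          simp only [qd, h0, h1, h2] at hP
          linear_combination hP
      · have hd' : q 3 * q 4 - q 5 * q 1 = 0 := by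
          have : q 1 * (q 3 * q 4 - q 5 * q 1) = 0 := by linear_combination hd
          exact (mul_eq_zero.1 this).resolve_left h1
        refine ⟨q 1, 0, - q 4, 0, q 1, - q 3, by simp [h1], by simp [h1], fun P hP => ?_⟩
        simp only [qd, h0, h2] at hP
        have : (q 1 * P.1 + q 4) * (q 1 * P.2 + q 3) = 0 := by
          linear_combination q 1 * hP + hd'
        rcases mul_eq_zero.1 this with h | h
        · left; linear_combination h
        · right; linear_combination h
    · obtain ⟨a, b, c, a', b', c', h1, h3, h4⟩ := b3_deg0 hp ![q 2, q 1, q 0, q 4, q 3, q 5]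
        (by simpa using h2) (by simp only [Matrix.cons_val]; linear_combination hd)
      refine ⟨b, a, c, b', a', c', ?_, ?_, ?_⟩
      · intro h; apply h1; rw [Prod.ext_iff] at h ⊢; exact ⟨h.2, h.1⟩
      · intro h; apply h3; rw [Prod.ext_iff] at h ⊢; exact ⟨h.2, h.1⟩
      · intro P hP
        have := h4 (P.2, P.1) (by
          simp only [qd, Matrix.cons_val] at hP ⊢
          linear_combination hP)
        rcases this with h | h
        · left; linear_combination h
        · right; linear_combination h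
  · exact b3_deg0 hp q h0 hd

/-! ### products -/

def b3_mul (l : Fin 3 → ZMod p) (q : Fin 6 → ZMod p) : Co p :=
  ![l 0 * q 0, l 0 * q 1 + l 1 * q 0, l 0 * q 3 + l 2 * q 0, l 0 * q 2 + l 1 * q 1,
    l 0 * q 4 + l 1 * q 3 + l 2 * q 1, l 0 * q 5 + l 2 * q 3, l 1 * q 2, l 1 * q 4 + l 2 * q 2,
    l 1 * q 5 + l 2 * q 4, l 2 * q 5]

lemma b3_mul_form (l : Fin 3 → ZMod p) (q : Fin 6 → ZMod p) (v : Fin 3 → ZMod p) :
    form (b3_mul l q) v = dot3 l v * (q 0 * v 0 ^ 2 + q 1 * v 0 * v 1 + q 2 * v 1 ^ 2 +
      q 3 * v 0 * v 2 + q 4 * v 1 * v 2 + q 5 * v 2 ^ 2) := by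
  simp only [form, b3_mul, dot3, Matrix.cons_val]
  ring

lemma b3_mul_cub (l : Fin 3 → ZMod p) (q : Fin 6 → ZMod p) (P : ZMod p × ZMod p) :
    cub (b3_mul l q) P = (l 0 * P.1 + l 1 * P.2 + l 2) * qd q P := by
  simp only [cub, form, b3_mul, qd, Matrix.cons_val]
  ring

lemma b3_mul_ne (l : Fin 3 → ZMod p) (q : Fin 6 → ZMod p) (hl : (l 0, l 1) ≠ (0, 0)) (hq : q ≠ 0) :
    b3_mul l q ≠ 0 := by
  intro h
  apply hq
  have g : ∀ j, (b3_mul l q) j = 0 := fun j => by rw [h]; rfl
  have g0 : l 0 * q 0 = 0 := g 0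
  have g1 : l 0 * q 1 + l 1 * q 0 = 0 := g 1
  have g2 : l 0 * q 3 + l 2 * q 0 = 0 := g 2
  have g3 : l 0 * q 2 + l 1 * q 1 = 0 := g 3
  have g4 : l 0 * q 4 + l 1 * q 3 + l 2 * q 1 = 0 := g 4
  have g5 : l 0 * q 5 + l 2 * q 3 = 0 := g 5
  have g6 : l 1 * q 2 = 0 := g 6
  have g7 : l 1 * q 4 + l 2 * q 2 = 0 := g 7
  have g8 : l 1 * q 5 + l 2 * q 4 = 0 := g 8
  by_cases h0 : l 0 = 0
  · have h1 : l 1 ≠ 0 := fun h1 => hl (by rw [h0, h1])
    rw [h0] at g1 g3 g4
    have k0 : q 0 = 0 := by
      have : l 1 * q 0 = 0 := by linear_combination g1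
      exact (mul_eq_zero.1 this).resolve_left h1
    have k1 : q 1 = 0 := by
      have : l 1 * q 1 = 0 := by linear_combination g3
      exact (mul_eq_zero.1 this).resolve_left h1
    have k2 : q 2 = 0 := (mul_eq_zero.1 g6).resolve_left h1
    have k3 : q 3 = 0 := by
      have : l 1 * q 3 = 0 := by linear_combination g4 - l 2 * k1
      exact (mul_eq_zero.1 this).resolve_left h1
    have k4 : q 4 = 0 := by
      have : l 1 * q 4 = 0 := by linear_combination g7 - l 2 * k2
      exact (mul_eq_zero.1 this).resolve_left h1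
    have k5 : q 5 = 0 := by
      have : l 1 * q 5 = 0 := by linear_combination g8 - l 2 * k4
      exact (mul_eq_zero.1 this).resolve_left h1
    funext i
    fin_cases i
    exacts [k0, k1, k2, k3, k4, k5]
  · have k0 : q 0 = 0 := (mul_eq_zero.1 g0).resolve_left h0
    have k1 : q 1 = 0 := by
      have : l 0 * q 1 = 0 := by linear_combination g1 - l 1 * k0
      exact (mul_eq_zero.1 this).resolve_left h0
    have k3 : q 3 = 0 := by
      have : l 0 * q 3 = 0 := by linear_combination g2 - l 2 * k0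
      exact (mul_eq_zero.1 this).resolve_left h0
    have k2 : q 2 = 0 := by
      have : l 0 * q 2 = 0 := by linear_combination g3 - l 1 * k1
      exact (mul_eq_zero.1 this).resolve_left h0
    have k4 : q 4 = 0 := by
      have : l 0 * q 4 = 0 := by linear_combination g4 - l 1 * k3 - l 2 * k1
      exact (mul_eq_zero.1 this).resolve_left h0
    have k5 : q 5 = 0 := by
      have : l 0 * q 5 = 0 := by linear_combination g5 - l 2 * k3
      exact (mul_eq_zero.1 this).resolve_left h0
    funext i
    fin_cases i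
    exacts [k0, k1, k2, k3, k4, k5]

lemma b3_red (T : Finset (ZMod p × ZMod p)) (a b e : ZMod p) (hab : (a, b) ≠ (0, 0))
    (q : Fin 6 → ZMod p) (hq : q ≠ 0)
    (h : ∀ P ∈ T, a * P.1 + b * P.2 = e ∨ qd q P = 0) : RedT T := by
  refine ⟨b3_mul ![a, b, -e] q, b3_mul_ne _ q (by simpa using hab) hq, ⟨![a, b, -e], ?_, ?_⟩, ?_⟩
  · intro h0
    apply hab
    have h1 : (![a, b, -e] : Fin 3 → ZMod p) 0 = 0 := by rw [h0]; rfl
    have h2 : (![a, b, -e] : Fin 3 → ZMod p) 1 = 0 := by rw [h0]; rfl
    simp only [Matrix.cons_val] at h1 h2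
    rw [h1, h2]
  · intro v hv
    rw [b3_mul_form, hv, zero_mul]
  · intro P hP
    rw [b3_mul_cub]
    rcases h P hP with h1 | h1
    · have : (![a, b, -e] : Fin 3 → ZMod p) 0 * P.1 + (![a, b, -e] : Fin 3 → ZMod p) 1 * P.2 +
          (![a, b, -e] : Fin 3 → ZMod p) 2 = 0 := by
        simp only [Matrix.cons_val]
        linear_combination h1
      rw [this, zero_mul]
    · rw [h1, mul_zero]

/-- a conic through at most five points -/
lemma b3_five (S : Finset (ZMod p × ZMod p)) (hS : S.card ≤ 5) :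
    ∃ q : Fin 6 → ZMod p, q ≠ 0 ∧ ∀ P ∈ S, qd q P = 0 := by
  let f : (Fin 6 → ZMod p) →ₗ[ZMod p] (S → ZMod p) :=
    { toFun := fun q P => qd q P.1
      map_add' := by
        intro q r; funext P; simp only [qd, Pi.add_apply]; ring
      map_smul' := by
        intro t q; funext P; simp only [qd, Pi.smul_apply, smul_eq_mul, RingHom.id_apply]; ring }
  have h1 : ¬ Function.Injective f := by
    intro hf
    have := LinearMap.finrank_le_finrank_of_injective hf
    rw [Module.finrank_fin_fun, Module.finrank_fintype_fun_eq_card, Fintype.card_coe] at this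
    omega
  rw [← LinearMap.ker_eq_bot, Submodule.eq_bot_iff] at h1
  push Not at h1
  obtain ⟨q, hq, hq0⟩ := h1
  refine ⟨q, hq0, fun P hP => ?_⟩
  have := congrFun (LinearMap.mem_ker.1 hq) ⟨P, hP⟩
  exact this

/-- a line meets a nonsingular conic in at most two points -/
lemma b3_line_conic (q : Fin 6 → ZMod p) (hq : Nsc q) (a b c : ZMod p) (hab : (a, b) ≠ (0, 0))
    (S : Finset (ZMod p × ZMod p)) (hS : ∀ P ∈ S, qd q P = 0 ∧ a * P.1 + b * P.2 = c) :
    S.card ≤ 2 := by
  by_contra hcard
  push Not at hcard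
  obtain ⟨P, hP, R, hR, Q, hQ, hPR, hPQ, hRQ⟩ := Finset.two_lt_card.1 hcard
  have three : ∀ k0 k1 k2 s t u : ZMod p, s ≠ t → s ≠ u → t ≠ u →
      k0 * s ^ 2 + k1 * s + k2 = 0 → k0 * t ^ 2 + k1 * t + k2 = 0 → k0 * u ^ 2 + k1 * u + k2 = 0 →
      k0 = 0 ∧ k1 = 0 ∧ k2 = 0 := by
    intro k0 k1 k2 s t u hst hsu htu h1 h2 h3
    have e1 : (s - t) * (k0 * (s + t) + k1) = 0 := by linear_combination h1 - h2
    have e2 : (s - u) * (k0 * (s + u) + k1) = 0 := by linear_combination h1 - h3
    have e1' := (mul_eq_zero.1 e1).resolve_left (sub_ne_zero.2 hst)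
    have e2' := (mul_eq_zero.1 e2).resolve_left (sub_ne_zero.2 hsu)
    have e3 : (t - u) * k0 = 0 := by linear_combination e1' - e2'
    have k00 := (mul_eq_zero.1 e3).resolve_left (sub_ne_zero.2 htu)
    have k10 : k1 = 0 := by rw [k00] at e1'; linear_combination e1'
    have k20 : k2 = 0 := by rw [k00, k10] at h1; linear_combination h1
    exact ⟨k00, k10, k20⟩
  apply hq
  by_cases hb : b = 0
  · have ha : a ≠ 0 := fun ha => hab (by rw [ha, hb])
    obtain ⟨γ, hγ⟩ : ∃ γ, c = a * γ := ⟨c / a, by field_simp⟩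
    have hx : ∀ X ∈ S, X.1 = γ := by
      intro X hX
      have := (hS X hX).2
      rw [hb, hγ] at this
      have e : a * (X.1 - γ) = 0 := by linear_combination this
      exact sub_eq_zero.1 ((mul_eq_zero.1 e).resolve_left ha)
    have hne : ∀ X ∈ S, ∀ Y ∈ S, X ≠ Y → X.2 ≠ Y.2 := by
      intro X hX Y hY hXY h
      exact hXY (Prod.ext ((hx X hX).trans (hx Y hY).symm) h)
    have hqq : ∀ X ∈ S, q 2 * X.2 ^ 2 + (q 1 * γ + q 4) * X.2 + (q 0 * γ ^ 2 + q 3 * γ + q 5) = 0 := by
      intro X hX
      have := (hS X hX).1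
      unfold qd at this
      rw [hx X hX] at this
      linear_combination this
    obtain ⟨e2, e4, e5⟩ := three _ _ _ _ _ _ (hne P hP R hR hPR) (hne P hP Q hQ hPQ)
      (hne R hR Q hQ hRQ) (hqq P hP) (hqq R hR) (hqq Q hQ)
    have f4 : q 4 = - q 1 * γ := by linear_combination e4
    have f5 : q 5 = - q 0 * γ ^ 2 - q 3 * γ := by linear_combination e5
    rw [e2, f4, f5]
    ring
  · obtain ⟨α, hα⟩ : ∃ α, a = - b * α := ⟨-a / b, by field_simp⟩
    obtain ⟨γ, hγ⟩ : ∃ γ, c = b * γ := ⟨c / b, by field_simp⟩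
    have hy : ∀ X ∈ S, X.2 = α * X.1 + γ := by
      intro X hX
      have := (hS X hX).2
      rw [hα, hγ] at this
      have e : b * (X.2 - (α * X.1 + γ)) = 0 := by linear_combination this
      exact sub_eq_zero.1 ((mul_eq_zero.1 e).resolve_left hb)
    have hne : ∀ X ∈ S, ∀ Y ∈ S, X ≠ Y → X.1 ≠ Y.1 := by
      intro X hX Y hY hXY h
      refine hXY (Prod.ext h ?_)
      rw [hy X hX, hy Y hY, h]
    have hqq : ∀ X ∈ S, (q 0 + q 1 * α + q 2 * α ^ 2) * X.1 ^ 2 +
        (q 1 * γ + 2 * q 2 * α * γ + q 3 + q 4 * α) * X.1 + (q 2 * γ ^ 2 + q 4 * γ + q 5) = 0 := by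
      intro X hX
      have := (hS X hX).1
      unfold qd at this
      rw [hy X hX] at this
      linear_combination this
    obtain ⟨e0, e3, e5⟩ := three _ _ _ _ _ _ (hne P hP R hR hPR) (hne P hP Q hQ hPQ)
      (hne R hR Q hQ hRQ) (hqq P hP) (hqq R hR) (hqq Q hQ)
    have f0 : q 0 = - (q 1 * α + q 2 * α ^ 2) := by linear_combination e0
    have f3 : q 3 = - (q 1 * γ + 2 * q 2 * α * γ + q 4 * α) := by linear_combination e3
    have f5 : q 5 = - (q 2 * γ ^ 2 + q 4 * γ) := by linear_combination e5
    rw [f0, f3, f5]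
    ring

/-- two lines with two common points are equal -/
lemma b3_two_pts (a b c a' b' c' : ZMod p) (hab : (a, b) ≠ (0, 0)) (hab' : (a', b') ≠ (0, 0))
    (P R : ZMod p × ZMod p) (hPR : P ≠ R) (h1 : a * P.1 + b * P.2 = c) (h2 : a * R.1 + b * R.2 = c)
    (h3 : a' * P.1 + b' * P.2 = c') (h4 : a' * R.1 + b' * R.2 = c') (X : ZMod p × ZMod p)
    (hX : a * X.1 + b * X.2 = c) : a' * X.1 + b' * X.2 = c' := by
  -- (a, b) and (a', b') are proportional
  have hdet : a * b' - a' * b = 0 := by
    have e1 : a * (P.1 - R.1) + b * (P.2 - R.2) = 0 := by linear_combination h1 - h2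
    have e2 : a' * (P.1 - R.1) + b' * (P.2 - R.2) = 0 := by linear_combination h3 - h4
    by_contra hne
    apply hPR
    have e3 : (a * b' - a' * b) * (P.1 - R.1) = 0 := by linear_combination b' * e1 - b * e2
    have e4 : (a * b' - a' * b) * (P.2 - R.2) = 0 := by linear_combination a * e2 - a' * e1
    exact Prod.ext (sub_eq_zero.1 ((mul_eq_zero.1 e3).resolve_left hne))
      (sub_eq_zero.1 ((mul_eq_zero.1 e4).resolve_left hne))
  by_cases ha : a = 0
  · have hb : b ≠ 0 := fun hb => hab (by rw [ha, hb])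
    have ha' : a' = 0 := by
      rw [ha] at hdet
      have : b * a' = 0 := by linear_combination -hdet
      exact (mul_eq_zero.1 this).resolve_left hb
    have e : b * (X.2 - P.2) = 0 := by rw [ha] at hX h1; linear_combination hX - h1
    have e' := (mul_eq_zero.1 e).resolve_left hb
    rw [ha'] at h3 ⊢
    linear_combination h3 + b' * e'
  · have e : a * (a' * X.1 + b' * X.2 - c') = 0 := by
      linear_combination a' * hX + X.2 * hdet - a' * h1 - P.2 * hdet + a * h3
    have e' := (mul_eq_zero.1 e).resolve_left ha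
    linear_combination e'

end

theorem redT_iff (p : ℕ) [Fact p.Prime] (hp : 5 ≤ p) (T : Finset (ZMod p × ZMod p))
    (hT : T.card = 10) : RedT T ↔ R1 T ∨ R2 T ∨ R3 T := by
  constructor
  · rintro ⟨c, hc, ⟨l, hl, hlc⟩, hcT⟩
    by_cases hR1 : R1 T
    · exact Or.inl hR1
    right
    obtain ⟨q, hq, a, b, e, hab, h⟩ := b3_fact hp c hc l hl hlc
    have hTq : ∀ P ∈ T, a * P.1 + b * P.2 = e ∨ qd q P = 0 := fun P hP => h P (hcT P hP)
    by_cases hN : Nsc q
    · left
      refine ⟨hR1, q, hN, ?_, a, b, e, hab, fun P hP hPq => (hTq P hP).resolve_right hPq⟩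
      have h5 : cnt T a b e ≤ 4 := by
        by_contra h5
        exact hR1 ⟨a, b, e, hab, by omega⟩
      have h6 : (T.filter (fun P => ¬ qd q P = 0)).card ≤ cnt T a b e := by
        apply Finset.card_le_card
        intro P hP
        rw [Finset.mem_filter] at hP ⊢
        exact ⟨hP.1, (hTq P hP.1).resolve_right hP.2⟩
      have h7 := Finset.card_filter_add_card_filter_not (s := T) (fun P => qd q P = 0)
      omega
    · right
      obtain ⟨a', b', c', a'', b'', c'', h1, h2, h3⟩ := b3_deg hp q hq hN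
      refine ⟨hR1, a, b, e, a', b', c', a'', b'', c'', hab, h1, h2, fun P hP => ?_⟩
      rcases hTq P hP with h4 | h4
      · exact Or.inl h4
      · exact Or.inr (h3 P h4)
  · rintro (⟨a, b, c, hab, h5⟩ | ⟨-, q, hN, -, a, b, c, hab, h⟩ |
      ⟨-, a, b, c, a', b', c', a'', b'', c'', h1, h2, h3, h⟩)
    · have h6 : (T.filter (fun P => ¬ a * P.1 + b * P.2 = c)).card ≤ 5 := by
        have h7 := Finset.card_filter_add_card_filter_not (s := T) (fun P => a * P.1 + b * P.2 = c)
        unfold cnt at h5
        omega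
      obtain ⟨q, hq, hqS⟩ := b3_five _ h6
      refine b3_red T a b c hab q hq fun P hP => ?_
      by_cases hl : a * P.1 + b * P.2 = c
      · exact Or.inl hl
      · exact Or.inr (hqS P (by rw [Finset.mem_filter]; exact ⟨hP, hl⟩))
    · refine b3_red T a b c hab q ?_ fun P hP => ?_
      · rintro rfl
        apply hN
        simp
      · by_cases hq : qd q P = 0
        · exact Or.inr hq
        · exact Or.inl (h P hP hq)
    · refine b3_red T a b c h1 ![a' * a'', a' * b'' + b' * a'', b' * b'', -(a' * c'' + c' * a''),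
        -(b' * c'' + c' * b''), c' * c''] ?_ fun P hP => ?_
      · intro h0
        have g : ∀ j, (![a' * a'', a' * b'' + b' * a'', b' * b'', -(a' * c'' + c' * a''),
          -(b' * c'' + c' * b''), c' * c''] : Fin 6 → ZMod p) j = 0 := fun j => by rw [h0]; rfl
        have g0 : a' * a'' = 0 := g 0
        have g1 : a' * b'' + b' * a'' = 0 := g 1
        have g2 : b' * b'' = 0 := g 2
        rcases mul_eq_zero.1 g0 with k | k
        · have hb' : b' ≠ 0 := fun hb' => h2 (by rw [k, hb'])
          have hb'' := (mul_eq_zero.1 g2).resolve_left hb'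
          rw [k, zero_mul, zero_add] at g1
          have ha'' := (mul_eq_zero.1 g1).resolve_left hb'
          exact h3 (by rw [ha'', hb''])
        · have hb'' : b'' ≠ 0 := fun hb'' => h3 (by rw [k, hb''])
          have hb' := (mul_eq_zero.1 g2).resolve_right hb''
          rw [k, mul_zero, add_zero] at g1
          have ha' := (mul_eq_zero.1 g1).resolve_right hb''
          exact h2 (by rw [ha', hb'])
      · rcases h P hP with h4 | h4 | h4
        · exact Or.inl h4
        · right
          simp only [qd, Matrix.cons_val]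
          linear_combination (a'' * P.1 + b'' * P.2 - c'') * h4
        · right
          simp only [qd, Matrix.cons_val]
          linear_combination (a' * P.1 + b' * P.2 - c') * h4

theorem not_R2_R3 (p : ℕ) [Fact p.Prime] (hp : 5 ≤ p) (T : Finset (ZMod p × ZMod p))
    (hT : T.card = 10) : ¬ (R2 T ∧ R3 T) := by
  rintro ⟨⟨hR1, q, hN, h6, a, b, c, hab, hm⟩, -, a1, b1, c1, a2, b2, c2, a3, b3, c3, h1, h2, h3, h⟩
  set S := T.filter (fun P => qd q P = 0) with hS
  set U := T.filter (fun P => ¬ qd q P = 0) with hU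
  have hSU : S.card + U.card = 10 := by
    rw [← hT]; exact Finset.card_filter_add_card_filter_not (s := T) (fun P => qd q P = 0)
  -- the key step for one line
  have key : ∀ a' b' c' : ZMod p, (a', b') ≠ (0, 0) →
      (S.filter (fun P => a' * P.1 + b' * P.2 = c')).card ≤ 2 ∧
      (2 ≤ (U.filter (fun P => a' * P.1 + b' * P.2 = c')).card →
        (S.filter (fun P => a' * P.1 + b' * P.2 = c')).card + U.card ≤ 4) := by
    intro a' b' c' hab'
    constructor
    · apply b3_line_conic q hN a' b' c' hab'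
      intro P hP
      rw [Finset.mem_filter] at hP
      exact ⟨(Finset.mem_filter.1 hP.1).2, hP.2⟩
    · intro h2
      obtain ⟨P, hP, R, hR, hPR⟩ := Finset.one_lt_card.1 (by omega :
        1 < (U.filter (fun P => a' * P.1 + b' * P.2 = c')).card)
      rw [Finset.mem_filter] at hP hR
      have hP' := Finset.mem_filter.1 hP.1
      have hR' := Finset.mem_filter.1 hR.1
      have hmP := hm P hP'.1 hP'.2
      have hmR := hm R hR'.1 hR'.2
      have hall : ∀ X ∈ U, a' * X.1 + b' * X.2 = c' := by
        intro X hX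
        have hX' := Finset.mem_filter.1 hX
        exact b3_two_pts a b c a' b' c' hab hab' P R hPR hmP hmR hP.2 hR.2 X (hm X hX'.1 hX'.2)
      have h5 : cnt T a' b' c' ≤ 4 := by
        by_contra h5
        exact hR1 ⟨a', b', c', hab', by omega⟩
      have h7 : (S.filter (fun P => a' * P.1 + b' * P.2 = c')).card + U.card ≤ cnt T a' b' c' := by
        unfold cnt
        rw [← Finset.card_union_of_disjoint]
        · apply Finset.card_le_card
          intro X hX
          rw [Finset.mem_union, Finset.mem_filter] at hX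
          rw [Finset.mem_filter]
          rcases hX with hX | hX
          · exact ⟨(Finset.mem_filter.1 hX.1).1, hX.2⟩
          · exact ⟨(Finset.mem_filter.1 hX).1, hall X hX⟩
        · rw [Finset.disjoint_left]
          intro X hX hXU
          exact (Finset.mem_filter.1 hXU).2 (Finset.mem_filter.1 (Finset.mem_filter.1 hX).1).2
      omega
  have cover : ∀ V : Finset (ZMod p × ZMod p), V ⊆ T → V.card ≤
      (V.filter (fun P => a1 * P.1 + b1 * P.2 = c1)).card +
      (V.filter (fun P => a2 * P.1 + b2 * P.2 = c2)).card +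
      (V.filter (fun P => a3 * P.1 + b3 * P.2 = c3)).card := by
    intro V hV
    have h8 : V ⊆ V.filter (fun P => a1 * P.1 + b1 * P.2 = c1) ∪
        V.filter (fun P => a2 * P.1 + b2 * P.2 = c2) ∪ V.filter (fun P => a3 * P.1 + b3 * P.2 = c3) := by
      intro X hX
      simp only [Finset.mem_union, Finset.mem_filter]
      rcases h X (hV hX) with k | k | k
      · exact Or.inl (Or.inl ⟨hX, k⟩)
      · exact Or.inl (Or.inr ⟨hX, k⟩)
      · exact Or.inr ⟨hX, k⟩
    refine (Finset.card_le_card h8).trans ((Finset.card_union_le _ _).trans ?_)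
    exact Nat.add_le_add_right (Finset.card_union_le _ _) _
  have cS := cover S (Finset.filter_subset _ _)
  have cU := cover U (Finset.filter_subset _ _)
  obtain ⟨k1, k1'⟩ := key a1 b1 c1 h1
  obtain ⟨k2, k2'⟩ := key a2 b2 c2 h2
  obtain ⟨k3, k3'⟩ := key a3 b3 c3 h3
  by_cases m1 : 2 ≤ (U.filter (fun P => a1 * P.1 + b1 * P.2 = c1)).card
  · have := k1' m1
    omega
  · by_cases m2 : 2 ≤ (U.filter (fun P => a2 * P.1 + b2 * P.2 = c2)).card
    · have := k2' m2
      omega
    · by_cases m3 : 2 ≤ (U.filter (fun P => a3 * P.1 + b3 * P.2 = c3)).card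
      · have := k3' m3
        omega
      · omega

end Pool.Agent.T2H70.SR
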