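import Pool.Agent.T2H70.SR.Defs

set_option autoImplicit false

/-!
# Package B5: six or more points on an arc, the others collinear

`Q ⊆ 𝔽_p²` with no three collinear points, `n = |Q|` (so `n ≤ p + 2`; assume `n ≤ p + 1`). Lines of the affine plane: `L2 = C(n,2)` meet `Q` in
2 points, `L1 = n (p + 2 - n)` in one point (each point of `Q` is on `p + 1` lines, `n - 1` of them are secants),
`L0 = p² + p - L1 - L2` in none.
A set `T` of ten points with `c = |T ∩ Q| ≥ 6`, `T \ Q` collinear, and no line with 5 points of `T`. A line with 5 points of `T` contains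
at least 3 points of `T \ Q`, so it is the line of `T \ Q`. Hence:
`c = 10`: `C(n,10)`; `c = 9`: `C(n,9)(p²-n)`; `c = 8`: `C(n,8) C(p²-n,2)` (no condition, two points are always collinear);
`c = 7`: choose the line `m` (unique, through the three points of `T \ Q`), three points on `m \ Q`, and seven points of `Q`, at most one
of them on `m`: `L0 C(p,3) C(n,7) + L1 C(p-1,3) C(n,7) + L2 C(p-2,3) (C(n,7) - C(n-2,5))`;
`c = 6`: four points on `m \ Q`, six points of `Q \ m`: `L0 C(p,4) C(n,6) + L1 C(p-1,4) C(n-1,6) + L2 C(p-2,4) C(n-2,6)`.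
-/

namespace Pool.Agent.T2H70.SR

open Finset
open scoped BigOperators

/-- the number of sets, as a function of `p` and `n = |Q|` -/
def sArc (p n : ℕ) : ℚ :=
  (n.choose 10 : ℚ) + (n.choose 9 : ℚ) * ((p ^ 2 : ℕ) - n : ℚ)
    + (n.choose 8 : ℚ) * ((p ^ 2 - n).choose 2 : ℚ)
    + ((p : ℚ) ^ 2 + p - n * (p + 2 - n) - (n.choose 2 : ℚ)) *
        ((p.choose 3 : ℚ) * (n.choose 7 : ℚ) + (p.choose 4 : ℚ) * (n.choose 6 : ℚ))
    + ((n : ℚ) * (p + 2 - n)) *
        (((p - 1).choose 3 : ℚ) * (n.choose 7 : ℚ) + ((p - 1).choose 4 : ℚ) * ((n - 1).choose 6 : ℚ))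
    + (n.choose 2 : ℚ) *
        (((p - 2).choose 3 : ℚ) * ((n.choose 7 : ℚ) - ((n - 2).choose 5 : ℚ))
          + ((p - 2).choose 4 : ℚ) * ((n - 2).choose 6 : ℚ))

namespace PB5

variable {p : ℕ} [Fact p.Prime]

/-- affine lines: `y = s x + t` or `x = c` -/
abbrev LT (p : ℕ) := (ZMod p × ZMod p) ⊕ ZMod p

def on (l : LT p) (P : ZMod p × ZMod p) : Prop :=
  match l with
  | .inl st => P.2 = st.1 * P.1 + st.2
  | .inr c => P.1 = c

theorem exists_line (a b c : ZMod p) (h : (a, b) ≠ (0, 0)) :
    ∃ l : LT p, ∀ P : ZMod p × ZMod p, a * P.1 + b * P.2 = c ↔ on l P := by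
  by_cases hb : b = 0
  · have ha : a ≠ 0 := by
      rintro rfl
      exact h (by rw [hb])
    refine ⟨.inr (c / a), fun P => ?_⟩
    simp only [on, hb]
    rw [eq_div_iff ha]
    constructor
    · intro h
      linear_combination h
    · intro h
      linear_combination h
  · refine ⟨.inl (-a / b, c / b), fun P => ?_⟩
    simp only [on]
    constructor
    · intro h
      field_simp
      linear_combination h
    · intro h
      field_simp at h
      linear_combination h

theorem line_exists (l : LT p) : ∃ a b c : ZMod p, (a, b) ≠ (0, 0) ∧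
    ∀ P : ZMod p × ZMod p, a * P.1 + b * P.2 = c ↔ on l P := by
  rcases l with ⟨s, t⟩ | c
  · refine ⟨s, -1, -t, ?_, fun P => ?_⟩
    · intro h
      have := congrArg Prod.snd h
      simp at this
    · simp only [on]
      constructor
      · intro h
        linear_combination -h
      · intro h
        linear_combination -h
  · refine ⟨1, 0, c, ?_, fun P => ?_⟩
    · intro h
      have := congrArg Prod.fst h
      simp at this
    · simp [on]

theorem on_unique {P P' : ZMod p × ZMod p} (hne : P ≠ P') {l l' : LT p}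
    (h1 : on l P) (h2 : on l P') (h3 : on l' P) (h4 : on l' P') : l = l' := by
  rcases l with ⟨s, t⟩ | c <;> rcases l' with ⟨s', t'⟩ | c' <;> simp only [on] at h1 h2 h3 h4
  · have hx : P.1 ≠ P'.1 := by
      intro h
      apply hne
      apply Prod.ext h
      rw [h1, h2, h]
    have hs : s = s' := by
      have : (s - s') * (P.1 - P'.1) = 0 := by linear_combination h3 - h1 - (h4 - h2)
      rcases mul_eq_zero.1 this with h | h
      · exact sub_eq_zero.1 h
      · exact absurd (sub_eq_zero.1 h) hx
    subst hs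
    have ht : t = t' := by linear_combination h3 - h1
    rw [ht]
  · exfalso
    have hx : P.1 = P'.1 := by rw [h3, h4]
    apply hne
    apply Prod.ext hx
    rw [h1, h2, hx]
  · exfalso
    have hx : P.1 = P'.1 := by rw [h1, h2]
    apply hne
    apply Prod.ext hx
    rw [h3, h4, hx]
  · rw [← h1, ← h3]

theorem on_exists (P P' : ZMod p × ZMod p) : ∃ l : LT p, on l P ∧ on l P' := by
  by_cases hx : P.1 = P'.1
  · exact ⟨.inr P.1, rfl, hx.symm⟩
  · have hx' : P.1 - P'.1 ≠ 0 := sub_ne_zero.2 hx
    refine ⟨.inl ((P.2 - P'.2) / (P.1 - P'.1), P.2 - (P.2 - P'.2) / (P.1 - P'.1) * P.1), ?_, ?_⟩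
    · simp only [on]
      ring
    · simp only [on]
      field_simp
      ring

open Classical in
/-- the points of a line -/
noncomputable def pts (l : LT p) : Finset (ZMod p × ZMod p) := univ.filter (fun P => on l P)

theorem mem_pts {l : LT p} {P : ZMod p × ZMod p} : P ∈ pts l ↔ on l P := by
  simp [pts]

theorem card_pts (l : LT p) : (pts l).card = p := by
  classical
  rcases l with ⟨s, t⟩ | c
  · have : pts (.inl (s, t) : LT p) = univ.image (fun x : ZMod p => (x, s * x + t)) := by
      ext P
      rw [mem_pts]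
      simp only [on, mem_image, mem_univ, true_and]
      constructor
      · intro h
        exact ⟨P.1, by rw [← h]⟩
      · rintro ⟨x, rfl⟩
        rfl
    rw [this, card_image_of_injective]
    · simp [ZMod.card]
    · intro x y h
      exact congrArg Prod.fst h
  · have : pts (.inr c : LT p) = univ.image (fun y : ZMod p => (c, y)) := by
      ext P
      rw [mem_pts]
      simp only [on, mem_image, mem_univ, true_and]
      constructor
      · intro h
        exact ⟨P.2, by rw [← h]⟩
      · rintro ⟨x, rfl⟩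
        rfl
    rw [this, card_image_of_injective]
    · simp [ZMod.card]
    · intro x y h
      exact congrArg Prod.snd h

theorem card_LT : (univ : Finset (LT p)).card = p ^ 2 + p := by
  rw [card_univ]
  simp only [Fintype.card_sum, Fintype.card_prod, ZMod.card]
  ring

open Classical in
theorem card_through (P : ZMod p × ZMod p) :
    ((univ : Finset (LT p)).filter (fun l => on l P)).card = p + 1 := by
  have : (univ : Finset (LT p)).filter (fun l => on l P) =
      insert (.inr P.1 : LT p) (univ.image (fun s : ZMod p => (.inl (s, P.2 - s * P.1) : LT p))) := by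
    ext l
    simp only [mem_filter, mem_univ, true_and, mem_insert, mem_image]
    rcases l with ⟨s, t⟩ | c
    · simp only [on, reduceCtorEq, false_or]
      constructor
      · intro h
        refine ⟨s, ?_⟩
        congr 2
        linear_combination h
      · rintro ⟨s', hs⟩
        have h1 := Sum.inl.inj hs
        have h2 := congrArg Prod.fst h1
        have h3 := congrArg Prod.snd h1
        simp only at h2 h3
        subst h2
        linear_combination h3
    · simp only [on, reduceCtorEq, exists_false, or_false]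
      constructor
      · intro h
        rw [h]
      · intro h
        exact (Sum.inr.inj h).symm
  rw [this, card_insert_of_notMem, card_image_of_injective]
  · simp [ZMod.card]
  · intro x y h
    exact congrArg Prod.fst (Sum.inl.inj h)
  · simp

open Classical in
theorem sum_k (Q : Finset (ZMod p × ZMod p)) :
    ∑ l : LT p, (Q ∩ pts l).card = Q.card * (p + 1) := by
  have h1 : ∀ l : LT p, (Q ∩ pts l).card = ∑ P ∈ Q, if on l P then 1 else 0 := by
    intro l
    rw [← card_filter]
    congr 1
    ext P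
    simp [mem_pts]
  simp_rw [h1]
  rw [sum_comm]
  have h2 : ∀ P ∈ Q, (∑ l : LT p, if on l P then 1 else 0) = p + 1 := by
    intro P _
    rw [← card_filter, card_through]
  rw [sum_congr rfl h2, sum_const, smul_eq_mul]

open Classical in
theorem sum_k2 (Q : Finset (ZMod p × ZMod p)) :
    ∑ l : LT p, (Q ∩ pts l).card.choose 2 = Q.card.choose 2 := by
  have h1 : ∀ l : LT p, (Q ∩ pts l).card.choose 2 =
      ∑ e ∈ powersetCard 2 Q, if e ⊆ pts l then 1 else 0 := by
    intro l
    rw [← card_filter, ← card_powersetCard]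
    congr 1
    ext e
    simp only [mem_powersetCard, mem_filter, subset_inter_iff]
    tauto
  simp_rw [h1]
  rw [sum_comm]
  have h2 : ∀ e ∈ powersetCard 2 Q, (∑ l : LT p, if e ⊆ pts l then 1 else 0) = 1 := by
    intro e he
    rw [mem_powersetCard] at he
    obtain ⟨P, P', hne, rfl⟩ := card_eq_two.1 he.2
    obtain ⟨l, hl, hl'⟩ := on_exists P P'
    rw [← card_filter, card_eq_one]
    refine ⟨l, ?_⟩
    ext l'
    simp only [mem_filter, mem_univ, true_and, mem_singleton, insert_subset_iff,
      singleton_subset_iff, mem_pts]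
    constructor
    · rintro ⟨h1, h2⟩
      exact on_unique hne h1 h2 hl hl'
    · rintro rfl
      exact ⟨hl, hl'⟩
  rw [sum_congr rfl h2, sum_const, smul_eq_mul, mul_one, card_powersetCard]

open Classical in
theorem sum_f (Q : Finset (ZMod p × ZMod p)) (hk : ∀ l : LT p, (Q ∩ pts l).card ≤ 2)
    (f : ℕ → ℚ) :
    ∑ l : LT p, f (Q ∩ pts l).card =
      ((p : ℚ) ^ 2 + p - Q.card * (p + 2 - Q.card) - (Q.card.choose 2 : ℚ)) * f 0
        + ((Q.card : ℚ) * (p + 2 - Q.card)) * f 1 + (Q.card.choose 2 : ℚ) * f 2 := by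
  have h1 : ∀ l : LT p, f (Q ∩ pts l).card = f 0 + (f 1 - f 0) * ((Q ∩ pts l).card : ℚ)
      + (f 2 - 2 * f 1 + f 0) * (((Q ∩ pts l).card.choose 2 : ℕ) : ℚ) := by
    intro l
    have := hk l
    interval_cases (Q ∩ pts l).card
    · simp
    · simp
    · simp
      ring
  simp_rw [h1]
  rw [sum_add_distrib, sum_add_distrib, sum_const, card_LT, ← mul_sum, ← mul_sum,
    ← Nat.cast_sum, ← Nat.cast_sum, sum_k, sum_k2]
  have h2 : (Q.card.choose 2 : ℚ) = Q.card * (Q.card - 1) / 2 := Nat.cast_choose_two ℚ Q.card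
  rw [nsmul_eq_mul]
  push_cast
  rw [h2]
  ring

open Classical in
theorem card_split (Q : Finset (ZMod p × ZMod p)) (c : ℕ) (hc : c ≤ 10)
    (G : Finset (ZMod p × ZMod p) → Finset (ZMod p × ZMod p) → Prop) :
    (univ.filter (fun T : Finset (ZMod p × ZMod p) =>
      T.card = 10 ∧ (T ∩ Q).card = c ∧ G (T ∩ Q) (T \ Q))).card =
    ((powersetCard c Q ×ˢ powersetCard (10 - c) Qᶜ).filter (fun SU => G SU.1 SU.2)).card := by
  refine card_bij' (fun T _ => (T ∩ Q, T \ Q)) (fun SU _ => SU.1 ∪ SU.2) ?_ ?_ ?_ ?_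
  · intro T hT
    simp only [mem_filter, mem_univ, true_and] at hT
    simp only [mem_filter, mem_product, mem_powersetCard]
    refine ⟨⟨⟨inter_subset_right, hT.2.1⟩, ?_, ?_⟩, hT.2.2⟩
    · intro x hx
      rw [mem_sdiff] at hx
      rw [mem_compl]
      exact hx.2
    · have := card_sdiff_add_card_inter T Q
      omega
  · rintro ⟨S, U⟩ hSU
    simp only [mem_filter, mem_product, mem_powersetCard] at hSU
    obtain ⟨⟨⟨hS, hSc⟩, hU, hUc⟩, hG⟩ := hSU
    have hUQ : Disjoint U Q := by
      rw [disjoint_left]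
      intro x hx hxQ
      exact (mem_compl.1 (hU hx)) hxQ
    have h1 : (S ∪ U) ∩ Q = S := by
      ext x
      simp only [mem_inter, mem_union]
      constructor
      · rintro ⟨h | h, hq⟩
        · exact h
        · exact absurd hq (disjoint_left.1 hUQ h)
      · intro h
        exact ⟨Or.inl h, hS h⟩
    have h2 : (S ∪ U) \ Q = U := by
      ext x
      simp only [mem_sdiff, mem_union]
      constructor
      · rintro ⟨h | h, hq⟩
        · exact absurd (hS h) hq
        · exact h
      · intro h
        exact ⟨Or.inr h, disjoint_left.1 hUQ h⟩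
    simp only [mem_filter, mem_univ, true_and]
    rw [h1, h2]
    refine ⟨?_, hSc, hG⟩
    rw [card_union_of_disjoint, hSc, hUc]
    · omega
    · exact (disjoint_of_subset_left hS hUQ.symm)
  · intro T hT
    simp only
    ext x
    simp only [mem_union, mem_inter, mem_sdiff]
    tauto
  · rintro ⟨S, U⟩ hSU
    simp only [mem_filter, mem_product, mem_powersetCard] at hSU
    obtain ⟨⟨⟨hS, hSc⟩, hU, hUc⟩, hG⟩ := hSU
    have hUQ : Disjoint U Q := by
      rw [disjoint_left]
      intro x hx hxQ
      exact (mem_compl.1 (hU hx)) hxQ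
    simp only [Prod.mk.injEq]
    constructor
    · ext x
      simp only [mem_inter, mem_union]
      constructor
      · rintro ⟨h | h, hq⟩
        · exact h
        · exact absurd hq (disjoint_left.1 hUQ h)
      · intro h
        exact ⟨Or.inl h, hS h⟩
    · ext x
      simp only [mem_sdiff, mem_union]
      constructor
      · rintro ⟨h | h, hq⟩
        · exact absurd (hS h) hq
        · exact h
      · intro h
        exact ⟨Or.inr h, disjoint_left.1 hUQ h⟩

/-- the condition in terms of `S = T ∩ Q` and `U = T \ Q` -/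
def Good (S U : Finset (ZMod p × ZMod p)) : Prop := by
  classical
  exact (∀ l : LT p, ((S ∪ U) ∩ pts l).card < 5) ∧ ∃ l : LT p, U ⊆ pts l

theorem not_R1_iff (T : Finset (ZMod p × ZMod p)) :
    ¬ R1 T ↔ ∀ l : LT p, (T ∩ pts l).card < 5 := by
  classical
  constructor
  · intro h l
    by_contra hl
    apply h
    obtain ⟨a, b, c, hab, hP⟩ := line_exists l
    refine ⟨a, b, c, hab, ?_⟩
    unfold cnt
    have : T.filter (fun P => a * P.1 + b * P.2 = c) = T ∩ pts l := by
      ext P
      rw [mem_filter, mem_inter, mem_pts, hP]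
    rw [this]
    omega
  · rintro h ⟨a, b, c, hab, h5⟩
    obtain ⟨l, hl⟩ := exists_line a b c hab
    have h2 := h l
    unfold cnt at h5
    have : T.filter (fun P => a * P.1 + b * P.2 = c) = T ∩ pts l := by
      ext P
      rw [mem_filter, mem_inter, mem_pts, hl]
    rw [this] at h5
    omega

theorem collinear_iff (T Q : Finset (ZMod p × ZMod p)) :
    (∃ a b c : ZMod p, (a, b) ≠ (0, 0) ∧ ∀ P ∈ T, P ∉ Q → a * P.1 + b * P.2 = c) ↔
      ∃ l : LT p, T \ Q ⊆ pts l := by
  classical
  constructor
  · rintro ⟨a, b, c, hab, h⟩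
    obtain ⟨l, hl⟩ := exists_line a b c hab
    refine ⟨l, fun P hP => ?_⟩
    rw [mem_sdiff] at hP
    rw [mem_pts, ← hl]
    exact h P hP.1 hP.2
  · rintro ⟨l, hl⟩
    obtain ⟨a, b, c, hab, h⟩ := line_exists l
    refine ⟨a, b, c, hab, fun P hP hPQ => ?_⟩
    rw [h, ← mem_pts]
    exact hl (mem_sdiff.2 ⟨hP, hPQ⟩)

theorem exists_cover (U : Finset (ZMod p × ZMod p)) (hU : U.card ≤ 2) : ∃ l : LT p, U ⊆ pts l := by
  classical
  interval_cases h : U.card
  · rw [card_eq_zero] at h
    subst h
    exact ⟨.inr 0, by simp⟩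
  · obtain ⟨P, rfl⟩ := card_eq_one.1 h
    exact ⟨.inr P.1, by simp [mem_pts, on]⟩
  · obtain ⟨P, P', -, rfl⟩ := card_eq_two.1 h
    obtain ⟨l, h1, h2⟩ := on_exists P P'
    refine ⟨l, ?_⟩
    intro x hx
    simp only [mem_insert, mem_singleton] at hx
    rcases hx with rfl | rfl
    · exact mem_pts.2 h1
    · exact mem_pts.2 h2

open Classical in
theorem inter_le {Q S : Finset (ZMod p × ZMod p)} (hk : ∀ l : LT p, (Q ∩ pts l).card ≤ 2)
    (hS : S ⊆ Q) (l : LT p) : (S ∩ pts l).card ≤ 2 :=
  (card_le_card (inter_subset_inter_right hS)).trans (hk l)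

theorem good_large {Q S U : Finset (ZMod p × ZMod p)} (hk : ∀ l : LT p, (Q ∩ pts l).card ≤ 2)
    (hS : S ⊆ Q) (hU : U.card ≤ 2) : Good S U := by
  classical
  refine ⟨fun l => ?_, exists_cover U hU⟩
  have h1 : ((S ∪ U) ∩ pts l).card ≤ (S ∩ pts l).card + (U ∩ pts l).card := by
    rw [union_inter_distrib_right]
    exact card_union_le _ _
  have h2 := inter_le hk hS l
  have h3 : (U ∩ pts l).card ≤ U.card := card_le_card inter_subset_left
  omega

open Classical in
theorem inter_le_one {U : Finset (ZMod p × ZMod p)} {l l' : LT p} (hU : U ⊆ pts l) (hl : l ≠ l') :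
    (U ∩ pts l').card ≤ 1 := by
  by_contra h
  push Not at h
  obtain ⟨P, hP, P', hP', hne⟩ := one_lt_card.1 h
  rw [mem_inter] at hP hP'
  exact hl (on_unique hne (mem_pts.1 (hU hP.1)) (mem_pts.1 (hU hP'.1)) (mem_pts.1 hP.2)
    (mem_pts.1 hP'.2))

open Classical in
theorem good_small {Q S U : Finset (ZMod p × ZMod p)} (hk : ∀ l : LT p, (Q ∩ pts l).card ≤ 2)
    (hS : S ⊆ Q) (hU : U ⊆ Qᶜ) (hU4 : U.card ≤ 4) :
    Good S U ↔ ∃ l : LT p, U ⊆ pts l ∧ (S ∩ pts l).card + U.card ≤ 4 := by
  have hdis : Disjoint S U := by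
    rw [disjoint_left]
    intro x hx hxU
    exact mem_compl.1 (hU hxU) (hS hx)
  have hsum : ∀ l : LT p, ((S ∪ U) ∩ pts l).card = (S ∩ pts l).card + (U ∩ pts l).card := by
    intro l
    rw [union_inter_distrib_right, card_union_of_disjoint]
    exact disjoint_of_subset_left inter_subset_left (disjoint_of_subset_right inter_subset_left hdis)
  constructor
  · rintro ⟨h1, l, hl⟩
    refine ⟨l, hl, ?_⟩
    have := h1 l
    rw [hsum, inter_eq_left.2 hl] at this
    omega
  · rintro ⟨l, hl, h4⟩
    refine ⟨fun l' => ?_, l, hl⟩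
    rw [hsum]
    by_cases hll : l = l'
    · subst hll
      rw [inter_eq_left.2 hl]
      omega
    · have h1 := inter_le_one hl hll
      have h2 := inter_le hk hS l'
      omega

open Classical in
theorem card_small (Q : Finset (ZMod p × ZMod p)) (hk : ∀ l : LT p, (Q ∩ pts l).card ≤ 2)
    (c u : ℕ) (hu : 2 ≤ u) (hu4 : u ≤ 4) :
    ((powersetCard c Q ×ˢ powersetCard u Qᶜ).filter (fun SU => Good SU.1 SU.2)).card =
      ∑ l : LT p, ((powersetCard c Q).filter (fun S => (S ∩ pts l).card + u ≤ 4)).card *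
        (p - (Q ∩ pts l).card).choose u := by
  have h1 : (powersetCard c Q ×ˢ powersetCard u Qᶜ).filter (fun SU => Good SU.1 SU.2) =
      (univ : Finset (LT p)).biUnion (fun l =>
        ((powersetCard c Q).filter (fun S => (S ∩ pts l).card + u ≤ 4)) ×ˢ
          powersetCard u (pts l \ Q)) := by
    ext ⟨S, U⟩
    simp only [mem_filter, mem_product, mem_powersetCard, mem_biUnion, mem_univ, true_and]
    constructor
    · rintro ⟨⟨⟨hS, hSc⟩, hU, hUc⟩, hG⟩
      rw [good_small hk hS hU (by omega)] at hG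
      obtain ⟨l, hl, h4⟩ := hG
      refine ⟨l, ⟨⟨hS, hSc⟩, by rw [← hUc]; exact h4⟩, ?_, hUc⟩
      intro x hx
      rw [mem_sdiff]
      exact ⟨hl hx, mem_compl.1 (hU hx)⟩
    · rintro ⟨l, ⟨⟨hS, hSc⟩, h4⟩, hU, hUc⟩
      have hU' : U ⊆ Qᶜ := fun x hx => mem_compl.2 (mem_sdiff.1 (hU hx)).2
      refine ⟨⟨⟨hS, hSc⟩, hU', hUc⟩, ?_⟩
      rw [good_small hk hS hU' (by omega)]
      exact ⟨l, fun x hx => (mem_sdiff.1 (hU hx)).1, by rw [hUc]; exact h4⟩
  rw [h1, card_biUnion]
  · refine sum_congr rfl fun l _ => ?_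
    rw [card_product, card_powersetCard]
    congr 2
    have := card_sdiff_add_card_inter (pts l) Q
    rw [card_pts, inter_comm] at this
    omega
  · intro l _ l' _ hll
    rw [Function.onFun, disjoint_left]
    rintro ⟨S, U⟩ h h'
    simp only [mem_filter, mem_product, mem_powersetCard] at h h'
    have hU : U ⊆ pts l := fun x hx => (mem_sdiff.1 (h.2.1 hx)).1
    have hU' : U ⊆ pts l' := fun x hx => (mem_sdiff.1 (h'.2.1 hx)).1
    have := inter_le_one hU hll
    rw [inter_eq_left.2 hU'] at this
    omega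

open Classical in
theorem card_S6 (Q : Finset (ZMod p × ZMod p)) (l : LT p) :
    ((powersetCard 6 Q).filter (fun S => (S ∩ pts l).card + 4 ≤ 4)).card =
      (Q.card - (Q ∩ pts l).card).choose 6 := by
  have h1 : (powersetCard 6 Q).filter (fun S => (S ∩ pts l).card + 4 ≤ 4) =
      powersetCard 6 (Q \ pts l) := by
    ext S
    simp only [mem_filter, mem_powersetCard]
    constructor
    · rintro ⟨⟨hS, hSc⟩, h⟩
      refine ⟨fun x hx => ?_, hSc⟩
      rw [mem_sdiff]
      refine ⟨hS hx, fun hxl => ?_⟩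
      have : (S ∩ pts l).card = 0 := by omega
      rw [card_eq_zero] at this
      have h2 : x ∈ S ∩ pts l := mem_inter.2 ⟨hx, hxl⟩
      rw [this] at h2
      simp at h2
    · rintro ⟨hS, hSc⟩
      refine ⟨⟨fun x hx => (mem_sdiff.1 (hS hx)).1, hSc⟩, ?_⟩
      have : S ∩ pts l = ∅ := by
        ext x
        simp only [mem_inter, notMem_empty, iff_false, not_and]
        intro hx
        exact (mem_sdiff.1 (hS hx)).2
      rw [this]
      simp
  rw [h1, card_powersetCard]
  congr 1
  have := card_sdiff_add_card_inter Q (pts l)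
  omega

open Classical in
theorem card_S7 (Q : Finset (ZMod p × ZMod p)) (l : LT p) (hk : (Q ∩ pts l).card ≤ 2) :
    (((powersetCard 7 Q).filter (fun S => (S ∩ pts l).card + 3 ≤ 4)).card : ℚ) =
      (Q.card.choose 7 : ℚ) - if (Q ∩ pts l).card = 2 then ((Q.card - 2).choose 5 : ℚ) else 0 := by
  by_cases h2 : (Q ∩ pts l).card = 2
  · rw [if_pos h2]
    have h3 : ((powersetCard 7 Q).filter (fun S => (S ∩ pts l).card + 3 ≤ 4)).card +
        ((powersetCard 7 Q).filter (fun S => ¬ (S ∩ pts l).card + 3 ≤ 4)).card =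
        (powersetCard 7 Q).card := card_filter_add_card_filter_not _
    have h4 : ((powersetCard 7 Q).filter (fun S => ¬ (S ∩ pts l).card + 3 ≤ 4)).card =
        (Q.card - 2).choose 5 := by
      have h5 : (powersetCard 5 (Q \ pts l)).card = (Q.card - 2).choose 5 := by
        rw [card_powersetCard]
        congr 1
        have := card_sdiff_add_card_inter Q (pts l)
        omega
      rw [← h5]
      refine card_bij' (fun S _ => S \ pts l) (fun S _ => S ∪ (Q ∩ pts l)) ?_ ?_ ?_ ?_
      · intro S hS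
        simp only [mem_filter, mem_powersetCard] at hS
        obtain ⟨⟨hSQ, hSc⟩, h⟩ := hS
        have hsub : S ∩ pts l ⊆ Q ∩ pts l := inter_subset_inter_right hSQ
        have hle := card_le_card hsub
        rw [mem_powersetCard]
        refine ⟨sdiff_subset_sdiff hSQ (subset_refl _), ?_⟩
        have := card_sdiff_add_card_inter S (pts l)
        omega
      · intro S hS
        rw [mem_powersetCard] at hS
        have hd : Disjoint S (Q ∩ pts l) := by
          rw [disjoint_left]
          intro x hx hx'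
          exact (mem_sdiff.1 (hS.1 hx)).2 (mem_inter.1 hx').2
        simp only [mem_filter, mem_powersetCard]
        refine ⟨⟨union_subset (fun x hx => (mem_sdiff.1 (hS.1 hx)).1) inter_subset_left, ?_⟩, ?_⟩
        · rw [card_union_of_disjoint hd, hS.2, h2]
        · have : Q ∩ pts l ⊆ (S ∪ (Q ∩ pts l)) ∩ pts l := by
            intro x hx
            rw [mem_inter]
            exact ⟨mem_union_right _ hx, (mem_inter.1 hx).2⟩
          have := card_le_card this
          omega
      · intro S hS
        simp only [mem_filter, mem_powersetCard] at hS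
        obtain ⟨⟨hSQ, hSc⟩, h⟩ := hS
        have hsub : S ∩ pts l ⊆ Q ∩ pts l := inter_subset_inter_right hSQ
        have heq : S ∩ pts l = Q ∩ pts l := eq_of_subset_of_card_le hsub (by omega)
        rw [← heq]
        exact sdiff_union_inter S (pts l)
      · intro S hS
        rw [mem_powersetCard] at hS
        ext x
        simp only [mem_sdiff, mem_union, mem_inter]
        constructor
        · rintro ⟨h | h, hx⟩
          · exact h
          · exact absurd h.2 hx
        · intro hx
          exact ⟨Or.inl hx, (mem_sdiff.1 (hS.1 hx)).2⟩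
    rw [h4, card_powersetCard] at h3
    rw [← h3]
    push_cast
    ring
  · rw [if_neg h2, sub_zero]
    have h3 : (powersetCard 7 Q).filter (fun S => (S ∩ pts l).card + 3 ≤ 4) =
        powersetCard 7 Q := by
      rw [filter_true_of_mem]
      intro S hS
      rw [mem_powersetCard] at hS
      have := card_le_card (inter_subset_inter_right (u := pts l) hS.1)
      omega
    rw [h3, card_powersetCard]

open Classical in
theorem card_large (Q : Finset (ZMod p × ZMod p)) (hk : ∀ l : LT p, (Q ∩ pts l).card ≤ 2)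
    (c u : ℕ) (hu : u ≤ 2) :
    ((powersetCard c Q ×ˢ powersetCard u Qᶜ).filter (fun SU => Good SU.1 SU.2)).card =
      Q.card.choose c * (p ^ 2 - Q.card).choose u := by
  rw [filter_true_of_mem, card_product, card_powersetCard, card_powersetCard, card_compl]
  · simp only [Fintype.card_prod, ZMod.card, ← pow_two]
  · rintro ⟨S, U⟩ h
    simp only [mem_product, mem_powersetCard] at h
    refine good_large hk h.1.1 ?_
    show U.card ≤ 2
    omega

end PB5

open PB5 in
theorem card_arc (p : ℕ) [Fact p.Prime] (hp : 5 ≤ p) (Q : Finset (ZMod p × ZMod p))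
    (hQ : ∀ a b c : ZMod p, (a, b) ≠ (0, 0) → cnt Q a b c ≤ 2) (hn : 1 ≤ Q.card)
    (hn' : Q.card ≤ p + 1) :
    (Nat.card {T : Finset (ZMod p × ZMod p) // T.card = 10 ∧ ¬ R1 T ∧ 6 ≤ (T ∩ Q).card ∧
      ∃ a b c : ZMod p, (a, b) ≠ (0, 0) ∧ ∀ P ∈ T, P ∉ Q → a * P.1 + b * P.2 = c} : ℚ)
      = sArc p Q.card := by
  classical
  have hk : ∀ l : LT p, (Q ∩ pts l).card ≤ 2 := by
    intro l
    obtain ⟨a, b, c, hab, h⟩ := line_exists l
    have h2 := hQ a b c hab
    unfold cnt at h2
    have : Q.filter (fun P => a * P.1 + b * P.2 = c) = Q ∩ pts l := by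
      ext P
      rw [mem_filter, mem_inter, mem_pts, h]
    rwa [this] at h2
  have h1 : Nat.card {T : Finset (ZMod p × ZMod p) // T.card = 10 ∧ ¬ R1 T ∧ 6 ≤ (T ∩ Q).card ∧
      ∃ a b c : ZMod p, (a, b) ≠ (0, 0) ∧ ∀ P ∈ T, P ∉ Q → a * P.1 + b * P.2 = c} =
      (univ.filter (fun T : Finset (ZMod p × ZMod p) => T.card = 10 ∧ 6 ≤ (T ∩ Q).card ∧
        Good (T ∩ Q) (T \ Q))).card := by
    apply Nat.subtype_card
    intro T
    simp only [mem_filter, mem_univ, true_and]
    have hT : T ∩ Q ∪ T \ Q = T := by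
      rw [union_comm]
      exact sdiff_union_inter T Q
    rw [not_R1_iff, collinear_iff]
    unfold Good
    rw [hT]
    tauto
  have h2 : (univ.filter (fun T : Finset (ZMod p × ZMod p) => T.card = 10 ∧ 6 ≤ (T ∩ Q).card ∧
        Good (T ∩ Q) (T \ Q))).card =
      ∑ c ∈ Icc 6 10, (univ.filter (fun T : Finset (ZMod p × ZMod p) =>
        T.card = 10 ∧ (T ∩ Q).card = c ∧ Good (T ∩ Q) (T \ Q))).card := by
    rw [card_eq_sum_card_fiberwise (f := fun T => (T ∩ Q).card) (t := Icc 6 10)]
    · refine sum_congr rfl fun c hc => ?_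
      congr 1
      ext T
      rw [mem_Icc] at hc
      simp only [mem_filter, mem_univ, true_and]
      constructor
      · rintro ⟨⟨h1, h2, h3⟩, h4⟩
        exact ⟨h1, h4, h3⟩
      · rintro ⟨h1, h4, h3⟩
        exact ⟨⟨h1, by omega, h3⟩, h4⟩
    · intro T hT
      simp only [coe_filter, mem_univ, true_and, Set.mem_ofPred_eq] at hT
      have := card_le_card (inter_subset_left : T ∩ Q ⊆ T)
      simp only [coe_Icc, Set.mem_Icc]
      omega
  have hI : Icc 6 10 = ({6, 7, 8, 9, 10} : Finset ℕ) := by decide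
  have h10 := card_split Q 10 (by norm_num) Good
  have h9 := card_split Q 9 (by norm_num) Good
  have h8 := card_split Q 8 (by norm_num) Good
  have h7 := card_split Q 7 (by norm_num) Good
  have h6 := card_split Q 6 (by norm_num) Good
  rw [show (10 : ℕ) - 10 = 0 from rfl, card_large Q hk 10 0 (by norm_num)] at h10
  rw [show (10 : ℕ) - 9 = 1 from rfl, card_large Q hk 9 1 (by norm_num)] at h9
  rw [show (10 : ℕ) - 8 = 2 from rfl, card_large Q hk 8 2 (by norm_num)] at h8
  rw [show (10 : ℕ) - 7 = 3 from rfl, card_small Q hk 7 3 (by norm_num) (by norm_num)] at h7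
  rw [show (10 : ℕ) - 6 = 4 from rfl, card_small Q hk 6 4 (by norm_num) (by norm_num)] at h6
  have hle : Q.card ≤ p ^ 2 := by
    have := card_le_univ Q
    simpa only [Fintype.card_prod, ZMod.card, ← pow_two] using this
  rw [h1, h2, hI]
  rw [sum_insert (by decide), sum_insert (by decide), sum_insert (by decide),
    sum_insert (by decide), sum_singleton, h10, h9, h8, h7, h6]
  have h76 : ((∑ l : LT p, ((powersetCard 6 Q).filter (fun S => (S ∩ pts l).card + 4 ≤ 4)).card *
        (p - (Q ∩ pts l).card).choose 4 : ℕ) : ℚ) +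
      ((∑ l : LT p, ((powersetCard 7 Q).filter (fun S => (S ∩ pts l).card + 3 ≤ 4)).card *
        (p - (Q ∩ pts l).card).choose 3 : ℕ) : ℚ) =
      ∑ l : LT p, (fun k : ℕ => ((Q.card - k).choose 6 : ℚ) * ((p - k).choose 4 : ℚ) +
        ((Q.card.choose 7 : ℚ) - if k = 2 then ((Q.card - 2).choose 5 : ℚ) else 0) *
          ((p - k).choose 3 : ℚ)) (Q ∩ pts l).card := by
    rw [Nat.cast_sum, Nat.cast_sum, ← sum_add_distrib]
    refine sum_congr rfl fun l _ => ?_
    rw [Nat.cast_mul, Nat.cast_mul, card_S6, card_S7 Q l (hk l)]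
  rw [sum_f Q hk (fun k : ℕ => ((Q.card - k).choose 6 : ℚ) * ((p - k).choose 4 : ℚ) +
        ((Q.card.choose 7 : ℚ) - if k = 2 then ((Q.card - 2).choose 5 : ℚ) else 0) *
          ((p - k).choose 3 : ℚ))] at h76
  rw [Nat.cast_add, Nat.cast_add, ← add_assoc, h76]
  unfold sArc
  rw [if_neg (by norm_num : ¬ (0 : ℕ) = 2), if_neg (by norm_num : ¬ (1 : ℕ) = 2), if_pos rfl]
  have hc : ((p ^ 2 - Q.card : ℕ) : ℚ) = ((p ^ 2 : ℕ) : ℚ) - Q.card := Nat.cast_sub hle
  simp only [Nat.choose_zero_right, Nat.choose_one_right, mul_one, Nat.cast_add, Nat.cast_mul,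
    hc, Nat.sub_zero]
  ring

end Pool.Agent.T2H70.SR
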