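import Pool.Agent.T2H70.SR.A1
import Pool.Agent.T2H70.SR.B5

set_option autoImplicit false

/-!
# Package B4: ten points, five of them on a line

Number of 10-subsets of `𝔽_p²` with at least 5 points on some line:
`∑_lines ∑_{j=5}^{10} C(p,j) C(p²-p,10-j)` minus, for each pair of lines, the number of sets with at least 5 points on both:
parallel lines (`(p+1) C(p,2)` pairs): `C(p,5)²`; lines meeting in a point (`C(p²+p,2) - (p+1)C(p,2)` pairs):
`C(p-1,5)² + C(p-1,4)² (p²-2p+1) + 2 C(p-1,4) C(p-1,5)` (intersection point not in `T` / in `T`). Three lines with at least 5 points each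
are impossible (at least `15 - 3 = 12 > 10` points). So the number is
`#R1 = ∑_L a(L) - ∑_{{L,L'}} b(L,L')`. There are `p² + p` lines.
(Checked numerically: p = 5: 459060, p = 7: 1033421368.)
`IsRat.choose`, `IsRat.sum` etc. are in `A1.lean` (may be used even if still unproved).
-/

namespace Pool.Agent.T2H70.SR

open Finset
open scoped BigOperators

namespace PB4

open PB5

variable {p : ℕ} [Fact p.Prime]

open Classical in
/-- the lines with at least five points of `T` -/
noncomputable def rl (T : Finset (ZMod p × ZMod p)) : Finset (LT p) :=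
  univ.filter (fun l : LT p => 5 ≤ (T ∩ pts l).card)

theorem R1_iff (T : Finset (ZMod p × ZMod p)) : R1 T ↔ 0 < (rl T).card := by
  classical
  rw [← not_iff_not, not_R1_iff]
  rw [card_pos, not_nonempty_iff_eq_empty]
  unfold rl
  rw [filter_eq_empty_iff]
  constructor
  · intro h l _ h5
    have := h l
    omega
  · intro h l
    have := h (mem_univ l)
    omega

theorem rl_le (T : Finset (ZMod p × ZMod p)) (hT : T.card = 10) : (rl T).card ≤ 2 := by
  classical
  by_contra h
  push Not at h
  obtain ⟨a, ha, b, hb, c, hc, hab, hac, hbc⟩ := two_lt_card.1 h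
  simp only [rl, mem_filter, mem_univ, true_and] at ha hb hc
  have h1 : ((T ∩ pts a) ∩ pts b).card ≤ 1 := inter_le_one inter_subset_right hab
  have h2 : ((T ∩ pts a) ∩ pts c).card ≤ 1 := inter_le_one inter_subset_right hac
  have h3 : ((T ∩ pts b) ∩ pts c).card ≤ 1 := inter_le_one inter_subset_right hbc
  have h4 : ((T ∩ pts a) ∩ (T ∩ pts b)).card ≤ 1 := by
    refine le_trans (card_le_card ?_) h1
    intro x hx
    simp only [mem_inter] at hx ⊢
    tauto
  have h5 := card_union_add_card_inter (T ∩ pts a) (T ∩ pts b)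
  have h6 : (((T ∩ pts a) ∪ (T ∩ pts b)) ∩ (T ∩ pts c)).card ≤ 2 := by
    have : ((T ∩ pts a) ∪ (T ∩ pts b)) ∩ (T ∩ pts c) ⊆
        ((T ∩ pts a) ∩ pts c) ∪ ((T ∩ pts b) ∩ pts c) := by
      intro x hx
      simp only [mem_inter, mem_union] at hx ⊢
      tauto
    refine le_trans (card_le_card this) (le_trans (card_union_le _ _) ?_)
    omega
  have h7 := card_union_add_card_inter ((T ∩ pts a) ∪ (T ∩ pts b)) (T ∩ pts c)
  have h8 : ((T ∩ pts a) ∪ (T ∩ pts b) ∪ (T ∩ pts c)).card ≤ T.card := by
    apply card_le_card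
    intro x hx
    simp only [mem_inter, mem_union] at hx
    tauto
  omega

open Classical in
theorem card_A (l : LT p) :
    (univ.filter (fun T : Finset (ZMod p × ZMod p) => T.card = 10 ∧ 5 ≤ (T ∩ pts l).card)).card =
      ∑ j ∈ Icc 5 10, p.choose j * (p ^ 2 - p).choose (10 - j) := by
  rw [card_eq_sum_card_fiberwise (f := fun T => (T ∩ pts l).card) (t := Icc 5 10)]
  · refine sum_congr rfl fun c hc => ?_
    rw [mem_Icc] at hc
    have h3 : (univ.filter (fun T : Finset (ZMod p × ZMod p) => T.card = 10 ∧
        (T ∩ pts l).card = c)).card =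
        (powersetCard c (pts l) ×ˢ powersetCard (10 - c) (pts l)ᶜ).card := by
      have h1 := card_split (pts l) c (by omega) (fun _ _ => True)
      convert h1 using 2
      · ext T
        simp
      · ext T
        simp
    have h2 : Fintype.card (ZMod p × ZMod p) = p ^ 2 := by
      simp only [Fintype.card_prod, ZMod.card, ← pow_two]
    rw [card_product, card_powersetCard, card_powersetCard, card_compl, card_pts, h2] at h3
    rw [← h3]
    congr 1
    ext T
    simp only [mem_filter, mem_univ, true_and]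
    constructor
    · rintro ⟨⟨h3, h4⟩, h5⟩
      exact ⟨h3, h5⟩
    · rintro ⟨h3, h5⟩
      exact ⟨⟨h3, by omega⟩, h5⟩
  · intro T hT
    simp only [coe_filter, mem_univ, true_and, Set.mem_ofPred_eq] at hT
    have := card_le_card (inter_subset_left : T ∩ pts l ⊆ T)
    simp only [coe_Icc, Set.mem_Icc]
    omega

open Classical in
theorem split3 (A B : Finset (ZMod p × ZMod p)) (hAB : Disjoint A B) (i j : ℕ)
    (W : Finset (Finset (ZMod p × ZMod p))) (hW : ∀ w ∈ W, Disjoint w (A ∪ B)) :
    (univ.filter (fun T : Finset (ZMod p × ZMod p) => (T ∩ A).card = i ∧ (T ∩ B).card = j ∧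
      T \ (A ∪ B) ∈ W)).card = A.card.choose i * B.card.choose j * W.card := by
  rw [← card_powersetCard, ← card_powersetCard, ← card_product, ← card_product]
  refine card_bij' (fun T _ => ((T ∩ A, T ∩ B), T \ (A ∪ B))) (fun SU _ => SU.1.1 ∪ SU.1.2 ∪ SU.2)
    ?_ ?_ ?_ ?_
  · intro T hT
    simp only [mem_filter, mem_univ, true_and] at hT
    simp only [mem_product, mem_powersetCard]
    exact ⟨⟨⟨inter_subset_right, hT.1⟩, inter_subset_right, hT.2.1⟩, hT.2.2⟩
  · rintro ⟨⟨X, Y⟩, w⟩ h
    simp only [mem_product, mem_powersetCard] at h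
    obtain ⟨⟨⟨hX, hXc⟩, hY, hYc⟩, hw⟩ := h
    have hd := disjoint_left.1 (hW w hw)
    have hab := disjoint_left.1 hAB
    have h1 : (X ∪ Y ∪ w) ∩ A = X := by
      ext x
      have e1 := @hX x
      have e2 := @hY x
      have e3 := @hd x
      have e4 := @hab x
      simp only [mem_inter, mem_union] at *
      tauto
    have h2 : (X ∪ Y ∪ w) ∩ B = Y := by
      ext x
      have e1 := @hX x
      have e2 := @hY x
      have e3 := @hd x
      have e4 := @hab x
      simp only [mem_inter, mem_union] at *
      tauto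
    have h3 : (X ∪ Y ∪ w) \ (A ∪ B) = w := by
      ext x
      have e1 := @hX x
      have e2 := @hY x
      have e3 := @hd x
      have e4 := @hab x
      simp only [mem_sdiff, mem_union] at *
      tauto
    simp only [mem_filter, mem_univ, true_and]
    rw [h1, h2, h3]
    exact ⟨hXc, hYc, hw⟩
  · intro T hT
    simp only
    ext x
    simp only [mem_union, mem_inter, mem_sdiff]
    tauto
  · rintro ⟨⟨X, Y⟩, w⟩ h
    simp only [mem_product, mem_powersetCard] at h
    obtain ⟨⟨⟨hX, hXc⟩, hY, hYc⟩, hw⟩ := h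
    have hd := disjoint_left.1 (hW w hw)
    have hab := disjoint_left.1 hAB
    simp only [Prod.mk.injEq]
    refine ⟨⟨?_, ?_⟩, ?_⟩
    · ext x
      have e1 := @hX x
      have e2 := @hY x
      have e3 := @hd x
      have e4 := @hab x
      simp only [mem_inter, mem_union] at *
      tauto
    · ext x
      have e1 := @hX x
      have e2 := @hY x
      have e3 := @hd x
      have e4 := @hab x
      simp only [mem_inter, mem_union] at *
      tauto
    · ext x
      have e1 := @hX x
      have e2 := @hY x
      have e3 := @hd x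
      have e4 := @hab x
      simp only [mem_sdiff, mem_union] at *
      tauto

open Classical in
theorem card_parts (A B T : Finset (ZMod p × ZMod p)) (hAB : Disjoint A B) :
    (T ∩ A).card + (T ∩ B).card + (T \ (A ∪ B)).card = T.card := by
  have h1 := card_sdiff_add_card_inter T (A ∪ B)
  have h2 : (T ∩ (A ∪ B)).card = (T ∩ A).card + (T ∩ B).card := by
    rw [inter_union_distrib_left, card_union_of_disjoint]
    exact disjoint_of_subset_left inter_subset_right
      (disjoint_of_subset_right inter_subset_right hAB)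
  omega

open Classical in
theorem card_B_par (l l' : LT p) (h : Disjoint (pts l) (pts l')) :
    (univ.filter (fun T : Finset (ZMod p × ZMod p) => T.card = 10 ∧ 5 ≤ (T ∩ pts l).card ∧
      5 ≤ (T ∩ pts l').card)).card = (p.choose 5) ^ 2 := by
  have h1 := split3 (pts l) (pts l') h 5 5 {∅} (by simp)
  rw [card_pts, card_pts, card_singleton, mul_one, ← pow_two] at h1
  rw [← h1]
  congr 1
  ext T
  simp only [mem_filter, mem_univ, true_and, mem_singleton]
  have h2 := card_parts (pts l) (pts l') T h
  rw [← card_eq_zero]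
  constructor
  · rintro ⟨h3, h4, h5⟩
    omega
  · rintro ⟨h3, h4, h5⟩
    omega

open Classical in
theorem card_B_meet (l l' : LT p) (hl : l ≠ l') (P : ZMod p × ZMod p) (hP : on l P)
    (hP' : on l' P) :
    (univ.filter (fun T : Finset (ZMod p × ZMod p) => T.card = 10 ∧ 5 ≤ (T ∩ pts l).card ∧
      5 ≤ (T ∩ pts l').card)).card =
      (p - 1).choose 5 * (p - 1).choose 5 + (p - 1).choose 5 * (p - 1).choose 4
        + (p - 1).choose 4 * (p - 1).choose 5
        + (p - 1).choose 4 * (p - 1).choose 4 * (p ^ 2 - (2 * p - 1)) := by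
  set A := (pts l).erase P with hA
  set B := (pts l').erase P with hB
  have hAc : A.card = p - 1 := by
    rw [hA, card_erase_of_mem (mem_pts.2 hP), card_pts]
  have hBc : B.card = p - 1 := by
    rw [hB, card_erase_of_mem (mem_pts.2 hP'), card_pts]
  have hPA : P ∉ A := by simp [hA]
  have hPB : P ∉ B := by simp [hB]
  have hAB : Disjoint A B := by
    rw [disjoint_left]
    intro x hx hx'
    rw [hA, mem_erase, mem_pts] at hx
    rw [hB, mem_erase, mem_pts] at hx'
    exact hl (on_unique hx.1 hx.2 hP hx'.2 hP')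
  have hUc : (pts l ∪ pts l').card = 2 * p - 1 := by
    have h1 := card_union_add_card_inter (pts l) (pts l')
    have h2 : pts l ∩ pts l' = {P} := by
      ext x
      rw [mem_inter, mem_pts, mem_pts, mem_singleton]
      constructor
      · rintro ⟨h3, h4⟩
        by_contra hne
        exact hl (on_unique hne h3 hP h4 hP')
      · rintro rfl
        exact ⟨hP, hP'⟩
    rw [h2, card_singleton, card_pts, card_pts] at h1
    omega
  set R := (pts l ∪ pts l')ᶜ with hR
  have hRc : R.card = p ^ 2 - (2 * p - 1) := by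
    rw [hR, card_compl, hUc]
    simp only [Fintype.card_prod, ZMod.card, ← pow_two]
  have hPR : P ∉ R := by
    rw [hR, mem_compl, mem_union, mem_pts]
    tauto
  have hcov : ∀ x, x ∉ A → x ∉ B → x ≠ P → x ∈ R := by
    intro x h1 h2 h3
    rw [hA, mem_erase] at h1
    rw [hB, mem_erase] at h2
    rw [hR, mem_compl, mem_union]
    tauto
  have hRA : ∀ x ∈ R, x ∉ A ∧ x ∉ B := by
    intro x h1
    rw [hR, mem_compl, mem_union] at h1
    rw [hA, mem_erase, hB, mem_erase]
    tauto
  have hWim : (R.image (fun x => ({P, x} : Finset (ZMod p × ZMod p)))).card =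
      p ^ 2 - (2 * p - 1) := by
    rw [card_image_of_injOn, hRc]
    intro x hx y hy hxy
    simp only at hxy
    have h1 : x ∈ ({P, y} : Finset (ZMod p × ZMod p)) := by
      rw [← hxy]
      simp
    rw [mem_insert, mem_singleton] at h1
    rcases h1 with h1 | h1
    · exact absurd (h1 ▸ hx) hPR
    · exact h1
  have hd1 : Disjoint ({P} : Finset (ZMod p × ZMod p)) (A ∪ B) := by
    rw [disjoint_singleton_left, mem_union]
    tauto
  have h55 := split3 A B hAB 5 5 {∅} (by simp)
  have h54 := split3 A B hAB 5 4 {{P}} (by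
    intro w hw
    rw [mem_singleton] at hw
    subst hw
    exact hd1)
  have h45 := split3 A B hAB 4 5 {{P}} (by
    intro w hw
    rw [mem_singleton] at hw
    subst hw
    exact hd1)
  have h44 := split3 A B hAB 4 4 (R.image (fun x => ({P, x} : Finset (ZMod p × ZMod p)))) (by
    intro w hw
    rw [mem_image] at hw
    obtain ⟨x, hx, rfl⟩ := hw
    rw [disjoint_left]
    intro y hy
    rw [mem_insert, mem_singleton] at hy
    rw [mem_union]
    have := hRA x hx
    rcases hy with rfl | rfl
    · tauto
    · tauto)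
  rw [hAc, hBc] at h55 h54 h45 h44
  rw [card_singleton, mul_one] at h55 h54 h45
  rw [hWim] at h44
  rw [← h55, ← h54, ← h45, ← h44]
  have hlA : ∀ T : Finset (ZMod p × ZMod p), (T ∩ pts l).card =
      (T ∩ A).card + if P ∈ T then 1 else 0 := by
    intro T
    have h1 : T ∩ pts l = if P ∈ T then insert P (T ∩ A) else T ∩ A := by
      have hPl : P ∈ pts l := mem_pts.2 hP
      split_ifs with h
      · ext x
        simp only [mem_inter, mem_insert, hA, mem_erase]
        by_cases hx : x = P
        · subst hx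
          tauto
        · tauto
      · ext x
        simp only [mem_inter, hA, mem_erase]
        by_cases hx : x = P
        · subst hx
          tauto
        · tauto
    rw [h1]
    split_ifs with h
    · rw [card_insert_of_notMem]
      rw [mem_inter]
      tauto
    · simp
  have hlB : ∀ T : Finset (ZMod p × ZMod p), (T ∩ pts l').card =
      (T ∩ B).card + if P ∈ T then 1 else 0 := by
    intro T
    have h1 : T ∩ pts l' = if P ∈ T then insert P (T ∩ B) else T ∩ B := by
      have hPl : P ∈ pts l' := mem_pts.2 hP'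
      split_ifs with h
      · ext x
        simp only [mem_inter, mem_insert, hB, mem_erase]
        by_cases hx : x = P
        · subst hx
          tauto
        · tauto
      · ext x
        simp only [mem_inter, hB, mem_erase]
        by_cases hx : x = P
        · subst hx
          tauto
        · tauto
    rw [h1]
    split_ifs with h
    · rw [card_insert_of_notMem]
      rw [mem_inter]
      tauto
    · simp
  rw [← card_union_of_disjoint, ← card_union_of_disjoint, ← card_union_of_disjoint]
  · congr 1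
    ext T
    simp only [mem_filter, mem_univ, true_and, mem_union, mem_singleton, mem_image]
    rw [hlA, hlB]
    have h2 := card_parts A B T hAB
    have hPT : P ∈ T ↔ P ∈ T \ (A ∪ B) := by
      rw [mem_sdiff, mem_union]
      tauto
    constructor
    · rintro ⟨h3, h4, h5⟩
      by_cases hPm : P ∈ T
      · rw [if_pos hPm] at h4 h5
        have hPm' := hPT.1 hPm
        have hpos : 0 < (T \ (A ∪ B)).card := card_pos.2 ⟨P, hPm'⟩
        have hcases : ((T ∩ A).card = 5 ∧ (T ∩ B).card = 4 ∧ (T \ (A ∪ B)).card = 1) ∨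
            ((T ∩ A).card = 4 ∧ (T ∩ B).card = 5 ∧ (T \ (A ∪ B)).card = 1) ∨
            ((T ∩ A).card = 4 ∧ (T ∩ B).card = 4 ∧ (T \ (A ∪ B)).card = 2) := by omega
        rcases hcases with ⟨ha, hb, hw⟩ | ⟨ha, hb, hw⟩ | ⟨ha, hb, hw⟩
        · left; left; right
          refine ⟨ha, hb, ?_⟩
          obtain ⟨x, hx⟩ := card_eq_one.1 hw
          rw [hx, mem_singleton] at hPm'
          rw [hx, hPm']
        · left; right
          refine ⟨ha, hb, ?_⟩
          obtain ⟨x, hx⟩ := card_eq_one.1 hw
          rw [hx, mem_singleton] at hPm'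
          rw [hx, hPm']
        · right
          refine ⟨ha, hb, ?_⟩
          obtain ⟨x, y, hxy, hx⟩ := card_eq_two.1 hw
          have hxm : x ∈ T \ (A ∪ B) := by rw [hx]; simp
          have hym : y ∈ T \ (A ∪ B) := by rw [hx]; simp
          rw [mem_sdiff, mem_union] at hxm hym
          rw [hx, mem_insert, mem_singleton] at hPm'
          rcases hPm' with h | h
          · refine ⟨y, hcov y (by tauto) (by tauto) (by rw [h]; exact hxy.symm), ?_⟩
            rw [hx, h]
          · refine ⟨x, hcov x (by tauto) (by tauto) (by rw [h]; exact hxy), ?_⟩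
            rw [hx, h, pair_comm]
      · rw [if_neg hPm] at h4 h5
        left; left; left
        refine ⟨by omega, by omega, ?_⟩
        rw [← card_eq_zero]
        omega
    · rintro (((⟨ha, hb, hw⟩ | ⟨ha, hb, hw⟩) | ⟨ha, hb, hw⟩) | ⟨ha, hb, x, hx, hw⟩)
      · rw [hw, card_empty] at h2
        refine ⟨by omega, ?_, ?_⟩ <;> omega
      · have hPm : P ∈ T := by
          rw [hPT, hw]
          simp
        rw [hw, card_singleton] at h2
        rw [if_pos hPm]
        omega
      · have hPm : P ∈ T := by
          rw [hPT, hw]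
          simp
        rw [hw, card_singleton] at h2
        rw [if_pos hPm]
        omega
      · have hPm : P ∈ T := by
          rw [hPT, ← hw]
          simp
        have hxP : P ≠ x := by
          rintro rfl
          exact hPR hx
        rw [← hw, card_pair hxP] at h2
        rw [if_pos hPm]
        omega
  · rw [disjoint_left]
    intro T hT hT'
    simp only [mem_filter, mem_univ, true_and, mem_union] at hT hT'
    omega
  · rw [disjoint_left]
    intro T hT hT'
    simp only [mem_filter, mem_univ, true_and, mem_union] at hT hT'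
    omega
  · rw [disjoint_left]
    intro T hT hT'
    simp only [mem_filter, mem_univ, true_and] at hT hT'
    omega

open Classical in
theorem sum_rl : ∑ T ∈ powersetCard 10 (univ : Finset (ZMod p × ZMod p)), (rl T).card =
    (p ^ 2 + p) * ∑ j ∈ Icc 5 10, p.choose j * (p ^ 2 - p).choose (10 - j) := by
  have h1 : ∀ T : Finset (ZMod p × ZMod p), (rl T).card =
      ∑ l : LT p, if 5 ≤ (T ∩ pts l).card then 1 else 0 := by
    intro T
    rw [← card_filter]
    rfl
  simp_rw [h1]
  rw [sum_comm]
  have h2 : ∀ l ∈ (univ : Finset (LT p)),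
      (∑ T ∈ powersetCard 10 (univ : Finset (ZMod p × ZMod p)),
        if 5 ≤ (T ∩ pts l).card then 1 else 0) =
      ∑ j ∈ Icc 5 10, p.choose j * (p ^ 2 - p).choose (10 - j) := by
    intro l _
    rw [← card_filter, ← card_A l]
    congr 1
    ext T
    simp only [mem_filter, mem_powersetCard, subset_univ, true_and, mem_univ]
  rw [sum_congr rfl h2, sum_const, card_LT, smul_eq_mul]

/-- pairs of distinct lines that meet -/
noncomputable def OM (p : ℕ) [Fact p.Prime] : Finset (LT p × LT p) := by
  classical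
  exact ((univ : Finset (LT p)).offDiag).filter (fun x => ∃ P, on x.1 P ∧ on x.2 P)

theorem card_OM : (OM p).card = p ^ 2 * ((p + 1) * (p + 1) - (p + 1)) := by
  classical
  have h1 : OM p = (univ : Finset (ZMod p × ZMod p)).biUnion
      (fun P => ((univ : Finset (LT p)).filter (fun l => on l P)).offDiag) := by
    ext ⟨l, l'⟩
    simp only [OM, mem_filter, mem_offDiag, mem_univ, true_and, mem_biUnion]
    constructor
    · rintro ⟨h, P, h1, h2⟩
      exact ⟨P, h1, h2, h⟩
    · rintro ⟨P, h1, h2, h⟩
      exact ⟨h, P, h1, h2⟩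
  rw [h1, card_biUnion]
  · have h2 : ∀ P ∈ (univ : Finset (ZMod p × ZMod p)),
        (((univ : Finset (LT p)).filter (fun l => on l P)).offDiag).card =
          (p + 1) * (p + 1) - (p + 1) := by
      intro P _
      rw [offDiag_card, card_through]
    rw [sum_congr rfl h2, sum_const, card_univ, smul_eq_mul]
    simp only [Fintype.card_prod, ZMod.card, ← pow_two]
  · intro P _ P' _ hne
    rw [Function.onFun, disjoint_left]
    rintro ⟨l, l'⟩ h h'
    simp only [mem_filter, mem_offDiag, mem_univ, true_and] at h h'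
    exact h.2.2 (on_unique hne h.1 h'.1 h.2.1 h'.2.1)

/-- the number of sets for two lines that meet -/
def b1 (p : ℕ) : ℕ := (p - 1).choose 5 * (p - 1).choose 5 + (p - 1).choose 5 * (p - 1).choose 4
        + (p - 1).choose 4 * (p - 1).choose 5
        + (p - 1).choose 4 * (p - 1).choose 4 * (p ^ 2 - (2 * p - 1))

open Classical in
theorem sum_offDiag : ∑ T ∈ powersetCard 10 (univ : Finset (ZMod p × ZMod p)),
      (rl T).offDiag.card =
    (OM p).card * b1 p +
      ((((p ^ 2 + p) * (p ^ 2 + p) - (p ^ 2 + p)) - (OM p).card)) * (p.choose 5) ^ 2 := by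
  have h1 : ∀ T : Finset (ZMod p × ZMod p), (rl T).offDiag.card =
      ∑ x ∈ (univ : Finset (LT p)).offDiag,
        if 5 ≤ (T ∩ pts x.1).card ∧ 5 ≤ (T ∩ pts x.2).card then 1 else 0 := by
    intro T
    rw [← card_filter]
    congr 1
    ext ⟨l, l'⟩
    simp only [rl, mem_filter, mem_offDiag, mem_univ, true_and]
    tauto
  simp_rw [h1]
  rw [sum_comm]
  have h2 : ∀ x ∈ (univ : Finset (LT p)).offDiag,
      (∑ T ∈ powersetCard 10 (univ : Finset (ZMod p × ZMod p)),
        if 5 ≤ (T ∩ pts x.1).card ∧ 5 ≤ (T ∩ pts x.2).card then 1 else 0) =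
      if (∃ P, on x.1 P ∧ on x.2 P) then b1 p else (p.choose 5) ^ 2 := by
    rintro ⟨l, l'⟩ hx
    simp only [mem_offDiag, mem_univ, true_and] at hx
    have h3 : (∑ T ∈ powersetCard 10 (univ : Finset (ZMod p × ZMod p)),
        if 5 ≤ (T ∩ pts l).card ∧ 5 ≤ (T ∩ pts l').card then 1 else 0) =
        (univ.filter (fun T : Finset (ZMod p × ZMod p) => T.card = 10 ∧ 5 ≤ (T ∩ pts l).card ∧
          5 ≤ (T ∩ pts l').card)).card := by
      rw [← card_filter]
      congr 1
      ext T
      simp only [mem_filter, mem_powersetCard, subset_univ, true_and, mem_univ]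
    simp only
    rw [h3]
    split_ifs with h
    · obtain ⟨P, hP, hP'⟩ := h
      exact card_B_meet l l' hx P hP hP'
    · apply card_B_par
      rw [disjoint_left]
      intro P hP hP'
      exact h ⟨P, mem_pts.1 hP, mem_pts.1 hP'⟩
  rw [sum_congr rfl h2, sum_ite, sum_const, sum_const, smul_eq_mul, smul_eq_mul]
  have h4 := card_filter_add_card_filter_not
    (s := (univ : Finset (LT p)).offDiag) (fun x => ∃ P, on x.1 P ∧ on x.2 P)
  rw [offDiag_card, card_LT] at h4
  have h5 : (OM p).card = (((univ : Finset (LT p)).offDiag).filter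
      (fun x => ∃ P, on x.1 P ∧ on x.2 P)).card := by
    unfold OM
    congr
  rw [h5]
  congr 2
  omega

theorem card_R1 :
    (Nat.card {T : Finset (ZMod p × ZMod p) // T.card = 10 ∧ R1 T} : ℚ) =
      ((p ^ 2 + p) * ∑ j ∈ Icc 5 10, p.choose j * (p ^ 2 - p).choose (10 - j) : ℕ) -
      (((p ^ 2 * ((p + 1) * (p + 1) - (p + 1))) * b1 p +
      ((((p ^ 2 + p) * (p ^ 2 + p) - (p ^ 2 + p)) - (p ^ 2 * ((p + 1) * (p + 1) - (p + 1))))) *
        (p.choose 5) ^ 2 : ℕ) : ℚ) / 2 := by
  classical
  have h1 : Nat.card {T : Finset (ZMod p × ZMod p) // T.card = 10 ∧ R1 T} =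
      ((powersetCard 10 (univ : Finset (ZMod p × ZMod p))).filter (fun T => R1 T)).card := by
    apply Nat.subtype_card
    intro T
    simp only [mem_filter, mem_powersetCard, subset_univ, true_and]
  rw [h1, card_filter, ← sum_rl, ← card_OM, ← sum_offDiag]
  push_cast
  rw [sum_div, ← sum_sub_distrib]
  refine sum_congr rfl fun T hT => ?_
  rw [mem_powersetCard] at hT
  have h2 := rl_le T hT.2
  have h3 := R1_iff T
  rw [offDiag_card]
  interval_cases h : (rl T).card
  · rw [if_neg (by rw [h3]; omega)]
    norm_num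
  · rw [if_pos (by rw [h3]; omega)]
    norm_num
  · rw [if_pos (by rw [h3]; omega)]
    norm_num

end PB4

open PB4 in
theorem isRat_R1 : IsRat (fun p =>
    (Nat.card {T : Finset (ZMod p × ZMod p) // T.card = 10 ∧ R1 T} : ℚ)) := by
  have hp1 : IsRat (fun p => ((p - 1 : ℕ) : ℚ)) := by
    refine (IsRat.id.sub (IsRat.const 1)).congr fun p hp h5 => ?_
    rw [Nat.cast_sub (by omega)]
    simp
  have hpp : IsRat (fun p => ((p ^ 2 - p : ℕ) : ℚ)) := by
    refine ((IsRat.id.pow 2).sub IsRat.id).congr fun p hp h5 => ?_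
    rw [Nat.cast_sub (by nlinarith)]
    simp
  have hR : IsRat (fun p => ((p ^ 2 - (2 * p - 1) : ℕ) : ℚ)) := by
    refine ((IsRat.id.pow 2).sub (((IsRat.const 2).mul IsRat.id).sub (IsRat.const 1))).congr
      fun p hp h5 => ?_
    have h1 : 1 ≤ 2 * p := by omega
    have h2 : 2 * p - 1 ≤ p ^ 2 := by
      have : 2 * p ≤ p ^ 2 := by nlinarith
      omega
    rw [Nat.cast_sub h2, Nat.cast_sub h1]
    simp
  have hid : IsRat (fun p => ((fun q : ℕ => q) p : ℚ)) := IsRat.id
  have hL : IsRat (fun p => ((p ^ 2 + p : ℕ) : ℚ)) := by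
    refine ((IsRat.id.pow 2).add IsRat.id).congr fun p hp h5 => ?_
    simp
  have hA : IsRat (fun p => (((p ^ 2 + p) *
      ∑ j ∈ Icc 5 10, p.choose j * (p ^ 2 - p).choose (10 - j) : ℕ) : ℚ)) := by
    refine (hL.mul (IsRat.sum (Icc 5 10) (f := fun j p => (p.choose j : ℚ) *
      ((p ^ 2 - p).choose (10 - j) : ℚ)) fun j _ => ?_)).congr fun p hp h5 => ?_
    · exact (IsRat.choose (a := fun q => q) IsRat.id j).mul
        (IsRat.choose (a := fun q => q ^ 2 - q) hpp (10 - j))
    · push_cast
      rfl
  have hM : IsRat (fun p => ((p ^ 2 * ((p + 1) * (p + 1) - (p + 1)) : ℕ) : ℚ)) := by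
    refine ((IsRat.id.pow 2).mul ((IsRat.id.add (IsRat.const 1)).mul IsRat.id)).congr
      fun p hp h5 => ?_
    have : (p + 1) * (p + 1) - (p + 1) = (p + 1) * p := by
      rw [Nat.sub_eq_iff_eq_add (by nlinarith)]
      ring
    rw [this]
    push_cast
    ring
  have hN : IsRat (fun p => ((((p ^ 2 + p) * (p ^ 2 + p) - (p ^ 2 + p)) -
      (p ^ 2 * ((p + 1) * (p + 1) - (p + 1))) : ℕ) : ℚ)) := by
    refine ((((IsRat.id.pow 2).add IsRat.id).mul (((IsRat.id.pow 2).add IsRat.id).sub
      (IsRat.const 1))).sub ((IsRat.id.pow 2).mul ((IsRat.id.add (IsRat.const 1)).mul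
        IsRat.id))).congr fun p hp h5 => ?_
    have h1 : (p + 1) * (p + 1) - (p + 1) = (p + 1) * p := by
      rw [Nat.sub_eq_iff_eq_add (by nlinarith)]
      ring
    have h2 : (p ^ 2 + p) * (p ^ 2 + p) - (p ^ 2 + p) = p ^ 2 * ((p + 1) * p) + p * (p ^ 2 - 1) := by
      obtain ⟨k, hk⟩ : ∃ k, p ^ 2 = k + 1 := ⟨p ^ 2 - 1, by
        have : 0 < p ^ 2 := by positivity
        omega⟩
      rw [Nat.sub_eq_iff_eq_add (by nlinarith)]
      rw [show p ^ 2 - 1 = k by omega]
      have h3 : (k : ℤ) = (p : ℤ) ^ 2 - 1 := by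
        have : ((p ^ 2 : ℕ) : ℤ) = ((k + 1 : ℕ) : ℤ) := by rw [hk]
        push_cast at this
        linarith
      zify
      rw [h3]
      ring
    rw [h1, h2, Nat.add_sub_cancel_left]
    rw [Nat.cast_mul, Nat.cast_sub (by nlinarith)]
    push_cast
    ring
  have hc5 := IsRat.choose (a := fun q => q - 1) hp1 5
  have hc4 := IsRat.choose (a := fun q => q - 1) hp1 4
  have hb1 : IsRat (fun p => (b1 p : ℚ)) := by
    refine ((((hc5.mul hc5).add (hc5.mul hc4)).add (hc4.mul hc5)).add
      ((hc4.mul hc4).mul hR)).congr fun p hp h5 => ?_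
    unfold b1
    push_cast
    rfl
  have hp5 := IsRat.choose (a := fun q => q) IsRat.id 5
  refine (hA.sub (((hM.mul hb1).add (hN.mul (hp5.pow 2))).mul (IsRat.const (1 / 2)))).congr
    fun p hp h5 => ?_
  have : Fact p.Prime := ⟨hp⟩
  rw [card_R1]
  rw [Nat.cast_add, Nat.cast_mul (p ^ 2 * ((p + 1) * (p + 1) - (p + 1))) (b1 p),
    Nat.cast_mul (_ - _), Nat.cast_pow]
  ring

end Pool.Agent.T2H70.SR
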