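import Pool.Agent.T2H70.SR.B6b

set_option autoImplicit false

/-!
# Package B6: the number of sets `T` with `R2`

`(p-1) #R2 = ∑_{q nonsingular} sArc p (number of points of q)`, because a set `T` as in `R2` determines the conic up to a
factor. The number of affine points is `p - χ(b² - 4ac)`, and for `(a, b, c) ≠ 0` there are `p² (p-1)` nonsingular
`q = (a, b, c, d, e, f)`.
-/

namespace Pool.Agent.T2H70.SR

open Finset
open scoped BigOperators

namespace PB6

variable {p : ℕ} [Fact p.Prime]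

/-! ### the double counting -/

lemma Rel_iff (q : Fin 6 → ZMod p) (T : Finset (ZMod p × ZMod p)) :
    Rel q T ↔ T.card = 10 ∧ ¬ R1 T ∧ 6 ≤ (T.filter (fun P => qd q P = 0)).card ∧
      ∃ a b c : ZMod p, (a, b) ≠ (0, 0) ∧ ∀ P ∈ T, qd q P ≠ 0 → a * P.1 + b * P.2 = c := by
  have e : T ∩ V q = T.filter (fun P => qd q P = 0) := by
    ext P
    rw [mem_inter, mem_V, mem_filter]
  unfold Rel
  rw [e]
  simp only [mem_V, ne_eq]

lemma R2_iff (T : Finset (ZMod p × ZMod p)) :
    (T.card = 10 ∧ R2 T) ↔ ∃ q : Fin 6 → ZMod p, Nsc q ∧ Rel q T := by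
  simp only [Rel_iff]
  unfold R2
  constructor
  · rintro ⟨h1, h2, q, h3, h4, h5⟩
    exact ⟨q, h3, h1, h2, h4, h5⟩
  · rintro ⟨q, h3, h1, h2, h4, h5⟩
    exact ⟨h1, h2, q, h3, h4, h5⟩

lemma V_smul {l : ZMod p} (hl : l ≠ 0) (q : Fin 6 → ZMod p) : V (l • q) = V q := by
  ext P
  rw [mem_V, mem_V, qd_smul]
  constructor
  · intro h
    exact (mul_eq_zero.1 h).resolve_left hl
  · intro h
    rw [h, mul_zero]

lemma Nsc_smul {l : ZMod p} (hl : l ≠ 0) {q : Fin 6 → ZMod p} (h : Nsc q) : Nsc (l • q) := by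
  unfold Nsc at h ⊢
  simp only [Pi.smul_apply, smul_eq_mul]
  have : 4 * (l * q 0) * (l * q 2) * (l * q 5) + l * q 1 * (l * q 3) * (l * q 4) -
      l * q 0 * (l * q 4) ^ 2 - l * q 2 * (l * q 3) ^ 2 - l * q 5 * (l * q 1) ^ 2 =
      l ^ 3 * (4 * q 0 * q 2 * q 5 + q 1 * q 3 * q 4 - q 0 * q 4 ^ 2 - q 2 * q 3 ^ 2 -
        q 5 * q 1 ^ 2) := by
    ring
  rw [this]
  exact mul_ne_zero (pow_ne_zero 3 hl) h

lemma Nsc_ne_zero {q : Fin 6 → ZMod p} (h : Nsc q) : q ≠ 0 := by
  intro h0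
  apply h
  rw [h0]
  simp

open Classical in
/-- the number of conics of a set of ten points -/
lemma card_fiber (hp : 5 ≤ p) {q0 : Fin 6 → ZMod p} {T : Finset (ZMod p × ZMod p)} (hN : Nsc q0)
    (h : Rel q0 T) : ((univ.filter fun q : Fin 6 → ZMod p => Nsc q).filter
      fun q => Rel q T).card = p - 1 := by
  have e : (univ.erase (0 : ZMod p)).card = p - 1 := by
    rw [card_erase_of_mem (mem_univ _), card_univ, ZMod.card]
  rw [← e]
  symm
  refine card_bij (fun l _ => l • q0) ?_ ?_ ?_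
  · intro l hl
    have hl' : l ≠ 0 := ne_of_mem_erase hl
    rw [mem_filter, mem_filter]
    refine ⟨⟨mem_univ _, Nsc_smul hl' hN⟩, ?_⟩
    unfold Rel
    rw [V_smul hl']
    exact h
  · intro l _ l' _ hll
    exact smul_left_injective (ZMod p) (Nsc_ne_zero hN) hll
  · intro q hq
    rw [mem_filter, mem_filter] at hq
    obtain ⟨l, hl⟩ := unique hp hN hq.1.2 h hq.2
    refine ⟨l, mem_erase.2 ⟨?_, mem_univ _⟩, hl.symm⟩
    rintro rfl
    exact Nsc_ne_zero hq.1.2 (by rw [hl, zero_smul])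

lemma ch_cases (x : ZMod p) : ch x = 0 ∨ ch x = 1 ∨ ch x = -1 := by
  by_cases h : x = 0
  · left
    rw [h]
    simp [ch]
  · right
    exact quadraticChar_dichotomy h

open Classical in
/-- the number of sets for a given conic -/
lemma card_Rel (hp : 5 ≤ p) {q : Fin 6 → ZMod p} (hN : Nsc q) :
    ((univ.filter fun T : Finset (ZMod p × ZMod p) => Rel q T).card : ℚ) =
      sArc p (V q).card := by
  have h1 := card_V hp hN
  have h2 : 1 ≤ (V q).card ∧ (V q).card ≤ p + 1 := by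
    rcases ch_cases (Dl q) with h | h | h <;> rw [h] at h1 <;> omega
  rw [← card_arc p hp (V q) (fun a b c hab => arc hN a b c hab) h2.1 h2.2]
  congr 1
  refine (Nat.subtype_card _ fun T => ?_).symm
  rw [mem_filter]
  exact ⟨fun h => h.2, fun h => ⟨mem_univ _, h⟩⟩

open Classical in
lemma double (hp : 5 ≤ p) :
    ((p : ℚ) - 1) * (Nat.card {T : Finset (ZMod p × ZMod p) // T.card = 10 ∧ R2 T} : ℚ) =
      ∑ q ∈ univ.filter (fun q : Fin 6 → ZMod p => Nsc q), sArc p (V q).card := by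
  have e := sum_card_bipartiteAbove_eq_sum_card_bipartiteBelow
    (s := univ.filter (fun q : Fin 6 → ZMod p => Nsc q))
    (t := univ.filter (fun T : Finset (ZMod p × ZMod p) => T.card = 10 ∧ R2 T)) Rel
  have e1 : ∑ q ∈ univ.filter (fun q : Fin 6 → ZMod p => Nsc q), sArc p (V q).card =
      ((∑ q ∈ univ.filter (fun q : Fin 6 → ZMod p => Nsc q),
        ((univ.filter (fun T : Finset (ZMod p × ZMod p) => T.card = 10 ∧ R2 T)).bipartiteAbove
          Rel q).card : ℕ) : ℚ) := by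
    push_cast
    refine sum_congr rfl fun q hq => ?_
    have hN := (mem_filter.1 hq).2
    rw [← card_Rel hp hN]
    congr 2
    ext T
    rw [mem_bipartiteAbove, mem_filter, mem_filter]
    constructor
    · rintro ⟨-, h⟩
      exact ⟨⟨mem_univ _, (R2_iff T).2 ⟨q, hN, h⟩⟩, h⟩
    · rintro ⟨-, h⟩
      exact ⟨mem_univ _, h⟩
  have e2 : ∑ T ∈ univ.filter (fun T : Finset (ZMod p × ZMod p) => T.card = 10 ∧ R2 T),
      ((univ.filter (fun q : Fin 6 → ZMod p => Nsc q)).bipartiteBelow Rel T).card =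
      ∑ T ∈ univ.filter (fun T : Finset (ZMod p × ZMod p) => T.card = 10 ∧ R2 T), (p - 1) := by
    refine sum_congr rfl fun T hT => ?_
    obtain ⟨q0, hN, h⟩ := (R2_iff T).1 (mem_filter.1 hT).2
    exact card_fiber hp hN h
  rw [e1, e, e2, sum_const, smul_eq_mul, Nat.card_eq_fintype_card, Fintype.card_subtype]
  push_cast
  rw [Nat.cast_sub (by omega)]
  push_cast
  ring

/-! ### the sum over the conics -/

/-- the six coefficients -/
def E6 (F : Type) : (F × F × F) × (F × F × F) ≃ (Fin 6 → F) where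
  toFun x := ![x.1.1, x.1.2.1, x.1.2.2, x.2.1, x.2.2.1, x.2.2.2]
  invFun q := ((q 0, q 1, q 2), (q 3, q 4, q 5))
  left_inv x := rfl
  right_inv q := by
    funext i
    fin_cases i <;> rfl

lemma sum_six (H : (Fin 6 → ZMod p) → ℚ) : ∑ q, H q =
    ∑ a, ∑ b, ∑ c, ∑ d, ∑ e, ∑ f, H ![a, b, c, d, e, f] := by
  rw [← Equiv.sum_comp (E6 (ZMod p)) H]
  simp only [Fintype.sum_prod_type]
  rfl

lemma sum_ne (f : ZMod p → ℚ) (K : ℚ) (h : ∀ a, a ≠ 0 → f a = K) :
    ∑ a, f a = f 0 + ((p : ℚ) - 1) * K := by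
  rw [← add_sum_erase univ f (mem_univ 0)]
  have : ∑ x ∈ univ.erase (0 : ZMod p), f x = ∑ x ∈ univ.erase (0 : ZMod p), K :=
    sum_congr rfl fun x hx => h x (ne_of_mem_erase hx)
  rw [this, sum_const, card_erase_of_mem (mem_univ _), card_univ, ZMod.card, nsmul_eq_mul,
    Nat.cast_sub (Nat.Prime.one_le Fact.out)]
  simp

lemma sum_lin (g : ZMod p → ℚ) {α : ZMod p} (hα : α ≠ 0) (β : ZMod p) :
    ∑ x : ZMod p, g (α * x + β) = ∑ y : ZMod p, g y := by
  refine Fintype.sum_bijective (fun x : ZMod p => α * x + β) ?_ _ _ fun x => rfl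
  refine ⟨fun x y hxy => ?_, fun y => ⟨(y - β) / α, ?_⟩⟩
  · have : α * x + β = α * y + β := hxy
    exact mul_left_cancel₀ hα (add_right_cancel this)
  · show α * ((y - β) / α) + β = y
    field_simp
    ring

lemma lin1 {α : ZMod p} (hα : α ≠ 0) (β : ZMod p) :
    ∑ x : ZMod p, (if α * x + β ≠ 0 then (1 : ℚ) else 0) = p - 1 := by
  rw [sum_lin (fun y => if y ≠ 0 then (1 : ℚ) else 0) hα β]
  rw [sum_ne (fun y => if y ≠ 0 then (1 : ℚ) else 0) 1 (fun a ha => if_pos ha)]
  simp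

lemma inner_sum (hp : 5 ≤ p) {a b c : ZMod p} (h : ¬ (a = 0 ∧ b = 0 ∧ c = 0)) :
    ∑ d : ZMod p, ∑ e : ZMod p, ∑ f : ZMod p,
      (if 4 * a * c * f + b * d * e - a * e ^ 2 - c * d ^ 2 - f * b ^ 2 ≠ 0 then (1 : ℚ) else 0) =
      (p : ℚ) ^ 2 * (p - 1) := by
  have h2 := two_ne hp
  have h4 := four_ne hp
  have cst : ∀ x : ℚ, ∑ _d : ZMod p, x = p * x := by
    intro x
    rw [sum_const, card_univ, ZMod.card, nsmul_eq_mul]
  by_cases hD : b ^ 2 - 4 * a * c = 0
  · by_cases ha : a = 0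
    · have hb : b = 0 := by
        rw [ha] at hD
        have : b ^ 2 = 0 := by linear_combination hD
        exact pow_eq_zero_iff (two_ne_zero) |>.1 this
      have hc : c ≠ 0 := fun hc => h ⟨ha, hb, hc⟩
      have e : ∀ d e f : ZMod p, (if 4 * a * c * f + b * d * e - a * e ^ 2 - c * d ^ 2 -
          f * b ^ 2 ≠ 0 then (1 : ℚ) else 0) = if (1 : ZMod p) * d + 0 ≠ 0 then (1 : ℚ) else 0 := by
        intro d e f
        refine if_congr ?_ rfl rfl
        rw [ha, hb]
        have : 4 * 0 * c * f + 0 * d * e - 0 * e ^ 2 - c * d ^ 2 - f * 0 ^ 2 = -(c * d ^ 2) := by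
          ring
        rw [this, one_mul, add_zero]
        simp [hc]
      simp only [e, cst]
      rw [← mul_sum, ← mul_sum, lin1 one_ne_zero 0]
      ring
    · have e : ∀ d e f : ZMod p, (if 4 * a * c * f + b * d * e - a * e ^ 2 - c * d ^ 2 -
          f * b ^ 2 ≠ 0 then (1 : ℚ) else 0) =
          if (2 * a) * e + (-(b * d)) ≠ 0 then (1 : ℚ) else 0 := by
        intro d e f
        refine if_congr (not_congr ?_) rfl rfl
        have h4a : 4 * a ≠ 0 := mul_ne_zero h4 ha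
        have key : 4 * a * (4 * a * c * f + b * d * e - a * e ^ 2 - c * d ^ 2 - f * b ^ 2) =
            -(((2 * a) * e + (-(b * d))) ^ 2) := by
          linear_combination (d ^ 2 - 4 * a * f) * hD
        constructor
        · intro h0
          rw [h0, mul_zero] at key
          have : ((2 * a) * e + (-(b * d))) ^ 2 = 0 := by linear_combination key
          exact pow_eq_zero_iff (two_ne_zero) |>.1 this
        · intro h0
          rw [h0] at key
          have : 4 * a * (4 * a * c * f + b * d * e - a * e ^ 2 - c * d ^ 2 - f * b ^ 2) = 0 := by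
            rw [key]
            ring
          exact (mul_eq_zero.1 this).resolve_left h4a
      simp only [e, cst]
      have e3 : ∀ d : ZMod p, ∑ x : ZMod p, (p : ℚ) * (if (2 * a) * x + (-(b * d)) ≠ 0 then (1 : ℚ)
          else 0) = p * (p - 1) := by
        intro d
        rw [← mul_sum, lin1 (mul_ne_zero h2 ha)]
      simp only [e3, cst]
      ring
  · have e : ∀ d e : ZMod p, ∑ f : ZMod p, (if 4 * a * c * f + b * d * e - a * e ^ 2 - c * d ^ 2 -
          f * b ^ 2 ≠ 0 then (1 : ℚ) else 0) = p - 1 := by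
      intro d e
      rw [← lin1 (neg_ne_zero.2 hD) (b * d * e - a * e ^ 2 - c * d ^ 2)]
      refine sum_congr rfl fun f _ => if_congr (not_congr ?_) rfl rfl
      have : 4 * a * c * f + b * d * e - a * e ^ 2 - c * d ^ 2 - f * b ^ 2 =
          -(b ^ 2 - 4 * a * c) * f + (b * d * e - a * e ^ 2 - c * d ^ 2) := by ring
      rw [this]
    simp only [e, cst]
    ring

lemma sum_ch (hp : 5 ≤ p) (G : ℤ → ℚ) : ∑ y : ZMod p, G (ch y) =
    G 0 + ((p : ℚ) - 1) * ((G 1 + G (-1)) / 2) := by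
  have e : ∀ y : ZMod p, G (ch y) = ((G 1 + G (-1)) / 2 + (ch y : ℚ) * ((G 1 - G (-1)) / 2)) +
      (if y = 0 then G 0 - (G 1 + G (-1)) / 2 else 0) := by
    intro y
    by_cases hy : y = 0
    · subst hy
      have : ch (0 : ZMod p) = 0 := by simp [ch]
      rw [this, if_pos rfl]
      push_cast
      ring
    · rw [if_neg hy]
      rcases quadraticChar_dichotomy hy with h | h
      · have h' : ch y = 1 := h
        rw [h']
        push_cast
        ring
      · have h' : ch y = -1 := h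
        rw [h']
        push_cast
        ring
  have e0 : ∑ y : ZMod p, (ch y : ℚ) = 0 := by
    have h := quadraticChar_sum_zero (ringChar_ne hp)
    have h' : ((∑ y : ZMod p, ch y : ℤ) : ℚ) = 0 := by
      have : ∑ y : ZMod p, ch y = 0 := h
      rw [this]
      simp
    push_cast at h'
    exact h'
  rw [sum_congr rfl fun y _ => e y, sum_add_distrib, sum_add_distrib, ← sum_mul, e0, sum_const,
    card_univ, ZMod.card, nsmul_eq_mul, sum_ite_eq' univ (0 : ZMod p), if_pos (mem_univ _)]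
  ring

lemma outer_sum (hp : 5 ≤ p) (G : ℤ → ℚ) :
    ∑ a : ZMod p, ∑ b : ZMod p, ∑ c : ZMod p, G (ch (b ^ 2 - 4 * a * c)) =
      p * (G 0 + (p - 1) * G 1) +
        (p - 1) * (p * (G 0 + ((p : ℚ) - 1) * ((G 1 + G (-1)) / 2))) := by
  have h4 := four_ne hp
  have cst : ∀ x : ℚ, ∑ _d : ZMod p, x = p * x := by
    intro x
    rw [sum_const, card_univ, ZMod.card, nsmul_eq_mul]
  rw [sum_ne _ (p * (G 0 + ((p : ℚ) - 1) * ((G 1 + G (-1)) / 2)))]
  · congr 1
    have e : ∀ b c : ZMod p, G (ch (b ^ 2 - 4 * 0 * c)) = G (ch (b ^ 2)) := by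
      intro b c
      congr 2
      ring
    simp only [e, cst]
    rw [← mul_sum]
    congr 1
    rw [sum_ne _ (G 1)]
    · congr 2
      simp [ch]
    · intro b hb
      congr 1
      exact quadraticChar_sq_one' hb
  · intro a ha
    have e : ∀ b : ZMod p, ∑ c : ZMod p, G (ch (b ^ 2 - 4 * a * c)) =
        G 0 + ((p : ℚ) - 1) * ((G 1 + G (-1)) / 2) := by
      intro b
      rw [← sum_ch hp G, ← sum_lin (fun y => G (ch y)) (neg_ne_zero.2 (mul_ne_zero h4 ha)) (b ^ 2)]
      refine sum_congr rfl fun c _ => ?_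
      congr 2
      ring
    simp only [e, cst]

open Classical in
lemma total (hp : 5 ≤ p) (G : ℤ → ℚ) :
    ∑ q ∈ univ.filter (fun q : Fin 6 → ZMod p => Nsc q), G (ch (Dl q)) =
      (p : ℚ) ^ 2 * (p - 1) * (p * (G 0 + (p - 1) * G 1) +
        (p - 1) * (p * (G 0 + ((p : ℚ) - 1) * ((G 1 + G (-1)) / 2))) - G 0) := by
  rw [sum_filter, sum_six]
  have e1 : ∀ a b c d e f : ZMod p,
      (if Nsc ![a, b, c, d, e, f] then G (ch (Dl ![a, b, c, d, e, f])) else 0) =
      G (ch (b ^ 2 - 4 * a * c)) * (if 4 * a * c * f + b * d * e - a * e ^ 2 - c * d ^ 2 -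
        f * b ^ 2 ≠ 0 then (1 : ℚ) else 0) := by
    intro a b c d e f
    have h1 : Nsc ![a, b, c, d, e, f] ↔
        4 * a * c * f + b * d * e - a * e ^ 2 - c * d ^ 2 - f * b ^ 2 ≠ 0 := Iff.rfl
    have h2 : Dl ![a, b, c, d, e, f] = b ^ 2 - 4 * a * c := rfl
    rw [h2]
    by_cases h : 4 * a * c * f + b * d * e - a * e ^ 2 - c * d ^ 2 - f * b ^ 2 ≠ 0
    · rw [if_pos (h1.2 h), if_pos h, mul_one]
    · rw [if_neg (fun h' => h (h1.1 h')), if_neg h, mul_zero]
  simp only [e1, ← mul_sum]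
  have e2 : ∀ a b c : ZMod p, G (ch (b ^ 2 - 4 * a * c)) *
      (∑ d : ZMod p, ∑ e : ZMod p, ∑ f : ZMod p,
      (if 4 * a * c * f + b * d * e - a * e ^ 2 - c * d ^ 2 - f * b ^ 2 ≠ 0 then (1 : ℚ) else 0)) =
      ((p : ℚ) ^ 2 * (p - 1)) * G (ch (b ^ 2 - 4 * a * c)) -
        if a = 0 then (if b = 0 then (if c = 0 then (p : ℚ) ^ 2 * (p - 1) * G 0 else 0) else 0)
          else 0 := by
    intro a b c
    by_cases h : a = 0 ∧ b = 0 ∧ c = 0
    · obtain ⟨rfl, rfl, rfl⟩ := h
      have h1 : ∀ d e f : ZMod p, (if 4 * 0 * 0 * f + 0 * d * e - 0 * e ^ 2 - 0 * d ^ 2 -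
          f * 0 ^ 2 ≠ 0 then (1 : ℚ) else 0) = 0 := by
        intro d e f
        rw [if_neg]
        rw [not_not]
        ring
      have h2 : ch ((0 : ZMod p) ^ 2 - 4 * 0 * 0) = 0 := by simp [ch]
      have h3 : ∑ d : ZMod p, ∑ e : ZMod p, ∑ f : ZMod p, (if 4 * 0 * 0 * f + 0 * d * e - 0 * e ^ 2 -
          0 * d ^ 2 - f * 0 ^ 2 ≠ 0 then (1 : ℚ) else 0) = 0 := by
        simp only [h1, sum_const_zero]
      rw [h3, h2, if_pos rfl, if_pos rfl, if_pos rfl]
      ring
    · rw [inner_sum hp h]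
      have h3 : (if a = 0 then (if b = 0 then (if c = 0 then (p : ℚ) ^ 2 * (p - 1) * G 0 else 0)
          else 0) else 0) = 0 := by
        by_cases ha : a = 0
        · by_cases hb : b = 0
          · by_cases hc : c = 0
            · exact absurd ⟨ha, hb, hc⟩ h
            · rw [if_pos ha, if_pos hb, if_neg hc]
          · rw [if_pos ha, if_neg hb]
        · rw [if_neg ha]
      rw [h3]
      ring
  simp only [e2, sum_sub_distrib, ← mul_sum]
  rw [outer_sum hp G]
  have e3 : ∑ a : ZMod p, ∑ b : ZMod p, ∑ c : ZMod p,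
      (if a = 0 then (if b = 0 then (if c = 0 then (p : ℚ) ^ 2 * (p - 1) * G 0 else 0) else 0)
        else 0) = (p : ℚ) ^ 2 * (p - 1) * G 0 := by
    rw [sum_eq_single (0 : ZMod p)]
    · rw [sum_eq_single (0 : ZMod p)]
      · rw [sum_eq_single (0 : ZMod p)]
        · simp
        · intro c _ hc
          simp [hc]
        · intro h
          exact absurd (mem_univ _) h
      · intro b _ hb
        simp [hb]
      · intro h
        exact absurd (mem_univ _) h
    · intro a _ ha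
      simp [ha]
    · intro h
      exact absurd (mem_univ _) h
  rw [e3]
  ring

open Classical in
/-- the number of sets with `R2` -/
lemma card_R2 (hp : 5 ≤ p) :
    (Nat.card {T : Finset (ZMod p × ZMod p) // T.card = 10 ∧ R2 T} : ℚ) =
      (p : ℚ) ^ 2 * (p * (sArc p p + (p - 1) * sArc p (p - 1)) +
        (p - 1) * (p * (sArc p p + ((p : ℚ) - 1) * ((sArc p (p - 1) + sArc p (p + 1)) / 2)))
          - sArc p p) := by
  have h1 := double (p := p) hp
  obtain ⟨G, hG⟩ : ∃ G : ℤ → ℚ, G = fun e => sArc p ((p : ℤ) - e).toNat := ⟨_, rfl⟩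
  have h2 : ∑ q ∈ univ.filter (fun q : Fin 6 → ZMod p => Nsc q), sArc p (V q).card =
      ∑ q ∈ univ.filter (fun q : Fin 6 → ZMod p => Nsc q), G (ch (Dl q)) := by
    refine sum_congr rfl fun q hq => ?_
    have hN := (mem_filter.1 hq).2
    rw [hG]
    show sArc p (V q).card = sArc p ((p : ℤ) - ch (Dl q)).toNat
    rw [← card_V hp hN]
    rfl
  rw [h2, total hp G] at h1
  have g0 : G 0 = sArc p p := by
    rw [hG]
    show sArc p ((p : ℤ) - 0).toNat = _
    have : ((p : ℤ) - 0).toNat = p := by omega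
    rw [this]
  have g1 : G 1 = sArc p (p - 1) := by
    rw [hG]
    show sArc p ((p : ℤ) - 1).toNat = _
    have : ((p : ℤ) - 1).toNat = p - 1 := by omega
    rw [this]
  have g2 : G (-1) = sArc p (p + 1) := by
    rw [hG]
    show sArc p ((p : ℤ) - (-1)).toNat = _
    have : ((p : ℤ) - (-1)).toNat = p + 1 := by omega
    rw [this]
  rw [g0, g1, g2] at h1
  have hp1 : (p : ℚ) - 1 ≠ 0 := by
    have : (5 : ℚ) ≤ p := by exact_mod_cast hp
    intro h
    linarith
  apply mul_left_cancel₀ hp1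
  rw [h1]
  ring

end PB6

namespace PB6

lemma isRat_sub {f : ℕ → ℕ} (hf : IsRat (fun p => (f p : ℚ))) (k : ℕ)
    (h : ∀ p : ℕ, 5 ≤ p → k ≤ f p) : IsRat (fun p => ((f p - k : ℕ) : ℚ)) := by
  refine (hf.sub (IsRat.const (k : ℚ))).congr fun p _ h5 => ?_
  rw [Nat.cast_sub (h p h5)]

lemma isRat_sArc {n : ℕ → ℕ} (hn : IsRat (fun p => (n p : ℚ)))
    (h2 : ∀ p : ℕ, 5 ≤ p → 2 ≤ n p) (h3 : ∀ p : ℕ, 5 ≤ p → n p ≤ p ^ 2) :
    IsRat (fun p => sArc p (n p)) := by
  have hid : IsRat (fun p => (p : ℚ)) := IsRat.id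
  have hc : ∀ k : ℕ, IsRat (fun p => ((n p).choose k : ℚ)) := fun k => IsRat.choose hn k
  have hpc : ∀ k : ℕ, IsRat (fun p => (p.choose k : ℚ)) := fun k => IsRat.choose hid k
  have hn1 := isRat_sub hn 1 fun p h => (by norm_num : 1 ≤ 2).trans (h2 p h)
  have hn2 := isRat_sub hn 2 h2
  have hp1 : IsRat (fun p => ((p - 1 : ℕ) : ℚ)) := isRat_sub (f := fun p => p) hid 1 fun p h => by
    omega
  have hp2 : IsRat (fun p => ((p - 2 : ℕ) : ℚ)) := isRat_sub (f := fun p => p) hid 2 fun p h => by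
    omega
  have hsq : IsRat (fun p => ((p ^ 2 - n p : ℕ) : ℚ)) := by
    refine ((hid.pow 2).sub hn).congr fun p _ h5 => ?_
    rw [Nat.cast_sub (h3 p h5)]
    push_cast
    ring
  have hsq' : IsRat (fun p => ((p ^ 2 : ℕ) : ℚ) - (n p : ℚ)) := by
    refine ((hid.pow 2).sub hn).congr fun p _ h5 => ?_
    push_cast
    ring
  have hcn : IsRat (fun p => (2 : ℚ)) := IsRat.const 2
  unfold sArc
  exact (((((hc 10).add ((hc 9).mul hsq')).add ((hc 8).mul (IsRat.choose hsq 2))).add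
    (((((hid.pow 2).add hid).sub (hn.mul ((hid.add hcn).sub hn))).sub (hc 2)).mul
      (((hpc 3).mul (hc 7)).add ((hpc 4).mul (hc 6))))).add
    ((hn.mul ((hid.add hcn).sub hn)).mul
      (((IsRat.choose hp1 3).mul (hc 7)).add ((IsRat.choose hp1 4).mul (IsRat.choose hn1 6))))).add
    ((hc 2).mul (((IsRat.choose hp2 3).mul ((hc 7).sub (IsRat.choose hn2 5))).add
      ((IsRat.choose hp2 4).mul (IsRat.choose hn2 6))))

end PB6

theorem isRat_R2 : IsRat (fun p =>
    (Nat.card {T : Finset (ZMod p × ZMod p) // T.card = 10 ∧ R2 T} : ℚ)) := by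
  have hid : IsRat (fun p => (p : ℚ)) := IsRat.id
  have h1 : IsRat (fun _ => (1 : ℚ)) := IsRat.const 1
  have h2 : IsRat (fun _ => (2 : ℚ)⁻¹) := IsRat.const _
  have s0 : IsRat (fun p => sArc p p) := PB6.isRat_sArc (n := fun p => p) hid
    (fun p h => by omega) (fun p h => by nlinarith)
  have s1 : IsRat (fun p => sArc p (p - 1)) := PB6.isRat_sArc (n := fun p => p - 1)
    (PB6.isRat_sub (f := fun p => p) hid 1 fun p h => by omega)
    (fun p h => by omega) (fun p h => by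
      have : p - 1 ≤ p := Nat.sub_le _ _
      nlinarith)
  have s2 : IsRat (fun p => sArc p (p + 1)) := PB6.isRat_sArc (n := fun p => p + 1)
    ((hid.add h1).congr fun p _ _ => by push_cast; ring)
    (fun p h => by omega) (fun p h => by nlinarith)
  refine ((hid.pow 2).mul (((hid.mul (s0.add ((hid.sub h1).mul s1))).add
    ((hid.sub h1).mul (hid.mul (s0.add ((hid.sub h1).mul ((s1.add s2).mul h2)))))).sub s0)).congr
    fun p hp h5 => ?_
  haveI : Fact p.Prime := ⟨hp⟩
  rw [PB6.card_R2 h5]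
  ring

end Pool.Agent.T2H70.SR
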