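import Pool.Agent.T2H70.SR.A1

set_option autoImplicit false

/-!
# Package B7: ten points on three lines

`T` has ten points, no line contains 5 of them (`¬ R1 T`), and `T` lies on three lines. Then the three lines are distinct and unique: each
contains at most 4 points of `T`; if `T` is on the union of the lines of `S` and of the lines of `S'`, `|S| = |S'| = 3`, `|S ∩ S'| = k`, then
`10 ≤ 4 k + (3 - k)²`, so `k = 3`. So `6 #R3 = ∑_{ordered triples of distinct lines} #{T ⊆ l1 ∪ l2 ∪ l3, |T| = 10, each line contains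
at most 4 points of T}`. The summand depends only on the numbers of points of the intersections.
-/

namespace Pool.Agent.T2H70.SR

open Finset
open scoped BigOperators

namespace PB7

/-! ### sums over triples -/

lemma sum1 {α : Type} [DecidableEq α] (s : Finset α) {b : α} (hb : b ∈ s) (x y : ℚ) :
    ∑ c ∈ s, (if b = c then x else y) = x + (s.card - 1) * y := by
  have h : ∀ c, (if b = c then x else y) = y + (if b = c then x - y else 0) := by
    intro c
    split_ifs <;> ring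
  simp_rw [h]
  rw [sum_add_distrib, sum_const, sum_ite_eq s b, if_pos hb, nsmul_eq_mul]
  ring

lemma sum3 {α : Type} [DecidableEq α] (s : Finset α) (v0 v12 v13 v23 vg : ℚ) :
    ∑ a ∈ s, ∑ b ∈ s, ∑ c ∈ s, (if a = b then (if b = c then v0 else v12) else
      if a = c then v13 else if b = c then v23 else vg) =
      s.card * (v0 + (s.card - 1) * (v12 + v13 + v23 + (s.card - 2) * vg)) := by
  have h1 : ∀ a ∈ s, ∀ b ∈ s, ∑ c ∈ s, (if a = b then (if b = c then v0 else v12) else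
      if a = c then v13 else if b = c then v23 else vg) =
      if a = b then v0 + (s.card - 1) * v12 else v13 + v23 + (s.card - 2) * vg := by
    intro a ha b hb
    by_cases hab : a = b
    · simp only [if_pos hab]
      exact sum1 s hb _ _
    · simp only [if_neg hab]
      have h : ∀ c, (if a = c then v13 else if b = c then v23 else vg) =
          vg + (if a = c then v13 - vg else 0) + (if b = c then v23 - vg else 0) := by
        intro c
        by_cases h1 : a = c
        · by_cases h2 : b = c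
          · exact absurd (h1.trans h2.symm) hab
          · simp only [if_pos h1, if_neg h2]; ring
        · by_cases h2 : b = c
          · simp only [if_neg h1, if_pos h2]; ring
          · simp only [if_neg h1, if_neg h2]; ring
      simp_rw [h]
      rw [sum_add_distrib, sum_add_distrib, sum_const, sum_ite_eq s a, sum_ite_eq s b, if_pos ha,
        if_pos hb, nsmul_eq_mul]
      ring
  have h2 : ∀ a ∈ s, ∑ b ∈ s, ∑ c ∈ s, (if a = b then (if b = c then v0 else v12) else
      if a = c then v13 else if b = c then v23 else vg) =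
      v0 + (s.card - 1) * (v12 + v13 + v23 + (s.card - 2) * vg) := by
    intro a ha
    rw [sum_congr rfl (h1 a ha), sum1 s ha]
    ring
  rw [sum_congr rfl h2, sum_const, nsmul_eq_mul]

/-! ### subsets with given numbers of elements in the fibres -/

lemma count_fib {α β : Type} [Fintype α] [DecidableEq α] [Fintype β] [DecidableEq β] (π : α → β)
    (k : β → ℕ) :
    (univ.filter fun T : Finset α => ∀ b, (T.filter fun P => π P = b).card = k b).card =
    ∏ b, ((univ.filter fun P => π P = b).card).choose (k b) := by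
  have h1 : ∏ b, ((univ.filter fun P => π P = b).card).choose (k b) =
      (Fintype.piFinset fun b => (univ.filter fun P => π P = b).powersetCard (k b)).card := by
    rw [Fintype.card_piFinset]
    exact prod_congr rfl fun b _ => (card_powersetCard _ _).symm
  have key : ∀ g : β → Finset α,
      g ∈ (Fintype.piFinset fun b => (univ.filter fun P => π P = b).powersetCard (k b)) →
      ∀ b, ((univ.filter fun P => P ∈ g (π P)).filter fun P => π P = b) = g b := by
    intro g hg b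
    rw [Fintype.mem_piFinset] at hg
    have h2 := mem_powersetCard.1 (hg b)
    ext P
    simp only [mem_filter, mem_univ, true_and]
    constructor
    · rintro ⟨h3, h4⟩
      rwa [h4] at h3
    · intro h3
      have h4 := (mem_filter.1 (h2.1 h3)).2
      exact ⟨by rw [h4]; exact h3, h4⟩
  rw [h1]
  refine card_bij' (fun T _ => fun b => T.filter fun P => π P = b)
    (fun g _ => univ.filter fun P => P ∈ g (π P)) ?_ ?_ ?_ ?_
  · intro T hT
    rw [mem_filter] at hT
    rw [Fintype.mem_piFinset]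
    intro b
    rw [mem_powersetCard]
    exact ⟨filter_subset_filter _ (subset_univ _), hT.2 b⟩
  · intro g hg
    rw [mem_filter]
    refine ⟨mem_univ _, fun b => ?_⟩
    rw [key g hg b]
    rw [Fintype.mem_piFinset] at hg
    exact (mem_powersetCard.1 (hg b)).2
  · intro T _
    ext P
    simp
  · intro g hg
    funext b
    exact key g hg b

lemma card_fib {α β : Type} [DecidableEq α] [Fintype β] [DecidableEq β] (π : α → β) (T : Finset α)
    (g : β → Prop) [DecidablePred g] :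
    (T.filter fun P => g (π P)).card =
      ∑ b, if g b then (T.filter fun P => π P = b).card else 0 := by
  rw [card_eq_sum_card_fiberwise (f := π) (t := univ) (fun _ _ => mem_univ _)]
  refine sum_congr rfl fun b _ => ?_
  rw [filter_filter]
  split_ifs with h
  · congr 1
    ext P
    simp only [mem_filter, and_congr_right_iff, and_iff_right_iff_imp]
    rintro _ rfl
    exact h
  · rw [card_eq_zero, filter_eq_empty_iff]
    rintro P _ ⟨h1, h2⟩
    rw [h2] at h1
    exact h h1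

/-- the admissible distributions -/
def KK : Finset (Bool × Bool × Bool → ℕ) := (Fintype.piFinset fun _ => range 11).filter fun k =>
  k (false, false, false) = 0 ∧ ∑ b, k b = 10 ∧ (∑ b, if b.1 = true then k b else 0) ≤ 4 ∧
    (∑ b, if b.2.1 = true then k b else 0) ≤ 4 ∧ (∑ b, if b.2.2 = true then k b else 0) ≤ 4

section
variable {α : Type} [DecidableEq α]

/-- the good sets -/
def Gd (l0 l1 l2 T : Finset α) : Prop := T.card = 10 ∧ (∀ P ∈ T, P ∈ l0 ∨ P ∈ l1 ∨ P ∈ l2) ∧
  (T.filter (· ∈ l0)).card ≤ 4 ∧ (T.filter (· ∈ l1)).card ≤ 4 ∧ (T.filter (· ∈ l2)).card ≤ 4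

instance (l0 l1 l2 : Finset α) : DecidablePred (Gd l0 l1 l2) := fun T => by
  unfold Gd; infer_instance

/-- the position of a point -/
def pi3 (l0 l1 l2 : Finset α) (P : α) : Bool × Bool × Bool :=
  (decide (P ∈ l0), decide (P ∈ l1), decide (P ∈ l2))

lemma Gd_iff (l0 l1 l2 T : Finset α) :
    Gd l0 l1 l2 T ↔ (fun b => (T.filter fun P => pi3 l0 l1 l2 P = b).card) ∈ KK := by
  have e0 : T.card = ∑ b, (T.filter fun P => pi3 l0 l1 l2 P = b).card :=
    card_eq_sum_card_fiberwise (f := pi3 l0 l1 l2) (t := univ) (fun _ _ => mem_univ _)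
  have e1 : (T.filter (· ∈ l0)).card =
      ∑ b, if b.1 = true then (T.filter fun P => pi3 l0 l1 l2 P = b).card else 0 := by
    rw [← card_fib (pi3 l0 l1 l2) T (fun b => b.1 = true)]
    simp [pi3]
  have e2 : (T.filter (· ∈ l1)).card =
      ∑ b, if b.2.1 = true then (T.filter fun P => pi3 l0 l1 l2 P = b).card else 0 := by
    rw [← card_fib (pi3 l0 l1 l2) T (fun b => b.2.1 = true)]
    simp [pi3]
  have e3 : (T.filter (· ∈ l2)).card =
      ∑ b, if b.2.2 = true then (T.filter fun P => pi3 l0 l1 l2 P = b).card else 0 := by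
    rw [← card_fib (pi3 l0 l1 l2) T (fun b => b.2.2 = true)]
    simp [pi3]
  have e4 : (∀ P ∈ T, P ∈ l0 ∨ P ∈ l1 ∨ P ∈ l2) ↔
      (T.filter fun P => pi3 l0 l1 l2 P = (false, false, false)).card = 0 := by
    rw [card_eq_zero, filter_eq_empty_iff]
    refine forall_congr' fun P => forall_congr' fun _ => ?_
    simp only [pi3, Prod.mk.injEq, decide_eq_false_iff_not]
    tauto
  unfold Gd KK
  rw [mem_filter, Fintype.mem_piFinset, ← e0, ← e1, ← e2, ← e3, e4]
  constructor
  · rintro ⟨h1, h2, h3, h4, h5⟩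
    refine ⟨fun b => ?_, h2, h1, h3, h4, h5⟩
    rw [mem_range]
    have := card_le_card (filter_subset (fun P => pi3 l0 l1 l2 P = b) T)
    omega
  · rintro ⟨-, h2, h1, h3, h4, h5⟩
    exact ⟨h1, h2, h3, h4, h5⟩

variable [Fintype α]

lemma Gd_card (l0 l1 l2 : Finset α) : (univ.filter fun T => Gd l0 l1 l2 T).card =
    ∑ k ∈ KK, ∏ b, ((univ.filter fun P => pi3 l0 l1 l2 P = b).card).choose (k b) := by
  rw [card_eq_sum_card_fiberwise
    (f := fun T : Finset α => fun b => (T.filter fun P => pi3 l0 l1 l2 P = b).card) (t := KK)]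
  · refine sum_congr rfl fun k hk => ?_
    rw [← count_fib]
    congr 1
    ext T
    simp only [mem_filter, mem_univ, true_and]
    constructor
    · rintro ⟨_, h⟩ b
      exact congrFun h b
    · intro h
      have h' : (fun b => (T.filter fun P => pi3 l0 l1 l2 P = b).card) = k := funext h
      refine ⟨?_, h'⟩
      rw [Gd_iff, h']
      exact hk
  · intro T hT
    have := (mem_filter.1 hT).2
    rw [Gd_iff] at this
    exact this

end

/-- the numbers of points of the parts -/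
def nt (x12 x13 x23 x123 p : ℕ) (b : Bool × Bool × Bool) : ℕ :=
  match b with
  | (true, true, true) => x123
  | (true, true, false) => x12 - x123
  | (true, false, true) => x13 - x123
  | (false, true, true) => x23 - x123
  | (true, false, false) => p + x123 - x12 - x13
  | (false, true, false) => p + x123 - x12 - x23
  | (false, false, true) => p + x123 - x13 - x23
  | (false, false, false) => 0

/-- the number of good sets -/
def vl (x12 x13 x23 x123 p : ℕ) : ℕ := ∑ k ∈ KK, ∏ b, (nt x12 x13 x23 x123 p b).choose (k b)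

lemma Gd_vl {α : Type} [DecidableEq α] [Fintype α] {l0 l1 l2 : Finset α} {x12 x13 x23 x123 p : ℕ}
    (h0 : l0.card = p) (h1 : l1.card = p) (h2 : l2.card = p) (h01 : (l0 ∩ l1).card = x12)
    (h02 : (l0 ∩ l2).card = x13) (h12 : (l1 ∩ l2).card = x23)
    (h012 : (l0 ∩ l1 ∩ l2).card = x123) :
    (univ.filter fun T => Gd l0 l1 l2 T).card = vl x12 x13 x23 x123 p := by
  rw [Gd_card]
  unfold vl
  refine sum_congr rfl fun k hk => prod_congr rfl fun b _ => ?_
  have hk0 : k (false, false, false) = 0 := (mem_filter.1 hk).2.1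
  have c0 := card_fib (pi3 l0 l1 l2) univ (fun b => b.1 = true)
  have c1 := card_fib (pi3 l0 l1 l2) univ (fun b => b.2.1 = true)
  have c2 := card_fib (pi3 l0 l1 l2) univ (fun b => b.2.2 = true)
  have c01 := card_fib (pi3 l0 l1 l2) univ (fun b => b.1 = true ∧ b.2.1 = true)
  have c02 := card_fib (pi3 l0 l1 l2) univ (fun b => b.1 = true ∧ b.2.2 = true)
  have c12 := card_fib (pi3 l0 l1 l2) univ (fun b => b.2.1 = true ∧ b.2.2 = true)
  have c012 := card_fib (pi3 l0 l1 l2) univ (fun b => (b.1 = true ∧ b.2.1 = true) ∧ b.2.2 = true)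
  have d0 : (univ.filter fun P => (pi3 l0 l1 l2 P).1 = true) = l0 := by
    ext P; simp [pi3]
  have d1 : (univ.filter fun P => (pi3 l0 l1 l2 P).2.1 = true) = l1 := by
    ext P; simp [pi3]
  have d2 : (univ.filter fun P => (pi3 l0 l1 l2 P).2.2 = true) = l2 := by
    ext P; simp [pi3]
  have d01 : (univ.filter fun P => (pi3 l0 l1 l2 P).1 = true ∧ (pi3 l0 l1 l2 P).2.1 = true) =
      l0 ∩ l1 := by
    ext P; simp [pi3]
  have d02 : (univ.filter fun P => (pi3 l0 l1 l2 P).1 = true ∧ (pi3 l0 l1 l2 P).2.2 = true) =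
      l0 ∩ l2 := by
    ext P; simp [pi3]
  have d12 : (univ.filter fun P => (pi3 l0 l1 l2 P).2.1 = true ∧ (pi3 l0 l1 l2 P).2.2 = true) =
      l1 ∩ l2 := by
    ext P; simp [pi3]
  have d012 : (univ.filter fun P => ((pi3 l0 l1 l2 P).1 = true ∧ (pi3 l0 l1 l2 P).2.1 = true) ∧
      (pi3 l0 l1 l2 P).2.2 = true) = l0 ∩ l1 ∩ l2 := by
    ext P; simp [pi3, and_assoc]
  rw [d0, h0] at c0
  rw [d1, h1] at c1
  rw [d2, h2] at c2
  rw [d01, h01] at c01
  rw [d02, h02] at c02
  rw [d12, h12] at c12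
  rw [d012, h012] at c012
  simp only [Fintype.sum_prod_type, Fintype.sum_bool, Bool.false_eq_true, if_true, if_false,
    and_true, and_false, add_zero] at c0 c1 c2 c01 c02 c12 c012
  rcases b with ⟨_ | _, _ | _, _ | _⟩
  · rw [hk0]; simp
  all_goals
    congr 1
    simp only [nt]
    omega

/-! ### lines -/

section
variable {p : ℕ} [Fact p.Prime]

/-- the linear form of a direction -/
def lam (d : Option (ZMod p)) (P : ZMod p × ZMod p) : ZMod p :=
  match d with
  | none => P.1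
  | some m => P.2 - m * P.1

/-- the points of a line -/
def Ln (l : Option (ZMod p) × ZMod p) : Finset (ZMod p × ZMod p) :=
  univ.filter fun P => lam l.1 P = l.2

lemma mem_Ln (l : Option (ZMod p) × ZMod p) (P : ZMod p × ZMod p) :
    P ∈ Ln l ↔ lam l.1 P = l.2 := by
  simp [Ln]

lemma lam_bij {d d' : Option (ZMod p)} (h : d ≠ d') :
    Function.Bijective (fun P : ZMod p × ZMod p => (lam d P, lam d' P)) := by
  rw [Fintype.bijective_iff_injective_and_card]
  refine ⟨?_, rfl⟩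
  rintro ⟨x, y⟩ ⟨x', y'⟩ hxy
  simp only [Prod.mk.injEq] at hxy
  obtain ⟨h1, h2⟩ := hxy
  rcases d with _ | m <;> rcases d' with _ | m'
  · exact absurd rfl h
  · simp only [lam] at h1 h2
    subst h1
    rw [sub_left_inj] at h2
    rw [h2]
  · simp only [lam] at h1 h2
    subst h2
    rw [sub_left_inj] at h1
    rw [h1]
  · simp only [lam] at h1 h2
    have hm : m' - m ≠ 0 := by
      intro h0
      apply h
      rw [sub_eq_zero.1 h0]
    have h3 : (m' - m) * (x - x') = 0 := by linear_combination h1 - h2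
    have h4 : x = x' := sub_eq_zero.1 ((mul_eq_zero.1 h3).resolve_left hm)
    subst h4
    rw [sub_left_inj] at h1
    rw [h1]

lemma card_lam {d d' : Option (ZMod p)} (h : d ≠ d') (R : ZMod p × ZMod p → Prop) [DecidablePred R] :
    (univ.filter fun P : ZMod p × ZMod p => R (lam d P, lam d' P)).card =
      (univ.filter fun q : ZMod p × ZMod p => R q).card := by
  refine card_bij (fun P _ => (lam d P, lam d' P)) ?_ ?_ ?_
  · intro P hP
    rw [mem_filter] at hP ⊢
    exact ⟨mem_univ _, hP.2⟩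
  · intro P _ P' _ hPP
    exact (lam_bij h).1 hPP
  · intro q hq
    obtain ⟨P, hP⟩ := (lam_bij h).2 q
    refine ⟨P, ?_, hP⟩
    rw [mem_filter] at hq ⊢
    refine ⟨mem_univ _, ?_⟩
    have hP' : (lam d P, lam d' P) = q := hP
    rw [hP']
    exact hq.2

lemma exists_ne_dir (d : Option (ZMod p)) : ∃ d' : Option (ZMod p), d ≠ d' := by
  cases d with
  | none => exact ⟨some 0, by simp⟩
  | some m => exact ⟨none, by simp⟩

lemma card_Ln (l : Option (ZMod p) × ZMod p) : (Ln l).card = p := by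
  obtain ⟨d', hd⟩ := exists_ne_dir l.1
  have h := card_lam hd (fun q => q.1 = l.2)
  unfold Ln
  rw [h]
  have e1 : (univ.filter fun q : ZMod p × ZMod p => q.1 = l.2) = {l.2} ×ˢ univ := by
    ext q
    rw [mem_filter, mem_product, mem_singleton]
    simp
  rw [e1, card_product, card_singleton, card_univ, ZMod.card, one_mul]

lemma Ln_par {d : Option (ZMod p)} {c c' : ZMod p} (h : c ≠ c') : Ln (d, c) ∩ Ln (d, c') = ∅ := by
  ext P
  simp only [mem_inter, mem_Ln, notMem_empty, iff_false]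
  rintro ⟨h1, h2⟩
  exact h (h1.symm.trans h2)

lemma Ln_meet {d d' : Option (ZMod p)} (h : d ≠ d') (c c' : ZMod p) :
    (Ln (d, c) ∩ Ln (d', c')).card = 1 := by
  have h1 := card_lam h (fun q => q = (c, c'))
  have e1 : Ln (d, c) ∩ Ln (d', c') =
      (univ.filter fun P : ZMod p × ZMod p => (lam d P, lam d' P) = (c, c')) := by
    ext P
    simp [mem_Ln]
  rw [e1, h1, filter_eq', if_pos (mem_univ _), card_singleton]

lemma Ln_inter {l l' : Option (ZMod p) × ZMod p} (h : l ≠ l') : (Ln l ∩ Ln l').card ≤ 1 := by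
  obtain ⟨d, c⟩ := l
  obtain ⟨d', c'⟩ := l'
  by_cases hd : d = d'
  · subst hd
    have hc : c ≠ c' := by
      rintro rfl
      exact h rfl
    rw [Ln_par hc, card_empty]
    exact Nat.zero_le _
  · rw [Ln_meet hd]

lemma line_iff {a b : ZMod p} (hab : (a, b) ≠ (0, 0)) (c : ZMod p) :
    ∃ l : Option (ZMod p) × ZMod p, ∀ P : ZMod p × ZMod p, a * P.1 + b * P.2 = c ↔ P ∈ Ln l := by
  by_cases hb : b = 0
  · have ha : a ≠ 0 := by
      rintro rfl
      exact hab (by rw [hb])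
    refine ⟨(none, a⁻¹ * c), fun P => ?_⟩
    rw [mem_Ln, hb]
    simp only [lam]
    constructor
    · intro h
      rw [← h]
      field_simp
      ring
    · intro h
      rw [h]
      field_simp
      ring
  · refine ⟨(some (-(a / b)), c / b), fun P => ?_⟩
    rw [mem_Ln]
    simp only [lam]
    rw [eq_div_iff hb]
    have : (P.2 - -(a / b) * P.1) * b = a * P.1 + b * P.2 := by
      field_simp
      ring
    rw [this]

lemma iff_line (l : Option (ZMod p) × ZMod p) : ∃ a b c : ZMod p, (a, b) ≠ (0, 0) ∧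
    ∀ P : ZMod p × ZMod p, a * P.1 + b * P.2 = c ↔ P ∈ Ln l := by
  obtain ⟨d, c⟩ := l
  cases d with
  | none =>
    refine ⟨1, 0, c, by simp, fun P => ?_⟩
    rw [mem_Ln]
    simp [lam]
  | some m =>
    refine ⟨-m, 1, c, by simp, fun P => ?_⟩
    rw [mem_Ln]
    simp only [lam]
    rw [show -m * P.1 + 1 * P.2 = P.2 - m * P.1 by ring]

lemma R1_iff (T : Finset (ZMod p × ZMod p)) :
    R1 T ↔ ∃ l : Option (ZMod p) × ZMod p, 5 ≤ (T.filter (· ∈ Ln l)).card := by
  constructor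
  · rintro ⟨a, b, c, hab, h⟩
    obtain ⟨l, hl⟩ := line_iff hab c
    refine ⟨l, ?_⟩
    unfold cnt at h
    simp_rw [hl] at h
    exact h
  · rintro ⟨l, h⟩
    obtain ⟨a, b, c, hab, hl⟩ := iff_line l
    refine ⟨a, b, c, hab, ?_⟩
    unfold cnt
    simp_rw [hl]
    exact h

/-- good set of lines -/
def GS (T : Finset (ZMod p × ZMod p)) (S : Finset (Option (ZMod p) × ZMod p)) : Prop :=
  S.card = 3 ∧ (∀ P ∈ T, ∃ l ∈ S, P ∈ Ln l) ∧ ∀ l ∈ S, (T.filter (· ∈ Ln l)).card ≤ 4

lemma card_le_of_cover {T : Finset (ZMod p × ZMod p)} {S : Finset (Option (ZMod p) × ZMod p)}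
    (h1 : ∀ P ∈ T, ∃ l ∈ S, P ∈ Ln l) (h2 : ∀ l ∈ S, (T.filter (· ∈ Ln l)).card ≤ 4) :
    T.card ≤ S.card * 4 := by
  refine le_trans (card_le_card (t := S.biUnion fun l => T.filter (· ∈ Ln l)) ?_)
    (card_biUnion_le_card_mul _ _ _ h2)
  intro P hP
  obtain ⟨l, hl, hPl⟩ := h1 P hP
  rw [mem_biUnion]
  exact ⟨l, hl, mem_filter.2 ⟨hP, hPl⟩⟩

lemma R3_iff {T : Finset (ZMod p × ZMod p)} (hT : T.card = 10) : R3 T ↔ ∃ S, GS T S := by
  constructor
  · rintro ⟨h1, a, b, c, a', b', c', a'', b'', c'', h2, h3, h4, h5⟩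
    rw [R1_iff] at h1
    push Not at h1
    obtain ⟨l, hl⟩ := line_iff h2 c
    obtain ⟨l', hl'⟩ := line_iff h3 c'
    obtain ⟨l'', hl''⟩ := line_iff h4 c''
    have hc : ∀ P ∈ T, ∃ m ∈ ({l, l', l''} : Finset (Option (ZMod p) × ZMod p)), P ∈ Ln m := by
      intro P hP
      rcases h5 P hP with h | h | h
      · exact ⟨l, by simp, (hl P).1 h⟩
      · exact ⟨l', by simp, (hl' P).1 h⟩
      · exact ⟨l'', by simp, (hl'' P).1 h⟩
    have h6 : ∀ m ∈ ({l, l', l''} : Finset (Option (ZMod p) × ZMod p)),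
        (T.filter (· ∈ Ln m)).card ≤ 4 := fun m _ => by
      have := h1 m
      omega
    refine ⟨{l, l', l''}, ?_, hc, h6⟩
    have h7 := card_le_of_cover hc h6
    have h8 : ({l, l', l''} : Finset (Option (ZMod p) × ZMod p)).card ≤ 3 := card_le_three
    omega
  · rintro ⟨S, h1, h2, h3⟩
    refine ⟨?_, ?_⟩
    · rw [R1_iff]
      rintro ⟨l, hl⟩
      have hlS : l ∉ S := fun h => by
        have := h3 l h
        omega
      have h4 : (T.filter (· ∈ Ln l)).card ≤ (S.biUnion fun m => Ln l ∩ Ln m).card := by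
        refine card_le_card fun P hP => ?_
        rw [mem_filter] at hP
        obtain ⟨m, hm, hPm⟩ := h2 P hP.1
        rw [mem_biUnion]
        exact ⟨m, hm, mem_inter.2 ⟨hP.2, hPm⟩⟩
      have h5 : (S.biUnion fun m => Ln l ∩ Ln m).card ≤ S.card * 1 :=
        card_biUnion_le_card_mul _ _ _ fun m hm => Ln_inter (by
          rintro rfl
          exact hlS hm)
      omega
    · obtain ⟨l, l', l'', -, -, -, hS⟩ := card_eq_three.1 h1
      obtain ⟨a, b, c, hab, hl⟩ := iff_line l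
      obtain ⟨a', b', c', hab', hl'⟩ := iff_line l'
      obtain ⟨a'', b'', c'', hab'', hl''⟩ := iff_line l''
      refine ⟨a, b, c, a', b', c', a'', b'', c'', hab, hab', hab'', fun P hP => ?_⟩
      obtain ⟨m, hm, hPm⟩ := h2 P hP
      rw [hS] at hm
      simp only [mem_insert, mem_singleton] at hm
      rcases hm with rfl | rfl | rfl
      · exact Or.inl ((hl P).2 hPm)
      · exact Or.inr (Or.inl ((hl' P).2 hPm))
      · exact Or.inr (Or.inr ((hl'' P).2 hPm))

lemma GS_unique {T : Finset (ZMod p × ZMod p)} (hT : T.card = 10)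
    {S S' : Finset (Option (ZMod p) × ZMod p)} (h : GS T S) (h' : GS T S') : S = S' := by
  obtain ⟨h1, h2, h3⟩ := h
  obtain ⟨h1', h2', h3'⟩ := h'
  have hk : (S ∩ S').card + (S \ S').card = S.card := by
    rw [card_inter_add_card_sdiff]
  have hk' : (S' ∩ S).card + (S' \ S).card = S'.card := by
    rw [card_inter_add_card_sdiff]
  rw [inter_comm S' S] at hk'
  have hcov : T ⊆ ((S ∩ S').biUnion fun l => T.filter (· ∈ Ln l)) ∪
      (((S \ S') ×ˢ (S' \ S)).biUnion fun x => Ln x.1 ∩ Ln x.2) := by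
    intro P hP
    obtain ⟨l, hl, hPl⟩ := h2 P hP
    obtain ⟨m, hm, hPm⟩ := h2' P hP
    rw [mem_union]
    by_cases hlS : l ∈ S'
    · left
      exact mem_biUnion.2 ⟨l, mem_inter.2 ⟨hl, hlS⟩, mem_filter.2 ⟨hP, hPl⟩⟩
    · by_cases hmS : m ∈ S
      · left
        exact mem_biUnion.2 ⟨m, mem_inter.2 ⟨hmS, hm⟩, mem_filter.2 ⟨hP, hPm⟩⟩
      · right
        exact mem_biUnion.2 ⟨(l, m), mem_product.2 ⟨mem_sdiff.2 ⟨hl, hlS⟩, mem_sdiff.2 ⟨hm, hmS⟩⟩,
          mem_inter.2 ⟨hPl, hPm⟩⟩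
  have hle := (card_le_card hcov).trans (card_union_le _ _)
  have ha : ((S ∩ S').biUnion fun l => T.filter (· ∈ Ln l)).card ≤ (S ∩ S').card * 4 :=
    card_biUnion_le_card_mul _ _ _ fun l hl => h3 l (mem_inter.1 hl).1
  have hb : (((S \ S') ×ˢ (S' \ S)).biUnion fun x => Ln x.1 ∩ Ln x.2).card ≤
      ((S \ S') ×ˢ (S' \ S)).card * 1 :=
    card_biUnion_le_card_mul _ _ _ fun x hx => Ln_inter (by
      intro h
      rw [mem_product, mem_sdiff, mem_sdiff] at hx
      exact hx.1.2 (h ▸ hx.2.1))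
  rw [card_product] at hb
  have hk3 : (S ∩ S').card = 3 := by
    have h4 : (S ∩ S').card ≤ 3 := by omega
    have e1 : (S \ S').card = 3 - (S ∩ S').card := by omega
    have e2 : (S' \ S).card = 3 - (S ∩ S').card := by omega
    rw [e1, e2] at hb
    generalize (S ∩ S').card = k at *
    interval_cases k <;> omega
  have e1 : S ∩ S' = S := eq_of_subset_of_card_le inter_subset_left (by omega)
  have e2 : S ∩ S' = S' := eq_of_subset_of_card_le inter_subset_right (by omega)
  rw [← e1, e2]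

/-- ordered triples of distinct lines for `T` -/
def TT3 (T : Finset (ZMod p × ZMod p)) : Finset ((Option (ZMod p) × ZMod p) ×
    (Option (ZMod p) × ZMod p) × (Option (ZMod p) × ZMod p)) :=
  univ.filter fun t => (t.1 ≠ t.2.1 ∧ t.1 ≠ t.2.2 ∧ t.2.1 ≠ t.2.2) ∧
    Gd (Ln t.1) (Ln t.2.1) (Ln t.2.2) T

lemma mem_TT3_iff {T : Finset (ZMod p × ZMod p)} (hT : T.card = 10)
    (t : (Option (ZMod p) × ZMod p) × (Option (ZMod p) × ZMod p) × (Option (ZMod p) × ZMod p)) :
    t ∈ TT3 T ↔ (t.1 ≠ t.2.1 ∧ t.1 ≠ t.2.2 ∧ t.2.1 ≠ t.2.2) ∧ GS T {t.1, t.2.1, t.2.2} := by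
  unfold TT3
  rw [mem_filter]
  simp only [mem_univ, true_and, and_congr_right_iff]
  rintro ⟨h1, h2, h3⟩
  have hc : ({t.1, t.2.1, t.2.2} : Finset (Option (ZMod p) × ZMod p)).card = 3 :=
    card_eq_three.2 ⟨t.1, t.2.1, t.2.2, h1, h2, h3, rfl⟩
  unfold Gd GS
  simp only [hT, hc, true_and, mem_insert, mem_singleton, exists_eq_or_imp, exists_eq_left,
    forall_eq_or_imp, forall_eq]

lemma card_TT3_of {T : Finset (ZMod p × ZMod p)} (hT : T.card = 10) (h : R3 T) :
    (TT3 T).card = 6 := by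
  obtain ⟨S, hS⟩ := (R3_iff hT).1 h
  have hS3 := hS.1
  have e1 : TT3 T = (S ×ˢ S ×ˢ S).filter fun t => t.1 ≠ t.2.1 ∧ t.1 ≠ t.2.2 ∧ t.2.1 ≠ t.2.2 := by
    ext t
    rw [mem_TT3_iff hT, mem_filter, mem_product, mem_product]
    constructor
    · rintro ⟨h1, h2⟩
      have h3 := GS_unique hT hS h2
      refine ⟨⟨?_, ?_, ?_⟩, h1⟩
      · rw [h3]; simp
      · rw [h3]; simp
      · rw [h3]; simp
    · rintro ⟨⟨h1, h2, h3⟩, h4⟩
      refine ⟨h4, ?_⟩
      have h5 : ({t.1, t.2.1, t.2.2} : Finset (Option (ZMod p) × ZMod p)) = S := by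
        refine eq_of_subset_of_card_le ?_ ?_
        · intro x hx
          simp only [mem_insert, mem_singleton] at hx
          rcases hx with rfl | rfl | rfl
          · exact h1
          · exact h2
          · exact h3
        · rw [hS3, card_eq_three.2 ⟨t.1, t.2.1, t.2.2, h4.1, h4.2.1, h4.2.2, rfl⟩]
      rw [h5]
      exact hS
  have e2 : ((TT3 T).card : ℚ) = 6 := by
    rw [e1, card_filter]
    push_cast
    rw [sum_product]
    simp_rw [sum_product]
    have h3 := sum3 S 0 0 0 0 1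
    rw [hS3] at h3
    have e3 : (∑ x ∈ S, ∑ y ∈ S, ∑ z ∈ S, if x ≠ y ∧ x ≠ z ∧ y ≠ z then (1 : ℚ) else 0) =
        ∑ a ∈ S, ∑ b ∈ S, ∑ c ∈ S, (if a = b then (if b = c then (0 : ℚ) else 0) else
          if a = c then 0 else if b = c then 0 else 1) := by
      refine sum_congr rfl fun a _ => sum_congr rfl fun b _ => sum_congr rfl fun c _ => ?_
      by_cases h1 : a = b
      · simp [h1]
      · by_cases h2 : a = c
        · simp [h1, h2]
        · by_cases h4 : b = c
          · simp [h1, h2, h4]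
          · simp [h1, h2, h4]
    rw [e3, h3]
    norm_num
  exact_mod_cast e2

lemma card_TT3_not {T : Finset (ZMod p × ZMod p)} (h : ¬ (T.card = 10 ∧ R3 T)) :
    (TT3 T).card = 0 := by
  rw [card_eq_zero, eq_empty_iff_forall_notMem]
  intro t ht
  have hT : T.card = 10 := (mem_filter.1 ht).2.2.1
  rw [mem_TT3_iff hT] at ht
  exact h ⟨hT, (R3_iff hT).2 ⟨_, ht.2⟩⟩

/-- the summand -/
noncomputable def hh (d1 d2 d3 : Option (ZMod p)) (c1 c2 c3 : ZMod p) : ℚ :=
  if ((d1, c1) ≠ (d2, c2) ∧ (d1, c1) ≠ (d3, c3) ∧ (d2, c2) ≠ (d3, c3)) then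
    ((univ.filter fun T => Gd (Ln (d1, c1)) (Ln (d2, c2)) (Ln (d3, c3)) T).card : ℚ) else 0

lemma six_card : 6 * (Nat.card {T : Finset (ZMod p × ZMod p) // T.card = 10 ∧ R3 T} : ℚ) =
    ∑ d1 : Option (ZMod p), ∑ d2 : Option (ZMod p), ∑ d3 : Option (ZMod p),
    ∑ c1 : ZMod p, ∑ c2 : ZMod p, ∑ c3 : ZMod p, hh d1 d2 d3 c1 c2 c3 := by
  classical
  have e1 : Nat.card {T : Finset (ZMod p × ZMod p) // T.card = 10 ∧ R3 T} =
      (univ.filter fun T : Finset (ZMod p × ZMod p) => T.card = 10 ∧ R3 T).card := by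
    rw [Nat.card_eq_fintype_card, Fintype.card_subtype]
  have e2 : 6 * ((univ.filter fun T : Finset (ZMod p × ZMod p) => T.card = 10 ∧ R3 T).card : ℚ) =
      ∑ T : Finset (ZMod p × ZMod p), ((TT3 T).card : ℚ) := by
    rw [← sum_filter_add_sum_filter_not univ (fun T : Finset (ZMod p × ZMod p) => T.card = 10 ∧ R3 T)]
    rw [sum_congr rfl (fun T hT => by
      rw [card_TT3_of (mem_filter.1 hT).2.1 (mem_filter.1 hT).2.2] :
      ∀ T ∈ univ.filter (fun T : Finset (ZMod p × ZMod p) => T.card = 10 ∧ R3 T),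
        ((TT3 T).card : ℚ) = ((6 : ℕ) : ℚ))]
    rw [sum_congr rfl (fun T hT => by
      rw [card_TT3_not (mem_filter.1 hT).2] :
      ∀ T ∈ univ.filter (fun T : Finset (ZMod p × ZMod p) => ¬ (T.card = 10 ∧ R3 T)),
        ((TT3 T).card : ℚ) = ((0 : ℕ) : ℚ))]
    rw [sum_const, sum_const, nsmul_eq_mul, nsmul_eq_mul]
    push_cast
    ring
  rw [e1, e2]
  have e3 : ∀ T : Finset (ZMod p × ZMod p), ((TT3 T).card : ℚ) =
      ∑ t : (Option (ZMod p) × ZMod p) × (Option (ZMod p) × ZMod p) × (Option (ZMod p) × ZMod p),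
      if (t.1 ≠ t.2.1 ∧ t.1 ≠ t.2.2 ∧ t.2.1 ≠ t.2.2) ∧ Gd (Ln t.1) (Ln t.2.1) (Ln t.2.2) T then
        (1 : ℚ) else 0 := by
    intro T
    unfold TT3
    rw [card_filter]
    push_cast
    rfl
  simp_rw [e3]
  rw [sum_comm]
  have e4 : ∀ t : (Option (ZMod p) × ZMod p) × (Option (ZMod p) × ZMod p) ×
      (Option (ZMod p) × ZMod p), (∑ T : Finset (ZMod p × ZMod p),
      if (t.1 ≠ t.2.1 ∧ t.1 ≠ t.2.2 ∧ t.2.1 ≠ t.2.2) ∧ Gd (Ln t.1) (Ln t.2.1) (Ln t.2.2) T then
        (1 : ℚ) else 0) = hh t.1.1 t.2.1.1 t.2.2.1 t.1.2 t.2.1.2 t.2.2.2 := by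
    intro t
    unfold hh
    simp only [Prod.mk.eta]
    split_ifs with h
    · simp only [h, true_and, not_false_eq_true, ne_eq]
      rw [card_filter]
      push_cast
      rfl
    · simp only [h, false_and, if_false, sum_const_zero]
  simp_rw [e4]
  simp_rw [Fintype.sum_prod_type]
  refine sum_congr rfl fun d1 _ => ?_
  -- move the sum over `c1` inside
  rw [sum_comm]
  refine sum_congr rfl fun d2 _ => ?_
  have e5 : ∀ c1 : ZMod p, (∑ c2 : ZMod p, ∑ d3 : Option (ZMod p), ∑ c3 : ZMod p,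
      hh d1 d2 d3 c1 c2 c3) = ∑ d3 : Option (ZMod p), ∑ c2 : ZMod p, ∑ c3 : ZMod p,
      hh d1 d2 d3 c1 c2 c3 := fun c1 => sum_comm
  simp_rw [e5]
  rw [sum_comm]

/-! ### the values of the summand -/

lemma hh_eq {d1 d2 d3 : Option (ZMod p)} {c1 c2 c3 : ZMod p} {x12 x13 x23 x123 : ℕ}
    (h1 : (d1, c1) ≠ (d2, c2)) (h2 : (d1, c1) ≠ (d3, c3)) (h3 : (d2, c2) ≠ (d3, c3))
    (h12 : (Ln (d1, c1) ∩ Ln (d2, c2)).card = x12) (h13 : (Ln (d1, c1) ∩ Ln (d3, c3)).card = x13)
    (h23 : (Ln (d2, c2) ∩ Ln (d3, c3)).card = x23)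
    (h123 : (Ln (d1, c1) ∩ Ln (d2, c2) ∩ Ln (d3, c3)).card = x123) :
    hh d1 d2 d3 c1 c2 c3 = (vl x12 x13 x23 x123 p : ℚ) := by
  unfold hh
  rw [if_pos ⟨h1, h2, h3⟩, Gd_vl (card_Ln _) (card_Ln _) (card_Ln _) h12 h13 h23 h123]

lemma card_F : ((univ : Finset (ZMod p)).card : ℚ) = p := by
  rw [card_univ, ZMod.card]

lemma card_D : ((univ : Finset (Option (ZMod p))).card : ℚ) = p + 1 := by
  rw [card_univ, Fintype.card_option, ZMod.card]
  push_cast
  ring

/-- three parallel lines -/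
lemma sum_par (d : Option (ZMod p)) :
    ∑ c1 : ZMod p, ∑ c2 : ZMod p, ∑ c3 : ZMod p, hh d d d c1 c2 c3 =
      (p : ℚ) * ((p - 1) * ((p - 2) * vl 0 0 0 0 p)) := by
  have h := sum3 (univ : Finset (ZMod p)) 0 0 0 0 (vl 0 0 0 0 p : ℚ)
  rw [card_F] at h
  rw [show (p : ℚ) * ((p - 1) * ((p - 2) * vl 0 0 0 0 p)) =
    (p : ℚ) * (0 + (p - 1) * (0 + 0 + 0 + (p - 2) * vl 0 0 0 0 p)) by ring, ← h]
  refine sum_congr rfl fun c1 _ => sum_congr rfl fun c2 _ => sum_congr rfl fun c3 _ => ?_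
  by_cases h1 : c1 = c2
  · subst h1
    simp [hh]
  · by_cases h2 : c1 = c3
    · subst h2
      simp [hh, h1]
    · by_cases h3 : c2 = c3
      · subst h3
        simp [hh, h1]
      · rw [if_neg h1, if_neg h2, if_neg h3]
        refine hh_eq (by simpa using h1) (by simpa using h2) (by simpa using h3) ?_ ?_ ?_ ?_
        · rw [Ln_par h1, card_empty]
        · rw [Ln_par h2, card_empty]
        · rw [Ln_par h3, card_empty]
        · rw [Ln_par h1, empty_inter, card_empty]

/-- the first two lines are parallel -/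
lemma sum_12 {d d' : Option (ZMod p)} (hd : d ≠ d') :
    ∑ c1 : ZMod p, ∑ c2 : ZMod p, ∑ c3 : ZMod p, hh d d d' c1 c2 c3 =
      (p : ℚ) * ((p - 1) * (p * vl 0 1 1 0 p)) := by
  have h := sum3 (univ : Finset (ZMod p)) 0 0 (vl 0 1 1 0 p : ℚ) (vl 0 1 1 0 p : ℚ) (vl 0 1 1 0 p : ℚ)
  rw [card_F] at h
  rw [show (p : ℚ) * ((p - 1) * (p * vl 0 1 1 0 p)) =
    (p : ℚ) * (0 + (p - 1) * (0 + vl 0 1 1 0 p + vl 0 1 1 0 p + (p - 2) * vl 0 1 1 0 p)) by ring,
    ← h]
  refine sum_congr rfl fun c1 _ => sum_congr rfl fun c2 _ => sum_congr rfl fun c3 _ => ?_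
  by_cases h1 : c1 = c2
  · subst h1
    simp [hh]
  · rw [if_neg h1, ite_self, ite_self]
    refine hh_eq (by simpa using h1) (by simp [hd]) (by simp [hd]) ?_ ?_ ?_ ?_
    · rw [Ln_par h1, card_empty]
    · rw [Ln_meet hd]
    · rw [Ln_meet hd]
    · rw [Ln_par h1, empty_inter, card_empty]

/-- the first and the third line are parallel -/
lemma sum_13 {d d' : Option (ZMod p)} (hd : d ≠ d') :
    ∑ c1 : ZMod p, ∑ c2 : ZMod p, ∑ c3 : ZMod p, hh d d' d c1 c2 c3 =
      (p : ℚ) * ((p - 1) * (p * vl 1 0 1 0 p)) := by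
  have h := sum3 (univ : Finset (ZMod p)) 0 (vl 1 0 1 0 p : ℚ) 0 (vl 1 0 1 0 p : ℚ) (vl 1 0 1 0 p : ℚ)
  rw [card_F] at h
  rw [show (p : ℚ) * ((p - 1) * (p * vl 1 0 1 0 p)) =
    (p : ℚ) * (0 + (p - 1) * (vl 1 0 1 0 p + 0 + vl 1 0 1 0 p + (p - 2) * vl 1 0 1 0 p)) by ring,
    ← h]
  refine sum_congr rfl fun c1 _ => sum_congr rfl fun c2 _ => sum_congr rfl fun c3 _ => ?_
  by_cases h1 : c1 = c3
  · subst h1
    by_cases h2 : c1 = c2
    · subst h2
      simp [hh]
    · rw [if_neg h2, if_pos rfl]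
      simp [hh]
  · have e1 : (if c1 = c2 then (if c2 = c3 then (0 : ℚ) else vl 1 0 1 0 p) else
        if c1 = c3 then 0 else if c2 = c3 then (vl 1 0 1 0 p : ℚ) else (vl 1 0 1 0 p : ℚ)) =
        vl 1 0 1 0 p := by
      by_cases h2 : c1 = c2
      · subst h2
        rw [if_pos rfl, if_neg h1]
      · rw [if_neg h2, if_neg h1, ite_self]
    rw [e1]
    refine hh_eq (by simp [hd]) (by simpa using h1) (by simp [Ne.symm hd]) ?_ ?_ ?_ ?_
    · rw [Ln_meet hd]
    · rw [Ln_par h1, card_empty]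
    · rw [Ln_meet (Ne.symm hd)]
    · rw [inter_right_comm, Ln_par h1, empty_inter, card_empty]

/-- the last two lines are parallel -/
lemma sum_23 {d d' : Option (ZMod p)} (hd : d ≠ d') :
    ∑ c1 : ZMod p, ∑ c2 : ZMod p, ∑ c3 : ZMod p, hh d d' d' c1 c2 c3 =
      (p : ℚ) * ((p - 1) * (p * vl 1 1 0 0 p)) := by
  have h := sum3 (univ : Finset (ZMod p)) 0 (vl 1 1 0 0 p : ℚ) (vl 1 1 0 0 p : ℚ) 0 (vl 1 1 0 0 p : ℚ)
  rw [card_F] at h
  rw [show (p : ℚ) * ((p - 1) * (p * vl 1 1 0 0 p)) =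
    (p : ℚ) * (0 + (p - 1) * (vl 1 1 0 0 p + vl 1 1 0 0 p + 0 + (p - 2) * vl 1 1 0 0 p)) by ring,
    ← h]
  refine sum_congr rfl fun c1 _ => sum_congr rfl fun c2 _ => sum_congr rfl fun c3 _ => ?_
  by_cases h1 : c2 = c3
  · subst h1
    by_cases h2 : c1 = c2
    · subst h2
      simp [hh]
    · rw [if_neg h2, if_neg h2, if_pos rfl]
      simp [hh]
  · have e1 : (if c1 = c2 then (if c2 = c3 then (0 : ℚ) else vl 1 1 0 0 p) else
        if c1 = c3 then (vl 1 1 0 0 p : ℚ) else if c2 = c3 then 0 else (vl 1 1 0 0 p : ℚ)) =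
        vl 1 1 0 0 p := by
      rw [if_neg h1, ite_self, ite_self]
    rw [e1]
    refine hh_eq (by simp [hd]) (by simp [hd]) (by simpa using h1) ?_ ?_ ?_ ?_
    · rw [Ln_meet hd]
    · rw [Ln_meet hd]
    · rw [Ln_par h1, card_empty]
    · rw [inter_assoc, Ln_par h1, inter_empty, card_empty]

/-- three directions -/
lemma sum_gen {d1 d2 d3 : Option (ZMod p)} (h12 : d1 ≠ d2) (h13 : d1 ≠ d3) (h23 : d2 ≠ d3) :
    ∑ c1 : ZMod p, ∑ c2 : ZMod p, ∑ c3 : ZMod p, hh d1 d2 d3 c1 c2 c3 =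
      (p : ℚ) * (p * (vl 1 1 1 1 p + (p - 1) * vl 1 1 1 0 p)) := by
  have key : ∀ c1 c2 : ZMod p, ∑ c3 : ZMod p, hh d1 d2 d3 c1 c2 c3 =
      vl 1 1 1 1 p + ((p : ℚ) - 1) * vl 1 1 1 0 p := by
    intro c1 c2
    obtain ⟨P, hP⟩ := (lam_bij h12).2 (c1, c2)
    have hP1 : lam d1 P = c1 := congrArg Prod.fst hP
    have hP2 : lam d2 P = c2 := congrArg Prod.snd hP
    have huniq : ∀ P', lam d1 P' = c1 → lam d2 P' = c2 → P' = P := by
      intro P' h1 h2
      apply (lam_bij h12).1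
      show (lam d1 P', lam d2 P') = (lam d1 P, lam d2 P)
      rw [h1, h2, hP1, hP2]
    have h := sum1 (univ : Finset (ZMod p)) (mem_univ (lam d3 P)) (vl 1 1 1 1 p : ℚ)
      (vl 1 1 1 0 p : ℚ)
    rw [card_F] at h
    rw [← h]
    refine sum_congr rfl fun c3 _ => ?_
    by_cases h1 : lam d3 P = c3
    · rw [if_pos h1]
      refine hh_eq (by simp [h12]) (by simp [h13]) (by simp [h23]) (Ln_meet h12 _ _)
        (Ln_meet h13 _ _) (Ln_meet h23 _ _) ?_
      rw [card_eq_one]
      refine ⟨P, ?_⟩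
      ext P'
      simp only [mem_inter, mem_Ln, mem_singleton]
      constructor
      · rintro ⟨⟨h2, h3⟩, -⟩
        exact huniq P' h2 h3
      · rintro rfl
        exact ⟨⟨hP1, hP2⟩, h1⟩
    · rw [if_neg h1]
      refine hh_eq (by simp [h12]) (by simp [h13]) (by simp [h23]) (Ln_meet h12 _ _)
        (Ln_meet h13 _ _) (Ln_meet h23 _ _) ?_
      rw [card_eq_zero, eq_empty_iff_forall_notMem]
      intro P' hP'
      simp only [mem_inter, mem_Ln] at hP'
      obtain ⟨⟨h2, h3⟩, h4⟩ := hP'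
      rw [huniq P' h2 h3] at h4
      exact h1 h4
  simp_rw [key]
  rw [sum_const, sum_const, nsmul_eq_mul, nsmul_eq_mul, card_F]

/-- the value of the sum -/
def W (p : ℕ) : ℚ := (p + 1) * ((p : ℚ) * ((p - 1) * ((p - 2) * vl 0 0 0 0 p)) +
  ((p + 1) - 1) * ((p : ℚ) * ((p - 1) * (p * vl 0 1 1 0 p)) + (p : ℚ) * ((p - 1) * (p * vl 1 0 1 0 p)) +
    (p : ℚ) * ((p - 1) * (p * vl 1 1 0 0 p)) +
    ((p + 1) - 2) * ((p : ℚ) * (p * (vl 1 1 1 1 p + (p - 1) * vl 1 1 1 0 p)))))

lemma six_W : 6 * (Nat.card {T : Finset (ZMod p × ZMod p) // T.card = 10 ∧ R3 T} : ℚ) = W p := by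
  rw [six_card]
  have h := sum3 (univ : Finset (Option (ZMod p))) ((p : ℚ) * ((p - 1) * ((p - 2) * vl 0 0 0 0 p)))
    ((p : ℚ) * ((p - 1) * (p * vl 0 1 1 0 p))) ((p : ℚ) * ((p - 1) * (p * vl 1 0 1 0 p)))
    ((p : ℚ) * ((p - 1) * (p * vl 1 1 0 0 p)))
    ((p : ℚ) * (p * (vl 1 1 1 1 p + (p - 1) * vl 1 1 1 0 p)))
  rw [card_D] at h
  unfold W
  rw [← h]
  refine sum_congr rfl fun d1 _ => sum_congr rfl fun d2 _ => sum_congr rfl fun d3 _ => ?_
  by_cases h1 : d1 = d2
  · subst h1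
    rw [if_pos rfl]
    by_cases h2 : d1 = d3
    · subst h2
      rw [if_pos rfl, sum_par]
    · rw [if_neg h2, sum_12 h2]
  · rw [if_neg h1]
    by_cases h2 : d1 = d3
    · subst h2
      rw [if_pos rfl, sum_13 h1]
    · rw [if_neg h2]
      by_cases h3 : d2 = d3
      · subst h3
        rw [if_pos rfl, sum_23 h1]
      · rw [if_neg h3, sum_gen h1 h2 h3]

end

/-! ### rationality -/

lemma isRat_nt (x12 x13 x23 x123 : ℕ) (h12 : x12 ≤ 1) (h13 : x13 ≤ 1) (h23 : x23 ≤ 1)
    (b : Bool × Bool × Bool) : IsRat (fun p => (nt x12 x13 x23 x123 p b : ℚ)) := by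
  have key : ∀ y z : ℕ, y ≤ 1 → z ≤ 1 → IsRat (fun p => ((p + x123 - y - z : ℕ) : ℚ)) := by
    intro y z hy hz
    refine (((IsRat.id.add (IsRat.const x123)).sub (IsRat.const y)).sub (IsRat.const z)).congr ?_
    intro p _ hp
    show (p : ℚ) + x123 - y - z = _
    rw [Nat.cast_sub (by omega), Nat.cast_sub (by omega)]
    push_cast
    ring
  rcases b with ⟨_ | _, _ | _, _ | _⟩
  · exact IsRat.const ((0 : ℕ) : ℚ)
  · exact key _ _ h13 h23
  · exact key _ _ h12 h23
  · exact IsRat.const ((x23 - x123 : ℕ) : ℚ)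
  · exact key _ _ h12 h13
  · exact IsRat.const ((x13 - x123 : ℕ) : ℚ)
  · exact IsRat.const ((x12 - x123 : ℕ) : ℚ)
  · exact IsRat.const ((x123 : ℕ) : ℚ)

lemma isRat_vl (x12 x13 x23 x123 : ℕ) (h12 : x12 ≤ 1) (h13 : x13 ≤ 1) (h23 : x23 ≤ 1) :
    IsRat (fun p => (vl x12 x13 x23 x123 p : ℚ)) := by
  have e : (fun p : ℕ => (vl x12 x13 x23 x123 p : ℚ)) = fun p => ∑ k ∈ KK, ∏ b,
      ((nt x12 x13 x23 x123 p b).choose (k b) : ℚ) := by
    funext p
    unfold vl
    push_cast
    rfl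
  rw [e]
  exact IsRat.sum _ fun k _ => IsRat.prod _ fun b _ =>
    IsRat.choose (isRat_nt x12 x13 x23 x123 h12 h13 h23 b) (k b)

lemma isRat_W : IsRat W := by
  have h0 := isRat_vl 0 0 0 0 (by norm_num) (by norm_num) (by norm_num)
  have h1 := isRat_vl 0 1 1 0 (by norm_num) (by norm_num) (by norm_num)
  have h2 := isRat_vl 1 0 1 0 (by norm_num) (by norm_num) (by norm_num)
  have h3 := isRat_vl 1 1 0 0 (by norm_num) (by norm_num) (by norm_num)
  have h4 := isRat_vl 1 1 1 1 (by norm_num) (by norm_num) (by norm_num)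
  have h5 := isRat_vl 1 1 1 0 (by norm_num) (by norm_num) (by norm_num)
  have hp := IsRat.id
  have c1 := IsRat.const 1
  have c2 := IsRat.const 2
  unfold W
  exact (hp.add c1).mul ((hp.mul ((hp.sub c1).mul ((hp.sub c2).mul h0))).add
    (((hp.add c1).sub c1).mul ((((hp.mul ((hp.sub c1).mul (hp.mul h1))).add
    (hp.mul ((hp.sub c1).mul (hp.mul h2)))).add (hp.mul ((hp.sub c1).mul (hp.mul h3)))).add
    (((hp.add c1).sub c2).mul (hp.mul (hp.mul (h4.add ((hp.sub c1).mul h5))))))))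

end PB7

open PB7 in
theorem isRat_R3 : IsRat (fun p =>
    (Nat.card {T : Finset (ZMod p × ZMod p) // T.card = 10 ∧ R3 T} : ℚ)) := by
  refine ((IsRat.const (1 / 6)).mul isRat_W).congr fun p hp _ => ?_
  have : Fact p.Prime := ⟨hp⟩
  show 1 / 6 * W p = _
  rw [← six_W]
  ring

end Pool.Agent.T2H70.SR
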