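import Pool.Agent.T2H70.SR.A1

set_option autoImplicit false

/-!
# Package B8: coprime pairs of binary forms

`f : Fin 3 → 𝔽_p` is a binary quadratic form, `g : Fin 4 → 𝔽_p` a binary cubic form, evaluated on `ℙ¹(𝔽_p)` by the `p + 1` points
`(1, m)` and `(0, 1)`. `Cop f g`: `f ≠ 0`, `g ≠ 0`, no common factor over `𝔽_p`, i.e. no common rational zero and `g` is not a linear form
times `f`.

Counts: a nonzero form is a scalar times a product of rational points, irreducible quadratics (`(p²-p)/2` up to scalars) and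
irreducible cubics (`(p³-p)/3`). For a quadratic form `f`: two zeros `C(p+1,2)` (times `p-1`), one zero `p+1`, none `(p²-p)/2`. For a
cubic form coprime to `f`: with `m = p + 1 - #zeros(f)` and `q = (p²-p)/2 - [f irreducible]`:
no zero `(p³-p)/3`; one zero `m q + m`; two zeros `m (m-1)`; three zeros `m(m-1)(m-2)/6` (each times `p - 1`).
Any other derivation is fine, only the rationality is needed.
-/

namespace Pool.Agent.T2H70.SR

open Finset
open scoped BigOperators

/-- binary quadratic form -/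
def bq {p : ℕ} (f : Fin 3 → ZMod p) (d : ZMod p × ZMod p) : ZMod p :=
  f 0 * d.1 ^ 2 + f 1 * d.1 * d.2 + f 2 * d.2 ^ 2

/-- binary cubic form -/
def bc {p : ℕ} (g : Fin 4 → ZMod p) (d : ZMod p × ZMod p) : ZMod p :=
  g 0 * d.1 ^ 3 + g 1 * d.1 ^ 2 * d.2 + g 2 * d.1 * d.2 ^ 2 + g 3 * d.2 ^ 3

/-- no common factor -/
def Cop {p : ℕ} (f : Fin 3 → ZMod p) (g : Fin 4 → ZMod p) : Prop :=
  f ≠ 0 ∧ g ≠ 0 ∧ (∀ d, d ≠ 0 → ¬ (bq f d = 0 ∧ bc g d = 0)) ∧
    ¬ ∃ a b : ZMod p, ∀ d, bc g d = (a * d.1 + b * d.2) * bq f d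

/-- number of zeros on the projective line -/
noncomputable def zer {p : ℕ} (F : ZMod p × ZMod p → ZMod p) : ℕ :=
  Nat.card {m : ZMod p // F (1, m) = 0} + Nat.card {u : Unit // F (0, 1) = 0}

namespace PB8

open Polynomial

section
variable {p : ℕ} [Fact p.Prime]

/-- the value at a point of the projective line -/
def ev {n : ℕ} (c : Fin (n + 1) → ZMod p) (x : Option (ZMod p)) : ZMod p :=
  match x with
  | none => c (Fin.last n)
  | some m => ∑ i, c i * m ^ (i : ℕ)

/-- the zeros -/
def Z {n : ℕ} (c : Fin (n + 1) → ZMod p) : Finset (Option (ZMod p)) :=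
  univ.filter fun x => ev c x = 0

lemma mem_Z {n : ℕ} {c : Fin (n + 1) → ZMod p} {x : Option (ZMod p)} : x ∈ Z c ↔ ev c x = 0 := by
  simp [Z]

lemma ev_sub {n : ℕ} (c c' : Fin (n + 1) → ZMod p) (x : Option (ZMod p)) :
    ev (c - c') x = ev c x - ev c' x := by
  cases x with
  | none => rfl
  | some m =>
    simp only [ev, Pi.sub_apply]
    rw [← sum_sub_distrib]
    exact sum_congr rfl fun i _ => by ring

lemma card_Z {n : ℕ} (c : Fin (n + 1) → ZMod p) : (Z c).card =
    (univ.filter fun m : ZMod p => ∑ i, c i * m ^ (i : ℕ) = 0).card +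
      (if c (Fin.last n) = 0 then 1 else 0) := by
  unfold Z
  rw [card_filter, Fintype.sum_option, card_filter, add_comm]
  rfl

lemma card_Z_le {n : ℕ} (hn : 1 ≤ n) {c : Fin (n + 1) → ZMod p} (hc : c ≠ 0) : (Z c).card ≤ n := by
  classical
  set P : (ZMod p)[X] := ∑ i : Fin (n + 1), monomial (i : ℕ) (c i) with hP
  have hcoef : ∀ k : ℕ, P.coeff k = ∑ i : Fin (n + 1), if (i : ℕ) = k then c i else 0 := by
    intro k
    rw [hP, finsetSum_coeff]
    exact sum_congr rfl fun i _ => coeff_monomial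
  have hcoef1 : ∀ k : Fin (n + 1), P.coeff k = c k := by
    intro k
    rw [hcoef, sum_eq_single k]
    · rw [if_pos rfl]
    · intro b _ hb
      rw [if_neg (fun h => hb (Fin.ext h))]
    · intro h
      exact absurd (mem_univ k) h
  have hcoef2 : ∀ k : ℕ, n < k → P.coeff k = 0 := by
    intro k hk
    rw [hcoef]
    exact sum_eq_zero fun i _ => if_neg (by have := i.2; omega)
  have hP0 : P ≠ 0 := by
    intro h
    apply hc
    funext k
    rw [← hcoef1 k, h, coeff_zero]
    rfl
  have hev : ∀ m : ZMod p, P.eval m = ∑ i, c i * m ^ (i : ℕ) := by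
    intro m
    rw [hP, eval_finsetSum]
    exact sum_congr rfl fun i _ => by rw [eval_monomial]
  have hroots : (univ.filter fun m : ZMod p => ∑ i, c i * m ^ (i : ℕ) = 0).card ≤ P.natDegree := by
    have h1 : (univ.filter fun m : ZMod p => ∑ i, c i * m ^ (i : ℕ) = 0) ⊆ P.roots.toFinset := by
      intro m hm
      rw [mem_filter] at hm
      rw [Multiset.mem_toFinset, mem_roots hP0, IsRoot.def, hev]
      exact hm.2
    exact (card_le_card h1).trans ((Multiset.toFinset_card_le _).trans (card_roots' P))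
  rw [card_Z]
  by_cases h : c (Fin.last n) = 0
  · rw [if_pos h]
    have h2 : P.natDegree ≤ n - 1 := by
      rw [natDegree_le_iff_coeff_eq_zero]
      intro N hN
      rcases Nat.lt_or_ge n N with h3 | h3
      · exact hcoef2 N h3
      · have h4 : N = n := by omega
        rw [h4]
        have := hcoef1 (Fin.last n)
        rw [h] at this
        exact this
    omega
  · rw [if_neg h, add_zero]
    have h2 : P.natDegree ≤ n := by
      rw [natDegree_le_iff_coeff_eq_zero]
      exact fun N hN => hcoef2 N hN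
    omega

lemma card_van {n : ℕ} (hn : 1 ≤ n) (hnp : n ≤ p) (B : Finset (Option (ZMod p)))
    (hB : B.card ≤ n + 1) :
    (univ.filter fun c : Fin (n + 1) → ZMod p => B ⊆ Z c).card = p ^ (n + 1 - B.card) := by
  classical
  obtain ⟨B', hBB', -, hB'⟩ := exists_subsuperset_card_eq (subset_univ B) hB (by
    rw [card_univ, Fintype.card_option, ZMod.card]; omega)
  set φ : (Fin (n + 1) → ZMod p) → (B' → ZMod p) := fun c x => ev c x.1 with hφ
  have hinj : Function.Injective φ := by
    intro c c' h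
    by_contra hne
    have h1 := card_Z_le hn (sub_ne_zero.2 hne)
    have h2 : B' ⊆ Z (c - c') := by
      intro x hx
      rw [mem_Z, ev_sub]
      have := congrFun h ⟨x, hx⟩
      simp only [hφ] at this
      rw [this, sub_self]
    have h3 := card_le_card h2
    omega
  have hbij : Function.Bijective φ := by
    rw [Fintype.bijective_iff_injective_and_card]
    refine ⟨hinj, ?_⟩
    rw [Fintype.card_fun, Fintype.card_fun, Fintype.card_fin, Fintype.card_coe, hB']
  have h1 : (univ.filter fun c : Fin (n + 1) → ZMod p => B ⊆ Z c).card =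
      (Fintype.piFinset fun x : B' => if x.1 ∈ B then ({0} : Finset (ZMod p)) else univ).card := by
    refine card_bij (fun c _ => φ c) ?_ ?_ ?_
    · intro c hc
      rw [mem_filter] at hc
      rw [Fintype.mem_piFinset]
      intro x
      split_ifs with hx
      · rw [mem_singleton]
        exact mem_Z.1 (hc.2 hx)
      · exact mem_univ _
    · intro c _ c' _ h
      exact hinj h
    · intro g hg
      obtain ⟨c, hc⟩ := hbij.2 g
      refine ⟨c, ?_, hc⟩
      rw [mem_filter]
      refine ⟨mem_univ _, fun x hx => ?_⟩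
      rw [Fintype.mem_piFinset] at hg
      have h2 := hg ⟨x, hBB' hx⟩
      rw [if_pos hx, mem_singleton, ← hc] at h2
      exact mem_Z.2 h2
  rw [h1, Fintype.card_piFinset]
  have h2 : ∀ x : B', (if x.1 ∈ B then ({0} : Finset (ZMod p)) else univ).card =
      (fun y : Option (ZMod p) => if y ∈ B then 1 else p) x.1 := by
    intro x
    simp only
    split_ifs
    · rw [card_singleton]
    · rw [card_univ, ZMod.card]
  rw [prod_congr rfl fun x _ => h2 x, prod_coe_sort B' (fun y : Option (ZMod p) => if y ∈ B then 1 else p),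
    prod_ite, prod_const_one, one_mul, prod_const]
  congr 1
  have h3 : (B'.filter fun x => x ∉ B) = B' \ B := by
    ext x
    simp
  rw [h3, card_sdiff_of_subset hBB', hB']

lemma card_van' {n : ℕ} (hn : 1 ≤ n) (hnp : n ≤ p) (B : Finset (Option (ZMod p))) :
    ((univ.filter fun c : Fin (n + 1) → ZMod p => c ≠ 0 ∧ B ⊆ Z c).card : ℚ) =
      (p : ℚ) ^ (n + 1 - B.card) - 1 := by
  classical
  by_cases hB : B.card ≤ n + 1
  · have h1 := card_van hn hnp B hB
    have h2 : (univ.filter fun c : Fin (n + 1) → ZMod p => c ≠ 0 ∧ B ⊆ Z c) =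
        (univ.filter fun c : Fin (n + 1) → ZMod p => B ⊆ Z c).erase 0 := by
      ext c
      simp [mem_erase]
    have h0 : (0 : Fin (n + 1) → ZMod p) ∈ univ.filter fun c : Fin (n + 1) → ZMod p => B ⊆ Z c := by
      rw [mem_filter]
      refine ⟨mem_univ _, fun x _ => ?_⟩
      rw [mem_Z]
      cases x <;> simp [ev]
    rw [h2, card_erase_of_mem h0, h1]
    have hp0 : 1 ≤ p ^ (n + 1 - B.card) := Nat.one_le_pow _ _ (Fact.out : p.Prime).pos
    rw [Nat.cast_sub hp0]
    push_cast
    ring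
  · have h1 : (univ.filter fun c : Fin (n + 1) → ZMod p => c ≠ 0 ∧ B ⊆ Z c) = ∅ := by
      rw [eq_empty_iff_forall_notMem]
      intro c hc
      rw [mem_filter] at hc
      have h2 := card_le_card hc.2.2
      have h3 := card_Z_le hn hc.2.1
      omega
    rw [h1, card_empty, show n + 1 - B.card = 0 by omega]
    simp

end

/-- the moments -/
def MM (n i k p : ℕ) : ℚ := ((p + 1 - i).choose k : ℚ) *
  ∑ a ∈ range (i + 1), (i.choose a : ℚ) * ((-1) ^ a * ((p : ℚ) ^ (n + 1 - (k + a)) - 1))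

/-- the numbers of forms -/
def WW (n i j p : ℕ) : ℚ := ∑ k ∈ range (n + 1), ((-1) ^ (k + j) * (k.choose j : ℚ)) * MM n i k p

section
variable {p : ℕ} [Fact p.Prime]

lemma moment {n : ℕ} (hn : 1 ≤ n) (hnp : n ≤ p) (Y : Finset (Option (ZMod p))) (k : ℕ) :
    ∑ c ∈ univ.filter (fun c : Fin (n + 1) → ZMod p => c ≠ 0 ∧ Disjoint (Z c) Y),
      ((Z c).card.choose k : ℚ) = MM n Y.card k p := by
  classical
  have h1 : ∀ c : Fin (n + 1) → ZMod p, (if c ≠ 0 ∧ Disjoint (Z c) Y then
      ((Z c).card.choose k : ℚ) else 0) = ∑ Y' ∈ Y.powerset, ∑ B ∈ powersetCard k Yᶜ,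
      (-1 : ℚ) ^ Y'.card * (if c ≠ 0 ∧ (Y' ∪ B) ⊆ Z c then 1 else 0) := by
    intro c
    by_cases hc : c = 0
    · simp [hc]
    · have e1 : ∀ Y' B : Finset (Option (ZMod p)), (-1 : ℚ) ^ Y'.card *
          (if c ≠ 0 ∧ (Y' ∪ B) ⊆ Z c then 1 else 0) =
          (if Y' ⊆ Z c then (-1 : ℚ) ^ Y'.card else 0) * (if B ⊆ Z c then 1 else 0) := by
        intro Y' B
        simp only [ne_eq, hc, not_false_eq_true, true_and, union_subset_iff]
        by_cases h1 : Y' ⊆ Z c <;> by_cases h2 : B ⊆ Z c <;> simp [h1, h2]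
      simp_rw [e1]
      rw [← sum_mul_sum, ← sum_filter]
      have e2 : Y.powerset.filter (fun Y' => Y' ⊆ Z c) = (Z c ∩ Y).powerset := by
        ext Y'
        simp only [mem_filter, mem_powerset, subset_inter_iff]
        tauto
      have e3 : ∑ Y' ∈ (Z c ∩ Y).powerset, (-1 : ℚ) ^ Y'.card = if Z c ∩ Y = ∅ then 1 else 0 := by
        have := sum_powerset_neg_one_pow_card (x := Z c ∩ Y)
        have h2 : ((∑ Y' ∈ (Z c ∩ Y).powerset, (-1 : ℤ) ^ Y'.card : ℤ) : ℚ) =
            ((if Z c ∩ Y = ∅ then 1 else 0 : ℤ) : ℚ) := by rw [this]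
        push_cast at h2
        exact h2
      rw [e2, e3]
      simp only [ne_eq, hc, not_false_eq_true, true_and, disjoint_iff_inter_eq_empty]
      by_cases hd : Z c ∩ Y = ∅
      · rw [if_pos hd, if_pos hd, one_mul, ← card_powersetCard, ← sum_filter, sum_const,
          nsmul_eq_mul, mul_one]
        congr 2
        ext B
        simp only [mem_powersetCard, mem_filter]
        constructor
        · rintro ⟨h2, h3⟩
          refine ⟨⟨fun x hx => ?_, h3⟩, h2⟩
          rw [mem_compl]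
          intro hxY
          have : x ∈ Z c ∩ Y := mem_inter.2 ⟨h2 hx, hxY⟩
          rw [hd] at this
          exact notMem_empty _ this
        · rintro ⟨⟨h2, h3⟩, h4⟩
          exact ⟨h4, h3⟩
      · rw [if_neg hd, if_neg hd, zero_mul]
  rw [sum_filter, sum_congr rfl fun c _ => h1 c, sum_comm]
  have h2 : ∀ Y' ∈ Y.powerset, (∑ c : Fin (n + 1) → ZMod p, ∑ B ∈ powersetCard k Yᶜ,
      (-1 : ℚ) ^ Y'.card * (if c ≠ 0 ∧ (Y' ∪ B) ⊆ Z c then 1 else 0)) =
      ((p + 1 - Y.card).choose k : ℚ) * ((-1) ^ Y'.card * ((p : ℚ) ^ (n + 1 - (k + Y'.card)) - 1)) := by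
    intro Y' hY'
    rw [mem_powerset] at hY'
    rw [sum_comm]
    have h3 : ∀ B ∈ powersetCard k Yᶜ, (∑ c : Fin (n + 1) → ZMod p,
        (-1 : ℚ) ^ Y'.card * (if c ≠ 0 ∧ (Y' ∪ B) ⊆ Z c then 1 else 0)) =
        (-1) ^ Y'.card * ((p : ℚ) ^ (n + 1 - (k + Y'.card)) - 1) := by
      intro B hB
      rw [mem_powersetCard] at hB
      rw [← mul_sum, ← sum_filter, sum_const, nsmul_eq_mul, mul_one, card_van' hn hnp]
      have h4 : (Y' ∪ B).card = k + Y'.card := by
        rw [card_union_of_disjoint, hB.2, add_comm]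
        rw [disjoint_left]
        intro x hx hxB
        exact (mem_compl.1 (hB.1 hxB)) (hY' hx)
      rw [h4]
    rw [sum_congr rfl h3, sum_const, nsmul_eq_mul, card_powersetCard, card_compl,
      Fintype.card_option, ZMod.card]
  rw [sum_congr rfl h2, ← mul_sum, sum_powerset_apply_card
    (fun a => (-1 : ℚ) ^ a * ((p : ℚ) ^ (n + 1 - (k + a)) - 1))]
  unfold MM
  simp_rw [nsmul_eq_mul]

lemma tau2 : ∀ z ≤ 2, ∀ j ≤ 2, ∑ k ∈ range 3, ((-1 : ℚ) ^ (k + j) * (k.choose j : ℚ)) *
    (z.choose k : ℚ) = if z = j then 1 else 0 := by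
  intro z hz j hj
  interval_cases z <;> interval_cases j <;> simp [sum_range_succ, Nat.choose] <;> norm_num

lemma tau3 : ∀ z ≤ 3, ∀ j ≤ 3, ∑ k ∈ range 4, ((-1 : ℚ) ^ (k + j) * (k.choose j : ℚ)) *
    (z.choose k : ℚ) = if z = j then 1 else 0 := by
  intro z hz j hj
  interval_cases z <;> interval_cases j <;> simp [sum_range_succ, Nat.choose] <;> norm_num

lemma cnt_of_tau {n : ℕ} (hn : 1 ≤ n) (hnp : n ≤ p)
    (tau : ∀ z ≤ n, ∀ j ≤ n, ∑ k ∈ range (n + 1), ((-1 : ℚ) ^ (k + j) * (k.choose j : ℚ)) *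
      (z.choose k : ℚ) = if z = j then 1 else 0)
    (Y : Finset (Option (ZMod p))) {j : ℕ} (hj : j ≤ n) :
    ((univ.filter fun c : Fin (n + 1) → ZMod p => (c ≠ 0 ∧ Disjoint (Z c) Y) ∧
      (Z c).card = j).card : ℚ) = WW n Y.card j p := by
  unfold WW
  simp_rw [← moment hn hnp Y, mul_sum]
  rw [sum_comm, ← filter_filter, card_filter]
  push_cast
  refine sum_congr rfl fun c hc => ?_
  rw [mem_filter] at hc
  rw [tau _ (card_Z_le hn hc.2.1) j hj]

lemma cnt2 (hp : 5 ≤ p) (Y : Finset (Option (ZMod p))) {j : ℕ} (hj : j ≤ 2) :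
    ((univ.filter fun c : Fin 3 → ZMod p => (c ≠ 0 ∧ Disjoint (Z c) Y) ∧
      (Z c).card = j).card : ℚ) = WW 2 Y.card j p :=
  cnt_of_tau (by norm_num) (by omega) tau2 Y hj

lemma cnt3 (hp : 5 ≤ p) (Y : Finset (Option (ZMod p))) {j : ℕ} (hj : j ≤ 3) :
    ((univ.filter fun c : Fin 4 → ZMod p => (c ≠ 0 ∧ Disjoint (Z c) Y) ∧
      (Z c).card = j).card : ℚ) = WW 3 Y.card j p :=
  cnt_of_tau (by norm_num) (by omega) tau3 Y hj

lemma sum_by_card {γ : Type} (s : Finset γ) (h : γ → ℕ) (N : ℕ) (hN : ∀ x ∈ s, h x < N)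
    (F : ℕ → ℚ) : ∑ x ∈ s, F (h x) = ∑ j ∈ range N, ((s.filter fun x => h x = j).card : ℚ) * F j := by
  rw [← sum_fiberwise_of_maps_to (g := h) (t := range N) (fun x hx => mem_range.2 (hN x hx))]
  refine sum_congr rfl fun j _ => ?_
  rw [sum_congr rfl (fun x hx => by rw [(mem_filter.1 hx).2] :
    ∀ x ∈ s.filter (fun x => h x = j), F (h x) = F j), sum_const, nsmul_eq_mul]

/-! ### the forms -/

lemma ev_some2 (f : Fin 3 → ZMod p) (m : ZMod p) : ev (n := 2) f (some m) = bq f (1, m) := by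
  show ∑ x : Fin 3, f x * m ^ (x : ℕ) = _
  rw [Fin.sum_univ_three]
  simp [bq]

lemma ev_none2 (f : Fin 3 → ZMod p) : ev (n := 2) f none = bq f (0, 1) := by
  show f 2 = _
  simp [bq]

lemma ev_some3 (g : Fin 4 → ZMod p) (m : ZMod p) : ev (n := 3) g (some m) = bc g (1, m) := by
  show ∑ x : Fin 4, g x * m ^ (x : ℕ) = _
  rw [Fin.sum_univ_four]
  simp [bc]

lemma ev_none3 (g : Fin 4 → ZMod p) : ev (n := 3) g none = bc g (0, 1) := by
  show g 3 = _
  simp [bc]

lemma zer_eq (F : ZMod p × ZMod p → ZMod p) (S : Finset (Option (ZMod p)))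
    (h1 : ∀ m, some m ∈ S ↔ F (1, m) = 0) (h2 : none ∈ S ↔ F (0, 1) = 0) : zer F = S.card := by
  classical
  have e1 : S = univ.filter fun x => x ∈ S := by ext x; simp
  rw [e1, card_filter, Fintype.sum_option]
  unfold zer
  have e2 : Nat.card {m : ZMod p // F (1, m) = 0} = ∑ m : ZMod p, if some m ∈ S then 1 else 0 := by
    rw [Nat.card_eq_fintype_card, Fintype.card_subtype, card_filter]
    exact sum_congr rfl fun m _ => by simp only [h1]
  have e3 : Nat.card {u : Unit // F (0, 1) = 0} = if none ∈ S then 1 else 0 := by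
    rw [Nat.card_eq_fintype_card, Fintype.card_subtype]
    by_cases h : F (0, 1) = 0
    · rw [if_pos (h2.2 h)]
      simp [h]
    · rw [if_neg (fun h' => h (h2.1 h'))]
      simp [h]
  rw [e2, e3, add_comm]

lemma zer_bq (f : Fin 3 → ZMod p) : zer (bq f) = (Z (n := 2) f).card :=
  zer_eq _ _ (fun m => by rw [mem_Z, ev_some2]) (by rw [mem_Z, ev_none2])

lemma zer_bc (g : Fin 4 → ZMod p) : zer (bc g) = (Z (n := 3) g).card :=
  zer_eq _ _ (fun m => by rw [mem_Z, ev_some3]) (by rw [mem_Z, ev_none3])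

lemma bq_hom (f : Fin 3 → ZMod p) (t x y : ZMod p) : bq f (t * x, t * y) = t ^ 2 * bq f (x, y) := by
  simp only [bq]; ring

lemma bc_hom (g : Fin 4 → ZMod p) (t x y : ZMod p) : bc g (t * x, t * y) = t ^ 3 * bc g (x, y) := by
  simp only [bc]; ring

/-- representation of a nonzero vector -/
lemma repr (d : ZMod p × ZMod p) (hd : d ≠ 0) : ∃ t : ZMod p, t ≠ 0 ∧
    ((∃ m, d = (t * 1, t * m)) ∨ d = (t * 0, t * 1)) := by
  obtain ⟨x, y⟩ := d
  by_cases hx : x = 0
  · refine ⟨y, ?_, Or.inr ?_⟩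
    · rintro rfl
      exact hd (by rw [hx]; rfl)
    · rw [hx]; simp
  · refine ⟨x, hx, Or.inl ⟨y / x, ?_⟩⟩
    rw [mul_one, mul_div_cancel₀ _ hx]

lemma cop_disj (f : Fin 3 → ZMod p) (g : Fin 4 → ZMod p) :
    (∀ d : ZMod p × ZMod p, d ≠ 0 → ¬ (bq f d = 0 ∧ bc g d = 0)) ↔
      Disjoint (Z (n := 3) g) (Z (n := 2) f) := by
  rw [disjoint_left]
  constructor
  · intro h x hx hx'
    rw [mem_Z] at hx hx'
    cases x with
    | none =>
      rw [ev_none2] at hx'
      rw [ev_none3] at hx
      exact h (0, 1) (by simp) ⟨hx', hx⟩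
    | some m =>
      rw [ev_some2] at hx'
      rw [ev_some3] at hx
      exact h (1, m) (by simp) ⟨hx', hx⟩
  · rintro h d hd ⟨h1, h2⟩
    obtain ⟨t, ht, ⟨m, rfl⟩ | rfl⟩ := repr d hd
    · rw [bq_hom] at h1
      rw [bc_hom] at h2
      refine h (a := some m) ?_ ?_
      · rw [mem_Z, ev_some3]
        exact (mul_eq_zero.1 h2).resolve_left (pow_ne_zero _ ht)
      · rw [mem_Z, ev_some2]
        exact (mul_eq_zero.1 h1).resolve_left (pow_ne_zero _ ht)
    · rw [bq_hom] at h1
      rw [bc_hom] at h2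
      refine h (a := none) ?_ ?_
      · rw [mem_Z, ev_none3]
        exact (mul_eq_zero.1 h2).resolve_left (pow_ne_zero _ ht)
      · rw [mem_Z, ev_none2]
        exact (mul_eq_zero.1 h1).resolve_left (pow_ne_zero _ ht)

/-- multiplication by a linear form -/
def mulf (f : Fin 3 → ZMod p) (a : ZMod p × ZMod p) : Fin 4 → ZMod p :=
  ![a.1 * f 0, a.1 * f 1 + a.2 * f 0, a.1 * f 2 + a.2 * f 1, a.2 * f 2]

lemma bc_mulf (f : Fin 3 → ZMod p) (a d : ZMod p × ZMod p) :
    bc (mulf f a) d = (a.1 * d.1 + a.2 * d.2) * bq f d := by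
  simp only [bc, bq, mulf, Matrix.cons_val_zero, Matrix.cons_val_one, Matrix.cons_val]
  ring

lemma form_ext (hp : 5 ≤ p) {g g' : Fin 4 → ZMod p} (h : ∀ d, bc g d = bc g' d) : g = g' := by
  by_contra hne
  have h1 := card_Z_le (n := 3) (by norm_num) (sub_ne_zero.2 hne)
  have h2 : Z (n := 3) (g - g') = univ := by
    ext x
    simp only [mem_univ, iff_true]
    rw [mem_Z, ev_sub]
    cases x with
    | none => rw [ev_none3, ev_none3, h, sub_self]
    | some m => rw [ev_some3, ev_some3, h, sub_self]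
  rw [h2, card_univ, Fintype.card_option, ZMod.card] at h1
  omega

lemma Z_mulf {f : Fin 3 → ZMod p} (hf : Z (n := 2) f = ∅) {a : ZMod p × ZMod p} (ha : a ≠ 0) :
    (Z (n := 3) (mulf f a)).card = 1 := by
  have hf1 : ∀ m, bq f (1, m) ≠ 0 := by
    intro m h
    have : some m ∈ Z (n := 2) f := by rw [mem_Z, ev_some2]; exact h
    rw [hf] at this
    exact notMem_empty _ this
  have hf2 : bq f (0, 1) ≠ 0 := by
    intro h
    have : none ∈ Z (n := 2) f := by rw [mem_Z, ev_none2]; exact h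
    rw [hf] at this
    exact notMem_empty _ this
  rw [card_eq_one]
  by_cases hb : a.2 = 0
  · have ha1 : a.1 ≠ 0 := fun h => ha (Prod.ext h hb)
    refine ⟨none, ?_⟩
    ext x
    rw [mem_Z, mem_singleton]
    cases x with
    | none =>
      rw [ev_none3, bc_mulf, hb]
      simp
    | some m =>
      rw [ev_some3, bc_mulf, hb]
      simp [ha1, hf1 m]
  · refine ⟨some (-a.1 / a.2), ?_⟩
    ext x
    rw [mem_Z, mem_singleton]
    cases x with
    | none =>
      rw [ev_none3, bc_mulf]
      simp [hb, hf2]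
    | some m =>
      rw [ev_some3, bc_mulf, mul_eq_zero, or_iff_left (hf1 m), Option.some_inj, eq_div_iff hb]
      constructor
      · intro h
        linear_combination h
      · intro h
        linear_combination h

lemma mulf_ne {f : Fin 3 → ZMod p} (hf : Z (n := 2) f = ∅) {a : ZMod p × ZMod p}
    (ha : a ≠ 0) : mulf f a ≠ 0 := by
  intro h
  have h1 := Z_mulf hf ha
  have h2 : Z (n := 3) (mulf f a) = univ := by
    rw [h]
    ext x
    rw [mem_Z]
    cases x <;> simp [ev]
  rw [h2, card_univ, Fintype.card_option, ZMod.card] at h1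
  have := (Fact.out : p.Prime).pos
  omega

lemma mulf_sub (f : Fin 3 → ZMod p) (a a' : ZMod p × ZMod p) :
    mulf f (a - a') = mulf f a - mulf f a' := by
  funext i
  fin_cases i <;> simp [mulf] <;> ring

lemma mulf_inj {f : Fin 3 → ZMod p} (hf : Z (n := 2) f = ∅) : Function.Injective (mulf f) := by
  intro a a' h
  by_contra hne
  exact mulf_ne hf (sub_ne_zero.2 hne) (by rw [mulf_sub, h, sub_self])

open Classical in
/-- multiples of an irreducible quadratic form -/
lemma card_mult (hp : 5 ≤ p) {f : Fin 3 → ZMod p} (hf : Z (n := 2) f = ∅) (j : ℕ) :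
    ((univ.filter fun g : Fin 4 → ZMod p => (g ≠ 0 ∧ (Z (n := 3) g).card = j) ∧
      ∃ a b : ZMod p, ∀ d : ZMod p × ZMod p, bc g d = (a * d.1 + b * d.2) * bq f d).card : ℚ) =
      if j = 1 then (p : ℚ) ^ 2 - 1 else 0 := by
  have key : ∀ g : Fin 4 → ZMod p, g ≠ 0 → (∃ a b : ZMod p, ∀ d : ZMod p × ZMod p,
      bc g d = (a * d.1 + b * d.2) * bq f d) → ∃ a : ZMod p × ZMod p, a ≠ 0 ∧ g = mulf f a := by
    rintro g hg ⟨a, b, h⟩
    have h1 : g = mulf f (a, b) := form_ext hp fun d => by rw [bc_mulf, h]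
    refine ⟨(a, b), ?_, h1⟩
    intro h0
    apply hg
    rw [h1, h0]
    funext i
    fin_cases i <;> simp [mulf]
  split_ifs with hj
  · subst hj
    have e1 : (univ.filter fun g : Fin 4 → ZMod p => (g ≠ 0 ∧ (Z (n := 3) g).card = 1) ∧
        ∃ a b : ZMod p, ∀ d : ZMod p × ZMod p, bc g d = (a * d.1 + b * d.2) * bq f d) =
        ((univ : Finset (ZMod p × ZMod p)).erase 0).image (mulf f) := by
      ext g
      rw [mem_filter, mem_image]
      simp only [mem_univ, true_and, mem_erase, and_true]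
      constructor
      · rintro ⟨⟨h1, h2⟩, h3⟩
        obtain ⟨a, ha, rfl⟩ := key g h1 h3
        exact ⟨a, ha, rfl⟩
      · rintro ⟨a, ha, rfl⟩
        exact ⟨⟨mulf_ne hf ha, Z_mulf hf ha⟩, a.1, a.2, fun d => bc_mulf f a d⟩
    rw [e1, card_image_of_injective _ (mulf_inj hf), card_erase_of_mem (mem_univ _), card_univ,
      Fintype.card_prod, ZMod.card, Nat.cast_sub (by nlinarith)]
    push_cast
    ring
  · rw [Nat.cast_eq_zero, card_eq_zero, eq_empty_iff_forall_notMem]
    intro g hg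
    rw [mem_filter] at hg
    obtain ⟨a, ha, rfl⟩ := key g hg.2.1.1 hg.2.2
    rw [Z_mulf hf ha] at hg
    exact hj hg.2.1.2.symm

open Classical in
lemma card_cop (hp : 5 ≤ p) {f : Fin 3 → ZMod p} (hf : f ≠ 0) {j : ℕ} (hj : j ≤ 3) :
    ((univ.filter fun g : Fin 4 → ZMod p => Cop f g ∧ (Z (n := 3) g).card = j).card : ℚ) =
      WW 3 (Z (n := 2) f).card j p -
        (if (Z (n := 2) f).card = 0 then (if j = 1 then (p : ℚ) ^ 2 - 1 else 0) else 0) := by
  by_cases h0 : (Z (n := 2) f).card = 0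
  · have h0' : Z (n := 2) f = ∅ := card_eq_zero.1 h0
    rw [if_pos h0, ← cnt3 hp _ hj, ← card_mult hp h0' j, eq_sub_iff_add_eq, ← Nat.cast_add,
      Nat.cast_inj, ← card_union_of_disjoint]
    · congr 1
      ext g
      simp only [mem_union, mem_filter, mem_univ, true_and]
      unfold Cop
      rw [cop_disj, h0']
      simp only [disjoint_empty_right, and_true, true_and]
      tauto
    · rw [disjoint_left]
      intro g hg hg'
      rw [mem_filter] at hg hg'
      exact hg.2.1.2.2.2 hg'.2.2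
  · rw [if_neg h0, sub_zero, ← cnt3 hp _ hj, Nat.cast_inj]
    congr 1
    ext g
    simp only [mem_filter, mem_univ, true_and]
    unfold Cop
    rw [cop_disj]
    obtain ⟨x, hx⟩ : (Z (n := 2) f).Nonempty := by
      rw [nonempty_iff_ne_empty]
      intro h
      exact h0 (by rw [h, card_empty])
    have h1 : Disjoint (Z (n := 3) g) (Z (n := 2) f) →
        ¬ ∃ a b : ZMod p, ∀ d, bc g d = (a * d.1 + b * d.2) * bq f d := by
      rintro hd ⟨a, b, h⟩
      rw [disjoint_left] at hd
      refine hd ?_ hx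
      rw [mem_Z] at hx ⊢
      cases x with
      | none =>
        rw [ev_none2] at hx
        rw [ev_none3, h, hx, mul_zero]
      | some m =>
        rw [ev_some2] at hx
        rw [ev_some3, h, hx, mul_zero]
    tauto

/-- the number of coprime cubic forms with `j` zeros -/
def NN (i j p : ℕ) : ℚ := WW 3 i j p - (if i = 0 then (if j = 1 then (p : ℚ) ^ 2 - 1 else 0) else 0)

open Classical in
/-- sum over the coprime cubic forms -/
lemma sum_cop (hp : 5 ≤ p) {f : Fin 3 → ZMod p} (hf : f ≠ 0) (F : ℕ → ℚ) :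
    ∑ g : Fin 4 → ZMod p, (if Cop f g then F (Z (n := 3) g).card else 0) =
      ∑ j ∈ range 4, NN (Z (n := 2) f).card j p * F j := by
  rw [← sum_filter, sum_by_card _ (fun g : Fin 4 → ZMod p => (Z (n := 3) g).card) 4]
  · refine sum_congr rfl fun j hj => ?_
    rw [mem_range] at hj
    rw [filter_filter, card_cop hp hf (by omega)]
    rfl
  · intro g hg
    rw [mem_filter] at hg
    have := card_Z_le (n := 3) (by norm_num) hg.2.2.1
    omega

open Classical in
lemma value_A (hp : 5 ≤ p) : (∑ f : Fin 3 → ZMod p, ∑ g : Fin 4 → ZMod p,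
    if Cop f g then ((p + 2 - zer (bq f) - zer (bc g)).choose 10 : ℚ) else 0) =
    ∑ i ∈ range 3, WW 2 0 i p * ∑ j ∈ range 4, NN i j p * ((p + 2 - i - j).choose 10 : ℚ) := by
  have h1 : ∀ f : Fin 3 → ZMod p, (∑ g : Fin 4 → ZMod p,
      if Cop f g then ((p + 2 - zer (bq f) - zer (bc g)).choose 10 : ℚ) else 0) =
      if f ≠ 0 then (fun i => ∑ j ∈ range 4, NN i j p * ((p + 2 - i - j).choose 10 : ℚ))
        (Z (n := 2) f).card else 0 := by
    intro f
    split_ifs with hf
    · simp only [zer_bq, zer_bc]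
      exact sum_cop hp hf fun j => ((p + 2 - (Z (n := 2) f).card - j).choose 10 : ℚ)
    · refine sum_eq_zero fun g _ => if_neg fun h => hf h.1
  have h5 := sum_by_card (univ.filter fun f : Fin 3 → ZMod p => f ≠ 0)
    (fun f : Fin 3 → ZMod p => (Z (n := 2) f).card) 3 (fun f hf => by
      rw [mem_filter] at hf
      have := card_Z_le (n := 2) (by norm_num) hf.2
      omega) (fun i => ∑ j ∈ range 4, NN i j p * ((p + 2 - i - j).choose 10 : ℚ))
  rw [sum_congr rfl fun f _ => h1 f, ← sum_filter]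
  refine h5.trans ?_
  · refine sum_congr rfl fun i hi => ?_
    rw [mem_range] at hi
    congr 1
    rw [filter_filter]
    have h2 := cnt2 hp ∅ (j := i) (by omega)
    rw [card_empty] at h2
    rw [← h2]
    congr 2
    ext f
    simp

/-- affine zeros in the other chart -/
lemma aff_eq (f : Fin 3 → ZMod p) : Nat.card {m : ZMod p // bq f (m, 1) = 0} +
    (if some 0 ∈ Z (n := 2) f then 1 else 0) = (Z (n := 2) f).card := by
  classical
  have e1 : Nat.card {m : ZMod p // bq f (m, 1) = 0} = ((Z (n := 2) f).erase (some 0)).card := by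
    rw [Nat.card_eq_fintype_card, Fintype.card_subtype]
    refine card_bij (fun m _ => if m = 0 then none else some m⁻¹) ?_ ?_ ?_
    · intro m hm
      rw [mem_filter] at hm
      rw [mem_erase]
      by_cases h : m = 0
      · rw [if_pos h]
        refine ⟨by simp, ?_⟩
        rw [mem_Z, ev_none2]
        rw [h] at hm
        exact hm.2
      · rw [if_neg h]
        refine ⟨by simp [h], ?_⟩
        rw [mem_Z, ev_some2]
        have h1 : bq f (m, 1) = m ^ 2 * bq f (1, m⁻¹) := by
          rw [← bq_hom, mul_one, mul_inv_cancel₀ h]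
        rw [h1] at hm
        exact (mul_eq_zero.1 hm.2).resolve_left (pow_ne_zero _ h)
    · intro m _ m' _ h
      by_cases h1 : m = 0 <;> by_cases h2 : m' = 0
      · rw [h1, h2]
      · simp [h1, h2] at h
      · simp [h1, h2] at h
      · simp only [if_neg h1, if_neg h2, Option.some_inj, inv_inj] at h
        exact h
    · intro x hx
      rw [mem_erase, mem_Z] at hx
      cases x with
      | none =>
        refine ⟨0, ?_, by simp⟩
        rw [mem_filter]
        refine ⟨mem_univ _, ?_⟩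
        rw [← ev_none2]
        exact hx.2
      | some m =>
        have hm : m ≠ 0 := by
          rintro rfl
          exact hx.1 rfl
        refine ⟨m⁻¹, ?_, by simp [hm]⟩
        rw [mem_filter]
        refine ⟨mem_univ _, ?_⟩
        have h1 : bq f (m⁻¹, 1) = m⁻¹ ^ 2 * bq f (1, m) := by
          rw [← bq_hom, mul_one, inv_mul_cancel₀ hm]
        rw [h1, ← ev_some2, hx.2, mul_zero]
  rw [e1]
  split_ifs with h
  · rw [card_erase_of_mem h]
    have := card_pos.2 ⟨_, h⟩
    omega
  · rw [erase_eq_of_notMem h, add_zero]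

open Classical in
lemma value_B (hp : 5 ≤ p) : (∑ f : Fin 3 → ZMod p, ∑ g : Fin 4 → ZMod p,
    if Cop f g then ((p - Nat.card {m : ZMod p // bq f (m, 1) = 0}).choose 10 : ℚ) else 0) =
    ∑ i ∈ range 3, (∑ j ∈ range 4, NN i j p) * (WW 2 1 i p * ((p - i).choose 10 : ℚ) +
      (WW 2 0 i p - WW 2 1 i p) * ((p + 1 - i).choose 10 : ℚ)) := by
  have h1 : ∀ f : Fin 3 → ZMod p, (∑ g : Fin 4 → ZMod p,
      if Cop f g then ((p - Nat.card {m : ZMod p // bq f (m, 1) = 0}).choose 10 : ℚ) else 0) =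
      (if f ≠ 0 ∧ Disjoint (Z (n := 2) f) {some 0} then
        (fun i => (∑ j ∈ range 4, NN i j p) * ((p - i).choose 10 : ℚ))
        (Z (n := 2) f).card else 0) +
      (if f ≠ 0 ∧ some 0 ∈ Z (n := 2) f then
        (fun i => (∑ j ∈ range 4, NN i j p) * ((p + 1 - i).choose 10 : ℚ))
        (Z (n := 2) f).card else 0) := by
    intro f
    by_cases hf : f = 0
    · rw [if_neg (fun h => h.1 hf), if_neg (fun h => h.1 hf), add_zero]
      exact sum_eq_zero fun g _ => if_neg fun h => h.1 hf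
    · have h2 := aff_eq f
      have h3 := sum_cop hp hf fun _ => ((p - Nat.card {m : ZMod p // bq f (m, 1) = 0}).choose 10 : ℚ)
      rw [h3, ← sum_mul]
      by_cases h4 : some 0 ∈ Z (n := 2) f
      · rw [if_neg (fun h => by
          have := disjoint_left.1 h.2 h4
          simp at this), if_pos ⟨hf, h4⟩, zero_add]
        rw [if_pos h4] at h2
        show _ = (∑ j ∈ range 4, NN (Z (n := 2) f).card j p) *
          ((p + 1 - (Z (n := 2) f).card).choose 10 : ℚ)
        rw [← h2]
        congr 3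
        omega
      · rw [if_pos ⟨hf, by rw [disjoint_singleton_right]; exact h4⟩, if_neg (fun h => h4 h.2),
          add_zero]
        rw [if_neg h4, add_zero] at h2
        show _ = (∑ j ∈ range 4, NN (Z (n := 2) f).card j p) *
          ((p - (Z (n := 2) f).card).choose 10 : ℚ)
        rw [← h2]
  have h5 := sum_by_card (univ.filter fun f : Fin 3 → ZMod p =>
      f ≠ 0 ∧ Disjoint (Z (n := 2) f) {some 0})
    (fun f : Fin 3 → ZMod p => (Z (n := 2) f).card) 3 (fun f hf => by
      rw [mem_filter] at hf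
      have := card_Z_le (n := 2) (by norm_num) hf.2.1
      omega) (fun i => (∑ j ∈ range 4, NN i j p) * ((p - i).choose 10 : ℚ))
  have h6 := sum_by_card (univ.filter fun f : Fin 3 → ZMod p => f ≠ 0 ∧ some 0 ∈ Z (n := 2) f)
    (fun f : Fin 3 → ZMod p => (Z (n := 2) f).card) 3 (fun f hf => by
      rw [mem_filter] at hf
      have := card_Z_le (n := 2) (by norm_num) hf.2.1
      omega) (fun i => (∑ j ∈ range 4, NN i j p) * ((p + 1 - i).choose 10 : ℚ))
  rw [sum_congr rfl fun f _ => h1 f, sum_add_distrib, ← sum_filter, ← sum_filter]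
  refine (congrArg₂ (· + ·) h5 h6).trans ?_
  rw [← sum_add_distrib]
  · refine sum_congr rfl fun i hi => ?_
    rw [mem_range] at hi
    have h2 := cnt2 hp ∅ (j := i) (by omega)
    have h3 := cnt2 hp {some 0} (j := i) (by omega)
    rw [card_empty] at h2
    rw [card_singleton] at h3
    rw [← h3, ← h2, filter_filter, filter_filter]
    have h4 : (univ.filter fun c : Fin 3 → ZMod p => (c ≠ 0 ∧ Disjoint (Z (n := 2) c) ∅) ∧
        (Z (n := 2) c).card = i).card =
        (univ.filter fun c : Fin 3 → ZMod p => (c ≠ 0 ∧ Disjoint (Z (n := 2) c) {some 0}) ∧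
          (Z (n := 2) c).card = i).card +
        (univ.filter fun c : Fin 3 → ZMod p => (c ≠ 0 ∧ some 0 ∈ Z (n := 2) c) ∧
          (Z (n := 2) c).card = i).card := by
      rw [← card_union_of_disjoint]
      · congr 1
        ext f
        simp only [mem_union, mem_filter, mem_univ, true_and, disjoint_empty_right, and_true,
          disjoint_singleton_right]
        tauto
      · rw [disjoint_left]
        intro f hf hf'
        rw [mem_filter] at hf hf'
        have := disjoint_left.1 hf.2.1.2 hf'.2.1.2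
        simp at this
    rw [h4]
    push_cast
    ring

end

/-! ### rationality -/

lemma isRat_MM (n i k : ℕ) (hi : i ≤ 3) : IsRat (MM n i k) := by
  unfold MM
  refine IsRat.mul (IsRat.choose ?_ k) ?_
  · refine ((IsRat.id.add (IsRat.const 1)).sub (IsRat.const i)).congr fun p _ hp => ?_
    rw [Nat.cast_sub (by omega)]
    push_cast
    ring
  · refine IsRat.sum _ fun a _ => ?_
    exact (IsRat.const _).mul ((IsRat.const _).mul ((IsRat.id.pow _).sub (IsRat.const 1)))

lemma isRat_WW (n i j : ℕ) (hi : i ≤ 3) : IsRat (WW n i j) := by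
  unfold WW
  exact IsRat.sum _ fun k _ => (IsRat.const _).mul (isRat_MM n i k hi)

lemma isRat_NN (i j : ℕ) (hi : i ≤ 3) : IsRat (NN i j) := by
  unfold NN
  refine (isRat_WW 3 i j hi).sub ?_
  split_ifs
  · exact (IsRat.id.pow 2).sub (IsRat.const 1)
  · exact IsRat.const 0
  · exact IsRat.const 0

end PB8

open PB8

open Classical in
theorem isRat_A : IsRat (lift fun p _ => ∑ f : Fin 3 → ZMod p, ∑ g : Fin 4 → ZMod p,
    if Cop f g then ((p + 2 - zer (bq f) - zer (bc g)).choose 10 : ℚ) else 0) := by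
  have h : IsRat (fun p => ∑ i ∈ range 3, WW 2 0 i p * ∑ j ∈ range 4, NN i j p *
      ((p + 2 - i - j).choose 10 : ℚ)) := by
    refine IsRat.sum _ fun i hi => (isRat_WW 2 0 i (by norm_num)).mul (IsRat.sum _ fun j hj => ?_)
    rw [mem_range] at hi hj
    refine (isRat_NN i j (by omega)).mul (IsRat.choose ?_ 10)
    refine (((IsRat.id.add (IsRat.const 2)).sub (IsRat.const i)).sub (IsRat.const j)).congr
      fun p _ hp => ?_
    rw [Nat.cast_sub (by omega), Nat.cast_sub (by omega)]
    push_cast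
    ring
  refine h.congr fun p hp hp5 => ?_
  have : Fact p.Prime := ⟨hp⟩
  rw [lift_apply, value_A hp5]

open Classical in
theorem isRat_B : IsRat (lift fun p _ => ∑ f : Fin 3 → ZMod p, ∑ g : Fin 4 → ZMod p,
    if Cop f g then ((p - Nat.card {m : ZMod p // bq f (m, 1) = 0}).choose 10 : ℚ) else 0) := by
  have h : IsRat (fun p => ∑ i ∈ range 3, (∑ j ∈ range 4, NN i j p) *
      (WW 2 1 i p * ((p - i).choose 10 : ℚ) +
      (WW 2 0 i p - WW 2 1 i p) * ((p + 1 - i).choose 10 : ℚ))) := by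
    refine IsRat.sum _ fun i hi => ?_
    rw [mem_range] at hi
    refine (IsRat.sum _ fun j _ => isRat_NN i j (by omega)).mul ?_
    refine ((isRat_WW 2 1 i (by norm_num)).mul (IsRat.choose ?_ 10)).add
      (((isRat_WW 2 0 i (by norm_num)).sub (isRat_WW 2 1 i (by norm_num))).mul (IsRat.choose ?_ 10))
    · refine (IsRat.id.sub (IsRat.const i)).congr fun p _ hp => ?_
      rw [Nat.cast_sub (by omega)]
    · refine ((IsRat.id.add (IsRat.const 1)).sub (IsRat.const i)).congr fun p _ hp => ?_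
      rw [Nat.cast_sub (by omega)]
      push_cast
      ring
  refine h.congr fun p hp hp5 => ?_
  have : Fact p.Prime := ⟨hp⟩
  rw [lift_apply, value_B hp5]

end Pool.Agent.T2H70.SR
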