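import Pool.Agent.T2H70.SR.Defs

set_option autoImplicit false

/-!
# Package S0: linear substitutions

For `p ≥ 5` a ternary cubic form over `𝔽_p` is determined by its values (degree `3 < p`), and for an invertible matrix `g` the function
`v ↦ form c (g v)` is again a cubic form (explicit coefficients, or: the functions `v ↦ form c v` are the span of the ten cubic
monomials, which is stable under linear substitutions). So there is a bijection `σ` of the coefficient vectors with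
`form (σ c) v = form c (g v)`. Comparing the coefficients of `t` in `form (σ c) (v + t w) = form c (g v + t g w)` for all `t ∈ 𝔽_p`
(`form c (v + t w) = form c v + t dform c v w + t² dform c w v + t³ form c w`, a polynomial of degree `3 < p` in `t`) gives the same for
`dform`.
-/

namespace Pool.Agent.T2H70.SR

open Finset
open scoped BigOperators

theorem form_add (p : ℕ) [Fact p.Prime] (c : Co p) (v w : Fin 3 → ZMod p) (t : ZMod p) :
    form c (v + t • w) = form c v + t * dform c v w + t ^ 2 * dform c w v + t ^ 3 * form c w := by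
  simp only [form, dform, Pi.add_apply, Pi.smul_apply, smul_eq_mul]
  ring

theorem S0_two (p : ℕ) [Fact p.Prime] (hp : 5 ≤ p) : (2 : ZMod p) ≠ 0 := by
  intro h
  have h1 : ((2 : ℕ) : ZMod p) = 0 := by exact_mod_cast h
  rw [ZMod.natCast_eq_zero_iff] at h1
  have := Nat.le_of_dvd (by norm_num) h1
  omega

theorem form_inj (p : ℕ) [Fact p.Prime] (hp : 5 ≤ p) {c c' : Co p}
    (h : ∀ v, form c v = form c' v) : c = c' := by
  have h2 := S0_two p hp
  have e0 := h ![1, 0, 0]
  have e6 := h ![0, 1, 0]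
  have e9 := h ![0, 0, 1]
  have f1 := h ![1, 1, 0]
  have f2 := h ![1, -1, 0]
  have f3 := h ![1, 0, 1]
  have f4 := h ![1, 0, -1]
  have f5 := h ![0, 1, 1]
  have f6 := h ![0, 1, -1]
  have f7 := h ![1, 1, 1]
  simp only [form, Matrix.cons_val_zero, Matrix.cons_val_one, Matrix.cons_val] at e0 e6 e9 f1 f2 f3 f4 f5 f6 f7
  have a0 : c 0 = c' 0 := by linear_combination e0
  have a6 : c 6 = c' 6 := by linear_combination e6
  have a9 : c 9 = c' 9 := by linear_combination e9
  have a3 : c 3 = c' 3 := by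
    apply mul_left_cancel₀ h2
    linear_combination f1 + f2 - 2 * a0
  have a1 : c 1 = c' 1 := by linear_combination f1 - a0 - a3 - a6
  have a5 : c 5 = c' 5 := by
    apply mul_left_cancel₀ h2
    linear_combination f3 + f4 - 2 * a0
  have a2 : c 2 = c' 2 := by linear_combination f3 - a0 - a5 - a9
  have a8 : c 8 = c' 8 := by
    apply mul_left_cancel₀ h2
    linear_combination f5 + f6 - 2 * a6
  have a7 : c 7 = c' 7 := by linear_combination f5 - a6 - a8 - a9
  have a4 : c 4 = c' 4 := by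
    linear_combination f7 - a0 - a1 - a2 - a3 - a5 - a6 - a7 - a8 - a9
  ext i
  fin_cases i
  · exact a0
  · exact a1
  · exact a2
  · exact a3
  · exact a4
  · exact a5
  · exact a6
  · exact a7
  · exact a8
  · exact a9

/-- the full polarisation -/
def tform {p : ℕ} (c : Co p) (a b d : Fin 3 → ZMod p) : ZMod p :=
  6 * c 0 * a 0 * b 0 * d 0
    + 2 * c 1 * (a 0 * b 0 * d 1 + a 0 * b 1 * d 0 + a 1 * b 0 * d 0)
    + 2 * c 2 * (a 0 * b 0 * d 2 + a 0 * b 2 * d 0 + a 2 * b 0 * d 0)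
    + 2 * c 3 * (a 0 * b 1 * d 1 + a 1 * b 0 * d 1 + a 1 * b 1 * d 0)
    + c 4 * (a 0 * b 1 * d 2 + a 0 * b 2 * d 1 + a 1 * b 0 * d 2 + a 1 * b 2 * d 0
      + a 2 * b 0 * d 1 + a 2 * b 1 * d 0)
    + 2 * c 5 * (a 0 * b 2 * d 2 + a 2 * b 0 * d 2 + a 2 * b 2 * d 0)
    + 6 * c 6 * a 1 * b 1 * d 1
    + 2 * c 7 * (a 1 * b 1 * d 2 + a 1 * b 2 * d 1 + a 2 * b 1 * d 1)
    + 2 * c 8 * (a 1 * b 2 * d 2 + a 2 * b 1 * d 2 + a 2 * b 2 * d 1)
    + 6 * c 9 * a 2 * b 2 * d 2

/-- the coefficients after a substitution with columns `a`, `b`, `d` -/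
def sub3 {p : ℕ} (a b d : Fin 3 → ZMod p) (c : Co p) : Co p :=
  ![form c a, dform c a b, dform c a d, dform c b a, tform c a b d, dform c d a, form c b,
    dform c b d, dform c d b, form c d]

theorem form_sub3 {p : ℕ} (a b d : Fin 3 → ZMod p) (c : Co p) (v : Fin 3 → ZMod p) :
    form (sub3 a b d c) v = form c (fun i => v 0 * a i + v 1 * b i + v 2 * d i) := by
  have e : form (sub3 a b d c) v = form c a * v 0 ^ 3 + dform c a b * v 0 ^ 2 * v 1
      + dform c a d * v 0 ^ 2 * v 2 + dform c b a * v 0 * v 1 ^ 2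
      + tform c a b d * v 0 * v 1 * v 2 + dform c d a * v 0 * v 2 ^ 2 + form c b * v 1 ^ 3
      + dform c b d * v 1 ^ 2 * v 2 + dform c d b * v 1 * v 2 ^ 2 + form c d * v 2 ^ 3 := by
    rfl
  rw [e]
  simp only [form, dform, tform]
  ring

theorem S0_lin (p : ℕ) [Fact p.Prime] (g : (Fin 3 → ZMod p) ≃ₗ[ZMod p] (Fin 3 → ZMod p))
    (v : Fin 3 → ZMod p) : g v = fun i => v 0 * g (Pi.single 0 1) i + v 1 * g (Pi.single 1 1) i
      + v 2 * g (Pi.single 2 1) i := by
  have h : v = v 0 • (Pi.single 0 1 : Fin 3 → ZMod p) + v 1 • (Pi.single 1 1 : Fin 3 → ZMod p)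
      + v 2 • (Pi.single 2 1 : Fin 3 → ZMod p) := by
    ext i
    fin_cases i <;> simp
  conv_lhs => rw [h]
  rw [map_add, map_add, map_smul, map_smul, map_smul]
  rfl

theorem S0_dform (p : ℕ) [Fact p.Prime] (hp : 5 ≤ p)
    (g : (Fin 3 → ZMod p) ≃ₗ[ZMod p] (Fin 3 → ZMod p)) (c c' : Co p)
    (h1 : ∀ v, form c' v = form c (g v)) (v w : Fin 3 → ZMod p) :
    dform c' v w = dform c (g v) (g w) := by
  have e1 := h1 (v + (1 : ZMod p) • w)
  have e2 := h1 (v + (-1 : ZMod p) • w)
  rw [map_add, map_smul, form_add, form_add, h1 v, h1 w] at e1 e2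
  apply mul_left_cancel₀ (S0_two p hp)
  linear_combination e1 - e2

theorem exists_subst (p : ℕ) [Fact p.Prime] (hp : 5 ≤ p)
    (g : (Fin 3 → ZMod p) ≃ₗ[ZMod p] (Fin 3 → ZMod p)) :
    ∃ σ : Co p ≃ Co p, (∀ c v, form (σ c) v = form c (g v)) ∧
      ∀ c v w, dform (σ c) v w = dform c (g v) (g w) := by
  set s : Co p → Co p := sub3 (g (Pi.single 0 1)) (g (Pi.single 1 1)) (g (Pi.single 2 1)) with hs
  have h1 : ∀ c v, form (s c) v = form c (g v) := by
    intro c v
    rw [hs, form_sub3, ← S0_lin]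
  have hinj : Function.Injective s := by
    intro c c' h
    apply form_inj p hp
    intro v
    have e1 := h1 c (g.symm v)
    have e2 := h1 c' (g.symm v)
    rw [LinearEquiv.apply_symm_apply] at e1 e2
    rw [← e1, ← e2, h]
  have hbij : Function.Bijective s := Finite.injective_iff_bijective.1 hinj
  refine ⟨Equiv.ofBijective s hbij, h1, ?_⟩
  intro c v w
  exact S0_dform p hp g c _ (h1 c) v w

theorem dot3_inj {p : ℕ} {l l' : Fin 3 → ZMod p} (h : ∀ v, dot3 l v = dot3 l' v) : l = l' := by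
  ext i
  have := h (Pi.single i 1)
  fin_cases i <;> simpa [dot3] using this

/-- the transposed substitution -/
def tr {p : ℕ} [Fact p.Prime] (g : (Fin 3 → ZMod p) ≃ₗ[ZMod p] (Fin 3 → ZMod p))
    (l : Fin 3 → ZMod p) : Fin 3 → ZMod p := fun i => dot3 l (g (Pi.single i 1))

theorem dot3_tr {p : ℕ} [Fact p.Prime] (g : (Fin 3 → ZMod p) ≃ₗ[ZMod p] (Fin 3 → ZMod p))
    (l v : Fin 3 → ZMod p) : dot3 (tr g l) v = dot3 l (g v) := by
  rw [S0_lin p g v]
  simp only [dot3, tr]
  ring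

/-- the transposed substitution as a bijection, `dot3 (trE g l) v = dot3 l (g v)` -/
def trE {p : ℕ} [Fact p.Prime] (g : (Fin 3 → ZMod p) ≃ₗ[ZMod p] (Fin 3 → ZMod p)) :
    (Fin 3 → ZMod p) ≃ (Fin 3 → ZMod p) where
  toFun := tr g
  invFun := tr g.symm
  left_inv l := by
    apply dot3_inj
    intro v
    rw [dot3_tr, dot3_tr, LinearEquiv.apply_symm_apply]
  right_inv l := by
    apply dot3_inj
    intro v
    rw [dot3_tr, dot3_tr, LinearEquiv.symm_apply_apply]

theorem dot3_trE {p : ℕ} [Fact p.Prime] (g : (Fin 3 → ZMod p) ≃ₗ[ZMod p] (Fin 3 → ZMod p))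
    (l v : Fin 3 → ZMod p) : dot3 (trE g l) v = dot3 l (g v) := dot3_tr g l v

theorem trE_ne {p : ℕ} [Fact p.Prime] (g : (Fin 3 → ZMod p) ≃ₗ[ZMod p] (Fin 3 → ZMod p))
    (l : Fin 3 → ZMod p) : trE g l ≠ 0 ↔ l ≠ 0 := by
  have h0 : trE g 0 = 0 := by
    apply dot3_inj
    intro v
    rw [dot3_trE]
    simp [dot3]
  constructor
  · intro h h1
    rw [h1] at h
    exact h h0
  · intro h h1
    apply h
    apply (trE g).injective
    rw [h1, h0]

theorem S0_line {p : ℕ} [Fact p.Prime] (g : (Fin 3 → ZMod p) ≃ₗ[ZMod p] (Fin 3 → ZMod p))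
    (c c' : Co p) (h1 : ∀ v, form c' v = form c (g v)) (h : HasLine c) : HasLine c' := by
  obtain ⟨l, hl, h2⟩ := h
  refine ⟨trE g l, (trE_ne g l).2 hl, ?_⟩
  intro v hv
  rw [dot3_trE] at hv
  rw [h1]
  exact h2 _ hv

theorem S0_flex {p : ℕ} [Fact p.Prime] (g : (Fin 3 → ZMod p) ≃ₗ[ZMod p] (Fin 3 → ZMod p))
    (c c' : Co p) (h1 : ∀ v, form c' v = form c (g v))
    (h2 : ∀ v w, dform c' v w = dform c (g v) (g w)) (v l : Fin 3 → ZMod p) :
    Flex c' v (trE g l) ↔ Flex c (g v) l := by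
  unfold Flex
  rw [trE_ne, dot3_trE, h1]
  have e0 : v ≠ 0 ↔ g v ≠ 0 := by simp
  rw [e0]
  have e : (∀ w, dot3 (trE g l) w = 0 → dform c' v w = 0 ∧ dform c' w v = 0) ↔
      (∀ w, dot3 l w = 0 → dform c (g v) w = 0 ∧ dform c w (g v) = 0) := by
    constructor
    · intro h w hw
      have := h (g.symm w) (by rw [dot3_trE, LinearEquiv.apply_symm_apply]; exact hw)
      rwa [h2, h2, LinearEquiv.apply_symm_apply] at this
    · intro h w hw
      rw [dot3_trE] at hw
      rw [h2, h2]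
      exact h _ hw
  rw [e]

theorem S0_sing {p : ℕ} [Fact p.Prime] (g : (Fin 3 → ZMod p) ≃ₗ[ZMod p] (Fin 3 → ZMod p))
    (c c' : Co p) (h1 : ∀ v, form c' v = form c (g v))
    (h2 : ∀ v w, dform c' v w = dform c (g v) (g w)) (v : Fin 3 → ZMod p) :
    Sing c' v ↔ Sing c (g v) := by
  unfold Sing
  rw [h1]
  have e0 : v ≠ 0 ↔ g v ≠ 0 := by simp
  rw [e0]
  have e : (∀ w, dform c' v w = 0) ↔ (∀ w, dform c (g v) w = 0) := by
    constructor
    · intro h w
      have := h (g.symm w)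
      rwa [h2, LinearEquiv.apply_symm_apply] at this
    · intro h w
      rw [h2]
      exact h _
  rw [e]

/-- Hence `Ns` and the numbers of points and flexes are invariant, and `Flex`, `aff` transform in the obvious way. -/
theorem subst_invariants (p : ℕ) [Fact p.Prime] (hp : 5 ≤ p)
    (g : (Fin 3 → ZMod p) ≃ₗ[ZMod p] (Fin 3 → ZMod p)) (σ : Co p ≃ Co p)
    (h1 : ∀ c v, form (σ c) v = form c (g v))
    (h2 : ∀ c v w, dform (σ c) v w = dform c (g v) (g w)) (c : Co p) :
    (HasLine (σ c) ↔ HasLine c) ∧ (Ns (σ c) ↔ Ns c) ∧ Np (σ c) = Np c ∧ fl (σ c) = fl c := by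
  have hL : HasLine (σ c) ↔ HasLine c := by
    constructor
    · apply S0_line g.symm (σ c) c
      intro v
      rw [h1, LinearEquiv.apply_symm_apply]
    · exact S0_line g c (σ c) (h1 c)
  refine ⟨hL, ?_, ?_, ?_⟩
  · unfold Ns
    rw [hL]
    have : (∀ v, ¬ Sing (σ c) v) ↔ (∀ v, ¬ Sing c v) := by
      constructor
      · intro h v
        have := h (g.symm v)
        rwa [S0_sing g c (σ c) (h1 c) (h2 c), LinearEquiv.apply_symm_apply] at this
      · intro h v
        rw [S0_sing g c (σ c) (h1 c) (h2 c)]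
        exact h _
    rw [this]
  · unfold Np
    congr 2
    apply Nat.card_congr
    refine g.toEquiv.subtypeEquiv ?_
    intro v
    rw [h1]
    simp
  · unfold fl
    congr 2
    apply Nat.card_congr
    refine (g.toEquiv.prodCongr (trE g).symm).subtypeEquiv ?_
    rintro ⟨v, l⟩
    have := S0_flex g c (σ c) (h1 c) (h2 c) v ((trE g).symm l)
    rw [Equiv.apply_symm_apply] at this
    exact this

end Pool.Agent.T2H70.SR
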