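import Pool.Agent.T2H70.SR.B8
import Pool.Agent.T2H70.SR.S0

set_option autoImplicit false

/-!
# Package B9: singular cubics without rational lines

`p ≥ 5`. Let `c` have no rational line and a rational singular point. The singular point `O` is unique up to scalars (the line through two
singular points would meet the cubic with multiplicity `≥ 4`, so it would be contained in the cubic: restrict `form c` to the line, a binary
cubic with two double zeros vanishes).
(a) `O` affine (`O = [x0 : y0 : 1]`). Translations act, so the sum over these `c` is `p²` times the sum over `c` singular at `[0:0:1]`, i.e.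
`cub c (x,y) = f(x,y) + g(x,y)` with `f` a binary quadratic and `g` a binary cubic form (`c 9 = c 5 = c 8 = 0`). Contains a rational line iff
`f = 0` and `g` has a rational zero, or `g = 0`, or `f, g` have a common factor [a line through `O` gives a common zero; a line
`1 + l1 = 0` (scaled) not through `O` gives `f + g = (1 + l1) q`, so `q = f`, `g = l1 f`; the line at infinity: `g = 0`]. If `f = 0` and `g` has
no zero then the only point is `O` and the binomial coefficient `choose 1 10` is `0`. For coprime `f, g` the affine points are `O` and, for each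
direction `d` with `f(d) ≠ 0`, `g(d) ≠ 0`, the point `t d`, `t = -f(d)/g(d)`: `1 + (p + 1) - zer f - zer g` points.
(b) `O` at infinity: by a linear change of `(x, y)` one may assume `O = [0:1:0]` (factor `p + 1`): `cub c (x,y) = b(x) y + g(x)`,
`deg b ≤ 2`, `deg g ≤ 3`, with `b, g` coprime as binary forms in `(x, z)` [if `b = 0`: `g(x)` has a rational zero (then a rational line)
or not (then there are no affine points); if `g = 0`: line `y = 0`]; the affine points: one for each `x` with `b(x) ≠ 0`.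
-/

namespace Pool.Agent.T2H70.SR

open Finset
open scoped BigOperators

namespace B9

section
variable {p : ℕ} [Fact p.Prime]

/-- the cubic form `z f(x,y) + g(x,y)` -/
def Phi (f : Fin 3 → ZMod p) (g : Fin 4 → ZMod p) (x y z : ZMod p) : ZMod p :=
  z * bq f (x, y) + bc g (x, y)

theorem bq_smul (f : Fin 3 → ZMod p) (t x y : ZMod p) : bq f (t * x, t * y) = t ^ 2 * bq f (x, y) := by
  simp only [bq]; ring

theorem bc_smul (g : Fin 4 → ZMod p) (t x y : ZMod p) : bc g (t * x, t * y) = t ^ 3 * bc g (x, y) := by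
  simp only [bc]; ring

theorem cop_noline (f : Fin 3 → ZMod p) (g : Fin 4 → ZMod p) (h : Cop f g) (l : Fin 3 → ZMod p) (hl : l ≠ 0)
    (H : ∀ x y z, l 0 * x + l 1 * y + l 2 * z = 0 → Phi f g x y z = 0) : False := by
  obtain ⟨_, _, h3, h4⟩ := h
  by_cases h2 : l 2 = 0
  · have e0 := H (l 1) (-l 0) 0 (by ring)
    have e1 := H (l 1) (-l 0) 1 (by rw [h2]; ring)
    unfold Phi at e0 e1
    refine h3 (l 1, -l 0) ?_ ⟨by linear_combination e1 - e0, by linear_combination e0⟩
    intro h0
    apply hl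
    have h01 := congrArg Prod.fst h0
    have h02 := congrArg Prod.snd h0
    simp only [Prod.fst_zero, Prod.snd_zero, neg_eq_zero] at h01 h02
    funext i
    fin_cases i
    exacts [h02, h01, h2]
  · apply h4
    refine ⟨l 0 / l 2, l 1 / l 2, ?_⟩
    rintro ⟨x, y⟩
    have e := H x y (-(l 0 * x + l 1 * y) / l 2) (by field_simp; ring)
    unfold Phi at e
    have e2 : (l 0 / l 2 * x + l 1 / l 2 * y) = -(-(l 0 * x + l 1 * y) / l 2) := by field_simp
    show bc g (x, y) = (l 0 / l 2 * x + l 1 / l 2 * y) * bq f (x, y)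
    rw [e2]
    linear_combination e

theorem not_cop (f : Fin 3 → ZMod p) (g : Fin 4 → ZMod p) (h : ¬ Cop f g) :
    (∃ l : Fin 3 → ZMod p, l ≠ 0 ∧ ∀ x y z, l 0 * x + l 1 * y + l 2 * z = 0 → Phi f g x y z = 0) ∨
      (f = 0 ∧ ∀ d, d ≠ 0 → bc g d ≠ 0) := by
  -- a common zero gives a line
  have hz : ∀ d : ZMod p × ZMod p, d ≠ 0 → bq f d = 0 → bc g d = 0 →
      ∃ l : Fin 3 → ZMod p, l ≠ 0 ∧ ∀ x y z, l 0 * x + l 1 * y + l 2 * z = 0 → Phi f g x y z = 0 := by
    rintro ⟨a, b⟩ hd h1 h2
    refine ⟨![b, -a, 0], ?_, ?_⟩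
    · intro h0
      apply hd
      have e0 := congrFun h0 0
      have e1 := congrFun h0 1
      simp at e0 e1
      rw [e0, e1]; rfl
    · intro x y z hxy
      have hxy : b * x + -a * y + 0 * z = 0 := hxy
      have : ∃ t, x = t * a ∧ y = t * b := by
        by_cases ha : a = 0
        · have hb : b ≠ 0 := by
            rintro rfl
            exact hd (by rw [ha]; rfl)
          refine ⟨y / b, ?_, by field_simp⟩
          rw [ha] at hxy ⊢
          have : b * x = 0 := by linear_combination hxy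
          rcases mul_eq_zero.1 this with h | h
          · exact absurd h hb
          · rw [h]; ring
        · refine ⟨x / a, by field_simp, ?_⟩
          field_simp
          linear_combination -hxy
      obtain ⟨t, rfl, rfl⟩ := this
      unfold Phi
      rw [bq_smul, bc_smul, h1, h2]
      ring
  unfold Cop at h
  by_cases hg : g = 0
  · left
    refine ⟨![0, 0, 1], ?_, ?_⟩
    · intro h0
      have := congrFun h0 2
      simp at this
    · intro x y z hxy
      have hz : z = 0 := by
        have : 0 * x + 0 * y + 1 * z = 0 := hxy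
        linear_combination this
      rw [hz, hg]
      simp [Phi, bc]
  by_cases hc : ∃ d : ZMod p × ZMod p, d ≠ 0 ∧ bq f d = 0 ∧ bc g d = 0
  · obtain ⟨d, h0, h1, h2⟩ := hc
    exact Or.inl (hz d h0 h1 h2)
  by_cases hf : f = 0
  · right
    refine ⟨hf, fun d hd h0 => hc ⟨d, hd, ?_, h0⟩⟩
    rw [hf]; simp [bq]
  · left
    have h4 : ∃ a b : ZMod p, ∀ d, bc g d = (a * d.1 + b * d.2) * bq f d := by
      by_contra h5
      exact h ⟨hf, hg, fun d hd h6 => hc ⟨d, hd, h6.1, h6.2⟩, h5⟩
    obtain ⟨a, b, hab⟩ := h4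
    refine ⟨![a, b, 1], ?_, ?_⟩
    · intro h0
      have := congrFun h0 2
      simp at this
    · intro x y z hxy
      have hz : a * x + b * y + 1 * z = 0 := hxy
      unfold Phi
      rw [hab (x, y)]
      show z * bq f (x, y) + (a * x + b * y) * bq f (x, y) = 0
      linear_combination (bq f (x, y)) * hz

theorem K (a b : ZMod p) (h : ¬ (a = 0 ∧ b = 0)) :
    (∑ x ∈ univ.erase (0 : ZMod p), (if a + x * b = 0 then (1 : ℤ) else 0)) =
      1 - (if a = 0 then 1 else 0) - (if b = 0 then 1 else 0) := by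
  by_cases ha : a = 0
  · have hb : b ≠ 0 := fun hb => h ⟨ha, hb⟩
    rw [if_pos ha, if_neg hb, Finset.sum_eq_zero]
    · norm_num
    · intro x hx
      rw [if_neg]
      rw [ha, zero_add]
      exact mul_ne_zero (Finset.ne_of_mem_erase hx) hb
  · by_cases hb : b = 0
    · rw [if_neg ha, if_pos hb, Finset.sum_eq_zero]
      · norm_num
      · intro x _
        rw [if_neg]
        rw [hb, mul_zero, add_zero]
        exact ha
    · rw [if_neg ha, if_neg hb, Finset.sum_eq_single (-a / b)]
      · rw [if_pos]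
        · norm_num
        · field_simp; ring
      · intro x _ hx
        rw [if_neg]
        intro h0
        apply hx
        field_simp
        linear_combination h0
      · intro h0
        exfalso
        apply h0
        rw [Finset.mem_erase]
        refine ⟨?_, mem_univ _⟩
        exact div_ne_zero (neg_ne_zero.2 ha) hb

theorem K2 (a b : ZMod p) (h : ¬ (a = 0 ∧ b = 0)) :
    (∑ y : ZMod p, (if y * a + b = 0 then (1 : ℤ) else 0)) = 1 - (if a = 0 then 1 else 0) := by
  by_cases ha : a = 0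
  · have hb : b ≠ 0 := fun hb => h ⟨ha, hb⟩
    rw [if_pos ha, Finset.sum_eq_zero]
    · norm_num
    · intro x _
      rw [if_neg]
      rw [ha, mul_zero, zero_add]
      exact hb
  · rw [if_neg ha, Finset.sum_eq_single (-b / a)]
    · rw [if_pos]
      · norm_num
      · field_simp; ring
    · intro x _ hx
      rw [if_neg]
      intro h0
      apply hx
      field_simp
      linear_combination h0
    · intro h0
      exact absurd (mem_univ _) h0

theorem card_sum {α : Type} [Fintype α] (P : α → Prop) [DecidablePred P] :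
    ((Nat.card {x // P x} : ℕ) : ℤ) = ∑ x, if P x then (1 : ℤ) else 0 := by
  rw [Nat.card_eq_fintype_card, Fintype.card_subtype, Finset.card_filter]
  push_cast
  rfl

theorem zer_eq (F : ZMod p × ZMod p → ZMod p) :
    ((zer F : ℕ) : ℤ) = (∑ m : ZMod p, if F (1, m) = 0 then (1 : ℤ) else 0) + (if F (0, 1) = 0 then 1 else 0) := by
  unfold zer
  rw [Nat.cast_add, card_sum, card_sum]
  simp

theorem count1 (f : Fin 3 → ZMod p) (g : Fin 4 → ZMod p) (h : Cop f g) :
    Nat.card {P : ZMod p × ZMod p // bq f P + bc g P = 0} = p + 2 - zer (bq f) - zer (bc g) := by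
  have h3 := h.2.2.1
  have key : ((Nat.card {P : ZMod p × ZMod p // bq f P + bc g P = 0} : ℕ) : ℤ) =
      p + 2 - zer (bq f) - zer (bc g) := by
    rw [card_sum, Fintype.sum_prod_type, ← Finset.add_sum_erase univ _ (mem_univ (0 : ZMod p))]
    have e1 : ∀ x ∈ univ.erase (0 : ZMod p),
        (∑ y : ZMod p, (if bq f (x, y) + bc g (x, y) = 0 then (1 : ℤ) else 0)) =
          ∑ m : ZMod p, (if bq f (1, m) + x * bc g (1, m) = 0 then (1 : ℤ) else 0) := by
      intro x hx
      have hx0 : x ≠ 0 := Finset.ne_of_mem_erase hx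
      symm
      refine Fintype.sum_equiv (Equiv.mulLeft₀ x hx0) _ _ (fun m => ?_)
      have e2 : bq f (x, (Equiv.mulLeft₀ x hx0) m) + bc g (x, (Equiv.mulLeft₀ x hx0) m) =
          x ^ 2 * (bq f (1, m) + x * bc g (1, m)) := by
        have h1 := bq_smul f x 1 m
        have h2 := bc_smul g x 1 m
        rw [mul_one] at h1 h2
        show bq f (x, x * m) + bc g (x, x * m) = _
        rw [h1, h2]; ring
      rw [e2]
      by_cases h0 : bq f (1, m) + x * bc g (1, m) = 0
      · rw [if_pos h0, if_pos (by rw [h0, mul_zero])]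
      · rw [if_neg h0, if_neg (mul_ne_zero (pow_ne_zero 2 hx0) h0)]
    rw [Finset.sum_congr rfl e1, Finset.sum_comm]
    have e3 : ∀ m : ZMod p, (∑ x ∈ univ.erase (0 : ZMod p),
        (if bq f (1, m) + x * bc g (1, m) = 0 then (1 : ℤ) else 0)) =
          1 - (if bq f (1, m) = 0 then 1 else 0) - (if bc g (1, m) = 0 then 1 else 0) := by
      intro m
      apply K
      apply h3
      intro h0
      have := congrArg Prod.fst h0
      simp at this
    rw [Finset.sum_congr rfl (fun m _ => e3 m), Finset.sum_sub_distrib, Finset.sum_sub_distrib]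
    have e4 : (∑ y : ZMod p, (if bq f (0, y) + bc g (0, y) = 0 then (1 : ℤ) else 0)) =
        2 - (if bq f (0, 1) = 0 then 1 else 0) - (if bc g (0, 1) = 0 then 1 else 0) := by
      rw [← Finset.add_sum_erase univ _ (mem_univ (0 : ZMod p))]
      have e5 : ∀ y ∈ univ.erase (0 : ZMod p),
          (if bq f (0, y) + bc g (0, y) = 0 then (1 : ℤ) else 0) =
            (if bq f (0, 1) + y * bc g (0, 1) = 0 then (1 : ℤ) else 0) := by
        intro y hy
        have hy0 : y ≠ 0 := Finset.ne_of_mem_erase hy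
        have e2 : bq f (0, y) + bc g (0, y) = y ^ 2 * (bq f (0, 1) + y * bc g (0, 1)) := by
          have h1 := bq_smul f y 0 1
          have h2 := bc_smul g y 0 1
          rw [mul_one, mul_zero] at h1 h2
          rw [h1, h2]; ring
        rw [e2]
        by_cases h0 : bq f (0, 1) + y * bc g (0, 1) = 0
        · rw [if_pos h0, if_pos (by rw [h0, mul_zero])]
        · rw [if_neg h0, if_neg (mul_ne_zero (pow_ne_zero 2 hy0) h0)]
      rw [Finset.sum_congr rfl e5, K _ _ (h3 _ (by
        intro h0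
        have := congrArg Prod.snd h0
        simp at this)), if_pos (by simp [bq, bc])]
      ring
    rw [e4, zer_eq, zer_eq]
    simp only [Finset.sum_const, card_univ, ZMod.card, nsmul_eq_mul, mul_one]
    ring
  omega

theorem count2 (f : Fin 3 → ZMod p) (g : Fin 4 → ZMod p) (h : Cop f g) :
    Nat.card {P : ZMod p × ZMod p // P.2 * bq f (P.1, 1) + bc g (P.1, 1) = 0} =
      p - Nat.card {m : ZMod p // bq f (m, 1) = 0} := by
  have h3 := h.2.2.1
  have key : ((Nat.card {P : ZMod p × ZMod p // P.2 * bq f (P.1, 1) + bc g (P.1, 1) = 0} : ℕ) : ℤ) =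
      p - (Nat.card {m : ZMod p // bq f (m, 1) = 0} : ℕ) := by
    rw [card_sum, card_sum, Fintype.sum_prod_type]
    have e3 : ∀ x : ZMod p, (∑ y : ZMod p, (if y * bq f (x, 1) + bc g (x, 1) = 0 then (1 : ℤ) else 0)) =
        1 - (if bq f (x, 1) = 0 then 1 else 0) := by
      intro x
      apply K2
      apply h3
      intro h0
      have := congrArg Prod.snd h0
      simp at this
    rw [Finset.sum_congr rfl (fun m _ => e3 m), Finset.sum_sub_distrib]
    simp only [Finset.sum_const, card_univ, ZMod.card, nsmul_eq_mul, mul_one]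
  omega

/-- the number of affine points -/
noncomputable def Na (c : Co p) : ℕ := Nat.card {P : ZMod p × ZMod p // cub c P = 0}

/-- coefficients of `z f(x,y) + g(x,y)` -/
def emb1 (x : (Fin 3 → ZMod p) × (Fin 4 → ZMod p)) : Co p :=
  ![x.2 0, x.2 1, x.1 0, x.2 2, x.1 1, 0, x.2 3, x.1 2, 0, 0]

/-- coefficients of `y f(x,z) + g(x,z)` -/
def emb2 (x : (Fin 3 → ZMod p) × (Fin 4 → ZMod p)) : Co p :=
  ![x.2 0, x.1 0, x.2 1, 0, x.1 1, x.2 2, 0, 0, x.1 2, x.2 3]

theorem emb1_form (f : Fin 3 → ZMod p) (g : Fin 4 → ZMod p) (v : Fin 3 → ZMod p) :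
    form (emb1 (f, g)) v = Phi f g (v 0) (v 1) (v 2) := by
  have h : form (emb1 (f, g)) v = g 0 * v 0 ^ 3 + g 1 * v 0 ^ 2 * v 1 + f 0 * v 0 ^ 2 * v 2 + g 2 * v 0 * v 1 ^ 2
    + f 1 * v 0 * v 1 * v 2 + 0 * v 0 * v 2 ^ 2 + g 3 * v 1 ^ 3 + f 2 * v 1 ^ 2 * v 2
    + 0 * v 1 * v 2 ^ 2 + 0 * v 2 ^ 3 := rfl
  rw [h]
  simp only [Phi, bq, bc]
  ring

theorem emb2_form (f : Fin 3 → ZMod p) (g : Fin 4 → ZMod p) (v : Fin 3 → ZMod p) :
    form (emb2 (f, g)) v = Phi f g (v 0) (v 2) (v 1) := by
  have h : form (emb2 (f, g)) v = g 0 * v 0 ^ 3 + f 0 * v 0 ^ 2 * v 1 + g 1 * v 0 ^ 2 * v 2 + 0 * v 0 * v 1 ^ 2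
    + f 1 * v 0 * v 1 * v 2 + g 2 * v 0 * v 2 ^ 2 + 0 * v 1 ^ 3 + 0 * v 1 ^ 2 * v 2
    + f 2 * v 1 * v 2 ^ 2 + g 3 * v 2 ^ 3 := rfl
  rw [h]
  simp only [Phi, bq, bc]
  ring

theorem emb1_inj : Function.Injective (emb1 (p := p)) := by
  rintro ⟨f, g⟩ ⟨f', g'⟩ h
  have h0 : g 0 = g' 0 := congrFun h 0
  have h1 : g 1 = g' 1 := congrFun h 1
  have h2 : f 0 = f' 0 := congrFun h 2
  have h3 : g 2 = g' 2 := congrFun h 3
  have h4 : f 1 = f' 1 := congrFun h 4
  have h6 : g 3 = g' 3 := congrFun h 6
  have h7 : f 2 = f' 2 := congrFun h 7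
  refine Prod.ext ?_ ?_
  · funext i
    fin_cases i
    exacts [h2, h4, h7]
  · funext i
    fin_cases i
    exacts [h0, h1, h3, h6]

theorem emb2_inj : Function.Injective (emb2 (p := p)) := by
  rintro ⟨f, g⟩ ⟨f', g'⟩ h
  have h0 : g 0 = g' 0 := congrFun h 0
  have h1 : f 0 = f' 0 := congrFun h 1
  have h2 : g 1 = g' 1 := congrFun h 2
  have h4 : f 1 = f' 1 := congrFun h 4
  have h5 : g 2 = g' 2 := congrFun h 5
  have h8 : f 2 = f' 2 := congrFun h 8
  have h9 : g 3 = g' 3 := congrFun h 9
  refine Prod.ext ?_ ?_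
  · funext i
    fin_cases i
    exacts [h1, h4, h8]
  · funext i
    fin_cases i
    exacts [h0, h2, h5, h9]

theorem sing1 (c : Co p) (h : Sing c ![0, 0, 1]) : c ∈ Set.range (emb1 (p := p)) := by
  obtain ⟨_, h1, h2⟩ := h
  have e9 : c 9 = 0 := by
    have : form c ![0, 0, 1] = c 9 := by
      simp only [form, Matrix.cons_val_zero, Matrix.cons_val_one, Matrix.cons_val]
      ring
    rw [← this, h1]
  have e5 : c 5 = 0 := by
    have := h2 ![1, 0, 0]
    simp only [dform, Matrix.cons_val_zero, Matrix.cons_val_one, Matrix.cons_val] at this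
    linear_combination this
  have e8 : c 8 = 0 := by
    have := h2 ![0, 1, 0]
    simp only [dform, Matrix.cons_val_zero, Matrix.cons_val_one, Matrix.cons_val] at this
    linear_combination this
  refine ⟨(![c 2, c 4, c 7], ![c 0, c 1, c 3, c 6]), ?_⟩
  funext i
  fin_cases i
  · rfl
  · rfl
  · rfl
  · rfl
  · rfl
  · exact e5.symm
  · rfl
  · rfl
  · exact e8.symm
  · exact e9.symm

theorem sing2 (c : Co p) (h : Sing c ![0, 1, 0]) : c ∈ Set.range (emb2 (p := p)) := by
  obtain ⟨_, h1, h2⟩ := h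
  have e6 : c 6 = 0 := by
    have : form c ![0, 1, 0] = c 6 := by
      simp only [form, Matrix.cons_val_zero, Matrix.cons_val_one, Matrix.cons_val]
      ring
    rw [← this, h1]
  have e3 : c 3 = 0 := by
    have := h2 ![1, 0, 0]
    simp only [dform, Matrix.cons_val_zero, Matrix.cons_val_one, Matrix.cons_val] at this
    linear_combination this
  have e7 : c 7 = 0 := by
    have := h2 ![0, 0, 1]
    simp only [dform, Matrix.cons_val_zero, Matrix.cons_val_one, Matrix.cons_val] at this
    linear_combination this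
  refine ⟨(![c 1, c 4, c 8], ![c 0, c 2, c 5, c 9]), ?_⟩
  funext i
  fin_cases i
  · rfl
  · rfl
  · rfl
  · exact e3.symm
  · rfl
  · rfl
  · exact e6.symm
  · exact e7.symm
  · rfl
  · rfl

theorem sing1' (x : (Fin 3 → ZMod p) × (Fin 4 → ZMod p)) : Sing (emb1 x) ![0, 0, 1] := by
  refine ⟨?_, ?_, fun w => ?_⟩
  · intro h
    have := congrFun h 2
    simp at this
  · rw [emb1_form]
    simp [Phi, bq, bc]
  · have h := form_add p (emb1 x) ![0, 0, 1] w
    have e1 : (emb1 x) 9 = 0 := rfl
    have e2 : (emb1 x) 5 = 0 := rfl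
    have e3 : (emb1 x) 8 = 0 := rfl
    simp only [dform, Matrix.cons_val_zero, Matrix.cons_val_one, Matrix.cons_val, e1, e2, e3]
    ring

theorem sing2' (x : (Fin 3 → ZMod p) × (Fin 4 → ZMod p)) : Sing (emb2 x) ![0, 1, 0] := by
  refine ⟨?_, ?_, fun w => ?_⟩
  · intro h
    have := congrFun h 1
    simp at this
  · rw [emb2_form]
    simp [Phi, bq, bc]
  · have e1 : (emb2 x) 6 = 0 := rfl
    have e2 : (emb2 x) 3 = 0 := rfl
    have e3 : (emb2 x) 7 = 0 := rfl
    simp only [dform, Matrix.cons_val_zero, Matrix.cons_val_one, Matrix.cons_val, e1, e2, e3]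
    ring

open Classical in
theorem term1 (f : Fin 3 → ZMod p) (g : Fin 4 → ZMod p) :
    (if ¬ HasLine (emb1 (f, g)) ∧ Sing (emb1 (f, g)) ![0, 0, 1] then ((Na (emb1 (f, g))).choose 10 : ℚ) else 0) =
      if Cop f g then ((p + 2 - zer (bq f) - zer (bc g)).choose 10 : ℚ) else 0 := by
  have hcub : ∀ P : ZMod p × ZMod p, cub (emb1 (f, g)) P = bq f P + bc g P := by
    intro P
    unfold cub
    rw [emb1_form]
    show 1 * bq f (P.1, P.2) + bc g (P.1, P.2) = _
    rw [one_mul]
  by_cases h : Cop f g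
  · rw [if_pos h, if_pos]
    · unfold Na
      simp only [hcub]
      rw [count1 f g h]
    · refine ⟨?_, sing1' _⟩
      rintro ⟨l, hl, H⟩
      refine cop_noline f g h l hl (fun x y z hxy => ?_)
      have := H ![x, y, z] hxy
      rwa [emb1_form] at this
  · rw [if_neg h]
    rcases not_cop f g h with ⟨l, hl, H⟩ | ⟨hf, hg⟩
    · rw [if_neg]
      intro h1
      apply h1.1
      refine ⟨l, hl, fun v hv => ?_⟩
      rw [emb1_form]
      exact H _ _ _ hv
    · have hN : Na (emb1 (f, g)) ≤ 1 := by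
        unfold Na
        rw [Nat.card_eq_fintype_card, Fintype.card_le_one_iff]
        rintro ⟨P, hP⟩ ⟨Q, hQ⟩
        rw [hcub, hf] at hP hQ
        simp only [bq, Pi.zero_apply, zero_mul, add_zero, zero_add] at hP hQ
        have hP0 : P = 0 := by
          by_contra h0
          exact hg P h0 hP
        have hQ0 : Q = 0 := by
          by_contra h0
          exact hg Q h0 hQ
        rw [Subtype.mk.injEq, hP0, hQ0]
      have : (Na (emb1 (f, g))).choose 10 = 0 := Nat.choose_eq_zero_of_lt (by omega)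
      rw [this]
      simp

open Classical in
theorem term2 (f : Fin 3 → ZMod p) (g : Fin 4 → ZMod p) :
    (if ¬ HasLine (emb2 (f, g)) ∧ Sing (emb2 (f, g)) ![0, 1, 0] then ((Na (emb2 (f, g))).choose 10 : ℚ) else 0) =
      if Cop f g then ((p - Nat.card {m : ZMod p // bq f (m, 1) = 0}).choose 10 : ℚ) else 0 := by
  have hcub : ∀ P : ZMod p × ZMod p, cub (emb2 (f, g)) P = P.2 * bq f (P.1, 1) + bc g (P.1, 1) := by
    intro P
    unfold cub
    rw [emb2_form]
    rfl
  by_cases h : Cop f g
  · rw [if_pos h, if_pos]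
    · unfold Na
      simp only [hcub]
      rw [count2 f g h]
    · refine ⟨?_, sing2' _⟩
      rintro ⟨l, hl, H⟩
      refine cop_noline f g h ![l 0, l 2, l 1] ?_ (fun x y z hxy => ?_)
      · intro h0
        apply hl
        have e0 := congrFun h0 0
        have e1 := congrFun h0 1
        have e2 := congrFun h0 2
        funext i
        fin_cases i
        exacts [e0, e2, e1]
      · have := H ![x, z, y] (by
          have hxy' : l 0 * x + l 2 * y + l 1 * z = 0 := hxy
          show l 0 * x + l 1 * z + l 2 * y = 0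
          linear_combination hxy')
        rwa [emb2_form] at this
  · rw [if_neg h]
    rcases not_cop f g h with ⟨l, hl, H⟩ | ⟨hf, hg⟩
    · rw [if_neg]
      intro h1
      apply h1.1
      refine ⟨![l 0, l 2, l 1], ?_, fun v hv => ?_⟩
      · intro h0
        apply hl
        have e0 := congrFun h0 0
        have e1 := congrFun h0 1
        have e2 := congrFun h0 2
        funext i
        fin_cases i
        exacts [e0, e2, e1]
      · rw [emb2_form]
        apply H
        have hv' : l 0 * v 0 + l 2 * v 1 + l 1 * v 2 = 0 := hv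
        linear_combination hv'
    · have hN : Na (emb2 (f, g)) = 0 := by
        unfold Na
        rw [Nat.card_eq_fintype_card, Fintype.card_eq_zero_iff]
        refine ⟨?_⟩
        rintro ⟨P, hP⟩
        rw [hcub, hf] at hP
        simp only [bq, Pi.zero_apply, zero_mul, add_zero, mul_zero, zero_add] at hP
        refine hg (P.1, 1) ?_ hP
        intro h0
        have := congrArg Prod.snd h0
        simp at this
      rw [hN]
      simp

open Classical in
theorem S1_eq : (∑ c : Co p, if ¬ HasLine c ∧ Sing c ![0, 0, 1] then ((Na c).choose 10 : ℚ) else 0) =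
    ∑ f : Fin 3 → ZMod p, ∑ g : Fin 4 → ZMod p,
        if Cop f g then ((p + 2 - zer (bq f) - zer (bc g)).choose 10 : ℚ) else 0 := by
  rw [← Fintype.sum_prod_type']
  symm
  refine Fintype.sum_of_injective (emb1 (p := p)) emb1_inj _ _ ?_ ?_
  · intro c hc
    rw [if_neg]
    intro h
    exact hc (sing1 c h.2)
  · rintro ⟨f, g⟩
    exact (term1 f g).symm

open Classical in
theorem S2_eq : (∑ c : Co p, if ¬ HasLine c ∧ Sing c ![0, 1, 0] then ((Na c).choose 10 : ℚ) else 0) =
    ∑ f : Fin 3 → ZMod p, ∑ g : Fin 4 → ZMod p,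
        if Cop f g then ((p - Nat.card {m : ZMod p // bq f (m, 1) = 0}).choose 10 : ℚ) else 0 := by
  rw [← Fintype.sum_prod_type']
  symm
  refine Fintype.sum_of_injective (emb2 (p := p)) emb2_inj _ _ ?_ ?_
  · intro c hc
    rw [if_neg]
    intro h
    exact hc (sing2 c h.2)
  · rintro ⟨f, g⟩
    exact (term2 f g).symm

theorem cub_eq (c : Co p) (x y : ZMod p) : cub c (x, y) = form c ![x, y, 1] := rfl

open Classical in
theorem transport (hp : 5 ≤ p) (g : (Fin 3 → ZMod p) ≃ₗ[ZMod p] (Fin 3 → ZMod p)) (hg : ∀ v, (g v) 2 = v 2)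
    (O : Fin 3 → ZMod p) :
    (∑ c : Co p, if ¬ HasLine c ∧ Sing c (g O) then ((Na c).choose 10 : ℚ) else 0) =
      ∑ c : Co p, if ¬ HasLine c ∧ Sing c O then ((Na c).choose 10 : ℚ) else 0 := by
  obtain ⟨σ, h1, h2⟩ := exists_subst p hp g
  have hgs : ∀ v, (g.symm v) 2 = v 2 := by
    intro v
    have := hg (g.symm v)
    rw [LinearEquiv.apply_symm_apply] at this
    exact this.symm
  have hv3 : ∀ v : Fin 3 → ZMod p, v 2 = 1 → ![v 0, v 1, 1] = v := by
    intro v hv
    funext i
    fin_cases i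
    exacts [rfl, rfl, hv.symm]
  rw [← Equiv.sum_comp σ (fun c => if ¬ HasLine c ∧ Sing c O then ((Na c).choose 10 : ℚ) else 0)]
  refine Finset.sum_congr rfl (fun c _ => ?_)
  have hL := (subst_invariants p hp g σ h1 h2 c).1
  have hS : Sing (σ c) O ↔ Sing c (g O) := by
    unfold Sing
    rw [h1, Ne, Ne, g.map_eq_zero_iff]
    constructor
    · rintro ⟨a, b, d⟩
      refine ⟨a, b, fun w => ?_⟩
      have := d (g.symm w)
      rwa [h2, LinearEquiv.apply_symm_apply] at this
    · rintro ⟨a, b, d⟩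
      exact ⟨a, b, fun w => by rw [h2]; exact d _⟩
  have hN : Na (σ c) = Na c := by
    unfold Na
    let e : ZMod p × ZMod p ≃ ZMod p × ZMod p :=
      { toFun := fun P => ((g ![P.1, P.2, 1]) 0, (g ![P.1, P.2, 1]) 1)
        invFun := fun P => ((g.symm ![P.1, P.2, 1]) 0, (g.symm ![P.1, P.2, 1]) 1)
        left_inv := fun P => by
          show ((g.symm ![(g ![P.1, P.2, 1]) 0, (g ![P.1, P.2, 1]) 1, 1]) 0,
            (g.symm ![(g ![P.1, P.2, 1]) 0, (g ![P.1, P.2, 1]) 1, 1]) 1) = P
          rw [hv3 _ (by rw [hg]; rfl), LinearEquiv.symm_apply_apply]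
          rfl
        right_inv := fun P => by
          show ((g ![(g.symm ![P.1, P.2, 1]) 0, (g.symm ![P.1, P.2, 1]) 1, 1]) 0,
            (g ![(g.symm ![P.1, P.2, 1]) 0, (g.symm ![P.1, P.2, 1]) 1, 1]) 1) = P
          rw [hv3 _ (by rw [hgs]; rfl), LinearEquiv.apply_symm_apply]
          rfl }
    refine Nat.card_congr (Equiv.subtypeEquiv e (fun P => ?_))
    show form (σ c) ![P.1, P.2, 1] = 0 ↔ form c ![(g ![P.1, P.2, 1]) 0, (g ![P.1, P.2, 1]) 1, 1] = 0
    rw [h1, hv3 _ (by rw [hg]; rfl)]
  rw [hL, hS, hN]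

theorem sing_smul (c : Co p) (v : Fin 3 → ZMod p) (t : ZMod p) (ht : t ≠ 0) : Sing c (t • v) ↔ Sing c v := by
  have h1 : form c (t • v) = t ^ 3 * form c v := by
    simp only [form, Pi.smul_apply, smul_eq_mul]; ring
  have h2 : ∀ w, dform c (t • v) w = t ^ 2 * dform c v w := by
    intro w
    simp only [dform, Pi.smul_apply, smul_eq_mul]; ring
  unfold Sing
  rw [h1]
  constructor
  · rintro ⟨a, b, d⟩
    refine ⟨fun h0 => a (by rw [h0, smul_zero]), ?_, fun w => ?_⟩
    · rcases mul_eq_zero.1 b with h | h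
      · exact absurd h (pow_ne_zero 3 ht)
      · exact h
    · have := d w
      rw [h2] at this
      rcases mul_eq_zero.1 this with h | h
      · exact absurd h (pow_ne_zero 2 ht)
      · exact h
  · rintro ⟨a, b, d⟩
    refine ⟨smul_ne_zero ht a, by rw [b, mul_zero], fun w => by rw [h2, d, mul_zero]⟩

theorem comb (D a b x v w : ZMod p) (hD : D ≠ 0) (h : D * x = a * v + b * w) :
    x = a / D * v + b / D * w := by
  have h1 : a / D * v + b / D * w = (a * v + b * w) / D := by ring
  rw [h1, ← h]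
  field_simp

theorem sing_unique (c : Co p) (hc : ¬ HasLine c) (v w : Fin 3 → ZMod p) (hv : Sing c v) (hw : Sing c w) :
    ∃ t : ZMod p, t ≠ 0 ∧ w = t • v := by
  obtain ⟨hv0, hv1, hv2⟩ := hv
  obtain ⟨hw0, hw1, hw2⟩ := hw
  have hcross : v 1 * w 2 - v 2 * w 1 = 0 ∧ v 2 * w 0 - v 0 * w 2 = 0 ∧ v 0 * w 1 - v 1 * w 0 = 0 := by
    by_contra hne
    apply hc
    refine ⟨![v 1 * w 2 - v 2 * w 1, v 2 * w 0 - v 0 * w 2, v 0 * w 1 - v 1 * w 0], ?_, ?_⟩
    · intro h0
      apply hne
      have e0 := congrFun h0 0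
      have e1 := congrFun h0 1
      have e2 := congrFun h0 2
      exact ⟨e0, e1, e2⟩
    · intro x hx
      have hx : (v 1 * w 2 - v 2 * w 1) * x 0 + (v 2 * w 0 - v 0 * w 2) * x 1
        + (v 0 * w 1 - v 1 * w 0) * x 2 = 0 := hx
      have hst : ∃ s t : ZMod p, x = s • v + t • w := by
        by_cases h2 : v 0 * w 1 - v 1 * w 0 = 0
        · by_cases h1 : v 2 * w 0 - v 0 * w 2 = 0
          · have h3 : v 1 * w 2 - v 2 * w 1 ≠ 0 := fun h3 => hne ⟨h3, h1, h2⟩
            refine ⟨(x 1 * w 2 - x 2 * w 1) / (v 1 * w 2 - v 2 * w 1),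
              (v 1 * x 2 - v 2 * x 1) / (v 1 * w 2 - v 2 * w 1), ?_⟩
            funext i
            apply comb _ _ _ _ _ _ h3
            fin_cases i <;> simp only [Fin.zero_eta, Fin.mk_one, Fin.reduceFinMk]
            · linear_combination hx
            · ring
            · ring
          · refine ⟨(x 2 * w 0 - x 0 * w 2) / (v 2 * w 0 - v 0 * w 2),
              (v 2 * x 0 - v 0 * x 2) / (v 2 * w 0 - v 0 * w 2), ?_⟩
            funext i
            apply comb _ _ _ _ _ _ h1
            fin_cases i <;> simp only [Fin.zero_eta, Fin.mk_one, Fin.reduceFinMk]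
            · ring
            · linear_combination hx
            · ring
        · refine ⟨(x 0 * w 1 - x 1 * w 0) / (v 0 * w 1 - v 1 * w 0),
            (v 0 * x 1 - v 1 * x 0) / (v 0 * w 1 - v 1 * w 0), ?_⟩
          funext i
          apply comb _ _ _ _ _ _ h2
          fin_cases i <;> simp only [Fin.zero_eta, Fin.mk_one, Fin.reduceFinMk]
          · ring
          · ring
          · linear_combination hx
      obtain ⟨s, t, rfl⟩ := hst
      have h1 : form c (s • v + t • w) = form c (s • v) + t * dform c (s • v) w + t ^ 2 * dform c w (s • v)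
        + t ^ 3 * form c w := form_add p c (s • v) w t
      have h2 : form c (s • v) = s ^ 3 * form c v := by
        simp only [form, Pi.smul_apply, smul_eq_mul]; ring
      have h3 : dform c (s • v) w = s ^ 2 * dform c v w := by
        simp only [dform, Pi.smul_apply, smul_eq_mul]; ring
      rw [h1, h2, h3, hv1, hw1, hv2, hw2]
      ring
  obtain ⟨c0, c1, c2⟩ := hcross
  have hvi : ∃ i, v i ≠ 0 := by
    by_contra h
    push Not at h
    exact hv0 (funext h)
  have hprop : ∀ i j, v i * w j = v j * w i := by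
    intro i j
    fin_cases i <;> fin_cases j <;> simp only [Fin.zero_eta, Fin.mk_one, Fin.reduceFinMk]
    · linear_combination c2
    · linear_combination -c1
    · linear_combination -c2
    · linear_combination c0
    · linear_combination c1
    · linear_combination -c0
  obtain ⟨i, hi⟩ := hvi
  have hwt : w = (w i / v i) • v := by
    funext j
    simp only [Pi.smul_apply, smul_eq_mul]
    field_simp
    linear_combination hprop i j
  refine ⟨w i / v i, ?_, hwt⟩
  intro h0
  apply hw0
  rw [hwt, h0, zero_smul]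

open Classical in
theorem count_sing (c : Co p) (hc : ¬ HasLine c) :
    (∑ v : Fin 3 → ZMod p, if Sing c v then (1 : ℚ) else 0) =
      if ∃ v, Sing c v then ((p : ℚ) - 1) else 0 := by
  by_cases h : ∃ v, Sing c v
  · rw [if_pos h]
    obtain ⟨v, hv⟩ := h
    rw [Finset.sum_ite, Finset.sum_const_zero, add_zero, Finset.sum_const, nsmul_eq_mul, mul_one]
    have e : univ.filter (fun w => Sing c w) = (univ.erase (0 : ZMod p)).image (fun t => t • v) := by
      ext w
      simp only [mem_filter, mem_univ, true_and, mem_image, mem_erase, and_true]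
      constructor
      · intro hw
        obtain ⟨t, ht, h1⟩ := sing_unique c hc v w hv hw
        exact ⟨t, ht, h1.symm⟩
      · rintro ⟨t, ht, rfl⟩
        exact (sing_smul c v t ht).2 hv
    rw [e, Finset.card_image_of_injective, Finset.card_erase_of_mem (mem_univ _), card_univ, ZMod.card]
    · rw [Nat.cast_sub (Nat.Prime.one_lt Fact.out).le]
      simp
    · intro s t hst
      have h0 : (s - t) • v = 0 := by
        rw [sub_smul]
        exact sub_eq_zero.2 hst
      rcases smul_eq_zero.1 h0 with h1 | h1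
      · exact sub_eq_zero.1 h1
      · exact absurd h1 hv.1
  · rw [if_neg h, Finset.sum_eq_zero]
    intro v _
    rw [if_neg]
    exact fun hv => h ⟨v, hv⟩

/-- shear along the first two coordinates -/
def shear (a b : ZMod p) : (Fin 3 → ZMod p) ≃ₗ[ZMod p] (Fin 3 → ZMod p) where
  toFun v := ![v 0 + a * v 2, v 1 + b * v 2, v 2]
  invFun v := ![v 0 - a * v 2, v 1 - b * v 2, v 2]
  map_add' v w := by
    funext i
    fin_cases i
    · show v 0 + w 0 + a * (v 2 + w 2) = (v 0 + a * v 2) + (w 0 + a * w 2); ring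
    · show v 1 + w 1 + b * (v 2 + w 2) = (v 1 + b * v 2) + (w 1 + b * w 2); ring
    · rfl
  map_smul' t v := by
    funext i
    fin_cases i
    · show t * v 0 + a * (t * v 2) = t * (v 0 + a * v 2); ring
    · show t * v 1 + b * (t * v 2) = t * (v 1 + b * v 2); ring
    · rfl
  left_inv v := by
    funext i
    fin_cases i
    · show v 0 + a * v 2 - a * v 2 = v 0; ring
    · show v 1 + b * v 2 - b * v 2 = v 1; ring
    · rfl
  right_inv v := by
    funext i
    fin_cases i
    · show v 0 - a * v 2 + a * v 2 = v 0; ring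
    · show v 1 - b * v 2 + b * v 2 = v 1; ring
    · rfl

/-- maps `(0,1,0)` to `(a,b,0)`, `b ≠ 0` -/
def gl1 (a b : ZMod p) (hb : b ≠ 0) : (Fin 3 → ZMod p) ≃ₗ[ZMod p] (Fin 3 → ZMod p) where
  toFun v := ![v 0 + a * v 1, b * v 1, v 2]
  invFun v := ![v 0 - a * (b⁻¹ * v 1), b⁻¹ * v 1, v 2]
  map_add' v w := by
    funext i
    fin_cases i
    · show v 0 + w 0 + a * (v 1 + w 1) = (v 0 + a * v 1) + (w 0 + a * w 1); ring
    · show b * (v 1 + w 1) = (b * v 1) + (b * w 1); ring
    · rfl
  map_smul' t v := by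
    funext i
    fin_cases i
    · show t * v 0 + a * (t * v 1) = t * (v 0 + a * v 1); ring
    · show b * (t * v 1) = t * (b * v 1); ring
    · rfl
  left_inv v := by
    funext i
    fin_cases i
    · show v 0 + a * v 1 - a * (b⁻¹ * (b * v 1)) = v 0
      rw [inv_mul_cancel_left₀ hb]; ring
    · show b⁻¹ * (b * v 1) = v 1
      rw [inv_mul_cancel_left₀ hb]
    · rfl
  right_inv v := by
    funext i
    fin_cases i
    · show v 0 - a * (b⁻¹ * v 1) + a * (b⁻¹ * v 1) = v 0; ring
    · show b * (b⁻¹ * v 1) = v 1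
      rw [mul_inv_cancel_left₀ hb]
    · rfl

/-- maps `(0,1,0)` to `(a,0,0)`, `a ≠ 0` -/
def gl2 (a : ZMod p) (ha : a ≠ 0) : (Fin 3 → ZMod p) ≃ₗ[ZMod p] (Fin 3 → ZMod p) where
  toFun v := ![a * v 1, v 0, v 2]
  invFun v := ![v 1, a⁻¹ * v 0, v 2]
  map_add' v w := by
    funext i
    fin_cases i
    · show a * (v 1 + w 1) = a * v 1 + a * w 1; ring
    · rfl
    · rfl
  map_smul' t v := by
    funext i
    fin_cases i
    · show a * (t * v 1) = t * (a * v 1); ring
    · rfl
    · rfl
  left_inv v := by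
    funext i
    fin_cases i
    · rfl
    · show a⁻¹ * (a * v 1) = v 1
      rw [inv_mul_cancel_left₀ ha]
    · rfl
  right_inv v := by
    funext i
    fin_cases i
    · show a * (a⁻¹ * v 0) = v 0
      rw [mul_inv_cancel_left₀ ha]
    · rfl
    · rfl

open Classical in
theorem T1 (hp : 5 ≤ p) (v : Fin 3 → ZMod p) (hv : v 2 ≠ 0) :
    (∑ c : Co p, if ¬ HasLine c ∧ Sing c v then ((Na c).choose 10 : ℚ) else 0) =
      ∑ c : Co p, if ¬ HasLine c ∧ Sing c ![0, 0, 1] then ((Na c).choose 10 : ℚ) else 0 := by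
  rw [← transport hp (shear (v 0 / v 2) (v 1 / v 2)) (fun v => rfl) ![0, 0, 1]]
  have e : v = v 2 • (shear (v 0 / v 2) (v 1 / v 2)) ![0, 0, 1] := by
    funext i
    fin_cases i
    · show v 0 = v 2 * (0 + v 0 / v 2 * 1)
      field_simp
      ring
    · show v 1 = v 2 * (0 + v 1 / v 2 * 1)
      field_simp
      ring
    · show v 2 = v 2 * 1
      ring
  refine Finset.sum_congr rfl (fun c _ => ?_)
  have hS : Sing c v ↔ Sing c ((shear (v 0 / v 2) (v 1 / v 2)) ![0, 0, 1]) := by
    conv_lhs => rw [e]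
    exact sing_smul c _ _ hv
  rw [hS]

open Classical in
theorem T2 (hp : 5 ≤ p) (v : Fin 3 → ZMod p) (hv : v 2 = 0) (hv0 : v ≠ 0) :
    (∑ c : Co p, if ¬ HasLine c ∧ Sing c v then ((Na c).choose 10 : ℚ) else 0) =
      ∑ c : Co p, if ¬ HasLine c ∧ Sing c ![0, 1, 0] then ((Na c).choose 10 : ℚ) else 0 := by
  by_cases h1 : v 1 = 0
  · have h0 : v 0 ≠ 0 := by
      intro h0
      apply hv0
      funext i
      fin_cases i
      exacts [h0, h1, hv]
    rw [← transport hp (gl2 (v 0) h0) (fun v => rfl) ![0, 1, 0]]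
    have e : v = (gl2 (v 0) h0) ![0, 1, 0] := by
      funext i
      fin_cases i
      · show v 0 = v 0 * 1
        ring
      · exact h1
      · exact hv
    rw [← e]
  · rw [← transport hp (gl1 (v 0) (v 1) h1) (fun v => rfl) ![0, 1, 0]]
    have e : v = (gl1 (v 0) (v 1) h1) ![0, 1, 0] := by
      funext i
      fin_cases i
      · show v 0 = 0 + v 0 * 1
        ring
      · show v 1 = v 1 * 1
        ring
      · exact hv
    rw [← e]

theorem sum3 (F : (Fin 3 → ZMod p) → ℚ) : (∑ v, F v) = ∑ x, ∑ y, ∑ z, F ![x, y, z] := by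
  let e : ZMod p × ZMod p × ZMod p ≃ (Fin 3 → ZMod p) :=
    { toFun := fun t => ![t.1, t.2.1, t.2.2]
      invFun := fun v => (v 0, v 1, v 2)
      left_inv := fun t => rfl
      right_inv := fun v => by
        funext i
        fin_cases i <;> rfl }
  rw [← Equiv.sum_comp e F, Fintype.sum_prod_type]
  refine Finset.sum_congr rfl (fun x _ => ?_)
  rw [Fintype.sum_prod_type]
  rfl

open Classical in
theorem total (a b : ℚ) : (∑ v : Fin 3 → ZMod p, if v 2 ≠ 0 then a else if v = 0 then 0 else b) =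
    (p - 1) * ((p : ℚ) ^ 2 * a + (p + 1) * b) := by
  have h1 : ∀ v : Fin 3 → ZMod p, (if v 2 ≠ 0 then a else if v = 0 then 0 else b) =
      (a + (if v 2 = 0 then (b - a) else 0)) - (if v = 0 then b else 0) := by
    intro v
    by_cases h0 : v = 0
    · rw [h0]
      simp
    · by_cases h2 : v 2 = 0
      · simp [h0, h2]
      · simp [h0, h2]
  rw [Finset.sum_congr rfl (fun v _ => h1 v), Finset.sum_sub_distrib, Finset.sum_ite_eq' univ (0 : Fin 3 → ZMod p),
    if_pos (mem_univ _), sum3]
  have h2 : ∀ x y : ZMod p, (∑ z : ZMod p, (a + (if (![x, y, z] : Fin 3 → ZMod p) 2 = 0 then (b - a) else 0))) =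
      p * a + (b - a) := by
    intro x y
    have : ∀ z : ZMod p, (![x, y, z] : Fin 3 → ZMod p) 2 = z := fun z => rfl
    simp only [this]
    rw [Finset.sum_add_distrib, Finset.sum_ite_eq' univ (0 : ZMod p), if_pos (mem_univ _), Finset.sum_const,
      card_univ, ZMod.card, nsmul_eq_mul]
  simp only [h2, Finset.sum_const, card_univ, ZMod.card, nsmul_eq_mul]
  ring

end

end B9

open Classical in
theorem sum_singular (p : ℕ) [Fact p.Prime] (hp : 5 ≤ p) :
    (∑ c : Co p, if ¬ HasLine c ∧ (∃ v, Sing c v) then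
          ((Nat.card {P : ZMod p × ZMod p // cub c P = 0}).choose 10 : ℚ) else 0) =
      (p : ℚ) ^ 2 * (∑ f : Fin 3 → ZMod p, ∑ g : Fin 4 → ZMod p,
        if Cop f g then ((p + 2 - zer (bq f) - zer (bc g)).choose 10 : ℚ) else 0)
      + (p + 1) * (∑ f : Fin 3 → ZMod p, ∑ g : Fin 4 → ZMod p,
        if Cop f g then ((p - Nat.card {m : ZMod p // bq f (m, 1) = 0}).choose 10 : ℚ) else 0) := by
  have hp1 : (p : ℚ) - 1 ≠ 0 := by
    have : (5 : ℚ) ≤ p := by exact_mod_cast hp
    intro h
    linarith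
  refine mul_left_cancel₀ hp1 ?_
  rw [← B9.S1_eq, ← B9.S2_eq, ← B9.total]
  have h1 : ∀ v : Fin 3 → ZMod p,
      (if v 2 ≠ 0 then (∑ c : Co p, if ¬ HasLine c ∧ Sing c ![0, 0, 1] then ((B9.Na c).choose 10 : ℚ) else 0)
        else if v = 0 then 0 else
        (∑ c : Co p, if ¬ HasLine c ∧ Sing c ![0, 1, 0] then ((B9.Na c).choose 10 : ℚ) else 0)) =
      ∑ c : Co p, if ¬ HasLine c ∧ Sing c v then ((B9.Na c).choose 10 : ℚ) else 0 := by
    intro v
    by_cases h2 : v 2 = 0
    · by_cases h0 : v = 0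
      · rw [if_neg (not_not.2 h2), if_pos h0, Finset.sum_eq_zero]
        intro c _
        rw [if_neg]
        exact fun h => h.2.1 h0
      · rw [if_neg (not_not.2 h2), if_neg h0, B9.T2 hp v h2 h0]
    · rw [if_pos h2, B9.T1 hp v h2]
  rw [Finset.sum_congr rfl (fun v _ => h1 v), Finset.sum_comm, Finset.mul_sum]
  refine Finset.sum_congr rfl (fun c _ => ?_)
  by_cases hL : HasLine c
  · rw [if_neg (fun h => h.1 hL), mul_zero, Finset.sum_eq_zero]
    intro v _
    rw [if_neg (fun h => h.1 hL)]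
  · have h3 := B9.count_sing c hL
    have h4 : ∀ v : Fin 3 → ZMod p, (if ¬ HasLine c ∧ Sing c v then ((B9.Na c).choose 10 : ℚ) else 0) =
        (if Sing c v then (1 : ℚ) else 0) * ((B9.Na c).choose 10 : ℚ) := by
      intro v
      by_cases h5 : Sing c v
      · rw [if_pos ⟨hL, h5⟩, if_pos h5, one_mul]
      · rw [if_neg (fun h => h5 h.2), if_neg h5, zero_mul]
    rw [Finset.sum_congr rfl (fun v _ => h4 v), ← Finset.sum_mul, h3]
    by_cases h6 : ∃ v, Sing c v
    · rw [if_pos h6, if_pos ⟨hL, h6⟩]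
      rfl
    · rw [if_neg h6, if_neg (fun h => h6 h.2), mul_zero, zero_mul]

end Pool.Agent.T2H70.SR
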