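import Pool.Agent.T2H70.SR.S0

set_option autoImplicit false

/-!
# Package S2: symmetry

`GL_3(𝔽_p)` acts transitively on the nonzero `l` (resp. `v`, resp. pairs `(v, l)`, both nonzero with `dot3 l v = 0`), and by `exists_subst`
on the coefficient vectors; so the sums over all `l` (resp. `v`, resp. flags) are multiples of the sum for a fixed one.
The number of pairs `(v, l)` with `v, l ≠ 0`, `dot3 l v = 0` is `(p³-1)(p²-1)`; `Np c (p - 1)` is the number of nonzero
`v` with `form c v = 0`, and `fl c (p-1)²` the number of pairs `(v, l)` with `Flex c v l`.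
-/

namespace Pool.Agent.T2H70.SR

open Finset
open scoped BigOperators

namespace S2h

/-- `dot3 l` as a linear functional -/
def dotL {p : ℕ} (l : Fin 3 → ZMod p) : (Fin 3 → ZMod p) →ₗ[ZMod p] ZMod p where
  toFun v := dot3 l v
  map_add' v w := by
    simp only [dot3, Pi.add_apply]
    ring
  map_smul' t v := by
    simp only [dot3, Pi.smul_apply, smul_eq_mul, RingHom.id_apply]
    ring

theorem dotL_apply {p : ℕ} (l v : Fin 3 → ZMod p) : dotL l v = dot3 l v := rfl

theorem dot3_comm {p : ℕ} (l v : Fin 3 → ZMod p) : dot3 l v = dot3 v l := by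
  simp only [dot3]
  ring

theorem exists_dot_one {p : ℕ} [Fact p.Prime] {l : Fin 3 → ZMod p} (hl : l ≠ 0) :
    ∃ w, dot3 l w = 1 := by
  obtain ⟨i, hi⟩ := Function.ne_iff.mp hl
  simp only [Pi.zero_apply] at hi
  refine ⟨Pi.single i (l i)⁻¹, ?_⟩
  fin_cases i <;> simp [dot3] <;> simpa using mul_inv_cancel₀ hi

theorem exists_orth {p : ℕ} [Fact p.Prime] (v : Fin 3 → ZMod p) :
    ∃ l : Fin 3 → ZMod p, l ≠ 0 ∧ dot3 l v = 0 := by
  by_cases h : v 0 = 0
  · refine ⟨![1, 0, 0], ?_, ?_⟩
    · intro h1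
      have := congrFun h1 0
      simp at this
    · simp [dot3, h]
  · refine ⟨![v 1, - v 0, 0], ?_, ?_⟩
    · intro h1
      have := congrFun h1 1
      simp at this
      exact h this
    · simp only [dot3, Matrix.cons_val_zero, Matrix.cons_val_one]
      have : (![v 1, -v 0, 0] : Fin 3 → ZMod p) 2 = 0 := rfl
      rw [this]
      ring

/-- a vector in the kernel of `l` independent from `v` -/
theorem exists_ker {p : ℕ} [Fact p.Prime] (v l : Fin 3 → ZMod p) :
    ∃ w, dot3 l w = 0 ∧ w ∉ Submodule.span (ZMod p) {v} := by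
  by_contra hcon
  push Not at hcon
  have hle : LinearMap.ker (dotL l) ≤ Submodule.span (ZMod p) {v} := by
    intro w hw
    exact hcon w (LinearMap.mem_ker.mp hw)
  have h1 := LinearMap.finrank_range_add_finrank_ker (dotL l)
  have h2 : Module.finrank (ZMod p) (LinearMap.range (dotL l)) ≤ 1 := by
    have := Submodule.finrank_le (LinearMap.range (dotL l))
    simpa using this
  have h3 : Module.finrank (ZMod p) (LinearMap.ker (dotL l)) ≤ 1 :=
    (Submodule.finrank_mono hle).trans ((finrank_span_le_card {v}).trans (by simp))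
  have h4 : Module.finrank (ZMod p) (Fin 3 → ZMod p) = 3 := by simp
  omega

/-- transitivity on flags -/
theorem exists_g {p : ℕ} [Fact p.Prime] {v l : Fin 3 → ZMod p} (hv : v ≠ 0) (hl : l ≠ 0)
    (h : dot3 l v = 0) :
    ∃ g : (Fin 3 → ZMod p) ≃ₗ[ZMod p] (Fin 3 → ZMod p), g ![0, 1, 0] = v ∧
      ∀ w, dot3 l (g w) = dot3 ![0, 0, 1] w := by
  obtain ⟨w3, hw3⟩ := exists_dot_one hl
  obtain ⟨w1, hw1, hw1'⟩ := exists_ker v l
  set f : (Fin 3 → ZMod p) →ₗ[ZMod p] (Fin 3 → ZMod p) :=
    { toFun := fun w => w 0 • w1 + w 1 • v + w 2 • w3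
      map_add' := by
        intro a b
        simp only [Pi.add_apply, add_smul]
        abel
      map_smul' := by
        intro t a
        simp only [Pi.smul_apply, smul_eq_mul, RingHom.id_apply, smul_add, smul_smul] } with hf
  have hfa : ∀ w, f w = w 0 • w1 + w 1 • v + w 2 • w3 := fun w => rfl
  have hdot : ∀ w, dot3 l (f w) = w 2 := by
    intro w
    rw [← dotL_apply, hfa, map_add, map_add, map_smul, map_smul, map_smul, dotL_apply, dotL_apply,
      dotL_apply, hw1, h, hw3]
    simp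
  have hinj : Function.Injective f := by
    rw [← LinearMap.ker_eq_bot, LinearMap.ker_eq_bot']
    intro w hw
    have h2 : w 2 = 0 := by
      rw [← hdot w, hw]
      simp [dot3]
    have h0 : w 0 = 0 := by
      by_contra h0
      apply hw1'
      rw [hfa, h2, zero_smul, add_zero] at hw
      rw [Submodule.mem_span_singleton]
      refine ⟨- ((w 0)⁻¹ * w 1), ?_⟩
      have h3 : w 0 • w1 = - (w 1 • v) := eq_neg_of_add_eq_zero_left hw
      have h4 : w1 = (w 0)⁻¹ • (w 0 • w1) := by
        rw [smul_smul, inv_mul_cancel₀ h0, one_smul]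
      rw [h4, h3, neg_smul, smul_neg, smul_smul]
    have h1 : w 1 = 0 := by
      by_contra h1
      apply hv
      rw [hfa, h2, h0, zero_smul, zero_add, zero_smul, add_zero] at hw
      exact (smul_eq_zero.mp hw).resolve_left h1
    funext i
    fin_cases i
    · exact h0
    · exact h1
    · exact h2
  refine ⟨LinearEquiv.ofInjectiveEndo f hinj, ?_, ?_⟩
  · rw [LinearEquiv.coe_ofInjectiveEndo, hfa]
    simp
  · intro w
    rw [LinearEquiv.coe_ofInjectiveEndo, hdot]
    simp [dot3]

/-- `Flex` under a substitution -/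
theorem flex_subst {p : ℕ} [Fact p.Prime] {g : (Fin 3 → ZMod p) ≃ₗ[ZMod p] (Fin 3 → ZMod p)}
    {σ : Co p ≃ Co p} (h1 : ∀ c v, form (σ c) v = form c (g v))
    (h2 : ∀ c v w, dform (σ c) v w = dform c (g v) (g w)) {l l' v' : Fin 3 → ZMod p}
    (hl : l ≠ 0) (hl' : l' ≠ 0)
    (hd : ∀ w, dot3 l (g w) = dot3 l' w) (c : Co p) :
    Flex (σ c) v' l' ↔ Flex c (g v') l := by
  unfold Flex
  constructor
  · rintro ⟨a1, a2, a3, a4, a5⟩
    refine ⟨fun h => a1 ((LinearEquiv.map_eq_zero_iff g).mp h), hl, by rw [hd, a3],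
      by rw [← h1, a4], ?_⟩
    intro w hw
    obtain ⟨w', rfl⟩ := g.surjective w
    rw [← h2, ← h2]
    exact a5 w' (by rw [← hd, hw])
  · rintro ⟨a1, a2, a3, a4, a5⟩
    refine ⟨fun h => a1 (by rw [h, map_zero]), hl', by rw [← hd, a3], by rw [h1, a4], ?_⟩
    intro w hw
    rw [h2, h2]
    exact a5 (g w) (by rw [hd, hw])

theorem card_co (p : ℕ) [Fact p.Prime] : (Fintype.card (Fin 3 → ZMod p) : ℚ) = (p : ℚ) ^ 3 := by
  rw [Fintype.card_fun, ZMod.card, Fintype.card_fin]
  push_cast
  ring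

open Classical in
theorem sum_ne_zero_const (p : ℕ) [Fact p.Prime] (S : ℚ) :
    (∑ l : Fin 3 → ZMod p, if l = 0 then 0 else S) = ((p : ℚ) ^ 3 - 1) * S := by
  have h : ∀ l : Fin 3 → ZMod p, (if l = 0 then (0 : ℚ) else S) = S - if l = 0 then S else 0 := by
    intro l
    split_ifs <;> ring
  rw [Finset.sum_congr rfl (fun l _ => h l), Finset.sum_sub_distrib, Finset.sum_const,
    Finset.card_univ, nsmul_eq_mul, card_co, Finset.sum_ite_eq' Finset.univ (0 : Fin 3 → ZMod p)]
  simp only [Finset.mem_univ, if_true]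
  ring

theorem e1_ne {p : ℕ} [Fact p.Prime] : (![0, 1, 0] : Fin 3 → ZMod p) ≠ 0 := by
  intro h
  have := congrFun h 1
  simp at this

theorem e2_ne {p : ℕ} [Fact p.Prime] : (![0, 0, 1] : Fin 3 → ZMod p) ≠ 0 := by
  intro h
  have := congrFun h 2
  simp at this

/-- the number of affine points -/
theorem aff_e2 {p : ℕ} [Fact p.Prime] (c : Co p) :
    aff c ![0, 0, 1] = Nat.card {P : ZMod p × ZMod p // cub c P = 0} := by
  unfold aff
  refine Nat.card_congr
    { toFun := fun v => ⟨(v.1 0, v.1 1), ?_⟩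
      invFun := fun P => ⟨![P.1.1, P.1.2, 1], ?_⟩
      left_inv := ?_
      right_inv := ?_ }
  · have h1 : form c v.1 = 0 := v.2.1
    have h2 : v.1 2 = 1 := by
      have := v.2.2
      simpa [dot3] using this
    have h3 : v.1 = ![v.1 0, v.1 1, 1] := by
      funext i
      fin_cases i
      · rfl
      · rfl
      · exact h2
    show form c ![v.1 0, v.1 1, 1] = 0
    rw [← h3]
    exact h1
  · refine ⟨P.2, ?_⟩
    simp [dot3]
  · intro v
    have h2 : v.1 2 = 1 := by
      have := v.2.2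
      simpa [dot3] using this
    apply Subtype.ext
    funext i
    fin_cases i
    · rfl
    · rfl
    · exact h2.symm
  · intro P
    rfl

end S2h

open S2h

open Classical in
theorem sum_aff (p : ℕ) [Fact p.Prime] (hp : 5 ≤ p) (G : ℕ → ℚ) :
    (∑ c : Co p, if Ns c then (∑ l : Fin 3 → ZMod p, if l = 0 then 0 else G (aff c l)) else 0) =
      ((p : ℚ) ^ 3 - 1) * ∑ c : Co p, if Ns c then
        G (Nat.card {P : ZMod p × ZMod p // cub c P = 0}) else 0 := by
  have h1 : (∑ c : Co p, if Ns c then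
      (∑ l : Fin 3 → ZMod p, if l = 0 then 0 else G (aff c l)) else 0) =
      ∑ l : Fin 3 → ZMod p, if l = 0 then 0 else ∑ c : Co p, if Ns c then G (aff c l) else 0 := by
    have h2 : ∀ c : Co p, (if Ns c then
        (∑ l : Fin 3 → ZMod p, if l = 0 then (0 : ℚ) else G (aff c l)) else 0) =
        ∑ l : Fin 3 → ZMod p, if l = 0 then 0 else if Ns c then G (aff c l) else 0 := by
      intro c
      split_ifs with hc
      · rfl
      · rw [Finset.sum_eq_zero]
        intro l _
        split_ifs <;> rfl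
    rw [Finset.sum_congr rfl (fun c _ => h2 c), Finset.sum_comm]
    apply Finset.sum_congr rfl
    intro l _
    split_ifs
    · simp
    · rfl
  rw [h1, ← sum_ne_zero_const p]
  apply Finset.sum_congr rfl
  intro l _
  split_ifs with hl
  · rfl
  · obtain ⟨v, hv, hvl⟩ := exists_orth l
    rw [dot3_comm] at hvl
    obtain ⟨g, -, hg⟩ := exists_g hv hl hvl
    obtain ⟨σ, s1, s2⟩ := exists_subst p hp g
    have h3 : ∀ c, aff (σ c) ![0, 0, 1] = aff c l := by
      intro c
      unfold aff
      refine Nat.card_congr (Equiv.subtypeEquiv g.toEquiv ?_)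
      intro w
      show (form (σ c) w = 0 ∧ dot3 ![0, 0, 1] w = 1) ↔ (form c (g w) = 0 ∧ dot3 l (g w) = 1)
      rw [s1, hg]
    rw [← Equiv.sum_comp σ (fun c => if Ns c then
      G (Nat.card {P : ZMod p × ZMod p // cub c P = 0}) else 0)]
    apply Finset.sum_congr rfl
    intro c _
    have h4 := (subst_invariants p hp g σ s1 s2 c).2.1
    rw [← aff_e2, h3]
    by_cases hc : Ns c
    · rw [if_pos hc, if_pos (h4.mpr hc)]
    · rw [if_neg hc, if_neg (fun h => hc (h4.mp h))]

open Classical in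
theorem sum_points (p : ℕ) [Fact p.Prime] (hp : 5 ≤ p) (g : ℚ → ℚ) :
    (∑ c : Co p, if Ns c then Np c * g (Np c) else 0) =
      ((p : ℚ) ^ 2 + p + 1) * ∑ c : Co p, if Ns c ∧ form c ![0, 1, 0] = 0 then g (Np c) else 0 := by
  have hp5 : (5 : ℚ) ≤ p := by exact_mod_cast hp
  have hp1 : (p : ℚ) - 1 ≠ 0 := by linarith
  set S : ℚ := ∑ c : Co p, if Ns c ∧ form c ![0, 1, 0] = 0 then g (Np c) else 0 with hS
  have h1 : ((p : ℚ) - 1) * (∑ c : Co p, if Ns c then Np c * g (Np c) else 0) =
      ∑ v : Fin 3 → ZMod p, if v = 0 then 0 else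
        ∑ c : Co p, if Ns c ∧ form c v = 0 then g (Np c) else 0 := by
    have h2 : ∀ c : Co p, ((p : ℚ) - 1) * (if Ns c then Np c * g (Np c) else 0) =
        ∑ v : Fin 3 → ZMod p, if v = 0 then 0 else if Ns c ∧ form c v = 0 then g (Np c) else 0 := by
      intro c
      by_cases hc : Ns c
      · rw [if_pos hc]
        have h3 : ((p : ℚ) - 1) * (Np c * g (Np c)) =
            (Nat.card {v : Fin 3 → ZMod p // v ≠ 0 ∧ form c v = 0} : ℚ) * g (Np c) := by
          rw [← mul_assoc]
          congr 1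
          unfold Np
          field_simp
        rw [h3, Nat.card_eq_fintype_card, Fintype.card_subtype, ← nsmul_eq_mul,
          ← Finset.sum_const, Finset.sum_filter]
        apply Finset.sum_congr rfl
        intro v _
        by_cases hv : v = 0
        · simp [hv]
        · by_cases hf : form c v = 0
          · simp [hv, hf, hc]
          · simp [hv, hf]
      · rw [if_neg hc, mul_zero, Finset.sum_eq_zero]
        intro v _
        simp [hc]
    rw [Finset.mul_sum, Finset.sum_congr rfl (fun c _ => h2 c), Finset.sum_comm]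
    apply Finset.sum_congr rfl
    intro v _
    split_ifs
    · simp
    · rfl
  have h5 : ∀ v : Fin 3 → ZMod p, v ≠ 0 →
      (∑ c : Co p, if Ns c ∧ form c v = 0 then g (Np c) else 0) = S := by
    intro v hv
    obtain ⟨l, hl, hlv⟩ := exists_orth v
    obtain ⟨γ, hγ, -⟩ := exists_g hv hl hlv
    obtain ⟨σ, s1, s2⟩ := exists_subst p hp γ
    rw [hS, ← Equiv.sum_comp σ (fun c => if Ns c ∧ form c ![0, 1, 0] = 0 then g (Np c) else 0)]
    apply Finset.sum_congr rfl
    intro c _
    obtain ⟨-, h4, h6, -⟩ := subst_invariants p hp γ σ s1 s2 c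
    rw [s1, hγ, h6]
    by_cases hc : Ns c
    · simp only [hc, h4.mpr hc]
    · have hc' : ¬ Ns (σ c) := fun h => hc (h4.mp h)
      simp only [hc, hc']
  have h7 : ((p : ℚ) - 1) * (∑ c : Co p, if Ns c then Np c * g (Np c) else 0) =
      ((p : ℚ) ^ 3 - 1) * S := by
    rw [h1, ← sum_ne_zero_const p]
    apply Finset.sum_congr rfl
    intro v _
    split_ifs with hv
    · rfl
    · exact h5 v hv
  apply mul_left_cancel₀ hp1
  rw [h7]
  ring

namespace S2h

theorem card_ker (p : ℕ) [Fact p.Prime] {l : Fin 3 → ZMod p} (hl : l ≠ 0) :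
    Nat.card {v : Fin 3 → ZMod p // dot3 l v = 0} = p ^ 2 := by
  obtain ⟨v, hv, hvl⟩ := exists_orth l
  rw [dot3_comm] at hvl
  obtain ⟨g, -, hg⟩ := exists_g hv hl hvl
  have h1 : Nat.card {v : Fin 3 → ZMod p // dot3 l v = 0} = Nat.card (ZMod p × ZMod p) := by
    symm
    refine Nat.card_congr
      { toFun := fun P => ⟨g ![P.1, P.2, 0], ?_⟩
        invFun := fun w => ((g.symm w.1) 0, (g.symm w.1) 1)
        left_inv := ?_
        right_inv := ?_ }
    · rw [hg]
      simp [dot3]
    · intro P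
      simp
    · intro w
      have h2 : (g.symm w.1) 2 = 0 := by
        have h3 := hg (g.symm w.1)
        rw [LinearEquiv.apply_symm_apply, w.2] at h3
        simpa [dot3] using h3.symm
      apply Subtype.ext
      show g ![(g.symm w.1) 0, (g.symm w.1) 1, 0] = w.1
      have h4 : (![(g.symm w.1) 0, (g.symm w.1) 1, 0] : Fin 3 → ZMod p) = g.symm w.1 := by
        funext i
        fin_cases i
        · rfl
        · rfl
        · exact h2.symm
      rw [h4, LinearEquiv.apply_symm_apply]
  rw [h1, Nat.card_prod, Nat.card_zmod]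
  ring

open Classical in
theorem sum_flag_const (p : ℕ) [Fact p.Prime] (S : ℚ) :
    (∑ v : Fin 3 → ZMod p, ∑ l : Fin 3 → ZMod p,
      if v ≠ 0 ∧ l ≠ 0 ∧ dot3 l v = 0 then S else 0) = ((p : ℚ) ^ 3 - 1) * ((p : ℚ) ^ 2 - 1) * S := by
  rw [Finset.sum_comm]
  have h1 : ∀ l : Fin 3 → ZMod p, (∑ v : Fin 3 → ZMod p,
      if v ≠ 0 ∧ l ≠ 0 ∧ dot3 l v = 0 then S else 0) =
      if l = 0 then 0 else ((p : ℚ) ^ 2 - 1) * S := by
    intro l
    split_ifs with hl
    · simp [hl]
    · have h2 : ∀ v : Fin 3 → ZMod p, (if v ≠ 0 ∧ l ≠ 0 ∧ dot3 l v = 0 then S else 0) =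
          (if dot3 l v = 0 then S else 0) - if v = 0 then S else 0 := by
        intro v
        by_cases hv : v = 0
        · simp [hv, dot3]
        · by_cases h3 : dot3 l v = 0
          · simp [hv, hl, h3]
          · simp [hv, h3]
      rw [Finset.sum_congr rfl (fun v _ => h2 v), Finset.sum_sub_distrib,
        Finset.sum_ite_eq' Finset.univ (0 : Fin 3 → ZMod p), ← Finset.sum_filter,
        Finset.sum_const, nsmul_eq_mul]
      have h4 : (Finset.univ.filter (fun v : Fin 3 → ZMod p => dot3 l v = 0)).card = p ^ 2 := by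
        rw [← card_ker p hl, Nat.card_eq_fintype_card, Fintype.card_subtype]
      rw [h4]
      simp only [Finset.mem_univ, if_true]
      push_cast
      ring
  rw [Finset.sum_congr rfl (fun l _ => h1 l), sum_ne_zero_const]
  ring

end S2h

open Classical in
theorem sum_flexes (p : ℕ) [Fact p.Prime] (hp : 5 ≤ p) (g : ℚ → ℚ) :
    (∑ c : Co p, if Ns c then fl c * g (Np c) else 0) =
      ((p : ℚ) ^ 2 + p + 1) * (p + 1) *
        ∑ c : Co p, if Ns c ∧ Flex c ![0, 1, 0] ![0, 0, 1] then g (Np c) else 0 := by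
  have hp5 : (5 : ℚ) ≤ p := by exact_mod_cast hp
  have hp1 : (p : ℚ) - 1 ≠ 0 := by linarith
  set S : ℚ := ∑ c : Co p, if Ns c ∧ Flex c ![0, 1, 0] ![0, 0, 1] then g (Np c) else 0 with hS
  have h1 : ((p : ℚ) - 1) ^ 2 * (∑ c : Co p, if Ns c then fl c * g (Np c) else 0) =
      ∑ v : Fin 3 → ZMod p, ∑ l : Fin 3 → ZMod p,
        ∑ c : Co p, if Ns c ∧ Flex c v l then g (Np c) else 0 := by
    have h2 : ∀ c : Co p, ((p : ℚ) - 1) ^ 2 * (if Ns c then fl c * g (Np c) else 0) =
        ∑ x : (Fin 3 → ZMod p) × (Fin 3 → ZMod p),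
          if Ns c ∧ Flex c x.1 x.2 then g (Np c) else 0 := by
      intro c
      by_cases hc : Ns c
      · rw [if_pos hc]
        have h3 : ((p : ℚ) - 1) ^ 2 * (fl c * g (Np c)) =
            (Nat.card {x : (Fin 3 → ZMod p) × (Fin 3 → ZMod p) // Flex c x.1 x.2} : ℚ)
              * g (Np c) := by
          rw [← mul_assoc]
          congr 1
          unfold fl
          field_simp
        rw [h3, Nat.card_eq_fintype_card, Fintype.card_subtype, ← nsmul_eq_mul,
          ← Finset.sum_const, Finset.sum_filter]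
        apply Finset.sum_congr rfl
        intro v _
        simp [hc]
      · rw [if_neg hc, mul_zero, Finset.sum_eq_zero]
        intro v _
        simp [hc]
    rw [Finset.mul_sum, Finset.sum_congr rfl (fun c _ => h2 c), Finset.sum_comm,
      Fintype.sum_prod_type]
  have h5 : ∀ v l : Fin 3 → ZMod p,
      (∑ c : Co p, if Ns c ∧ Flex c v l then g (Np c) else 0) =
        if v ≠ 0 ∧ l ≠ 0 ∧ dot3 l v = 0 then S else 0 := by
    intro v l
    split_ifs with h
    · obtain ⟨hv, hl, hlv⟩ := h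
      obtain ⟨γ, hγ, hγ2⟩ := exists_g hv hl hlv
      obtain ⟨σ, s1, s2⟩ := exists_subst p hp γ
      rw [hS, ← Equiv.sum_comp σ
        (fun c => if Ns c ∧ Flex c ![0, 1, 0] ![0, 0, 1] then g (Np c) else 0)]
      apply Finset.sum_congr rfl
      intro c _
      obtain ⟨-, h4, h6, -⟩ := subst_invariants p hp γ σ s1 s2 c
      have h7 : Flex (σ c) ![0, 1, 0] ![0, 0, 1] ↔ Flex c v l := by
        rw [flex_subst s1 s2 hl e2_ne hγ2 c, hγ]
      rw [h6]
      by_cases hc : Ns c
      · simp only [hc, h4.mpr hc, h7]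
      · have hc' : ¬ Ns (σ c) := fun h => hc (h4.mp h)
        simp only [hc, hc', false_and, if_false]
    · apply Finset.sum_eq_zero
      intro c _
      rw [if_neg]
      rintro ⟨-, a1, a2, a3, -⟩
      exact h ⟨a1, a2, a3⟩
  have h7 : ((p : ℚ) - 1) ^ 2 * (∑ c : Co p, if Ns c then fl c * g (Np c) else 0) =
      ((p : ℚ) ^ 3 - 1) * ((p : ℚ) ^ 2 - 1) * S := by
    rw [h1, ← sum_flag_const p]
    exact Finset.sum_congr rfl fun v _ => Finset.sum_congr rfl fun l _ => h5 v l
  apply mul_left_cancel₀ (pow_ne_zero 2 hp1)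
  rw [h7]
  ring

end Pool.Agent.T2H70.SR
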