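import Pool.Agent.T2H70.SR.S0

set_option autoImplicit false

/-!
# Package S3: cubics with a given flex
-/

namespace Pool.Agent.T2H70.SR

open Finset
open scoped BigOperators

namespace PS3

variable {p : ℕ} [Fact p.Prime]

/-- the discriminant in `y` -/
def Dd (c : Co p) : Fin 5 → ZMod p :=
  ![c 8 ^ 2 - 4 * c 7 * c 9, 2 * c 4 * c 8 - 4 * c 7 * c 5, c 4 ^ 2 - 4 * c 7 * c 2,
    -4 * c 7 * c 0, 0]

lemma two_ne (hp : 5 ≤ p) : (2 : ZMod p) ≠ 0 := by
  intro h
  have h1 : ((2 : ℕ) : ZMod p) = 0 := by exact_mod_cast h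
  rw [ZMod.natCast_eq_zero_iff] at h1
  have := Nat.le_of_dvd (by norm_num) h1
  omega

lemma three_ne (hp : 5 ≤ p) : (3 : ZMod p) ≠ 0 := by
  intro h
  have h1 : ((3 : ℕ) : ZMod p) = 0 := by exact_mod_cast h
  rw [ZMod.natCast_eq_zero_iff] at h1
  have := Nat.le_of_dvd (by norm_num) h1
  omega

lemma canc {a b : ZMod p} (ha : a ≠ 0) (h : a * b = 0) : b = 0 :=
  (mul_eq_zero.1 h).resolve_left ha

lemma flex_iff (c : Co p) : Flex c ![0, 1, 0] ![0, 0, 1] ↔ c 1 = 0 ∧ c 3 = 0 ∧ c 6 = 0 := by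
  constructor
  · rintro ⟨-, -, -, h1, h2⟩
    have h6 : c 6 = 0 := by simpa [form] using h1
    have h3 := (h2 ![1, 0, 0] (by simp [dot3])).1
    have h4 := (h2 ![1, 0, 0] (by simp [dot3])).2
    simp [dform] at h3 h4
    exact ⟨h4, h3, h6⟩
  · rintro ⟨h1, h3, h6⟩
    refine ⟨fun h => ?_, fun h => ?_, by simp [dot3], by simp [form, h6], fun w hw => ?_⟩
    · have := congrFun h 1; simp at this
    · have := congrFun h 2; simp at this
    · have hw2 : w 2 = 0 := by simpa [dot3] using hw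
      simp [dform, h1, h3, h6, hw2]

lemma ns_ne (c : Co p) (h1 : c 1 = 0) (h3 : c 3 = 0) (h6 : c 6 = 0) (h : Ns c) :
    c 7 ≠ 0 ∧ c 0 ≠ 0 := by
  constructor
  · intro h7
    refine h.2 ![0, 1, 0] ⟨fun h => ?_, by simp [form, h6], fun w => ?_⟩
    · have := congrFun h 1; simp at this
    · simp [dform, h3, h6, h7]
  · intro h0
    refine h.1 ⟨![0, 0, 1], fun h => ?_, fun v hv => ?_⟩
    · have := congrFun h 2; simp at this
    · have hv2 : v 2 = 0 := by simpa [dot3] using hv
      simp [form, h0, h1, h3, h6, hv2]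

lemma qv_Dd (c : Co p) (x : ZMod p) : qv (Dd c) x =
    (c 4 * x + c 8) ^ 2 - 4 * c 7 * (c 0 * x ^ 3 + c 2 * x ^ 2 + c 5 * x + c 9) := by
  simp [qv, Dd]
  ring

lemma four_mul_cub (c : Co p) (h1 : c 1 = 0) (h3 : c 3 = 0) (h6 : c 6 = 0) (x y : ZMod p) :
    4 * c 7 * cub c (x, y) = (2 * c 7 * y + (c 4 * x + c 8)) ^ 2 - qv (Dd c) x := by
  rw [qv_Dd]
  simp [cub, form, h1, h3, h6]
  ring

lemma eval_qpol (d : Fin 5 → ZMod p) (x : ZMod p) : (qpol d).eval x = qv d x := by
  simp [qpol, Fin.sum_univ_five, qv]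

lemma eval_qpol' (d : Fin 5 → ZMod p) (x : ZMod p) : (Polynomial.derivative (qpol d)).eval x =
    d 1 + 2 * d 2 * x + 3 * d 3 * x ^ 2 + 4 * d 4 * x ^ 3 := by
  simp [qpol, Fin.sum_univ_five]
  ring

lemma coeff3 (d : Fin 5 → ZMod p) : (qpol d).coeff 3 = d 3 := by
  simp [qpol, Fin.sum_univ_five, Polynomial.coeff_X_pow]

lemma natDegree_le (d : Fin 5 → ZMod p) (h4 : d 4 = 0) : (qpol d).natDegree ≤ 3 := by
  simp only [qpol, Fin.sum_univ_five, h4, map_zero, zero_mul, add_zero]
  compute_degree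

/-- double root -/
lemma dbl (f : Polynomial (ZMod p)) (r : ZMod p) :
    (Polynomial.X - Polynomial.C r) * (Polynomial.X - Polynomial.C r) ∣ f ↔
      f.eval r = 0 ∧ (Polynomial.derivative f).eval r = 0 := by
  constructor
  · rintro ⟨q, rfl⟩
    constructor
    · simp
    · simp [Polynomial.derivative_mul]
  · rintro ⟨h1, h2⟩
    obtain ⟨q, rfl⟩ := Polynomial.dvd_iff_isRoot.2 h1
    have h3 : q.eval r = 0 := by
      simpa [Polynomial.derivative_mul] using h2
    obtain ⟨s, rfl⟩ := Polynomial.dvd_iff_isRoot.2 h3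
    exact ⟨s, by ring⟩

lemma sf_iff (d : Fin 5 → ZMod p) (h4 : d 4 = 0) : Sf4 d ↔
    d 3 ≠ 0 ∧ ∀ r, ¬ (qv d r = 0 ∧ d 1 + 2 * d 2 * r + 3 * d 3 * r ^ 2 + 4 * d 4 * r ^ 3 = 0) := by
  have hle := natDegree_le d h4
  constructor
  · rintro ⟨h1, h2⟩
    have h3 : (qpol d).natDegree = 3 := le_antisymm hle h2
    constructor
    · have h5 : (qpol d) ≠ 0 := by
        intro h; rw [h] at h3; simp at h3
      have h6 := Polynomial.leadingCoeff_ne_zero.2 h5
      rwa [Polynomial.leadingCoeff, h3, coeff3] at h6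
    · rintro r ⟨h5, h6⟩
      rw [← eval_qpol] at h5
      rw [← eval_qpol'] at h6
      have h7 := (dbl (qpol d) r).2 ⟨h5, h6⟩
      have h8 := h1 _ h7
      exact Polynomial.not_isUnit_X_sub_C r h8
  · rintro ⟨h1, h2⟩
    have h3 : 3 ≤ (qpol d).natDegree := by
      refine Polynomial.le_natDegree_of_ne_zero ?_
      rwa [coeff3]
    have hne : qpol d ≠ 0 := by
      intro h; rw [h] at h3; simp at h3
    refine ⟨?_, h3⟩
    rw [squarefree_iff_irreducible_sq_not_dvd_of_ne_zero hne]
    intro q hq hdvd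
    have h5 : (q * q).natDegree ≤ 3 := (Polynomial.natDegree_le_of_dvd hdvd hne).trans hle
    rw [Polynomial.natDegree_mul hq.ne_zero hq.ne_zero] at h5
    have h6 : 0 < q.natDegree := hq.natDegree_pos
    have h7 : q.degree = 1 := by
      rw [Polynomial.degree_eq_natDegree hq.ne_zero]
      have : q.natDegree = 1 := by omega
      rw [this]
      rfl
    obtain ⟨r, hr⟩ := Polynomial.exists_root_of_degree_eq_one h7
    have h8 := Polynomial.dvd_iff_isRoot.2 hr
    have h9 := (dbl (qpol d) r).1 ((mul_dvd_mul h8 h8).trans hdvd)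
    rw [eval_qpol, eval_qpol'] at h9
    exact h2 r h9

lemma ns_iff (hp : 5 ≤ p) (c : Co p) (h1 : c 1 = 0) (h3 : c 3 = 0) (h6 : c 6 = 0) (h7 : c 7 ≠ 0) :
    Ns c ↔ Sf4 (Dd c) := by
  have t2 := two_ne hp
  have t3 := three_ne hp
  have d4 : Dd c 4 = 0 := by simp [Dd]
  have e3 : Dd c 3 = -4 * c 7 * c 0 := by simp [Dd]
  have e2 : Dd c 2 = c 4 ^ 2 - 4 * c 7 * c 2 := by simp [Dd]
  have e1 : Dd c 1 = 2 * c 4 * c 8 - 4 * c 7 * c 5 := by simp [Dd]
  rw [sf_iff _ d4, e3, e2, e1, d4]
  have t4 : (4 : ZMod p) ≠ 0 := by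
    have : (4 : ZMod p) = 2 * 2 := by norm_num
    rw [this]
    exact mul_ne_zero t2 t2
  constructor
  · intro h
    obtain ⟨-, h0⟩ := ns_ne c h1 h3 h6 h
    refine ⟨mul_ne_zero (mul_ne_zero (neg_ne_zero.2 t4) h7) h0, ?_⟩
    rintro r ⟨hr1, hr2⟩
    obtain ⟨y, hy⟩ : ∃ y, 2 * c 7 * y + (c 4 * r + c 8) = 0 :=
      ⟨-(c 4 * r + c 8) / (2 * c 7), by field_simp; ring⟩
    have hf : cub c (r, y) = 0 := by
      have h5 := four_mul_cub c h1 h3 h6 r y
      rw [hy, hr1] at h5
      have h8 : 4 * c 7 ≠ 0 := mul_ne_zero t4 h7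
      refine (mul_eq_zero.1 ?_).resolve_left h8
      rw [h5]; ring
    have hx : 3 * c 0 * r ^ 2 + 2 * c 2 * r + c 4 * y + c 5 = 0 := by
      have h8 : 4 * c 7 ≠ 0 := mul_ne_zero t4 h7
      refine (mul_eq_zero.1 ?_).resolve_left h8
      linear_combination 2 * c 4 * hy - hr2
    refine h.2 ![r, y, 1] ⟨fun h => ?_, hf, fun w => ?_⟩
    · have := congrFun h 2; simp at this
    · have hf' : c 0 * r ^ 3 + c 2 * r ^ 2 + c 4 * r * y + c 5 * r + c 7 * y ^ 2 + c 8 * y + c 9 =
          0 := by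
        simpa [cub, form, h1, h3, h6] using hf
      simp only [dform, Matrix.cons_val_zero, Matrix.cons_val_one, 
        Matrix.cons_val, h1, h3, h6]
      linear_combination (w 0 - r * w 2) * hx + (w 1 - y * w 2) * hy + 3 * w 2 * hf'
  · rintro ⟨h5, h8⟩
    have h0 : c 0 ≠ 0 := fun h => h5 (by rw [h, mul_zero])
    constructor
    · rintro ⟨l, hl, hline⟩
      by_cases hl1 : l 1 = 0
      · by_cases hl0 : l 0 = 0
        · have h9 := hline ![1, 0, 0] (by simp [dot3, hl0])
          simp [form] at h9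
          exact h0 h9
        · have hv : ∀ y, dot3 l ![-l 2 / l 0, y, 1] = 0 := fun y => by
            simp only [dot3, Matrix.cons_val_zero, Matrix.cons_val_one, 
              Matrix.cons_val, hl1]
            field_simp
            ring
          have a0 := hline _ (hv 0)
          have a1 := hline _ (hv 1)
          have a2 := hline _ (hv (-1))
          simp only [form, Matrix.cons_val_zero, Matrix.cons_val_one, 
              Matrix.cons_val, h1, h3, h6] at a0 a1 a2
          have a3 : 2 * c 7 = 0 := by linear_combination a1 + a2 - 2 * a0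
          exact (mul_ne_zero t2 h7) a3
      · obtain ⟨m, hm⟩ : ∃ m, m = -l 0 / l 1 := ⟨_, rfl⟩
        obtain ⟨n, hn⟩ : ∃ n, n = -l 2 / l 1 := ⟨_, rfl⟩
        have hv : ∀ x, dot3 l ![x, m * x + n, 1] = 0 := fun x => by
          simp only [dot3, Matrix.cons_val_zero, Matrix.cons_val_one, 
            Matrix.cons_val, hm, hn]
          field_simp
          ring
        have hD : ∀ x, qv (Dd c) x = (2 * c 7 * (m * x + n) + (c 4 * x + c 8)) ^ 2 := fun x => by
          have a1 := four_mul_cub c h1 h3 h6 x (m * x + n)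
          have a2 : cub c (x, m * x + n) = 0 := hline _ (hv x)
          rw [a2, mul_zero] at a1
          linear_combination a1
        have b0 := hD 0
        have b1 := hD 1
        have b2 := hD 2
        have b3 := hD (-1)
        rw [qv_Dd] at b0 b1 b2 b3
        have b4 : 2 * 3 * (4 * c 7 * c 0) = 0 := by
          linear_combination -(b2 - 3 * b1 + 3 * b0 - b3)
        exact (mul_ne_zero (mul_ne_zero t2 t3) (mul_ne_zero (mul_ne_zero t4 h7) h0)) b4
    · rintro v ⟨hv0, hv1, hv2⟩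
      have g0 := hv2 ![1, 0, 0]
      have g1 := hv2 ![0, 1, 0]
      have g2 := hv2 ![0, 0, 1]
      simp only [dform, Matrix.cons_val_zero, Matrix.cons_val_one, 
              Matrix.cons_val, h1, h3, h6, mul_one, mul_zero, add_zero, zero_add, zero_mul]
        at g0 g1 g2
      simp only [form, h1, h3, h6, zero_mul, add_zero] at hv1
      by_cases hz : v 2 = 0
      · rw [hz] at hv1 g2
        have b1 : c 0 * v 0 ^ 3 = 0 := by linear_combination hv1
        have b2 : v 0 = 0 := pow_eq_zero_iff (n := 3) (by norm_num) |>.1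
          ((mul_eq_zero.1 b1).resolve_left h0)
        have b3 : c 7 * v 1 ^ 2 = 0 := by
          rw [b2] at g2
          linear_combination g2
        have b4 : v 1 = 0 := pow_eq_zero_iff (n := 2) (by norm_num) |>.1
          ((mul_eq_zero.1 b3).resolve_left h7)
        apply hv0
        funext i
        fin_cases i
        · exact b2
        · exact b4
        · exact hz
      · obtain ⟨x, hx⟩ : ∃ x, v 0 = x * v 2 := ⟨v 0 / v 2, by field_simp⟩
        obtain ⟨y, hy⟩ : ∃ y, v 1 = y * v 2 := ⟨v 1 / v 2, by field_simp⟩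
        rw [hx, hy] at hv1 g0 g1
        have k1 : c 0 * x ^ 3 + c 2 * x ^ 2 + c 4 * x * y + c 5 * x + c 7 * y ^ 2 + c 8 * y +
            c 9 = 0 := by
          refine canc (pow_ne_zero 3 hz) ?_
          linear_combination hv1
        have k2 : 2 * c 7 * y + (c 4 * x + c 8) = 0 := by
          refine canc (pow_ne_zero 2 hz) ?_
          linear_combination g1
        have k3 : 3 * c 0 * x ^ 2 + 2 * c 2 * x + c 4 * y + c 5 = 0 := by
          refine canc (pow_ne_zero 2 hz) ?_
          linear_combination g0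
        refine h8 x ⟨?_, ?_⟩
        · have k4 := four_mul_cub c h1 h3 h6 x y
          have k5 : cub c (x, y) = 0 := by
            simp [cub, form, h1, h3, h6]
            linear_combination k1
          rw [k5, k2] at k4
          linear_combination k4
        · linear_combination 2 * c 4 * k2 - 4 * c 7 * k3

/-! ### number of points -/

lemma ringChar_ne (hp : 5 ≤ p) : ringChar (ZMod p) ≠ 2 := by
  rw [ZMod.ringChar_zmod_n]
  omega

open Classical in
lemma card_fib (hp : 5 ≤ p) (c : Co p) (h1 : c 1 = 0) (h3 : c 3 = 0) (h6 : c 6 = 0) (h7 : c 7 ≠ 0)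
    (x : ZMod p) : (((univ.filter fun y : ZMod p => cub c (x, y) = 0).card : ℤ) : ℚ) =
      (quadraticChar (ZMod p) (qv (Dd c) x) : ℚ) + 1 := by
  have t2 := two_ne hp
  have t4 : (4 : ZMod p) ≠ 0 := by
    have : (4 : ZMod p) = 2 * 2 := by norm_num
    rw [this]
    exact mul_ne_zero t2 t2
  have hA := quadraticChar_card_sqrts (ringChar_ne hp) (qv (Dd c) x)
  have hB : (univ.filter fun y : ZMod p => cub c (x, y) = 0).card =
      {u : ZMod p | u ^ 2 = qv (Dd c) x}.toFinset.card := by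
    refine Finset.card_nbij' (fun y => 2 * c 7 * y + (c 4 * x + c 8))
      (fun u => (u - (c 4 * x + c 8)) / (2 * c 7)) ?_ ?_ ?_ ?_
    · intro y hy
      simp only [coe_filter, mem_univ, true_and, Set.mem_ofPred_eq] at hy
      simp only [Set.coe_toFinset, Set.mem_ofPred_eq]
      have := four_mul_cub c h1 h3 h6 x y
      rw [hy, mul_zero] at this
      linear_combination -this
    · intro u hu
      simp only [Set.coe_toFinset, Set.mem_ofPred_eq] at hu
      simp only [coe_filter, mem_univ, true_and, Set.mem_ofPred_eq]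
      have := four_mul_cub c h1 h3 h6 x ((u - (c 4 * x + c 8)) / (2 * c 7))
      have h8 : 2 * c 7 * ((u - (c 4 * x + c 8)) / (2 * c 7)) + (c 4 * x + c 8) = u := by
        field_simp
        ring
      rw [h8, hu, sub_self] at this
      exact canc (mul_ne_zero t4 h7) this
    · intro y _
      field_simp
      ring
    · intro u _
      field_simp
      ring
  rw [hB]
  have hC : ((({u : ZMod p | u ^ 2 = qv (Dd c) x}.toFinset.card : ℤ)) : ℚ) =
      ((quadraticChar (ZMod p) (qv (Dd c) x) + 1 : ℤ) : ℚ) := by rw [← hA]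
  rw [hC]
  push_cast
  rfl

open Classical in
lemma card_aff (hp : 5 ≤ p) (c : Co p) (h1 : c 1 = 0) (h3 : c 3 = 0) (h6 : c 6 = 0) (h7 : c 7 ≠ 0) :
    (Nat.card {P : ZMod p × ZMod p // cub c P = 0} : ℚ) =
      p + ∑ x : ZMod p, (quadraticChar (ZMod p) (qv (Dd c) x) : ℚ) := by
  rw [Nat.card_eq_fintype_card, Fintype.card_subtype, Finset.card_filter]
  push_cast
  rw [Fintype.sum_prod_type]
  have hA : ∀ x : ZMod p, ∑ y : ZMod p, (if cub c (x, y) = 0 then (1 : ℚ) else 0) =
      (quadraticChar (ZMod p) (qv (Dd c) x) : ℚ) + 1 := by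
    intro x
    rw [← card_fib hp c h1 h3 h6 h7 x, Finset.card_filter]
    push_cast
    rfl
  rw [Finset.sum_congr rfl fun x _ => hA x, Finset.sum_add_distrib]
  simp [ZMod.card]
  ring

/-- parametrisation of the nonzero vectors on the cubic -/
def par (c : Co p) : (ZMod p)ˣ × Option {P : ZMod p × ZMod p // cub c P = 0} → (Fin 3 → ZMod p)
  | (a, none) => ![0, a, 0]
  | (a, some P) => ![a * P.1.1, a * P.1.2, a]

lemma card_pts (c : Co p) (h1 : c 1 = 0) (h3 : c 3 = 0) (h6 : c 6 = 0) (h0 : c 0 ≠ 0) :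
    Nat.card {v : Fin 3 → ZMod p // v ≠ 0 ∧ form c v = 0} =
      (p - 1) * (Nat.card {P : ZMod p × ZMod p // cub c P = 0} + 1) := by
  have hA : ∀ q, par c q ≠ 0 ∧ form c (par c q) = 0 := by
    rintro ⟨a, _ | P⟩
    · refine ⟨fun h => ?_, by simp [par, form, h6]⟩
      have := congrFun h 1
      simp [par] at this
    · refine ⟨fun h => ?_, ?_⟩
      · have := congrFun h 2
        simp [par] at this
      · have h5 := P.2
        simp only [cub, form, Matrix.cons_val_zero, Matrix.cons_val_one, Matrix.cons_val,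
          h1, h3, h6] at h5
        simp only [par, form, Matrix.cons_val_zero, Matrix.cons_val_one, Matrix.cons_val,
          h1, h3, h6]
        linear_combination (a : ZMod p) ^ 3 * h5
  have hB : Function.Bijective (fun q => (⟨par c q, hA q⟩ :
      {v : Fin 3 → ZMod p // v ≠ 0 ∧ form c v = 0})) := by
    constructor
    · rintro ⟨a, _ | P⟩ ⟨a', _ | P'⟩ h
      · have h5 := congrFun (congrArg Subtype.val h) 1
        simp [par] at h5
        rw [Units.ext h5]
      · have h5 := congrFun (congrArg Subtype.val h) 2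
        simp [par] at h5
        exact absurd h5.symm a'.ne_zero
      · have h5 := congrFun (congrArg Subtype.val h) 2
        simp [par] at h5
      · have h5 := congrFun (congrArg Subtype.val h) 2
        have h8 := congrFun (congrArg Subtype.val h) 0
        have h9 := congrFun (congrArg Subtype.val h) 1
        simp [par] at h5 h8 h9
        have h11 := Units.ext h5
        subst h11
        have h10 : P = P' := by
          apply Subtype.ext
          apply Prod.ext
          · simpa using h8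
          · simpa using h9
        rw [h10]
    · rintro ⟨v, hv0, hv⟩
      by_cases hz : v 2 = 0
      · have b1 : c 0 * v 0 ^ 3 = 0 := by
          simp only [form, h1, h3, h6, hz] at hv
          linear_combination hv
        have b2 : v 0 = 0 := pow_eq_zero_iff (n := 3) (by norm_num) |>.1 (canc h0 b1)
        have b3 : v 1 ≠ 0 := by
          intro b3
          apply hv0
          funext i
          fin_cases i
          · exact b2
          · exact b3
          · exact hz
        refine ⟨(Units.mk0 _ b3, none), ?_⟩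
        apply Subtype.ext
        funext i
        fin_cases i
        · simp [par, b2]
        · simp [par]
        · simp [par, hz]
      · have hP : cub c (v 0 / v 2, v 1 / v 2) = 0 := by
          refine canc (pow_ne_zero 3 hz) ?_
          simp only [cub, form, Matrix.cons_val_zero, Matrix.cons_val_one, Matrix.cons_val,
            h1, h3, h6]
          simp only [form, h1, h3, h6] at hv
          field_simp
          linear_combination hv
        refine ⟨(Units.mk0 _ hz, some ⟨_, hP⟩), ?_⟩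
        apply Subtype.ext
        funext i
        fin_cases i
        · simp [par]; field_simp
        · simp [par]; field_simp
        · simp [par]
  rw [← Nat.card_eq_of_bijective _ hB, Nat.card_prod, Finite.card_option, Nat.card_eq_fintype_card,
    ZMod.card_units]

lemma Np_eq (hp : 5 ≤ p) (c : Co p) (h1 : c 1 = 0) (h3 : c 3 = 0) (h6 : c 6 = 0) (h7 : c 7 ≠ 0)
    (h0 : c 0 ≠ 0) : Np c = N4 (Dd c) := by
  have hp1 : ((p - 1 : ℕ) : ℚ) = (p : ℚ) - 1 := by
    rw [Nat.cast_sub (by omega)]; simp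
  have hp2 : (p : ℚ) - 1 ≠ 0 := by
    have : (5 : ℚ) ≤ p := by exact_mod_cast hp
    intro h
    linarith
  rw [Np, card_pts c h1 h3 h6 h0, N4]
  push_cast
  rw [card_aff hp c h1 h3 h6 h7, hp1]
  have d4 : Dd c 4 = 0 := by simp [Dd]
  rw [d4]
  simp only [MulChar.map_zero, Int.cast_zero, add_zero]
  field_simp
  ring

/-! ### the sum -/

/-- the inverse map -/
def inv (q : ZMod p × ZMod p × ZMod p) (d : Fin 5 → ZMod p) : Co p :=
  ![-d 3 / (4 * q.1), 0, (q.2.1 ^ 2 - d 2) / (4 * q.1), 0, q.2.1,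
    (2 * q.2.1 * q.2.2 - d 1) / (4 * q.1), 0, q.1, q.2.2, (q.2.2 ^ 2 - d 0) / (4 * q.1)]

lemma Dd_inv (hp : 5 ≤ p) (q : ZMod p × ZMod p × ZMod p) (hq : q.1 ≠ 0) (d : Fin 5 → ZMod p)
    (hd : d 4 = 0) : Dd (inv q d) = d := by
  have t2 := two_ne hp
  have t4 : (4 : ZMod p) ≠ 0 := by
    have : (4 : ZMod p) = 2 * 2 := by norm_num
    rw [this]
    exact mul_ne_zero t2 t2
  funext i
  fin_cases i
  · simp [Dd, inv]; field_simp; ring
  · simp [Dd, inv]; field_simp; ring
  · simp [Dd, inv]; field_simp; ring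
  · simp [Dd, inv]; field_simp
  · simp [Dd, inv, hd]

lemma inv_Dd (hp : 5 ≤ p) (c : Co p) (h1 : c 1 = 0) (h3 : c 3 = 0) (h6 : c 6 = 0) (h7 : c 7 ≠ 0) :
    inv (c 7, c 4, c 8) (Dd c) = c := by
  have t2 := two_ne hp
  have t4 : (4 : ZMod p) ≠ 0 := by
    have : (4 : ZMod p) = 2 * 2 := by norm_num
    rw [this]
    exact mul_ne_zero t2 t2
  funext i
  fin_cases i
  · simp [Dd, inv]; field_simp
  · simp [inv, h1]
  · simp [Dd, inv]; field_simp
  · simp [inv, h3]
  · simp [inv]
  · simp [Dd, inv]; field_simp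
  · simp [inv, h6]
  · simp [inv]
  · simp [inv]
  · simp [Dd, inv]; field_simp

end PS3

open PS3

open Classical in
theorem sum_flex (p : ℕ) [Fact p.Prime] (hp : 5 ≤ p) (g : ℚ → ℚ) :
    (∑ c : Co p, if Ns c ∧ Flex c ![0, 1, 0] ![0, 0, 1] then g (Np c) else 0) =
      ((p : ℚ) - 1) * p ^ 2 * ∑ d : Fin 5 → ZMod p, if Sf4 d ∧ d 4 = 0 then g (N4 d) else 0 := by
  have hp1 : ((p - 1 : ℕ) : ℚ) = (p : ℚ) - 1 := by
    rw [Nat.cast_sub (by omega)]; simp
  rw [← Finset.sum_filter, ← Finset.sum_filter]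
  have hcard : (((univ.erase (0 : ZMod p)) ×ˢ ((univ : Finset (ZMod p)) ×ˢ
      (univ : Finset (ZMod p)))).card : ℚ) = ((p : ℚ) - 1) * p ^ 2 := by
    rw [Finset.card_product, Finset.card_product, Finset.card_erase_of_mem (Finset.mem_univ _),
      Finset.card_univ, ZMod.card]
    push_cast
    rw [hp1]
    ring
  have hR : ((p : ℚ) - 1) * p ^ 2 * ∑ d ∈ univ.filter (fun d : Fin 5 → ZMod p => Sf4 d ∧ d 4 = 0),
      g (N4 d) = ∑ q ∈ ((univ.erase (0 : ZMod p)) ×ˢ ((univ : Finset (ZMod p)) ×ˢ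
      (univ : Finset (ZMod p)))) ×ˢ univ.filter (fun d : Fin 5 → ZMod p => Sf4 d ∧ d 4 = 0),
      g (N4 q.2) := by
    rw [Finset.sum_product]
    dsimp only
    rw [Finset.sum_const, nsmul_eq_mul, hcard]
  rw [hR]
  refine Finset.sum_nbij' (fun c => ((c 7, c 4, c 8), Dd c)) (fun q => inv q.1 q.2) ?_ ?_ ?_ ?_ ?_
  · intro c hc
    simp only [mem_filter, mem_univ, true_and] at hc
    obtain ⟨hns, hfl⟩ := hc
    obtain ⟨h1, h3, h6⟩ := (flex_iff c).1 hfl
    obtain ⟨h7, h0⟩ := ns_ne c h1 h3 h6 hns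
    simp only [mem_product, mem_erase, mem_univ, mem_filter, true_and, and_true]
    exact ⟨h7, (ns_iff hp c h1 h3 h6 h7).1 hns, by simp [Dd]⟩
  · rintro ⟨⟨a, b, e⟩, d⟩ hq
    simp only [mem_product, mem_erase, mem_univ, mem_filter, true_and, and_true] at hq
    obtain ⟨ha, hsf, hd⟩ := hq
    simp only [mem_filter, mem_univ, true_and]
    have h1 : inv (a, b, e) d 1 = 0 := by simp [inv]
    have h3 : inv (a, b, e) d 3 = 0 := by simp [inv]
    have h6 : inv (a, b, e) d 6 = 0 := by simp [inv]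
    have h7 : inv (a, b, e) d 7 ≠ 0 := by simpa [inv] using ha
    refine ⟨(ns_iff hp _ h1 h3 h6 h7).2 ?_, (flex_iff _).2 ⟨h1, h3, h6⟩⟩
    rwa [Dd_inv hp (a, b, e) ha d hd]
  · intro c hc
    simp only [mem_filter, mem_univ, true_and] at hc
    obtain ⟨hns, hfl⟩ := hc
    obtain ⟨h1, h3, h6⟩ := (flex_iff c).1 hfl
    obtain ⟨h7, h0⟩ := ns_ne c h1 h3 h6 hns
    exact inv_Dd hp c h1 h3 h6 h7
  · rintro ⟨⟨a, b, e⟩, d⟩ hq
    simp only [mem_product, mem_erase, mem_univ, mem_filter, true_and, and_true] at hq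
    obtain ⟨ha, hsf, hd⟩ := hq
    refine Prod.ext ?_ (Dd_inv hp (a, b, e) ha d hd)
    simp [inv]
  · intro c hc
    simp only [mem_filter, mem_univ, true_and] at hc
    obtain ⟨hns, hfl⟩ := hc
    obtain ⟨h1, h3, h6⟩ := (flex_iff c).1 hfl
    obtain ⟨h7, h0⟩ := ns_ne c h1 h3 h6 hns
    rw [Np_eq hp c h1 h3 h6 h7 h0]

end Pool.Agent.T2H70.SR
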