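import Pool.Agent.T2H70.SR.S4_c

set_option autoImplicit false

/-!
# Package S4: cubics with a given point

`p ≥ 5`. `form c (0,1,0) = c 6 = 0`. Write
`form c (x, y, z) = a(x,z) y² + b(x,z) y + e(x,z)`, `a = c3 x + c7 z`, `b = c1 x² + c4 x z + c8 z²`, `e = c0 x³ + c2 x² z + c5 x z² + c9 z³`,
`D = b² - 4 a e`, a binary quartic form, `D(x, z) = ∑ d i x^i z^(4-i)`.
(i) If `c` has no rational line: the number of projective points is `1 + ∑_{x ∈ ℙ¹} #{y : a y² + b y + e = 0}`; at `x` with `a(x) ≠ 0` this is
`1 + χ(D(x))`; if `c ≠ 0` has `a ≠ 0` there is exactly one zero `x0` of `a`; there `b(x0) ≠ 0` gives one `y` while `1 + χ(D) = 2`; `b(x0) = 0` and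
`e(x0) ≠ 0` gives no `y` while `1 + χ(D) = 1`; all zero would be a rational line. So `Np c = 1 + (p + 1 + ∑ χ(D(x))) - 1 = N4 d` (the point at
infinity of `ℙ¹` has `D = d 4`).
(ii) `Ns c` iff `a ≠ 0` and `D` is squarefree as a binary form (`Sf4 d`; squarefree polynomial of degree `3` or `4`).
If `D` has a double zero `r ∈ ℙ¹(𝔽_p)`: if `a(r) ≠ 0` then `(r, -b/(2a))` is a singular point; if `a(r) = 0` then `b(r) = 0`, and the
derivative gives `a'(r) e(r) = 0`, so `a = 0` or `e(r) = 0`: line. If `D = λ h²`, `h` irreducible quadratic: at the zero `x0` of `a` the value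
`λ h(x0)² = b(x0)²`, so `λ` is a square, `D = s²`, and `4 a form = (2 a y + b - s)(2 a y + b + s)` so `form` is reducible (Gauss): rational line
[direct: one of the two factors is divisible by the linear form `a`, or: `s² = b² - 4ae` so `a ∣ (b-s)(b+s)`, `a` linear divides one of
them, say `b - s = a m`; then `form` vanishes on the line `2 y + m = 0`, as `a (2y + m) = 2ay + b - s`]. Conversely a rational line through
`[0:1:0]` gives `(x-r)² ∣ D`, any other rational line gives `D = square`; a rational singular point gives a double zero or (`[0:1:0]` singular)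
`a = 0`, `D = b²`.
(iii) For a given squarefree `D` the number of `(a, b, e)` with `b² - 4 a e = D` is `(p-1) p² N4 d`: choose `a = λ (x - r z)`
(`λ ≠ 0`, `r ∈ ℙ¹`), then `b` with `b(r)² = D(r)` (`p²` forms `b` for each value of `b(r)`), then `e` is determined; and
`N4 d = ∑_{r ∈ ℙ¹} #{v : v² = D(r)}`.
(Checked numerically for p = 5.)
-/

namespace Pool.Agent.T2H70.SR

open Finset
open scoped BigOperators

namespace S4

variable {p : ℕ} [Fact p.Prime]

/-- the number of the points above a point of the projective line -/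
lemma card_above (hp : 5 ≤ p) (c : Co p) (h6 : c 6 = 0) (hl : ¬ HasLine c) {x z : ZMod p}
    (hxz : x ≠ 0 ∨ z ≠ 0) :
    ((univ.filter fun y : ZMod p => fa c x z * y ^ 2 + fb c x z * y + fe c x z = 0).card : ℚ) =
      (if fa c x z = 0 then 0 else 1) + (quadraticChar (ZMod p) (fD (Dd c) x z) : ℚ) := by
  have h4 := four_ne hp
  have h2 := two_ne hp
  by_cases ha : fa c x z = 0
  · rw [if_pos ha, zero_add, fD_eq, ha]
    by_cases hb : fb c x z = 0
    · have he : fe c x z ≠ 0 := fun he => hl (hasLine_of c h6 hxz ha hb he)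
      rw [hb]
      have h0 : (0 : ZMod p) ^ 2 - 4 * 0 * fe c x z = 0 := by ring
      rw [h0, MulChar.map_zero, Int.cast_zero, Nat.cast_eq_zero, card_eq_zero,
        filter_eq_empty_iff]
      intro y _ hy
      apply he
      linear_combination hy
    · have h1 : fb c x z ^ 2 - 4 * 0 * fe c x z = fb c x z ^ 2 := by ring
      rw [h1, quadraticChar_sq_one' hb]
      have h3 : (univ.filter fun y : ZMod p => 0 * y ^ 2 + fb c x z * y + fe c x z = 0) =
          {-fe c x z / fb c x z} := by
        ext y
        rw [mem_filter, mem_singleton, eq_div_iff hb]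
        constructor
        · rintro ⟨-, h⟩
          linear_combination h
        · intro h
          exact ⟨mem_univ _, by linear_combination h⟩
      rw [h3, card_singleton]
      norm_num
  · rw [if_neg ha, add_comm, ← nsq hp, Nat.cast_inj]
    have h2a : 2 * fa c x z ≠ 0 := mul_ne_zero h2 ha
    refine card_nbij' (fun y => 2 * fa c x z * y + fb c x z)
      (fun v => (v - fb c x z) / (2 * fa c x z)) ?_ ?_ ?_ ?_
    · intro y hy
      simp only [coe_filter, mem_univ, true_and, Set.mem_setOf_eq] at hy ⊢
      rw [fD_eq]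
      linear_combination 4 * fa c x z * hy
    · intro v hv
      simp only [coe_filter, mem_univ, true_and, Set.mem_setOf_eq] at hv ⊢
      rw [fD_eq] at hv
      field_simp
      linear_combination hv
    · intro y _
      simp only
      field_simp
      ring
    · intro v _
      simp only
      field_simp
      ring

lemma fa_hom (c : Co p) (t x z : ZMod p) : fa c (t * x) (t * z) = t * fa c x z := by
  simp only [fa]
  ring

lemma Np_eq (hp : 5 ≤ p) (c : Co p) (h6 : c 6 = 0) (hns : Ns c) : Np c = N4 (Dd c) := by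
  classical
  obtain ⟨hl, hs⟩ := hns
  have hp1 : (p : ℚ) - 1 ≠ 0 := by
    have : (5 : ℚ) ≤ p := by exact_mod_cast hp
    linarith
  have ha : ¬ (c 3 = 0 ∧ c 7 = 0) := fun h => hs _ (sing_of_a c h6 h.1 h.2)
  -- the function on the projective line
  set G : ZMod p → ZMod p → ℚ := fun x z =>
    (if fa c x z = 0 then 0 else 1) + (quadraticChar (ZMod p) (fD (Dd c) x z) : ℚ) with hG
  have hGhom : ∀ t x z : ZMod p, t ≠ 0 → G (t * x) (t * z) = G x z := by
    intro t x z ht
    simp only [hG]
    rw [fD_hom, chi_hom _ _ ht, fa_hom]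
    simp only [mul_eq_zero, ht, false_or]
  have hcard : (Nat.card {v : Fin 3 → ZMod p // v ≠ 0 ∧ form c v = 0} : ℚ) =
      ((p : ℚ) - 1) + ((p : ℚ) - 1) * (∑ x : ZMod p, G x 1 + G 1 0) := by
    rw [Nat.card_eq_fintype_card, Fintype.card_subtype,
      card_eq_sum_card_fiberwise (f := fun v : Fin 3 → ZMod p => (v 2, v 0)) (t := univ)
        (fun _ _ => mem_coe.2 (mem_univ _))]
    push_cast
    rw [← univ_product_univ, sum_product, ← sum_proj G hGhom]
    have h1 : ((p : ℚ) - 1) = ∑ z : ZMod p, ∑ x : ZMod p, if x = 0 ∧ z = 0 then (p : ℚ) - 1 else 0 := by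
      rw [← add_sum_erase univ _ (mem_univ (0 : ZMod p)),
        ← add_sum_erase univ _ (mem_univ (0 : ZMod p)), if_pos ⟨rfl, rfl⟩,
        sum_eq_zero (fun x hx => if_neg fun h => (mem_erase.1 hx).1 h.1),
        sum_eq_zero (fun z hz => sum_eq_zero fun x _ => if_neg fun h => (mem_erase.1 hz).1 h.2)]
      ring
    rw [h1, ← sum_add_distrib]
    refine sum_congr rfl fun z _ => ?_
    rw [← sum_add_distrib]
    refine sum_congr rfl fun x _ => ?_
    rw [filter_filter]
    by_cases hxz : x = 0 ∧ z = 0
    · rw [if_pos hxz, if_pos hxz, add_zero, hxz.1, hxz.2]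
      have h2 : (univ.filter fun v : Fin 3 → ZMod p => (v ≠ 0 ∧ form c v = 0) ∧
          (v 2, v 0) = (0, 0)).card = (univ.erase (0 : ZMod p)).card := by
        refine card_nbij' (fun v => v 1) (fun y => ![0, y, 0]) ?_ ?_ ?_ ?_
        · intro v hv
          simp only [coe_filter, mem_univ, true_and, Set.mem_setOf_eq, Prod.mk.injEq] at hv
          obtain ⟨⟨hv0, _⟩, h2, h0⟩ := hv
          rw [mem_coe, mem_erase]
          refine ⟨fun h1 => hv0 ?_, mem_univ _⟩
          have h1' : v 1 = 0 := h1
          rw [vec_eta v, h0, h1', h2]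
          funext i
          fin_cases i <;> rfl
        · intro y hy
          rw [mem_coe, mem_erase] at hy
          simp only [coe_filter, mem_univ, true_and, Set.mem_setOf_eq]
          refine ⟨⟨fun h => hy.1 ?_, ?_⟩, rfl⟩
          · have := congrFun h 1
            simpa using this
          · rw [form_mk, h6]
            ring
        · intro v hv
          simp only [coe_filter, mem_univ, true_and, Set.mem_setOf_eq, Prod.mk.injEq] at hv
          obtain ⟨⟨hv0, _⟩, h2, h0⟩ := hv
          conv_rhs => rw [vec_eta v, h0, h2]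
        · intro y _
          rfl
      rw [h2, card_erase_of_mem (mem_univ _), card_univ, ZMod.card,
        Nat.cast_sub (by omega), Nat.cast_one]
    · rw [if_neg hxz, if_neg hxz, zero_add]
      have hxz' : x ≠ 0 ∨ z ≠ 0 := by
        by_contra hcon
        push Not at hcon
        exact hxz hcon
      simp only [hG]
      rw [← card_above hp c h6 hl hxz', Nat.cast_inj]
      refine card_nbij' (fun v => v 1) (fun y => ![x, y, z]) ?_ ?_ ?_ ?_
      · intro v hv
        simp only [coe_filter, mem_univ, true_and, Set.mem_setOf_eq, Prod.mk.injEq] at hv ⊢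
        obtain ⟨⟨_, hf⟩, h2, h0⟩ := hv
        rw [vec_eta v, h0, h2, form_eq c h6] at hf
        exact hf
      · intro y hy
        simp only [coe_filter, mem_univ, true_and, Set.mem_setOf_eq] at hy ⊢
        refine ⟨⟨fun h => hxz ⟨?_, ?_⟩, ?_⟩, rfl⟩
        · have := congrFun h 0
          simpa using this
        · have := congrFun h 2
          simpa using this
        · rw [form_eq c h6]
          exact hy
      · intro v hv
        simp only [coe_filter, mem_univ, true_and, Set.mem_setOf_eq, Prod.mk.injEq] at hv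
        obtain ⟨⟨_, hf⟩, h2, h0⟩ := hv
        conv_rhs => rw [vec_eta v, h0, h2]
      · intro y _
        rfl
  -- the number of the points of the line where `a` does not vanish
  have hcount : ∑ x : ZMod p, (if fa c x 1 = 0 then (0 : ℚ) else 1) +
      (if fa c 1 0 = 0 then (0 : ℚ) else 1) = p := by
    by_cases h3 : c 3 = 0
    · have h7 : c 7 ≠ 0 := fun h => ha ⟨h3, h⟩
      rw [sum_congr rfl (g := fun _ => (1 : ℚ)) (fun x _ => if_neg (by
        simp only [fa]
        rw [h3, zero_mul, zero_add, mul_one]
        exact h7)), sum_const, card_univ, ZMod.card, nsmul_eq_mul, mul_one, if_pos (by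
        simp only [fa]
        rw [h3]
        ring), add_zero]
    · rw [if_neg (by
        simp only [fa]
        rw [mul_one, mul_zero, add_zero]
        exact h3), ← add_sum_erase univ _ (mem_univ (-c 7 / c 3)), if_pos (by
        simp only [fa]
        field_simp
        ring), zero_add, sum_congr rfl (g := fun _ => (1 : ℚ)) (fun x hx => if_neg (by
        intro h
        apply (mem_erase.1 hx).1
        simp only [fa] at h
        field_simp
        linear_combination h)), sum_const, card_erase_of_mem (mem_univ _), card_univ, ZMod.card,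
        nsmul_eq_mul, mul_one, Nat.cast_sub (by omega), Nat.cast_one]
      ring
  unfold Np
  rw [hcard, ← mul_one_add, mul_div_cancel_left₀ _ hp1, N4]
  simp only [hG, fD_inf, fD_one, sum_add_distrib]
  linear_combination hcount

end S4

open S4 in
open Classical in
theorem sum_point (p : ℕ) [Fact p.Prime] (hp : 5 ≤ p) (g : ℚ → ℚ) :
    (∑ c : Co p, if Ns c ∧ form c ![0, 1, 0] = 0 then g (Np c) else 0) =
      ((p : ℚ) - 1) * p ^ 2 * ∑ d : Fin 5 → ZMod p, if Sf4 d then N4 d * g (N4 d) else 0 := by
  have h1 : ∀ c : Co p, (if Ns c ∧ form c ![0, 1, 0] = 0 then g (Np c) else 0) =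
      ∑ d : Fin 5 → ZMod p, if c 6 = 0 ∧ Dd c = d then (if Sf4 d then g (N4 d) else 0) else 0 := by
    intro c
    have hf : form c ![0, 1, 0] = c 6 := by
      rw [form_mk]
      ring
    rw [hf]
    by_cases h6 : c 6 = 0
    · simp only [h6, and_true, true_and]
      rw [sum_ite_eq univ (Dd c), if_pos (mem_univ _)]
      by_cases hns : Ns c
      · rw [if_pos hns, if_pos ((ns_iff hp c h6).1 hns), Np_eq hp c h6 hns]
      · rw [if_neg hns, if_neg fun h => hns ((ns_iff hp c h6).2 h)]
    · rw [if_neg (fun h => h6 h.2)]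
      exact (sum_eq_zero fun d _ => if_neg fun h => h6 h.1).symm
  simp only [h1]
  rw [sum_comm, mul_sum]
  refine sum_congr rfl fun d _ => ?_
  rw [← sum_filter, sum_const, nsmul_eq_mul]
  by_cases hd : Sf4 d
  · rw [if_pos hd, if_pos hd, card_fib hp hd]
    ring
  · rw [if_neg hd, if_neg hd, mul_zero, mul_zero]

end Pool.Agent.T2H70.SR
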