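import Pool.Agent.T2H70.SR.Defs

set_option autoImplicit false

/-!
# Package S5: binary quartics, moving a point to infinity

`p ≥ 5`. `N4 d = ∑_{r ∈ ℙ¹(𝔽_p)} #{v : v² = D(r)}` where `D(r)` for `r = ∞` is `d 4`. So `∑_{Sf4 d} N4 d g(N4 d)` is a sum over `d` and `r`; for
`r ∈ 𝔽_p` the substitution `x ↦ r + 1/x` (`D ↦ x⁴ D(r + 1/x)`, i.e. the reversal of the translated polynomial) is a bijection of the
squarefree binary quartics that moves `r` to `∞` and preserves `N4` (it multiplies values by nonzero squares) and `Sf4`. Hence the sum is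
`(p+1) ∑_{Sf4 d} #{v : v² = d 4} g(N4 d)`, which is `(p+1)(∑_{d 4 = 0} g + 2 ∑_{d 4 nonzero square} g)`, and scaling by a
nonzero square `s` (`d ↦ s d`) preserves `N4` and `Sf4`, so the second sum is `(p-1)/2 · ∑_{d 4 = 1}`.
(Checked numerically for p = 5.)
-/

namespace Pool.Agent.T2H70.SR

open Finset
open scoped BigOperators

namespace S5

open Polynomial

variable {p : ℕ} [Fact p.Prime]

/-- the translated polynomial -/
def trD (r : ZMod p) (d : Fin 5 → ZMod p) : Fin 5 → ZMod p :=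
  ![d 0 + d 1 * r + d 2 * r ^ 2 + d 3 * r ^ 3 + d 4 * r ^ 4,
    d 1 + 2 * d 2 * r + 3 * d 3 * r ^ 2 + 4 * d 4 * r ^ 3,
    d 2 + 3 * d 3 * r + 6 * d 4 * r ^ 2, d 3 + 4 * d 4 * r, d 4]

/-- the reversed polynomial -/
def rvD (d : Fin 5 → ZMod p) : Fin 5 → ZMod p := ![d 4, d 3, d 2, d 1, d 0]

lemma trD_trD (r : ZMod p) (d : Fin 5 → ZMod p) : trD (-r) (trD r d) = d := by
  funext i
  fin_cases i <;> simp [trD] <;> ring

lemma rvD_rvD (d : Fin 5 → ZMod p) : rvD (rvD d) = d := by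
  funext i
  fin_cases i <;> simp [rvD]

/-- translation -/
def trE (r : ZMod p) : (Fin 5 → ZMod p) ≃ (Fin 5 → ZMod p) where
  toFun := trD r
  invFun := trD (-r)
  left_inv := trD_trD r
  right_inv d := by
    have h := trD_trD (-r) d
    rwa [neg_neg] at h

/-- reversal -/
def rvE : (Fin 5 → ZMod p) ≃ (Fin 5 → ZMod p) where
  toFun := rvD
  invFun := rvD
  left_inv := rvD_rvD
  right_inv := rvD_rvD

lemma qpol_eq (d : Fin 5 → ZMod p) : qpol d = C (d 0) + C (d 1) * X + C (d 2) * X ^ 2 +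
    C (d 3) * X ^ 3 + C (d 4) * X ^ 4 := by
  unfold qpol
  rw [Fin.sum_univ_five]
  simp

lemma qpol_natDegree_le (d : Fin 5 → ZMod p) : (qpol d).natDegree ≤ 4 := by
  rw [qpol_eq]
  compute_degree

lemma qpol_coeff (d : Fin 5 → ZMod p) : (qpol d).coeff 0 = d 0 ∧ (qpol d).coeff 1 = d 1 ∧
    (qpol d).coeff 2 = d 2 ∧ (qpol d).coeff 3 = d 3 ∧ (qpol d).coeff 4 = d 4 := by
  rw [qpol_eq]
  refine ⟨?_, ?_, ?_, ?_, ?_⟩ <;> simp [coeff_X, coeff_C, coeff_X_pow]

lemma qpol_tr (r : ZMod p) (d : Fin 5 → ZMod p) : qpol (trD r d) = taylor r (qpol d) := by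
  rw [qpol_eq, qpol_eq]
  simp only [map_add, taylor_mul, taylor_C, taylor_X_pow, taylor_X]
  simp only [trD, Matrix.cons_val_zero, Matrix.cons_val_one, Matrix.cons_val]
  simp only [map_add, map_mul, map_pow]
  have h2 : (C (2 : ZMod p) : (ZMod p)[X]) = 2 := map_ofNat C 2
  have h3 : (C (3 : ZMod p) : (ZMod p)[X]) = 3 := map_ofNat C 3
  have h4 : (C (4 : ZMod p) : (ZMod p)[X]) = 4 := map_ofNat C 4
  have h6 : (C (6 : ZMod p) : (ZMod p)[X]) = 6 := map_ofNat C 6
  rw [h2, h3, h4, h6]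
  ring

lemma qpol_rv (d : Fin 5 → ZMod p) : qpol (rvD d) = reflect 4 (qpol d) := by
  ext n
  rw [coeff_reflect]
  obtain ⟨a0, a1, a2, a3, a4⟩ := qpol_coeff d
  obtain ⟨b0, b1, b2, b3, b4⟩ := qpol_coeff (rvD d)
  rcases lt_or_ge 4 n with h | h
  · have h1 : revAt 4 n = n := revAt_eq_self_of_lt h
    rw [h1, coeff_eq_zero_of_natDegree_lt (lt_of_le_of_lt (qpol_natDegree_le _) h),
      coeff_eq_zero_of_natDegree_lt (lt_of_le_of_lt (qpol_natDegree_le _) h)]
  · rw [revAt_le h]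
    interval_cases n
    · rw [b0]; show _ = (qpol d).coeff 4; rw [a4]; rfl
    · rw [b1]; show _ = (qpol d).coeff 3; rw [a3]; rfl
    · rw [b2]; show _ = (qpol d).coeff 2; rw [a2]; rfl
    · rw [b3]; show _ = (qpol d).coeff 1; rw [a1]; rfl
    · rw [b4]; show _ = (qpol d).coeff 0; rw [a0]; rfl

lemma sqf_taylor (r : ZMod p) {f : (ZMod p)[X]} (h : Squarefree f) : Squarefree (taylor r f) := by
  have inv : ∀ (s : ZMod p) (q : (ZMod p)[X]), taylor s (taylor (-s) q) = q := by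
    intro s q
    rw [taylor_taylor, add_neg_cancel, taylor_zero]
  have inv' : ∀ (s : ZMod p) (q : (ZMod p)[X]), taylor (-s) (taylor s q) = q := by
    intro s q
    rw [taylor_taylor, neg_add_cancel, taylor_zero]
  rintro q ⟨c, hc⟩
  have h1 : taylor (-r) q * taylor (-r) q ∣ f := by
    refine ⟨taylor (-r) c, ?_⟩
    rw [← taylor_mul, ← taylor_mul, ← hc, inv']
  have h2 := h _ h1
  have h3 := h2.map (taylorEquiv r)
  rw [show (taylorEquiv r) (taylor (-r) q) = taylor r (taylor (-r) q) from rfl, inv] at h3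
  exact h3

lemma sf4_tr (r : ZMod p) {d : Fin 5 → ZMod p} (h : Sf4 d) : Sf4 (trD r d) := by
  refine ⟨?_, ?_⟩
  · rw [qpol_tr]
    exact sqf_taylor r h.1
  · rw [qpol_tr, natDegree_taylor]
    exact h.2

lemma sf4_tr_iff (r : ZMod p) (d : Fin 5 → ZMod p) : Sf4 (trD r d) ↔ Sf4 d := by
  refine ⟨fun h => ?_, sf4_tr r⟩
  have h1 := sf4_tr (-r) h
  rwa [trD_trD] at h1

lemma X_sq_dvd {f : (ZMod p)[X]} (h0 : f.coeff 0 = 0) (h1 : f.coeff 1 = 0) : X * X ∣ f := by
  rw [← pow_two, X_pow_dvd_iff]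
  intro n hn
  interval_cases n
  · exact h0
  · exact h1

lemma sf4_rv {d : Fin 5 → ZMod p} (h : Sf4 d) : Sf4 (rvD d) := by
  obtain ⟨hsq, hdeg⟩ := h
  obtain ⟨a0, a1, a2, a3, a4⟩ := qpol_coeff d
  obtain ⟨b0, b1, b2, b3, b4⟩ := qpol_coeff (rvD d)
  have hnX : ¬ IsUnit (X : (ZMod p)[X]) := not_isUnit_X
  have hD0 : qpol d ≠ 0 := hsq.ne_zero
  have h01 : ¬ (d 0 = 0 ∧ d 1 = 0) := by
    rintro ⟨h0, h1⟩
    exact hnX (hsq _ (X_sq_dvd (by rw [a0, h0]) (by rw [a1, h1])))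
  have h34 : ¬ (d 3 = 0 ∧ d 4 = 0) := by
    rintro ⟨h3, h4⟩
    have h5 : (qpol d).natDegree ≤ 2 := by
      rw [qpol_eq, h3, h4]
      simp only [map_zero, zero_mul, add_zero]
      compute_degree
    omega
  refine ⟨fun q hq => ?_, ?_⟩
  · have hR0 : qpol (rvD d) ≠ 0 := by
      rw [qpol_rv, Ne, reflect_eq_zero_iff]
      exact hD0
    have hRd := qpol_natDegree_le (rvD d)
    obtain ⟨c, hc⟩ := hq
    have hq0 : q ≠ 0 := by
      rintro rfl
      exact hR0 (by rw [hc]; ring)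
    have hc0 : c ≠ 0 := by
      rintro rfl
      exact hR0 (by rw [hc]; ring)
    have hqq : (q * q).natDegree = q.natDegree + q.natDegree := natDegree_mul hq0 hq0
    have hqc : (qpol (rvD d)).natDegree = q.natDegree + q.natDegree + c.natDegree := by
      rw [hc, natDegree_mul (mul_ne_zero hq0 hq0) hc0, hqq]
    set k := q.natDegree with hk
    have hk2 : k + k ≤ 4 := by omega
    have hcd : c.natDegree ≤ 4 - (k + k) := by omega
    have e1 : qpol d = reflect 4 (qpol (rvD d)) := by rw [qpol_rv, reflect_reflect]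
    have e2 : reflect 4 (q * q * c) = reflect k q * reflect k q * reflect (4 - (k + k)) c := by
      have e3 : 4 = (k + k) + (4 - (k + k)) := by omega
      conv_lhs => rw [e3]
      rw [reflect_mul _ _ hqq.le hcd, reflect_mul _ _ le_rfl le_rfl]
    have e4 : reflect k q * reflect k q ∣ qpol d := by
      rw [e1, hc, e2]
      exact Dvd.intro _ rfl
    have hu := hsq _ e4
    obtain ⟨u, hu1, hu2⟩ := isUnit_iff.1 hu
    have e5 : q = C u * X ^ k := by
      rw [← reflect_C, hu2, reflect_reflect]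
    by_contra hnu
    have hk1 : 1 ≤ k := by
      rw [hk]
      by_contra h0
      have h00 : q.natDegree = 0 := by omega
      apply hnu
      rw [isUnit_iff_degree_eq_zero, degree_eq_natDegree hq0, h00]
      rfl
    have hX : X ∣ q := by
      rw [e5]
      exact dvd_mul_of_dvd_right (dvd_pow_self _ (by omega)) _
    have hXX : X ^ 2 ∣ qpol (rvD d) := by
      rw [hc, pow_two]
      exact dvd_mul_of_dvd_left (mul_dvd_mul hX hX) _
    rw [X_pow_dvd_iff] at hXX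
    have h4 := hXX 0 (by norm_num)
    have h3 := hXX 1 (by norm_num)
    rw [b0] at h4
    rw [b1] at h3
    exact h34 ⟨h3, h4⟩
  · by_contra hlt
    have h3 : (qpol (rvD d)).coeff 3 = 0 := coeff_eq_zero_of_natDegree_lt (by omega)
    have h4 : (qpol (rvD d)).coeff 4 = 0 := coeff_eq_zero_of_natDegree_lt (by omega)
    rw [b3] at h3
    rw [b4] at h4
    exact h01 ⟨h4, h3⟩

lemma sf4_rv_iff (d : Fin 5 → ZMod p) : Sf4 (rvD d) ↔ Sf4 d := by
  refine ⟨fun h => ?_, sf4_rv⟩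
  have h1 := sf4_rv h
  rwa [rvD_rvD] at h1

lemma qv_tr (r : ZMod p) (d : Fin 5 → ZMod p) (x : ZMod p) : qv (trD r d) x = qv d (x + r) := by
  simp only [qv, trD, Matrix.cons_val_zero, Matrix.cons_val_one, Matrix.cons_val]
  ring

lemma N4_tr (r : ZMod p) (d : Fin 5 → ZMod p) : N4 (trD r d) = N4 d := by
  unfold N4
  have h1 : ∑ x : ZMod p, (quadraticChar (ZMod p) (qv (trD r d) x) : ℚ) =
      ∑ x : ZMod p, (quadraticChar (ZMod p) (qv d x) : ℚ) := by
    simp_rw [qv_tr]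
    exact Equiv.sum_comp (Equiv.addRight r) fun x => (quadraticChar (ZMod p) (qv d x) : ℚ)
  rw [h1]
  rfl

lemma chi_sq_mul {s : ZMod p} (hs : s ≠ 0) (a : ZMod p) :
    quadraticChar (ZMod p) (s ^ 2 * a) = quadraticChar (ZMod p) a := by
  rw [map_mul, quadraticChar_sq_one' hs, one_mul]

lemma N4_rv (d : Fin 5 → ZMod p) : N4 (rvD d) = N4 d := by
  unfold N4
  have h0 : qv d 0 = d 0 := by simp [qv]
  have h0' : qv (rvD d) 0 = d 4 := by simp [qv, rvD]
  have h4 : (rvD d) 4 = d 0 := rfl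
  have h1 : ∑ x : ZMod p, (quadraticChar (ZMod p) (qv d x) : ℚ) =
      (quadraticChar (ZMod p) (d 0) : ℚ) +
      ∑ x ∈ univ.erase (0 : ZMod p), (quadraticChar (ZMod p) (qv d x) : ℚ) := by
    rw [← Finset.add_sum_erase univ _ (mem_univ (0 : ZMod p)), h0]
  have h2 : ∑ x : ZMod p, (quadraticChar (ZMod p) (qv (rvD d) x) : ℚ) =
      (quadraticChar (ZMod p) (d 4) : ℚ) +
      ∑ x ∈ univ.erase (0 : ZMod p), (quadraticChar (ZMod p) (qv (rvD d) x) : ℚ) := by
    rw [← Finset.add_sum_erase univ _ (mem_univ (0 : ZMod p)), h0']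
  have h3 : ∑ x ∈ univ.erase (0 : ZMod p), (quadraticChar (ZMod p) (qv (rvD d) x) : ℚ) =
      ∑ x ∈ univ.erase (0 : ZMod p), (quadraticChar (ZMod p) (qv d x) : ℚ) := by
    refine Finset.sum_nbij' (fun x => x⁻¹) (fun x => x⁻¹) ?_ ?_ ?_ ?_ ?_
    · intro x hx
      simpa using hx
    · intro x hx
      simpa using hx
    · intro x _
      exact inv_inv x
    · intro x _
      exact inv_inv x
    · intro x hx
      have hx0 : x ≠ 0 := (mem_erase.1 hx).1
      have h5 : qv (rvD d) x = (x ^ 2) ^ 2 * qv d x⁻¹ := by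
        simp only [qv, rvD, Matrix.cons_val_zero, Matrix.cons_val_one, Matrix.cons_val]
        field_simp
        ring
      rw [h5, chi_sq_mul (pow_ne_zero 2 hx0)]
  rw [h1, h2, h3, h4]
  ring

/-- scaling by a nonzero square -/
def scE {s : ZMod p} (hs : s ≠ 0) : (Fin 5 → ZMod p) ≃ (Fin 5 → ZMod p) where
  toFun d i := s ^ 2 * d i
  invFun d i := (s ^ 2)⁻¹ * d i
  left_inv d := by
    funext i
    have : s ^ 2 ≠ 0 := pow_ne_zero 2 hs
    field_simp
  right_inv d := by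
    funext i
    have : s ^ 2 ≠ 0 := pow_ne_zero 2 hs
    field_simp

lemma qpol_sc {s : ZMod p} (hs : s ≠ 0) (d : Fin 5 → ZMod p) :
    qpol (scE hs d) = C (s ^ 2) * qpol d := by
  rw [qpol_eq, qpol_eq]
  show C (s ^ 2 * d 0) + C (s ^ 2 * d 1) * X + C (s ^ 2 * d 2) * X ^ 2 +
    C (s ^ 2 * d 3) * X ^ 3 + C (s ^ 2 * d 4) * X ^ 4 = _
  simp only [map_mul]
  ring

lemma sf4_sc {s : ZMod p} (hs : s ≠ 0) (d : Fin 5 → ZMod p) : Sf4 (scE hs d) ↔ Sf4 d := by
  have h2 : s ^ 2 ≠ 0 := pow_ne_zero 2 hs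
  have h1 : Associated (qpol (scE hs d)) (qpol d) := by
    rw [qpol_sc]
    exact (associated_unit_mul_left _ _ (isUnit_C.2 (isUnit_iff_ne_zero.2 h2)))
  unfold Sf4
  rw [h1.squarefree_iff, qpol_sc, natDegree_C_mul h2]

lemma N4_sc {s : ZMod p} (hs : s ≠ 0) (d : Fin 5 → ZMod p) : N4 (scE hs d) = N4 d := by
  unfold N4
  have h1 : ∀ x, qv (scE hs d) x = s ^ 2 * qv d x := by
    intro x
    show s ^ 2 * d 0 + s ^ 2 * d 1 * x + s ^ 2 * d 2 * x ^ 2 + s ^ 2 * d 3 * x ^ 3 +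
      s ^ 2 * d 4 * x ^ 4 = _
    unfold qv
    ring
  have h2 : (scE hs d) 4 = s ^ 2 * d 4 := rfl
  rw [h2, chi_sq_mul hs]
  simp_rw [h1, chi_sq_mul hs]

open Classical in
lemma sum_move (g : ℚ → ℚ) (r : ZMod p) :
    (∑ d : Fin 5 → ZMod p, if Sf4 d then
      (1 + (quadraticChar (ZMod p) (qv d r) : ℚ)) * g (N4 d) else 0) =
    ∑ d : Fin 5 → ZMod p, if Sf4 d then
      (1 + (quadraticChar (ZMod p) (d 4) : ℚ)) * g (N4 d) else 0 := by
  conv_rhs => rw [← Equiv.sum_comp ((trE r).trans rvE)]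
  refine sum_congr rfl fun d _ => ?_
  have h1 : (((trE r).trans rvE) d) = rvD (trD r d) := rfl
  have h2 : (rvD (trD r d)) 4 = qv d r := by
    show (trD r d) 0 = qv d r
    unfold trD qv
    rfl
  rw [h1, N4_rv, N4_tr, h2]
  have h3 : Sf4 (rvD (trD r d)) ↔ Sf4 d := (sf4_rv_iff _).trans (sf4_tr_iff r d)
  by_cases h : Sf4 d
  · rw [if_pos h, if_pos (h3.2 h)]
  · rw [if_neg h, if_neg (fun h' => h (h3.1 h'))]

open Classical in
lemma sum_inf (hp : 5 ≤ p) (g : ℚ → ℚ) :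
    (∑ d : Fin 5 → ZMod p, if Sf4 d then
      (1 + (quadraticChar (ZMod p) (d 4) : ℚ)) * g (N4 d) else 0) =
    (∑ d : Fin 5 → ZMod p, if Sf4 d ∧ d 4 = 0 then g (N4 d) else 0)
        + ((p : ℚ) - 1) * ∑ d : Fin 5 → ZMod p, if Sf4 d ∧ d 4 = 1 then g (N4 d) else 0 := by
  have hchar : ringChar (ZMod p) ≠ 2 := by
    rw [ZMod.ringChar_zmod_n]
    omega
  have hcnt : ∀ a : ZMod p, (1 + (quadraticChar (ZMod p) a : ℚ)) =
      ∑ s : ZMod p, if a = s ^ 2 then (1 : ℚ) else 0 := by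
    intro a
    have h1 := quadraticChar_card_sqrts hchar a
    rw [sum_ite, sum_const_zero, add_zero, sum_const, nsmul_eq_mul, mul_one]
    have h2 : ({x : ZMod p | x ^ 2 = a} : Set (ZMod p)).toFinset =
        Finset.univ.filter (fun s : ZMod p => a = s ^ 2) := by
      ext x
      simp [eq_comm]
    rw [h2] at h1
    have h3 : (((Finset.univ.filter (fun s : ZMod p => a = s ^ 2)).card : ℤ) : ℚ) =
        ((quadraticChar (ZMod p) a + 1 : ℤ) : ℚ) := by rw [h1]
    push_cast at h3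
    rw [h3]
    ring
  have h1 : (∑ d : Fin 5 → ZMod p, if Sf4 d then
      (1 + (quadraticChar (ZMod p) (d 4) : ℚ)) * g (N4 d) else 0) =
      ∑ s : ZMod p, ∑ d : Fin 5 → ZMod p, if Sf4 d ∧ d 4 = s ^ 2 then g (N4 d) else 0 := by
    rw [sum_comm]
    refine sum_congr rfl fun d _ => ?_
    by_cases h : Sf4 d
    · simp only [h, true_and, if_true]
      rw [hcnt, sum_mul]
      refine sum_congr rfl fun s _ => ?_
      split_ifs <;> simp
    · simp [h]
  rw [h1, ← Finset.add_sum_erase univ _ (mem_univ (0 : ZMod p))]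
  congr 1
  · refine sum_congr rfl fun d _ => ?_
    have : (0 : ZMod p) ^ 2 = 0 := by norm_num
    rw [this]
  · have h2 : ∀ s ∈ univ.erase (0 : ZMod p),
        (∑ d : Fin 5 → ZMod p, if Sf4 d ∧ d 4 = s ^ 2 then g (N4 d) else 0) =
        ∑ d : Fin 5 → ZMod p, if Sf4 d ∧ d 4 = 1 then g (N4 d) else 0 := by
      intro s hs
      have hs0 : s ≠ 0 := (mem_erase.1 hs).1
      have hs2 : s ^ 2 ≠ 0 := pow_ne_zero 2 hs0
      rw [← (scE hs0).sum_comp]
      refine sum_congr rfl fun d _ => ?_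
      have e1 : (scE hs0 d) 4 = s ^ 2 * d 4 := rfl
      rw [e1, N4_sc]
      have e2 : (Sf4 (scE hs0 d) ∧ s ^ 2 * d 4 = s ^ 2) ↔ (Sf4 d ∧ d 4 = 1) := by
        rw [sf4_sc]
        have : s ^ 2 * d 4 = s ^ 2 ↔ d 4 = 1 := by
          constructor
          · intro h
            exact mul_left_cancel₀ hs2 (by rw [h, mul_one])
          · intro h
            rw [h, mul_one]
        rw [this]
      by_cases h : Sf4 d ∧ d 4 = 1
      · rw [if_pos h, if_pos (e2.2 h)]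
      · rw [if_neg h, if_neg (fun h' => h (e2.1 h'))]
    rw [sum_congr rfl h2, sum_const, nsmul_eq_mul, card_erase_of_mem (mem_univ _), card_univ,
      ZMod.card]
    congr 1
    have hp1 : 1 ≤ p := by omega
    push_cast [Nat.cast_sub hp1]
    ring

end S5

open Classical in
theorem sum_quartic (p : ℕ) [Fact p.Prime] (hp : 5 ≤ p) (g : ℚ → ℚ) :
    (∑ d : Fin 5 → ZMod p, if Sf4 d then N4 d * g (N4 d) else 0) =
      (p + 1) * ((∑ d : Fin 5 → ZMod p, if Sf4 d ∧ d 4 = 0 then g (N4 d) else 0)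
        + ((p : ℚ) - 1) * ∑ d : Fin 5 → ZMod p, if Sf4 d ∧ d 4 = 1 then g (N4 d) else 0) := by
  rw [← S5.sum_inf hp g]
  set S : ℚ := ∑ d : Fin 5 → ZMod p, if Sf4 d then
      (1 + (quadraticChar (ZMod p) (d 4) : ℚ)) * g (N4 d) else 0 with hS
  have h1 : (∑ d : Fin 5 → ZMod p, if Sf4 d then N4 d * g (N4 d) else 0) =
      (∑ r : ZMod p, ∑ d : Fin 5 → ZMod p, if Sf4 d then
        (1 + (quadraticChar (ZMod p) (qv d r) : ℚ)) * g (N4 d) else 0) + S := by
    rw [sum_comm, hS, ← sum_add_distrib]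
    refine sum_congr rfl fun d _ => ?_
    by_cases h : Sf4 d
    · simp only [h, if_true]
      rw [← sum_mul, ← add_mul]
      congr 1
      unfold N4
      rw [sum_add_distrib, sum_const, card_univ, ZMod.card, nsmul_eq_mul]
      ring
    · simp [h]
  rw [h1, sum_congr rfl fun r _ => S5.sum_move g r, ← hS, sum_const, card_univ, ZMod.card,
    nsmul_eq_mul]
  ring

end Pool.Agent.T2H70.SR
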