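import Pool.Agent.T2H70.SR.Defs

set_option autoImplicit false

/-!
# Package S6: reduction to Weierstrass curves

`p ≥ 5` prime. (i) Cubics `D` (`d 4 = 0`, `d 3 = λ ≠ 0`): `D = λ ((x + s)³ + A (x + s) + B)` for unique `λ, s, A, B`; squarefree iff
`4A³ + 27B² ≠ 0`; `N4 d = p + 1 + χ(λ) S(A,B)`, `S(A,B) = ∑ χ(x³ + A x + B)`. There are `(p-1)/2` squares and nonsquares `λ`, and
`S(u² A, u³ B) = χ(u) S(A, B)`, so replacing `(A,B)` by the twist the sum with `p + 1 - S` equals the one with `p + 1 + S`.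
(ii) Monic quartics: `D = (x+s)⁴ + a (x+s)² + b (x+s) + e` (`s, a, b, e` unique). The curve `v² = x⁴ + a x² + b x + e` : put `v = u + x²`:
`(2u - a) x² - b x + (u² - e) = 0`, discriminant in `x`: `b² - 4 (2u - a)(u² - e)`. Count pairs `(x, u)` by `u`: for `u ≠ a/2` there are
`1 + χ(b² - 4(2u-a)(u²-e))` values `x`; for `u = a/2`: one if `b ≠ 0`, none if `b = 0` (then `e ≠ a²/4` if squarefree), while
`1 + χ(b²) = 2` resp. `1`. So `N4 d = 2 + ∑_x (1 + χ(D(x))) - ... ` i.e. `N4 d = p + 1 + ∑_u χ(b² - 4 (2u-a)(u²-e))`; with `U = -2u`: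
`b² - 4(2u - a)(u² - e) = (U + a)(U² - 4e) + b² = U³ + a U² - 4 e U + b² - 4 a e`, and `X = U + a/3` gives
`X³ + A X + B` with `A = -4e - a²/3`, and the point `(U, w) = (-a, b)`, i.e. `X = -2a/3`, `Y = b` is on it. So
`(a, b, e) ↦ (A, B; (X, Y))` is a bijection of `𝔽_p³` with the pairs (Weierstrass equation, affine point on it) with inverse
`a = -3X/2, b = Y, e = -(A + a²/3)/4`. `D` is squarefree iff `4A³ + 27B² ≠ 0` (discriminants agree up to a nonzero constant; or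
directly). The number of affine points is `NE A B - 1`.
(Checked numerically for p = 5.)
-/

namespace Pool.Agent.T2H70.SR
open Finset Polynomial

/-- discriminant of `x^4+ax^2+bx+e` -/
def s6_dq {F : Type} [Field F] (a b e : F) : F :=
  16*a^4*e - 4*a^3*b^2 - 128*a^2*e^2 + 144*a*b^2*e - 27*b^4 + 256*e^3

lemma s6_coef {K : Type} [Field K] {k3 k2 k1 k0 l3 l2 l1 l0 : K}
    (h : (X^4 + C k3 * X^3 + C k2 * X^2 + C k1 * X + C k0 : K[X]) =
      X^4 + C l3 * X^3 + C l2 * X^2 + C l1 * X + C l0) : k3 = l3 ∧ k2 = l2 ∧ k1 = l1 ∧ k0 = l0 := by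
  have c3 := congrArg (fun q => q.coeff 3) h
  have c2 := congrArg (fun q => q.coeff 2) h
  have c1 := congrArg (fun q => q.coeff 1) h
  have c0 := congrArg (fun q => q.coeff 0) h
  simp [coeff_X_pow, coeff_X, coeff_C] at c3 c2 c1 c0
  exact ⟨c3, c2, c1, c0⟩

lemma s6_disc4 {K : Type} [Field K] (S A B E r1 r2 r3 r4 : K)
    (c3 : 4 * S = -(r1+r2+r3+r4))
    (c2 : 6 * S^2 + A = r1*r2+r1*r3+r1*r4+r2*r3+r2*r4+r3*r4)
    (c1 : 4 * S^3 + 2 * A * S + B = -(r1*r2*r3+r1*r2*r4+r1*r3*r4+r2*r3*r4))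
    (c0 : S^4 + A * S^2 + B * S + E = r1*r2*r3*r4) :
    s6_dq A B E = ((r1-r2)*(r1-r3)*(r1-r4)*(r2-r3)*(r2-r4)*(r3-r4))^2 := by
  obtain ⟨t1, rfl⟩ : ∃ t, r1 = t - S := ⟨r1 + S, by ring⟩
  obtain ⟨t2, rfl⟩ : ∃ t, r2 = t - S := ⟨r2 + S, by ring⟩
  obtain ⟨t3, rfl⟩ : ∃ t, r3 = t - S := ⟨r3 + S, by ring⟩
  have h4 : r4 = -t1 - t2 - t3 - S := by linear_combination c3
  subst h4
  have hA : A = -(t1^2+t2^2+t3^2+t1*t2+t1*t3+t2*t3) := by linear_combination c2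
  subst hA
  have hB : B = (t1+t2)*(t1+t3)*(t2+t3) := by linear_combination c1
  subst hB
  have hE : E = -t1*t2*t3*(t1+t2+t3) := by linear_combination c0
  subst hE
  unfold s6_dq
  ring

lemma s6_sqf4' {F K : Type} [Field F] [PerfectField F] [Field K] [IsAlgClosed K] (φ : F →+* K)
    (s a b e : F) :
    Squarefree (X^4 + C (4*s) * X^3 + C (6*s^2+a) * X^2 + C (4*s^3+2*a*s+b) * X +
      C (s^4+a*s^2+b*s+e) : F[X]) ↔ s6_dq a b e ≠ 0 := by
  set D : F[X] := X^4 + C (4*s) * X^3 + C (6*s^2+a) * X^2 + C (4*s^3+2*a*s+b) * X +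
      C (s^4+a*s^2+b*s+e) with hD
  have hmon : D.Monic := by rw [hD]; monicity!
  have hdeg : D.natDegree = 4 := by rw [hD]; compute_degree!
  have hsp : (D.map φ).Splits := IsAlgClosed.splits _
  have hmm : (D.map φ).Monic := hmon.map φ
  have hd4 : (D.map φ).natDegree = 4 := by rw [hmon.natDegree_map, hdeg]
  have hcard : Multiset.card (D.map φ).roots = 4 := by
    rw [← hsp.natDegree_eq_card_roots, hd4]
  obtain ⟨r1, r2, r3, r4, hr⟩ := Multiset.card_eq_four.1 hcard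
  have hprod : D.map φ = (X - C r1) * (X - C r2) * (X - C r3) * (X - C r4) := by
    conv_lhs => rw [hsp.eq_prod_roots_of_monic hmm, hr]
    simp [mul_assoc]
  have hexp : (X - C r1) * (X - C r2) * (X - C r3) * (X - C r4) =
      X^4 + C (-(r1+r2+r3+r4)) * X^3 + C (r1*r2+r1*r3+r1*r4+r2*r3+r2*r4+r3*r4) * X^2 +
        C (-(r1*r2*r3+r1*r2*r4+r1*r3*r4+r2*r3*r4)) * X + C (r1*r2*r3*r4) := by
    simp only [C_add, C_mul, C_neg]
    ring
  have hmap : D.map φ = X^4 + C (φ (4*s)) * X^3 + C (φ (6*s^2+a)) * X^2 +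
      C (φ (4*s^3+2*a*s+b)) * X + C (φ (s^4+a*s^2+b*s+e)) := by
    rw [hD]
    simp only [Polynomial.map_add, Polynomial.map_mul, Polynomial.map_pow, map_X, map_C]
  obtain ⟨c3, c2, c1, c0⟩ := s6_coef (hmap.symm.trans (hprod.trans hexp))
  have key : φ (s6_dq a b e) = ((r1-r2)*(r1-r3)*(r1-r4)*(r2-r3)*(r2-r4)*(r3-r4))^2 := by
    have mk : φ (s6_dq a b e) = s6_dq (φ a) (φ b) (φ e) := by
      simp only [s6_dq, map_add, map_sub, map_mul, map_pow, map_ofNat]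
    rw [mk]
    simp only [map_add, map_mul, map_pow, map_ofNat] at c3 c2 c1 c0
    exact s6_disc4 (φ s) _ _ _ _ _ _ _ c3 c2 c1 c0
  rw [← PerfectField.separable_iff_squarefree, ← separable_map φ,
    ← nodup_roots_iff_of_splits hmm.ne_zero hsp, hr, ← map_ne_zero φ, key]
  have : ({r1, r2, r3, r4} : Multiset K) = r1 ::ₘ r2 ::ₘ r3 ::ₘ {r4} := rfl
  rw [this]
  simp only [Multiset.nodup_cons, Multiset.mem_cons, Multiset.mem_singleton,
    Multiset.nodup_singleton, ne_eq, pow_eq_zero_iff, mul_eq_zero, sub_eq_zero, OfNat.ofNat_ne_zero,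
    not_false_eq_true]
  tauto

lemma s6_sqf4 {F : Type} [Field F] [PerfectField F] (s a b e : F) :
    Squarefree (X^4 + C (4*s) * X^3 + C (6*s^2+a) * X^2 + C (4*s^3+2*a*s+b) * X +
      C (s^4+a*s^2+b*s+e) : F[X]) ↔ s6_dq a b e ≠ 0 :=
  s6_sqf4' (algebraMap F (AlgebraicClosure F)) s a b e

lemma s6_sqf3 {F : Type} [Field F] [PerfectField F] (l s a b : F) (hl : l ≠ 0) :
    Squarefree (C l * X^3 + C (3*s*l) * X^2 + C (l*(3*s^2+a)) * X + C (l*(s^3+a*s+b)) : F[X]) ↔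
      4*a^3+27*b^2 ≠ 0 := by
  let P : Cubic F := ⟨l, 3*s*l, l*(3*s^2+a), l*(s^3+a*s+b)⟩
  have hP : P.toPoly = C l * X^3 + C (3*s*l) * X^2 + C (l*(3*s^2+a)) * X + C (l*(s^3+a*s+b)) := rfl
  rw [← hP]
  let K := AlgebraicClosure F
  let φ : F →+* K := algebraMap F K
  have hsp : (P.toPoly.map φ).Splits := IsAlgClosed.splits _
  have hP0 : P.toPoly ≠ 0 := Cubic.ne_zero_of_a_ne_zero hl
  have h1 := Cubic.discr_ne_zero_iff_roots_nodup (φ := φ) (P := P) hl hsp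
  have h2 : P.discr = - l^4 * (4*a^3+27*b^2) := by
    simp only [Cubic.discr, P]; ring
  rw [h2] at h1
  have h3 : (Cubic.map φ P).roots = (P.toPoly.map φ).roots := by
    rw [Cubic.map_roots]
  rw [h3] at h1
  rw [← PerfectField.separable_iff_squarefree, ← separable_map φ,
    ← nodup_roots_iff_of_splits (map_ne_zero hP0) hsp, ← h1]
  simp [hl]

section
variable {p : ℕ} [Fact p.Prime]

lemma s6_nz (hp : 5 ≤ p) (n : ℕ) (h0 : 0 < n) (hn : n < 5) : ((n : ℕ) : ZMod p) ≠ 0 := by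
  rw [Ne, ZMod.natCast_eq_zero_iff]
  intro h
  have := Nat.le_of_dvd h0 h
  omega

lemma s6_two (hp : 5 ≤ p) : (2 : ZMod p) ≠ 0 := by
  have := s6_nz hp 2 (by norm_num) (by norm_num); exact_mod_cast this

lemma s6_three (hp : 5 ≤ p) : (3 : ZMod p) ≠ 0 := by
  have := s6_nz hp 3 (by norm_num) (by norm_num); exact_mod_cast this

lemma s6_four (hp : 5 ≤ p) : (4 : ZMod p) ≠ 0 := by
  have := s6_nz hp 4 (by norm_num) (by norm_num); exact_mod_cast this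

lemma s6_sqrts (hp : 5 ≤ p) (t : ZMod p) :
    ∑ y : ZMod p, (if y ^ 2 = t then (1 : ℚ) else 0) = 1 + (quadraticChar (ZMod p) t : ℚ) := by
  have h := quadraticChar_card_sqrts (F := ZMod p) (by rw [ZMod.ringChar_zmod_n]; omega) t
  have h' : ((univ.filter fun y : ZMod p => y^2 = t).card : ℤ) = quadraticChar (ZMod p) t + 1 := by
    rw [← h]
    congr 2
    ext y
    simp
  have h3 : (((univ.filter fun y : ZMod p => y^2 = t).card : ℤ) : ℚ) =
      1 + (quadraticChar (ZMod p) t : ℚ) := by rw [h']; push_cast; ring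
  rw [Finset.sum_boole]
  exact_mod_cast h3

lemma s6_quad (hp : 5 ≤ p) (α β γ : ZMod p) (hα : α ≠ 0) :
    ∑ x : ZMod p, (if α * x ^ 2 + β * x + γ = 0 then (1 : ℚ) else 0) =
      1 + (quadraticChar (ZMod p) (β ^ 2 - 4 * α * γ) : ℚ) := by
  rw [← s6_sqrts hp]
  have h2 : 2 * α ≠ 0 := mul_ne_zero (s6_two hp) hα
  refine Fintype.sum_equiv ((Equiv.mulLeft₀ (2 * α) h2).trans (Equiv.addRight β)) _ _ fun x => ?_
  have e : ((Equiv.mulLeft₀ (2 * α) h2).trans (Equiv.addRight β)) x = 2 * α * x + β := rfl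
  rw [e]
  have h3 : (2 * α * x + β) ^ 2 = β ^ 2 - 4 * α * γ ↔ α * x ^ 2 + β * x + γ = 0 := by
    constructor
    · intro h
      have h4 : 4 * α * (α * x ^ 2 + β * x + γ) = 0 := by linear_combination h
      rcases mul_eq_zero.1 h4 with h5 | h5
      · exact absurd h5 (mul_ne_zero (s6_four hp) hα)
      · exact h5
    · intro h
      linear_combination 4 * α * h
  simp only [h3]

lemma s6_lin (β γ : ZMod p) (hβ : β ≠ 0) :
    ∑ x : ZMod p, (if β * x + γ = 0 then (1 : ℚ) else 0) = 1 := by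
  have h : ∀ x : ZMod p, β * x + γ = 0 ↔ x = -γ / β := by
    intro x
    rw [eq_div_iff hβ]
    constructor
    · intro h; linear_combination h
    · intro h; linear_combination h
  simp only [h, Finset.sum_ite_eq', Finset.mem_univ, if_true]

/-- the quartic and its Jacobian -/
lemma s6_curve (hp : 5 ≤ p) (c b e : ZMod p) (hd : s6_dq (-3 * c) b e ≠ 0) :
    ∑ x : ZMod p, (quadraticChar (ZMod p) (x ^ 4 + (-3 * c) * x ^ 2 + b * x + e) : ℚ) + 1 =
      ∑ X : ZMod p, (quadraticChar (ZMod p) (X ^ 3 + (-4 * e - 3 * c ^ 2) * X +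
        (b ^ 2 - 8 * c ^ 3 - 2 * c * (-4 * e - 3 * c ^ 2))) : ℚ) := by
  have h1 : ∑ x : ZMod p, ∑ u : ZMod p,
      (if (2 * u + 3 * c) * x ^ 2 + (-b) * x + (u ^ 2 - e) = 0 then (1 : ℚ) else 0) =
      ∑ x : ZMod p, (1 + (quadraticChar (ZMod p) (x ^ 4 + (-3 * c) * x ^ 2 + b * x + e) : ℚ)) := by
    refine Finset.sum_congr rfl fun x _ => ?_
    rw [← s6_sqrts hp]
    refine Fintype.sum_equiv (Equiv.addRight (x ^ 2)) _ _ fun u => ?_
    rw [Equiv.coe_addRight]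
    have h3 : (u + x ^ 2) ^ 2 = x ^ 4 + (-3 * c) * x ^ 2 + b * x + e ↔
        (2 * u + 3 * c) * x ^ 2 + (-b) * x + (u ^ 2 - e) = 0 := by
      constructor
      · intro h; linear_combination h
      · intro h; linear_combination h
    simp only [h3]
  have h2 : ∀ u : ZMod p, ∑ x : ZMod p,
      (if (2 * u + 3 * c) * x ^ 2 + (-b) * x + (u ^ 2 - e) = 0 then (1 : ℚ) else 0) =
      (1 + (quadraticChar (ZMod p) (b ^ 2 - 4 * (2 * u + 3 * c) * (u ^ 2 - e)) : ℚ)) -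
        (if 2 * u + 3 * c = 0 then 1 else 0) := by
    intro u
    by_cases h0 : 2 * u + 3 * c = 0
    · rw [h0, if_pos rfl]
      simp only [zero_mul, zero_add, mul_zero, sub_zero]
      by_cases hb : b = 0
      · subst hb
        have hu : u ^ 2 - e ≠ 0 := by
          intro hu
          apply hd
          have e1 : e = u ^ 2 := by linear_combination -hu
          have e2 : -3 * c = 2 * u := by linear_combination -h0
          rw [e1, e2]
          unfold s6_dq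
          ring
        simp [hu]
      · rw [s6_lin _ _ (neg_ne_zero.2 hb)]
        have : quadraticChar (ZMod p) (b ^ 2) = 1 := quadraticChar_sq_one' hb
        rw [this]
        norm_num
    · rw [s6_quad hp _ _ _ h0, if_neg h0, neg_sq, sub_zero]
  have h4 : ∑ u : ZMod p, (if 2 * u + 3 * c = 0 then (1 : ℚ) else 0) = 1 := s6_lin 2 (3 * c) (s6_two hp)
  rw [Finset.sum_comm] at h1
  simp only [h2] at h1
  rw [Finset.sum_sub_distrib, h4, Finset.sum_add_distrib, Finset.sum_add_distrib] at h1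
  have h5 : ∑ X : ZMod p, (quadraticChar (ZMod p) (X ^ 3 + (-4 * e - 3 * c ^ 2) * X +
        (b ^ 2 - 8 * c ^ 3 - 2 * c * (-4 * e - 3 * c ^ 2))) : ℚ) =
      ∑ u : ZMod p, (quadraticChar (ZMod p) (b ^ 2 - 4 * (2 * u + 3 * c) * (u ^ 2 - e)) : ℚ) := by
    symm
    have hm2 : (-2 : ZMod p) ≠ 0 := neg_ne_zero.2 (s6_two hp)
    refine Fintype.sum_equiv ((Equiv.mulLeft₀ (-2) hm2).trans (Equiv.addRight (-c))) _ _ fun u => ?_
    have e1 : ((Equiv.mulLeft₀ (-2 : ZMod p) hm2).trans (Equiv.addRight (-c))) u = -2 * u + -c := rfl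
    rw [e1]
    congr 2
    ring
  rw [h5]
  linarith

/-! ### parametrisation of the quartics -/

/-- the quartic `l4 (x+s)^4 + l3 ...` -/
def s6_par4 (q : ZMod p × ZMod p × ZMod p × ZMod p) : Fin 5 → ZMod p :=
  ![q.1 ^ 4 + q.2.1 * q.1 ^ 2 + q.2.2.1 * q.1 + q.2.2.2, 4 * q.1 ^ 3 + 2 * q.2.1 * q.1 + q.2.2.1,
    6 * q.1 ^ 2 + q.2.1, 4 * q.1, 1]

def s6_par3 (q : ZMod p × ZMod p × ZMod p × ZMod p) : Fin 5 → ZMod p :=
  ![q.1 * (q.2.1 ^ 3 + q.2.2.1 * q.2.1 + q.2.2.2), q.1 * (3 * q.2.1 ^ 2 + q.2.2.1),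
    3 * q.2.1 * q.1, q.1, 0]

lemma s6_qpol (d : Fin 5 → ZMod p) : qpol d = C (d 4) * X ^ 4 + C (d 3) * X ^ 3 + C (d 2) * X ^ 2 +
    C (d 1) * X + C (d 0) := by
  unfold qpol
  simp only [Fin.sum_univ_succ, Finset.univ_eq_empty, Finset.sum_empty]
  simp
  ring

lemma s6_sf4 (q : ZMod p × ZMod p × ZMod p × ZMod p) :
    Sf4 (s6_par4 q) ↔ s6_dq q.2.1 q.2.2.1 q.2.2.2 ≠ 0 := by
  unfold Sf4
  have e : qpol (s6_par4 q) = X^4 + C (4*q.1) * X^3 + C (6*q.1^2+q.2.1) * X^2 +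
      C (4*q.1^3+2*q.2.1*q.1+q.2.2.1) * X + C (q.1^4+q.2.1*q.1^2+q.2.2.1*q.1+q.2.2.2) := by
    rw [s6_qpol]
    simp [s6_par4]
  rw [e, s6_sqf4]
  have hdeg : (X^4 + C (4*q.1) * X^3 + C (6*q.1^2+q.2.1) * X^2 +
      C (4*q.1^3+2*q.2.1*q.1+q.2.2.1) * X + C (q.1^4+q.2.1*q.1^2+q.2.2.1*q.1+q.2.2.2)
        : (ZMod p)[X]).natDegree = 4 := by compute_degree!
  rw [hdeg]
  simp

lemma s6_sf3 (q : ZMod p × ZMod p × ZMod p × ZMod p) (h : q.1 ≠ 0) :
    Sf4 (s6_par3 q) ↔ 4 * q.2.2.1 ^ 3 + 27 * q.2.2.2 ^ 2 ≠ 0 := by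
  unfold Sf4
  have e : qpol (s6_par3 q) = C q.1 * X^3 + C (3*q.2.1*q.1) * X^2 + C (q.1*(3*q.2.1^2+q.2.2.1)) * X +
      C (q.1*(q.2.1^3+q.2.2.1*q.2.1+q.2.2.2)) := by
    rw [s6_qpol]
    simp [s6_par3]
  rw [e, s6_sqf3 _ _ _ _ h]
  have hdeg : (C q.1 * X^3 + C (3*q.2.1*q.1) * X^2 + C (q.1*(3*q.2.1^2+q.2.2.1)) * X +
      C (q.1*(q.2.1^3+q.2.2.1*q.2.1+q.2.2.2)) : (ZMod p)[X]).natDegree = 3 := by compute_degree!
  rw [hdeg]
  simp

lemma s6_N4 (q : ZMod p × ZMod p × ZMod p × ZMod p) :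
    N4 (s6_par4 q) = p + 1 + (∑ x : ZMod p, (quadraticChar (ZMod p) (x ^ 4 + q.2.1 * x ^ 2 +
      q.2.2.1 * x + q.2.2.2) : ℚ) + 1) := by
  unfold N4
  have h1 : ∑ x : ZMod p, (quadraticChar (ZMod p) (qv (s6_par4 q) x) : ℚ) =
      ∑ x : ZMod p, (quadraticChar (ZMod p) (x ^ 4 + q.2.1 * x ^ 2 +
      q.2.2.1 * x + q.2.2.2) : ℚ) := by
    refine Fintype.sum_equiv (Equiv.addRight q.1) _ _ fun x => ?_
    rw [Equiv.coe_addRight]
    congr 2
    simp only [qv, s6_par4, Matrix.cons_val]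
    ring
  rw [h1]
  have h2 : quadraticChar (ZMod p) (s6_par4 q 4) = 1 := by simp [s6_par4]
  rw [h2]
  push_cast
  ring

lemma s6_N3 (q : ZMod p × ZMod p × ZMod p × ZMod p) (h : q.1 ≠ 0) :
    N4 (s6_par3 q) = NE (q.1 ^ 2 * q.2.2.1) (q.1 ^ 3 * q.2.2.2) := by
  unfold N4 NE
  have h2 : quadraticChar (ZMod p) (s6_par3 q 4) = 0 := by simp [s6_par3]
  rw [h2]
  have h1 : ∑ x : ZMod p, (quadraticChar (ZMod p) (qv (s6_par3 q) x) : ℚ) =
      ∑ x : ZMod p, (quadraticChar (ZMod p) (x ^ 3 + q.1 ^ 2 * q.2.2.1 * x + q.1 ^ 3 * q.2.2.2) : ℚ) := by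
    refine Fintype.sum_equiv ((Equiv.addRight q.2.1).trans (Equiv.mulLeft₀ q.1 h)) _ _ fun x => ?_
    have e1 : ((Equiv.addRight q.2.1).trans (Equiv.mulLeft₀ q.1 h)) x = q.1 * (x + q.2.1) := rfl
    rw [e1]
    have e2 : (q.1 * (x + q.2.1)) ^ 3 + q.1 ^ 2 * q.2.2.1 * (q.1 * (x + q.2.1)) + q.1 ^ 3 * q.2.2.2 =
        q.1 ^ 2 * qv (s6_par3 q) x := by
      simp only [qv, s6_par3, Matrix.cons_val]
      ring
    rw [e2, map_mul, quadraticChar_sq_one' h, one_mul]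
  rw [h1]
  push_cast
  ring

end

open Classical in
lemma s6_rep3 (p : ℕ) [Fact p.Prime] (hp : 5 ≤ p) (g : ℚ → ℚ) :
    (∑ d : Fin 5 → ZMod p, if Sf4 d ∧ d 4 = 0 then g (N4 d) else 0) =
      ∑ q : ZMod p × ZMod p × ZMod p × ZMod p,
        if q.1 ≠ 0 ∧ 4 * q.2.2.1 ^ 3 + 27 * q.2.2.2 ^ 2 ≠ 0 then g (N4 (s6_par3 q)) else 0 := by
  have h3 : (3 : ZMod p) ≠ 0 := s6_three hp
  have inv : ∀ d : Fin 5 → ZMod p, d 4 = 0 → d 3 ≠ 0 →
      s6_par3 (d 3, d 2 / (3 * d 3), d 1 / d 3 - 3 * (d 2 / (3 * d 3)) ^ 2,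
        d 0 / d 3 - (d 2 / (3 * d 3)) ^ 3 - (d 1 / d 3 - 3 * (d 2 / (3 * d 3)) ^ 2) *
          (d 2 / (3 * d 3))) = d := by
    intro d h4 hd3
    funext i
    fin_cases i
    · simp only [s6_par3]
      simp
      field_simp
    · simp only [s6_par3]
      simp
      field_simp
    · simp only [s6_par3]
      simp
      field_simp
    · rfl
    · exact h4.symm
  have hd3 : ∀ d : Fin 5 → ZMod p, Sf4 d → d 4 = 0 → d 3 ≠ 0 := by
    intro d hd h4 h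
    have h5 := hd.2
    rw [s6_qpol, h4, h] at h5
    have h6 : (C (0 : ZMod p) * X ^ 4 + C 0 * X ^ 3 + C (d 2) * X ^ 2 +
      C (d 1) * X + C (d 0)).natDegree ≤ 2 := by
      simp only [C_0, zero_mul, zero_add]
      exact natDegree_quadratic_le
    omega
  rw [← Finset.sum_filter, ← Finset.sum_filter]
  symm
  refine Finset.sum_bij' (fun q _ => s6_par3 q)
    (fun d _ => (d 3, d 2 / (3 * d 3), d 1 / d 3 - 3 * (d 2 / (3 * d 3)) ^ 2,
      d 0 / d 3 - (d 2 / (3 * d 3)) ^ 3 - (d 1 / d 3 - 3 * (d 2 / (3 * d 3)) ^ 2) *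
        (d 2 / (3 * d 3)))) ?_ ?_ ?_ ?_ ?_
  · intro q hq
    rw [Finset.mem_filter] at hq ⊢
    exact ⟨Finset.mem_univ _, (s6_sf3 q hq.2.1).2 hq.2.2, rfl⟩
  · intro d hd
    rw [Finset.mem_filter] at hd ⊢
    have h5 := hd3 d hd.2.1 hd.2.2
    refine ⟨Finset.mem_univ _, h5, ?_⟩
    have h6 := inv d hd.2.2 h5
    rw [← s6_sf3 _ h5, h6]
    exact hd.2.1
  · intro q hq
    rw [Finset.mem_filter] at hq
    have h0 : q.1 ≠ 0 := hq.2.1
    obtain ⟨l, s, a, b⟩ := q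
    simp only at h0
    have e1 : s6_par3 (l, s, a, b) 3 = l := rfl
    have e2 : s6_par3 (l, s, a, b) 2 = 3 * s * l := rfl
    have e3 : s6_par3 (l, s, a, b) 1 = l * (3 * s ^ 2 + a) := rfl
    have e4 : s6_par3 (l, s, a, b) 0 = l * (s ^ 3 + a * s + b) := rfl
    have f1 : 3 * s * l / (3 * l) = s := by field_simp
    have f2 : l * (3 * s ^ 2 + a) / l - 3 * s ^ 2 = a := by field_simp; ring
    have f3 : l * (s ^ 3 + a * s + b) / l - s ^ 3 - a * s = b := by field_simp; ring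
    simp only [e1, e2, e3, e4, f1, f2, f3]
  · intro d hd
    rw [Finset.mem_filter] at hd
    exact inv d hd.2.2 (hd3 d hd.2.1 hd.2.2)
  · intro q _
    rfl

open Classical in
theorem sum_cubic (p : ℕ) [Fact p.Prime] (hp : 5 ≤ p) (g : ℚ → ℚ) :
    (∑ d : Fin 5 → ZMod p, if Sf4 d ∧ d 4 = 0 then g (N4 d) else 0) =
      (p : ℚ) * (p - 1) * ∑ A : ZMod p, ∑ B : ZMod p,
        if 4 * A ^ 3 + 27 * B ^ 2 = 0 then 0 else g (NE A B) := by
  rw [s6_rep3 p hp g, Fintype.sum_prod_type]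
  have h1 : ∀ l : ZMod p, (∑ y : ZMod p × ZMod p × ZMod p,
      if (l, y).1 ≠ 0 ∧ 4 * (l, y).2.2.1 ^ 3 + 27 * (l, y).2.2.2 ^ 2 ≠ 0 then
        g (N4 (s6_par3 (l, y))) else 0) = if l = 0 then 0 else
      (p : ℚ) * ∑ A : ZMod p, ∑ B : ZMod p,
        if 4 * A ^ 3 + 27 * B ^ 2 = 0 then 0 else g (NE A B) := by
    intro l
    by_cases hl : l = 0
    · simp [hl]
    · rw [if_neg hl, Fintype.sum_prod_type]
      have h2 : ∀ s : ZMod p, (∑ y : ZMod p × ZMod p,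
          if (l, s, y).1 ≠ 0 ∧ 4 * (l, s, y).2.2.1 ^ 3 + 27 * (l, s, y).2.2.2 ^ 2 ≠ 0 then
            g (N4 (s6_par3 (l, s, y))) else 0) = ∑ A : ZMod p, ∑ B : ZMod p,
        if 4 * A ^ 3 + 27 * B ^ 2 = 0 then 0 else g (NE A B) := by
        intro s
        rw [Fintype.sum_prod_type]
        refine Fintype.sum_equiv (Equiv.mulLeft₀ (l ^ 2) (pow_ne_zero 2 hl)) _ _ fun A => ?_
        refine Fintype.sum_equiv (Equiv.mulLeft₀ (l ^ 3) (pow_ne_zero 3 hl)) _ _ fun B => ?_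
        have m1 : (Equiv.mulLeft₀ (l ^ 2) (pow_ne_zero 2 hl)) A = l ^ 2 * A := rfl
        have m2 : (Equiv.mulLeft₀ (l ^ 3) (pow_ne_zero 3 hl)) B = l ^ 3 * B := rfl
        rw [m1, m2, s6_N3 _ hl]
        have h6 : l ^ 6 ≠ 0 := pow_ne_zero 6 hl
        have e : 4 * (l ^ 2 * A) ^ 3 + 27 * (l ^ 3 * B) ^ 2 = l ^ 6 * (4 * A ^ 3 + 27 * B ^ 2) := by
          ring
        rw [e]
        by_cases h0 : 4 * A ^ 3 + 27 * B ^ 2 = 0
        · simp [h0]
        · simp [h0, hl]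
      simp only [h2, Finset.sum_const, Finset.card_univ, ZMod.card, nsmul_eq_mul]
  simp only [h1]
  have h7 : ∀ c : ℚ, ∑ l : ZMod p, (if l = 0 then 0 else c) = (p - 1) * c := by
    intro c
    have h8 : ∀ l : ZMod p, (if l = 0 then (0 : ℚ) else c) = c - if l = 0 then c else 0 := by
      intro l; by_cases hl : l = 0 <;> simp [hl]
    simp only [h8, Finset.sum_sub_distrib, Finset.sum_const, Finset.card_univ, ZMod.card,
      nsmul_eq_mul, Finset.sum_ite_eq', Finset.mem_univ, if_true]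
    ring
  rw [h7]
  ring

open Classical in
lemma s6_rep4 (p : ℕ) [Fact p.Prime] (hp : 5 ≤ p) (g : ℚ → ℚ) :
    (∑ d : Fin 5 → ZMod p, if Sf4 d ∧ d 4 = 1 then g (N4 d) else 0) =
      ∑ q : ZMod p × ZMod p × ZMod p × ZMod p,
        if s6_dq q.2.1 q.2.2.1 q.2.2.2 ≠ 0 then g (N4 (s6_par4 q)) else 0 := by
  have h4 : (4 : ZMod p) ≠ 0 := s6_four hp
  have inv : ∀ d : Fin 5 → ZMod p, d 4 = 1 →
      s6_par4 (d 3 / 4, d 2 - 6 * (d 3 / 4) ^ 2,
        d 1 - 4 * (d 3 / 4) ^ 3 - 2 * (d 2 - 6 * (d 3 / 4) ^ 2) * (d 3 / 4),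
        d 0 - (d 3 / 4) ^ 4 - (d 2 - 6 * (d 3 / 4) ^ 2) * (d 3 / 4) ^ 2 -
        (d 1 - 4 * (d 3 / 4) ^ 3 - 2 * (d 2 - 6 * (d 3 / 4) ^ 2) * (d 3 / 4)) * (d 3 / 4)) = d := by
    intro d hd4
    generalize hs : d 3 / 4 = s
    have hs' : d 3 = 4 * s := by rw [← hs]; field_simp
    funext i
    fin_cases i
    · simp only [s6_par4]
      simp
    · simp only [s6_par4]
      simp
    · simp only [s6_par4]
      simp
    · exact hs'.symm
    · exact hd4.symm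
  rw [← Finset.sum_filter, ← Finset.sum_filter]
  symm
  refine Finset.sum_bij' (fun q _ => s6_par4 q)
    (fun d _ => (d 3 / 4, d 2 - 6 * (d 3 / 4) ^ 2,
        d 1 - 4 * (d 3 / 4) ^ 3 - 2 * (d 2 - 6 * (d 3 / 4) ^ 2) * (d 3 / 4),
        d 0 - (d 3 / 4) ^ 4 - (d 2 - 6 * (d 3 / 4) ^ 2) * (d 3 / 4) ^ 2 -
        (d 1 - 4 * (d 3 / 4) ^ 3 - 2 * (d 2 - 6 * (d 3 / 4) ^ 2) * (d 3 / 4)) * (d 3 / 4)))
      ?_ ?_ ?_ ?_ ?_
  · intro q hq
    rw [Finset.mem_filter] at hq ⊢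
    exact ⟨Finset.mem_univ _, (s6_sf4 q).2 hq.2, rfl⟩
  · intro d hd
    rw [Finset.mem_filter] at hd ⊢
    refine ⟨Finset.mem_univ _, ?_⟩
    have h6 := inv d hd.2.2
    rw [← s6_sf4, h6]
    exact hd.2.1
  · intro q _
    obtain ⟨s, a, b, e⟩ := q
    have e1 : s6_par4 (s, a, b, e) 3 = 4 * s := rfl
    have e2 : s6_par4 (s, a, b, e) 2 = 6 * s ^ 2 + a := rfl
    have e3 : s6_par4 (s, a, b, e) 1 = 4 * s ^ 3 + 2 * a * s + b := rfl
    have e4 : s6_par4 (s, a, b, e) 0 = s ^ 4 + a * s ^ 2 + b * s + e := rfl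
    have f1 : 4 * s / 4 = s := by field_simp
    have f2 : 6 * s ^ 2 + a - 6 * s ^ 2 = a := by ring
    have f3 : 4 * s ^ 3 + 2 * a * s + b - 4 * s ^ 3 - 2 * a * s = b := by ring
    have f4 : s ^ 4 + a * s ^ 2 + b * s + e - s ^ 4 - a * s ^ 2 - b * s = e := by ring
    simp only [e1, e2, e3, e4, f1, f2, f3, f4]
  · intro d hd
    rw [Finset.mem_filter] at hd
    exact inv d hd.2.2
  · intro q _
    rfl

open Classical in
theorem sum_monic (p : ℕ) [Fact p.Prime] (hp : 5 ≤ p) (g : ℚ → ℚ) :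
    (∑ d : Fin 5 → ZMod p, if Sf4 d ∧ d 4 = 1 then g (N4 d) else 0) =
      (p : ℚ) * ∑ A : ZMod p, ∑ B : ZMod p,
        if 4 * A ^ 3 + 27 * B ^ 2 = 0 then 0 else (NE A B - 1) * g (NE A B) := by
  have h3 : (-3 : ZMod p) ≠ 0 := neg_ne_zero.2 (s6_three hp)
  have h4 : (-4 : ZMod p) ≠ 0 := neg_ne_zero.2 (s6_four hp)
  have h2 : (2 : ZMod p) ≠ 0 := s6_two hp
  set H : ZMod p → ZMod p → ℚ := fun A B =>
    if 4 * A ^ 3 + 27 * B ^ 2 = 0 then 0 else g (NE A B) with hH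
  -- left side
  have hL : ∀ s : ZMod p, (∑ y : ZMod p × ZMod p × ZMod p,
      if s6_dq (s, y).2.1 (s, y).2.2.1 (s, y).2.2.2 ≠ 0 then g (N4 (s6_par4 (s, y))) else 0) =
      ∑ X : ZMod p, ∑ Y : ZMod p, ∑ A : ZMod p, H A (Y ^ 2 - X ^ 3 - A * X) := by
    intro s
    rw [Fintype.sum_prod_type]
    have e0 : ∑ X : ZMod p, ∑ Y : ZMod p, ∑ A : ZMod p, H A (Y ^ 2 - X ^ 3 - A * X) =
        ∑ c : ZMod p, ∑ Y : ZMod p, ∑ A : ZMod p, H A (Y ^ 2 - (2 * c) ^ 3 - A * (2 * c)) := by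
      symm
      refine Fintype.sum_equiv (Equiv.mulLeft₀ 2 h2) _ _ fun c => ?_
      rfl
    rw [e0]
    symm
    refine Fintype.sum_equiv (Equiv.mulLeft₀ (-3) h3) _ _ fun c => ?_
    rw [Fintype.sum_prod_type]
    refine Finset.sum_congr rfl fun b _ => ?_
    symm
    refine Fintype.sum_equiv ((Equiv.mulLeft₀ (-4) h4).trans (Equiv.addRight (-3 * c ^ 2))) _ _
      fun e => ?_
    have e1 : ((Equiv.mulLeft₀ (-4 : ZMod p) h4).trans (Equiv.addRight (-3 * c ^ 2))) e =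
        -4 * e + -3 * c ^ 2 := rfl
    have m1 : (Equiv.mulLeft₀ (-3 : ZMod p) h3) c = -3 * c := rfl
    rw [e1, m1, s6_N4]
    have e2 : s6_dq (-3 * c) b e = -(4 * (-4 * e + -3 * c ^ 2) ^ 3 +
        27 * (b ^ 2 - (2 * c) ^ 3 - (-4 * e + -3 * c ^ 2) * (2 * c)) ^ 2) := by
      unfold s6_dq; ring
    by_cases hd : s6_dq (-3 * c) b e = 0
    · rw [if_neg (not_not.2 hd), hH]
      have : 4 * (-4 * e + -3 * c ^ 2) ^ 3 +
        27 * (b ^ 2 - (2 * c) ^ 3 - (-4 * e + -3 * c ^ 2) * (2 * c)) ^ 2 = 0 := by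
        rw [hd] at e2
        exact neg_eq_zero.1 e2.symm
      simp only [this, if_true]
    · rw [if_pos hd, hH]
      have : 4 * (-4 * e + -3 * c ^ 2) ^ 3 +
        27 * (b ^ 2 - (2 * c) ^ 3 - (-4 * e + -3 * c ^ 2) * (2 * c)) ^ 2 ≠ 0 := by
        intro h0
        rw [h0, neg_zero] at e2
        exact hd e2
      simp only [this, if_false]
      congr 1
      unfold NE
      rw [s6_curve hp c b e hd]
      congr 1
      refine Finset.sum_congr rfl fun X _ => ?_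
      congr 2
      ring
  rw [s6_rep4 p hp g, Fintype.sum_prod_type]
  simp only [hL, Finset.sum_const, Finset.card_univ, ZMod.card, nsmul_eq_mul]
  congr 1
  -- right side
  have hR : ∀ A B : ZMod p, (if 4 * A ^ 3 + 27 * B ^ 2 = 0 then 0 else (NE A B - 1) * g (NE A B)) =
      ∑ X : ZMod p, ∑ Y : ZMod p, if B = Y ^ 2 - X ^ 3 - A * X then H A B else 0 := by
    intro A B
    have e1 : ∀ X : ZMod p, (∑ Y : ZMod p, if B = Y ^ 2 - X ^ 3 - A * X then H A B else 0) =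
        (1 + (quadraticChar (ZMod p) (X ^ 3 + A * X + B) : ℚ)) * H A B := by
      intro X
      rw [← s6_sqrts hp, Finset.sum_mul]
      refine Finset.sum_congr rfl fun Y _ => ?_
      have : B = Y ^ 2 - X ^ 3 - A * X ↔ Y ^ 2 = X ^ 3 + A * X + B := by
        constructor
        · intro h; linear_combination -h
        · intro h; linear_combination -h
      simp only [this]
      split_ifs <;> simp
    simp only [e1]
    rw [← Finset.sum_mul, Finset.sum_add_distrib]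
    simp only [Finset.sum_const, Finset.card_univ, ZMod.card, nsmul_eq_mul, mul_one]
    have e2 : NE A B - 1 = (p : ℚ) + ∑ x : ZMod p, (quadraticChar (ZMod p) (x ^ 3 + A * x + B) : ℚ) := by
      unfold NE; ring
    rw [← e2, hH]
    by_cases h0 : 4 * A ^ 3 + 27 * B ^ 2 = 0
    · simp [h0]
    · simp [h0]
  simp only [hR]
  -- interchange
  have e3 : ∀ A : ZMod p, (∑ B : ZMod p, ∑ X : ZMod p, ∑ Y : ZMod p,
      if B = Y ^ 2 - X ^ 3 - A * X then H A B else 0) =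
      ∑ X : ZMod p, ∑ Y : ZMod p, H A (Y ^ 2 - X ^ 3 - A * X) := by
    intro A
    rw [Finset.sum_comm]
    refine Finset.sum_congr rfl fun X _ => ?_
    rw [Finset.sum_comm]
    refine Finset.sum_congr rfl fun Y _ => ?_
    rw [Finset.sum_ite_eq' Finset.univ (Y ^ 2 - X ^ 3 - A * X) (fun B => H A B)]
    simp
  simp only [e3]
  symm
  rw [Finset.sum_comm]
  refine Finset.sum_congr rfl fun X _ => ?_
  rw [Finset.sum_comm]

end Pool.Agent.T2H70.SR
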