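import Pool.Agent.T2H70.SR.S1
import Pool.Agent.T2H70.SR.S2
import Pool.Agent.T2H70.SR.S3
import Pool.Agent.T2H70.SR.S4
import Pool.Agent.T2H70.SR.S5
import Pool.Agent.T2H70.SR.S6

set_option autoImplicit false

/-!
# Assembly of part S
-/

namespace Pool.Agent.T2H70.SR

open Finset
open scoped BigOperators

theorem Gf_zero : Gf 0 = 0 := by
  unfold Gf
  apply Finset.prod_eq_zero (i := 0) (by simp)
  simp

theorem Psi_zero (p : ℕ) : Psi p 0 0 = 0 := by
  unfold Psi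
  rw [show (0 : ℚ) ^ 2 - 3 * 0 + 2 * 0 = 0 by ring, Gf_zero]
  ring

theorem Psi_lin (p : ℕ) (N t : ℚ) : Psi p N t = Psi p N 0 + t * (Psi p N 1 - Psi p N 0) := by
  unfold Psi
  ring

theorem Gf_nat (n : ℕ) : Gf (n : ℚ) = (Nat.factorial 10 : ℚ) * (n.choose 10 : ℚ) := by
  unfold Gf
  have h1 : (n.descFactorial 10 : ℚ) = ∏ i ∈ range 10, ((n : ℚ) - i) := by
    rw [← descPochhammer_eval_eq_descFactorial ℚ n 10, descPochhammer_eval_eq_prod_range]
  rw [← h1, Nat.descFactorial_eq_factorial_mul_choose]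
  push_cast
  ring

open Classical in
/-- all nonsingular cubics in terms of Weierstrass curves, with a factor `N` -/
theorem sum_Ns_N (p : ℕ) [Fact p.Prime] (hp : 5 ≤ p) (g : ℚ → ℚ) :
    (∑ c : Co p, if Ns c then Np c * g (Np c) else 0) =
      ((p : ℚ) ^ 2 + p + 1) * (p + 1) * (p - 1) ^ 2 * p ^ 3 * ∑ A : ZMod p, ∑ B : ZMod p,
        if 4 * A ^ 3 + 27 * B ^ 2 = 0 then 0 else NE A B * g (NE A B) := by
  rw [sum_points p hp, sum_point p hp, sum_quartic p hp, sum_cubic p hp, sum_monic p hp]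
  have h : (∑ A : ZMod p, ∑ B : ZMod p,
      if 4 * A ^ 3 + 27 * B ^ 2 = 0 then (0 : ℚ) else NE A B * g (NE A B)) =
      (∑ A : ZMod p, ∑ B : ZMod p, if 4 * A ^ 3 + 27 * B ^ 2 = 0 then (0 : ℚ) else g (NE A B))
      + ∑ A : ZMod p, ∑ B : ZMod p,
        if 4 * A ^ 3 + 27 * B ^ 2 = 0 then (0 : ℚ) else (NE A B - 1) * g (NE A B) := by
    rw [← Finset.sum_add_distrib]
    apply Finset.sum_congr rfl
    intro A _
    rw [← Finset.sum_add_distrib]
    apply Finset.sum_congr rfl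
    intro B _
    split_ifs
    · ring
    · ring
  rw [h]
  ring

open Classical in
theorem sum_Ns_fl (p : ℕ) [Fact p.Prime] (hp : 5 ≤ p) (g : ℚ → ℚ) :
    (∑ c : Co p, if Ns c then fl c * g (Np c) else 0) =
      ((p : ℚ) ^ 2 + p + 1) * (p + 1) * (p - 1) ^ 2 * p ^ 3 * ∑ A : ZMod p, ∑ B : ZMod p,
        if 4 * A ^ 3 + 27 * B ^ 2 = 0 then 0 else g (NE A B) := by
  rw [sum_flexes p hp, sum_flex p hp, sum_cubic p hp]
  ring

open Classical in
theorem sum_smooth (p : ℕ) [Fact p.Prime] (hp : 5 ≤ p) :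
    (Nat.factorial 10 : ℚ) * ((∑ c : Co p, if Ns c then
          ((Nat.card {P : ZMod p × ZMod p // cub c P = 0}).choose 10 : ℚ) else 0) / ((p : ℚ) - 1)) =
      (p : ℚ) ^ 3 * ((p : ℚ) ^ 2 - 1) * TT p := by
  have hp1 : (p : ℚ) - 1 ≠ 0 := by
    have : (5 : ℚ) ≤ p := by exact_mod_cast hp
    linarith
  have hp3 : (p : ℚ) ^ 3 - 1 ≠ 0 := by
    have h5 : (5 : ℚ) ≤ p := by exact_mod_cast hp
    nlinarith [mul_self_nonneg ((p : ℚ) - 1), mul_nonneg (by linarith : (0:ℚ) ≤ p) (mul_self_nonneg (p : ℚ))]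
  have h1 := sum_aff p hp (fun n => Gf n)
  obtain ⟨g0, hg0⟩ : ∃ g0 : ℚ → ℚ, ∀ N, g0 N = Psi p N 0 / N := ⟨_, fun _ => rfl⟩
  obtain ⟨g1, hg1⟩ : ∃ g1 : ℚ → ℚ, ∀ N, g1 N = Psi p N 1 - Psi p N 0 := ⟨_, fun _ => rfl⟩
  have h2 : (∑ c : Co p, if Ns c then
      (∑ l : Fin 3 → ZMod p, if l = 0 then 0 else Gf (aff c l)) else 0) =
      ((p : ℚ) - 1) * ∑ c : Co p, if Ns c then Psi p (Np c) (fl c) else 0 := by
    rw [Finset.mul_sum]
    apply Finset.sum_congr rfl
    intro c _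
    split_ifs with hc
    · rw [sum_lines p hp c hc]
    · simp
  have h3 : (∑ c : Co p, if Ns c then Psi p (Np c) (fl c) else 0) =
      (∑ c : Co p, if Ns c then Np c * g0 (Np c) else 0)
      + ∑ c : Co p, if Ns c then fl c * g1 (Np c) else 0 := by
    rw [← Finset.sum_add_distrib]
    apply Finset.sum_congr rfl
    intro c _
    split_ifs with hc
    · rw [Psi_lin, hg0, hg1]
      by_cases h0 : Np c = 0
      · rw [h0, Psi_zero]
        simp
      · rw [mul_div_cancel₀ _ h0]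
    · simp
  have h4 : (∑ A : ZMod p, ∑ B : ZMod p, if 4 * A ^ 3 + 27 * B ^ 2 = 0 then (0 : ℚ) else
      NE A B * g0 (NE A B)) + (∑ A : ZMod p, ∑ B : ZMod p,
      if 4 * A ^ 3 + 27 * B ^ 2 = 0 then (0 : ℚ) else g1 (NE A B)) =
      TT p := by
    unfold TT
    rw [← Finset.sum_add_distrib]
    apply Finset.sum_congr rfl
    intro A _
    rw [← Finset.sum_add_distrib]
    apply Finset.sum_congr rfl
    intro B _
    split_ifs
    · ring
    · rw [hg0, hg1]
      by_cases h0 : NE A B = 0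
      · rw [h0, Psi_zero]
        simp
      · rw [mul_div_cancel₀ _ h0]
        ring
  have h5 : (∑ c : Co p, if Ns c then Gf (Nat.card {P : ZMod p × ZMod p // cub c P = 0}) else 0) =
      (Nat.factorial 10 : ℚ) * ∑ c : Co p, if Ns c then
          ((Nat.card {P : ZMod p × ZMod p // cub c P = 0}).choose 10 : ℚ) else 0 := by
    rw [Finset.mul_sum]
    apply Finset.sum_congr rfl
    intro c _
    split_ifs
    · rw [Gf_nat]
    · simp
  rw [h2, h3, sum_Ns_N p hp, sum_Ns_fl p hp, ← mul_add, h4, h5] at h1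
  rw [← mul_div_assoc, div_eq_iff hp1]
  apply mul_left_cancel₀ hp3
  rw [← h1]
  ring

end Pool.Agent.T2H70.SR
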