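import Pool.Agent.T2H70.SR.A1
import Pool.Agent.T2H70.SR.B1
import Pool.Agent.T2H70.SR.B2
import Pool.Agent.T2H70.SR.B3
import Pool.Agent.T2H70.SR.B4
import Pool.Agent.T2H70.SR.B6
import Pool.Agent.T2H70.SR.B7
import Pool.Agent.T2H70.SR.B8
import Pool.Agent.T2H70.SR.B9
import Pool.Agent.T2H70.SR.S7

set_option autoImplicit false

/-!
# Assembly of part B: if `N10` is rational then so is `cT`
-/

namespace Pool.Agent.T2H70.SR

open Finset
open scoped BigOperators

theorem card_RedT (p : ℕ) [Fact p.Prime] (hp : 5 ≤ p) :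
    (Nat.card {T : Finset (ZMod p × ZMod p) // T.card = 10 ∧ RedT T} : ℚ) =
      (Nat.card {T : Finset (ZMod p × ZMod p) // T.card = 10 ∧ R1 T} : ℚ)
      + (Nat.card {T : Finset (ZMod p × ZMod p) // T.card = 10 ∧ R2 T} : ℚ)
      + (Nat.card {T : Finset (ZMod p × ZMod p) // T.card = 10 ∧ R3 T} : ℚ) := by
  classical
  have e : ∀ Q : Finset (ZMod p × ZMod p) → Prop,
      Nat.card {T : Finset (ZMod p × ZMod p) // T.card = 10 ∧ Q T} =
        ((univ : Finset (Finset (ZMod p × ZMod p))).filter (fun T => T.card = 10 ∧ Q T)).card := by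
    intro Q
    rw [Nat.card_eq_fintype_card, Fintype.card_subtype]
  rw [e, e, e, e]
  have h1 : (univ : Finset (Finset (ZMod p × ZMod p))).filter (fun T => T.card = 10 ∧ RedT T) =
      ((univ.filter (fun T => T.card = 10 ∧ R1 T)) ∪ (univ.filter (fun T => T.card = 10 ∧ R2 T))) ∪
        (univ.filter (fun T => T.card = 10 ∧ R3 T)) := by
    ext T
    simp only [mem_filter, mem_univ, true_and, mem_union]
    constructor
    · rintro ⟨hT, h⟩
      rw [redT_iff p hp T hT] at h
      tauto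
    · intro h
      have hT : T.card = 10 := by tauto
      refine ⟨hT, ?_⟩
      rw [redT_iff p hp T hT]
      tauto
  rw [h1, card_union_of_disjoint, card_union_of_disjoint]
  · push_cast
    ring
  · rw [Finset.disjoint_filter]
    rintro T - ⟨hT, h⟩ ⟨-, h'⟩
    exact h'.1 h
  · rw [Finset.disjoint_left]
    intro T hT hT'
    simp only [mem_filter, mem_univ, true_and, mem_union] at hT hT'
    rcases hT with h | h
    · exact hT'.2.1 h.2
    · exact not_R2_R3 p hp T h.1 ⟨h.2, hT'.2⟩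

theorem isRat_cT_of_N10 (h : IsRat (fun p => (N10 p : ℚ))) : IsRat cT := by
  classical
  have hcong : ∀ p : ℕ, p.Prime → 5 ≤ p → (p : ℚ) ^ 3 * ((p : ℚ) ^ 2 - 1) ≠ 0 := by
    intro p hp h5
    have : (5 : ℚ) ≤ p := by exact_mod_cast h5
    have h2 : (p : ℚ) ^ 2 - 1 ≠ 0 := by nlinarith
    positivity
  have hX : IsRat (fun p => (Nat.factorial 10 : ℚ) * ((((p ^ 2 : ℕ)).choose 10 : ℚ)
      - ((Nat.card {T : Finset (ZMod p × ZMod p) // T.card = 10 ∧ R1 T} : ℚ)
      + (Nat.card {T : Finset (ZMod p × ZMod p) // T.card = 10 ∧ R2 T} : ℚ)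
      + (Nat.card {T : Finset (ZMod p × ZMod p) // T.card = 10 ∧ R3 T} : ℚ))
      - ((p : ℚ) ^ 2 * lift (fun p _ => ∑ f : Fin 3 → ZMod p, ∑ g : Fin 4 → ZMod p,
        if Cop f g then ((p + 2 - zer (bq f) - zer (bc g)).choose 10 : ℚ) else 0) p
      + (p + 1) * lift (fun p _ => ∑ f : Fin 3 → ZMod p, ∑ g : Fin 4 → ZMod p,
        if Cop f g then ((p - Nat.card {m : ZMod p // bq f (m, 1) = 0}).choose 10 : ℚ) else 0) p)
        / ((p : ℚ) - 1)) - (N10 p : ℚ)) := by
    refine IsRat.sub (IsRat.mul (IsRat.const _) (IsRat.sub (IsRat.sub ?_ ?_) (IsRat.div ?_ ?_ ?_))) h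
    · apply IsRat.choose (a := fun p => p ^ 2)
      have := IsRat.id.pow 2
      exact this.congr (by intro p _ _; push_cast; rfl)
    · exact (isRat_R1.add isRat_R2).add isRat_R3
    · exact ((IsRat.id.pow 2).mul isRat_A).add ((IsRat.id.add (IsRat.const 1)).mul isRat_B)
    · exact IsRat.id.sub (IsRat.const 1)
    · intro p hp h5
      have : (5 : ℚ) ≤ p := by exact_mod_cast h5
      linarith
  refine (IsRat.div hX ((IsRat.id.pow 3).mul ((IsRat.id.pow 2).sub (IsRat.const 1))) hcong).congr ?_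
  intro p hp h5
  haveI : Fact p.Prime := ⟨hp⟩
  have h1 := N10_eq p
  have h2 := card_cubT p h5
  have h3 := card_RedT p h5
  have h4 := sum_singular p h5
  have h5' := sum_smooth p h5
  have e : cT p = TT p := lift_apply _ p
  rw [e, div_eq_iff (hcong p hp h5)]
  rw [lift_apply, lift_apply, h1, h2, h3, h4]
  linear_combination h5'

end Pool.Agent.T2H70.SR
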