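import Pool.Agent.T2H70.SR.A1
import Pool.Agent.T2H70.SR.B5

set_option autoImplicit false

/-!
# Package B6, part a: the number of points of a nonsingular conic
-/

namespace Pool.Agent.T2H70.SR

open Finset
open scoped BigOperators

namespace PB6

variable {p : ℕ} [Fact p.Prime]

/-- the quadratic character -/
noncomputable abbrev ch (x : ZMod p) : ℤ := quadraticChar (ZMod p) x

lemma ringChar_ne (hp : 5 ≤ p) : ringChar (ZMod p) ≠ 2 := by
  rw [ZMod.ringChar_zmod_n]
  omega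

lemma nat_ne_zero {n : ℕ} (h0 : 0 < n) (hn : n < p) : (n : ZMod p) ≠ 0 := by
  intro h
  have := (ZMod.natCast_eq_zero_iff n p).1 h
  have := Nat.le_of_dvd h0 this
  omega

lemma two_ne (hp : 5 ≤ p) : (2 : ZMod p) ≠ 0 := by
  have := nat_ne_zero (p := p) (n := 2) (by norm_num) (by omega)
  exact_mod_cast this

lemma four_ne (hp : 5 ≤ p) : (4 : ZMod p) ≠ 0 := by
  have := nat_ne_zero (p := p) (n := 4) (by norm_num) (by omega)
  exact_mod_cast this

lemma sqrts (hp : 5 ≤ p) (a : ZMod p) :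
    ((univ.filter fun x : ZMod p => x ^ 2 = a).card : ℤ) = ch a + 1 := by
  have h := quadraticChar_card_sqrts (ringChar_ne hp) a
  rw [← h]
  congr 2
  ext x
  simp

lemma sum_sq_sub (hp : 5 ≤ p) {a : ZMod p} (ha : a ≠ 0) :
    ∑ x : ZMod p, ch (x ^ 2 - a) = -1 := by
  have h2 := two_ne hp
  have e1 : ((univ.filter fun P : ZMod p × ZMod p => P.2 ^ 2 = P.1 ^ 2 - a).card : ℤ) =
      ∑ x : ZMod p, (ch (x ^ 2 - a) + 1) := by
    have : (univ.filter fun P : ZMod p × ZMod p => P.2 ^ 2 = P.1 ^ 2 - a).card =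
        ∑ x : ZMod p, (univ.filter fun y : ZMod p => y ^ 2 = x ^ 2 - a).card := by
      rw [card_filter, Fintype.sum_prod_type]
      exact sum_congr rfl fun x _ => by rw [card_filter]
    rw [this]
    push_cast
    exact sum_congr rfl fun x _ => sqrts hp _
  have e2 : (univ.filter fun P : ZMod p × ZMod p => P.2 ^ 2 = P.1 ^ 2 - a).card =
      (univ.erase (0 : ZMod p)).card := by
    refine card_nbij' (fun P => P.1 + P.2) (fun u => ((u + a / u) / 2, (u - a / u) / 2)) ?_ ?_ ?_ ?_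
    · intro P hP
      have hP' : P.2 ^ 2 = P.1 ^ 2 - a := by simpa using hP
      have : P.1 + P.2 ≠ 0 := by
        intro h
        apply ha
        linear_combination (P.1 - P.2) * h + hP'
      simpa using this
    · intro u hu
      have hu' : u ≠ 0 := by simpa using hu
      simp only [coe_filter, mem_univ, true_and, Set.mem_setOf_eq]
      field_simp
      ring
    · intro P hP
      have hP' : P.2 ^ 2 = P.1 ^ 2 - a := by simpa using hP
      have h0 : P.1 + P.2 ≠ 0 := by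
        intro h
        apply ha
        linear_combination (P.1 - P.2) * h + hP'
      have h3 : a / (P.1 + P.2) = P.1 - P.2 := by
        rw [div_eq_iff h0]
        linear_combination hP'
      refine Prod.ext ?_ ?_
      · show (P.1 + P.2 + a / (P.1 + P.2)) / 2 = P.1
        rw [h3]
        field_simp
        ring
      · show (P.1 + P.2 - a / (P.1 + P.2)) / 2 = P.2
        rw [h3]
        field_simp
        ring
    · intro u hu
      have hu' : u ≠ 0 := by simpa using hu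
      show (u + a / u) / 2 + (u - a / u) / 2 = u
      field_simp
      ring
  rw [e2, card_erase_of_mem (mem_univ _), card_univ, ZMod.card, sum_add_distrib, sum_const,
    card_univ, ZMod.card, nsmul_eq_mul, mul_one] at e1
  have hp1 : ((p - 1 : ℕ) : ℤ) = p - 1 := by
    rw [Nat.cast_sub (by omega)]
    simp
  rw [hp1] at e1
  linarith

lemma ch_four (hp : 5 ≤ p) : ch (4 : ZMod p) = 1 := by
  have : (4 : ZMod p) = 2 ^ 2 := by norm_num
  rw [ch, this]
  exact quadraticChar_sq_one' (two_ne hp)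

lemma sum_quad (hp : 5 ≤ p) (α β γ : ZMod p) (h : β ^ 2 - 4 * α * γ ≠ 0) :
    ∑ x : ZMod p, ch (α * x ^ 2 + β * x + γ) = -ch α := by
  by_cases hα : α = 0
  · subst hα
    have hβ : β ≠ 0 := by
      intro h0
      apply h
      rw [h0]
      ring
    have e1 : ∑ x : ZMod p, ch (0 * x ^ 2 + β * x + γ) = ∑ y : ZMod p, ch y := by
      refine Fintype.sum_bijective (fun x : ZMod p => β * x + γ) ?_ _ _ fun x => by
        congr 1
        ring
      refine ⟨fun x y hxy => ?_, fun y => ⟨(y - γ) / β, ?_⟩⟩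
      · have : β * x + γ = β * y + γ := hxy
        exact mul_left_cancel₀ hβ (add_right_cancel this)
      · show β * ((y - γ) / β) + γ = y
        field_simp
        ring
    rw [e1, quadraticChar_sum_zero (ringChar_ne hp)]
    simp [ch]
  · have h4 := four_ne hp
    have h2 := two_ne hp
    have e1 : ch α * ∑ x : ZMod p, ch (α * x ^ 2 + β * x + γ) =
        ∑ x : ZMod p, ch ((2 * α * x + β) ^ 2 - (β ^ 2 - 4 * α * γ)) := by
      rw [mul_sum]
      refine sum_congr rfl fun x _ => ?_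
      have : (2 * α * x + β) ^ 2 - (β ^ 2 - 4 * α * γ) = 4 * (α * (α * x ^ 2 + β * x + γ)) := by
        ring
      rw [this]
      unfold ch
      rw [map_mul, map_mul]
      have h5 := ch_four hp
      unfold ch at h5
      rw [h5, one_mul]
    have e2 : ∑ x : ZMod p, ch ((2 * α * x + β) ^ 2 - (β ^ 2 - 4 * α * γ)) =
        ∑ u : ZMod p, ch (u ^ 2 - (β ^ 2 - 4 * α * γ)) := by
      refine Fintype.sum_bijective (fun x : ZMod p => 2 * α * x + β) ?_ _ _ fun x => rfl
      have h2α : 2 * α ≠ 0 := mul_ne_zero h2 hα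
      refine ⟨fun x y hxy => ?_, fun y => ⟨(y - β) / (2 * α), ?_⟩⟩
      · have : 2 * α * x + β = 2 * α * y + β := hxy
        exact mul_left_cancel₀ h2α (add_right_cancel this)
      · show 2 * α * ((y - β) / (2 * α)) + β = y
        field_simp
        ring
    rw [e2, sum_sq_sub hp h] at e1
    have h6 : ch α ^ 2 = 1 := quadraticChar_sq_one hα
    have h7 : ch α * (ch α * ∑ x : ZMod p, ch (α * x ^ 2 + β * x + γ)) = ch α * (-1) := by
      rw [e1]
    have h8 : ch α * (ch α * ∑ x : ZMod p, ch (α * x ^ 2 + β * x + γ)) =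
        ∑ x : ZMod p, ch (α * x ^ 2 + β * x + γ) := by
      rw [← mul_assoc, ← pow_two, h6, one_mul]
    rw [h8] at h7
    rw [h7]
    ring

lemma roots (hp : 5 ≤ p) {a : ZMod p} (ha : a ≠ 0) (b c : ZMod p) :
    ((univ.filter fun y : ZMod p => a * y ^ 2 + b * y + c = 0).card : ℤ) =
      ch (b ^ 2 - 4 * a * c) + 1 := by
  rw [← sqrts hp]
  have h4 := four_ne hp
  have h2 := two_ne hp
  have h2a : 2 * a ≠ 0 := mul_ne_zero h2 ha
  congr 1
  refine card_nbij' (fun y => 2 * a * y + b) (fun u => (u - b) / (2 * a)) ?_ ?_ ?_ ?_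
  · intro y hy
    have hy' : a * y ^ 2 + b * y + c = 0 := by simpa using hy
    have : (2 * a * y + b) ^ 2 = b ^ 2 - 4 * a * c := by linear_combination 4 * a * hy'
    simpa using this
  · intro u hu
    have hu' : u ^ 2 = b ^ 2 - 4 * a * c := by simpa using hu
    have h5 : 4 * a * (a * ((u - b) / (2 * a)) ^ 2 + b * ((u - b) / (2 * a)) + c) = 0 := by
      have h6 : 2 * a * ((u - b) / (2 * a)) = u - b := by
        field_simp
      linear_combination hu' + (2 * a * ((u - b) / (2 * a)) + (u - b) + 2 * b) * h6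
    have h7 : a * ((u - b) / (2 * a)) ^ 2 + b * ((u - b) / (2 * a)) + c = 0 :=
      (mul_eq_zero.1 h5).resolve_left (mul_ne_zero h4 ha)
    simpa using h7
  · intro y _
    show (2 * a * y + b - b) / (2 * a) = y
    field_simp
    ring
  · intro u _
    show 2 * a * ((u - b) / (2 * a)) + b = u
    field_simp
    ring

/-- the affine points of the conic -/
def V (q : Fin 6 → ZMod p) : Finset (ZMod p × ZMod p) := univ.filter fun P => qd q P = 0

lemma mem_V {q : Fin 6 → ZMod p} {P : ZMod p × ZMod p} : P ∈ V q ↔ qd q P = 0 := by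
  simp [V]

/-- the discriminant of the quadratic part -/
def Dl (q : Fin 6 → ZMod p) : ZMod p := q 1 ^ 2 - 4 * q 0 * q 2

lemma card_V1 (hp : 5 ≤ p) {q : Fin 6 → ZMod p} (h2 : q 2 ≠ 0) (hN : Nsc q) :
    ((V q).card : ℤ) = p - ch (Dl q) := by
  have h2' := two_ne hp
  have e1 : (V q).card = ∑ x : ZMod p, (univ.filter fun y : ZMod p =>
      q 2 * y ^ 2 + (q 1 * x + q 4) * y + (q 0 * x ^ 2 + q 3 * x + q 5) = 0).card := by
    unfold V
    rw [card_filter, Fintype.sum_prod_type]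
    refine sum_congr rfl fun x _ => ?_
    rw [card_filter]
    refine sum_congr rfl fun y _ => ?_
    have : qd q (x, y) = q 2 * y ^ 2 + (q 1 * x + q 4) * y + (q 0 * x ^ 2 + q 3 * x + q 5) := by
      unfold qd
      ring
    rw [this]
  have e2 : ((V q).card : ℤ) = ∑ x : ZMod p, (ch (Dl q * x ^ 2 + (2 * q 1 * q 4 - 4 * q 2 * q 3) * x +
      (q 4 ^ 2 - 4 * q 2 * q 5)) + 1) := by
    rw [e1]
    push_cast
    refine sum_congr rfl fun x _ => ?_
    rw [roots hp h2]
    congr 2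
    unfold Dl
    ring
  have hd : (2 * q 1 * q 4 - 4 * q 2 * q 3) ^ 2 - 4 * Dl q * (q 4 ^ 2 - 4 * q 2 * q 5) ≠ 0 := by
    have : (2 * q 1 * q 4 - 4 * q 2 * q 3) ^ 2 - 4 * Dl q * (q 4 ^ 2 - 4 * q 2 * q 5) =
        -(2 ^ 4 * q 2 * (4 * q 0 * q 2 * q 5 + q 1 * q 3 * q 4 - q 0 * q 4 ^ 2 - q 2 * q 3 ^ 2 -
          q 5 * q 1 ^ 2)) := by
      unfold Dl
      ring
    rw [this]
    exact neg_ne_zero.2 (mul_ne_zero (mul_ne_zero (pow_ne_zero 4 h2') h2) hN)
  rw [e2, sum_add_distrib, sum_quad hp _ _ _ hd, sum_const, card_univ, ZMod.card, nsmul_eq_mul]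
  ring

/-- swap of the coordinates -/
def qs (q : Fin 6 → ZMod p) : Fin 6 → ZMod p := ![q 2, q 1, q 0, q 4, q 3, q 5]

/-- shear -/
def qt (q : Fin 6 → ZMod p) : Fin 6 → ZMod p :=
  ![q 0 + q 1 + q 2, q 1 + 2 * q 2, q 2, q 3 + q 4, q 4, q 5]

lemma qd_qs (q : Fin 6 → ZMod p) (P : ZMod p × ZMod p) : qd (qs q) P = qd q (P.2, P.1) := by
  simp only [qd, qs, Matrix.cons_val]
  ring

lemma qd_qt (q : Fin 6 → ZMod p) (P : ZMod p × ZMod p) : qd (qt q) P = qd q (P.1, P.1 + P.2) := by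
  simp only [qd, qt, Matrix.cons_val]
  ring

lemma Nsc_qs {q : Fin 6 → ZMod p} : Nsc (qs q) ↔ Nsc q := by
  unfold Nsc
  have : 4 * qs q 0 * qs q 2 * qs q 5 + qs q 1 * qs q 3 * qs q 4 - qs q 0 * qs q 4 ^ 2 -
      qs q 2 * qs q 3 ^ 2 - qs q 5 * qs q 1 ^ 2 = 4 * q 0 * q 2 * q 5 + q 1 * q 3 * q 4 -
      q 0 * q 4 ^ 2 - q 2 * q 3 ^ 2 - q 5 * q 1 ^ 2 := by
    simp only [qs, Matrix.cons_val]
    ring
  rw [this]

lemma Nsc_qt {q : Fin 6 → ZMod p} : Nsc (qt q) ↔ Nsc q := by
  unfold Nsc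
  have : 4 * qt q 0 * qt q 2 * qt q 5 + qt q 1 * qt q 3 * qt q 4 - qt q 0 * qt q 4 ^ 2 -
      qt q 2 * qt q 3 ^ 2 - qt q 5 * qt q 1 ^ 2 = 4 * q 0 * q 2 * q 5 + q 1 * q 3 * q 4 -
      q 0 * q 4 ^ 2 - q 2 * q 3 ^ 2 - q 5 * q 1 ^ 2 := by
    simp only [qt, Matrix.cons_val]
    ring
  rw [this]

lemma Dl_qs (q : Fin 6 → ZMod p) : Dl (qs q) = Dl q := by
  simp only [Dl, qs, Matrix.cons_val]
  ring

lemma Dl_qt (q : Fin 6 → ZMod p) : Dl (qt q) = Dl q := by
  simp only [Dl, qt, Matrix.cons_val]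
  ring

lemma card_qs (q : Fin 6 → ZMod p) : (V (qs q)).card = (V q).card := by
  refine card_nbij' (fun P => (P.2, P.1)) (fun P => (P.2, P.1)) ?_ ?_ (fun _ _ => rfl)
    (fun _ _ => rfl)
  · intro P hP
    have := mem_V.1 (mem_coe.1 hP)
    rw [qd_qs] at this
    exact mem_coe.2 (mem_V.2 this)
  · intro P hP
    refine mem_coe.2 (mem_V.2 ?_)
    rw [qd_qs]
    exact mem_V.1 (mem_coe.1 hP)

lemma card_qt (q : Fin 6 → ZMod p) : (V (qt q)).card = (V q).card := by
  refine card_nbij' (fun P => (P.1, P.1 + P.2)) (fun P => (P.1, P.2 - P.1)) ?_ ?_ ?_ ?_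
  · intro P hP
    have := mem_V.1 (mem_coe.1 hP)
    rw [qd_qt] at this
    exact mem_coe.2 (mem_V.2 this)
  · intro P hP
    refine mem_coe.2 (mem_V.2 ?_)
    rw [qd_qt]
    have := mem_V.1 (mem_coe.1 hP)
    convert this using 2
    refine Prod.ext rfl ?_
    show P.1 + (P.2 - P.1) = P.2
    ring
  · intro P _
    refine Prod.ext rfl ?_
    show P.1 + P.2 - P.1 = P.2
    ring
  · intro P _
    refine Prod.ext rfl ?_
    show P.1 + (P.2 - P.1) = P.2
    ring

lemma card_V2 (hp : 5 ≤ p) {q : Fin 6 → ZMod p} (h0 : q 0 ≠ 0) (hN : Nsc q) :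
    ((V q).card : ℤ) = p - ch (Dl q) := by
  rw [← card_qs, ← Dl_qs]
  exact card_V1 hp (by simpa [qs] using h0) (Nsc_qs.2 hN)

/-- the number of affine points of a nonsingular conic -/
lemma card_V (hp : 5 ≤ p) {q : Fin 6 → ZMod p} (hN : Nsc q) :
    ((V q).card : ℤ) = p - ch (Dl q) := by
  by_cases h2 : q 2 = 0
  · by_cases h0 : q 0 = 0
    · have h1 : q 1 ≠ 0 := by
        intro h1
        apply hN
        rw [h0, h1, h2]
        ring
      rw [← card_qt, ← Dl_qt]
      refine card_V2 hp ?_ (Nsc_qt.2 hN)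
      simp only [qt, Matrix.cons_val]
      rw [h0, h2]
      simpa using h1
    · exact card_V2 hp h0 hN
  · exact card_V1 hp h2 hN

end PB6

end Pool.Agent.T2H70.SR
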