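import Pool.Agent.T2H70.SR.B6a

set_option autoImplicit false

/-!
# Package B6, part b: lines and conics through the points of a nonsingular conic
-/

namespace Pool.Agent.T2H70.SR

open Finset
open scoped BigOperators

namespace PB6

variable {p : ℕ} [Fact p.Prime]

lemma quad3 {A B C x y z : ZMod p} (hxy : x ≠ y) (hxz : x ≠ z) (hyz : y ≠ z)
    (h1 : A * x ^ 2 + B * x + C = 0) (h2 : A * y ^ 2 + B * y + C = 0)
    (h3 : A * z ^ 2 + B * z + C = 0) : A = 0 ∧ B = 0 ∧ C = 0 := by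
  have e1 : A * (x + y) + B = 0 := by
    apply mul_left_cancel₀ (sub_ne_zero.2 hxy)
    linear_combination h1 - h2
  have e2 : A * (x + z) + B = 0 := by
    apply mul_left_cancel₀ (sub_ne_zero.2 hxz)
    linear_combination h1 - h3
  have hA : A = 0 := by
    apply mul_left_cancel₀ (sub_ne_zero.2 hyz)
    linear_combination e1 - e2
  subst hA
  have hB : B = 0 := by linear_combination e1
  subst hB
  exact ⟨rfl, rfl, by linear_combination h1⟩

lemma van {q : Fin 6 → ZMod p} {m k x y z : ZMod p} (hxy : x ≠ y) (hxz : x ≠ z) (hyz : y ≠ z)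
    (h1 : qd q (x, m * x + k) = 0) (h2 : qd q (y, m * y + k) = 0)
    (h3 : qd q (z, m * z + k) = 0) :
    q 0 + q 1 * m + q 2 * m ^ 2 = 0 ∧ q 3 + q 4 * m + q 1 * k + 2 * q 2 * m * k = 0 ∧
      q 5 + q 4 * k + q 2 * k ^ 2 = 0 := by
  unfold qd at h1 h2 h3
  refine quad3 hxy hxz hyz ?_ ?_ ?_
  · linear_combination h1
  · linear_combination h2
  · linear_combination h3

lemma not_van {q : Fin 6 → ZMod p} (hN : Nsc q) {m k x y z : ZMod p} (hxy : x ≠ y) (hxz : x ≠ z)
    (hyz : y ≠ z) (h1 : qd q (x, m * x + k) = 0) (h2 : qd q (y, m * y + k) = 0) :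
    qd q (z, m * z + k) ≠ 0 := by
  intro h3
  obtain ⟨e1, e2, e3⟩ := van hxy hxz hyz h1 h2 h3
  apply hN
  have f1 : q 0 = -(q 1 * m) - q 2 * m ^ 2 := by linear_combination e1
  have f2 : q 3 = -(q 4 * m) - q 1 * k - 2 * q 2 * m * k := by linear_combination e2
  have f3 : q 5 = -(q 4 * k) - q 2 * k ^ 2 := by linear_combination e3
  rw [f1, f2, f3]
  ring

lemma arc1 {q : Fin 6 → ZMod p} (hN : Nsc q) {a b c : ZMod p} (hb : b ≠ 0)
    {P Q R : ZMod p × ZMod p} (hPQ : P ≠ Q) (hPR : P ≠ R) (hQR : Q ≠ R)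
    (h1 : qd q P = 0) (h2 : qd q Q = 0) (h3 : qd q R = 0)
    (g1 : a * P.1 + b * P.2 = c) (g2 : a * Q.1 + b * Q.2 = c) (g3 : a * R.1 + b * R.2 = c) :
    False := by
  have key : ∀ S : ZMod p × ZMod p, a * S.1 + b * S.2 = c → S.2 = (-a / b) * S.1 + c / b := by
    intro S hS
    field_simp
    linear_combination hS
  have inj : ∀ S S' : ZMod p × ZMod p, a * S.1 + b * S.2 = c → a * S'.1 + b * S'.2 = c →
      S ≠ S' → S.1 ≠ S'.1 := by
    intro S S' hS hS' hne h
    apply hne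
    refine Prod.ext h ?_
    rw [key S hS, key S' hS', h]
  have val : ∀ S : ZMod p × ZMod p, a * S.1 + b * S.2 = c → qd q S = 0 →
      qd q (S.1, (-a / b) * S.1 + c / b) = 0 := by
    intro S hS h
    rw [← key S hS]
    exact h
  exact not_van hN (inj P Q g1 g2 hPQ) (inj P R g1 g3 hPR) (inj Q R g2 g3 hQR) (val P g1 h1)
    (val Q g2 h2) (val R g3 h3)

/-- a nonsingular conic contains no three collinear points -/
lemma arc {q : Fin 6 → ZMod p} (hN : Nsc q) (a b c : ZMod p) (hab : (a, b) ≠ (0, 0)) :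
    cnt (V q) a b c ≤ 2 := by
  by_contra hcon
  push Not at hcon
  unfold cnt at hcon
  obtain ⟨P, hP, Q, hQ, R, hR, hPQ, hPR, hQR⟩ := Finset.two_lt_card.1 hcon
  rw [mem_filter, mem_V] at hP hQ hR
  by_cases hb : b = 0
  · have ha : a ≠ 0 := by
      intro ha
      exact hab (by rw [ha, hb])
    have hsw : ∀ S : ZMod p × ZMod p, qd q S = 0 → qd (qs q) (S.2, S.1) = 0 := by
      intro S hS
      rw [qd_qs]
      exact hS
    have hne : ∀ S S' : ZMod p × ZMod p, S ≠ S' → (S.2, S.1) ≠ (S'.2, S'.1) := by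
      intro S S' h h'
      apply h
      have h1 := congrArg Prod.fst h'
      have h2 := congrArg Prod.snd h'
      exact Prod.ext h2 h1
    refine arc1 (Nsc_qs.2 hN) ha (a := b) (c := c) (hne P Q hPQ) (hne P R hPR) (hne Q R hQR)
      (hsw P hP.1) (hsw Q hQ.1) (hsw R hR.1) ?_ ?_ ?_
    · show b * P.2 + a * P.1 = c
      rw [← hP.2]
      ring
    · show b * Q.2 + a * Q.1 = c
      rw [← hQ.2]
      ring
    · show b * R.2 + a * R.1 = c
      rw [← hR.2]
      ring
  · exact arc1 hN hb hPQ hPR hQR hP.1 hQ.1 hR.1 hP.2 hQ.2 hR.2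

/-- a set of points of the conic has at most two points on a line -/
lemma arc_sub {q : Fin 6 → ZMod p} (hN : Nsc q) {S : Finset (ZMod p × ZMod p)}
    (hS : ∀ P ∈ S, qd q P = 0) (a b c : ZMod p) (hab : (a, b) ≠ (0, 0))
    (hl : ∀ P ∈ S, a * P.1 + b * P.2 = c) : S.card ≤ 2 := by
  refine le_trans (card_le_card ?_) (arc hN a b c hab)
  intro P hP
  exact mem_filter.2 ⟨mem_V.2 (hS P hP), hl P hP⟩

lemma qd_sub_smul (q r : Fin 6 → ZMod p) (l : ZMod p) (P : ZMod p × ZMod p) :
    qd (q - l • r) P = qd q P - l * qd r P := by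
  simp only [qd, Pi.sub_apply, Pi.smul_apply, smul_eq_mul]
  ring

lemma qd_smul (q : Fin 6 → ZMod p) (l : ZMod p) (P : ZMod p × ZMod p) :
    qd (l • q) P = l * qd q P := by
  simp only [qd, Pi.smul_apply, smul_eq_mul]
  ring

/-- two conics through five points of a nonsingular conic agree -/
lemma five (hp : 5 ≤ p) {q q' : Fin 6 → ZMod p} (hN : Nsc q) {S : Finset (ZMod p × ZMod p)}
    (hS : 5 ≤ S.card) (h : ∀ P ∈ S, qd q P = 0) (h' : ∀ P ∈ S, qd q' P = 0) :
    ∃ l : ZMod p, q' = l • q := by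
  have h2 := two_ne hp
  obtain ⟨A, hA⟩ : S.Nonempty := card_pos.1 (by omega)
  obtain ⟨B, hB, hAB⟩ : ∃ B ∈ S, A.1 ≠ B.1 := by
    by_contra hcon
    push Not at hcon
    have := arc_sub hN h 1 0 A.1 (by simp) (fun P hP => by
      rw [hcon P hP]
      ring)
    omega
  obtain ⟨m, hm⟩ : ∃ m : ZMod p, m = (B.2 - A.2) / (B.1 - A.1) := ⟨_, rfl⟩
  obtain ⟨k, hk⟩ : ∃ k : ZMod p, k = A.2 - m * A.1 := ⟨_, rfl⟩
  have hBA : B.1 - A.1 ≠ 0 := sub_ne_zero.2 (Ne.symm hAB)
  have hm' : m * (B.1 - A.1) = B.2 - A.2 := by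
    rw [hm]
    field_simp
  have eA : (A.1, m * A.1 + k) = A := by
    refine Prod.ext rfl ?_
    show m * A.1 + k = A.2
    rw [hk]
    ring
  have eB : (B.1, m * B.1 + k) = B := by
    refine Prod.ext rfl ?_
    show m * B.1 + k = B.2
    rw [hk]
    linear_combination hm'
  have hx1 : A.1 ≠ 2 * B.1 - A.1 := by
    intro h0
    have : 2 * (B.1 - A.1) = 0 := by linear_combination -h0
    exact (mul_ne_zero h2 hBA) this
  have hx2 : B.1 ≠ 2 * B.1 - A.1 := by
    intro h0
    exact hBA (by linear_combination -h0)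
  obtain ⟨x0, hx0⟩ : ∃ x0 : ZMod p, x0 = 2 * B.1 - A.1 := ⟨_, rfl⟩
  rw [← hx0] at hx1 hx2
  have hP := not_van hN hAB hx1 hx2 (m := m) (k := k) (by rw [eA]; exact h A hA)
    (by rw [eB]; exact h B hB)
  obtain ⟨l, hl⟩ : ∃ l : ZMod p, l = qd q' (x0, m * x0 + k) / qd q (x0, m * x0 + k) := ⟨_, rfl⟩
  obtain ⟨r, hr⟩ : ∃ r : Fin 6 → ZMod p, r = q' - l • q := ⟨_, rfl⟩
  have hrS : ∀ P ∈ S, qd r P = 0 := by
    intro P hP
    rw [hr, qd_sub_smul, h P hP, h' P hP]
    ring
  have hrx : qd r (x0, m * x0 + k) = 0 := by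
    rw [hr, qd_sub_smul, hl]
    field_simp
    ring
  obtain ⟨e1, e2, e3⟩ := van hAB hx1 hx2 (q := r) (m := m) (k := k) (by rw [eA]; exact hrS A hA)
    (by rw [eB]; exact hrS B hB) hrx
  have fac : ∀ P : ZMod p × ZMod p, qd r P =
      (P.2 - m * P.1 - k) * (r 2 * P.2 + (r 1 + r 2 * m) * P.1 + (r 4 + r 2 * k)) := by
    intro P
    unfold qd
    linear_combination P.1 ^ 2 * e1 + P.1 * e2 + e3
  have hAB' : A ≠ B := fun h0 => hAB (by rw [h0])
  -- the remaining points
  have hcard : 3 ≤ ((S.erase A).erase B).card := by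
    have c1 : (S.erase A).card = S.card - 1 := card_erase_of_mem hA
    have c2 : ((S.erase A).erase B).card = (S.erase A).card - 1 :=
      card_erase_of_mem (mem_erase.2 ⟨Ne.symm hAB', hB⟩)
    omega
  have hoff : ∀ P ∈ (S.erase A).erase B, P.2 - m * P.1 - k ≠ 0 := by
    intro P hP h0
    rw [mem_erase, mem_erase] at hP
    have hline : P.2 = m * P.1 + k := by linear_combination h0
    have h3 := arc_sub hN (S := {A, B, P}) (by
      intro X hX
      rw [mem_insert, mem_insert, mem_singleton] at hX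
      rcases hX with rfl | rfl | rfl
      · exact h _ hA
      · exact h _ hB
      · exact h _ hP.2.2) (-m) 1 k (by
        intro h4
        have := congrArg Prod.snd h4
        exact one_ne_zero this) (by
      intro X hX
      rw [mem_insert, mem_insert, mem_singleton] at hX
      rcases hX with rfl | rfl | rfl
      · rw [hk]
        ring
      · have := congrArg Prod.snd eB
        simp only at this
        rw [← this]
        ring
      · rw [hline]
        ring)
    have h4 : ({A, B, P} : Finset (ZMod p × ZMod p)).card = 3 := by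
      rw [card_eq_three]
      exact ⟨A, B, P, hAB', Ne.symm hP.2.1, Ne.symm hP.1, rfl⟩
    omega
  have hlin : ∀ P ∈ (S.erase A).erase B,
      (r 1 + r 2 * m) * P.1 + r 2 * P.2 = -(r 4 + r 2 * k) := by
    intro P hP
    have h3 := fac P
    have hPS : P ∈ S := mem_of_mem_erase (mem_of_mem_erase hP)
    rw [hrS P hPS] at h3
    have h4 := (mul_eq_zero.1 h3.symm).resolve_left (hoff P hP)
    linear_combination h4
  have hz : (r 1 + r 2 * m, r 2) = (0, 0) := by
    by_contra hne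
    have := arc_sub hN (S := (S.erase A).erase B)
      (fun P hP => h P (mem_of_mem_erase (mem_of_mem_erase hP))) _ _ _ hne hlin
    omega
  have hz2 : r 2 = 0 := congrArg Prod.snd hz
  have hz1 : r 1 = 0 := by
    have := congrArg Prod.fst hz
    simp only at this
    rw [hz2] at this
    linear_combination this
  obtain ⟨C, hC⟩ : ((S.erase A).erase B).Nonempty := card_pos.1 (by omega)
  have hz4 : r 4 = 0 := by
    have := hlin C hC
    rw [hz1, hz2] at this
    linear_combination this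
  have hz0 : r 0 = 0 := by
    rw [hz1, hz2] at e1
    linear_combination e1
  have hz3 : r 3 = 0 := by
    rw [hz1, hz2, hz4] at e2
    linear_combination e2
  have hz5 : r 5 = 0 := by
    rw [hz2, hz4] at e3
    linear_combination e3
  refine ⟨l, ?_⟩
  have hr0 : r = 0 := by
    funext i
    fin_cases i
    · exact hz0
    · exact hz1
    · exact hz2
    · exact hz3
    · exact hz4
    · exact hz5
  rw [hr] at hr0
  exact sub_eq_zero.1 hr0

/-- two lines with two common points agree -/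
lemma lines_eq {a b c a' b' c' : ZMod p} (h' : (a', b') ≠ (0, 0))
    {P Q : ZMod p × ZMod p} (hPQ : P ≠ Q) (h1 : a * P.1 + b * P.2 = c) (h2 : a * Q.1 + b * Q.2 = c)
    (h3 : a' * P.1 + b' * P.2 = c') (h4 : a' * Q.1 + b' * Q.2 = c')
    {R : ZMod p × ZMod p} (hR : a' * R.1 + b' * R.2 = c') : a * R.1 + b * R.2 = c := by
  have d1 : a * (Q.1 - P.1) + b * (Q.2 - P.2) = 0 := by linear_combination h2 - h1
  have d2 : a' * (Q.1 - P.1) + b' * (Q.2 - P.2) = 0 := by linear_combination h4 - h3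
  have hdet : a * b' - a' * b = 0 := by
    by_contra hne
    apply hPQ
    have x1 : (a * b' - a' * b) * (Q.1 - P.1) = 0 := by linear_combination b' * d1 - b * d2
    have x2 : (a * b' - a' * b) * (Q.2 - P.2) = 0 := by linear_combination a * d2 - a' * d1
    have y1 := (mul_eq_zero.1 x1).resolve_left hne
    have y2 := (mul_eq_zero.1 x2).resolve_left hne
    exact Prod.ext (sub_eq_zero.1 y1).symm (sub_eq_zero.1 y2).symm
  by_cases ha : a' = 0
  · have hb : b' ≠ 0 := fun hb => h' (by rw [ha, hb])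
    apply mul_left_cancel₀ hb
    linear_combination (R.1 - P.1) * hdet + b * (hR - h3) + b' * h1
  · apply mul_left_cancel₀ ha
    linear_combination -(R.2 - P.2) * hdet + a * (hR - h3) + a' * h1

/-- the relation between conics and sets of ten points -/
def Rel (q : Fin 6 → ZMod p) (T : Finset (ZMod p × ZMod p)) : Prop :=
  T.card = 10 ∧ ¬ R1 T ∧ 6 ≤ (T ∩ V q).card ∧
    ∃ a b c : ZMod p, (a, b) ≠ (0, 0) ∧ ∀ P ∈ T, P ∉ V q → a * P.1 + b * P.2 = c

/-- at most one conic -/
lemma unique (hp : 5 ≤ p) {q q' : Fin 6 → ZMod p} (hN : Nsc q) (hN' : Nsc q')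
    {T : Finset (ZMod p × ZMod p)} (h : Rel q T) (h' : Rel q' T) : ∃ l : ZMod p, q' = l • q := by
  obtain ⟨hT, hR, h6, a, b, c, hab, hl⟩ := h
  obtain ⟨-, -, h6', a', b', c', hab', hl'⟩ := h'
  by_cases h5 : 5 ≤ ((T ∩ V q) ∩ (T ∩ V q')).card
  · refine five hp hN h5 ?_ ?_
    · intro P hP
      exact mem_V.1 (mem_inter.1 (mem_inter.1 hP).1).2
    · intro P hP
      exact mem_V.1 (mem_inter.1 (mem_inter.1 hP).2).2
  exfalso
  have i1 : ((T ∩ V q') \ (T ∩ V q)).card ≤ 2 := by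
    refine arc_sub hN' (fun P hP => mem_V.1 (mem_inter.1 (mem_sdiff.1 hP).1).2) a b c hab ?_
    intro P hP
    have hPT : P ∈ T := (mem_inter.1 (mem_sdiff.1 hP).1).1
    refine hl P hPT fun hV => (mem_sdiff.1 hP).2 (mem_inter.2 ⟨hPT, hV⟩)
  have i2 : ((T ∩ V q) \ (T ∩ V q')).card ≤ 2 := by
    refine arc_sub hN (fun P hP => mem_V.1 (mem_inter.1 (mem_sdiff.1 hP).1).2) a' b' c' hab' ?_
    intro P hP
    have hPT : P ∈ T := (mem_inter.1 (mem_sdiff.1 hP).1).1
    refine hl' P hPT fun hV => (mem_sdiff.1 hP).2 (mem_inter.2 ⟨hPT, hV⟩)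
  obtain ⟨A, hA⟩ : ∃ A, A = T ∩ V q := ⟨_, rfl⟩
  obtain ⟨A', hA'⟩ : ∃ A', A' = T ∩ V q' := ⟨_, rfl⟩
  rw [← hA, ← hA'] at i1 i2 h5
  rw [← hA] at h6
  rw [← hA'] at h6'
  have hAT : A ⊆ T := by rw [hA]; exact inter_subset_left
  have hAT' : A' ⊆ T := by rw [hA']; exact inter_subset_left
  have j1 : (A' \ A).card + (A' ∩ A).card = A'.card := card_sdiff_add_card_inter A' A
  have j2 : (A \ A').card + (A ∩ A').card = A.card := card_sdiff_add_card_inter A A'
  have j3 : (A' ∩ A).card = (A ∩ A').card := by rw [inter_comm]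
  have j4 : (A ∪ A').card + (A ∩ A').card = A.card + A'.card := card_union_add_card_inter A A'
  have j5 : (T \ (A ∪ A')).card = T.card - (A ∪ A').card :=
    card_sdiff_of_subset (union_subset hAT hAT')
  have hcard : 1 < (T \ (A ∪ A')).card := by omega
  obtain ⟨P, hP, Q, hQ, hPQ⟩ := one_lt_card.1 hcard
  have on : ∀ X ∈ T, X ∉ A → a * X.1 + b * X.2 = c := by
    intro X hX hXA
    refine hl X hX fun hV => hXA ?_
    rw [hA]
    exact mem_inter.2 ⟨hX, hV⟩
  have on' : ∀ X ∈ T, X ∉ A' → a' * X.1 + b' * X.2 = c' := by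
    intro X hX hXA
    refine hl' X hX fun hV => hXA ?_
    rw [hA']
    exact mem_inter.2 ⟨hX, hV⟩
  rw [mem_sdiff, mem_union] at hP hQ
  push Not at hP hQ
  apply hR
  refine ⟨a, b, c, hab, ?_⟩
  have hsub : T \ (A ∩ A') ⊆ T.filter (fun P => a * P.1 + b * P.2 = c) := by
    intro X hX
    rw [mem_sdiff, mem_inter, not_and_or] at hX
    refine mem_filter.2 ⟨hX.1, ?_⟩
    rcases hX.2 with hX2 | hX2
    · exact on X hX.1 hX2
    · exact lines_eq hab' hPQ (on P hP.1 hP.2.1) (on Q hQ.1 hQ.2.1) (on' P hP.1 hP.2.2)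
        (on' Q hQ.1 hQ.2.2) (on' X hX.1 hX2)
  have j6 : (T \ (A ∩ A')).card = T.card - (A ∩ A').card :=
    card_sdiff_of_subset (inter_subset_left.trans hAT)
  have j7 := card_le_card hsub
  unfold cnt
  omega

end PB6

end Pool.Agent.T2H70.SR
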