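import Pool.Agent.T2H70.SR.Defs

set_option autoImplicit false

/-! # Package C1: general lemmas for the kernel computation -/

namespace Pool.Agent.T2H70.SR.C1

open Finset
open scoped BigOperators

/-! ### computable functions -/

/-- sum over `i < n` -/
def rsum (n : ℕ) (f : ℕ → ℕ) : ℕ := Nat.rec 0 (fun i r => r + f i) n

theorem rsum_eq (n : ℕ) (f : ℕ → ℕ) : rsum n f = ∑ i ∈ range n, f i := by
  induction n with
  | zero => rfl
  | succ n ih => rw [Finset.sum_range_succ, ← ih]; rfl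

/-- conjunction over `i < n` -/
def rall (n : ℕ) (f : ℕ → Bool) : Bool := Nat.rec true (fun i r => r && f i) n

theorem rall_iff (n : ℕ) (f : ℕ → Bool) : rall n f = true ↔ ∀ i < n, f i = true := by
  induction n with
  | zero => simp [rall]
  | succ n ih =>
    have h : rall (n + 1) f = (rall n f && f n) := rfl
    rw [h, Bool.and_eq_true, ih]
    constructor
    · rintro ⟨h1, h2⟩ i hi
      rcases Nat.lt_succ_iff_lt_or_eq.1 hi with h | h
      · exact h1 i h
      · rw [h]; exact h2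
    · intro h1
      exact ⟨fun i hi => h1 i (by omega), h1 n (by omega)⟩

/-- disjunction over `i < n` -/
def rany (n : ℕ) (f : ℕ → Bool) : Bool := Nat.rec false (fun i r => r || f i) n

theorem rany_iff (n : ℕ) (f : ℕ → Bool) : rany n f = true ↔ ∃ i < n, f i = true := by
  induction n with
  | zero => simp [rany]
  | succ n ih =>
    have h : rany (n + 1) f = (rany n f || f n) := rfl
    rw [h, Bool.or_eq_true, ih]
    constructor
    · rintro (⟨i, hi, h2⟩ | h2)
      · exact ⟨i, by omega, h2⟩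
      · exact ⟨n, by omega, h2⟩
    · rintro ⟨i, hi, h2⟩
      rcases Nat.lt_succ_iff_lt_or_eq.1 hi with h | h
      · exact Or.inl ⟨i, h, h2⟩
      · right; rw [← h]; exact h2

/-! ### digits -/

theorem lt_pow (B : ℕ) (c : ℕ → ℕ) : ∀ k : ℕ, (∀ j < k, c j < B) → ∑ j ∈ range k, c j * B ^ j < B ^ k := by
  intro k
  induction k with
  | zero => intro _; simp
  | succ k ih =>
    intro h
    rw [Finset.sum_range_succ]
    have h1 := ih (fun j hj => h j (by omega))
    have h2 := h k (by omega)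
    calc ∑ j ∈ range k, c j * B ^ j + c k * B ^ k < B ^ k + c k * B ^ k := by omega
      _ = (c k + 1) * B ^ k := by ring
      _ ≤ B * B ^ k := Nat.mul_le_mul_right _ h2
      _ = B ^ (k + 1) := by ring

/-- a block of digits -/
theorem block (B : ℕ) (c : ℕ → ℕ) (y q r : ℕ) (hc : ∀ j < y + q, c j < B) :
    (∑ j ∈ range (y + q + r), c j * B ^ j) / B ^ y % B ^ q = ∑ j ∈ range q, c (y + j) * B ^ j := by
  have hB : 0 < B ^ y ∧ 0 < B ^ q := by
    rcases Nat.eq_zero_or_pos B with h | h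
    · rcases Nat.eq_zero_or_pos (y + q) with h0 | h0
      · have h1 : y = 0 := by omega
        have h2 : q = 0 := by omega
        rw [h1, h2]; simp
      · exact absurd (hc 0 h0) (by omega)
    · exact ⟨Nat.pow_pos h, Nat.pow_pos h⟩
  rw [Finset.sum_range_add, Finset.sum_range_add]
  have h1 := lt_pow B c y (fun j hj => hc j (by omega))
  have h2 := lt_pow B (fun j => c (y + j)) q (fun j hj => hc (y + j) (by omega))
  have e1 : ∑ x ∈ range q, c (y + x) * B ^ (y + x) = B ^ y * ∑ x ∈ range q, c (y + x) * B ^ x := by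
    rw [Finset.mul_sum]
    exact Finset.sum_congr rfl (fun x _ => by rw [pow_add]; ring)
  have e2 : ∑ x ∈ range r, c (y + q + x) * B ^ (y + q + x) =
      B ^ y * (B ^ q * ∑ x ∈ range r, c (y + q + x) * B ^ x) := by
    rw [Finset.mul_sum, Finset.mul_sum]
    exact Finset.sum_congr rfl (fun x _ => by rw [pow_add, pow_add]; ring)
  rw [e1, e2, add_assoc, ← mul_add, Nat.add_mul_div_left _ _ hB.1, Nat.div_eq_of_lt h1, zero_add,
    Nat.add_mul_mod_self_left, Nat.mod_eq_of_lt h2]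

theorem digit (B : ℕ) (c : ℕ → ℕ) (J k : ℕ) (hk : k < J) (hc : ∀ j < J, c j < B) :
    (∑ j ∈ range J, c j * B ^ j) / B ^ k % B = c k := by
  have h := block B c k 1 (J - k - 1) (fun j hj => hc j (by omega))
  rw [show k + 1 + (J - k - 1) = J by omega] at h
  simpa using h

/-- expansion of a natural number -/
theorem expand (B Y : ℕ) (hB : 0 < B) : ∀ J : ℕ, Y < B ^ J → Y = ∑ j ∈ range J, (Y / B ^ j % B) * B ^ j := by
  intro J
  induction J generalizing Y with
  | zero => intro h; simp at h; simp [h]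
  | succ J ih =>
    intro h
    rw [Finset.sum_range_succ']
    have h1 : Y / B < B ^ J := by
      rw [Nat.div_lt_iff_lt_mul hB]
      rwa [pow_succ] at h
    have h2 := ih (Y / B) h1
    have h3 : ∑ k ∈ range J, Y / B ^ (k + 1) % B * B ^ (k + 1) =
        B * ∑ j ∈ range J, (Y / B / B ^ j % B) * B ^ j := by
      rw [Finset.mul_sum]
      refine Finset.sum_congr rfl (fun x _ => ?_)
      rw [Nat.div_div_eq_div_mul, pow_succ, mul_comm (B ^ x) B]
      ring
    rw [h3, ← h2]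
    simp only [pow_zero, Nat.div_one, mul_one]
    exact (Nat.div_add_mod Y B).symm

/-- histogram -/
theorem hist {ι : Type} (s : Finset ι) (m : ι → ℕ) (b J : ℕ) (hb : s.card < b)
    (hm : ∀ i ∈ s, m i < J) (f : ℕ → ℚ) :
    ∑ i ∈ s, f (m i) = ∑ j ∈ range J, (((∑ i ∈ s, b ^ m i) / b ^ j % b : ℕ) : ℚ) * f j := by
  classical
  have h1 : ∑ i ∈ s, b ^ m i = ∑ j ∈ range J, (s.filter (fun i => m i = j)).card * b ^ j := by
    rw [← Finset.sum_fiberwise_of_maps_to (g := m) (t := range J) (fun i hi => mem_range.2 (hm i hi))]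
    refine Finset.sum_congr rfl (fun j _ => ?_)
    rw [Finset.sum_congr rfl (g := fun _ => b ^ j) (fun i hi => by rw [(mem_filter.1 hi).2]),
      Finset.sum_const, smul_eq_mul]
  have h2 : ∀ j ∈ range J, (∑ i ∈ s, b ^ m i) / b ^ j % b = (s.filter (fun i => m i = j)).card := by
    intro j hj
    rw [h1]
    exact digit b _ J j (mem_range.1 hj)
      (fun j _ => lt_of_le_of_lt (Finset.card_filter_le _ _) hb)
  rw [← Finset.sum_fiberwise_of_maps_to (g := m) (t := range J) (fun i hi => mem_range.2 (hm i hi))]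
  refine Finset.sum_congr rfl (fun j hj => ?_)
  rw [h2 j hj, Finset.sum_congr rfl (g := fun _ => f j) (fun i hi => by rw [(mem_filter.1 hi).2]),
    Finset.sum_const, nsmul_eq_mul]

/-! ### the quadratic character -/

/-- one plus the quadratic character -/
def ch (p z : ℕ) : ℕ := cond (z % p == 0) 1 (cond (rany p (fun a => a * a % p == z % p)) 2 0)

theorem ch_le (p z : ℕ) : ch p z ≤ 2 := by
  unfold ch
  cases (z % p == 0) <;> cases (rany p (fun a => a * a % p == z % p)) <;> simp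

theorem ch_eq (p : ℕ) [hp : Fact p.Prime] (z : ℕ) :
    ((ch p z : ℕ) : ℚ) = 1 + (quadraticChar (ZMod p) (z : ZMod p) : ℚ) := by
  have hp0 : 0 < p := hp.out.pos
  unfold ch
  by_cases hz : z % p = 0
  · have h1 : (z : ZMod p) = 0 := (ZMod.natCast_eq_zero_iff z p).2 (Nat.dvd_of_mod_eq_zero hz)
    rw [h1, quadraticChar_zero]
    simp [hz]
  · have h1 : (z : ZMod p) ≠ 0 := fun h => hz (Nat.mod_eq_zero_of_dvd ((ZMod.natCast_eq_zero_iff z p).1 h))
    have h2 : (z % p == 0) = false := by simpa using hz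
    rw [h2]
    by_cases hs : IsSquare (z : ZMod p)
    · have h3 : rany p (fun a => a * a % p == z % p) = true := by
        rw [rany_iff]
        obtain ⟨r, hr⟩ := hs
        refine ⟨r.val, ZMod.val_lt r, ?_⟩
        rw [beq_iff_eq]
        have h4 : ((r.val * r.val : ℕ) : ZMod p) = (z : ZMod p) := by
          push_cast
          rw [ZMod.natCast_zmod_val, hr]
        exact (ZMod.natCast_eq_natCast_iff' _ _ _).1 h4
      rw [h3, (quadraticChar_one_iff_isSquare h1).2 hs]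
      norm_num
    · have h3 : rany p (fun a => a * a % p == z % p) = false := by
        rw [Bool.eq_false_iff]
        intro h
        rw [Ne, rany_iff] at *
        obtain ⟨a, _, ha⟩ := h
        rw [beq_iff_eq] at ha
        apply hs
        refine ⟨(a : ZMod p), ?_⟩
        have := (ZMod.natCast_eq_natCast_iff' (a * a) z p).2 ha
        rw [← this]
        push_cast
        ring
      rw [h3, quadraticChar_neg_one_iff_not_isSquare.2 hs]
      norm_num

/-- the table is correct -/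
def tab (p Y : ℕ) : Bool :=
  (decide (Y < 256 ^ (2 * p))) && rall (2 * p) (fun z => (Y / 256 ^ z % 256 == ch p z))

/-- packed values for all `b < p` -/
def Wf (p Y a : ℕ) : ℕ := rsum p (fun x => (Y / 256 ^ ((x ^ 3 + a * x) % p)) % 256 ^ p)

/-- the packed histogram -/
def Gh (p Y : ℕ) : ℕ :=
  rsum p (fun a => rsum p (fun b => cond ((4 * a ^ 3 + 27 * b ^ 2) % p == 0) 0
    ((2 ^ 32) ^ ((Wf p Y a / 256 ^ b) % 256))))

theorem Wf_eq (p Y : ℕ) (hp : 0 < p) (h2 : 2 * p < 256) (hY : tab p Y = true) (a b : ℕ) (hb : b < p) :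
    (Wf p Y a / 256 ^ b) % 256 = ∑ x ∈ range p, ch p (x ^ 3 + a * x + b) := by
  unfold tab at hY
  rw [Bool.and_eq_true, decide_eq_true_iff, rall_iff] at hY
  obtain ⟨h3, h4⟩ := hY
  have h5 : Y = ∑ j ∈ range (2 * p), ch p j * 256 ^ j := by
    conv_lhs => rw [expand 256 Y (by norm_num) (2 * p) h3]
    refine Finset.sum_congr rfl (fun j hj => ?_)
    have := h4 j (mem_range.1 hj)
    rw [beq_iff_eq] at this
    rw [this]
  have hper : ∀ z, ch p (z % p) = ch p z := by
    intro z; unfold ch; rw [Nat.mod_mod]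
  have hadd : ∀ z w, ch p (z % p + w) = ch p (z + w) := by
    intro z w; unfold ch; rw [Nat.mod_add_mod]
  have h6 : ∀ x, (Y / 256 ^ ((x ^ 3 + a * x) % p)) % 256 ^ p =
      ∑ j ∈ range p, ch p (x ^ 3 + a * x + j) * 256 ^ j := by
    intro x
    have hlt : (x ^ 3 + a * x) % p < p := Nat.mod_lt _ hp
    have h7 := block 256 (ch p) ((x ^ 3 + a * x) % p) p (p - (x ^ 3 + a * x) % p)
      (fun j _ => lt_of_le_of_lt (ch_le p j) (by norm_num))
    rw [show (x ^ 3 + a * x) % p + p + (p - (x ^ 3 + a * x) % p) = 2 * p by omega, ← h5] at h7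
    rw [h7]
    exact Finset.sum_congr rfl (fun j _ => by rw [hadd])
  have h8 : Wf p Y a = ∑ j ∈ range p, (∑ x ∈ range p, ch p (x ^ 3 + a * x + j)) * 256 ^ j := by
    unfold Wf
    rw [rsum_eq, Finset.sum_congr rfl (fun x _ => h6 x), Finset.sum_comm]
    exact Finset.sum_congr rfl (fun j _ => by rw [Finset.sum_mul])
  rw [h8]
  refine digit 256 _ p b hb (fun j _ => ?_)
  calc ∑ x ∈ range p, ch p (x ^ 3 + a * x + j) ≤ ∑ x ∈ range p, 2 :=
        Finset.sum_le_sum (fun x _ => ch_le p _)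
    _ = 2 * p := by rw [Finset.sum_const, card_range, smul_eq_mul, mul_comm]
    _ < 256 := h2

/-- six times `Psi p (1 + m) 1` -/
def GZ (x : ℤ) : ℤ :=
  x * (x - 1) * (x - 2) * (x - 3) * (x - 4) * (x - 5) * (x - 6) * (x - 7) * (x - 8) * (x - 9)

def PZ (p N : ℤ) : ℤ :=
  (N ^ 2 - 3 * N + 2) * GZ (N - 3) + 6 * (N - 1) * GZ (N - 2)
    + (6 * N * (p + 1) - 3 * N ^ 2 - 3 * N + 6) * GZ (N - 1)
    + (6 * (p ^ 2 + p + 1) - 6 * N * (p + 1) + 2 * N ^ 2 - 2) * GZ N

theorem Gf_eq (x : ℚ) : Gf x =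
  x * (x - 1) * (x - 2) * (x - 3) * (x - 4) * (x - 5) * (x - 6) * (x - 7) * (x - 8) * (x - 9) := by
  unfold Gf
  simp only [Finset.prod_range_succ, Finset.prod_range_zero]
  norm_num

theorem PZ_eq (p m : ℕ) : 6 * Psi p (1 + (m : ℚ)) 1 = ((PZ p (1 + m) : ℤ) : ℚ) := by
  unfold PZ GZ Psi
  rw [Gf_eq, Gf_eq, Gf_eq, Gf_eq]
  push_cast
  have e : ∀ a b c d A B C D : ℚ, A = 6 * a → B = 6 * b → C = 6 * c → D = 6 * d →
      6 * (a + b + c + d) = A + B + C + D := by
    intro a b c d A B C D h1 h2 h3 h4; rw [h1, h2, h3, h4]; ring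
  apply e <;> ring

/-- the final sum -/
def fin (p G : ℕ) : ℕ → ℤ := fun J =>
  Nat.rec 0 (fun j r => r + (cond ((G / (2 ^ 32) ^ j % 2 ^ 32) == 0) 0
    (((G / (2 ^ 32) ^ j % 2 ^ 32 : ℕ) : ℤ) * PZ p (1 + j)))) J

theorem fin_eq (p G : ℕ) (J : ℕ) : fin p G J =
    ∑ j ∈ range J, ((G / (2 ^ 32) ^ j % 2 ^ 32 : ℕ) : ℤ) * PZ p (1 + j) := by
  induction J with
  | zero => rfl
  | succ n ih =>
    rw [Finset.sum_range_succ, ← ih]
    have h : fin p G (n + 1) = fin p G n + (cond ((G / (2 ^ 32) ^ n % 2 ^ 32) == 0) 0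
      (((G / (2 ^ 32) ^ n % 2 ^ 32 : ℕ) : ℤ) * PZ p (1 + n))) := rfl
    rw [h]
    congr 1
    by_cases h0 : G / (2 ^ 32) ^ n % 2 ^ 32 = 0
    · rw [h0]; simp
    · have : (G / (2 ^ 32) ^ n % 2 ^ 32 == 0) = false := by simpa using h0
      rw [this]; rfl

theorem sum_zmod {p : ℕ} [hp : Fact p.Prime] {M : Type} [AddCommMonoid M] (F : ZMod p → M) :
    ∑ x : ZMod p, F x = ∑ a ∈ range p, F (a : ZMod p) := by
  haveI : NeZero p := ⟨hp.out.ne_zero⟩
  symm
  refine Finset.sum_bij (fun a _ => (a : ZMod p)) (fun _ _ => mem_univ _) ?_ ?_ (fun _ _ => rfl)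
  · intro a ha b hb h
    have h1 := (ZMod.natCast_eq_natCast_iff' a b p).1 h
    rwa [Nat.mod_eq_of_lt (mem_range.1 ha), Nat.mod_eq_of_lt (mem_range.1 hb)] at h1
  · intro x _
    exact ⟨x.val, mem_range.2 (ZMod.val_lt x), ZMod.natCast_zmod_val x⟩

theorem main (p : ℕ) (hp : p.Prime) (h2 : 2 * p < 256) (Y G : ℕ) (v : ℤ) (hY : tab p Y = true)
    (hG : Gh p Y = G) (hv : fin p G (2 * p + 1) = 6 * v) : cT p = (v : ℚ) := by
  classical
  haveI : Fact p.Prime := ⟨hp⟩
  have hp0 : 0 < p := hp.pos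
  unfold cT
  rw [lift_apply]
  unfold TT
  set m : ℕ × ℕ → ℕ := fun ab => ∑ x ∈ range p, ch p (x ^ 3 + ab.1 * x + ab.2) with hm
  set s : Finset (ℕ × ℕ) := ((range p) ×ˢ (range p)).filter
    (fun ab => ¬ (4 * ab.1 ^ 3 + 27 * ab.2 ^ 2) % p = 0) with hs
  have hNE : ∀ a b : ℕ, NE (a : ZMod p) (b : ZMod p) = 1 + (m (a, b) : ℚ) := by
    intro a b
    unfold NE
    rw [sum_zmod, hm]
    push_cast
    have : ∀ x ∈ range p, ((ch p (x ^ 3 + a * x + b) : ℕ) : ℚ) =
        1 + (quadraticChar (ZMod p) ((x : ZMod p) ^ 3 + (a : ZMod p) * x + b) : ℚ) := by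
      intro x _
      rw [ch_eq]
      push_cast
      rfl
    rw [Finset.sum_congr rfl this, Finset.sum_add_distrib]
    simp
    ring
  have hzero : ∀ a b : ℕ, (4 * (a : ZMod p) ^ 3 + 27 * (b : ZMod p) ^ 2 = 0) ↔
      (4 * a ^ 3 + 27 * b ^ 2) % p = 0 := by
    intro a b
    rw [← Nat.dvd_iff_mod_eq_zero, ← ZMod.natCast_eq_zero_iff]
    push_cast
    rfl
  have hml : ∀ ab : ℕ × ℕ, m ab < 2 * p + 1 := by
    intro ab
    rw [hm]
    have : ∑ x ∈ range p, ch p (x ^ 3 + ab.1 * x + ab.2) ≤ ∑ x ∈ range p, 2 :=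
      Finset.sum_le_sum (fun x _ => ch_le p _)
    rw [Finset.sum_const, card_range, smul_eq_mul] at this
    show ∑ x ∈ range p, ch p (x ^ 3 + ab.1 * x + ab.2) < 2 * p + 1
    omega
  have hsc : s.card < 2 ^ 32 := by
    have h1 : s.card ≤ p * p := by
      refine (Finset.card_filter_le _ _).trans ?_
      rw [Finset.card_product, card_range]
    have h3 : p * p ≤ 128 * 128 := Nat.mul_le_mul (by omega) (by omega)
    omega
  have hGs : ∑ i ∈ s, (2 ^ 32) ^ m i = G := by
    rw [← hG]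
    unfold Gh
    rw [rsum_eq, hs, Finset.sum_filter, Finset.sum_product]
    refine Finset.sum_congr rfl (fun a ha => ?_)
    rw [rsum_eq]
    refine Finset.sum_congr rfl (fun b hb => ?_)
    by_cases h0 : (4 * a ^ 3 + 27 * b ^ 2) % p = 0
    · have : ((4 * a ^ 3 + 27 * b ^ 2) % p == 0) = true := by simpa using h0
      rw [this]
      simp [h0]
    · have : ((4 * a ^ 3 + 27 * b ^ 2) % p == 0) = false := by simpa using h0
      rw [this, if_pos h0, Wf_eq p Y hp0 h2 hY a b (mem_range.1 hb)]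
      rfl
  have hmain : (∑ A : ZMod p, ∑ B : ZMod p,
      if 4 * A ^ 3 + 27 * B ^ 2 = 0 then 0 else Psi p (NE A B) 1) = ∑ i ∈ s, Psi p (1 + (m i : ℚ)) 1 := by
    rw [sum_zmod, hs, Finset.sum_filter, Finset.sum_product]
    refine Finset.sum_congr rfl (fun a _ => ?_)
    rw [sum_zmod]
    refine Finset.sum_congr rfl (fun b _ => ?_)
    rw [hNE]
    by_cases h0 : (4 * a ^ 3 + 27 * b ^ 2) % p = 0
    · rw [if_pos ((hzero a b).2 h0)]
      simp [h0]
    · rw [if_neg (fun h => h0 ((hzero a b).1 h)), if_pos h0]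
  have h3 := hist s m (2 ^ 32) (2 * p + 1) hsc (fun i _ => hml i) (fun j => Psi p (1 + (j : ℚ)) 1)
  rw [hGs] at h3
  have h4 : (6 : ℚ) * ∑ i ∈ s, Psi p (1 + (m i : ℚ)) 1 = 6 * v := by
    rw [h3, Finset.mul_sum]
    have h5 : ((fin p G (2 * p + 1) : ℤ) : ℚ) = 6 * v := by rw [hv]; push_cast; rfl
    rw [← h5, fin_eq, Int.cast_sum]
    refine Finset.sum_congr rfl (fun j _ => ?_)
    rw [Int.cast_mul, Int.cast_natCast, ← PZ_eq p j]
    ring
  refine Eq.trans (b := ∑ i ∈ s, Psi p (1 + (m i : ℚ)) 1) ?_ (by linarith)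
  rw [← hmain]

end Pool.Agent.T2H70.SR.C1
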