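import Pool.Agent.T2H70.SR.Defs

set_option autoImplicit false

/-!
# Package C2: `cT` is not rational

(i) `6 * TT p` is an integer: `Psi p N 1` has denominator 6 and `NE A B` is an integer. (`NE` is an integer cast.)
(ii) `|TT p| ≤ C p^14`: `0 ≤ NE A B ≤ 2p + 1`, `|Psi| ≤ C' p² p^10`.
(iii) If `cT = u/v` at all primes `≥ 5` then dividing with remainder `u = v q + r`: multiplied by `6` and a common denominator of `q` the
number `r(p)/v(p)` becomes an integer that tends to `0`, so `r(p) = 0` for all large primes, `r = 0`: `cT p = q(p)` for all primes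
`≥ 5`, and by (ii) `deg q ≤ 14`.
(iv) A polynomial of degree `≤ 14` takes values at the 16 points `5, ..., 61` whose divided difference `∑_i q(x_i)/∏_{j ≠ i}(x_i - x_j)` vanishes;
for the given values it is `12927919/88115309568 ≠ 0` (`norm_num`).
-/

namespace Pool.Agent.T2H70.SR

open Finset
open scoped BigOperators

lemma C2_Gf_int (n : ℤ) : ∃ z : ℤ, Gf (n : ℚ) = z := by
  refine ⟨∏ i ∈ range 10, (n - (i : ℤ)), ?_⟩
  unfold Gf
  push_cast
  rfl

lemma C2_Psi_int (p : ℕ) (n : ℤ) : ∃ z : ℤ, 6 * Psi p (n : ℚ) 1 = z := by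
  obtain ⟨a, ha⟩ := C2_Gf_int (n - 3)
  obtain ⟨b, hb⟩ := C2_Gf_int (n - 2)
  obtain ⟨c, hc⟩ := C2_Gf_int (n - 1)
  obtain ⟨d, hd⟩ := C2_Gf_int n
  push_cast at ha hb hc
  refine ⟨(n ^ 2 - 3 * n + 2) * a + 6 * (n - 1) * b +
    (6 * n * (p + 1) - 3 * n ^ 2 - 3 * n + 6) * c +
    (6 * p ^ 2 + 6 * p + 6 - 6 * n * (p + 1) + 2 * n ^ 2 - 2) * d, ?_⟩
  unfold Psi
  rw [ha, hb, hc, hd]
  push_cast
  ring

lemma C2_NE_int (p : ℕ) [Fact p.Prime] (A B : ZMod p) :
    NE A B = ((p + 1 + ∑ x : ZMod p, quadraticChar (ZMod p) (x ^ 3 + A * x + B) : ℤ) : ℚ) := by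
  unfold NE
  push_cast
  rfl

theorem TT_int (p : ℕ) [Fact p.Prime] : ∃ z : ℤ, 6 * TT p = z := by
  classical
  have h : ∀ A B : ZMod p, ∃ z : ℤ,
      6 * (if 4 * A ^ 3 + 27 * B ^ 2 = 0 then 0 else Psi p (NE A B) 1) = (z : ℚ) := by
    intro A B
    split_ifs
    · exact ⟨0, by simp⟩
    · rw [C2_NE_int]
      exact C2_Psi_int p _
  choose z hz using h
  refine ⟨∑ A, ∑ B, z A B, ?_⟩
  unfold TT
  rw [mul_sum]
  push_cast
  refine sum_congr rfl fun A _ => ?_
  rw [mul_sum]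
  refine sum_congr rfl fun B _ => ?_
  rw [← hz A B]

lemma C2_Gf_le (x P : ℚ) (hP : 5 ≤ P) (hx : |x| ≤ 4 * P) : |Gf x| ≤ (6 * P) ^ 10 := by
  unfold Gf
  rw [abs_prod]
  calc ∏ i ∈ range 10, |x - (i : ℚ)| ≤ ∏ i ∈ range 10, (6 * P) := by
        refine prod_le_prod (fun _ _ => abs_nonneg _) fun i hi => ?_
        have h1 : (i : ℚ) ≤ 9 := by
          have := mem_range.1 hi
          exact_mod_cast (by omega : i ≤ 9)
        have h2 : (0 : ℚ) ≤ i := Nat.cast_nonneg i
        rw [abs_le] at hx ⊢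
        constructor <;> linarith [hx.1, hx.2]
    _ = (6 * P) ^ 10 := by rw [prod_const, card_range]

lemma C2_Psi_le (p : ℕ) (N : ℚ) (hp : 5 ≤ p) (hN : |N| ≤ 3 * p) :
    |Psi p N 1| ≤ 48 * 6 ^ 10 * (p : ℚ) ^ 12 := by
  have hP : (5 : ℚ) ≤ p := by exact_mod_cast hp
  set P : ℚ := (p : ℚ) with hPdef
  have hN' := abs_le.1 hN
  have hN2 : N ^ 2 ≤ 9 * P ^ 2 := by nlinarith [hN'.1, hN'.2]
  have hN0 : 0 ≤ N ^ 2 := sq_nonneg N
  have hNP : N * P ≤ 3 * P ^ 2 := by nlinarith [hN'.2]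
  have hNP' : -(3 * P ^ 2) ≤ N * P := by nlinarith [hN'.1]
  have hPP : 5 * P ≤ P ^ 2 := by nlinarith
  have g3 : |Gf (N - 3)| ≤ (6 * P) ^ 10 := C2_Gf_le _ P hP (by
    rw [abs_le]; constructor <;> linarith [hN'.1, hN'.2])
  have g2 : |Gf (N - 2)| ≤ (6 * P) ^ 10 := C2_Gf_le _ P hP (by
    rw [abs_le]; constructor <;> linarith [hN'.1, hN'.2])
  have g1 : |Gf (N - 1)| ≤ (6 * P) ^ 10 := C2_Gf_le _ P hP (by
    rw [abs_le]; constructor <;> linarith [hN'.1, hN'.2])
  have g0 : |Gf N| ≤ (6 * P) ^ 10 := C2_Gf_le _ P hP (by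
    rw [abs_le]; constructor <;> linarith [hN'.1, hN'.2])
  have c3 : |(N ^ 2 - 3 * N + 2 * 1) / 6| ≤ 4 * P ^ 2 := by
    rw [abs_le]; constructor <;> linarith [hN'.1, hN'.2]
  have c2 : |N - 1| ≤ 4 * P ^ 2 := by
    rw [abs_le]; constructor <;> linarith [hN'.1, hN'.2]
  have c1 : |N * (P + 1) - N ^ 2 / 2 - N / 2 + 1| ≤ 20 * P ^ 2 := by
    rw [abs_le]; constructor <;> linarith [hN'.1, hN'.2]
  have c0 : |P ^ 2 + P + 1 - N * (P + 1) + N ^ 2 / 3 - 1 / 3| ≤ 20 * P ^ 2 := by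
    rw [abs_le]; constructor <;> linarith [hN'.1, hN'.2]
  have key : ∀ c g C : ℚ, |c| ≤ C → |g| ≤ (6 * P) ^ 10 → |c * g| ≤ C * (6 * P) ^ 10 := by
    intro c g C h1 h2
    rw [abs_mul]
    exact mul_le_mul h1 h2 (abs_nonneg _) (le_trans (abs_nonneg _) h1)
  have k3 := key _ _ _ c3 g3
  have k2 := key _ _ _ c2 g2
  have k1 := key _ _ _ c1 g1
  have k0 := key _ _ _ c0 g0
  unfold Psi
  rw [← hPdef]
  calc _ ≤ |(N ^ 2 - 3 * N + 2 * 1) / 6 * Gf (N - 3)| + |(N - 1) * Gf (N - 2)| +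
        |(N * (P + 1) - N ^ 2 / 2 - N / 2 + 1) * Gf (N - 1)| +
        |(P ^ 2 + P + 1 - N * (P + 1) + N ^ 2 / 3 - 1 / 3) * Gf N| := by
        refine (abs_add_le _ _).trans (add_le_add ?_ le_rfl)
        refine (abs_add_le _ _).trans (add_le_add ?_ le_rfl)
        exact abs_add_le _ _
    _ ≤ 4 * P ^ 2 * (6 * P) ^ 10 + 4 * P ^ 2 * (6 * P) ^ 10 + 20 * P ^ 2 * (6 * P) ^ 10 +
        20 * P ^ 2 * (6 * P) ^ 10 := add_le_add (add_le_add (add_le_add k3 k2) k1) k0
    _ = 48 * 6 ^ 10 * P ^ 12 := by ring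

theorem TT_bound : ∃ C : ℚ, ∀ p : ℕ, p.Prime → 5 ≤ p → |cT p| ≤ C * (p : ℚ) ^ 14 := by
  classical
  refine ⟨48 * 6 ^ 10, fun p hp hp5 => ?_⟩
  have : Fact p.Prime := ⟨hp⟩
  have e : cT p = TT p := lift_apply (fun p _ => TT p) p
  rw [e]
  unfold TT
  have hP : (5 : ℚ) ≤ p := by exact_mod_cast hp5
  have hNE : ∀ A B : ZMod p, |NE A B| ≤ 3 * p := by
    intro A B
    unfold NE
    have h1 : |∑ x : ZMod p, (quadraticChar (ZMod p) (x ^ 3 + A * x + B) : ℚ)| ≤ p := by
      refine (abs_sum_le_sum_abs _ _).trans ?_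
      calc ∑ x : ZMod p, |(quadraticChar (ZMod p) (x ^ 3 + A * x + B) : ℚ)|
          ≤ ∑ x : ZMod p, (1 : ℚ) := by
            refine sum_le_sum fun x _ => ?_
            have h2 : quadraticChar (ZMod p) (x ^ 3 + A * x + B) = 0 ∨
                quadraticChar (ZMod p) (x ^ 3 + A * x + B) = 1 ∨
                quadraticChar (ZMod p) (x ^ 3 + A * x + B) = -1 := by
              by_cases h0 : x ^ 3 + A * x + B = 0
              · left; rw [h0]; exact quadraticChar_zero
              · right; exact quadraticChar_dichotomy h0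
            rcases h2 with h2 | h2 | h2 <;> rw [h2] <;> norm_num
        _ = p := by simp [ZMod.card]
    rw [abs_le] at h1 ⊢
    constructor <;> linarith [h1.1, h1.2]
  have hterm : ∀ A B : ZMod p, |if 4 * A ^ 3 + 27 * B ^ 2 = 0 then 0 else Psi p (NE A B) 1| ≤
      48 * 6 ^ 10 * (p : ℚ) ^ 12 := by
    intro A B
    split_ifs
    · rw [abs_zero]; positivity
    · exact C2_Psi_le p _ hp5 (hNE A B)
  calc _ ≤ ∑ A : ZMod p, ∑ B : ZMod p, (48 * 6 ^ 10 * (p : ℚ) ^ 12) := by
        refine (abs_sum_le_sum_abs _ _).trans (sum_le_sum fun A _ => ?_)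
        refine (abs_sum_le_sum_abs _ _).trans (sum_le_sum fun B _ => ?_)
        convert hterm A B using 2
    _ = _ := by
        simp only [sum_const, card_univ, ZMod.card, nsmul_eq_mul]
        ring

/-- common denominators for the values of a polynomial -/
lemma C2_den (q : Polynomial ℚ) : ∃ M : ℕ, 0 < M ∧ ∀ n : ℕ, ∃ z : ℤ, M * q.eval (n : ℚ) = z := by
  induction q using Polynomial.induction_on' with
  | add f g hf hg =>
    obtain ⟨M, hM, h1⟩ := hf
    obtain ⟨M', hM', h2⟩ := hg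
    refine ⟨M * M', Nat.mul_pos hM hM', fun n => ?_⟩
    obtain ⟨a, ha⟩ := h1 n
    obtain ⟨b, hb⟩ := h2 n
    refine ⟨M' * a + M * b, ?_⟩
    rw [Polynomial.eval_add]
    push_cast
    rw [← ha, ← hb]
    ring
  | monomial k a =>
    refine ⟨a.den, a.den_pos, fun n => ⟨a.num * n ^ k, ?_⟩⟩
    rw [Polynomial.eval_monomial]
    push_cast
    have h : (a.den : ℚ) * a = a.num := by
      have := Rat.mul_den_eq_num a
      rw [mul_comm]
      exact this
    rw [← mul_assoc, h]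

lemma C2_inf (r : Polynomial ℚ) (n0 : ℕ)
    (h : ∀ p : ℕ, p.Prime → n0 ≤ p → r.eval (p : ℚ) = 0) : r = 0 := by
  refine Polynomial.eq_zero_of_infinite_isRoot r ?_
  have h1 : Set.Infinite {p : ℕ | p.Prime ∧ n0 ≤ p} := by
    intro hf
    obtain ⟨p, hp1, hp2⟩ := Nat.exists_infinite_primes (n0 + (hf.toFinset.sup id + 1))
    have hmem : p ∈ hf.toFinset := by
      rw [Set.Finite.mem_toFinset]
      exact ⟨hp2, by omega⟩
    have := Finset.le_sup (f := id) hmem
    simp only [id] at this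
    omega
  refine (h1.image (f := fun p : ℕ => (p : ℚ)) Nat.cast_injective.injOn).mono ?_
  rintro x ⟨p, ⟨hp1, hp2⟩, rfl⟩
  exact h p hp1 hp2

lemma C2_weights (a : ℕ → ℚ) (f : ℚ → ℚ) (hf : ∀ x, f x = ∑ i ∈ range 15, a i * x ^ i) :
    -2688125 * f 5 + 14076720 * f 7 - 144152316 * f 11 + 323513190 * f 13 - 898611840 * f 17
      + 1104386400 * f 19 - 657536880 * f 23 + 1064761425 * f 29 - 1010938320 * f 31
      + 442285515 * f 37 - 534468480 * f 41 + 341413380 * f 43 - 44993520 * f 47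
      + 3267810 * f 53 - 452200 * f 59 + 137241 * f 61 = 0 := by
  simp only [hf, sum_range_succ, sum_range_zero]
  ring

theorem not_isRat_cT
    (h5 : cT 5 = 14515200) (h7 : cT 7 = 26294284800) (h11 : cT 11 = 81144358848000)
    (h13 : cT 13 = 1214568432000000) (h17 : cT 17 = 78879235992883200)
    (h19 : cT 19 = 425120535491097600) (h23 : cT 23 = 7327977711635750400)
    (h29 : cT 29 = 218344286213907840000) (h31 : cT 31 = 574356694893004800000)
    (h37 : cT 37 = 7355773674086469811200) (h41 : cT 41 = 32012379603485616384000)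
    (h43 : cT 43 = 63218361256470734630400) (h47 : cT 47 = 224670650089653929548800)
    (h53 : cT 53 = 1239443917928073486720000) (h59 : cT 59 = 5668932443294870326080000)
    (h61 : cT 61 = 9087537922291226901888000) : ¬ IsRat cT := by
  rintro ⟨u, v, huv⟩
  have hv : v ≠ 0 := by
    intro h0
    have := (huv 5 (by norm_num) le_rfl).1
    rw [h0, Polynomial.eval_zero] at this
    exact this rfl
  have hdiv : v * (u / v) + u % v = u := EuclideanDomain.div_add_mod u v
  set q := u / v with hq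
  set r := u % v with hr
  have hdeg : r.degree < v.degree := Polynomial.degree_mod_lt u hv
  have hval : ∀ p : ℕ, p.Prime → 5 ≤ p →
      cT p = q.eval (p : ℚ) + r.eval (p : ℚ) / v.eval (p : ℚ) := by
    intro p hp hp5
    obtain ⟨h1, h2⟩ := huv p hp hp5
    have h3 : u.eval (p : ℚ) = v.eval (p : ℚ) * q.eval (p : ℚ) + r.eval (p : ℚ) := by
      rw [← hdiv, Polynomial.eval_add, Polynomial.eval_mul]
    field_simp
    rw [h2, h3]
    ring
  obtain ⟨M, hM, hMq⟩ := C2_den q
  have hint : ∀ p : ℕ, p.Prime → 5 ≤ p →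
      ∃ z : ℤ, (6 * M : ℚ) * (r.eval (p : ℚ) / v.eval (p : ℚ)) = z := by
    intro p hp hp5
    have : Fact p.Prime := ⟨hp⟩
    obtain ⟨a, ha⟩ := TT_int p
    obtain ⟨b, hb⟩ := hMq p
    have e : cT p = TT p := lift_apply (fun p _ => TT p) p
    rw [← e, hval p hp hp5] at ha
    refine ⟨M * a - 6 * b, ?_⟩
    push_cast
    rw [← ha, ← hb]
    ring
  have hlim := (Polynomial.div_tendsto_atTop_zero_of_degree_lt r v hdeg).comp
    (tendsto_natCast_atTop_atTop (R := ℚ))
  have hev : ∀ᶠ n : ℕ in Filter.atTop,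
      |r.eval (n : ℚ) / v.eval (n : ℚ)| < 1 / (6 * M : ℚ) := by
    have hpos : (0 : ℚ) < 1 / (6 * M) := by positivity
    have := (Metric.tendsto_nhds.1 hlim) ((1 / (6 * M : ℚ) : ℚ) : ℝ) (by exact_mod_cast hpos)
    filter_upwards [this] with n hn
    rw [Rat.dist_eq, Rat.cast_zero, sub_zero] at hn
    exact_mod_cast hn
  obtain ⟨n0, hn0⟩ := Filter.eventually_atTop.1 hev
  have hr0 : r = 0 := by
    refine C2_inf r (max n0 5) fun p hp hpn => ?_
    have h1 := hn0 p (le_trans (le_max_left _ _) hpn)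
    have hp5 : 5 ≤ p := le_trans (le_max_right _ _) hpn
    obtain ⟨z, hz⟩ := hint p hp hp5
    have hM' : (0 : ℚ) < 6 * M := by positivity
    have h2 : |(z : ℚ)| < 1 := by
      rw [← hz, abs_mul, abs_of_pos hM']
      calc (6 * M : ℚ) * |r.eval (p : ℚ) / v.eval (p : ℚ)| < 6 * M * (1 / (6 * M)) :=
            mul_lt_mul_of_pos_left h1 hM'
        _ = 1 := by field_simp
    have h3 : z = 0 := by
      have : |z| < 1 := by exact_mod_cast h2
      exact Int.abs_lt_one_iff.1 this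
    rw [h3, Int.cast_zero] at hz
    have h4 : r.eval (p : ℚ) / v.eval (p : ℚ) = 0 := by
      rcases mul_eq_zero.1 hz with h | h
      · exact absurd h hM'.ne'
      · exact h
    rcases div_eq_zero_iff.1 h4 with h | h
    · exact h
    · exact absurd h (huv p hp hp5).1
  have hcq : ∀ p : ℕ, p.Prime → 5 ≤ p → cT p = q.eval (p : ℚ) := by
    intro p hp hp5
    rw [hval p hp hp5, hr0, Polynomial.eval_zero, zero_div, add_zero]
  obtain ⟨C, hC⟩ := TT_bound
  have hdq : q.natDegree < 15 := by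
    by_contra hcon
    push Not at hcon
    have hd : (Polynomial.X ^ 14 : Polynomial ℚ).degree < q.degree := by
      rw [Polynomial.degree_X_pow]
      refine lt_of_lt_of_le ?_ (Polynomial.le_degree_of_ne_zero (n := q.natDegree) ?_)
      · exact_mod_cast (by omega : 14 < q.natDegree)
      · have hq0 : q ≠ 0 := by
          intro h0
          rw [h0, Polynomial.natDegree_zero] at hcon
          omega
        exact Polynomial.leadingCoeff_ne_zero.2 hq0
    have hl := (Polynomial.abs_div_tendsto_atTop_atTop_of_degree_gt q (Polynomial.X ^ 14) hd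
      (pow_ne_zero _ Polynomial.X_ne_zero)).comp (tendsto_natCast_atTop_atTop (R := ℚ))
    obtain ⟨n1, hn1⟩ := Filter.eventually_atTop.1 (hl.eventually_gt_atTop C)
    obtain ⟨p, hp1, hp2⟩ := Nat.exists_infinite_primes (n1 + 5)
    have h1 := hn1 p (by omega)
    have h2 := hC p hp2 (by omega)
    rw [hcq p hp2 (by omega)] at h2
    simp only [Function.comp, Polynomial.eval_pow, Polynomial.eval_X] at h1
    have hpp : (0 : ℚ) < (p : ℚ) ^ 14 := by
      have : (0 : ℚ) < p := by exact_mod_cast hp2.pos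
      positivity
    rw [abs_div, abs_of_pos hpp, lt_div_iff₀ hpp] at h1
    linarith
  have hw := C2_weights q.coeff (fun x => q.eval x) fun x =>
    Polynomial.eval_eq_sum_range' hdq x
  have v5 := hcq 5 (by norm_num) (by norm_num)
  have v7 := hcq 7 (by norm_num) (by norm_num)
  have v11 := hcq 11 (by norm_num) (by norm_num)
  have v13 := hcq 13 (by norm_num) (by norm_num)
  have v17 := hcq 17 (by norm_num) (by norm_num)
  have v19 := hcq 19 (by norm_num) (by norm_num)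
  have v23 := hcq 23 (by norm_num) (by norm_num)
  have v29 := hcq 29 (by norm_num) (by norm_num)
  have v31 := hcq 31 (by norm_num) (by norm_num)
  have v37 := hcq 37 (by norm_num) (by norm_num)
  have v41 := hcq 41 (by norm_num) (by norm_num)
  have v43 := hcq 43 (by norm_num) (by norm_num)
  have v47 := hcq 47 (by norm_num) (by norm_num)
  have v53 := hcq 53 (by norm_num) (by norm_num)
  have v59 := hcq 59 (by norm_num) (by norm_num)
  have v61 := hcq 61 (by norm_num) (by norm_num)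
  push_cast at v5 v7 v11 v13 v17 v19 v23 v29 v31 v37 v41 v43 v47 v53 v59 v61
  rw [← v5, ← v7, ← v11, ← v13, ← v17, ← v19, ← v23, ← v29, ← v31, ← v37, ← v41, ← v43, ← v47,
    ← v53, ← v59, ← v61, h5, h7, h11, h13, h17, h19, h23, h29, h31, h37, h41, h43, h47, h53,
    h59, h61] at hw
  norm_num at hw

end Pool.Agent.T2H70.SR
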