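import Mathlib

set_option autoImplicit false

/-!
# Counts of irreducible subrings of `ℤ_p^n` are not polynomials: definitions
-/

namespace Pool.Agent.T2H70.SR

open Finset
open scoped BigOperators

/-! ### rational functions on the primes `≥ 5` -/

/-- `f` agrees with a rational function (without poles there) at all primes `≥ 5` -/
def IsRat (f : ℕ → ℚ) : Prop :=
  ∃ u v : Polynomial ℚ, ∀ p : ℕ, p.Prime → 5 ≤ p →
    v.eval (p : ℚ) ≠ 0 ∧ f p * v.eval (p : ℚ) = u.eval (p : ℚ)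

/-- a quantity defined for primes, as a function on `ℕ` -/
noncomputable def lift (F : (p : ℕ) → [Fact p.Prime] → ℚ) : ℕ → ℚ := by
  classical
  exact fun p => if h : p.Prime then @F p ⟨h⟩ else 0

theorem lift_apply (F : (p : ℕ) → [Fact p.Prime] → ℚ) (p : ℕ) [hp : Fact p.Prime] :
    lift F p = F p := by
  unfold lift
  rw [dif_pos hp.out]

/-! ### part A: lattices in `ℤ_p^ι` -/

/-- irreducible subrings of `ℤ_p^n` of index `p^e` -/
def Irr (p : ℕ) [Fact p.Prime] (n e : ℕ) : Set (Subring (Fin n → ℤ_[p])) :=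
  {L | L.toAddSubgroup.index = p ^ e ∧ ∀ x ∈ L, ∀ i j, (p : ℤ_[p]) ∣ x i - x j}

/-- additive subgroups `Γ ∋ 1` with `p Γ Γ ⊆ Γ` of index `p^E` -/
def Gam (p : ℕ) [Fact p.Prime] (ι : Type) (E : ℕ) : Set (AddSubgroup (ι → ℤ_[p])) :=
  {Γ | (1 : ι → ℤ_[p]) ∈ Γ ∧ (∀ a ∈ Γ, ∀ b ∈ Γ, p • (a * b) ∈ Γ) ∧ Γ.index = p ^ E}

/-- those `Γ` in `ℤ_p^j × ℤ_p^m` for which the last `m` coordinates are flat: `p e_i ∈ Γ` -/
def GamF (p : ℕ) [Fact p.Prime] (j m E : ℕ) : Set (AddSubgroup (Fin j ⊕ Fin m → ℤ_[p])) :=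
  {Γ | Γ ∈ Gam p (Fin j ⊕ Fin m) E ∧
    ∀ i : Fin m, p • (Pi.single (Sum.inr i) (1 : ℤ_[p]) : Fin j ⊕ Fin m → ℤ_[p]) ∈ Γ}

/-- `p Γ²` -/
noncomputable def sq {p : ℕ} [Fact p.Prime] {ι : Type} (Γ : AddSubgroup (ι → ℤ_[p])) : AddSubgroup (ι → ℤ_[p]) :=
  AddSubgroup.closure {x | ∃ a ∈ Γ, ∃ b ∈ Γ, x = p • (a * b)}

/-- the order of `Γ / p Γ²`, it is `p ^ (embedding dimension)` -/
noncomputable def qn {p : ℕ} [Fact p.Prime] {ι : Type} (Γ : AddSubgroup (ι → ℤ_[p])) : ℕ :=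
  (sq Γ).relIndex Γ

/-- the sum of `(qn Γ / p)^δ` over all `Γ` of index `p^u` in `ℤ_p^j` -/
noncomputable def Hs (p : ℕ) [Fact p.Prime] (j u δ : ℕ) : ℚ :=
  ∑ᶠ Γ ∈ Gam p (Fin j) u, ((qn Γ : ℚ) / p) ^ δ

/-- Gaussian binomial coefficient `[m choose δ]_p` as a rational number -/
def gb (p m δ : ℕ) : ℚ :=
  ∏ i ∈ range δ, ((p : ℚ) ^ m / (p : ℚ) ^ i - 1) / ((p : ℚ) ^ (i + 1) - 1)

/-- the number of irreducible subrings, as a function of `p` -/
noncomputable def cIrr (n e : ℕ) : ℕ → ℚ := lift fun p _ => ((Irr p n e).ncard : ℚ)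

noncomputable def cGam (n E : ℕ) : ℕ → ℚ := lift fun p _ => ((Gam p (Fin n) E).ncard : ℚ)

noncomputable def cGamF (j m E : ℕ) : ℕ → ℚ := lift fun p _ => ((GamF p j m E).ncard : ℚ)

noncomputable def cHs (j u δ : ℕ) : ℕ → ℚ := lift fun p _ => Hs p j u δ

/-- the number of `Γ ⊆ ℤ_p^10` of index `p^11` and embedding dimension `3` -/
noncomputable def cE3 : ℕ → ℚ :=
  lift fun p _ => (({Γ | Γ ∈ Gam p (Fin 10) 11 ∧ qn Γ = p ^ 3} :
    Set (AddSubgroup (Fin 10 → ℤ_[p]))).ncard : ℚ)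

/-! ### part B: plane cubics -/

/-- coefficient vectors of ternary cubic forms -/
abbrev Co (p : ℕ) := Fin 10 → ZMod p

/-- the ternary cubic form with coefficients `c` -/
def form {p : ℕ} (c : Co p) (v : Fin 3 → ZMod p) : ZMod p :=
  c 0 * v 0 ^ 3 + c 1 * v 0 ^ 2 * v 1 + c 2 * v 0 ^ 2 * v 2 + c 3 * v 0 * v 1 ^ 2
    + c 4 * v 0 * v 1 * v 2 + c 5 * v 0 * v 2 ^ 2 + c 6 * v 1 ^ 3 + c 7 * v 1 ^ 2 * v 2
    + c 8 * v 1 * v 2 ^ 2 + c 9 * v 2 ^ 3

/-- its derivative at `v` in direction `w` (the coefficient of `t` in `form c (v + t w)`) -/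
def dform {p : ℕ} (c : Co p) (v w : Fin 3 → ZMod p) : ZMod p :=
  (3 * c 0 * v 0 ^ 2 + 2 * c 1 * v 0 * v 1 + 2 * c 2 * v 0 * v 2 + c 3 * v 1 ^ 2
      + c 4 * v 1 * v 2 + c 5 * v 2 ^ 2) * w 0
    + (c 1 * v 0 ^ 2 + 2 * c 3 * v 0 * v 1 + c 4 * v 0 * v 2 + 3 * c 6 * v 1 ^ 2
      + 2 * c 7 * v 1 * v 2 + c 8 * v 2 ^ 2) * w 1
    + (c 2 * v 0 ^ 2 + c 4 * v 0 * v 1 + 2 * c 5 * v 0 * v 2 + c 7 * v 1 ^ 2
      + 2 * c 8 * v 1 * v 2 + 3 * c 9 * v 2 ^ 2) * w 2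

/-- the affine cubic polynomial -/
def cub {p : ℕ} (c : Co p) (P : ZMod p × ZMod p) : ZMod p := form c ![P.1, P.2, 1]

/-- the dot product -/
def dot3 {p : ℕ} (l v : Fin 3 → ZMod p) : ZMod p := l 0 * v 0 + l 1 * v 1 + l 2 * v 2

/-- the cubic contains a rational line (of the projective plane, the line at infinity included) -/
def HasLine {p : ℕ} (c : Co p) : Prop :=
  ∃ l : Fin 3 → ZMod p, l ≠ 0 ∧ ∀ v, dot3 l v = 0 → form c v = 0

/-- `v` is a rational singular point of the cubic -/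
def Sing {p : ℕ} (c : Co p) (v : Fin 3 → ZMod p) : Prop :=
  v ≠ 0 ∧ form c v = 0 ∧ ∀ w, dform c v w = 0

/-- cubics without rational lines and without rational singular points -/
def Ns {p : ℕ} (c : Co p) : Prop := ¬ HasLine c ∧ ∀ v, ¬ Sing c v

/-- the line `l` is a flex tangent at the point `v` -/
def Flex {p : ℕ} (c : Co p) (v l : Fin 3 → ZMod p) : Prop :=
  v ≠ 0 ∧ l ≠ 0 ∧ dot3 l v = 0 ∧ form c v = 0 ∧
    ∀ w, dot3 l w = 0 → dform c v w = 0 ∧ dform c w v = 0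

/-- `N10 p`: ordered 10-tuples of points of the affine plane that lie on no cubic -/
noncomputable def N10 (p : ℕ) : ℕ :=
  Nat.card {P : Fin 10 → ZMod p × ZMod p // ∀ c : Co p, (∀ i, cub c (P i) = 0) → c = 0}

/-- the falling factorial `x (x-1) ... (x-9)` -/
def Gf (x : ℚ) : ℚ := ∏ i ∈ range 10, (x - i)

/-- the sum of `Gf` of the number of points off a line, over all lines, for a nonsingular cubic
with `N` points and `t` flexes -/
def Psi (p : ℕ) (N t : ℚ) : ℚ :=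
  (N ^ 2 - 3 * N + 2 * t) / 6 * Gf (N - 3) + (N - t) * Gf (N - 2)
    + (N * (p + 1) - N ^ 2 / 2 - N / 2 + t) * Gf (N - 1)
    + (p ^ 2 + p + 1 - N * (p + 1) + N ^ 2 / 3 - t / 3) * Gf N

section
variable {p : ℕ} [Fact p.Prime]

/-- the number of projective points of the cubic (as a rational number) -/
noncomputable def Np (c : Co p) : ℚ :=
  (Nat.card {v : Fin 3 → ZMod p // v ≠ 0 ∧ form c v = 0} : ℚ) / ((p : ℚ) - 1)

/-- the number of rational flexes -/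
noncomputable def fl (c : Co p) : ℚ :=
  (Nat.card {x : (Fin 3 → ZMod p) × (Fin 3 → ZMod p) // Flex c x.1 x.2} : ℚ) / ((p : ℚ) - 1) ^ 2

/-- the number of points of the cubic off the line `l` -/
noncomputable def aff (c : Co p) (l : Fin 3 → ZMod p) : ℕ :=
  Nat.card {v : Fin 3 → ZMod p // form c v = 0 ∧ dot3 l v = 1}

/-- the value of the binary quartic (polynomial of degree at most 4) -/
def qv (d : Fin 5 → ZMod p) (x : ZMod p) : ZMod p :=
  d 0 + d 1 * x + d 2 * x ^ 2 + d 3 * x ^ 3 + d 4 * x ^ 4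

/-- the polynomial -/
noncomputable def qpol (d : Fin 5 → ZMod p) : Polynomial (ZMod p) :=
  ∑ i : Fin 5, Polynomial.C (d i) * Polynomial.X ^ (i : ℕ)

/-- squarefree as a binary quartic -/
def Sf4 (d : Fin 5 → ZMod p) : Prop := Squarefree (qpol d) ∧ 3 ≤ (qpol d).natDegree

/-- the number of points of `v² = D(x)` -/
noncomputable def N4 (d : Fin 5 → ZMod p) : ℚ :=
  p + 1 + ∑ x : ZMod p, (quadraticChar (ZMod p) (qv d x) : ℚ) + (quadraticChar (ZMod p) (d 4) : ℚ)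

/-- the number of points of `y² = x³ + A x + B` -/
noncomputable def NE (A B : ZMod p) : ℚ :=
  p + 1 + ∑ x : ZMod p, (quadraticChar (ZMod p) (x ^ 3 + A * x + B) : ℚ)

end

/-- the number of pairs, sum over the nonsingular Weierstrass curves -/
noncomputable def TT (p : ℕ) [Fact p.Prime] : ℚ := by
  classical
  exact ∑ A : ZMod p, ∑ B : ZMod p,
    if 4 * A ^ 3 + 27 * B ^ 2 = 0 then 0 else Psi p (NE A B) 1

/-- the same as a function on `ℕ` -/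
noncomputable def cT : ℕ → ℚ := lift fun p _ => TT p

/-! ### sets of ten points -/

/-- number of points of `T` on the line `a x + b y = c` -/
def cnt {p : ℕ} (T : Finset (ZMod p × ZMod p)) (a b c : ZMod p) : ℕ :=
  (T.filter (fun P => a * P.1 + b * P.2 = c)).card

/-- five points on a line -/
def R1 {p : ℕ} (T : Finset (ZMod p × ZMod p)) : Prop :=
  ∃ a b c : ZMod p, (a, b) ≠ (0, 0) ∧ 5 ≤ cnt T a b c

/-- value of the polynomial of degree at most two -/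
def qd {p : ℕ} (q : Fin 6 → ZMod p) (P : ZMod p × ZMod p) : ZMod p :=
  q 0 * P.1 ^ 2 + q 1 * P.1 * P.2 + q 2 * P.2 ^ 2 + q 3 * P.1 + q 4 * P.2 + q 5

/-- the conic is nonsingular -/
def Nsc {p : ℕ} (q : Fin 6 → ZMod p) : Prop :=
  4 * q 0 * q 2 * q 5 + q 1 * q 3 * q 4 - q 0 * q 4 ^ 2 - q 2 * q 3 ^ 2 - q 5 * q 1 ^ 2 ≠ 0

/-- at least six points on a nonsingular conic and the rest on a line -/
def R2 {p : ℕ} (T : Finset (ZMod p × ZMod p)) : Prop :=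
  ¬ R1 T ∧ ∃ q : Fin 6 → ZMod p, Nsc q ∧ 6 ≤ (T.filter (fun P => qd q P = 0)).card ∧
    ∃ a b c : ZMod p, (a, b) ≠ (0, 0) ∧ ∀ P ∈ T, qd q P ≠ 0 → a * P.1 + b * P.2 = c

/-- on three lines -/
def R3 {p : ℕ} (T : Finset (ZMod p × ZMod p)) : Prop :=
  ¬ R1 T ∧ ∃ a b c a' b' c' a'' b'' c'' : ZMod p, (a, b) ≠ (0, 0) ∧ (a', b') ≠ (0, 0) ∧
    (a'', b'') ≠ (0, 0) ∧ ∀ P ∈ T, a * P.1 + b * P.2 = c ∨ a' * P.1 + b' * P.2 = c' ∨
      a'' * P.1 + b'' * P.2 = c''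

/-- on a cubic that contains a rational line -/
def RedT {p : ℕ} (T : Finset (ZMod p × ZMod p)) : Prop :=
  ∃ c : Co p, c ≠ 0 ∧ HasLine c ∧ ∀ P ∈ T, cub c P = 0

end Pool.Agent.T2H70.SR
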