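import Pool.Agent.T2H70.SR.A2
import Pool.Agent.T2H70.SR.A6
import Pool.Agent.T2H70.SR.A7
import Pool.Agent.T2H70.SR.A8
import Pool.Agent.T2H70.SR.B10
import Pool.Agent.T2H70.SR.C1
import Pool.Agent.T2H70.SR.C2

set_option autoImplicit false

/-!
# Final assembly
-/

namespace Pool.Agent.T2H70.SR

open Finset
open scoped BigOperators

theorem not_isRat_TT : ¬ IsRat cT := by
  obtain ⟨h5, h7, h11, h13, h17, h19, h23, h29, h31, h37, h41, h43, h47, h53, h59, h61⟩ := TT_values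
  exact not_isRat_cT h5 h7 h11 h13 h17 h19 h23 h29 h31 h37 h41 h43 h47 h53 h59 h61

/-- if all counts are rational functions at the primes `≥ 5` then so is `N10` -/
theorem isRat_N10 (h : ∀ n e : ℕ, 1 ≤ n → n ≤ e → IsRat (cIrr n e)) :
    IsRat (fun p => (N10 p : ℚ)) := by
  have h1 : ∀ n E : ℕ, 1 ≤ n → 1 ≤ E → IsRat (cGam n E) := by
    intro n E hn hE
    refine (h n (n - 1 + E) hn (by omega)).congr ?_
    intro p hp _
    have : Fact p.Prime := ⟨hp⟩
    unfold cIrr cGam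
    rw [lift_apply, lift_apply, card_Irr p n E hn]
  have h2 : ∀ δ, IsRat (cHs 10 11 δ) := by
    intro δ
    have := isRat_Hs (11 + δ) (by omega) (fun n hn => h1 n (11 + δ) hn (by omega)) δ (by omega)
    rwa [show 11 + δ - δ = 11 by omega] at this
  have h3 := isRat_E3 h2
  have h4 : IsRat (fun p => ((p : ℚ) ^ 3 - p) * ((p : ℚ) ^ 3 - (p : ℚ) ^ 2) * cE3 p / (p : ℚ) ^ 8) := by
    apply IsRat.div
    · exact (((IsRat.id.pow 3).sub IsRat.id).mul ((IsRat.id.pow 3).sub (IsRat.id.pow 2))).mul h3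
    · exact IsRat.id.pow 8
    · intro p hp _
      have : (p : ℚ) ≠ 0 := by exact_mod_cast hp.ne_zero
      positivity
  refine h4.congr ?_
  intro p hp _
  have : Fact p.Prime := ⟨hp⟩
  have hp0 : (p : ℚ) ≠ 0 := by exact_mod_cast hp.ne_zero
  rw [div_eq_iff (by positivity)]
  unfold cE3
  rw [lift_apply, card_E3 p]
  ring

theorem exists_not_rat : ∃ n e : ℕ, 1 ≤ n ∧ n ≤ e ∧ ¬ IsRat (cIrr n e) := by
  by_contra hcon
  push Not at hcon
  exact not_isRat_TT (isRat_cT_of_N10 (isRat_N10 hcon))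

theorem main : ∃ n e : ℕ, 1 ≤ n ∧ n ≤ e ∧
    ¬ ∃ P : Polynomial ℚ, ∀ (p : ℕ) [Fact p.Prime], 5 ≤ p →
      ((Irr p n e).ncard : ℚ) = P.eval (p : ℚ) := by
  obtain ⟨n, e, hn, he, h⟩ := exists_not_rat
  refine ⟨n, e, hn, he, ?_⟩
  rintro ⟨P, hP⟩
  apply h
  refine ⟨P, 1, ?_⟩
  intro p hp h5
  have : Fact p.Prime := ⟨hp⟩
  unfold cIrr
  rw [lift_apply, hP p h5]
  simp

end Pool.Agent.T2H70.SR
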