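import Pool.Agent.T2H70.SR.A3
import Pool.Agent.T2H70.SR.A4

set_option autoImplicit false

/-!
# Liu's recursion: subrings in terms of irreducible subrings

A unital subring `Λ` of finite `p`-power index of `ℤ_p^ι` contains the indicator of the class of a coordinate `a` (`i ~ j` if
`p ∣ x i - x j` for all `x ∈ Λ`), so it is the product of an irreducible subring on the class and a subring on the complement.
-/

namespace Pool.Agent.T2H70.SR

open Finset
open scoped BigOperators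

/-- unital subrings of index `p^e` of `ℤ_p^ι` -/
def SubI (p : ℕ) [Fact p.Prime] (ι : Type) (e : ℕ) : Set (Subring (ι → ℤ_[p])) :=
  {L | L.toAddSubgroup.index = p ^ e}

/-- irreducible subrings of index `p^e` of `ℤ_p^ι` -/
def IrrI (p : ℕ) [Fact p.Prime] (ι : Type) (e : ℕ) : Set (Subring (ι → ℤ_[p])) :=
  {L | L.toAddSubgroup.index = p ^ e ∧ ∀ x ∈ L, ∀ i j, (p : ℤ_[p]) ∣ x i - x j}

/-- unital subrings of index `p^e` of `ℤ_p^n` -/
def Sub (p : ℕ) [Fact p.Prime] (n e : ℕ) : Set (Subring (Fin n → ℤ_[p])) :=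
  {L | L.toAddSubgroup.index = p ^ e}

/-- the number of unital subrings, as a function of `p` -/
noncomputable def cSub (n e : ℕ) : ℕ → ℚ := lift fun p _ => ((Sub p n e).ncard : ℚ)

namespace L1

variable {p : ℕ} [Fact p.Prime]

theorem smul_mem {ι : Type} {e : ℕ} {L : Subring (ι → ℤ_[p])} (h : L ∈ SubI p ι e) (z : ℤ_[p])
    (x : ι → ℤ_[p]) (hx : x ∈ L) : z • x ∈ L :=
  A3.smul_mem_of_index L.toAddSubgroup h z x hx

theorem pow_mem {ι : Type} {e : ℕ} {L : Subring (ι → ℤ_[p])} (h : L ∈ SubI p ι e)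
    (x : ι → ℤ_[p]) (hx : ∀ i, (p : ℤ_[p]) ^ e ∣ x i) : x ∈ L := by
  choose w hw using hx
  have h1 : x = (p ^ e) • w := by
    funext i
    rw [Pi.smul_apply, nsmul_eq_mul, hw i]
    push_cast
    ring
  rw [h1]
  have h2 : L.toAddSubgroup.index = p ^ e := h
  have h3 : L.toAddSubgroup.index • w ∈ L.toAddSubgroup := L.toAddSubgroup.nsmul_index_mem w
  rw [h2] at h3
  exact h3

theorem SubI_finite (ι : Type) [Finite ι] (e : ℕ) : (SubI p ι e).Finite := by
  have hne : NeZero (p ^ e) := ⟨pow_ne_zero _ (Fact.out : p.Prime).ne_zero⟩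
  let φ : (ι → ℤ_[p]) → (ι → ZMod (p ^ e)) := fun f i => PadicInt.toZModPow e (f i)
  have hinj : Set.InjOn (fun Γ : Subring (ι → ℤ_[p]) => φ '' (Γ : Set (ι → ℤ_[p])))
      (SubI p ι e) := by
    have key : ∀ Γ ∈ SubI p ι e, ∀ Δ ∈ SubI p ι e,
        φ '' (Γ : Set (ι → ℤ_[p])) = φ '' (Δ : Set (ι → ℤ_[p])) → Γ ≤ Δ := by
      intro Γ _ Δ hΔ h x hx
      have h1 : φ x ∈ φ '' (Δ : Set (ι → ℤ_[p])) := by
        rw [← h]; exact ⟨x, hx, rfl⟩
      obtain ⟨y, hy, hyx⟩ := h1
      have h2 : ∀ i, (p : ℤ_[p]) ^ e ∣ (x - y) i := by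
        intro i
        have h3 : PadicInt.toZModPow e (x i - y i) = 0 := by
          rw [map_sub, sub_eq_zero]
          exact (congrFun hyx i).symm
        have h4 : x i - y i ∈ RingHom.ker (PadicInt.toZModPow (p := p) e) := h3
        rw [PadicInt.ker_toZModPow, Ideal.mem_span_singleton] at h4
        exact h4
      have h5 : x = y + (x - y) := by ring
      rw [h5]
      exact Δ.add_mem hy (pow_mem hΔ _ h2)
    intro Γ hΓ Δ hΔ h
    exact le_antisymm (key Γ hΓ Δ hΔ h) (key Δ hΔ Γ hΓ h.symm)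
  exact Set.Finite.of_finite_image (Set.toFinite _) hinj

theorem IrrI_finite (ι : Type) [Finite ι] (e : ℕ) : (IrrI p ι e).Finite :=
  (SubI_finite ι e).subset fun _ h => h.1

/-- the class of the coordinate `a` -/
def Cls {ι : Type} (L : Subring (ι → ℤ_[p])) (a : ι) : Set ι :=
  {j | ∀ x ∈ L, (p : ℤ_[p]) ∣ x j - x a}

open Classical in
/-- the indicator of the class is in the subring -/
theorem ind_mem {ι : Type} [Finite ι] {e : ℕ} {L : Subring (ι → ℤ_[p])} (h : L ∈ SubI p ι e)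
    (a : ι) : (fun i => if i ∈ Cls L a then (1 : ℤ_[p]) else 0) ∈ L := by
  classical
  have : Fintype ι := Fintype.ofFinite ι
  have h1 : ∀ j, j ∉ Cls L a → ∃ z ∈ L, z j = 0 ∧ z a = 1 := by
    intro j hj
    have hj2 : ∃ x ∈ L, ¬ (p : ℤ_[p]) ∣ x j - x a := by
      by_contra hcon
      push Not at hcon
      exact hj hcon
    obtain ⟨x, hx, hx2⟩ := hj2
    have hu : IsUnit (x a - x j) := by
      rw [PadicInt.isUnit_iff]
      have h2 : ‖x a - x j‖ ≤ 1 := PadicInt.norm_le_one _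
      by_contra hne
      have h3 : ‖x a - x j‖ < 1 := lt_of_le_of_ne h2 hne
      rw [PadicInt.norm_lt_one_iff_dvd] at h3
      apply hx2
      have h4 : x j - x a = -(x a - x j) := by ring
      rw [h4]
      exact (dvd_neg).2 h3
    obtain ⟨u, hu⟩ := hu
    refine ⟨((u⁻¹ : (ℤ_[p])ˣ) : ℤ_[p]) • (x - (x j) • (1 : ι → ℤ_[p])), ?_, ?_, ?_⟩
    · apply smul_mem h
      exact L.sub_mem hx (smul_mem h _ _ L.one_mem)
    · simp
    · simp only [Pi.smul_apply, Pi.sub_apply, Pi.one_apply, smul_eq_mul, mul_one]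
      rw [← hu]
      simp
  choose! z hzL hz0 hz1 using h1
  set w : ι → ℤ_[p] := ∏ j ∈ (univ : Finset ι).filter (fun j => j ∉ Cls L a), z j with hw
  have hwL : w ∈ L := by
    apply Subring.prod_mem
    intro j hj
    rw [Finset.mem_filter] at hj
    exact hzL j hj.2
  have hw0 : ∀ j, j ∉ Cls L a → w j = 0 := by
    intro j hj
    rw [hw, Finset.prod_apply]
    apply Finset.prod_eq_zero (i := j)
    · rw [Finset.mem_filter]; exact ⟨mem_univ _, hj⟩
    · exact hz0 j hj
  have hwa : w a = 1 := by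
    rw [hw, Finset.prod_apply]
    apply Finset.prod_eq_one
    intro j hj
    rw [Finset.mem_filter] at hj
    exact hz1 j hj.2
  have hw1 : ∀ j, j ∈ Cls L a → (p : ℤ_[p]) ∣ w j - 1 := by
    intro j hj
    rw [← hwa]
    exact hj w hwL
  have h2 : (fun i => if i ∈ Cls L a then (1 : ℤ_[p]) else 0) =
      w ^ (p ^ e) + ((fun i => if i ∈ Cls L a then (1 : ℤ_[p]) else 0) - w ^ (p ^ e)) := by
    ring
  rw [h2]
  apply L.add_mem (L.pow_mem hwL _)
  apply pow_mem h
  intro i
  rw [Pi.sub_apply, Pi.pow_apply]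
  by_cases hi : i ∈ Cls L a
  · rw [if_pos hi]
    have h3 := dvd_sub_pow_of_dvd_sub (R := ℤ_[p]) (p := p) (a := 1) (b := w i)
      (by have := hw1 i hi
          have h4 : (1 : ℤ_[p]) - w i = -(w i - 1) := by ring
          rw [h4]; exact dvd_neg.2 this) e
    rw [one_pow] at h3
    exact dvd_trans (pow_dvd_pow _ (by omega)) h3
  · rw [if_neg hi, hw0 i hi, zero_pow (pow_ne_zero _ (Fact.out : p.Prime).ne_zero), sub_zero]
    exact dvd_zero _

/-- splitting the coordinates -/
noncomputable def spl {ι : Type} [DecidableEq ι] (J : Finset ι) :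
    (ι → ℤ_[p]) ≃+* ({x // x ∈ J} → ℤ_[p]) × ({x // x ∉ J} → ℤ_[p]) :=
  RingEquiv.piEquivPiSubtypeProd (fun x => x ∈ J) (fun _ => ℤ_[p])

theorem spl_fst {ι : Type} [DecidableEq ι] (J : Finset ι) (x : ι → ℤ_[p]) (i : {x // x ∈ J}) :
    (spl J x).1 i = x i := rfl

theorem spl_snd {ι : Type} [DecidableEq ι] (J : Finset ι) (x : ι → ℤ_[p]) (i : {x // x ∉ J}) :
    (spl J x).2 i = x i := rfl

/-- the product subring -/
noncomputable def glue {ι : Type} [DecidableEq ι] (J : Finset ι) (A : Subring ({x // x ∈ J} → ℤ_[p]))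
    (B : Subring ({x // x ∉ J} → ℤ_[p])) : Subring (ι → ℤ_[p]) :=
  (A.prod B).comap (spl (p := p) J).toRingHom

theorem mem_glue {ι : Type} [DecidableEq ι] (J : Finset ι) (A : Subring ({x // x ∈ J} → ℤ_[p]))
    (B : Subring ({x // x ∉ J} → ℤ_[p])) (x : ι → ℤ_[p]) :
    x ∈ glue J A B ↔ (spl J x).1 ∈ A ∧ (spl J x).2 ∈ B := by
  unfold glue
  rw [Subring.mem_comap, Subring.mem_prod]
  rfl

theorem index_glue {ι : Type} [DecidableEq ι] (J : Finset ι) (A : Subring ({x // x ∈ J} → ℤ_[p]))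
    (B : Subring ({x // x ∉ J} → ℤ_[p])) :
    (glue J A B).toAddSubgroup.index = A.toAddSubgroup.index * B.toAddSubgroup.index := by
  rw [← AddSubgroup.index_prod]
  have h1 : (glue J A B).toAddSubgroup = (A.toAddSubgroup.prod B.toAddSubgroup).comap
      ((spl (p := p) J).toAddEquiv.toAddMonoidHom) := by
    ext x
    exact mem_glue J A B x
  rw [h1]
  apply AddSubgroup.index_comap_of_surjective
  exact (spl (p := p) J).surjective

open Classical in
theorem cls_glue {ι : Type} (J : Finset ι) (a : ι) (ha : a ∈ J)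
    (A : Subring ({x // x ∈ J} → ℤ_[p])) (B : Subring ({x // x ∉ J} → ℤ_[p]))
    (hA : ∀ x ∈ A, ∀ i j, (p : ℤ_[p]) ∣ x i - x j) : Cls (glue J A B) a = J := by
  ext j
  constructor
  · intro hj
    by_contra hj2
    have h1 : (spl J).symm ((1 : {x // x ∈ J} → ℤ_[p]), (0 : {x // x ∉ J} → ℤ_[p])) ∈
        glue J A B := by
      rw [mem_glue, RingEquiv.apply_symm_apply]
      exact ⟨A.one_mem, B.zero_mem⟩
    have h2 := hj _ h1
    have e : spl J ((spl J).symm ((1 : {x // x ∈ J} → ℤ_[p]), (0 : {x // x ∉ J} → ℤ_[p]))) =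
      (1, 0) := RingEquiv.apply_symm_apply _ _
    have e1 := congrFun (congrArg Prod.fst e) ⟨a, ha⟩
    rw [spl_fst] at e1
    have hj3 : j ∉ J := fun h => hj2 h
    have e2 := congrFun (congrArg Prod.snd e) ⟨j, hj3⟩
    rw [spl_snd] at e2
    simp only [Pi.one_apply, Pi.zero_apply] at e1 e2
    rw [e1, e2, zero_sub, dvd_neg] at h2
    exact (PadicInt.prime_p (p := p)).not_isUnit (isUnit_of_dvd_one h2)
  · intro hj x hx
    rw [mem_glue] at hx
    exact hA _ hx.1 ⟨j, hj⟩ ⟨a, ha⟩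

theorem glue_inj {ι : Type} [DecidableEq ι] (J : Finset ι)
    {A A' : Subring ({x // x ∈ J} → ℤ_[p])} {B B' : Subring ({x // x ∉ J} → ℤ_[p])}
    (h : glue J A B = glue J A' B') : A = A' ∧ B = B' := by
  have h1 : ∀ x y, x ∈ A ∧ y ∈ B ↔ x ∈ A' ∧ y ∈ B' := by
    intro x y
    have e : spl J ((spl J).symm (x, y)) = (x, y) := RingEquiv.apply_symm_apply _ _
    have e1 := mem_glue J A B ((spl J).symm (x, y))
    have e2 := mem_glue J A' B' ((spl J).symm (x, y))
    rw [e] at e1 e2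
    rw [← e1, ← e2, h]
  constructor
  · ext x
    constructor
    · intro hx; exact ((h1 x 0).1 ⟨hx, B.zero_mem⟩).1
    · intro hx; exact ((h1 x 0).2 ⟨hx, B'.zero_mem⟩).1
  · ext y
    constructor
    · intro hy; exact ((h1 0 y).1 ⟨A.zero_mem, hy⟩).2
    · intro hy; exact ((h1 0 y).2 ⟨A'.zero_mem, hy⟩).2

open Classical in
theorem glue_surj {ι : Type} [Finite ι] {e : ℕ} {L : Subring (ι → ℤ_[p])} (h : L ∈ SubI p ι e)
    (a : ι) (J : Finset ι) (hJ : Cls L a = J) :
    ∃ (A : Subring ({x // x ∈ J} → ℤ_[p])) (B : Subring ({x // x ∉ J} → ℤ_[p])),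
      glue J A B = L ∧ ∀ x ∈ A, ∀ i j, (p : ℤ_[p]) ∣ x i - x j := by
  set f1 : (ι → ℤ_[p]) →+* ({x // x ∈ J} → ℤ_[p]) :=
    (RingHom.fst _ _).comp (spl (p := p) J).toRingHom with hf1
  set f2 : (ι → ℤ_[p]) →+* ({x // x ∉ J} → ℤ_[p]) :=
    (RingHom.snd _ _).comp (spl (p := p) J).toRingHom with hf2
  have e1 : ∀ x i, f1 x i = x i := fun x i => rfl
  have e2 : ∀ x i, f2 x i = x i := fun x i => rfl
  refine ⟨L.map f1, L.map f2, ?_, ?_⟩
  · ext x
    rw [mem_glue]
    constructor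
    · rintro ⟨⟨y, hy, hy2⟩, ⟨z, hz, hz2⟩⟩
      have h1 := ind_mem h a
      set u : ι → ℤ_[p] := fun i => if i ∈ Cls L a then (1 : ℤ_[p]) else 0 with hu
      have h2 : x = y * u + z * (1 - u) := by
        funext i
        simp only [Pi.add_apply, Pi.mul_apply, Pi.sub_apply, Pi.one_apply, hu]
        by_cases hi : i ∈ Cls L a
        · rw [if_pos hi]
          have hi2 : i ∈ J := by
            have : i ∈ (J : Set ι) := by rw [← hJ]; exact hi
            exact this
          have h3 := congrFun hy2 ⟨i, hi2⟩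
          have h4 : y i = x i := h3
          rw [h4]; ring
        · rw [if_neg hi]
          have hi2 : i ∉ J := by
            intro hc
            apply hi
            rw [hJ]; exact hc
          have h3 := congrFun hz2 ⟨i, hi2⟩
          have h4 : z i = x i := h3
          rw [h4]; ring
      rw [h2]
      exact L.add_mem (L.mul_mem hy h1) (L.mul_mem hz (L.sub_mem L.one_mem h1))
    · intro hx
      exact ⟨⟨x, hx, rfl⟩, ⟨x, hx, rfl⟩⟩
  · rintro _ ⟨x, hx, rfl⟩ i j
    rw [e1, e1]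
    have hi : (i : ι) ∈ Cls L a := by rw [hJ]; exact i.2
    have hj : (j : ι) ∈ Cls L a := by rw [hJ]; exact j.2
    have h1 := hi x hx
    have h2 := hj x hx
    have h3 : x i - x j = (x i - x a) - (x j - x a) := by ring
    rw [h3]
    exact dvd_sub h1 h2

open Classical in
/-- the decomposition -/
noncomputable def Phi {ι : Type} (a : ι) (e : ℕ)
    (x : (J : {J : Finset ι // a ∈ J}) × (i : Fin (e + 1)) ×
      (IrrI p {x // x ∈ J.1} i × SubI p {x // x ∉ J.1} (e - i))) : SubI p ι e :=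
  ⟨glue x.1.1 x.2.2.1.1 x.2.2.2.1, by
    have h1 := x.2.2.1.2.1
    have h2 := x.2.2.2.2
    have h3 := index_glue x.1.1 x.2.2.1.1 x.2.2.2.1
    show (glue x.1.1 x.2.2.1.1 x.2.2.2.1).toAddSubgroup.index = p ^ e
    have h4 : x.2.2.2.1.toAddSubgroup.index = p ^ (e - x.2.1) := h2
    rw [h3, h1, h4, ← pow_add]
    congr 1
    have := x.2.1.2
    omega⟩

theorem Phi_bij {ι : Type} [Finite ι] (a : ι) (e : ℕ) :
    Function.Bijective (Phi (p := p) a e) := by
  classical
  have hp : p.Prime := Fact.out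
  constructor
  · rintro ⟨⟨J, hJ⟩, i, ⟨A, hA⟩, ⟨B, hB⟩⟩ ⟨⟨J', hJ'⟩, i', ⟨A', hA'⟩, ⟨B', hB'⟩⟩ h
    have h1 : glue J A B = glue J' A' B' := congrArg Subtype.val h
    have h2 : (J : Set ι) = J' := by
      rw [← cls_glue J a hJ A B hA.2, ← cls_glue J' a hJ' A' B' hA'.2, h1]
    have h3 : J = J' := Finset.coe_injective h2
    subst h3
    obtain ⟨h4, h5⟩ := glue_inj J h1
    subst h4
    subst h5
    have h6 : i = i' := by
      have e1 := hA.1
      have e2 := hA'.1
      rw [e1] at e2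
      exact Fin.ext (Nat.pow_right_injective hp.two_le e2)
    subst h6
    rfl
  · rintro ⟨L, hL⟩
    have : Fintype ι := Fintype.ofFinite ι
    set J : Finset ι := (Cls L a).toFinset with hJ
    have hJ2 : Cls L a = J := by rw [hJ]; simp
    have haJ : a ∈ J := by
      have : a ∈ (J : Set ι) := by
        rw [← hJ2]
        intro x _
        simp
      exact this
    obtain ⟨A, B, h1, h2⟩ := glue_surj hL a J hJ2
    have h3 := index_glue J A B
    rw [h1] at h3
    have h4 : L.toAddSubgroup.index = p ^ e := hL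
    rw [h4] at h3
    obtain ⟨i, hi, hi2⟩ := (Nat.dvd_prime_pow hp).1 (Dvd.intro _ h3.symm)
    have h5 : B.toAddSubgroup.index = p ^ (e - i) := by
      rw [hi2] at h3
      apply Nat.eq_of_mul_eq_mul_left (pow_pos hp.pos i)
      rw [← h3, ← pow_add]
      congr 1
      omega
    refine ⟨⟨⟨J, haJ⟩, ⟨i, by omega⟩, ⟨A, hi2, h2⟩, ⟨B, h5⟩⟩, ?_⟩
    apply Subtype.ext
    exact h1

/-- reindexing of subrings -/
noncomputable def rs {ι κ : Type} (s : ι ≃ κ) : Subring (ι → ℤ_[p]) ≃ Subring (κ → ℤ_[p]) where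
  toFun L := L.comap ((A4.reix (p := p) s).symm : (κ → ℤ_[p]) →+* (ι → ℤ_[p]))
  invFun L := L.comap ((A4.reix (p := p) s) : (ι → ℤ_[p]) →+* (κ → ℤ_[p]))
  left_inv L := by
    ext x
    rw [Subring.mem_comap, Subring.mem_comap]
    simp
  right_inv L := by
    ext x
    rw [Subring.mem_comap, Subring.mem_comap]
    simp

theorem mem_rs {ι κ : Type} (s : ι ≃ κ) (L : Subring (ι → ℤ_[p])) (x : κ → ℤ_[p]) :
    x ∈ rs s L ↔ x ∘ s ∈ L := Iff.rfl

theorem index_rs {ι κ : Type} (s : ι ≃ κ) (L : Subring (ι → ℤ_[p])) :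
    (rs s L).toAddSubgroup.index = L.toAddSubgroup.index := by
  have h1 : (rs s L).toAddSubgroup = L.toAddSubgroup.comap
      ((A4.reix (p := p) s).symm.toAddEquiv.toAddMonoidHom) := rfl
  rw [h1]
  apply AddSubgroup.index_comap_of_surjective
  exact (A4.reix (p := p) s).symm.surjective

theorem card_IrrI {ι κ : Type} (s : ι ≃ κ) (e : ℕ) :
    Nat.card (IrrI p ι e) = Nat.card (IrrI p κ e) := by
  apply Nat.card_congr
  refine (rs s).subtypeEquiv ?_
  intro L
  show (L.toAddSubgroup.index = p ^ e ∧ ∀ x ∈ L, ∀ i j, (p : ℤ_[p]) ∣ x i - x j) ↔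
    ((rs s L).toAddSubgroup.index = p ^ e ∧ ∀ x ∈ rs s L, ∀ i j, (p : ℤ_[p]) ∣ x i - x j)
  rw [index_rs]
  apply and_congr_right
  intro _
  constructor
  · intro h x hx i j
    rw [mem_rs] at hx
    have := h _ hx (s.symm i) (s.symm j)
    simpa using this
  · intro h x hx i j
    have := h (x ∘ s.symm) (by
      rw [mem_rs]
      have e : (x ∘ s.symm) ∘ s = x := by funext k; simp
      rw [e]; exact hx) (s i) (s j)
    simpa using this

theorem card_SubI {ι κ : Type} (s : ι ≃ κ) (e : ℕ) :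
    Nat.card (SubI p ι e) = Nat.card (SubI p κ e) := by
  apply Nat.card_congr
  refine (rs s).subtypeEquiv ?_
  intro L
  show (L.toAddSubgroup.index = p ^ e) ↔ ((rs s L).toAddSubgroup.index = p ^ e)
  rw [index_rs]

end L1

open L1 in
/-- Liu's recursion -/
theorem liu (p : ℕ) [Fact p.Prime] (n e : ℕ) :
    (Sub p (n + 1) e).ncard = ∑ j ∈ range (n + 1), n.choose j * ∑ i ∈ range (e + 1),
      (Irr p (j + 1) i).ncard * (Sub p (n - j) (e - i)).ncard := by
  classical
  set φ : ℕ → ℕ := fun j => ∑ i ∈ range (e + 1),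
      (Irr p (j + 1) i).ncard * (Sub p (n - j) (e - i)).ncard with hφ
  have h1 : (Sub p (n + 1) e).ncard = Nat.card (SubI p (Fin (n + 1)) e) := rfl
  rw [h1, ← Nat.card_congr (Equiv.ofBijective _ (Phi_bij (p := p) (0 : Fin (n + 1)) e))]
  have hfin : ∀ (J : {J : Finset (Fin (n + 1)) // (0 : Fin (n + 1)) ∈ J}) (i : Fin (e + 1)),
      Finite (IrrI p {x // x ∈ J.1} i × SubI p {x // x ∉ J.1} (e - i)) := by
    intro J i
    have f1 : Finite (IrrI p {x // x ∈ J.1} i) := (IrrI_finite _ _).to_subtype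
    have f2 : Finite (SubI p {x // x ∉ J.1} (e - i)) := (SubI_finite _ _).to_subtype
    infer_instance
  rw [Nat.card_sigma]
  have h2 : ∀ J : {J : Finset (Fin (n + 1)) // (0 : Fin (n + 1)) ∈ J},
      Nat.card ((i : Fin (e + 1)) × (IrrI p {x // x ∈ J.1} i × SubI p {x // x ∉ J.1} (e - i))) =
        φ (J.1.card - 1) := by
    intro J
    rw [Nat.card_sigma, hφ]
    simp only []
    rw [Finset.sum_range]
    apply Finset.sum_congr rfl
    intro i _
    rw [Nat.card_prod]
    have hc : 1 ≤ J.1.card := Finset.card_pos.2 ⟨_, J.2⟩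
    have hc2 : J.1.card ≤ n + 1 := by
      have := Finset.card_le_univ J.1
      simpa using this
    have s1 : {x // x ∈ J.1} ≃ Fin (J.1.card - 1 + 1) :=
      Fintype.equivFinOfCardEq (by rw [Fintype.card_coe]; omega)
    have s2 : {x // x ∉ J.1} ≃ Fin (n - (J.1.card - 1)) :=
      Fintype.equivFinOfCardEq (by
        rw [Fintype.card_subtype_compl, Fintype.card_coe, Fintype.card_fin]; omega)
    rw [card_IrrI s1, card_SubI s2]
    rfl
  rw [Finset.sum_congr rfl (fun J _ => h2 J)]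
  have h3 : ∑ J : {J : Finset (Fin (n + 1)) // (0 : Fin (n + 1)) ∈ J}, φ (J.1.card - 1) =
      ∑ K ∈ ((univ : Finset (Fin (n + 1))).erase 0).powerset, φ K.card := by
    refine Finset.sum_bij' (fun J _ => J.1.erase 0)
      (fun K _ => ⟨insert 0 K, Finset.mem_insert_self _ _⟩) ?_ ?_ ?_ ?_ ?_
    · intro J _
      rw [Finset.mem_powerset]
      exact Finset.erase_subset_erase _ (Finset.subset_univ _)
    · intro K _
      exact mem_univ _
    · intro J _
      apply Subtype.ext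
      exact Finset.insert_erase J.2
    · intro K hK
      rw [Finset.mem_powerset] at hK
      apply Finset.erase_insert
      intro h
      have := hK h
      simp at this
    · intro J _
      rw [Finset.card_erase_of_mem J.2]
  rw [h3, Finset.sum_powerset_apply_card]
  have h4 : ((univ : Finset (Fin (n + 1))).erase 0).card = n := by
    rw [Finset.card_erase_of_mem (mem_univ _)]; simp
  rw [h4]
  apply Finset.sum_congr rfl
  intro j _
  rw [smul_eq_mul]

end Pool.Agent.T2H70.SR
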