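import Pool.Agent.T2H70.SR.A1
import Pool.Agent.T2H70.SR.L1

set_option autoImplicit false

/-!
# From the numbers of all subrings to the numbers of irreducible subrings

Vanishing of `Irr p (j+1) i` for `i < j`, the trivial cases, and the inversion of Liu's recursion: if `f_n(p^e)` is a rational function
at the primes `≥ 5` for all `n ≥ 5`, `e ≥ 1`, then so are all `f_n(p^e)` and all `g_n(p^e)`.
-/

namespace Pool.Agent.T2H70.SR

open Finset
open scoped BigOperators

namespace L2

variable {p : ℕ} [Fact p.Prime]

/-- differences with the first coordinate, modulo `p` -/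
noncomputable def df (p : ℕ) [Fact p.Prime] (j : ℕ) : (Fin (j + 1) → ℤ_[p]) →+ (Fin j → ZMod p) where
  toFun x i := PadicInt.toZMod (x i.succ - x 0)
  map_zero' := by ext i; simp
  map_add' x y := by
    ext i
    simp only [Pi.add_apply]
    rw [← map_add]
    congr 1
    ring

theorem df_apply (j : ℕ) (x : Fin (j + 1) → ℤ_[p]) (i : Fin j) :
    df p j x i = PadicInt.toZMod (x i.succ - x 0) := rfl

theorem df_surj (j : ℕ) : Function.Surjective (df p j) := by
  intro y
  refine ⟨Fin.cons 0 (fun i => ((y i).val : ℤ_[p])), ?_⟩
  ext i
  rw [df_apply, Fin.cons_succ, Fin.cons_zero, sub_zero, map_natCast]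
  exact ZMod.natCast_zmod_val _

theorem index_df (j : ℕ) : (df p j).ker.index = p ^ j := by
  rw [AddSubgroup.index_ker, AddMonoidHom.range_eq_top.2 (df_surj j), AddSubgroup.card_top,
    Nat.card_eq_fintype_card, Fintype.card_fun, ZMod.card, Fintype.card_fin]

theorem le_of_mem_Irr (j e : ℕ) (L : Subring (Fin (j + 1) → ℤ_[p])) (h : L ∈ Irr p (j + 1) e) :
    j ≤ e := by
  have hp : p.Prime := Fact.out
  have h1 : L.toAddSubgroup ≤ (df p j).ker := by
    intro x hx
    rw [AddMonoidHom.mem_ker]
    ext i
    rw [df_apply]
    have h2 := h.2 x hx i.succ 0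
    have h3 : x i.succ - x 0 ∈ RingHom.ker (PadicInt.toZMod (p := p)) := by
      rw [PadicInt.ker_toZMod, PadicInt.maximalIdeal_eq_span_p, Ideal.mem_span_singleton]
      exact h2
    exact h3
  have h2 := AddSubgroup.index_dvd_of_le h1
  rw [index_df, h.1] at h2
  exact (Nat.pow_dvd_pow_iff_le_right hp.one_lt).1 h2

end L2

open L2

theorem Irr_zero (p : ℕ) [Fact p.Prime] (j e : ℕ) (h : e < j) : (Irr p (j + 1) e).ncard = 0 := by
  have : Irr p (j + 1) e = ∅ := by
    rw [Set.eq_empty_iff_forall_notMem]
    intro L hL
    have := le_of_mem_Irr j e L hL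
    omega
  rw [this, Set.ncard_empty]

theorem Irr_one (p : ℕ) [Fact p.Prime] (e : ℕ) :
    (Irr p 1 e).ncard = if e = 0 then 1 else 0 := by
  have hp : p.Prime := Fact.out
  have h1 : ∀ L ∈ Irr p 1 e, L = ⊤ := by
    intro L hL
    rw [eq_top_iff]
    intro x _
    have h2 := L1.smul_mem (e := e) (L := L) hL.1 (x 0) 1 L.one_mem
    have h3 : x 0 • (1 : Fin 1 → ℤ_[p]) = x := by
      funext i
      rw [Subsingleton.elim i 0]
      simp
    rw [h3] at h2
    exact h2
  by_cases he : e = 0
  · rw [if_pos he]
    have h2 : Irr p 1 e = {⊤} := by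
      ext L
      rw [Set.mem_singleton_iff]
      constructor
      · exact h1 L
      · rintro rfl
        refine ⟨?_, ?_⟩
        · rw [he, pow_zero]
          exact AddSubgroup.index_top
        · intro x _ i j
          rw [Subsingleton.elim i j, sub_self]
          exact dvd_zero _
    rw [h2, Set.ncard_singleton]
  · rw [if_neg he]
    have h2 : Irr p 1 e = ∅ := by
      rw [Set.eq_empty_iff_forall_notMem]
      intro L hL
      have h3 := h1 L hL
      have h4 := hL.1
      rw [h3] at h4
      have h5 : (⊤ : Subring (Fin 1 → ℤ_[p])).toAddSubgroup.index = 1 := AddSubgroup.index_top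
      rw [h5] at h4
      have := Nat.one_lt_pow he hp.one_lt
      omega
    rw [h2, Set.ncard_empty]

theorem Sub_zero (p : ℕ) [Fact p.Prime] (n : ℕ) : (Sub p n 0).ncard = 1 := by
  have h2 : Sub p n 0 = {⊤} := by
    ext L
    rw [Set.mem_singleton_iff]
    constructor
    · intro h
      have h3 : L.toAddSubgroup.index = 1 := by
        have : L.toAddSubgroup.index = p ^ 0 := h
        rw [this, pow_zero]
      rw [AddSubgroup.index_eq_one] at h3
      rw [eq_top_iff]
      intro x _
      have : x ∈ L.toAddSubgroup := by rw [h3]; exact AddSubgroup.mem_top x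
      exact this
    · rintro rfl
      show (⊤ : Subring (Fin n → ℤ_[p])).toAddSubgroup.index = p ^ 0
      rw [pow_zero]
      exact AddSubgroup.index_top
  rw [h2, Set.ncard_singleton]

/-- the difference of consecutive counts, for `e ≥ 1` -/
theorem liu_diff (p : ℕ) [Fact p.Prime] (n e : ℕ) (he : 1 ≤ e) :
    ((Sub p (n + 1) e).ncard : ℚ) = (Sub p n e).ncard
      + ∑ j ∈ range e, (n.choose (j + 1) : ℚ) * (∑ i ∈ range (e - 1),
        ((Irr p (j + 2) (i + 1)).ncard : ℚ) * (Sub p (n - (j + 1)) (e - (i + 1))).ncard)
      + ∑ j ∈ range e, (n.choose (j + 1) : ℚ) * (Irr p (j + 2) e).ncard := by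
  rw [liu p n e]
  -- extend or cut the range of `j`
  have key : ∀ F : ℕ → ℕ, (∀ j, e < j → F j = 0) →
      ∑ j ∈ range (n + 1), n.choose j * F j = ∑ j ∈ range (e + 1), n.choose j * F j := by
    intro F hF
    have e1 : ∑ j ∈ range (n + 1), n.choose j * F j =
        ∑ j ∈ range (max n e + 1), n.choose j * F j := by
      apply Finset.sum_subset
      · intro x hx
        rw [mem_range] at *
        have := le_max_left n e
        omega
      · intro x _ hx
        rw [mem_range, not_lt] at hx
        rw [Nat.choose_eq_zero_of_lt (by omega), zero_mul]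
    have e2 : ∑ j ∈ range (e + 1), n.choose j * F j =
        ∑ j ∈ range (max n e + 1), n.choose j * F j := by
      apply Finset.sum_subset
      · intro x hx
        rw [mem_range] at *
        have := le_max_right n e
        omega
      · intro x _ hx
        rw [mem_range, not_lt] at hx
        rw [hF x (by omega), mul_zero]
    rw [e1, e2]
  rw [key]
  · rw [Finset.sum_range_succ']
    have h0 : ∑ i ∈ range (e + 1), (Irr p (0 + 1) i).ncard * (Sub p (n - 0) (e - i)).ncard =
        (Sub p n e).ncard := by
      rw [Finset.sum_range_succ', zero_add, Irr_one p 0, if_pos rfl, one_mul]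
      have : ∑ k ∈ range e, (Irr p 1 (k + 1)).ncard * (Sub p (n - 0) (e - (k + 1))).ncard = 0 := by
        apply Finset.sum_eq_zero
        intro k _
        rw [Irr_one p (k + 1), if_neg (by omega), zero_mul]
      rw [this, zero_add]
      rfl
    rw [h0, Nat.choose_zero_right, one_mul]
    push_cast
    rw [add_comm, add_assoc]
    congr 1
    rw [← Finset.sum_add_distrib]
    apply Finset.sum_congr rfl
    intro j _
    rw [← mul_add]
    congr 1
    obtain ⟨e', rfl⟩ : ∃ e', e = e' + 1 := ⟨e - 1, by omega⟩
    rw [Finset.sum_range_succ, Nat.sub_self, Sub_zero, Finset.sum_range_succ',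
      Irr_zero p (j + 1) 0 (by omega)]
    simp
  · intro j hj
    apply Finset.sum_eq_zero
    intro i hi
    rw [mem_range] at hi
    rw [Irr_zero p j i (by omega), zero_mul]

theorem isRat_of_cSub (h : ∀ n e, 5 ≤ n → 1 ≤ e → IsRat (cSub n e)) :
    ∀ e, (∀ n, IsRat (cSub n e)) ∧ (∀ j, IsRat (cIrr (j + 1) e)) := by
  intro e
  induction e using Nat.strong_induction_on with
  | _ e ih =>
    by_cases he : e = 0
    · subst he
      constructor
      · intro n
        refine (IsRat.const 1).congr ?_
        intro p hp _
        have : Fact p.Prime := ⟨hp⟩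
        unfold cSub
        rw [lift_apply, Sub_zero]
        simp
      · intro j
        by_cases hj : j = 0
        · subst hj
          refine (IsRat.const 1).congr ?_
          intro p hp _
          have : Fact p.Prime := ⟨hp⟩
          unfold cIrr
          rw [lift_apply, Irr_one, if_pos rfl]
          simp
        · refine (IsRat.const 0).congr ?_
          intro p hp _
          have : Fact p.Prime := ⟨hp⟩
          unfold cIrr
          rw [lift_apply, Irr_zero p j 0 (by omega)]
          simp
    · have he1 : 1 ≤ e := by omega
      -- the known part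
      set K : ℕ → ℕ → ℚ := fun n p => ∑ j ∈ range e, (n.choose (j + 1) : ℚ) *
        (∑ i ∈ range (e - 1), cIrr (j + 2) (i + 1) p * cSub (n - (j + 1)) (e - (i + 1)) p) with hK
      have hKr : ∀ n, IsRat (K n) := by
        intro n
        apply IsRat.sum
        intro j _
        apply (IsRat.const _).mul
        apply IsRat.sum
        intro i hi
        rw [mem_range] at hi
        exact ((ih (i + 1) (by omega)).2 (j + 1)).mul ((ih (e - (i + 1)) (by omega)).1 _)
      have hrec : ∀ n p : ℕ, p.Prime → cSub (n + 1) e p = cSub n e p + K n p +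
          ∑ j ∈ range e, (n.choose (j + 1) : ℚ) * cIrr (j + 2) e p := by
        intro n p hp
        have : Fact p.Prime := ⟨hp⟩
        have h1 := liu_diff p n e he1
        simp only [hK, cSub, cIrr, lift_apply]
        exact h1
      have hext : ∀ k < e + 1, ∀ i < 1,
          IsRat (fun p => if k = 0 then (0 : ℚ) else cIrr (k + 1) e p) := by
        apply extract (e + 1) 1 5 (fun n p => cSub (n + 1) e p - cSub n e p - K n p)
          (fun k _ p => if k = 0 then (0 : ℚ) else cIrr (k + 1) e p)
        · intro n hn
          exact ((h (n + 1) e (by omega) he1).sub (h n e hn he1)).sub (hKr n)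
        · intro n hn p hp _
          have h1 := hrec n p hp
          rw [Finset.sum_range_succ']
          simp only [Finset.sum_range_one, zero_mul, pow_zero, mul_one, if_true, mul_zero, add_zero,
            Nat.succ_ne_zero, if_false]
          rw [h1]
          ring
      have hIrr : ∀ j, IsRat (cIrr (j + 1) e) := by
        intro j
        by_cases hj : j = 0
        · subst hj
          refine (IsRat.const 0).congr ?_
          intro p hp _
          have : Fact p.Prime := ⟨hp⟩
          unfold cIrr
          rw [lift_apply, Irr_one, if_neg he]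
          simp
        · by_cases hj2 : e < j
          · refine (IsRat.const 0).congr ?_
            intro p hp _
            have : Fact p.Prime := ⟨hp⟩
            unfold cIrr
            rw [lift_apply, Irr_zero p j e hj2]
            simp
          · have h1 := hext j (by omega) 0 (by omega)
            simpa [hj] using h1
      refine ⟨?_, hIrr⟩
      have hdown : ∀ m n : ℕ, 5 ≤ n + m → IsRat (cSub n e) := by
        intro m
        induction m with
        | zero => intro n hn; exact h n e hn he1
        | succ m ihm =>
          intro n hn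
          have h1 : IsRat (cSub (n + 1) e) := ihm (n + 1) (by omega)
          have h2 : IsRat (fun p => ∑ j ∈ range e, (n.choose (j + 1) : ℚ) * cIrr (j + 2) e p) := by
            apply IsRat.sum
            intro j _
            exact (IsRat.const _).mul (hIrr (j + 1))
          refine ((h1.sub (hKr n)).sub h2).congr ?_
          intro p hp _
          rw [hrec n p hp]
          ring
      intro n
      exact hdown 5 n (by omega)

end Pool.Agent.T2H70.SR
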