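import Pool.Agent.T2H70.SR.L2
import Pool.Agent.T2H70.SR.Fin

set_option autoImplicit false

/-!
# Subrings of `ℤ^n` of index `p^e` are those of `ℤ_p^n`; the counts are not polynomials
-/

namespace Pool.Agent.T2H70.SR

open Finset
open scoped BigOperators

/-- unital subrings of index `k` of `ℤ^n` -/
def SubZ (n k : ℕ) : Set (Subring (Fin n → ℤ)) := {L | L.toAddSubgroup.index = k}

namespace L3

variable {p : ℕ} [Fact p.Prime]

/-- `ℤ^n → ℤ_p^n` -/
noncomputable def cst (p : ℕ) [Fact p.Prime] (n : ℕ) : (Fin n → ℤ) →+* (Fin n → ℤ_[p]) where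
  toFun x i := (x i : ℤ_[p])
  map_one' := by ext i; simp
  map_mul' x y := by ext i; simp
  map_zero' := by ext i; simp
  map_add' x y := by ext i; simp

theorem cst_apply (n : ℕ) (x : Fin n → ℤ) (i : Fin n) : cst p n x i = (x i : ℤ_[p]) := rfl

theorem approx (n e : ℕ) (x : Fin n → ℤ_[p]) :
    ∃ m : Fin n → ℤ, ∀ i, (p : ℤ_[p]) ^ e ∣ (x - cst p n m) i := by
  refine ⟨fun i => ((x i).appr e : ℤ), ?_⟩
  intro i
  rw [Pi.sub_apply, cst_apply]
  have h1 := PadicInt.appr_spec e (x i)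
  rw [Ideal.mem_span_singleton] at h1
  push_cast
  exact h1

theorem cst_dvd (n e : ℕ) (m : Fin n → ℤ) (h : ∀ i, (p : ℤ_[p]) ^ e ∣ cst p n m i) (i : Fin n) :
    (p : ℤ) ^ e ∣ m i := by
  have h1 := h i
  rw [cst_apply] at h1
  have h2 := (PadicInt.norm_le_pow_iff_mem_span_pow (m i : ℤ_[p]) e).2
    (Ideal.mem_span_singleton.2 h1)
  rw [PadicInt.norm_int_le_pow_iff_dvd] at h2
  exact_mod_cast h2

theorem index_comap_cst (n e : ℕ) (L : Subring (Fin n → ℤ_[p])) (h : L ∈ SubI p (Fin n) e) :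
    (L.comap (cst p n)).toAddSubgroup.index = p ^ e := by
  have h0 : L.toAddSubgroup.index = p ^ e := h
  have h1 : (L.comap (cst p n)).toAddSubgroup =
      L.toAddSubgroup.comap (cst p n).toAddMonoidHom := rfl
  rw [h1, AddSubgroup.index_comap, ← AddSubgroup.relIndex_sup_right]
  have h2 : (cst p n).toAddMonoidHom.range ⊔ L.toAddSubgroup = ⊤ := by
    rw [eq_top_iff]
    intro x _
    obtain ⟨m, hm⟩ := approx n e x
    have h3 : x = cst p n m + (x - cst p n m) := by ring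
    rw [h3]
    apply AddSubgroup.add_mem_sup
    · exact ⟨m, rfl⟩
    · exact L1.pow_mem h _ hm
  rw [h2, AddSubgroup.relIndex_top_right, h0]

/-- the completion of a subring -/
noncomputable def cmp (p : ℕ) [Fact p.Prime] (n e : ℕ) (M : Subring (Fin n → ℤ)) :
    Subring (Fin n → ℤ_[p]) where
  carrier := {x | ∃ m ∈ M, ∀ i, (p : ℤ_[p]) ^ e ∣ (x - cst p n m) i}
  mul_mem' := by
    rintro x y ⟨m, hm, h1⟩ ⟨m', hm', h2⟩
    refine ⟨m * m', M.mul_mem hm hm', ?_⟩
    intro i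
    have e1 : (x * y - cst p n (m * m')) i =
        (x - cst p n m) i * y i + cst p n m i * (y - cst p n m') i := by
      rw [map_mul]
      simp only [Pi.sub_apply, Pi.mul_apply]
      ring
    rw [e1]
    exact dvd_add (Dvd.dvd.mul_right (h1 i) _) (Dvd.dvd.mul_left (h2 i) _)
  one_mem' := ⟨1, M.one_mem, by intro i; rw [map_one, sub_self]; exact dvd_zero _⟩
  add_mem' := by
    rintro x y ⟨m, hm, h1⟩ ⟨m', hm', h2⟩
    refine ⟨m + m', M.add_mem hm hm', ?_⟩
    intro i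
    have e1 : (x + y - cst p n (m + m')) i = (x - cst p n m) i + (y - cst p n m') i := by
      rw [map_add]
      simp only [Pi.sub_apply, Pi.add_apply]
      ring
    rw [e1]
    exact dvd_add (h1 i) (h2 i)
  zero_mem' := ⟨0, M.zero_mem, by intro i; rw [map_zero, sub_self]; exact dvd_zero _⟩
  neg_mem' := by
    rintro x ⟨m, hm, h1⟩
    refine ⟨-m, M.neg_mem hm, ?_⟩
    intro i
    have e1 : (-x - cst p n (-m)) i = -((x - cst p n m) i) := by
      rw [map_neg]
      simp only [Pi.sub_apply, Pi.neg_apply]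
      ring
    rw [e1]
    exact dvd_neg.2 (h1 i)

theorem mem_cmp (n e : ℕ) (M : Subring (Fin n → ℤ)) (x : Fin n → ℤ_[p]) :
    x ∈ cmp p n e M ↔ ∃ m ∈ M, ∀ i, (p : ℤ_[p]) ^ e ∣ (x - cst p n m) i := Iff.rfl

theorem pow_memZ (n e : ℕ) (M : Subring (Fin n → ℤ)) (h : M ∈ SubZ n (p ^ e)) (x : Fin n → ℤ)
    (hx : ∀ i, (p : ℤ) ^ e ∣ x i) : x ∈ M := by
  choose w hw using hx
  have h1 : x = (p ^ e) • w := by
    funext i
    rw [Pi.smul_apply, nsmul_eq_mul, hw i]
    push_cast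
    ring
  rw [h1]
  have h2 : M.toAddSubgroup.index = p ^ e := h
  have h3 : M.toAddSubgroup.index • w ∈ M.toAddSubgroup := M.toAddSubgroup.nsmul_index_mem w
  rw [h2] at h3
  exact h3

theorem comap_cmp (n e : ℕ) (M : Subring (Fin n → ℤ)) (h : M ∈ SubZ n (p ^ e)) :
    (cmp p n e M).comap (cst p n) = M := by
  ext x
  rw [Subring.mem_comap, mem_cmp]
  constructor
  · rintro ⟨m, hm, h1⟩
    have h2 : ∀ i, (p : ℤ) ^ e ∣ (x - m) i := by
      apply cst_dvd (p := p)
      intro i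
      rw [map_sub]
      exact h1 i
    have h3 : x = m + (x - m) := by ring
    rw [h3]
    exact M.add_mem hm (pow_memZ n e M h _ h2)
  · intro hx
    exact ⟨x, hx, by intro i; rw [sub_self]; exact dvd_zero _⟩

theorem cmp_comap (n e : ℕ) (L : Subring (Fin n → ℤ_[p])) (h : L ∈ SubI p (Fin n) e) :
    cmp p n e (L.comap (cst p n)) = L := by
  ext x
  rw [mem_cmp]
  constructor
  · rintro ⟨m, hm, h1⟩
    rw [Subring.mem_comap] at hm
    have h3 : x = cst p n m + (x - cst p n m) := by ring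
    rw [h3]
    exact L.add_mem hm (L1.pow_mem h _ h1)
  · intro hx
    obtain ⟨m, hm⟩ := approx n e x
    refine ⟨m, ?_, hm⟩
    rw [Subring.mem_comap]
    have h3 : cst p n m = x - (x - cst p n m) := by ring
    rw [h3]
    exact L.sub_mem hx (L1.pow_mem h _ hm)

theorem index_cmp (n e : ℕ) (M : Subring (Fin n → ℤ)) (h : M ∈ SubZ n (p ^ e)) :
    (cmp p n e M).toAddSubgroup.index = p ^ e := by
  have h0 : M.toAddSubgroup.index = p ^ e := h
  have h1 : ((cmp p n e M).comap (cst p n)).toAddSubgroup =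
      (cmp p n e M).toAddSubgroup.comap (cst p n).toAddMonoidHom := rfl
  rw [comap_cmp n e M h] at h1
  rw [← h0, h1, AddSubgroup.index_comap, ← AddSubgroup.relIndex_sup_right]
  have h2 : (cst p n).toAddMonoidHom.range ⊔ (cmp p n e M).toAddSubgroup = ⊤ := by
    rw [eq_top_iff]
    intro x _
    obtain ⟨m, hm⟩ := approx n e x
    have h3 : x = cst p n m + (x - cst p n m) := by ring
    rw [h3]
    apply AddSubgroup.add_mem_sup
    · exact ⟨m, rfl⟩
    · exact ⟨0, M.zero_mem, by intro i; rw [map_zero, sub_zero]; exact hm i⟩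
  rw [h2, AddSubgroup.relIndex_top_right]

end L3

open L3 in
theorem card_SubZ (p : ℕ) [Fact p.Prime] (n e : ℕ) :
    (SubZ n (p ^ e)).ncard = (Sub p n e).ncard := by
  symm
  apply Set.ncard_congr (fun L _ => L.comap (cst p n))
  · intro L hL
    exact index_comap_cst n e L hL
  · intro L L' hL hL' h
    rw [← cmp_comap n e L hL, ← cmp_comap n e L' hL', h]
  · intro M hM
    exact ⟨cmp p n e M, index_cmp n e M hM, comap_cmp n e M hM⟩

/-- the numbers of unital subrings of `ℤ^n` of index `p^e` are not rational functions of `p` -/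
theorem exists_not_rat_Sub : ∃ n e : ℕ, 5 ≤ n ∧ 1 ≤ e ∧ ¬ IsRat (cSub n e) := by
  by_contra hcon
  push Not at hcon
  obtain ⟨n, e, hn, _, h⟩ := exists_not_rat
  apply h
  have := (isRat_of_cSub hcon e).2 (n - 1)
  rwa [Nat.sub_add_cancel hn] at this

theorem main_Sub : ∃ n e : ℕ, 5 ≤ n ∧ 1 ≤ e ∧
    ¬ ∃ u v : Polynomial ℚ, ∀ p : ℕ, p.Prime → 5 ≤ p →
      v.eval (p : ℚ) ≠ 0 ∧ ((SubZ n (p ^ e)).ncard : ℚ) = u.eval (p : ℚ) / v.eval (p : ℚ) := by
  obtain ⟨n, e, hn, he, h⟩ := exists_not_rat_Sub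
  refine ⟨n, e, hn, he, ?_⟩
  rintro ⟨u, v, huv⟩
  apply h
  refine ⟨u, v, ?_⟩
  intro p hp h5
  have : Fact p.Prime := ⟨hp⟩
  obtain ⟨h1, h2⟩ := huv p hp h5
  refine ⟨h1, ?_⟩
  unfold cSub
  rw [lift_apply, ← card_SubZ p n e, h2]
  field_simp

end Pool.Agent.T2H70.SR
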