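import Pool.Agent.T2H70.SR.S0

set_option autoImplicit false

/-!
# Package S1: lines and a nonsingular cubic

`p ≥ 5`, `Ns c`, `N = Np c` points (projective, rational), `t = fl c` flexes. For a line `l` (i.e. `l ≠ 0` up to scalars) let `i` be the number
of rational points of the cubic on it; the restriction of `form c` to `l` is a nonzero binary cubic form, so `i ≤ 3`, and if it has two
zeros (with multiplicity) it has three. The points of the cubic off `l` are counted by `aff c l = N - i` (each has exactly one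
representative with `dot3 l v = 1`). At each point `P` of the cubic there is exactly one line meeting it with multiplicity `≥ 2` (the
tangent `w ↦ dform c P w`, which is `≠ 0` as `P` is not singular); it is of type `2P + Q` with `Q ≠ P` or `3P` (flex). Let `n_i` be the
number of lines with exactly `i` points. Ordered pairs of distinct points: `N(N-1) = 6 n_3 + 2 n_2`, the lines with exactly two points
are the tangents at the `N - t` nonflexes: `n_2 = N - t`. Incidences: `N (p+1) = 3 n_3 + 2 n_2 + n_1`. All lines: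
`p² + p + 1 = n_0 + n_1 + n_2 + n_3`. So
`n_3 = (N² - 3N + 2t)/6, n_2 = N - t, n_1 = N(p+1) - N²/2 - N/2 + t, n_0 = p²+p+1 - N(p+1) + N²/3 - t/3`, and
`∑_{l ≠ 0} Gf (aff c l) = (p-1) ∑_i n_i Gf (N - i)`. (Checked by computer for all cubics at p = 5.)
-/

namespace Pool.Agent.T2H70.SR

open Finset
open scoped BigOperators

namespace S1a

open scoped Classical

section general

variable {p : ℕ}

lemma form_lin (c : Co p) (v w : Fin 3 → ZMod p) (x y : ZMod p) :
    form c (x • v + y • w) = x ^ 3 * form c v + x ^ 2 * y * dform c v w +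
      x * y ^ 2 * dform c w v + y ^ 3 * form c w := by
  simp only [form, dform, Pi.add_apply, Pi.smul_apply, smul_eq_mul]
  ring

lemma dform_right (c : Co p) (v w w' : Fin 3 → ZMod p) (x y : ZMod p) :
    dform c v (x • w + y • w') = x * dform c v w + y * dform c v w' := by
  simp only [dform, Pi.add_apply, Pi.smul_apply, smul_eq_mul]
  ring

lemma dform_self (c : Co p) (v : Fin 3 → ZMod p) : dform c v v = 3 * form c v := by
  simp only [form, dform]
  ring

lemma dform_left (c : Co p) (v w : Fin 3 → ZMod p) (x y : ZMod p) :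
    dform c (x • v + y • w) v = 3 * x ^ 2 * form c v + 2 * x * y * dform c v w +
      y ^ 2 * dform c w v := by
  simp only [form, dform, Pi.add_apply, Pi.smul_apply, smul_eq_mul]
  ring

lemma dform_smul_left (c : Co p) (v w : Fin 3 → ZMod p) (k : ZMod p) :
    dform c (k • v) w = k ^ 2 * dform c v w := by
  simp only [dform, Pi.smul_apply, smul_eq_mul]
  ring

lemma dform_smul_right (c : Co p) (v w : Fin 3 → ZMod p) (k : ZMod p) :
    dform c w (k • v) = k * dform c w v := by
  simp only [dform, Pi.smul_apply, smul_eq_mul]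
  ring

lemma form_smul (c : Co p) (v : Fin 3 → ZMod p) (k : ZMod p) :
    form c (k • v) = k ^ 3 * form c v := by
  simp only [form, Pi.smul_apply, smul_eq_mul]
  ring

lemma dot3_comm (l v : Fin 3 → ZMod p) : dot3 l v = dot3 v l := by
  simp only [dot3]
  ring

lemma dot3_lin (l v w : Fin 3 → ZMod p) (x y : ZMod p) :
    dot3 l (x • v + y • w) = x * dot3 l v + y * dot3 l w := by
  simp only [dot3, Pi.add_apply, Pi.smul_apply, smul_eq_mul]
  ring

lemma dot3_smul (l v : Fin 3 → ZMod p) (k : ZMod p) : dot3 l (k • v) = k * dot3 l v := by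
  simp only [dot3, Pi.smul_apply, smul_eq_mul]
  ring

lemma dot3_smul' (l v : Fin 3 → ZMod p) (k : ZMod p) : dot3 (k • l) v = k * dot3 l v := by
  simp only [dot3, Pi.smul_apply, smul_eq_mul]
  ring

lemma dot3_add (l v w : Fin 3 → ZMod p) : dot3 l (v + w) = dot3 l v + dot3 l w := by
  simp only [dot3, Pi.add_apply]
  ring

lemma dot3_sum (l v : Fin 3 → ZMod p) : dot3 l v = ∑ i, l i * v i := by
  rw [Fin.sum_univ_three]
  rfl

end general

variable {p : ℕ} [Fact p.Prime]

/-- a functional vanishing on the plane is a multiple -/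
lemma par {l L : Fin 3 → ZMod p} (hl : l ≠ 0) (h : ∀ w, dot3 l w = 0 → dot3 L w = 0) :
    ∃ k : ZMod p, L = k • l := by
  obtain ⟨i, hi⟩ := Function.ne_iff.1 hl
  rw [Pi.zero_apply] at hi
  refine ⟨L i / l i, ?_⟩
  funext j
  have key : ∀ M : Fin 3 → ZMod p, dot3 M (l i • Pi.single j 1 - l j • Pi.single i 1) =
      l i * M j - l j * M i := by
    intro M
    rw [dot3_sum]
    simp only [Pi.sub_apply, Pi.smul_apply, smul_eq_mul, mul_sub, Finset.sum_sub_distrib,
      Pi.single_apply, mul_ite, mul_one, mul_zero, Finset.sum_ite_eq', Finset.mem_univ, if_true]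
    ring
  have h1 := h (l i • Pi.single j 1 - l j • Pi.single i 1) (by rw [key]; ring)
  rw [key] at h1
  rw [Pi.smul_apply, smul_eq_mul]
  field_simp
  linear_combination h1

/-- the number of elements of a subspace on a hyperplane -/
lemma fib (S : Submodule (ZMod p) (Fin 3 → ZMod p)) (v : Fin 3 → ZMod p)
    (h : ∃ l ∈ S, dot3 l v ≠ 0) :
    p * (univ.filter fun l => l ∈ S ∧ dot3 l v = 0).card = (univ.filter fun l => l ∈ S).card := by
  obtain ⟨l0, hl0, hd⟩ := h
  have h0 := card_eq_sum_card_fiberwise (s := univ.filter fun l => l ∈ S)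
    (f := fun l => dot3 l v) (t := (univ : Finset (ZMod p))) (fun _ _ => mem_univ _)
  have h1 : ∀ a ∈ (univ : Finset (ZMod p)),
      ((univ.filter fun l => l ∈ S).filter fun l => dot3 l v = a).card =
      (univ.filter fun l => l ∈ S ∧ dot3 l v = 0).card := by
    intro a _
    refine card_nbij' (fun l => l - (a / dot3 l0 v) • l0) (fun l => l + (a / dot3 l0 v) • l0)
      ?_ ?_ ?_ ?_
    · intro l hl
      simp only [coe_filter, mem_filter, mem_univ, true_and, Set.mem_setOf_eq] at hl ⊢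
      refine ⟨S.sub_mem hl.1 (S.smul_mem _ hl0), ?_⟩
      rw [dot3_comm, sub_eq_add_neg, ← neg_smul, dot3_add, dot3_smul, dot3_comm v l, hl.2,
        dot3_comm v l0]
      field_simp
      ring
    · intro l hl
      simp only [coe_filter, mem_filter, mem_univ, true_and, Set.mem_setOf_eq] at hl ⊢
      refine ⟨S.add_mem hl.1 (S.smul_mem _ hl0), ?_⟩
      rw [dot3_comm, dot3_add, dot3_smul, dot3_comm v l, hl.2, dot3_comm v l0]
      field_simp
      ring
    · intro l _
      simp
    · intro l _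
      simp
  rw [h0, sum_congr rfl h1, sum_const, card_univ, ZMod.card, smul_eq_mul]

lemma card_perp {v : Fin 3 → ZMod p} (hv : v ≠ 0) :
    (univ.filter fun l : Fin 3 → ZMod p => dot3 l v = 0).card = p ^ 2 := by
  have hp : 0 < p := (Fact.out : p.Prime).pos
  have h1 := fib (⊤ : Submodule (ZMod p) (Fin 3 → ZMod p)) v (by
    by_contra hcon
    push Not at hcon
    obtain ⟨i, hi⟩ := Function.ne_iff.1 hv
    have h2 := hcon (Pi.single i 1) Submodule.mem_top
    rw [dot3_sum] at h2
    simp only [Pi.single_apply, ite_mul, one_mul, zero_mul, Finset.sum_ite_eq', Finset.mem_univ,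
      if_true] at h2
    exact hi h2)
  simp only [Submodule.mem_top, true_and, filter_true, card_univ, Fintype.card_pi, ZMod.card,
    prod_const, Fintype.card_fin] at h1
  have h3 : p * (univ.filter fun l : Fin 3 → ZMod p => dot3 l v = 0).card = p * p ^ 2 := by
    rw [h1]
    ring
  exact Nat.eq_of_mul_eq_mul_left hp h3

/-- the orthogonal plane -/
def pl (v : Fin 3 → ZMod p) : Submodule (ZMod p) (Fin 3 → ZMod p) where
  carrier := {l | dot3 l v = 0}
  add_mem' := by
    intro a b ha hb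
    simp only [Set.mem_setOf_eq] at ha hb ⊢
    rw [dot3_comm, dot3_add, dot3_comm v a, dot3_comm v b, ha, hb, add_zero]
  zero_mem' := by
    simp [dot3]
  smul_mem' := by
    intro k a ha
    simp only [Set.mem_setOf_eq] at ha ⊢
    rw [dot3_smul', ha, mul_zero]

lemma mem_pl (v l : Fin 3 → ZMod p) : l ∈ pl v ↔ dot3 l v = 0 := Iff.rfl

lemma card_perp2 {v v' : Fin 3 → ZMod p} (hv : v ≠ 0) (h : ¬ ∃ k : ZMod p, v' = k • v) :
    (univ.filter fun l : Fin 3 → ZMod p => dot3 l v = 0 ∧ dot3 l v' = 0).card = p := by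
  have hp : 0 < p := (Fact.out : p.Prime).pos
  have h1 := fib (pl v) v' (by
    by_contra hcon
    push Not at hcon
    apply h
    refine par hv fun w hw => ?_
    rw [dot3_comm]
    exact hcon w (by rw [mem_pl, dot3_comm]; exact hw))
  simp only [mem_pl] at h1
  rw [card_perp hv] at h1
  have h3 : p * (univ.filter fun l : Fin 3 → ZMod p => dot3 l v = 0 ∧ dot3 l v' = 0).card =
      p * p := by
    rw [h1]
    ring
  exact Nat.eq_of_mul_eq_mul_left hp h3

/-- `v, w` is a basis of the plane -/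
structure Bas (l v w : Fin 3 → ZMod p) : Prop where
  hv : dot3 l v = 0
  hw : dot3 l w = 0
  ex : ∀ u, dot3 l u = 0 → ∃ x y : ZMod p, u = x • v + y • w
  ind : ∀ x y : ZMod p, x • v + y • w = 0 → x = 0 ∧ y = 0

lemma exists_bas {l v : Fin 3 → ZMod p} (hl : l ≠ 0) (hv0 : v ≠ 0) (hv : dot3 l v = 0) :
    ∃ w, Bas l v w := by
  set φ : Module.Dual (ZMod p) (Fin 3 → ZMod p) :=
    { toFun := fun u => dot3 l u
      map_add' := fun a b => dot3_add l a b
      map_smul' := fun k a => dot3_smul l a k } with hφ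
  have hφ0 : φ ≠ 0 := by
    intro h
    obtain ⟨i, hi⟩ := Function.ne_iff.1 hl
    have h2 : dot3 l (Pi.single i 1) = 0 := by
      have := LinearMap.congr_fun h (Pi.single i 1)
      exact this
    rw [dot3_sum] at h2
    simp only [Pi.single_apply, mul_ite, mul_one, mul_zero, Finset.sum_ite_eq', Finset.mem_univ,
      if_true] at h2
    exact hi h2
  have hdim := Module.Dual.finrank_ker_add_one_of_ne_zero hφ0
  rw [Module.finrank_fin_fun] at hdim
  have hdim2 : Module.finrank (ZMod p) (LinearMap.ker φ) = 2 := by omega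
  set v' : LinearMap.ker φ := ⟨v, hv⟩ with hv'
  have hv'0 : v' ≠ 0 := fun h => hv0 (congrArg Subtype.val h)
  obtain ⟨w', hw'⟩ := exists_linearIndependent_pair_of_one_lt_finrank
    (by rw [hdim2]; norm_num : 1 < Module.finrank (ZMod p) (LinearMap.ker φ)) hv'0
  have hspan := hw'.span_eq_top_of_card_eq_finrank' (by rw [hdim2, Fintype.card_fin])
  refine ⟨w'.1, hv, w'.2, ?_, ?_⟩
  · intro u hu
    have h1 : (⟨u, hu⟩ : LinearMap.ker φ) ∈ Submodule.span (ZMod p) (Set.range ![v', w']) := by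
      rw [hspan]
      exact Submodule.mem_top
    rw [Matrix.range_cons, Matrix.range_cons, Matrix.range_empty, Set.union_empty,
      Set.singleton_union, Submodule.mem_span_pair] at h1
    obtain ⟨x, y, hxy⟩ := h1
    refine ⟨x, y, ?_⟩
    have h2 := congrArg Subtype.val hxy
    simp only [Submodule.coe_add, Submodule.coe_smul] at h2
    exact h2.symm
  · intro x y hxy
    have h1 : x • v' + y • w' = 0 := by
      apply Subtype.ext
      simp only [Submodule.coe_add, Submodule.coe_smul, ZeroMemClass.coe_zero]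
      exact hxy
    exact LinearIndependent.pair_iff.1 hw' x y h1

/-- the points of the cubic -/
noncomputable def Zc (c : Co p) : Finset (Fin 3 → ZMod p) :=
  univ.filter fun v => v ≠ 0 ∧ form c v = 0

/-- the points of the cubic on a line -/
noncomputable def Zl (c : Co p) (l : Fin 3 → ZMod p) : Finset (Fin 3 → ZMod p) :=
  (Zc c).filter fun v => dot3 l v = 0

lemma mem_Zc {c : Co p} {v : Fin 3 → ZMod p} : v ∈ Zc c ↔ v ≠ 0 ∧ form c v = 0 := by
  simp [Zc]

lemma mem_Zl {c : Co p} {l v : Fin 3 → ZMod p} :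
    v ∈ Zl c l ↔ (v ≠ 0 ∧ form c v = 0) ∧ dot3 l v = 0 := by
  simp [Zl, Zc]

lemma card_units : ((univ : Finset (ZMod p)).erase 0).card = p - 1 := by
  rw [card_erase_of_mem (mem_univ _), card_univ, ZMod.card]

lemma card_mult {v : Fin 3 → ZMod p} (hv : v ≠ 0) :
    (((univ : Finset (ZMod p)).erase 0).image fun k => k • v).card = p - 1 := by
  rw [card_image_of_injective _ (smul_left_injective _ hv), card_units]

/-- the affine points -/
lemma aff_card (c : Co p) (l : Fin 3 → ZMod p) :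
    (Zc c).card = (Zl c l).card + (p - 1) * aff c l := by
  have haff : aff c l = (univ.filter fun v => form c v = 0 ∧ dot3 l v = 1).card := by
    unfold aff
    rw [Nat.card_eq_fintype_card, Fintype.card_subtype]
  rw [card_eq_sum_card_fiberwise (f := fun v => dot3 l v) (t := (univ : Finset (ZMod p)))
    (fun _ _ => mem_univ _), ← add_sum_erase _ _ (mem_univ (0 : ZMod p))]
  congr 1
  have h1 : ∀ a ∈ (univ : Finset (ZMod p)).erase 0,
      ((Zc c).filter fun v => dot3 l v = a).card = aff c l := by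
    intro a ha
    have ha0 : a ≠ 0 := (mem_erase.1 ha).1
    rw [haff]
    refine card_nbij' (fun v => a⁻¹ • v) (fun v => a • v) ?_ ?_ ?_ ?_
    · intro v hv
      simp only [coe_filter, Set.mem_setOf_eq, mem_Zc, mem_univ, true_and] at hv ⊢
      rw [form_smul, dot3_smul, hv.1.2, hv.2, mul_zero]
      exact ⟨rfl, inv_mul_cancel₀ ha0⟩
    · intro v hv
      simp only [coe_filter, Set.mem_setOf_eq, mem_Zc, mem_univ, true_and] at hv ⊢
      rw [form_smul, dot3_smul, hv.1, hv.2, mul_zero, mul_one]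
      refine ⟨⟨smul_ne_zero ha0 ?_, rfl⟩, rfl⟩
      rintro rfl
      simp [dot3] at hv
    · intro v _
      simp only
      rw [smul_smul, mul_inv_cancel₀ ha0, one_smul]
    · intro v _
      simp only
      rw [smul_smul, inv_mul_cancel₀ ha0, one_smul]
  rw [sum_congr rfl h1, sum_const, card_units, smul_eq_mul]

/-- the roots of the quadratic polynomial -/
noncomputable def Rt (a b d : ZMod p) : Finset (ZMod p) :=
  univ.filter fun x => a * x ^ 2 + b * x + d = 0

lemma Rt_le {a b d : ZMod p} (h : ¬ (a = 0 ∧ b = 0 ∧ d = 0)) : (Rt a b d).card ≤ 2 := by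
  set P : Polynomial (ZMod p) := Polynomial.C a * Polynomial.X ^ 2 + Polynomial.C b * Polynomial.X +
    Polynomial.C d with hP
  have hP0 : P ≠ 0 := by
    intro h0
    apply h
    refine ⟨?_, ?_, ?_⟩
    · have := congrArg (fun Q => Polynomial.coeff Q 2) h0
      simpa [hP, Polynomial.coeff_X, Polynomial.coeff_C] using this
    · have := congrArg (fun Q => Polynomial.coeff Q 1) h0
      simpa [hP, Polynomial.coeff_X, Polynomial.coeff_C] using this
    · have := congrArg (fun Q => Polynomial.coeff Q 0) h0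
      simpa [hP, Polynomial.coeff_X, Polynomial.coeff_C] using this
  have h1 : Rt a b d ⊆ P.roots.toFinset := by
    intro x hx
    rw [Multiset.mem_toFinset, Polynomial.mem_roots hP0, Polynomial.IsRoot.def]
    have := (mem_filter.1 hx).2
    simpa [hP] using this
  calc (Rt a b d).card ≤ P.roots.toFinset.card := card_le_card h1
    _ ≤ Multiset.card P.roots := Multiset.toFinset_card_le _
    _ ≤ P.natDegree := Polynomial.card_roots' P
    _ ≤ 2 := Polynomial.natDegree_quadratic_le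

lemma Rt_one {b d : ZMod p} (hb : b ≠ 0) : (Rt 0 b d).card = 1 := by
  rw [card_eq_one]
  refine ⟨-d / b, ?_⟩
  ext x
  rw [Rt, mem_filter, mem_singleton]
  constructor
  · rintro ⟨_, h⟩
    field_simp
    linear_combination h
  · rintro rfl
    refine ⟨mem_univ _, ?_⟩
    field_simp
    ring

/-- **the number of points on a line** -/
lemma card_Zl {c : Co p} {l v w : Fin 3 → ZMod p} (hb : Bas l v w) (hv : v ∈ Zl c l) :
    (Zl c l).card = (p - 1) * (1 + (Rt (dform c v w) (dform c w v) (form c w)).card) := by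
  obtain ⟨⟨hv0, hfv⟩, hlv⟩ := mem_Zl.1 hv
  set R := Rt (dform c v w) (dform c w v) (form c w) with hR
  set U := (univ : Finset (ZMod p)).erase 0 with hU
  have h1 : Zl c l = (U.image fun k => k • v) ∪
      ((U ×ˢ R).image fun q => q.1 • (q.2 • v + (1 : ZMod p) • w)) := by
    ext u
    rw [mem_union, mem_image, mem_image, mem_Zl]
    constructor
    · rintro ⟨⟨hu0, hfu⟩, hlu⟩
      obtain ⟨x, y, rfl⟩ := hb.ex u hlu
      rw [form_lin, hfv] at hfu
      by_cases hy : y = 0
      · left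
        refine ⟨x, mem_erase.2 ⟨?_, mem_univ _⟩, ?_⟩
        · rintro rfl
          apply hu0
          rw [hy]
          simp
        · rw [hy]
          simp
      · right
        refine ⟨(y, x / y), mem_product.2 ⟨mem_erase.2 ⟨hy, mem_univ _⟩, ?_⟩, ?_⟩
        · rw [hR, Rt, mem_filter]
          refine ⟨mem_univ _, ?_⟩
          have h2 : y * (dform c v w * x ^ 2 + dform c w v * x * y + form c w * y ^ 2) = 0 := by
            linear_combination hfu
          have h3 := (mul_eq_zero.1 h2).resolve_left hy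
          field_simp
          linear_combination h3
        · simp only
          rw [smul_add, smul_smul, smul_smul, mul_one]
          congr 2
          field_simp
    · rintro (⟨k, hk, rfl⟩ | ⟨⟨y, x⟩, hq, rfl⟩)
      · refine ⟨⟨smul_ne_zero (mem_erase.1 hk).1 hv0, ?_⟩, ?_⟩
        · rw [form_smul, hfv, mul_zero]
        · rw [dot3_smul, hlv, mul_zero]
      · obtain ⟨hy, hx⟩ := mem_product.1 hq
        have hy0 := (mem_erase.1 hy).1
        rw [hR, Rt, mem_filter] at hx
        simp only at hx ⊢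
        refine ⟨⟨smul_ne_zero hy0 ?_, ?_⟩, ?_⟩
        · intro h2
          exact one_ne_zero (hb.ind _ _ h2).2
        · rw [form_smul, form_lin, hfv]
          linear_combination y ^ 3 * hx.2
        · rw [dot3_smul, dot3_lin, hb.hv, hb.hw]
          ring
  have h2 : Disjoint (U.image fun k => k • v)
      ((U ×ˢ R).image fun q => q.1 • (q.2 • v + (1 : ZMod p) • w)) := by
    rw [disjoint_left]
    rintro u hu hu'
    obtain ⟨k, _, rfl⟩ := mem_image.1 hu
    obtain ⟨⟨y, x⟩, hq, hk⟩ := mem_image.1 hu'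
    have hy0 := (mem_erase.1 (mem_product.1 hq).1).1
    simp only at hk hy0
    have h3 : (y * x - k) • v + y • w = 0 := by
      rw [smul_add, smul_smul, smul_smul, mul_one] at hk
      rw [sub_smul, ← hk]
      abel
    exact hy0 (hb.ind _ _ h3).2
  have h3 : Set.InjOn (fun q : ZMod p × ZMod p => q.1 • (q.2 • v + (1 : ZMod p) • w))
      (U ×ˢ R : Finset (ZMod p × ZMod p)) := by
    rintro ⟨y, x⟩ hq ⟨y', x'⟩ hq' heq
    have hy0 := (mem_erase.1 (mem_product.1 (mem_coe.1 hq)).1).1
    simp only [smul_add, smul_smul, mul_one] at heq hy0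
    have h4 : (y * x - y' * x') • v + (y - y') • w = 0 := by
      rw [sub_smul, sub_smul]
      rw [← sub_eq_zero] at heq
      rw [← heq]
      abel
    obtain ⟨h5, h6⟩ := hb.ind _ _ h4
    have h7 : y = y' := sub_eq_zero.1 h6
    subst h7
    have h8 : x = x' := by
      have : y * (x - x') = 0 := by linear_combination h5
      exact sub_eq_zero.1 ((mul_eq_zero.1 this).resolve_left hy0)
    rw [h8]
  rw [h1, card_union_of_disjoint h2, card_mult hv0, card_image_of_injOn h3, card_product, card_units]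
  ring

lemma abd_ne {c : Co p} (hc : ¬ HasLine c) {l v w : Fin 3 → ZMod p} (hl : l ≠ 0) (hb : Bas l v w)
    (hv : form c v = 0) : ¬ (dform c v w = 0 ∧ dform c w v = 0 ∧ form c w = 0) := by
  rintro ⟨h1, h2, h3⟩
  apply hc
  refine ⟨l, hl, fun u hu => ?_⟩
  obtain ⟨x, y, rfl⟩ := hb.ex u hu
  rw [form_lin, hv, h1, h2, h3]
  ring

/-- the number of points on the line, as a natural number -/
lemma exists_i {c : Co p} (hc : ¬ HasLine c) {l : Fin 3 → ZMod p} (hl : l ≠ 0) :
    ∃ i : ℕ, i < 4 ∧ (Zl c l).card = (p - 1) * i := by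
  rcases (Zl c l).eq_empty_or_nonempty with h0 | ⟨v, hv⟩
  · exact ⟨0, by norm_num, by rw [h0, card_empty, mul_zero]⟩
  · obtain ⟨⟨hv0, hfv⟩, hlv⟩ := mem_Zl.1 hv
    obtain ⟨w, hb⟩ := exists_bas hl hv0 hlv
    refine ⟨_, ?_, card_Zl hb hv⟩
    have := Rt_le (abd_ne hc hl hb hfv)
    omega

/-! ### tangents -/

/-- `l` is tangent at `v` -/
def Tan (c : Co p) (l v : Fin 3 → ZMod p) : Prop := ∀ w, dot3 l w = 0 → dform c v w = 0

lemma tan_of_bas {c : Co p} {l v w : Fin 3 → ZMod p} (hb : Bas l v w) (hv : form c v = 0)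
    (h : dform c v w = 0) : Tan c l v := by
  intro u hu
  obtain ⟨x, y, rfl⟩ := hb.ex u hu
  rw [dform_right, dform_self, hv, h]
  ring

/-- the points at which `l` is tangent but not a flex tangent -/
noncomputable def Tl (c : Co p) (l : Fin 3 → ZMod p) : Finset (Fin 3 → ZMod p) :=
  (Zl c l).filter fun v => Tan c l v ∧ ¬ Flex c v l

lemma Tl_of_mem {c : Co p} {l v : Fin 3 → ZMod p} (hl : l ≠ 0) (hv : v ∈ Tl c l) :
    (Tl c l).card = p - 1 ∧ (Zl c l).card = (p - 1) * 2 := by
  obtain ⟨hvZ, htan, hfl⟩ := mem_filter.1 hv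
  obtain ⟨⟨hv0, hfv⟩, hlv⟩ := mem_Zl.1 hvZ
  obtain ⟨w, hb⟩ := exists_bas hl hv0 hlv
  have ha : dform c v w = 0 := htan w hb.hw
  have hbn : dform c w v ≠ 0 := by
    intro h0
    apply hfl
    refine ⟨hv0, hl, hlv, hfv, fun u hu => ⟨htan u hu, ?_⟩⟩
    obtain ⟨x, y, rfl⟩ := hb.ex u hu
    rw [dform_left, hfv, ha, h0]
    ring
  constructor
  · rw [← card_mult hv0]
    congr 1
    ext u
    rw [Tl, mem_filter, mem_image]
    constructor
    · rintro ⟨huZ, hut, _⟩
      obtain ⟨⟨hu0, hfu⟩, hlu⟩ := mem_Zl.1 huZ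
      obtain ⟨x, y, rfl⟩ := hb.ex u hlu
      have h1 := hut v hlv
      rw [dform_left, hfv, ha] at h1
      have h2 : y = 0 := by
        have h3 : y ^ 2 * dform c w v = 0 := by linear_combination h1
        exact (pow_eq_zero_iff two_ne_zero).1 ((mul_eq_zero.1 h3).resolve_right hbn)
      refine ⟨x, mem_erase.2 ⟨?_, mem_univ _⟩, ?_⟩
      · rintro rfl
        apply hu0
        rw [h2]
        simp
      · rw [h2]
        simp
    · rintro ⟨k, hk, rfl⟩
      have hk0 := (mem_erase.1 hk).1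
      refine ⟨mem_Zl.2 ⟨⟨smul_ne_zero hk0 hv0, ?_⟩, ?_⟩, ?_, ?_⟩
      · rw [form_smul, hfv, mul_zero]
      · rw [dot3_smul, hlv, mul_zero]
      · intro u hu
        rw [dform_smul_left, htan u hu, mul_zero]
      · intro hF
        apply hbn
        have h1 := (hF.2.2.2.2 w hb.hw).2
        rw [dform_smul_right] at h1
        exact (mul_eq_zero.1 h1).resolve_left hk0
  · rw [card_Zl hb hvZ, ha, Rt_one hbn]

lemma Tl_nonempty {c : Co p} (hc : ¬ HasLine c) {l : Fin 3 → ZMod p} (hl : l ≠ 0) (hp : 5 ≤ p)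
    (h2 : (Zl c l).card = (p - 1) * 2) : (Tl c l).Nonempty := by
  have hpos : 0 < p - 1 := by omega
  have hne : (Zl c l).Nonempty := by
    rw [← card_pos, h2]
    positivity
  obtain ⟨v, hv⟩ := hne
  obtain ⟨⟨hv0, hfv⟩, hlv⟩ := mem_Zl.1 hv
  obtain ⟨w, hb⟩ := exists_bas hl hv0 hlv
  have h3 := card_Zl hb hv
  rw [h2] at h3
  have h4 := Nat.eq_of_mul_eq_mul_left hpos h3
  have h5 : (Rt (dform c v w) (dform c w v) (form c w)).card = 1 := by omega
  obtain ⟨x0, hx0⟩ := card_eq_one.1 h5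
  have hroot : ∀ x, dform c v w * x ^ 2 + dform c w v * x + form c w = 0 ↔ x = x0 := by
    intro x
    have h6 : x ∈ Rt (dform c v w) (dform c w v) (form c w) ↔ x ∈ ({x0} : Finset (ZMod p)) := by
      rw [hx0]
    rw [Rt, mem_filter, mem_singleton] at h6
    simpa using h6
  have hr0 := (hroot x0).2 rfl
  by_cases ha : dform c v w = 0
  · have hbn : dform c w v ≠ 0 := by
      intro h0
      rw [ha, h0] at hr0 hroot
      have h6 : form c w = 0 := by linear_combination hr0
      exact abd_ne hc hl hb hfv ⟨ha, h0, h6⟩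
    refine ⟨v, mem_filter.2 ⟨hv, tan_of_bas hb hfv ha, fun hF => hbn ?_⟩⟩
    exact (hF.2.2.2.2 w hb.hw).2
  · have hdisc : 2 * dform c v w * x0 + dform c w v = 0 := by
      have h6 := (hroot (-(dform c w v) / dform c v w - x0)).1 (by
        field_simp
        linear_combination (dform c v w) * hr0)
      field_simp at h6
      linear_combination -h6
    set v2 := x0 • v + (1 : ZMod p) • w with hv2
    have hf2 : form c v2 = 0 := by
      rw [hv2, form_lin, hfv]
      linear_combination hr0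
    have hl2 : dot3 l v2 = 0 := by
      rw [hv2, dot3_lin, hlv, hb.hw]
      ring
    have h20 : v2 ≠ 0 := fun h => one_ne_zero (hb.ind _ _ h).2
    have hd2 : dform c v2 v = 0 := by
      rw [hv2, dform_left, hfv]
      linear_combination hdisc
    refine ⟨v2, mem_filter.2 ⟨mem_Zl.2 ⟨⟨h20, hf2⟩, hl2⟩, ?_, ?_⟩⟩
    · intro u hu
      obtain ⟨x, y, rfl⟩ := hb.ex u hu
      have h7 : x • v + y • w = (x - y * x0) • v + y • v2 := by
        rw [hv2, smul_add, smul_smul, sub_smul, one_smul]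
        abel
      rw [h7, dform_right, hd2, dform_self, hf2]
      ring
    · intro hF
      apply ha
      have h8 := (hF.2.2.2.2 v hlv).2
      rw [hv2, dform_right, dform_self, hfv] at h8
      linear_combination h8

/-- the gradient -/
def gr (c : Co p) (v : Fin 3 → ZMod p) : Fin 3 → ZMod p :=
  ![3 * c 0 * v 0 ^ 2 + 2 * c 1 * v 0 * v 1 + 2 * c 2 * v 0 * v 2 + c 3 * v 1 ^ 2
      + c 4 * v 1 * v 2 + c 5 * v 2 ^ 2,
    c 1 * v 0 ^ 2 + 2 * c 3 * v 0 * v 1 + c 4 * v 0 * v 2 + 3 * c 6 * v 1 ^ 2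
      + 2 * c 7 * v 1 * v 2 + c 8 * v 2 ^ 2,
    c 2 * v 0 ^ 2 + c 4 * v 0 * v 1 + 2 * c 5 * v 0 * v 2 + c 7 * v 1 ^ 2
      + 2 * c 8 * v 1 * v 2 + 3 * c 9 * v 2 ^ 2]

lemma gr_dot (c : Co p) (v w : Fin 3 → ZMod p) : dot3 (gr c v) w = dform c v w := by
  simp only [dot3, gr, dform, Matrix.cons_val_zero, Matrix.cons_val_one, Matrix.cons_val]

lemma card_tan {c : Co p} (hc : Ns c) {v : Fin 3 → ZMod p} (hv : v ∈ Zc c) :
    (univ.filter fun l : Fin 3 → ZMod p => l ≠ 0 ∧ dot3 l v = 0 ∧ Tan c l v).card = p - 1 := by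
  obtain ⟨hv0, hfv⟩ := mem_Zc.1 hv
  have hg0 : gr c v ≠ 0 := by
    intro h
    apply hc.2 v
    refine ⟨hv0, hfv, fun w => ?_⟩
    rw [← gr_dot, h]
    simp [dot3]
  have hgv : dot3 (gr c v) v = 0 := by
    rw [gr_dot, dform_self, hfv, mul_zero]
  rw [← card_mult hg0]
  congr 1
  ext l
  rw [mem_filter, mem_image]
  constructor
  · rintro ⟨_, hl0, _, ht⟩
    obtain ⟨k, hk⟩ := par (L := gr c v) hl0 fun w hw => by
      rw [gr_dot]
      exact ht w hw
    have hk0 : k ≠ 0 := by
      rintro rfl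
      apply hg0
      rw [hk, zero_smul]
    refine ⟨k⁻¹, mem_erase.2 ⟨inv_ne_zero hk0, mem_univ _⟩, ?_⟩
    rw [hk, smul_smul, inv_mul_cancel₀ hk0, one_smul]
  · rintro ⟨k, hk, rfl⟩
    have hk0 := (mem_erase.1 hk).1
    refine ⟨mem_univ _, smul_ne_zero hk0 hg0, ?_, ?_⟩
    · rw [dot3_smul', hgv, mul_zero]
    · intro w hw
      rw [dot3_smul', gr_dot] at hw
      exact (mul_eq_zero.1 hw).resolve_left hk0

/-- the nonzero vectors -/
noncomputable def Ln (p : ℕ) [Fact p.Prime] : Finset (Fin 3 → ZMod p) := univ.filter fun l => l ≠ 0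

lemma card_Ln : ((Ln p).card : ℚ) = (p : ℚ) ^ 3 - 1 := by
  have h1 : Ln p = univ.erase (0 : Fin 3 → ZMod p) := by
    ext l
    simp [Ln]
  have h2 : (univ.erase (0 : Fin 3 → ZMod p)).card + 1 = p ^ 3 := by
    rw [card_erase_add_one (mem_univ _), card_univ, Fintype.card_pi]
    simp [ZMod.card]
  rw [h1]
  have h3 : ((univ.erase (0 : Fin 3 → ZMod p)).card : ℚ) + 1 = (p : ℚ) ^ 3 := by exact_mod_cast h2
  linarith

lemma card_Ln_perp {v : Fin 3 → ZMod p} (hv : v ≠ 0) :
    (((Ln p).filter fun l => dot3 l v = 0).card : ℚ) = (p : ℚ) ^ 2 - 1 := by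
  have h1 : (Ln p).filter (fun l => dot3 l v = 0) =
      (univ.filter fun l => dot3 l v = 0).erase 0 := by
    ext l
    simp [Ln]
  have h2 : ((univ.filter fun l => dot3 l v = 0).erase 0).card + 1 = p ^ 2 := by
    rw [card_erase_add_one (mem_filter.2 ⟨mem_univ _, by simp [dot3]⟩), card_perp hv]
  rw [h1]
  have h3 : (((univ.filter fun l => dot3 l v = 0).erase 0).card : ℚ) + 1 = (p : ℚ) ^ 2 := by
    exact_mod_cast h2
  linarith

lemma card_Ln_perp2 {v v' : Fin 3 → ZMod p} (hv : v ≠ 0) (h : ¬ ∃ k : ZMod p, v' = k • v) :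
    (((Ln p).filter fun l => dot3 l v = 0 ∧ dot3 l v' = 0).card : ℚ) = (p : ℚ) - 1 := by
  have h1 : (Ln p).filter (fun l => dot3 l v = 0 ∧ dot3 l v' = 0) =
      (univ.filter fun l => dot3 l v = 0 ∧ dot3 l v' = 0).erase 0 := by
    ext l
    simp [Ln]
  have h2 : ((univ.filter fun l => dot3 l v = 0 ∧ dot3 l v' = 0).erase 0).card + 1 = p := by
    rw [card_erase_add_one (mem_filter.2 ⟨mem_univ _, by simp [dot3]⟩), card_perp2 hv h]
  rw [h1]
  have h3 : (((univ.filter fun l => dot3 l v = 0 ∧ dot3 l v' = 0).erase 0).card : ℚ) + 1 =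
      (p : ℚ) := by
    exact_mod_cast h2
  linarith

/-- incidences -/
lemma sum_one (c : Co p) :
    ∑ l ∈ Ln p, ((Zl c l).card : ℚ) = ((Zc c).card : ℚ) * ((p : ℚ) ^ 2 - 1) := by
  have h1 : ∀ l, ((Zl c l).card : ℚ) = ∑ v ∈ Zc c, if dot3 l v = 0 then (1 : ℚ) else 0 := by
    intro l
    rw [← sum_filter, sum_const, nsmul_eq_mul, mul_one]
    rfl
  simp only [h1]
  rw [sum_comm]
  have h2 : ∀ v ∈ Zc c, ∑ l ∈ Ln p, (if dot3 l v = 0 then (1 : ℚ) else 0) = (p : ℚ) ^ 2 - 1 := by
    intro v hv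
    rw [← sum_filter, sum_const, nsmul_eq_mul, mul_one, card_Ln_perp (mem_Zc.1 hv).1]
  rw [sum_congr rfl h2, sum_const, nsmul_eq_mul]

/-- pairs -/
lemma sum_two (c : Co p) (hp : 5 ≤ p) :
    ∑ l ∈ Ln p, ((Zl c l).card : ℚ) ^ 2 = ((Zc c).card : ℚ) * (((p : ℚ) - 1) * ((p : ℚ) ^ 2 - 1) +
      (((Zc c).card : ℚ) - ((p : ℚ) - 1)) * ((p : ℚ) - 1)) := by
  have h1 : ∀ l, ((Zl c l).card : ℚ) ^ 2 = ∑ v ∈ Zc c, ∑ v' ∈ Zc c,
      if dot3 l v = 0 ∧ dot3 l v' = 0 then (1 : ℚ) else 0 := by
    intro l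
    have e : ((Zl c l).card : ℚ) = ∑ v ∈ Zc c, if dot3 l v = 0 then (1 : ℚ) else 0 := by
      rw [← sum_filter, sum_const, nsmul_eq_mul, mul_one]
      rfl
    rw [pow_two, e, sum_mul_sum]
    refine sum_congr rfl fun v _ => sum_congr rfl fun v' _ => ?_
    by_cases h1 : dot3 l v = 0 <;> by_cases h2 : dot3 l v' = 0 <;> simp [h1, h2]
  simp only [h1]
  rw [sum_comm]
  have h2 : ∀ v ∈ Zc c, ∑ l ∈ Ln p, ∑ v' ∈ Zc c,
      (if dot3 l v = 0 ∧ dot3 l v' = 0 then (1 : ℚ) else 0) =
      ((p : ℚ) - 1) * ((p : ℚ) ^ 2 - 1) + (((Zc c).card : ℚ) - ((p : ℚ) - 1)) * ((p : ℚ) - 1) := by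
    intro v hv
    obtain ⟨hv0, hfv⟩ := mem_Zc.1 hv
    rw [sum_comm]
    have h3 : ∀ v' ∈ Zc c, ∑ l ∈ Ln p, (if dot3 l v = 0 ∧ dot3 l v' = 0 then (1 : ℚ) else 0) =
        if (∃ k : ZMod p, v' = k • v) then (p : ℚ) ^ 2 - 1 else (p : ℚ) - 1 := by
      intro v' _
      rw [← sum_filter, sum_const, nsmul_eq_mul, mul_one]
      split_ifs with h4
      · obtain ⟨k, rfl⟩ := h4
        rw [← card_Ln_perp hv0]
        congr 2
        ext l
        rw [mem_filter, mem_filter, dot3_smul]
        constructor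
        · rintro ⟨h5, h6, _⟩
          exact ⟨h5, h6⟩
        · rintro ⟨h5, h6⟩
          exact ⟨h5, h6, by rw [h6, mul_zero]⟩
      · exact card_Ln_perp2 hv0 h4
    rw [sum_congr rfl h3, sum_ite, sum_const, sum_const, nsmul_eq_mul, nsmul_eq_mul]
    have h4 : ((Zc c).filter fun v' => ∃ k : ZMod p, v' = k • v).card = p - 1 := by
      rw [← card_mult hv0]
      congr 1
      ext u
      rw [mem_filter, mem_image, mem_Zc]
      constructor
      · rintro ⟨⟨hu0, _⟩, k, rfl⟩
        refine ⟨k, mem_erase.2 ⟨?_, mem_univ _⟩, rfl⟩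
        rintro rfl
        exact hu0 (zero_smul _ _)
      · rintro ⟨k, hk, rfl⟩
        refine ⟨⟨smul_ne_zero (mem_erase.1 hk).1 hv0, ?_⟩, k, rfl⟩
        rw [form_smul, hfv, mul_zero]
    have h5 : ((((Zc c).filter fun v' => ∃ k : ZMod p, v' = k • v).card : ℕ) : ℚ) = (p : ℚ) - 1 := by
      rw [h4, Nat.cast_sub (by omega)]
      norm_num
    have h6 : ((((Zc c).filter fun v' => ¬ ∃ k : ZMod p, v' = k • v).card : ℕ) : ℚ) =
        ((Zc c).card : ℚ) - ((p : ℚ) - 1) := by
      have h7 := card_filter_add_card_filter_not (s := Zc c) (fun v' => ∃ k : ZMod p, v' = k • v)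
      rw [← h5, ← h7]
      push_cast
      ring
    rw [h5, h6]
  rw [sum_congr rfl h2, sum_const, nsmul_eq_mul]

/-- tangents -/
lemma sum_tan {c : Co p} (hc : Ns c) (hp : 5 ≤ p) :
    ∑ l ∈ Ln p, ((Tl c l).card : ℚ) = ((Zc c).card : ℚ) * ((p : ℚ) - 1) -
      ((p : ℚ) - 1) ^ 2 * fl c := by
  have hpQ : (0 : ℚ) < (p : ℚ) - 1 := by
    have : (5 : ℚ) ≤ p := by exact_mod_cast hp
    linarith
  have h1 : ∑ l ∈ Ln p, ((((Zl c l).filter fun v => Tan c l v).card : ℕ) : ℚ) =
      ((Zc c).card : ℚ) * ((p : ℚ) - 1) := by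
    have e1 : ∀ l, ((((Zl c l).filter fun v => Tan c l v).card : ℕ) : ℚ) =
        ∑ v ∈ Zc c, if dot3 l v = 0 ∧ Tan c l v then (1 : ℚ) else 0 := by
      intro l
      rw [← sum_filter, sum_const, nsmul_eq_mul, mul_one]
      unfold Zl
      rw [filter_filter]
    simp only [e1]
    rw [sum_comm]
    have e2 : ∀ v ∈ Zc c, ∑ l ∈ Ln p, (if dot3 l v = 0 ∧ Tan c l v then (1 : ℚ) else 0) =
        (p : ℚ) - 1 := by
      intro v hv
      rw [← sum_filter, sum_const, nsmul_eq_mul, mul_one]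
      unfold Ln
      rw [filter_filter, card_tan hc hv, Nat.cast_sub (by omega)]
      norm_num
    rw [sum_congr rfl e2, sum_const, nsmul_eq_mul]
  have h2 : ∑ l ∈ Ln p, ((((Zl c l).filter fun v => Flex c v l).card : ℕ) : ℚ) =
      ((p : ℚ) - 1) ^ 2 * fl c := by
    have e1 : ((p : ℚ) - 1) ^ 2 * fl c =
        ((univ.filter fun x : (Fin 3 → ZMod p) × (Fin 3 → ZMod p) => Flex c x.1 x.2).card : ℚ) := by
      unfold fl
      rw [Nat.card_eq_fintype_card, Fintype.card_subtype]
      field_simp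
    rw [e1]
    have e2 : (univ.filter fun x : (Fin 3 → ZMod p) × (Fin 3 → ZMod p) => Flex c x.1 x.2).card =
        ∑ l ∈ Ln p, ((Zl c l).filter fun v => Flex c v l).card := by
      rw [card_eq_sum_card_fiberwise (f := fun x => x.2) (t := Ln p)]
      · refine sum_congr rfl fun l _ => ?_
        refine card_nbij' (fun x => x.1) (fun v => (v, l)) ?_ ?_ ?_ ?_
        · intro x hx
          simp only [coe_filter, Set.mem_setOf_eq, mem_filter, mem_univ, true_and] at hx ⊢
          obtain ⟨h3, rfl⟩ := hx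
          exact ⟨mem_Zl.2 ⟨⟨h3.1, h3.2.2.2.1⟩, h3.2.2.1⟩, h3⟩
        · intro v hv
          simp only [coe_filter, Set.mem_setOf_eq, mem_filter, mem_univ, true_and] at hv ⊢
          exact ⟨hv.2, trivial⟩
        · intro x hx
          simp only [coe_filter, Set.mem_setOf_eq, mem_filter, mem_univ, true_and] at hx
          exact Prod.ext rfl hx.2.symm
        · intro v _
          rfl
      · intro x hx
        simp only [coe_filter, Set.mem_setOf_eq, mem_univ, true_and] at hx
        simp only [Ln, coe_filter, Set.mem_setOf_eq, mem_univ, true_and]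
        exact hx.2.1
    rw [e2]
    push_cast
    rfl
  rw [← h1, ← h2, ← sum_sub_distrib]
  refine sum_congr rfl fun l _ => ?_
  have h3 := card_filter_add_card_filter_not (s := (Zl c l).filter fun v => Tan c l v)
    (fun v => Flex c v l)
  rw [filter_filter, filter_filter] at h3
  have h4 : (Zl c l).filter (fun v => Tan c l v ∧ Flex c v l) =
      (Zl c l).filter fun v => Flex c v l := by
    ext v
    rw [mem_filter, mem_filter]
    constructor
    · rintro ⟨a1, a2, a3⟩
      exact ⟨a1, a3⟩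
    · rintro ⟨a1, a3⟩
      exact ⟨a1, fun w hw => (a3.2.2.2.2 w hw).1, a3⟩
  rw [h4] at h3
  unfold Tl
  rw [← h3]
  push_cast
  ring

/-- the number of points on `l` -/
noncomputable def il (c : Co p) (l : Fin 3 → ZMod p) : ℕ := (Zl c l).card / (p - 1)

lemma il_spec {c : Co p} (hc : ¬ HasLine c) (hp : 5 ≤ p) {l : Fin 3 → ZMod p} (hl : l ≠ 0) :
    il c l < 4 ∧ (Zl c l).card = (p - 1) * il c l := by
  obtain ⟨i, hi, h⟩ := exists_i hc hl
  have h1 : il c l = i := by
    unfold il
    rw [h, Nat.mul_div_cancel_left _ (by omega)]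
  rw [h1]
  exact ⟨hi, h⟩

end S1a

open S1a in
open Classical in
theorem sum_lines (p : ℕ) [Fact p.Prime] (hp : 5 ≤ p) (c : Co p) (hc : Ns c) :
    (∑ l : Fin 3 → ZMod p, if l = 0 then 0 else Gf (aff c l)) =
      ((p : ℚ) - 1) * Psi p (Np c) (fl c) := by
  have hpQ : (0 : ℚ) < (p : ℚ) - 1 := by
    have : (5 : ℚ) ≤ p := by exact_mod_cast hp
    linarith
  have hp1 : ((p - 1 : ℕ) : ℚ) = (p : ℚ) - 1 := by
    rw [Nat.cast_sub (by omega)]
    norm_num
  have hN : ((Zc c).card : ℚ) = ((p : ℚ) - 1) * Np c := by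
    unfold Np
    rw [Nat.card_eq_fintype_card, Fintype.card_subtype]
    unfold Zc
    field_simp
  set N := Np c with hNdef
  set t := fl c with ht
  -- the values
  have haff : ∀ l ∈ Ln p, (aff c l : ℚ) = N - il c l := by
    intro l hl
    have hl0 : l ≠ 0 := (mem_filter.1 hl).2
    have h1 := aff_card c l
    rw [(il_spec hc.1 hp hl0).2] at h1
    have h2 : ((Zc c).card : ℚ) = ((p : ℚ) - 1) * il c l + ((p : ℚ) - 1) * aff c l := by
      rw [h1]
      push_cast
      rw [hp1]
    rw [hN] at h2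
    have h3 : ((p : ℚ) - 1) * N = ((p : ℚ) - 1) * (il c l + aff c l) := by
      rw [h2]
      ring
    have h4 := mul_left_cancel₀ hpQ.ne' h3
    linarith
  -- sums over the lines
  set X : ℕ → ℚ := fun i => (((Ln p).filter fun l => il c l = i).card : ℚ) with hX
  have hsum : ∀ φ : ℕ → ℚ, ∑ l ∈ Ln p, φ (il c l) = X 0 * φ 0 + X 1 * φ 1 + X 2 * φ 2 + X 3 * φ 3 := by
    intro φ
    have hmaps : ∀ l ∈ Ln p, il c l ∈ range 4 := fun l hl =>
      mem_range.2 (il_spec hc.1 hp (mem_filter.1 hl).2).1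
    rw [← sum_fiberwise_of_maps_to hmaps]
    have h1 : ∀ i ∈ range 4, ∑ l ∈ (Ln p).filter (fun l => il c l = i), φ (il c l) = X i * φ i := by
      intro i _
      rw [sum_congr rfl fun l hl => by rw [(mem_filter.1 hl).2], sum_const, nsmul_eq_mul]
    rw [sum_congr rfl h1]
    simp only [sum_range_succ, range_zero, sum_empty]
    ring
  have e0 : X 0 + X 1 + X 2 + X 3 = (p : ℚ) ^ 3 - 1 := by
    have h1 := hsum fun _ => 1
    rw [sum_const, nsmul_eq_mul, card_Ln] at h1
    linarith
  have hcard : ∀ l ∈ Ln p, ((Zl c l).card : ℚ) = ((p : ℚ) - 1) * il c l := by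
    intro l hl
    rw [(il_spec hc.1 hp (mem_filter.1 hl).2).2]
    push_cast
    rw [hp1]
  have e1 : X 1 + 2 * X 2 + 3 * X 3 = N * ((p : ℚ) ^ 2 - 1) := by
    have h1 := hsum fun i => (i : ℚ)
    have h2 := sum_one c
    rw [sum_congr rfl hcard, ← mul_sum, h1, hN] at h2
    have h3 : ((p : ℚ) - 1) * (X 1 + 2 * X 2 + 3 * X 3) = ((p : ℚ) - 1) * (N * ((p : ℚ) ^ 2 - 1)) := by
      push_cast at h2
      linarith
    exact mul_left_cancel₀ hpQ.ne' h3
  have e2 : X 1 + 4 * X 2 + 9 * X 3 = N * ((p : ℚ) ^ 2 - 1) + N * (N - 1) * ((p : ℚ) - 1) := by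
    have h1 := hsum fun i => (i : ℚ) ^ 2
    have h2 := sum_two c hp
    rw [sum_congr rfl fun l hl => by rw [hcard l hl, mul_pow], ← mul_sum, h1, hN] at h2
    have h3 : ((p : ℚ) - 1) ^ 2 * (X 1 + 4 * X 2 + 9 * X 3) =
        ((p : ℚ) - 1) ^ 2 * (N * ((p : ℚ) ^ 2 - 1) + N * (N - 1) * ((p : ℚ) - 1)) := by
      push_cast at h2
      linarith
    exact mul_left_cancel₀ (pow_ne_zero 2 hpQ.ne') h3
  have e3 : X 2 = ((p : ℚ) - 1) * (N - t) := by
    have h1 : ∀ l ∈ Ln p, ((Tl c l).card : ℚ) = if il c l = 2 then ((p : ℚ) - 1) else 0 := by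
      intro l hl
      have hl0 : l ≠ 0 := (mem_filter.1 hl).2
      have hspec := il_spec hc.1 hp hl0
      split_ifs with h2
      · rw [h2] at hspec
        obtain ⟨v, hv⟩ := Tl_nonempty hc.1 hl0 hp hspec.2
        rw [(Tl_of_mem hl0 hv).1, hp1]
      · have h3 : Tl c l = ∅ := by
          rw [← not_nonempty_iff_eq_empty]
          rintro ⟨v, hv⟩
          apply h2
          have h4 := (Tl_of_mem hl0 hv).2
          rw [hspec.2] at h4
          exact Nat.eq_of_mul_eq_mul_left (by omega) h4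
        rw [h3, card_empty, Nat.cast_zero]
    have h2 := sum_tan hc hp
    rw [sum_congr rfl h1] at h2
    have h3 := hsum fun i => if i = 2 then ((p : ℚ) - 1) else 0
    simp only at h3
    rw [h3, hN] at h2
    norm_num at h2
    have h4 : ((p : ℚ) - 1) * X 2 = ((p : ℚ) - 1) * (((p : ℚ) - 1) * (N - t)) := by
      linarith
    exact mul_left_cancel₀ hpQ.ne' h4
  -- conclusion
  have hfin : (∑ l : Fin 3 → ZMod p, if l = 0 then 0 else Gf (aff c l)) =
      ∑ l ∈ Ln p, Gf (N - il c l) := by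
    rw [Ln, sum_filter]
    refine sum_congr rfl fun l _ => ?_
    by_cases h : l = 0
    · simp [h]
    · simp only [h, if_false, ne_eq, not_false_eq_true, if_true]
      rw [haff l (mem_filter.2 ⟨mem_univ _, h⟩)]
  have h4 := hsum fun i => Gf (N - i)
  rw [hfin, h4]
  unfold Psi
  have hX3 : X 3 = ((p : ℚ) - 1) * ((N ^ 2 - 3 * N + 2 * t) / 6) := by
    linear_combination (1 / 6 : ℚ) * e2 - (1 / 6 : ℚ) * e1 - (1 / 3 : ℚ) * e3
  have hX1 : X 1 = ((p : ℚ) - 1) * (N * (p + 1) - N ^ 2 / 2 - N / 2 + t) := by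
    linear_combination e1 - 2 * e3 - 3 * hX3
  have hX0 : X 0 = ((p : ℚ) - 1) *
      (p ^ 2 + p + 1 - N * (p + 1) + N ^ 2 / 3 - t / 3) := by
    linear_combination e0 - hX1 - e3 - hX3
  rw [hX0, hX1, e3, hX3]
  push_cast
  rw [sub_zero]
  ring

end Pool.Agent.T2H70.SR
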