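import Pool.Agent.T2H70.SR.S0

set_option autoImplicit false
set_option linter.unusedSectionVars false

/-!
# Package S4, first part: cubics with a given point and binary quartics
-/

namespace Pool.Agent.T2H70.SR

namespace S4

open Finset Polynomial
open scoped BigOperators

variable {p : ℕ} [Fact p.Prime]

/-- the discriminant -/
def Dd (c : Co p) : Fin 5 → ZMod p :=
  ![c 8 ^ 2 - 4 * (c 7 * c 9), 2 * c 4 * c 8 - 4 * (c 3 * c 9 + c 7 * c 5),
    c 4 ^ 2 + 2 * c 1 * c 8 - 4 * (c 3 * c 5 + c 7 * c 2),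
    2 * c 1 * c 4 - 4 * (c 3 * c 2 + c 7 * c 0), c 1 ^ 2 - 4 * (c 3 * c 0)]

lemma Dd0 (c : Co p) : Dd c 0 = c 8 ^ 2 - 4 * (c 7 * c 9) := rfl
lemma Dd1 (c : Co p) : Dd c 1 = 2 * c 4 * c 8 - 4 * (c 3 * c 9 + c 7 * c 5) := rfl
lemma Dd2 (c : Co p) : Dd c 2 = c 4 ^ 2 + 2 * c 1 * c 8 - 4 * (c 3 * c 5 + c 7 * c 2) := rfl
lemma Dd3 (c : Co p) : Dd c 3 = 2 * c 1 * c 4 - 4 * (c 3 * c 2 + c 7 * c 0) := rfl
lemma Dd4 (c : Co p) : Dd c 4 = c 1 ^ 2 - 4 * (c 3 * c 0) := rfl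

/-- the coefficients of `y` -/
def fa (c : Co p) (x z : ZMod p) : ZMod p := c 3 * x + c 7 * z
/-- see `fa` -/
def fb (c : Co p) (x z : ZMod p) : ZMod p := c 1 * x ^ 2 + c 4 * x * z + c 8 * z ^ 2
/-- see `fa` -/
def fe (c : Co p) (x z : ZMod p) : ZMod p :=
  c 0 * x ^ 3 + c 2 * x ^ 2 * z + c 5 * x * z ^ 2 + c 9 * z ^ 3

/-- a binary quartic -/
def fD (d : Fin 5 → ZMod p) (x z : ZMod p) : ZMod p :=
  d 4 * x ^ 4 + d 3 * x ^ 3 * z + d 2 * x ^ 2 * z ^ 2 + d 1 * x * z ^ 3 + d 0 * z ^ 4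
/-- its derivatives -/
def fDx (d : Fin 5 → ZMod p) (x z : ZMod p) : ZMod p :=
  4 * d 4 * x ^ 3 + 3 * d 3 * x ^ 2 * z + 2 * d 2 * x * z ^ 2 + d 1 * z ^ 3
/-- its derivatives -/
def fDz (d : Fin 5 → ZMod p) (x z : ZMod p) : ZMod p :=
  d 3 * x ^ 3 + 2 * d 2 * x ^ 2 * z + 3 * d 1 * x * z ^ 2 + 4 * d 0 * z ^ 3

lemma form_mk (c : Co p) (x y z : ZMod p) : form c ![x, y, z] =
    c 0 * x ^ 3 + c 1 * x ^ 2 * y + c 2 * x ^ 2 * z + c 3 * x * y ^ 2
    + c 4 * x * y * z + c 5 * x * z ^ 2 + c 6 * y ^ 3 + c 7 * y ^ 2 * z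
    + c 8 * y * z ^ 2 + c 9 * z ^ 3 := rfl

lemma form_eq (c : Co p) (h6 : c 6 = 0) (x y z : ZMod p) :
    form c ![x, y, z] = fa c x z * y ^ 2 + fb c x z * y + fe c x z := by
  rw [form_mk, h6, fa, fb, fe]
  ring

lemma fD_eq (c : Co p) (x z : ZMod p) :
    fD (Dd c) x z = fb c x z ^ 2 - 4 * fa c x z * fe c x z := by
  simp only [fD, fa, fb, fe, Dd0, Dd1, Dd2, Dd3, Dd4]
  ring

lemma vec_eta (v : Fin 3 → ZMod p) : v = ![v 0, v 1, v 2] := by
  funext i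
  fin_cases i <;> rfl

lemma dform_mk (c : Co p) (x y z : ZMod p) (w : Fin 3 → ZMod p) : dform c ![x, y, z] w =
    (3 * c 0 * x ^ 2 + 2 * c 1 * x * y + 2 * c 2 * x * z + c 3 * y ^ 2
      + c 4 * y * z + c 5 * z ^ 2) * w 0
    + (c 1 * x ^ 2 + 2 * c 3 * x * y + c 4 * x * z + 3 * c 6 * y ^ 2
      + 2 * c 7 * y * z + c 8 * z ^ 2) * w 1
    + (c 2 * x ^ 2 + c 4 * x * y + 2 * c 5 * x * z + c 7 * y ^ 2
      + 2 * c 8 * y * z + 3 * c 9 * z ^ 2) * w 2 := rfl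

/-! ### small numbers -/

lemma two_ne (hp : 5 ≤ p) : (2 : ZMod p) ≠ 0 := by
  intro h
  have h1 : ((2 : ℕ) : ZMod p) = 0 := by exact_mod_cast h
  rw [ZMod.natCast_eq_zero_iff] at h1
  have := Nat.le_of_dvd (by norm_num) h1
  omega

lemma four_ne (hp : 5 ≤ p) : (4 : ZMod p) ≠ 0 := by
  have : (4 : ZMod p) = 2 * 2 := by norm_num
  rw [this]
  exact mul_ne_zero (two_ne hp) (two_ne hp)

/-! ### the polynomial of a quartic -/

lemma qpol_eq (d : Fin 5 → ZMod p) :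
    qpol d = C (d 0) + C (d 1) * X + C (d 2) * X ^ 2 + C (d 3) * X ^ 3 + C (d 4) * X ^ 4 := by
  unfold qpol
  rw [Fin.sum_univ_five]
  simp

lemma qpol_coeff (d : Fin 5 → ZMod p) : (qpol d).coeff 0 = d 0 ∧ (qpol d).coeff 1 = d 1 ∧
    (qpol d).coeff 2 = d 2 ∧ (qpol d).coeff 3 = d 3 ∧ (qpol d).coeff 4 = d 4 := by
  rw [qpol_eq]
  refine ⟨?_, ?_, ?_, ?_, ?_⟩ <;> simp [coeff_X, coeff_C]

lemma qpol_natDegree_le (d : Fin 5 → ZMod p) : (qpol d).natDegree ≤ 4 := by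
  rw [qpol_eq]
  compute_degree

/-- a double zero on the projective line -/
def DZ (d : Fin 5 → ZMod p) : Prop :=
  ∃ x z : ZMod p, (x ≠ 0 ∨ z ≠ 0) ∧ fD d x z = 0 ∧ fDx d x z = 0 ∧ fDz d x z = 0

lemma not_sf_of_sq {d : Fin 5 → ZMod p} {S : (ZMod p)[X]} (h : qpol d = S ^ 2) : ¬ Sf4 d := by
  rintro ⟨h1, h2⟩
  have h3 : IsUnit S := h1 S (by rw [h, pow_two])
  have h4 : (qpol d).natDegree = 0 := by
    rw [h, natDegree_pow, natDegree_eq_zero_of_isUnit h3, mul_zero]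
  omega

lemma not_sf_of_inf {d : Fin 5 → ZMod p} (h4 : d 4 = 0) (h3 : d 3 = 0) : ¬ Sf4 d := by
  rintro ⟨-, h2⟩
  have : (qpol d).natDegree ≤ 2 := by
    rw [qpol_eq, h4, h3, C_0, zero_mul, zero_mul, add_zero, add_zero]
    compute_degree
  omega

lemma not_sf_of_dz {d : Fin 5 → ZMod p} (h : DZ d) : ¬ Sf4 d := by
  obtain ⟨x, z, hxz, h1, h2, h3⟩ := h
  by_cases hz : z = 0
  · subst hz
    have hx : x ≠ 0 := by
      rcases hxz with h | h
      · exact h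
      · exact absurd rfl h
    have e1 : d 4 * x ^ 4 = 0 := by
      rw [← h1, fD]; ring
    have e2 : d 3 * x ^ 3 = 0 := by
      rw [← h3, fDz]; ring
    exact not_sf_of_inf ((mul_eq_zero.1 e1).resolve_right (pow_ne_zero _ hx))
      ((mul_eq_zero.1 e2).resolve_right (pow_ne_zero _ hx))
  · rintro ⟨hsq, hdeg⟩
    set t := x / z with ht
    have hx : x = t * z := by rw [ht, div_mul_cancel₀ _ hz]
    have e1 : d 4 * t ^ 4 + d 3 * t ^ 3 + d 2 * t ^ 2 + d 1 * t + d 0 = 0 := by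
      have : (d 4 * t ^ 4 + d 3 * t ^ 3 + d 2 * t ^ 2 + d 1 * t + d 0) * z ^ 4 = 0 := by
        rw [← h1, fD, hx]; ring
      exact (mul_eq_zero.1 this).resolve_right (pow_ne_zero _ hz)
    have e2 : 4 * d 4 * t ^ 3 + 3 * d 3 * t ^ 2 + 2 * d 2 * t + d 1 = 0 := by
      have : (4 * d 4 * t ^ 3 + 3 * d 3 * t ^ 2 + 2 * d 2 * t + d 1) * z ^ 3 = 0 := by
        rw [← h2, fDx, hx]; ring
      exact (mul_eq_zero.1 this).resolve_right (pow_ne_zero _ hz)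
    have hd1 : d 1 = -(4 * d 4 * t ^ 3 + 3 * d 3 * t ^ 2 + 2 * d 2 * t) := by
      linear_combination e2
    have hd0 : d 0 = 3 * d 4 * t ^ 4 + 2 * d 3 * t ^ 3 + d 2 * t ^ 2 := by
      linear_combination e1 - t * e2
    have hfac : qpol d = (X - C t) * (X - C t) *
        (C (d 4) * X ^ 2 + C (d 3 + 2 * t * d 4) * X + C (d 2 + 2 * t * d 3 + 3 * t ^ 2 * d 4)) := by
      rw [qpol_eq, hd1, hd0]
      simp only [C_neg, C_add, C_mul, C_pow, map_ofNat]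
      ring
    have hu := hsq (X - C t) ⟨_, hfac⟩
    have h4 := natDegree_eq_zero_of_isUnit hu
    rw [natDegree_X_sub_C] at h4
    omega

/-- the converse -/
lemma dz_or {d : Fin 5 → ZMod p} (h : ¬ Sf4 d) : DZ d ∨
    ∃ lam h0 h1 h2 : ZMod p, h2 ≠ 0 ∧ (∀ x : ZMod p, h2 * x ^ 2 + h1 * x + h0 ≠ 0) ∧
      d 4 = lam * h2 ^ 2 ∧ d 3 = lam * (2 * h2 * h1) ∧ d 2 = lam * (h1 ^ 2 + 2 * h2 * h0) ∧
      d 1 = lam * (2 * h1 * h0) ∧ d 0 = lam * h0 ^ 2 := by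
  obtain ⟨c0, c1, c2, c3, c4⟩ := qpol_coeff d
  by_cases hdeg : (qpol d).natDegree < 3
  · left
    have h3 : d 3 = 0 := by rw [← c3]; exact coeff_eq_zero_of_natDegree_lt hdeg
    have h4 : d 4 = 0 := by rw [← c4]; exact coeff_eq_zero_of_natDegree_lt (by omega)
    refine ⟨1, 0, Or.inl one_ne_zero, ?_, ?_, ?_⟩
    · simp [fD, h4]
    · simp [fDx, h4]
    · simp [fDz, h3]
  have hsq : ¬ Squarefree (qpol d) := fun hs => h ⟨hs, by omega⟩
  have hne : qpol d ≠ 0 := by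
    intro h0
    rw [h0] at hdeg
    exact hdeg (by simp)
  rw [squarefree_iff_irreducible_sq_not_dvd_of_ne_zero hne] at hsq
  push Not at hsq
  obtain ⟨f, hf, q, hq⟩ := hsq
  have hf0 : f ≠ 0 := hf.ne_zero
  have hq0 : q ≠ 0 := by
    rintro rfl
    rw [mul_zero] at hq
    exact hne hq
  have hfd : 0 < f.natDegree := hf.natDegree_pos
  have hdeg2 : (qpol d).natDegree = f.natDegree + f.natDegree + q.natDegree := by
    rw [hq, natDegree_mul (mul_ne_zero hf0 hf0) hq0, natDegree_mul hf0 hf0]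
  have hle := qpol_natDegree_le d
  by_cases hf1 : f.natDegree = 1
  · left
    obtain ⟨a, ha⟩ : ∃ a, f.IsRoot a := by
      have := Polynomial.exists_root_of_degree_eq_one (p := f)
        ((degree_eq_iff_natDegree_eq_of_pos one_pos).2 hf1)
      exact this
    obtain ⟨g, hg⟩ := dvd_iff_isRoot.2 ha
    have h1 : qpol d = (X - C a) ^ 2 * (g ^ 2 * q) := by
      rw [hq, hg]; ring
    have h2 : (qpol d).eval a = 0 := by rw [h1]; simp
    have h3 : (derivative (qpol d)).eval a = 0 := by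
      rw [h1, derivative_mul]
      simp [derivative_pow]
    rw [qpol_eq] at h2 h3
    simp at h2 h3
    refine ⟨a, 1, Or.inr one_ne_zero, ?_, ?_, ?_⟩
    · rw [fD]; linear_combination h2
    · rw [fDx]; linear_combination h3
    · rw [fDz]; linear_combination 4 * h2 - a * h3
  · right
    have hf2 : f.natDegree = 2 := by omega
    have hqd : q.natDegree = 0 := by omega
    obtain ⟨lam, hlam⟩ := natDegree_eq_zero.1 hqd
    have hfe : f = C (f.coeff 2) * X ^ 2 + C (f.coeff 1) * X + C (f.coeff 0) :=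
      eq_quadratic_of_degree_le_two (by
        rw [degree_eq_natDegree hf0, hf2]; rfl)
    have h2ne : f.coeff 2 ≠ 0 := by
      rw [← hf2]
      exact fun h => hf0 (leadingCoeff_eq_zero.1 h)
    refine ⟨lam, f.coeff 0, f.coeff 1, f.coeff 2, h2ne, ?_, ?_⟩
    · intro x hx
      have hr : f.IsRoot x := by
        rw [IsRoot, hfe]
        simpa using hx
      have := degree_eq_one_of_irreducible_of_root hf hr
      rw [degree_eq_natDegree hf0, hf2] at this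
      norm_num at this
    · have h1 : qpol d = C (lam * f.coeff 0 ^ 2) + C (lam * (2 * f.coeff 1 * f.coeff 0)) * X +
          C (lam * (f.coeff 1 ^ 2 + 2 * f.coeff 2 * f.coeff 0)) * X ^ 2 +
          C (lam * (2 * f.coeff 2 * f.coeff 1)) * X ^ 3 + C (lam * f.coeff 2 ^ 2) * X ^ 4 := by
        conv_lhs => rw [hq, ← hlam, hfe]
        simp only [C_add, C_mul, C_pow, map_ofNat]
        ring
      have h2 : qpol d = qpol ![lam * f.coeff 0 ^ 2, lam * (2 * f.coeff 1 * f.coeff 0),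
          lam * (f.coeff 1 ^ 2 + 2 * f.coeff 2 * f.coeff 0), lam * (2 * f.coeff 2 * f.coeff 1),
          lam * f.coeff 2 ^ 2] := by
        rw [h1, qpol_eq]
        rfl
      obtain ⟨e0, e1, e2, e3, e4⟩ := qpol_coeff ![lam * f.coeff 0 ^ 2,
          lam * (2 * f.coeff 1 * f.coeff 0),
          lam * (f.coeff 1 ^ 2 + 2 * f.coeff 2 * f.coeff 0), lam * (2 * f.coeff 2 * f.coeff 1),
          lam * f.coeff 2 ^ 2]
      rw [← h2] at e0 e1 e2 e3 e4
      rw [c0] at e0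
      rw [c1] at e1
      rw [c2] at e2
      rw [c3] at e3
      rw [c4] at e4
      exact ⟨e4, e3, e2, e1, e0⟩

end S4

end Pool.Agent.T2H70.SR
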