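import Pool.Agent.T2H70.SR.S4_a

set_option autoImplicit false
set_option linter.unusedSectionVars false

/-!
# Package S4, second part: nonsingular cubics and squarefree quartics
-/

namespace Pool.Agent.T2H70.SR

namespace S4

open Finset Polynomial
open scoped BigOperators

variable {p : ℕ} [Fact p.Prime]

lemma hasLine_of (c : Co p) (h6 : c 6 = 0) {x z : ZMod p} (hxz : x ≠ 0 ∨ z ≠ 0)
    (ha : fa c x z = 0) (hb : fb c x z = 0) (he : fe c x z = 0) : HasLine c := by
  refine ⟨![z, 0, -x], ?_, ?_⟩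
  · intro h
    have h0 := congrFun h 0
    have h2 := congrFun h 2
    simp at h0 h2
    rcases hxz with h | h
    · exact h h2
    · exact h h0
  · intro v hv
    have hv' : z * v 0 - x * v 2 = 0 := by
      have : dot3 ![z, 0, -x] v = z * v 0 + 0 * v 1 + (-x) * v 2 := rfl
      rw [this] at hv
      linear_combination hv
    obtain ⟨t, h0, h2⟩ : ∃ t, v 0 = t * x ∧ v 2 = t * z := by
      rcases hxz with h | h
      · refine ⟨v 0 / x, by field_simp, ?_⟩
        field_simp
        linear_combination -hv'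
      · refine ⟨v 2 / z, ?_, by field_simp⟩
        field_simp
        linear_combination hv'
    rw [vec_eta v, form_eq c h6, h0, h2]
    have e1 : fa c (t * x) (t * z) = t * fa c x z := by simp only [fa]; ring
    have e2 : fb c (t * x) (t * z) = t ^ 2 * fb c x z := by simp only [fb]; ring
    have e3 : fe c (t * x) (t * z) = t ^ 3 * fe c x z := by simp only [fe]; ring
    rw [e1, e2, e3, ha, hb, he]
    ring

lemma sing_of_a (c : Co p) (h6 : c 6 = 0) (h3 : c 3 = 0) (h7 : c 7 = 0) : Sing c ![0, 1, 0] := by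
  refine ⟨?_, ?_, ?_⟩
  · intro h
    have := congrFun h 1
    simp at this
  · rw [form_mk, h6]
    ring
  · intro w
    rw [dform_mk, h6, h3, h7]
    ring

lemma sing_or_line_of_dz (hp : 5 ≤ p) (c : Co p) (h6 : c 6 = 0) (h : DZ (Dd c)) :
    HasLine c ∨ ∃ v, Sing c v := by
  obtain ⟨x, z, hxz, h1, h2, h3⟩ := h
  have h4 := four_ne hp
  have h2' := two_ne hp
  by_cases ha : fa c x z = 0
  · have hb : fb c x z = 0 := by
      rw [fD_eq, ha] at h1
      have : fb c x z ^ 2 = 0 := by linear_combination h1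
      exact pow_eq_zero_iff (two_ne_zero) |>.1 this
    have e1 : 4 * (c 3 * fe c x z) = 0 := by
      simp only [fDx, Dd1, Dd2, Dd3, Dd4] at h2
      simp only [fa, fb, fe] at ha hb ⊢
      linear_combination -h2 + 2 * (2 * c 1 * x + c 4 * z) * hb -
        4 * (3 * c 0 * x ^ 2 + 2 * c 2 * x * z + c 5 * z ^ 2) * ha
    have e2 : 4 * (c 7 * fe c x z) = 0 := by
      simp only [fDz, Dd0, Dd1, Dd2, Dd3] at h3
      simp only [fa, fb, fe] at ha hb ⊢
      linear_combination -h3 + 2 * (2 * c 8 * z + c 4 * x) * hb -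
        4 * (3 * c 9 * z ^ 2 + 2 * c 5 * x * z + c 2 * x ^ 2) * ha
    by_cases he : fe c x z = 0
    · exact Or.inl (hasLine_of c h6 hxz ha hb he)
    · right
      refine ⟨_, sing_of_a c h6 ?_ ?_⟩
      · exact (mul_eq_zero.1 ((mul_eq_zero.1 e1).resolve_left h4)).resolve_right he
      · exact (mul_eq_zero.1 ((mul_eq_zero.1 e2).resolve_left h4)).resolve_right he
  · right
    set y := -fb c x z / (2 * fa c x z) with hy
    have hK : 2 * fa c x z * y + fb c x z = 0 := by
      rw [hy]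
      field_simp
      ring
    have h4a : 4 * fa c x z ≠ 0 := mul_ne_zero h4 ha
    rw [fD_eq] at h1
    have hF : fa c x z * y ^ 2 + fb c x z * y + fe c x z = 0 := by
      apply mul_left_cancel₀ h4a
      linear_combination (2 * fa c x z * y + fb c x z) * hK - h1
    clear_value y
    have hPx : 3 * c 0 * x ^ 2 + 2 * c 1 * x * y + 2 * c 2 * x * z + c 3 * y ^ 2
        + c 4 * y * z + c 5 * z ^ 2 = 0 := by
      apply mul_left_cancel₀ h4a
      simp only [fDx, Dd1, Dd2, Dd3, Dd4] at h2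
      simp only [fa, fb, fe] at hK hF ⊢
      linear_combination 2 * (2 * c 3 * y + 2 * c 1 * x + c 4 * z) * hK - h2 - 4 * c 3 * hF
    have hPz : c 2 * x ^ 2 + c 4 * x * y + 2 * c 5 * x * z + c 7 * y ^ 2
        + 2 * c 8 * y * z + 3 * c 9 * z ^ 2 = 0 := by
      apply mul_left_cancel₀ h4a
      simp only [fDz, Dd0, Dd1, Dd2, Dd3] at h3
      simp only [fa, fb, fe] at hK hF ⊢
      linear_combination 2 * (2 * c 7 * y + 2 * c 8 * z + c 4 * x) * hK - h3 - 4 * c 7 * hF
    refine ⟨![x, y, z], ?_, ?_, ?_⟩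
    · intro h
      have h0 := congrFun h 0
      have h2 := congrFun h 2
      simp at h0 h2
      rcases hxz with h | h
      · exact h h0
      · exact h h2
    · rw [form_eq c h6]
      exact hF
    · intro w
      rw [dform_mk, hPx, hPz, h6]
      simp only [fa, fb] at hK
      linear_combination w 1 * hK

/-- division by a linear form -/
lemma div_lin2 {a0 a1 q0 q1 q2 : ZMod p} (ha : a0 ≠ 0 ∨ a1 ≠ 0)
    (h : q0 * a1 ^ 2 - q1 * a1 * a0 + q2 * a0 ^ 2 = 0) :
    ∃ m0 m1 : ZMod p, q0 = a0 * m0 ∧ q1 = a0 * m1 + a1 * m0 ∧ q2 = a1 * m1 := by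
  by_cases h0 : a0 = 0
  · subst h0
    have h1 : a1 ≠ 0 := by
      rcases ha with h | h
      · exact absurd rfl h
      · exact h
    refine ⟨q1 / a1, q2 / a1, ?_, ?_, ?_⟩
    · have : q0 * a1 ^ 2 = 0 := by linear_combination h
      rw [(mul_eq_zero.1 this).resolve_right (pow_ne_zero _ h1)]
      ring
    · field_simp
      ring
    · field_simp
  · refine ⟨q0 / a0, (q1 - a1 * (q0 / a0)) / a0, ?_, ?_, ?_⟩
    · field_simp
    · field_simp
      ring
    · field_simp
      linear_combination h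

lemma cancel_lin {a0 a1 w0 w1 w2 w3 : ZMod p} (ha : a0 ≠ 0 ∨ a1 ≠ 0) (h0 : a0 * w0 = 0)
    (h1 : a0 * w1 + a1 * w0 = 0) (h2 : a0 * w2 + a1 * w1 = 0) (h3 : a0 * w3 + a1 * w2 = 0)
    (h4 : a1 * w3 = 0) : w0 = 0 ∧ w1 = 0 ∧ w2 = 0 ∧ w3 = 0 := by
  by_cases hz : a0 = 0
  · subst hz
    have h1' : a1 ≠ 0 := by
      rcases ha with h | h
      · exact absurd rfl h
      · exact h
    simp only [zero_mul, zero_add] at h1 h2 h3
    exact ⟨(mul_eq_zero.1 h1).resolve_left h1', (mul_eq_zero.1 h2).resolve_left h1',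
      (mul_eq_zero.1 h3).resolve_left h1', (mul_eq_zero.1 h4).resolve_left h1'⟩
  · have e0 := (mul_eq_zero.1 h0).resolve_left hz
    rw [e0, mul_zero, add_zero] at h1
    have e1 := (mul_eq_zero.1 h1).resolve_left hz
    rw [e1, mul_zero, add_zero] at h2
    have e2 := (mul_eq_zero.1 h2).resolve_left hz
    rw [e2, mul_zero, add_zero] at h3
    exact ⟨e0, e1, e2, (mul_eq_zero.1 h3).resolve_left hz⟩

lemma line_of_sq (hp : 5 ≤ p) (c : Co p) (h6 : c 6 = 0) {lam h0 h1 h2 : ZMod p} (hh2 : h2 ≠ 0)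
    (hnr : ∀ x : ZMod p, h2 * x ^ 2 + h1 * x + h0 ≠ 0)
    (e4 : Dd c 4 = lam * h2 ^ 2) (e3 : Dd c 3 = lam * (2 * h2 * h1))
    (e2 : Dd c 2 = lam * (h1 ^ 2 + 2 * h2 * h0)) (e1 : Dd c 1 = lam * (2 * h1 * h0))
    (e0 : Dd c 0 = lam * h0 ^ 2) : HasLine c ∨ ∃ v, Sing c v := by
  have h4 := four_ne hp
  have h2' := two_ne hp
  by_cases ha : c 3 = 0 ∧ c 7 = 0
  · exact Or.inr ⟨_, sing_of_a c h6 ha.1 ha.2⟩
  have ha' : c 3 ≠ 0 ∨ c 7 ≠ 0 := by
    by_contra hcon
    push Not at hcon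
    exact ha hcon
  left
  -- the value of `h` at the zero of the linear form
  set hr := h2 * (c 7) ^ 2 - h1 * c 7 * c 3 + h0 * (c 3) ^ 2 with hhr
  have hr0 : hr ≠ 0 := by
    by_cases h3 : c 3 = 0
    · have h7 : c 7 ≠ 0 := by
        rcases ha' with h | h
        · exact absurd h3 h
        · exact h
      rw [hhr, h3]
      have : h2 * c 7 ^ 2 - h1 * c 7 * 0 + h0 * 0 ^ 2 = h2 * c 7 ^ 2 := by ring
      rw [this]
      exact mul_ne_zero hh2 (pow_ne_zero _ h7)
    · intro h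
      apply hnr (-c 7 / c 3)
      have : (h2 * (-c 7 / c 3) ^ 2 + h1 * (-c 7 / c 3) + h0) * c 3 ^ 2 = hr := by
        rw [hhr]
        field_simp
        ring
      rw [h] at this
      exact (mul_eq_zero.1 this).resolve_right (pow_ne_zero _ h3)
  set br := c 1 * (c 7) ^ 2 - c 4 * c 7 * c 3 + c 8 * (c 3) ^ 2 with hbr
  have hbr2 : br ^ 2 = lam * hr ^ 2 := by
    have f1 : fD (Dd c) (c 7) (-c 3) = br ^ 2 := by
      rw [fD_eq]
      simp only [fa, fb, fe, hbr]
      ring
    have f2 : fD (Dd c) (c 7) (-c 3) = lam * hr ^ 2 := by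
      rw [fD, e0, e1, e2, e3, e4, hhr]
      ring
    rw [← f1, f2]
  set mu := br / hr with hmu
  have hmul : mu * hr = br := by rw [hmu]; field_simp
  have hlam : lam = mu ^ 2 := by
    have : lam * hr ^ 2 = mu ^ 2 * hr ^ 2 := by
      rw [← hbr2, ← hmul]; ring
    exact mul_right_cancel₀ (pow_ne_zero _ hr0) this
  clear_value mu
  obtain ⟨m0, m1, q0, q1, q2⟩ := div_lin2 (a0 := c 3) (a1 := c 7) (q0 := c 1 - mu * h2)
    (q1 := c 4 - mu * h1) (q2 := c 8 - mu * h0) ha' (by
      have : br - mu * hr = 0 := by rw [hmul]; ring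
      rw [hbr, hhr] at this
      linear_combination this)
  have hb0 : c 1 = mu * h2 + c 3 * m0 := by linear_combination q0
  have hb1 : c 4 = mu * h1 + (c 3 * m1 + c 7 * m0) := by linear_combination q1
  have hb2 : c 8 = mu * h0 + c 7 * m1 := by linear_combination q2
  rw [Dd0] at e0
  rw [Dd1] at e1
  rw [Dd2] at e2
  rw [Dd3] at e3
  rw [Dd4] at e4
  -- `4 e = m (b + s)`
  obtain ⟨w0, w1, w2, w3⟩ := cancel_lin (a0 := c 3) (a1 := c 7)
    (w0 := 4 * c 0 - m0 * (c 1 + mu * h2))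
    (w1 := 4 * c 2 - (m0 * (c 4 + mu * h1) + m1 * (c 1 + mu * h2)))
    (w2 := 4 * c 5 - (m0 * (c 8 + mu * h0) + m1 * (c 4 + mu * h1)))
    (w3 := 4 * c 9 - m1 * (c 8 + mu * h0)) ha'
    (by
      rw [hlam] at e4
      linear_combination -e4 + (c 1 + mu * h2) * hb0)
    (by
      rw [hlam] at e3
      linear_combination -e3 + (c 4 + mu * h1) * hb0 + (c 1 + mu * h2) * hb1)
    (by
      rw [hlam] at e2
      linear_combination -e2 + (c 8 + mu * h0) * hb0 + (c 4 + mu * h1) * hb1 +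
        (c 1 + mu * h2) * hb2)
    (by
      rw [hlam] at e1
      linear_combination -e1 + (c 8 + mu * h0) * hb1 + (c 4 + mu * h1) * hb2)
    (by
      rw [hlam] at e0
      linear_combination -e0 + (c 8 + mu * h0) * hb2)
  refine ⟨![m0, 2, m1], ?_, ?_⟩
  · intro h
    have := congrFun h 1
    simp at this
    exact h2' this
  · intro v hv
    have hv' : m0 * v 0 + 2 * v 1 + m1 * v 2 = 0 := hv
    rw [vec_eta v, form_eq c h6]
    apply mul_left_cancel₀ h4
    simp only [fa, fb, fe]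
    have hs : 2 * v 1 = -(m0 * v 0 + m1 * v 2) := by linear_combination hv'
    rw [hb0] at w0
    rw [hb0, hb1] at w1
    rw [hb1, hb2] at w2
    rw [hb2] at w3
    rw [hb0, hb1, hb2]
    linear_combination (v 0) ^ 3 * w0 + (v 0) ^ 2 * v 2 * w1 + v 0 * (v 2) ^ 2 * w2 +
      (v 2) ^ 3 * w3 + (((c 3) * v 0 + c 7 * v 2) * (2 * v 1 - (m0 * v 0 + m1 * v 2)) +
      2 * ((mu * h2 + c 3 * m0) * (v 0) ^ 2 + (mu * h1 + (c 3 * m1 + c 7 * m0)) * v 0 * v 2 +
        (mu * h0 + c 7 * m1) * (v 2) ^ 2)) * hs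

/-! ### the converse -/

lemma not_sf_of_line (hp : 5 ≤ p) (c : Co p) (h6 : c 6 = 0) (h : HasLine c) : ¬ Sf4 (Dd c) := by
  obtain ⟨l, hl, hv⟩ := h
  by_cases h1 : l 1 = 0
  · -- a line through the point
    apply not_sf_of_dz
    have hxz : l 2 ≠ 0 ∨ -l 0 ≠ 0 := by
      by_contra hcon
      push Not at hcon
      apply hl
      rw [vec_eta l, h1, hcon.1, neg_eq_zero.1 hcon.2]
      funext i
      fin_cases i <;> rfl
    have key : ∀ y, fa c (l 2) (-l 0) * y ^ 2 + fb c (l 2) (-l 0) * y + fe c (l 2) (-l 0) = 0 := by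
      intro y
      rw [← form_eq c h6]
      apply hv
      change l 0 * l 2 + l 1 * y + l 2 * (-l 0) = 0
      rw [h1]
      ring
    set A := fa c (l 2) (-l 0) with hA
    set B := fb c (l 2) (-l 0) with hB
    set E := fe c (l 2) (-l 0) with hE
    have k0 := key 0
    have k1 := key 1
    have k2 := key (-1)
    have hE0 : E = 0 := by linear_combination k0
    have hA0 : A = 0 := by
      apply mul_left_cancel₀ (two_ne hp)
      linear_combination k1 + k2 - 2 * k0
    have hB0 : B = 0 := by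
      rw [hE0, hA0] at k1
      linear_combination k1
    refine ⟨l 2, -l 0, hxz, ?_, ?_, ?_⟩
    · rw [fD_eq, ← hA, ← hB, ← hE, hE0, hA0, hB0]
      ring
    · simp only [fa, fb, fe] at hA hB hE
      rw [hA0] at hA
      rw [hB0] at hB
      rw [hE0] at hE
      simp only [fDx, Dd1, Dd2, Dd3, Dd4]
      linear_combination -2 * (2 * c 1 * l 2 + c 4 * (-l 0)) * hB +
        4 * (3 * c 0 * l 2 ^ 2 + 2 * c 2 * l 2 * (-l 0) + c 5 * (-l 0) ^ 2) * hA + 4 * c 3 * hE
    · simp only [fa, fb, fe] at hA hB hE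
      rw [hA0] at hA
      rw [hB0] at hB
      rw [hE0] at hE
      simp only [fDz, Dd0, Dd1, Dd2, Dd3]
      linear_combination -2 * (2 * c 8 * (-l 0) + c 4 * l 2) * hB +
        4 * (3 * c 9 * (-l 0) ^ 2 + 2 * c 5 * l 2 * (-l 0) + c 2 * l 2 ^ 2) * hA + 4 * c 7 * hE
  · -- another line
    set m0 := -l 0 / l 1 with hm0
    set m1 := -l 2 / l 1 with hm1
    set A : (ZMod p)[X] := C (c 3) * X + C (c 7) with hA
    set B : (ZMod p)[X] := C (c 1) * X ^ 2 + C (c 4) * X + C (c 8) with hB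
    set E : (ZMod p)[X] := C (c 0) * X ^ 3 + C (c 2) * X ^ 2 + C (c 5) * X + C (c 9) with hE
    set M : (ZMod p)[X] := C m0 * X + C m1 with hM
    have hz : A * M ^ 2 + B * M + E = 0 := by
      apply eq_zero_of_natDegree_lt_card_of_eval_eq_zero (f := fun x : ZMod p => x) _
        (fun _ _ h => h)
      · intro x
        have h2 := hv ![x, m0 * x + m1, 1] (by
          change l 0 * x + l 1 * (m0 * x + m1) + l 2 * 1 = 0
          rw [hm0, hm1]
          field_simp
          ring)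
        rw [form_eq c h6] at h2
        simp only [hA, hB, hE, hM]
        simp
        simp only [fa, fb, fe] at h2
        linear_combination h2
      · have hd : (A * M ^ 2 + B * M + E).natDegree ≤ 3 := by
          rw [hA, hB, hE, hM]
          compute_degree
        rw [ZMod.card]
        omega
    apply not_sf_of_sq (S := B + 2 * A * M)
    have h3 : E = -(A * M ^ 2 + B * M) := by linear_combination hz
    have h4 : qpol (Dd c) = B ^ 2 - 4 * A * E := by
      rw [qpol_eq, Dd0, Dd1, Dd2, Dd3, Dd4, hA, hB, hE]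
      simp only [C_sub, C_add, C_mul, C_pow, map_ofNat]
      ring
    rw [h4, h3]
    ring

lemma not_sf_of_sing (c : Co p) (h6 : c 6 = 0) {v : Fin 3 → ZMod p} (h : Sing c v) :
    ¬ Sf4 (Dd c) := by
  obtain ⟨hv, hF, hd⟩ := h
  rw [vec_eta v] at hF hd
  set x := v 0 with hx
  set y := v 1 with hy
  set z := v 2 with hz
  have d0 := hd ![1, 0, 0]
  have d1 := hd ![0, 1, 0]
  have d2 := hd ![0, 0, 1]
  rw [dform_mk] at d0 d1 d2
  simp at d0 d1 d2
  rw [form_eq c h6] at hF
  by_cases hxz : x = 0 ∧ z = 0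
  · have hy0 : y ≠ 0 := by
      intro h
      apply hv
      rw [vec_eta v, ← hx, ← hy, ← hz, hxz.1, hxz.2, h]
      funext i
      fin_cases i <;> rfl
    rw [hxz.1, hxz.2] at d0 d2
    have e3 : c 3 * y ^ 2 = 0 := by linear_combination d0
    have e7 : c 7 * y ^ 2 = 0 := by linear_combination d2
    have h3 := (mul_eq_zero.1 e3).resolve_right (pow_ne_zero _ hy0)
    have h7 := (mul_eq_zero.1 e7).resolve_right (pow_ne_zero _ hy0)
    apply not_sf_of_sq (S := C (c 1) * X ^ 2 + C (c 4) * X + C (c 8))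
    rw [qpol_eq, Dd0, Dd1, Dd2, Dd3, Dd4, h3, h7]
    simp only [C_sub, C_add, C_mul, C_pow, map_ofNat, C_0]
    ring
  · apply not_sf_of_dz
    have hxz' : x ≠ 0 ∨ z ≠ 0 := by
      by_contra hcon
      push Not at hcon
      exact hxz hcon
    have hK : 2 * fa c x z * y + fb c x z = 0 := by
      simp only [fa, fb]
      rw [h6] at d1
      linear_combination d1
    refine ⟨x, z, hxz', ?_, ?_, ?_⟩
    · rw [fD_eq]
      linear_combination (2 * fa c x z * y + fb c x z) * hK - 4 * fa c x z * hF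
    · simp only [fa, fb, fe] at hK hF
      simp only [fDx, Dd1, Dd2, Dd3, Dd4]
      linear_combination 2 * (2 * c 3 * y + 2 * c 1 * x + c 4 * z) * hK - 4 * c 3 * hF -
        4 * (c 3 * x + c 7 * z) * d0
    · simp only [fa, fb, fe] at hK hF
      simp only [fDz, Dd0, Dd1, Dd2, Dd3]
      linear_combination 2 * (2 * c 7 * y + 2 * c 8 * z + c 4 * x) * hK - 4 * c 7 * hF -
        4 * (c 3 * x + c 7 * z) * d2

lemma ns_iff (hp : 5 ≤ p) (c : Co p) (h6 : c 6 = 0) : Ns c ↔ Sf4 (Dd c) := by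
  constructor
  · rintro ⟨h1, h2⟩
    by_contra hsf
    have key : HasLine c ∨ ∃ v, Sing c v := by
      rcases dz_or hsf with h | ⟨lam, h0, h1', h2', hh2, hnr, e4, e3, e2, e1, e0⟩
      · exact sing_or_line_of_dz hp c h6 h
      · exact line_of_sq hp c h6 hh2 hnr e4 e3 e2 e1 e0
    rcases key with h | ⟨v, h⟩
    · exact h1 h
    · exact h2 v h
  · intro hsf
    exact ⟨fun h => not_sf_of_line hp c h6 h hsf, fun v h => not_sf_of_sing c h6 h hsf⟩

end S4

end Pool.Agent.T2H70.SR
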