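import Pool.Agent.T2H70.SR.S4_b

set_option autoImplicit false
set_option linter.unusedSectionVars false

/-!
# Package S4, third part: counting
-/

namespace Pool.Agent.T2H70.SR

namespace S4

open Finset
open scoped BigOperators

variable {p : ℕ} [Fact p.Prime]

/-- sum over the nonzero vectors of a function on the projective line -/
lemma sum_proj (G : ZMod p → ZMod p → ℚ)
    (hG : ∀ t x z : ZMod p, t ≠ 0 → G (t * x) (t * z) = G x z) :
    ∑ z : ZMod p, ∑ x : ZMod p, (if x = 0 ∧ z = 0 then 0 else G x z) =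
      ((p : ℚ) - 1) * (∑ x : ZMod p, G x 1 + G 1 0) := by
  have hp0 : 0 < p := (Fact.out : p.Prime).pos
  have hcard : ((univ.erase (0 : ZMod p)).card : ℚ) = (p : ℚ) - 1 := by
    rw [card_erase_of_mem (mem_univ _), card_univ, ZMod.card, Nat.cast_sub hp0, Nat.cast_one]
  rw [← add_sum_erase univ _ (mem_univ (0 : ZMod p))]
  have h1 : ∑ x : ZMod p, (if x = 0 ∧ (0 : ZMod p) = 0 then 0 else G x 0) =
      ((p : ℚ) - 1) * G 1 0 := by
    rw [← add_sum_erase univ _ (mem_univ (0 : ZMod p)), if_pos ⟨rfl, rfl⟩, zero_add]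
    rw [sum_congr rfl (g := fun _ => G 1 0), sum_const, nsmul_eq_mul, hcard]
    intro x hx
    have hx0 : x ≠ 0 := (mem_erase.1 hx).1
    rw [if_neg (fun h => hx0 h.1)]
    have := hG x 1 0 hx0
    rw [mul_one, mul_zero] at this
    exact this
  have h2 : ∑ z ∈ univ.erase (0 : ZMod p), ∑ x : ZMod p, (if x = 0 ∧ z = 0 then 0 else G x z) =
      ((p : ℚ) - 1) * ∑ x : ZMod p, G x 1 := by
    rw [sum_congr rfl (g := fun _ => ∑ x : ZMod p, G x 1), sum_const, nsmul_eq_mul, hcard]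
    intro z hz
    have hz0 : z ≠ 0 := (mem_erase.1 hz).1
    rw [sum_congr rfl (g := fun x => G x z) fun x _ => if_neg fun h => hz0 h.2]
    rw [← Equiv.sum_comp (Equiv.mulLeft₀ z hz0) (fun x => G x z)]
    refine sum_congr rfl fun x _ => ?_
    have := hG z x 1 hz0
    rw [mul_one] at this
    exact this
  rw [h1, h2]
  ring

lemma rc_ne (hp : 5 ≤ p) : ringChar (ZMod p) ≠ 2 := by
  rw [ZMod.ringChar_zmod_n]
  omega

/-- the number of square roots -/
lemma nsq (hp : 5 ≤ p) (t : ZMod p) : ((univ.filter fun v : ZMod p => v ^ 2 = t).card : ℚ) =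
    (quadraticChar (ZMod p) t : ℚ) + 1 := by
  have h := quadraticChar_card_sqrts (rc_ne hp) t
  have h2 : ({x : ZMod p | x ^ 2 = t} : Set (ZMod p)).toFinset =
      univ.filter fun v : ZMod p => v ^ 2 = t := by
    ext v
    simp
  rw [h2] at h
  exact_mod_cast h

lemma chi_hom (t a : ZMod p) (ht : t ≠ 0) :
    quadraticChar (ZMod p) (t ^ 4 * a) = quadraticChar (ZMod p) a := by
  rw [map_mul, show t ^ 4 = (t ^ 2) ^ 2 by ring, quadraticChar_sq_one' (pow_ne_zero _ ht), one_mul]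

lemma fD_hom (d : Fin 5 → ZMod p) (t x z : ZMod p) : fD d (t * x) (t * z) = t ^ 4 * fD d x z := by
  simp only [fD]
  ring

lemma fD_one (d : Fin 5 → ZMod p) (x : ZMod p) : fD d x 1 = qv d x := by
  simp only [fD, qv]
  ring

lemma fD_inf (d : Fin 5 → ZMod p) : fD d 1 0 = d 4 := by
  simp only [fD]
  ring

/-! ### the number of cubics with a given quartic -/

lemma fib_ne (hp : 5 ≤ p) (d : Fin 5 → ZMod p) {al ga : ZMod p} (hal : al ≠ 0) :
    (univ.filter fun c : Co p => (c 6 = 0 ∧ Dd c = d) ∧ (c 3, c 7) = (al, ga)).card =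
      ((univ : Finset (ZMod p)) ×ˢ ((univ : Finset (ZMod p)) ×ˢ
        (univ.filter fun v : ZMod p => v ^ 2 = fD d ga (-al)))).card := by
  have h4 := four_ne hp
  have h2 := two_ne hp
  refine card_nbij' (fun c => (c 1, c 4, c 1 * ga ^ 2 - c 4 * ga * al + c 8 * al ^ 2))
    (fun t => ![(t.1 ^ 2 - d 4) / (4 * al), t.1,
      (2 * t.1 * t.2.1 - d 3 - 4 * ga * ((t.1 ^ 2 - d 4) / (4 * al))) / (4 * al), al, t.2.1,
      (t.2.1 ^ 2 + 2 * t.1 * ((t.2.2 - t.1 * ga ^ 2 + t.2.1 * ga * al) / al ^ 2) - d 2 - 4 * ga *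
        ((2 * t.1 * t.2.1 - d 3 - 4 * ga * ((t.1 ^ 2 - d 4) / (4 * al))) / (4 * al))) / (4 * al),
      0, ga, (t.2.2 - t.1 * ga ^ 2 + t.2.1 * ga * al) / al ^ 2,
      (2 * t.2.1 * ((t.2.2 - t.1 * ga ^ 2 + t.2.1 * ga * al) / al ^ 2) - d 1 - 4 * ga *
        ((t.2.1 ^ 2 + 2 * t.1 * ((t.2.2 - t.1 * ga ^ 2 + t.2.1 * ga * al) / al ^ 2) - d 2 - 4 * ga *
        ((2 * t.1 * t.2.1 - d 3 - 4 * ga * ((t.1 ^ 2 - d 4) / (4 * al))) / (4 * al))) / (4 * al)))
          / (4 * al)]) ?_ ?_ ?_ ?_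
  · intro c hc
    simp only [coe_filter, mem_univ, true_and, Set.mem_setOf_eq, Prod.mk.injEq] at hc
    obtain ⟨⟨h6, hD⟩, h3, h7⟩ := hc
    simp only [coe_product, coe_univ, coe_filter, mem_univ, true_and, Set.mem_prod, Set.mem_univ,
      Set.mem_setOf_eq]
    rw [← hD, fD_eq]
    simp only [fa, fb, fe]
    rw [h3, h7]
    ring
  · rintro ⟨t1, t2, v⟩ ht
    simp only [coe_product, coe_univ, coe_filter, mem_univ, true_and, Set.mem_prod, Set.mem_univ,
      Set.mem_setOf_eq] at ht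
    simp only [coe_filter, mem_univ, true_and, Set.mem_setOf_eq]
    set t3 := (v - t1 * ga ^ 2 + t2 * ga * al) / al ^ 2 with ht3
    have hv : v = t1 * ga ^ 2 - t2 * ga * al + t3 * al ^ 2 := by
      rw [ht3]; field_simp; ring
    clear_value t3
    set c0 := (t1 ^ 2 - d 4) / (4 * al) with hc0
    have e4 : t1 ^ 2 - 4 * (al * c0) = d 4 := by rw [hc0]; field_simp; ring
    clear_value c0
    set c2 := (2 * t1 * t2 - d 3 - 4 * ga * c0) / (4 * al) with hc2
    have e3 : 2 * t1 * t2 - 4 * (al * c2 + ga * c0) = d 3 := by rw [hc2]; field_simp; ring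
    clear_value c2
    set c5 := (t2 ^ 2 + 2 * t1 * t3 - d 2 - 4 * ga * c2) / (4 * al) with hc5
    have e2 : t2 ^ 2 + 2 * t1 * t3 - 4 * (al * c5 + ga * c2) = d 2 := by
      rw [hc5]; field_simp; ring
    clear_value c5
    set c9 := (2 * t2 * t3 - d 1 - 4 * ga * c5) / (4 * al) with hc9
    have e1 : 2 * t2 * t3 - 4 * (al * c9 + ga * c5) = d 1 := by rw [hc9]; field_simp; ring
    clear_value c9
    have e0 : t3 ^ 2 - 4 * (ga * c9) = d 0 := by
      apply mul_left_cancel₀ (pow_ne_zero 4 hal)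
      rw [hv] at ht
      simp only [fD] at ht
      linear_combination ht - ga ^ 4 * e4 + ga ^ 3 * al * e3 - ga ^ 2 * al ^ 2 * e2 +
        ga * al ^ 3 * e1
    refine ⟨⟨rfl, ?_⟩, rfl⟩
    funext i
    fin_cases i
    · exact e0
    · exact e1
    · exact e2
    · exact e3
    · exact e4
  · intro c hc
    simp only [coe_filter, mem_univ, true_and, Set.mem_setOf_eq, Prod.mk.injEq] at hc
    obtain ⟨⟨h6, hD⟩, h3, h7⟩ := hc
    have e0 := congrFun hD 0
    have e1 := congrFun hD 1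
    have e2 := congrFun hD 2
    have e3 := congrFun hD 3
    have e4 := congrFun hD 4
    rw [Dd0] at e0
    rw [Dd1] at e1
    rw [Dd2] at e2
    rw [Dd3] at e3
    rw [Dd4] at e4
    rw [h7] at e0
    rw [h3, h7] at e1 e2 e3
    rw [h3] at e4
    have k8 : (c 1 * ga ^ 2 - c 4 * ga * al + c 8 * al ^ 2 - c 1 * ga ^ 2 + c 4 * ga * al) / al ^ 2
        = c 8 := by
      field_simp; ring
    have k0 : (c 1 ^ 2 - d 4) / (4 * al) = c 0 := by rw [← e4]; field_simp; ring
    have k2 : (2 * c 1 * c 4 - d 3 - 4 * ga * c 0) / (4 * al) = c 2 := by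
      rw [← e3]; field_simp; ring
    have k5 : (c 4 ^ 2 + 2 * c 1 * c 8 - d 2 - 4 * ga * c 2) / (4 * al) = c 5 := by
      rw [← e2]; field_simp; ring
    have k9 : (2 * c 4 * c 8 - d 1 - 4 * ga * c 5) / (4 * al) = c 9 := by
      rw [← e1]; field_simp; ring
    simp only [k8, k0, k2, k5, k9]
    funext i
    fin_cases i
    · rfl
    · rfl
    · rfl
    · exact h3.symm
    · rfl
    · rfl
    · exact h6.symm
    · exact h7.symm
    · rfl
    · rfl
  · rintro ⟨t1, t2, v⟩ ht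
    simp only [Prod.mk.injEq]
    refine ⟨rfl, rfl, ?_⟩
    change t1 * ga ^ 2 - t2 * ga * al + (v - t1 * ga ^ 2 + t2 * ga * al) / al ^ 2 * al ^ 2 = v
    field_simp
    ring

lemma fib_zero (hp : 5 ≤ p) (d : Fin 5 → ZMod p) {ga : ZMod p} (hga : ga ≠ 0) :
    (univ.filter fun c : Co p => (c 6 = 0 ∧ Dd c = d) ∧ (c 3, c 7) = (0, ga)).card =
      ((univ : Finset (ZMod p)) ×ˢ ((univ : Finset (ZMod p)) ×ˢ
        (univ.filter fun v : ZMod p => v ^ 2 = fD d ga (-0)))).card := by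
  have h4 := four_ne hp
  have h2 := two_ne hp
  refine card_nbij' (fun c => (c 4, c 8, c 1 * ga ^ 2))
    (fun t => ![(2 * (t.2.2 / ga ^ 2) * t.1 - d 3) / (4 * ga), t.2.2 / ga ^ 2,
      (t.1 ^ 2 + 2 * (t.2.2 / ga ^ 2) * t.2.1 - d 2) / (4 * ga), 0, t.1,
      (2 * t.1 * t.2.1 - d 1) / (4 * ga),
      0, ga, t.2.1, (t.2.1 ^ 2 - d 0) / (4 * ga)]) ?_ ?_ ?_ ?_
  · intro c hc
    simp only [coe_filter, mem_univ, true_and, Set.mem_setOf_eq, Prod.mk.injEq] at hc
    obtain ⟨⟨h6, hD⟩, h3, h7⟩ := hc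
    simp only [coe_product, coe_univ, coe_filter, mem_univ, true_and, Set.mem_prod, Set.mem_univ,
      Set.mem_setOf_eq]
    rw [← hD, fD_eq]
    simp only [fa, fb, fe]
    rw [h3, h7]
    ring
  · rintro ⟨t2, t3, v⟩ ht
    simp only [coe_product, coe_univ, coe_filter, mem_univ, true_and, Set.mem_prod, Set.mem_univ,
      Set.mem_setOf_eq] at ht
    simp only [coe_filter, mem_univ, true_and, Set.mem_setOf_eq]
    set t1 := v / ga ^ 2 with ht1
    have hv : v = t1 * ga ^ 2 := by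
      rw [ht1]; field_simp
    clear_value t1
    have e4 : t1 ^ 2 = d 4 := by
      apply mul_left_cancel₀ (pow_ne_zero 4 hga)
      rw [hv] at ht
      simp only [fD] at ht
      linear_combination ht
    refine ⟨⟨rfl, ?_⟩, rfl⟩
    funext i
    fin_cases i
    · change t3 ^ 2 - 4 * (ga * ((t3 ^ 2 - d 0) / (4 * ga))) = d 0
      field_simp
      ring
    · change 2 * t2 * t3 - 4 * (0 * _ + ga * ((2 * t2 * t3 - d 1) / (4 * ga))) = d 1
      field_simp
      ring
    · change t2 ^ 2 + 2 * t1 * t3 - 4 * (0 * _ + ga * ((t2 ^ 2 + 2 * t1 * t3 - d 2) / (4 * ga))) =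
        d 2
      field_simp
      ring
    · change 2 * t1 * t2 - 4 * (0 * _ + ga * ((2 * t1 * t2 - d 3) / (4 * ga))) = d 3
      field_simp
      ring
    · change t1 ^ 2 - 4 * (0 * _) = d 4
      rw [← e4]
      ring
  · intro c hc
    simp only [coe_filter, mem_univ, true_and, Set.mem_setOf_eq, Prod.mk.injEq] at hc
    obtain ⟨⟨h6, hD⟩, h3, h7⟩ := hc
    have e0 := congrFun hD 0
    have e1 := congrFun hD 1
    have e2 := congrFun hD 2
    have e3 := congrFun hD 3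
    rw [Dd0] at e0
    rw [Dd1] at e1
    rw [Dd2] at e2
    rw [Dd3] at e3
    rw [h7] at e0
    rw [h3, h7] at e1 e2 e3
    have k1 : c 1 * ga ^ 2 / ga ^ 2 = c 1 := by field_simp
    have k0 : (2 * c 1 * c 4 - d 3) / (4 * ga) = c 0 := by rw [← e3]; field_simp; ring
    have k2 : (c 4 ^ 2 + 2 * c 1 * c 8 - d 2) / (4 * ga) = c 2 := by
      rw [← e2]; field_simp; ring
    have k5 : (2 * c 4 * c 8 - d 1) / (4 * ga) = c 5 := by
      rw [← e1]; field_simp; ring
    have k9 : (c 8 ^ 2 - d 0) / (4 * ga) = c 9 := by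
      rw [← e0]; field_simp; ring
    simp only [k1, k0, k2, k5, k9]
    funext i
    fin_cases i
    · rfl
    · rfl
    · rfl
    · exact h3.symm
    · rfl
    · rfl
    · exact h6.symm
    · exact h7.symm
    · rfl
    · rfl
  · rintro ⟨t1, t2, v⟩ ht
    simp only [Prod.mk.injEq]
    refine ⟨rfl, rfl, ?_⟩
    change v / ga ^ 2 * ga ^ 2 = v
    field_simp

lemma card_prod3 (T : Finset (ZMod p)) :
    (((univ : Finset (ZMod p)) ×ˢ ((univ : Finset (ZMod p)) ×ˢ T)).card : ℚ) =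
      (p : ℚ) ^ 2 * T.card := by
  rw [card_product, card_product, card_univ, ZMod.card]
  push_cast
  ring

lemma N4_eq (d : Fin 5 → ZMod p) : N4 d =
    ∑ x : ZMod p, ((quadraticChar (ZMod p) (fD d x 1) : ℚ) + 1) +
      ((quadraticChar (ZMod p) (fD d 1 0) : ℚ) + 1) := by
  rw [sum_add_distrib, sum_const, nsmul_eq_mul, card_univ, ZMod.card, fD_inf, N4]
  simp only [fD_one]
  ring

lemma card_fib (hp : 5 ≤ p) {d : Fin 5 → ZMod p} (hd : Sf4 d) :
    ((univ.filter fun c : Co p => c 6 = 0 ∧ Dd c = d).card : ℚ) =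
      ((p : ℚ) - 1) * p ^ 2 * N4 d := by
  have hfib : ∀ al ga : ZMod p,
      ((univ.filter fun c : Co p => (c 6 = 0 ∧ Dd c = d) ∧ (c 3, c 7) = (al, ga)).card : ℚ) =
      (p : ℚ) ^ 2 * (if ga = 0 ∧ -al = 0 then 0 else
        ((quadraticChar (ZMod p) (fD d ga (-al)) : ℚ) + 1)) := by
    intro al ga
    by_cases hal : al = 0
    · subst hal
      by_cases hga : ga = 0
      · subst hga
        rw [if_pos ⟨rfl, neg_zero⟩, mul_zero, Nat.cast_eq_zero, card_eq_zero,
          filter_eq_empty_iff]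
        rintro c - ⟨⟨h6, hD⟩, h37⟩
        rw [Prod.mk.injEq] at h37
        have := sing_of_a c h6 h37.1 h37.2
        exact not_sf_of_sing c h6 this (hD ▸ hd)
      · rw [if_neg (fun h => hga h.1), fib_zero hp d hga, card_prod3, nsq hp]
    · rw [if_neg (fun h => hal (neg_eq_zero.1 h.2)), fib_ne hp d hal, card_prod3, nsq hp]
  rw [card_eq_sum_card_fiberwise (f := fun c : Co p => (c 3, c 7)) (t := univ)
    (fun _ _ => mem_coe.2 (mem_univ _))]
  push_cast
  rw [← univ_product_univ, sum_product]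
  simp only [filter_filter, hfib]
  rw [← Equiv.sum_comp (Equiv.neg (ZMod p))]
  simp only [Equiv.neg_apply, neg_neg]
  simp only [← mul_sum]
  rw [sum_proj (fun x z => (quadraticChar (ZMod p) (fD d x z) : ℚ) + 1), ← N4_eq]
  · ring
  · intro t x z ht
    rw [fD_hom, chi_hom _ _ ht]

end S4

end Pool.Agent.T2H70.SR
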